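import Pool.Agent.LoopO1_f0ab88.Lattice

/-!
# Connections in the buffer region
-/

open Finset

set_option linter.unusedSectionVars false
set_option linter.unusedVariables false

namespace Pool.Agent.LoopO1

variable {d : ℕ}

/-- Shift the points of the box. -/
noncomputable def phi (d r : ℕ) (t : Vtx d) (p : Vtx d) : Vtx d := if p ∈ box d r then p + t else p

/-- A point of the buffer seen from outside. -/
def Ok (r : ℕ) (t p : Vtx d) : Prop :=
  (∀ i, -((r : ℤ) + 2) ≤ p i ∧ p i ≤ (r : ℤ) + 2) ∧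
    ∃ j : Fin d, ∃ s : ℤ, (s = 1 ∨ s = -1) ∧ (r : ℤ) ≤ s * (p j - t j)

lemma abs_le_of_nrm {t : Vtx d} (ht : nrm t ≤ 1) (i : Fin d) : -1 ≤ t i ∧ t i ≤ 1 := by
  have := (natAbs_le_nrm t i).trans ht
  omega

lemma notMem_box {n : ℕ} {v : Vtx d} (h : v ∉ box d n) :
    ∃ j : Fin d, ∃ s : ℤ, (s = 1 ∨ s = -1) ∧ (n : ℤ) + 1 ≤ s * v j := by
  rw [mem_box] at h
  push Not at h
  obtain ⟨j, hj⟩ := h
  by_cases h1 : -(n : ℤ) ≤ v j
  · exact ⟨j, 1, Or.inl rfl, by linarith [hj h1]⟩
  · exact ⟨j, -1, Or.inr rfl, by linarith [not_le.1 h1]⟩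

lemma Ok_phi {r : ℕ} {t : Vtx d} (ht : nrm t ≤ 1) {e : Edg d} (he : e ∈ ebox d (r + 2))
    (he' : e ∉ ebox d r) : Ok r t (phi d r t e.1) ∧ Ok r t (phi d r t (e.1 + Pi.single e.2 1)) := by
  have hb := mem_ebox.1 he
  have hb1 := mem_box.1 hb.1
  have hb2 := mem_box.1 hb.2
  push_cast at hb1 hb2
  have hcoord : ∀ j, (e.1 + Pi.single e.2 1 : Vtx d) j = e.1 j + (if j = e.2 then 1 else 0) := by
    intro j
    rw [Pi.add_apply, Pi.single_apply]
  have key : ∀ p q : Vtx d, (∀ j, |p j - q j| ≤ 1) →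
      (∀ i, -((r : ℤ) + 2) ≤ p i ∧ p i ≤ (r : ℤ) + 2) → (p ∈ box d r → q ∉ box d r) →
      Ok r t (phi d r t p) := by
    intro p q hpq hp hpr
    unfold phi
    by_cases h : p ∈ box d r
    · rw [if_pos h]
      obtain ⟨j, s, hs, hj⟩ := notMem_box (hpr h)
      have hm := mem_box.1 h
      refine ⟨?_, j, s, hs, ?_⟩
      · intro i
        have h1 := hm i
        have h2 := abs_le_of_nrm ht i
        rw [Pi.add_apply]
        constructor <;> linarith [h1.1, h1.2, h2.1, h2.2]
      · rw [Pi.add_apply, add_sub_cancel_right]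
        have h3 := abs_le.1 (hpq j)
        rcases hs with rfl | rfl
        · linarith [h3.1]
        · linarith [h3.2]
    · rw [if_neg h]
      obtain ⟨j, s, hs, hj⟩ := notMem_box h
      refine ⟨hp, j, s, hs, ?_⟩
      have h2 := abs_le_of_nrm ht j
      rcases hs with rfl | rfl
      · linarith [h2.2]
      · linarith [h2.1]
  have hd1 : ∀ j, |e.1 j - (e.1 + Pi.single e.2 1 : Vtx d) j| ≤ 1 := by
    intro j
    rw [hcoord]
    split_ifs <;> simp
  have hd2 : ∀ j, |(e.1 + Pi.single e.2 1 : Vtx d) j - e.1 j| ≤ 1 := by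
    intro j
    rw [abs_sub_comm]; exact hd1 j
  refine ⟨key _ _ hd1 ?_ ?_, key _ _ hd2 ?_ ?_⟩
  · intro i; exact hb1 i
  · intro h h'; exact he' (mem_ebox.2 ⟨h, h'⟩)
  · intro i; exact hb2 i
  · intro h h'; exact he' (mem_ebox.2 ⟨h', h⟩)

/-- From a point of the buffer go straight to the outer face. -/
lemma tp_out {x : ℝ} (hx : 0 ≤ x) (hx1 : x ≤ 1) {r : ℕ} {t : Vtx d} (ht : nrm t ≤ 1)
    {D : Finset (Edg d)} (hD : ∀ e ∈ ebox d (r + 2), e ∉ (ebox d r).image (sh t) → e ∈ D)
    {p : Vtx d} (hp : ∀ i, -((r : ℤ) + 2) ≤ p i ∧ p i ≤ (r : ℤ) + 2) (j : Fin d) (s : ℤ)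
    (hs : s = 1 ∨ s = -1) (hj : (r : ℤ) ≤ s * (p j - t j)) :
    x ^ 3 ≤ (lat d).tp x D p (Function.update p j (s * (r + 2))) := by
  have htj := abs_le_of_nrm ht j
  set q := Function.update p j (s * ((r : ℤ) + 2)) with hq
  have hqj : q j = s * (r + 2) := by rw [hq, Function.update_self]
  have hqi : ∀ i, i ≠ j → q i = p i := fun i hi => by rw [hq, Function.update_of_ne hi]
  refine tp_rect' hx hx1 (fun i => min (p i) (q i)) (fun i => max (p i) (q i)) D ?_ ?_ ?_ ?_
  · intro e h1 h2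
    have hbox : ∀ v : Vtx d, (∀ i, min (p i) (q i) ≤ v i ∧ v i ≤ max (p i) (q i)) →
        v ∈ box d (r + 2) := by
      intro v hv
      rw [mem_box]
      intro i
      have h3 := hv i
      have h4 := hp i
      push_cast
      by_cases hij : i = j
      · subst hij
        rw [hqj] at h3
        rcases hs with rfl | rfl
        · constructor
          · refine le_trans ?_ h3.1
            exact le_min h4.1 (by linarith)
          · refine h3.2.trans ?_
            exact max_le h4.2 (by linarith)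
        · constructor
          · refine le_trans ?_ h3.1
            exact le_min h4.1 (by linarith)
          · refine h3.2.trans ?_
            exact max_le h4.2 (by linarith)
      · rw [hqi i hij, min_self, max_self] at h3
        constructor <;> linarith [h3.1, h3.2, h4.1, h4.2]
    refine hD e (mem_ebox.2 ⟨hbox _ h1, hbox _ h2⟩) ?_
    intro hmem
    obtain ⟨e', he', rfl⟩ := Finset.mem_image.1 hmem
    have hb := mem_ebox.1 he'
    have hb1 := mem_box.1 hb.1 j
    have hb2 := mem_box.1 hb.2 j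
    simp only [sh] at h1 h2
    -- the direction must be j
    have hdir : e'.2 = j := by
      by_contra hne
      have h3 := h1 e'.2
      have h4 := h2 e'.2
      rw [hqi _ hne, min_self, max_self] at h3 h4
      simp only [Pi.add_apply, Pi.single_eq_same] at h3 h4
      linarith [h3.1, h3.2, h4.1, h4.2]
    have h3 := h1 j
    have h4 := h2 j
    rw [hqj] at h3 h4
    simp only [Pi.add_apply, hdir, Pi.single_eq_same] at h3 h4 hb1 hb2
    rcases hs with rfl | rfl
    · have : p j ≤ 1 * ((r : ℤ) + 2) := by linarith [(hp j).2]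
      rw [min_eq_left this] at h3
      linarith [h3.1, hb2.2]
    · have : -1 * ((r : ℤ) + 2) ≤ p j := by linarith [(hp j).1]
      rw [max_eq_left this] at h4
      linarith [h4.2, hb1.1]
  · rw [hq, nrm_sub_update]
    have h4 := hp j
    rcases hs with rfl | rfl
    · omega
    · omega
  · intro i; exact ⟨min_le_left _ _, le_max_left _ _⟩
  · intro i; exact ⟨min_le_right _ _, le_max_right _ _⟩

/-- Points of a common outer face are connected. -/
lemma tp_face {x : ℝ} (hx : 0 ≤ x) (hx1 : x ≤ 1) {r : ℕ} {t : Vtx d} (ht : nrm t ≤ 1)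
    {D : Finset (Edg d)} (hD : ∀ e ∈ ebox d (r + 2), e ∉ (ebox d r).image (sh t) → e ∈ D)
    {a c : Vtx d} (ha : ∀ i, -((r : ℤ) + 2) ≤ a i ∧ a i ≤ (r : ℤ) + 2)
    (hc : ∀ i, -((r : ℤ) + 2) ≤ c i ∧ c i ≤ (r : ℤ) + 2) (j : Fin d) (s : ℤ)
    (hs : s = 1 ∨ s = -1) (haj : a j = s * (r + 2)) (hcj : c j = s * (r + 2)) {n : ℕ}
    (hn : nrm (a - c) ≤ n) :
    x ^ n ≤ (lat d).tp x D a c := by
  refine tp_rect' hx hx1 (fun i => min (a i) (c i)) (fun i => max (a i) (c i)) D ?_ hn ?_ ?_
  · intro e h1 h2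
    have hbox : ∀ v : Vtx d, (∀ i, min (a i) (c i) ≤ v i ∧ v i ≤ max (a i) (c i)) →
        v ∈ box d (r + 2) := by
      intro v hv
      rw [mem_box]
      intro i
      have h3 := hv i
      push_cast
      constructor
      · exact (le_min (ha i).1 (hc i).1).trans h3.1
      · exact h3.2.trans (max_le (ha i).2 (hc i).2)
    refine hD e (mem_ebox.2 ⟨hbox _ h1, hbox _ h2⟩) ?_
    intro hmem
    obtain ⟨e', he', rfl⟩ := Finset.mem_image.1 hmem
    have hb := mem_ebox.1 he'
    have hb1 := mem_box.1 hb.1 j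
    have htj := abs_le_of_nrm ht j
    have h3 := h1 j
    simp only [haj, hcj, min_self, max_self, sh, Pi.add_apply] at h3
    rcases hs with rfl | rfl
    · linarith [h3.1, hb1.2, htj.2]
    · linarith [h3.2, hb1.1, htj.1]
  · intro i; exact ⟨min_le_left _ _, le_max_left _ _⟩
  · intro i; exact ⟨min_le_right _ _, le_max_right _ _⟩

/-- Two nearby points of the buffer are connected at bounded cost. -/
lemma tp_ok {x : ℝ} (hx : 0 ≤ x) (hx1 : x ≤ 1) {r : ℕ} (hr : 10 ≤ r) {t : Vtx d} (ht : nrm t ≤ 1)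
    {D : Finset (Edg d)} (hD : ∀ e ∈ ebox d (r + 2), e ∉ (ebox d r).image (sh t) → e ∈ D)
    {p q : Vtx d} (hp : Ok r t p) (hq : Ok r t q) (hpq : nrm (p - q) ≤ 2) :
    x ^ 22 ≤ (lat d).tp x D p q := by
  obtain ⟨hp1, j, s, hs, hj⟩ := hp
  obtain ⟨hq1, j', s', hs', hj'⟩ := hq
  set p' := Function.update p j (s * ((r : ℤ) + 2)) with hp'
  set q' := Function.update q j' (s' * ((r : ℤ) + 2)) with hq'
  have hpp : x ^ 3 ≤ (lat d).tp x D p p' := tp_out hx hx1 ht hD hp1 j s hs hj
  have hqq : x ^ 3 ≤ (lat d).tp x D q' q := by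
    rw [Gr.tp_comm]; exact tp_out hx hx1 ht hD hq1 j' s' hs' hj'
  have htj := abs_le_of_nrm ht j
  have htj' := abs_le_of_nrm ht j'
  have hp'j : p' j = s * (r + 2) := by rw [hp', Function.update_self]
  have hq'j : q' j' = s' * (r + 2) := by rw [hq', Function.update_self]
  have hd1 : nrm (p - p') ≤ 3 := by
    rw [hp', nrm_sub_update]
    have := hp1 j
    rcases hs with rfl | rfl <;> omega
  have hd2 : nrm (q - q') ≤ 3 := by
    rw [hq', nrm_sub_update]
    have := hq1 j'
    rcases hs' with rfl | rfl <;> omega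
  have hd3 : nrm (p' - q') ≤ 8 := by
    have h1 := nrm_sub_le p' p q'
    have h2 := nrm_sub_le p q q'
    rw [nrm_sub_comm] at hd1
    omega
  have hbp : ∀ i, -((r : ℤ) + 2) ≤ p' i ∧ p' i ≤ (r : ℤ) + 2 := by
    intro i
    by_cases hij : i = j
    · subst hij
      rw [hp'j]
      rcases hs with rfl | rfl <;> constructor <;> linarith
    · rw [hp', Function.update_of_ne hij]; exact hp1 i
  have hbq : ∀ i, -((r : ℤ) + 2) ≤ q' i ∧ q' i ≤ (r : ℤ) + 2 := by
    intro i
    by_cases hij : i = j'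
    · subst hij
      rw [hq'j]
      rcases hs' with rfl | rfl <;> constructor <;> linarith
    · rw [hq', Function.update_of_ne hij]; exact hq1 i
  have hmid : x ^ 16 ≤ (lat d).tp x D p' q' := by
    by_cases hjj : j = j'
    · subst hjj
      have hss : s = s' := by
        have h1 := natAbs_le_nrm (p' - q') j
        have h2 := h1.trans hd3
        rw [Pi.sub_apply, hp'j, hq'j] at h2
        rcases hs with rfl | rfl <;> rcases hs' with rfl | rfl <;> first | rfl | omega
      subst hss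
      exact tp_face hx hx1 ht hD hbp hbq j s hs hp'j hq'j (hd3.trans (by norm_num))
    · set m := Function.update p' j' (s' * ((r : ℤ) + 2)) with hm
      have hmj : m j = s * (r + 2) := by
        rw [hm, Function.update_of_ne hjj, hp'j]
      have hmj' : m j' = s' * (r + 2) := by rw [hm, Function.update_self]
      have hbm : ∀ i, -((r : ℤ) + 2) ≤ m i ∧ m i ≤ (r : ℤ) + 2 := by
        intro i
        by_cases hij : i = j'
        · subst hij
          rw [hmj']
          rcases hs' with rfl | rfl <;> constructor <;> linarith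
        · rw [hm, Function.update_of_ne hij]; exact hbp i
      have h1 : nrm (p' - m) ≤ 8 := by
        rw [hm, nrm_sub_update]
        have h1 := natAbs_le_nrm (p' - q') j'
        rw [Pi.sub_apply, hq'j] at h1
        exact h1.trans hd3
      have h2 : nrm (m - q') ≤ 8 := by
        refine le_trans ?_ hd3
        unfold nrm
        refine Finset.sum_le_sum fun i _ => ?_
        by_cases hij : i = j'
        · subst hij
          rw [Pi.sub_apply, hmj', hq'j]
          simp
        · rw [Pi.sub_apply, Pi.sub_apply, hm, Function.update_of_ne hij]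
      have h3 := tp_face hx hx1 ht hD hbp hbm j s hs hp'j hmj h1
      have h4 := tp_face hx hx1 ht hD hbm hbq j' s' hs' hmj' hq'j h2
      have h5 := Gr.gp_triangle (G := lat d) hx hx1 D p' m q'
      calc x ^ 16 = x ^ 8 * x ^ 8 := by rw [← pow_add]
        _ ≤ (lat d).tp x D p' m * (lat d).tp x D m q' :=
          mul_le_mul h3 h4 (pow_nonneg hx _) (Gr.tp_nonneg hx _ _ _)
        _ ≤ _ := h5
  have h6 := Gr.gp_triangle (G := lat d) hx hx1 D p p' q'
  have h7 := Gr.gp_triangle (G := lat d) hx hx1 D p q' q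
  calc x ^ 22 = (x ^ 3 * x ^ 16) * x ^ 3 := by rw [← pow_add, ← pow_add]
    _ ≤ ((lat d).tp x D p p' * (lat d).tp x D p' q') * (lat d).tp x D q' q := by
      refine mul_le_mul (mul_le_mul hpp hmid (pow_nonneg hx _) (Gr.tp_nonneg hx _ _ _)) hqq
        (pow_nonneg hx _) (mul_nonneg (Gr.tp_nonneg hx _ _ _) (Gr.tp_nonneg hx _ _ _))
    _ ≤ (lat d).tp x D p q' * (lat d).tp x D q' q :=
      mul_le_mul_of_nonneg_right h6 (Gr.tp_nonneg hx _ _ _)
    _ ≤ _ := h7

lemma nrm_phi {r : ℕ} {t : Vtx d} (ht : nrm t ≤ 1) (e : Edg d) :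
    nrm (phi d r t e.1 - phi d r t (e.1 + Pi.single e.2 1)) ≤ 2 := by
  have h1 : nrm (Pi.single e.2 1 : Vtx d) = 1 := nrm_single _ _
  unfold phi
  split_ifs
  · have : e.1 + t - (e.1 + Pi.single e.2 1 + t) = -Pi.single e.2 1 := by abel
    rw [this, nrm_neg, h1]; norm_num
  · have : e.1 + t - (e.1 + Pi.single e.2 1) = t + -Pi.single e.2 1 := by abel
    rw [this]
    have := nrm_add_le t (-Pi.single e.2 1)
    rw [nrm_neg, h1] at this
    omega
  · have : e.1 - (e.1 + Pi.single e.2 1 + t) = -(Pi.single e.2 1 + t) := by abel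
    rw [this, nrm_neg]
    have := nrm_add_le (Pi.single e.2 1 : Vtx d) t
    rw [h1] at this
    omega
  · have : e.1 - (e.1 + Pi.single e.2 1) = -Pi.single e.2 1 := by abel
    rw [this, nrm_neg, h1]; norm_num

/-- Connection at bounded cost for the images of the edges of the buffer. -/
lemma tp_phi {x : ℝ} (hx : 0 ≤ x) (hx1 : x ≤ 1) {r : ℕ} (hr : 10 ≤ r) {t : Vtx d} (ht : nrm t ≤ 1)
    {D : Finset (Edg d)} (hD : ∀ e ∈ ebox d (r + 2), e ∉ (ebox d r).image (sh t) → e ∈ D)
    {e : Edg d} (he : e ∈ ebox d (r + 2)) (he' : e ∉ ebox d r) :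
    x ^ 22 ≤ (lat d).tp x D (phi d r t e.1) (phi d r t (e.1 + Pi.single e.2 1)) :=
  tp_ok hx hx1 hr ht hD (Ok_phi ht he he').1 (Ok_phi ht he he').2 (nrm_phi ht e)

end Pool.Agent.LoopO1
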