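import Pool.Agent.LoopO1_f0ab88.StageOne

/-!
# Sums with sources and events; decomposition along trees
-/

open Finset

set_option linter.unusedSectionVars false
set_option linter.unusedVariables false

namespace Pool.Agent.LoopO1.Gr

variable {V E : Type*} [DecidableEq V] [DecidableEq E] (G : Gr V E) (x : ℝ)

lemma add_eq_iff_fun (a b c : V → ZMod 2) : a + c = b ↔ c = b + a := by
  constructor
  · intro h
    rw [← h, add_comm a c, add_assoc, add_self_fun, add_zero]
  · intro h
    rw [h, add_comm b a, ← add_assoc, add_self_fun, zero_add]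

open Classical in
/-- `∑_{η ⊆ D, ∂η = A} x^{|η|} F(η)`. -/
noncomputable def EZ (D : Finset E) (A : V → ZMod 2) (F : Finset E → ℝ) : ℝ :=
  ∑ η ∈ D.powerset, if G.bdS η = A then x ^ η.card * F η else 0

variable {G x}

lemma EZ_one (D : Finset E) (A : V → ZMod 2) : G.EZ x D A (fun _ => 1) = G.Zp x D A := by
  unfold EZ Zp Z bdS
  simp only [mul_one]

lemma EZ_le (hx : 0 ≤ x) (D : Finset E) (A : V → ZMod 2) {F F' : Finset E → ℝ}
    (h : ∀ η ⊆ D, F η ≤ F' η) : G.EZ x D A F ≤ G.EZ x D A F' := by
  unfold EZ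
  refine Finset.sum_le_sum fun η hη => ?_
  split_ifs
  · exact mul_le_mul_of_nonneg_left (h η (Finset.mem_powerset.1 hη)) (by positivity)
  · exact le_rfl

lemma EZ_congr (D : Finset E) (A : V → ZMod 2) {F F' : Finset E → ℝ}
    (h : ∀ η ⊆ D, F η = F' η) : G.EZ x D A F = G.EZ x D A F' := by
  unfold EZ
  refine Finset.sum_congr rfl fun η hη => ?_
  rw [h η (Finset.mem_powerset.1 hη)]

lemma EZ_nonneg (hx : 0 ≤ x) (D : Finset E) (A : V → ZMod 2) {F : Finset E → ℝ}
    (h : ∀ η ⊆ D, 0 ≤ F η) : 0 ≤ G.EZ x D A F := by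
  unfold EZ
  refine Finset.sum_nonneg fun η hη => ?_
  split_ifs
  · exact mul_nonneg (by positivity) (h η (Finset.mem_powerset.1 hη))
  · exact le_rfl

lemma EZ_mul (c : ℝ) (D : Finset E) (A : V → ZMod 2) (F : Finset E → ℝ) :
    G.EZ x D A (fun η => c * F η) = c * G.EZ x D A F := by
  unfold EZ
  rw [Finset.mul_sum]
  refine Finset.sum_congr rfl fun η _ => ?_
  split_ifs <;> ring

lemma EZ_const (c : ℝ) (D : Finset E) (A : V → ZMod 2) :
    G.EZ x D A (fun _ => c) = c * G.Zp x D A := by
  have := EZ_mul (G := G) (x := x) c D A (fun _ => 1)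
  rw [EZ_one] at this
  rw [← this]
  simp only [mul_one]

lemma EZ_add (D : Finset E) (A : V → ZMod 2) (F F' : Finset E → ℝ) :
    G.EZ x D A (fun η => F η + F' η) = G.EZ x D A F + G.EZ x D A F' := by
  unfold EZ
  rw [← Finset.sum_add_distrib]
  refine Finset.sum_congr rfl fun η _ => ?_
  split_ifs <;> ring

lemma EZ_sum {ι : Type*} (s : Finset ι) (D : Finset E) (A : V → ZMod 2)
    (F : ι → Finset E → ℝ) :
    G.EZ x D A (fun η => ∑ i ∈ s, F i η) = ∑ i ∈ s, G.EZ x D A (F i) := by
  unfold EZ
  rw [Finset.sum_comm]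
  refine Finset.sum_congr rfl fun η _ => ?_
  split_ifs
  · rw [Finset.mul_sum]
  · simp

/-- Decomposition along a tree. -/
lemma EZ_tree (D : Finset E) (B : V → ZMod 2) (F : Finset E → ℝ) (t : DT E)
    (ht : t.Valid D ∅) :
    t.sum (fun S H => x ^ H.card * G.EZ x (D \ S) (B + G.bdS H) (fun η => F (H ∪ η))) ∅ ∅
      = G.EZ x D B F := by
  classical
  have h := DT.sum_partition (D := D)
    (fun η => if G.bdS η = B then x ^ η.card * F η else 0) t ∅ ∅ ht
  rw [Finset.sdiff_empty] at h
  have h0 : ∑ η ∈ D.powerset, (if G.bdS (∅ ∪ η) = B then x ^ (∅ ∪ η).card * F (∅ ∪ η) else 0)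
      = G.EZ x D B F := by
    unfold EZ
    refine Finset.sum_congr rfl fun η _ => ?_
    rw [Finset.empty_union]
  rw [h0] at h
  rw [← h]
  refine DT.sum_congr t ∅ ∅ ?_
  refine DT.All.imp ?_ t ∅ ∅ (DT.Valid.all t ∅ ∅ ht (Finset.empty_subset _))
  rintro S H ⟨-, -, hHS, -, -⟩
  unfold EZ
  rw [Finset.mul_sum]
  refine Finset.sum_congr rfl fun η hη => ?_
  have hd : Disjoint H η := by
    rw [Finset.disjoint_left]
    intro a ha ha'
    exact (Finset.mem_sdiff.1 (Finset.mem_powerset.1 hη ha')).2 (hHS ha)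
  have h1 : G.bdS (H ∪ η) = G.bdS H + G.bdS η := by
    unfold bdS
    rw [Finset.sum_union hd]
  have h2 : (H ∪ η).card = H.card + η.card := Finset.card_union_of_disjoint hd
  have h3 : (G.bdS H + G.bdS η = B) ↔ (G.bdS η = B + G.bdS H) := add_eq_iff_fun _ _ _
  rw [h1, h2]
  simp only [h3]
  split_ifs
  · rw [pow_add]; ring
  · ring

/-- Cylinder events. -/
lemma EZ_cyl (D : Finset E) (B : V → ZMod 2) {S H : Finset E} (hS : S ⊆ D) (hH : H ⊆ S) :
    G.EZ x D B (fun η => if η ∩ S = H then 1 else 0) = x ^ H.card * G.Zp x (D \ S) (B + G.bdS H) := by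
  classical
  unfold EZ Zp Z
  rw [Finset.mul_sum]
  have hinj : Set.InjOn (fun ξ => H ∪ ξ) ((D \ S).powerset : Set (Finset E)) := by
    intro ξ hξ ξ' hξ' h
    have h1 := Finset.mem_powerset.1 (Finset.mem_coe.1 hξ)
    have h2 := Finset.mem_powerset.1 (Finset.mem_coe.1 hξ')
    ext a
    have h3 : a ∈ H ∪ ξ ↔ a ∈ H ∪ ξ' := by
      have : H ∪ ξ = H ∪ ξ' := h
      rw [this]
    rw [Finset.mem_union, Finset.mem_union] at h3
    constructor
    · intro ha
      rcases h3.1 (Or.inr ha) with h' | h'
      · exact absurd (hH h') (Finset.mem_sdiff.1 (h1 ha)).2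
      · exact h'
    · intro ha
      rcases h3.2 (Or.inr ha) with h' | h'
      · exact absurd (hH h') (Finset.mem_sdiff.1 (h2 ha)).2
      · exact h'
  have himg : (D \ S).powerset.image (fun ξ => H ∪ ξ) ⊆ D.powerset := by
    intro η hη
    obtain ⟨ξ, hξ, rfl⟩ := Finset.mem_image.1 hη
    exact Finset.mem_powerset.2 (Finset.union_subset (hH.trans hS)
      ((Finset.mem_powerset.1 hξ).trans Finset.sdiff_subset))
  have hzero : ∀ η ∈ D.powerset, η ∉ (D \ S).powerset.image (fun ξ => H ∪ ξ) →
      (if G.bdS η = B then x ^ η.card * (if η ∩ S = H then (1 : ℝ) else 0) else 0) = 0 := by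
    intro η hη hη'
    by_cases h : η ∩ S = H
    · exfalso
      apply hη'
      refine Finset.mem_image.2 ⟨η \ S, Finset.mem_powerset.2
        (Finset.sdiff_subset_sdiff (Finset.mem_powerset.1 hη) le_rfl), ?_⟩
      show H ∪ η \ S = η
      rw [← h]
      ext a
      simp only [mem_union, mem_inter, mem_sdiff]
      tauto
    · simp [h]
  rw [← Finset.sum_subset himg hzero, Finset.sum_image hinj]
  refine Finset.sum_congr rfl fun ξ hξ => ?_
  have h1 := Finset.mem_powerset.1 hξ
  have hd : Disjoint H ξ := by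
    rw [Finset.disjoint_left]
    intro a ha ha'
    exact (Finset.mem_sdiff.1 (h1 ha')).2 (hH ha)
  have h2 : (H ∪ ξ) ∩ S = H := by
    ext a
    simp only [mem_inter, mem_union]
    constructor
    · rintro ⟨ha | ha, hb⟩
      · exact ha
      · exact absurd hb (Finset.mem_sdiff.1 (h1 ha)).2
    · intro ha
      exact ⟨Or.inl ha, hH ha⟩
  have h3 : G.bdS (H ∪ ξ) = G.bdS H + ∑ e ∈ ξ, G.bd e := by
    unfold bdS
    rw [Finset.sum_union hd]
  have h4 : (G.bdS H + ∑ e ∈ ξ, G.bd e = B) ↔ (∑ e ∈ ξ, G.bd e = B + G.bdS H) :=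
    add_eq_iff_fun _ _ _
  rw [if_pos h2, h3, Finset.card_union_of_disjoint hd]
  simp only [h4, mul_one]
  split_ifs
  · rw [pow_add]
  · ring

/-! ### More on the first stage -/

lemma explore1_valid (Lam : Finset V) (D₀ : Finset E) : ∀ (n : ℕ) (D : Finset E)
    (A : V → ZMod 2) (S : Finset E), D ⊆ D₀ → Disjoint D S →
    (G.explore1 Lam n D A).Valid D₀ S := by
  intro n
  induction n with
  | zero => intro D A S _ _; exact trivial
  | succ n ih =>
    intro D A S hD hS
    unfold explore1
    split_ifs with h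
    · have he := h.choose_spec
      have h1 : D.erase h.choose ⊆ D₀ := (Finset.erase_subset _ _).trans hD
      have h2 : Disjoint (D.erase h.choose) (insert h.choose S) := by
        rw [Finset.disjoint_left]
        intro a ha ha'
        rcases Finset.mem_insert.1 ha' with h3 | h3
        · exact (Finset.mem_erase.1 ha).1 h3
        · exact (Finset.disjoint_left.1 hS) (Finset.mem_erase.1 ha).2 h3
      exact ⟨hD he.1, fun h3 => (Finset.disjoint_left.1 hS) he.1 h3, ih _ _ _ h1 h2,
        ih _ _ _ h1 h2⟩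
    · exact trivial

lemma explore1_outer (Lam : Finset V) : ∀ (n : ℕ) (D : Finset E) (A : V → ZMod 2)
    (S H : Finset E), (G.explore1 Lam n D A).All
      (fun S' _ => ∀ e ∈ S', e ∈ S ∨ ∃ v, v ∉ Lam ∧ G.Inc v e) S H := by
  intro n
  induction n with
  | zero => intro D A S H e he; exact Or.inl he
  | succ n ih =>
    intro D A S H
    unfold explore1
    split_ifs with h
    · obtain ⟨he, v, hv, hAv, hi⟩ := h.choose_spec
      refine ⟨?_, ?_⟩
      · refine DT.All.imp ?_ _ _ _ (ih (D.erase h.choose) A (insert h.choose S) H)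
        intro S' H' h' e he'
        rcases h' e he' with h1 | h1
        · rcases Finset.mem_insert.1 h1 with h2 | h2
          · right; rw [h2]; exact ⟨v, hv, hi⟩
          · exact Or.inl h2
        · exact Or.inr h1
      · refine DT.All.imp ?_ _ _ _ (ih (D.erase h.choose) (A + G.bd h.choose)
          (insert h.choose S) (insert h.choose H))
        intro S' H' h' e he'
        rcases h' e he' with h1 | h1
        · rcases Finset.mem_insert.1 h1 with h2 | h2
          · right; rw [h2]; exact ⟨v, hv, hi⟩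
          · exact Or.inl h2
        · exact Or.inr h1
    · intro e he
      exact Or.inl he

lemma explore1_all (Lam : Finset V) (D₀ : Finset E) (B : V → ZMod 2) : ∀ (n : ℕ) (D : Finset E)
    (A : V → ZMod 2) (S H : Finset E), D.card ≤ n → D = D₀ \ S → H ⊆ S → A = B + G.bdS H →
    (G.explore1 Lam n D A).All (fun S H => (∀ u, (B + G.bdS H) u = 1 → u ∈ Lam) ∨
      G.Zp x (D₀ \ S) (B + G.bdS H) = 0) S H := by
  intro n
  induction n with
  | zero =>
    intro D A S H hn hD hHS hA
    have hD0 : D = ∅ := Finset.card_eq_zero.1 (Nat.le_zero.1 hn)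
    show (∀ u, (B + G.bdS H) u = 1 → u ∈ Lam) ∨ G.Zp x (D₀ \ S) (B + G.bdS H) = 0
    rw [← hD, ← hA, hD0]
    by_cases h : A = 0
    · left
      intro u hu
      rw [h] at hu
      exact absurd hu (by simp)
    · right
      unfold Zp
      rw [Z_empty, if_neg h]
  | succ n ih =>
    intro D A S H hn hD hHS hA
    unfold explore1
    split_ifs with h
    · obtain ⟨heD, v, hv, hAv, hi⟩ := h.choose_spec
      set e := h.choose with hedef
      have heS : e ∉ S := by
        have := heD
        rw [hD] at this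
        exact (Finset.mem_sdiff.1 this).2
      have heH : e ∉ H := fun h' => heS (hHS h')
      have hc : (D.erase e).card ≤ n := by
        rw [Finset.card_erase_of_mem heD]; omega
      have hDe : D.erase e = D₀ \ insert e S := by
        rw [hD]; ext a; simp only [mem_sdiff, mem_insert, mem_erase]; tauto
      refine ⟨?_, ?_⟩
      · exact ih _ _ _ _ hc hDe (hHS.trans (Finset.subset_insert _ _)) hA
      · refine ih _ _ _ _ hc hDe (Finset.insert_subset_insert _ hHS) ?_
        rw [bdS_insert heH, hA, add_assoc]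
    · show (∀ u, (B + G.bdS H) u = 1 → u ∈ Lam) ∨ G.Zp x (D₀ \ S) (B + G.bdS H) = 0
      rw [← hD, ← hA]
      by_cases hex : ∃ u, A u = 1 ∧ u ∉ Lam
      · right
        obtain ⟨u, hu, huL⟩ := hex
        apply Zp_eq_zero (v := u)
        · rw [hu]; exact one_ne_zero
        · intro e he hi
          exact h ⟨e, he, u, huL, hu, hi⟩
      · left
        push Not at hex
        exact hex

lemma bdS_apply_eq_zero {H : Finset E} {u : V} (h : ∀ e ∈ H, ¬ G.Inc u e) : G.bdS H u = 0 := by
  unfold bdS
  rw [Finset.sum_apply]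
  refine Finset.sum_eq_zero fun e he => ?_
  have hi := h e he
  unfold Inc at hi
  push Not at hi
  unfold bd dl
  rw [Pi.add_apply, Pi.single_apply, Pi.single_apply, if_neg hi.1, if_neg hi.2, add_zero]

/-! ### Querying all edges of a list -/

lemma queryAll_valid (D₀ : Finset E) (t : Finset E → DT E) : ∀ (L : List E) (S H : Finset E),
    L.Nodup → (∀ e ∈ L, e ∈ D₀) → (∀ e ∈ L, e ∉ S) →
    (∀ H', (t H').Valid D₀ (S ∪ L.toFinset)) → (DT.queryAll L t H).Valid D₀ S
  | [], S, H, _, _, _, ht => by
    have := ht H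
    simpa [DT.queryAll] using this
  | e :: L, S, H, hL, hD, hS, ht => by
    have hL' := List.nodup_cons.1 hL
    have h1 : ∀ a ∈ L, a ∉ insert e S := by
      intro a ha ha'
      rcases Finset.mem_insert.1 ha' with h | h
      · exact hL'.1 (h ▸ ha)
      · exact hS a (List.mem_cons_of_mem _ ha) h
    have h2 : ∀ H', (t H').Valid D₀ (insert e S ∪ L.toFinset) := by
      intro H'
      have := ht H'
      have h3 : insert e S ∪ L.toFinset = S ∪ (e :: L).toFinset := by
        ext a; simp only [List.toFinset_cons, mem_union, mem_insert]; tauto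
      rw [h3]; exact this
    exact ⟨hD e List.mem_cons_self, hS e List.mem_cons_self,
      queryAll_valid D₀ t L _ _ hL'.2 (fun a ha => hD a (List.mem_cons_of_mem _ ha)) h1 h2,
      queryAll_valid D₀ t L _ _ hL'.2 (fun a ha => hD a (List.mem_cons_of_mem _ ha)) h1 h2⟩

/-- Sums over the leaves of `queryAll`. -/
lemma queryAll_sum (F : Finset E → Finset E → ℝ) (t : Finset E → DT E) :
    ∀ (L : List E) (S H : Finset E), L.Nodup → (∀ e ∈ L, e ∉ H) →
    (DT.queryAll L t H).sum F S H
      = ∑ ζ ∈ L.toFinset.powerset, (t (H ∪ ζ)).sum F (S ∪ L.toFinset) (H ∪ ζ)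
  | [], S, H, _, _ => by
    simp [DT.queryAll]
  | e :: L, S, H, hL, hH => by
    have hL' := List.nodup_cons.1 hL
    have h1 : ∀ a ∈ L, a ∉ H := fun a ha => hH a (List.mem_cons_of_mem _ ha)
    have h2 : ∀ a ∈ L, a ∉ insert e H := by
      intro a ha ha'
      rcases Finset.mem_insert.1 ha' with h | h
      · exact hL'.1 (h ▸ ha)
      · exact h1 a ha h
    have heL : e ∉ L.toFinset := fun h => hL'.1 (List.mem_toFinset.1 h)
    show (DT.queryAll L t H).sum F (insert e S) H
      + (DT.queryAll L t (insert e H)).sum F (insert e S) (insert e H) = _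
    rw [queryAll_sum F t L _ _ hL'.2 h1, queryAll_sum F t L _ _ hL'.2 h2, List.toFinset_cons,
      Finset.sum_powerset_insert heL]
    have h3 : insert e S ∪ L.toFinset = S ∪ insert e L.toFinset := by
      ext a; simp only [mem_union, mem_insert]; tauto
    rw [h3]
    congr 1
    refine Finset.sum_congr rfl fun ζ _ => ?_
    have h4 : insert e H ∪ ζ = H ∪ insert e ζ := by
      ext a; simp only [mem_union, mem_insert]; tauto
    rw [h4]

lemma queryAll_all (P : Finset E → Finset E → Prop) (t : Finset E → DT E) :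
    ∀ (L : List E) (S H : Finset E), L.Nodup → (∀ e ∈ L, e ∉ H) →
    (∀ ζ ⊆ L.toFinset, (t (H ∪ ζ)).All P (S ∪ L.toFinset) (H ∪ ζ)) →
    (DT.queryAll L t H).All P S H
  | [], S, H, _, _, h => by
    have := h ∅ (by simp)
    simpa [DT.queryAll] using this
  | e :: L, S, H, hL, hH, h => by
    have hL' := List.nodup_cons.1 hL
    have h1 : ∀ a ∈ L, a ∉ H := fun a ha => hH a (List.mem_cons_of_mem _ ha)
    have h2 : ∀ a ∈ L, a ∉ insert e H := by
      intro a ha ha'
      rcases Finset.mem_insert.1 ha' with h | h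
      · exact hL'.1 (h ▸ ha)
      · exact h1 a ha h
    have h3 : insert e S ∪ L.toFinset = S ∪ (e :: L).toFinset := by
      ext a; simp only [List.toFinset_cons, mem_union, mem_insert]; tauto
    refine ⟨queryAll_all P t L _ _ hL'.2 h1 ?_, queryAll_all P t L _ _ hL'.2 h2 ?_⟩
    · intro ζ hζ
      rw [h3]
      exact h ζ (hζ.trans (by rw [List.toFinset_cons]; exact Finset.subset_insert _ _))
    · intro ζ hζ
      rw [h3]
      have h4 : insert e H ∪ ζ = H ∪ insert e ζ := by
        ext a; simp only [mem_union, mem_insert]; tauto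
      rw [h4]
      exact h (insert e ζ) (by rw [List.toFinset_cons]; exact Finset.insert_subset_insert _ hζ)

end Pool.Agent.LoopO1.Gr
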