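import Pool.Agent.LoopO1_f0ab88.Defect

/-!
# Sums of exponentially decaying quantities
-/

open Finset

set_option linter.unusedSectionVars false
set_option linter.unusedVariables false

namespace Pool.Agent.LoopO1

variable {d : ℕ}

/-- `∑_{z ∈ ℤ^d} ρ^{|z|}`. -/
noncomputable def Msum (d : ℕ) (ρ : ℝ) : ℝ := (∑' k : ℤ, ρ ^ k.natAbs) ^ d

lemma summable_natAbs {ρ : ℝ} (h0 : 0 ≤ ρ) (h1 : ρ < 1) : Summable fun k : ℤ => ρ ^ k.natAbs := by
  apply Summable.of_nat_of_neg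
  · simpa using summable_geometric_of_lt_one h0 h1
  · simpa using summable_geometric_of_lt_one h0 h1

lemma Msum_nonneg {ρ : ℝ} (h0 : 0 ≤ ρ) : 0 ≤ Msum d ρ := by
  unfold Msum
  exact pow_nonneg (tsum_nonneg fun k => pow_nonneg h0 _) _

lemma sum_box_le {ρ : ℝ} (h0 : 0 ≤ ρ) (h1 : ρ < 1) (n : ℕ) :
    ∑ z ∈ box d n, ρ ^ nrm z ≤ Msum d ρ := by
  have h2 : ∀ z : Vtx d, ρ ^ nrm z = ∏ i, ρ ^ (z i).natAbs := by
    intro z
    unfold nrm
    rw [Finset.prod_pow_eq_pow_sum]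
  simp only [h2]
  unfold box Msum
  have h3 := Finset.prod_univ_sum (fun _ : Fin d => Finset.Icc (-(n : ℤ)) n)
    (fun (_ : Fin d) (k : ℤ) => ρ ^ k.natAbs)
  rw [← h3]
  have h4 : ∏ _i : Fin d, ∑' k : ℤ, ρ ^ k.natAbs = (∑' k : ℤ, ρ ^ k.natAbs) ^ d := by
    rw [Finset.prod_const, Finset.card_univ, Fintype.card_fin]
  rw [← h4]
  refine Finset.prod_le_prod (fun i _ => Finset.sum_nonneg fun k _ => pow_nonneg h0 _) fun i _ => ?_
  exact (summable_natAbs h0 h1).sum_le_tsum _ fun k _ => pow_nonneg h0 _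

lemma exists_box (T : Finset (Vtx d)) : ∃ n : ℕ, T ⊆ box d n := by
  classical
  refine ⟨∑ v ∈ T, nrm v, fun v hv => ?_⟩
  rw [mem_box]
  intro i
  have h1 := natAbs_le_nrm v i
  have h2 : nrm v ≤ ∑ v ∈ T, nrm v :=
    Finset.single_le_sum (f := fun v => nrm v) (fun _ _ => Nat.zero_le _) hv
  omega

lemma sum_nrm_le {ρ : ℝ} (h0 : 0 ≤ ρ) (h1 : ρ < 1) (T : Finset (Vtx d)) (u : Vtx d) :
    ∑ y ∈ T, ρ ^ nrm (u - y) ≤ Msum d ρ := by
  classical
  obtain ⟨n, hn⟩ := exists_box (T.image fun y => u - y)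
  have h2 : ∑ y ∈ T, ρ ^ nrm (u - y) = ∑ z ∈ T.image (fun y => u - y), ρ ^ nrm z := by
    rw [Finset.sum_image]
    intro a _ b _ h
    exact sub_right_injective h
  rw [h2]
  refine le_trans ?_ (sum_box_le h0 h1 n)
  exact Finset.sum_le_sum_of_subset_of_nonneg hn fun z _ _ => pow_nonneg h0 _

lemma sum_edge_le {ρ : ℝ} (h0 : 0 ≤ ρ) (h1 : ρ < 1) (T : Finset (Edg d)) (u : Vtx d) :
    ∑ e ∈ T, ρ ^ nrm (u - e.1) ≤ d * Msum d ρ := by
  classical
  have h2 : T ⊆ (T.image Prod.fst) ×ˢ (Finset.univ : Finset (Fin d)) := by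
    intro e he
    rw [Finset.mem_product]
    exact ⟨Finset.mem_image_of_mem _ he, Finset.mem_univ _⟩
  refine (Finset.sum_le_sum_of_subset_of_nonneg h2 fun e _ _ => pow_nonneg h0 _).trans ?_
  rw [Finset.sum_product]
  simp only [Finset.sum_const, Finset.card_univ, Fintype.card_fin, nsmul_eq_mul]
  rw [← Finset.mul_sum]
  exact mul_le_mul_of_nonneg_left (sum_nrm_le h0 h1 _ u) (Nat.cast_nonneg _)

/-- Exponential decay of the two point function, uniformly in the domain. -/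
structure HasDecay (d : ℕ) (x C ρ : ℝ) : Prop where
  x_pos : 0 < x
  x_lt : x < 1
  C_pos : 1 ≤ C
  ρ_pos : 0 < ρ
  ρ_lt : ρ < 1
  bound : ∀ (D : Finset (Edg d)) (u v : Vtx d), (lat d).tp x D u v ≤ C * ρ ^ nrm (u - v)

namespace HasDecay

variable {x C ρ : ℝ} (h : HasDecay d x C ρ)

include h

/-- The constant of the exploration bound. -/
noncomputable def CB (_ : HasDecay d x C ρ) : ℝ := C * (1 + ρ⁻¹) * (d * Msum d ρ) + 1

/-- The kernel. -/
noncomputable def Kr (_ : HasDecay d x C ρ) (e e' : Edg d) : ℝ :=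
  C ^ 2 * (1 + ρ⁻¹) * ρ ^ nrm (e.1 - e'.1)

lemma pow_shift (a : Vtx d) (i : Fin d) : ρ ^ nrm (a - Pi.single i 1) ≤ ρ⁻¹ * ρ ^ nrm a := by
  have h1 : nrm a ≤ nrm (a - Pi.single i 1) + 1 := by
    have h2 := nrm_add_le (a - Pi.single i 1) (Pi.single i 1)
    rw [sub_add_cancel, nrm_single] at h2
    simpa using h2
  have h3 : ρ ^ (nrm (a - Pi.single i 1) + 1) ≤ ρ ^ nrm a :=
    pow_le_pow_of_le_one h.ρ_pos.le h.ρ_lt.le h1
  rw [← div_eq_inv_mul, le_div_iff₀ h.ρ_pos, ← pow_succ]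
  exact h3

lemma CB_pos : 0 < h.CB := by
  unfold CB
  have h1 := Msum_nonneg (d := d) h.ρ_pos.le
  have h2 := h.C_pos
  have h3 := h.ρ_pos
  positivity

lemma BB_le (D : Finset (Edg d)) (v : Vtx d) : (lat d).BB x D v + 1 ≤ h.CB := by
  unfold CB
  gcongr
  unfold Gr.BB
  have hC : 0 ≤ C := zero_le_one.trans h.C_pos
  have h1 : ∀ e ∈ D, (lat d).tp x D v ((lat d).src e) + (lat d).tp x D v ((lat d).tgt e)
      ≤ C * (1 + ρ⁻¹) * ρ ^ nrm (v - e.1) := by
    intro e _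
    have h2 := h.bound D v e.1
    have h3 := h.bound D v (e.1 + Pi.single e.2 1)
    have h4 := h.pow_shift (v - e.1) e.2
    rw [sub_sub] at h4
    simp only [lat_src, lat_tgt]
    have h5 := mul_le_mul_of_nonneg_left h4 hC
    nlinarith
  refine (Finset.sum_le_sum h1).trans ?_
  rw [← Finset.mul_sum]
  refine mul_le_mul_of_nonneg_left (sum_edge_le h.ρ_pos.le h.ρ_lt D v) ?_
  have := h.ρ_pos
  positivity

lemma isKernel : Gr.IsKernel (lat d) x h.Kr := by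
  intro D e e'
  unfold Kr
  simp only [lat_src, lat_tgt]
  have hC : 0 ≤ C := zero_le_one.trans h.C_pos
  have hρ := h.ρ_pos
  have n := fun a c => Gr.tp_nonneg (G := lat d) (x := x) h.x_pos.le D a c
  have h1 := h.bound D e.1 e'.1
  have h2 := h.bound D (e.1 + Pi.single e.2 1) (e'.1 + Pi.single e'.2 1)
  have h3 := h.bound D e.1 (e'.1 + Pi.single e'.2 1)
  have h4 := h.bound D (e.1 + Pi.single e.2 1) e'.1
  have p1 : ∀ k : ℕ, ρ ^ k ≤ 1 := fun k => pow_le_one₀ hρ.le h.ρ_lt.le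
  have h5 := h.pow_shift (e.1 - e'.1) e'.2
  rw [sub_sub] at h5
  have a1 : (lat d).tp x D e.1 e'.1 *
      (lat d).tp x D (e.1 + Pi.single e.2 1) (e'.1 + Pi.single e'.2 1)
      ≤ (C * ρ ^ nrm (e.1 - e'.1)) * (C * 1) := by
    refine mul_le_mul h1 (h2.trans ?_) (n _ _) (by positivity)
    exact mul_le_mul_of_nonneg_left (p1 _) hC
  have a2 : (lat d).tp x D e.1 (e'.1 + Pi.single e'.2 1) *
      (lat d).tp x D (e.1 + Pi.single e.2 1) e'.1
      ≤ (C * (ρ⁻¹ * ρ ^ nrm (e.1 - e'.1))) * (C * 1) := by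
    refine mul_le_mul (h3.trans ?_) (h4.trans ?_) (n _ _) (by positivity)
    · exact mul_le_mul_of_nonneg_left h5 hC
    · exact mul_le_mul_of_nonneg_left (p1 _) hC
  have a3 : 0 ≤ (lat d).tp x D e.1 e'.1 *
      (lat d).tp x D (e.1 + Pi.single e.2 1) (e'.1 + Pi.single e'.2 1)
      + (lat d).tp x D e.1 (e'.1 + Pi.single e'.2 1) *
      (lat d).tp x D (e.1 + Pi.single e.2 1) e'.1 :=
    add_nonneg (mul_nonneg (n _ _) (n _ _)) (mul_nonneg (n _ _) (n _ _))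
  calc _ ≤ 1 * _ := mul_le_mul_of_nonneg_right h.x_lt.le a3
    _ = _ := one_mul _
    _ ≤ (C * ρ ^ nrm (e.1 - e'.1)) * (C * 1) + (C * (ρ⁻¹ * ρ ^ nrm (e.1 - e'.1))) * (C * 1) :=
      add_le_add a1 a2
    _ = _ := by ring

lemma Kr_nonneg (e e' : Edg d) : 0 ≤ h.Kr e e' := h.isKernel.nonneg h.x_pos.le e e'

/-- The square root of the decay rate. -/
noncomputable def sg (_ : HasDecay d x C ρ) : ℝ := Real.sqrt ρ

lemma sg_pos : 0 < h.sg := Real.sqrt_pos.2 h.ρ_pos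

lemma sg_lt : h.sg < 1 := by
  unfold sg
  rw [Real.sqrt_lt' one_pos, one_pow]
  exact h.ρ_lt

lemma sg_sq : h.sg * h.sg = ρ := Real.mul_self_sqrt h.ρ_pos.le

lemma rho_pow (k : ℕ) : ρ ^ k = h.sg ^ k * h.sg ^ k := by
  rw [← mul_pow, h.sg_sq]

omit h in
/-- `(k + 1) q^k ≤ 1/(1-q)`. -/
lemma _root_.Pool.Agent.LoopO1.succ_mul_pow_le {q : ℝ} (h0 : 0 ≤ q) (h1 : q < 1) (k : ℕ) :
    (k + 1) * q ^ k ≤ (1 - q)⁻¹ := by
  have h2 : ((k : ℝ) + 1) * q ^ k ≤ ∑ j ∈ Finset.range (k + 1), q ^ j := by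
    have h3 : ∀ j ∈ Finset.range (k + 1), q ^ k ≤ q ^ j := fun j hj =>
      pow_le_pow_of_le_one h0 h1.le (Nat.lt_succ_iff.1 (Finset.mem_range.1 hj))
    have h4 := Finset.card_nsmul_le_sum (Finset.range (k + 1)) (fun j => q ^ j) (q ^ k) h3
    rw [Finset.card_range, nsmul_eq_mul] at h4
    push_cast at h4
    exact h4
  refine h2.trans ?_
  rw [← tsum_geometric_of_lt_one h0 h1]
  exact (summable_geometric_of_lt_one h0 h1).sum_le_tsum _ fun _ _ => pow_nonneg h0 _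

/-- The constant in the cost bound. -/
noncomputable def Cc (_ : HasDecay d x C ρ) : ℝ :=
  C ^ 2 * (1 + ρ⁻¹) * (1 - Real.sqrt ρ)⁻¹ * (d * Msum d (Real.sqrt ρ))

lemma Cc_nonneg : 0 ≤ h.Cc := by
  unfold Cc
  have h1 := Msum_nonneg (d := d) h.sg_pos.le
  have h2 := h.ρ_pos
  have h3 : 0 < 1 - Real.sqrt ρ := sub_pos.2 h.sg_lt
  have h4 : 0 ≤ Msum d (Real.sqrt ρ) := h1
  positivity

lemma sum_Kr_le (T : Finset (Edg d)) (e : Edg d) :
    ∑ e' ∈ T, ((nrm (e.1 - e'.1) : ℝ) + 1) * h.Kr e e' ≤ h.Cc := by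
  unfold Cc
  have hs := h.sg_pos
  have hs1 := h.sg_lt
  have hρ := h.ρ_pos
  have h1 : ∀ e' ∈ T, ((nrm (e.1 - e'.1) : ℝ) + 1) * h.Kr e e'
      ≤ C ^ 2 * (1 + ρ⁻¹) * (1 - Real.sqrt ρ)⁻¹ * (Real.sqrt ρ) ^ nrm (e.1 - e'.1) := by
    intro e' _
    unfold Kr
    rw [h.rho_pow]
    have h2 := succ_mul_pow_le hs.le hs1 (nrm (e.1 - e'.1))
    have h3 : 0 ≤ h.sg ^ nrm (e.1 - e'.1) := pow_nonneg hs.le _
    calc ((nrm (e.1 - e'.1) : ℝ) + 1) * (C ^ 2 * (1 + ρ⁻¹) *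
          (h.sg ^ nrm (e.1 - e'.1) * h.sg ^ nrm (e.1 - e'.1)))
        = C ^ 2 * (1 + ρ⁻¹) * ((((nrm (e.1 - e'.1) : ℝ) + 1) * h.sg ^ nrm (e.1 - e'.1))
            * h.sg ^ nrm (e.1 - e'.1)) := by ring
      _ ≤ C ^ 2 * (1 + ρ⁻¹) * ((1 - h.sg)⁻¹ * h.sg ^ nrm (e.1 - e'.1)) := by gcongr
      _ = _ := by unfold sg; ring
  refine (Finset.sum_le_sum h1).trans ?_
  rw [← Finset.mul_sum]
  refine mul_le_mul_of_nonneg_left (sum_edge_le h.sg_pos.le h.sg_lt T e.1) ?_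
  have h3 : 0 < 1 - Real.sqrt ρ := sub_pos.2 h.sg_lt
  positivity

/-- Far away sums. -/
lemma sum_far_le {a c : ℕ} (hac : a ≤ c) (S T : Finset (Edg d)) (hS : S ⊆ ebox d a)
    (hT : ∀ e ∈ T, e ∉ ebox d c) :
    ∑ e ∈ S, ∑ e' ∈ T, h.Kr e e' ≤ S.card * (h.Cc * h.sg ^ (c - a)) := by
  have hs := h.sg_pos
  have hs1 := h.sg_lt
  have hρ := h.ρ_pos
  rw [← nsmul_eq_mul]
  refine Finset.sum_le_card_nsmul _ _ _ fun e he => ?_
  have hb := mem_box.1 (mem_ebox.1 (hS he)).1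
  have hn : ∀ e' ∈ T, c - a ≤ nrm (e.1 - e'.1) := by
    intro e' he'
    have h1 := hT e' he'
    rw [mem_ebox, not_and_or] at h1
    have h2 : ∃ j, (c : ℤ) ≤ |e'.1 j| := by
      rcases h1 with h1 | h1
      · obtain ⟨j, s, hs, hj⟩ := notMem_box h1
        refine ⟨j, ?_⟩
        rcases hs with rfl | rfl
        · exact le_trans (by linarith) (le_abs_self _)
        · exact le_trans (by linarith) (neg_le_abs _)
      · obtain ⟨j, s, hs, hj⟩ := notMem_box h1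
        refine ⟨j, ?_⟩
        rw [Pi.add_apply, Pi.single_apply] at hj
        rcases hs with rfl | rfl
        · refine le_trans ?_ (le_abs_self _)
          split_ifs at hj <;> linarith
        · refine le_trans ?_ (neg_le_abs _)
          split_ifs at hj <;> linarith
    obtain ⟨j, hj⟩ := h2
    have h3 := natAbs_le_nrm (e.1 - e'.1) j
    rw [Pi.sub_apply] at h3
    have h4 := hb j
    refine le_trans ?_ h3
    rcases abs_cases (e'.1 j) with h5 | h5 <;> omega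
  have h1 : ∀ e' ∈ T, h.Kr e e' ≤
      C ^ 2 * (1 + ρ⁻¹) * h.sg ^ (c - a) * h.sg ^ nrm (e.1 - e'.1) := by
    intro e' he'
    unfold Kr
    rw [h.rho_pow]
    have h2 : h.sg ^ nrm (e.1 - e'.1) ≤ h.sg ^ (c - a) :=
      pow_le_pow_of_le_one hs.le hs1.le (hn e' he')
    have h3 : 0 ≤ h.sg ^ nrm (e.1 - e'.1) := pow_nonneg hs.le _
    calc C ^ 2 * (1 + ρ⁻¹) * (h.sg ^ nrm (e.1 - e'.1) * h.sg ^ nrm (e.1 - e'.1))
        ≤ C ^ 2 * (1 + ρ⁻¹) * (h.sg ^ (c - a) * h.sg ^ nrm (e.1 - e'.1)) := by gcongr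
      _ = _ := by ring
  refine (Finset.sum_le_sum h1).trans ?_
  rw [← Finset.mul_sum]
  have h2 := sum_edge_le h.sg_pos.le h.sg_lt T e.1
  have h3 : 0 < 1 - Real.sqrt ρ := sub_pos.2 h.sg_lt
  have h4 : 1 ≤ (1 - Real.sqrt ρ)⁻¹ := by
    rw [one_le_inv₀ h3]
    have : 0 ≤ Real.sqrt ρ := Real.sqrt_nonneg _
    linarith
  have h5 : 0 ≤ (d : ℝ) * Msum d h.sg := mul_nonneg (Nat.cast_nonneg _) (Msum_nonneg hs.le)
  calc C ^ 2 * (1 + ρ⁻¹) * h.sg ^ (c - a) * ∑ e' ∈ T, h.sg ^ nrm (e.1 - e'.1)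
      ≤ C ^ 2 * (1 + ρ⁻¹) * h.sg ^ (c - a) * (d * Msum d h.sg) :=
        mul_le_mul_of_nonneg_left h2 (by positivity)
    _ = (C ^ 2 * (1 + ρ⁻¹) * (d * Msum d h.sg)) * 1 * h.sg ^ (c - a) := by ring
    _ ≤ (C ^ 2 * (1 + ρ⁻¹) * (d * Msum d h.sg)) * (1 - Real.sqrt ρ)⁻¹ * h.sg ^ (c - a) := by
        gcongr
    _ = _ := by unfold Cc sg; ring

end HasDecay

/-! ### The cost of cutting at radius `r` -/

lemma ebox_count (e : Edg d) (N : ℕ) :
    ((Finset.range N).filter fun r => e ∈ ebox d (r + 2) ∧ e ∉ ebox d r).card ≤ 2 := by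
  classical
  set F := (Finset.range N).filter fun r => e ∈ ebox d (r + 2) ∧ e ∉ ebox d r with hF
  by_cases hne : F.Nonempty
  · set r₀ := F.min' hne
    have h0 := (Finset.mem_filter.1 (F.min'_mem hne)).2
    have hsub : F ⊆ Finset.Icc r₀ (r₀ + 1) := by
      intro r hr
      rw [Finset.mem_Icc]
      refine ⟨F.min'_le r hr, ?_⟩
      by_contra hcon
      push Not at hcon
      exact (Finset.mem_filter.1 hr).2.2 (ebox_mono (by omega) h0.1)
    refine (Finset.card_le_card hsub).trans ?_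
    rw [Nat.card_Icc]
    omega
  · rw [Finset.not_nonempty_iff_eq_empty.1 hne]; simp

lemma pair_count (e e' : Edg d) (N : ℕ) :
    ((Finset.range N).filter fun r => e ∈ ebox d r ∧ e' ∉ ebox d (r + 2)).card
      ≤ nrm (e.1 - e'.1) + 1 := by
  classical
  set F := (Finset.range N).filter fun r => e ∈ ebox d r ∧ e' ∉ ebox d (r + 2) with hF
  by_cases hne : F.Nonempty
  · set r₀ := F.min' hne
    have h0 := (Finset.mem_filter.1 (F.min'_mem hne)).2
    have hb := mem_box.1 (mem_ebox.1 h0.1).1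
    have hsub : F ⊆ Finset.Icc r₀ (r₀ + nrm (e.1 - e'.1)) := by
      intro r hr
      rw [Finset.mem_Icc]
      refine ⟨F.min'_le r hr, ?_⟩
      have h1 := (Finset.mem_filter.1 hr).2.2
      rw [mem_ebox, not_and_or] at h1
      have h2 : ∃ j, ((r : ℤ) + 2) ≤ |e'.1 j| := by
        rcases h1 with h1 | h1
        · obtain ⟨j, s, hs, hj⟩ := notMem_box h1
          push_cast at hj
          refine ⟨j, ?_⟩
          rcases hs with rfl | rfl
          · exact le_trans (by linarith) (le_abs_self _)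
          · exact le_trans (by linarith) (neg_le_abs _)
        · obtain ⟨j, s, hs, hj⟩ := notMem_box h1
          refine ⟨j, ?_⟩
          rw [Pi.add_apply, Pi.single_apply] at hj
          push_cast at hj
          rcases hs with rfl | rfl
          · refine le_trans ?_ (le_abs_self _)
            split_ifs at hj <;> linarith
          · refine le_trans ?_ (neg_le_abs _)
            split_ifs at hj <;> linarith
      obtain ⟨j, hj⟩ := h2
      have h3 := natAbs_le_nrm (e.1 - e'.1) j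
      rw [Pi.sub_apply] at h3
      have h4 := hb j
      rcases abs_cases (e'.1 j) with h5 | h5 <;> omega
    refine (Finset.card_le_card hsub).trans ?_
    rw [Nat.card_Icc]
    omega
  · rw [Finset.not_nonempty_iff_eq_empty.1 hne]; simp

namespace HasDecay

variable {x C ρ : ℝ} (h : HasDecay d x C ρ)

/-- The cost of cutting at radius `r`. -/
noncomputable def cost (r : ℕ) (S : Finset (Edg d)) : ℝ :=
  (S ∩ (ebox d (r + 2) \ ebox d r)).card
    + ∑ e ∈ S ∩ ebox d r, ∑ e' ∈ S \ ebox d (r + 2), h.Kr e e'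

lemma cost_nonneg (r : ℕ) (S : Finset (Edg d)) : 0 ≤ h.cost r S :=
  add_nonneg (Nat.cast_nonneg _)
    (Finset.sum_nonneg fun e _ => Finset.sum_nonneg fun e' _ => h.Kr_nonneg e e')

lemma sum_cost_le (N : ℕ) (S : Finset (Edg d)) :
    ∑ r ∈ Finset.range N, h.cost r S ≤ (2 + h.Cc) * S.card := by
  classical
  unfold cost
  rw [Finset.sum_add_distrib]
  have h1 : ∑ r ∈ Finset.range N, ((S ∩ (ebox d (r + 2) \ ebox d r)).card : ℝ) ≤ 2 * S.card := by
    have e1 : ∀ r, ((S ∩ (ebox d (r + 2) \ ebox d r)).card : ℝ)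
        = ∑ e ∈ S, if e ∈ ebox d (r + 2) ∧ e ∉ ebox d r then (1 : ℝ) else 0 := by
      intro r
      rw [← Finset.sum_filter, Finset.sum_const, nsmul_eq_mul, mul_one]
      congr 2
      ext e
      simp only [mem_inter, mem_sdiff, mem_filter]
    simp only [e1]
    rw [Finset.sum_comm]
    have e2 : ∀ e ∈ S, ∑ r ∈ Finset.range N,
        (if e ∈ ebox d (r + 2) ∧ e ∉ ebox d r then (1 : ℝ) else 0) ≤ 2 := by
      intro e _
      rw [← Finset.sum_filter, Finset.sum_const, nsmul_eq_mul, mul_one]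
      exact_mod_cast ebox_count e N
    refine (Finset.sum_le_card_nsmul _ _ _ e2).trans_eq ?_
    rw [nsmul_eq_mul, mul_comm]
  have h2 : ∑ r ∈ Finset.range N, ∑ e ∈ S ∩ ebox d r, ∑ e' ∈ S \ ebox d (r + 2), h.Kr e e'
      ≤ h.Cc * S.card := by
    have e1 : ∀ r, ∑ e ∈ S ∩ ebox d r, ∑ e' ∈ S \ ebox d (r + 2), h.Kr e e'
        = ∑ e ∈ S, ∑ e' ∈ S, if e ∈ ebox d r ∧ e' ∉ ebox d (r + 2) then h.Kr e e' else 0 := by
      intro r
      have : S ∩ ebox d r = S.filter fun e => e ∈ ebox d r := by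
        ext e; simp only [mem_inter, mem_filter]
      rw [this, Finset.sum_filter]
      refine Finset.sum_congr rfl fun e _ => ?_
      split_ifs with he
      · have h3 : S \ ebox d (r + 2) = S.filter fun e' => e' ∉ ebox d (r + 2) := by
          ext e'; simp only [mem_sdiff, mem_filter]
        rw [h3, Finset.sum_filter]
        refine Finset.sum_congr rfl fun e' _ => ?_
        simp [he]
      · symm
        refine Finset.sum_eq_zero fun e' _ => ?_
        simp [he]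
    simp only [e1]
    rw [Finset.sum_comm]
    have e2 : ∀ e ∈ S, ∑ r ∈ Finset.range N, ∑ e' ∈ S,
        (if e ∈ ebox d r ∧ e' ∉ ebox d (r + 2) then h.Kr e e' else 0) ≤ h.Cc := by
      intro e _
      rw [Finset.sum_comm]
      refine le_trans ?_ (h.sum_Kr_le S e)
      refine Finset.sum_le_sum fun e' _ => ?_
      rw [← Finset.sum_filter, Finset.sum_const, nsmul_eq_mul]
      refine mul_le_mul_of_nonneg_right ?_ (h.Kr_nonneg e e')
      exact_mod_cast pair_count e e' N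
    refine (Finset.sum_le_card_nsmul _ _ _ e2).trans_eq ?_
    rw [nsmul_eq_mul, mul_comm]
  linarith

end HasDecay

end Pool.Agent.LoopO1
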