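import Pool.Agent.LoopO1_f0ab88.Annulus

/-!
# Resolving the defects created by the shift
-/

open Finset

set_option linter.unusedSectionVars false
set_option linter.unusedVariables false

namespace Pool.Agent.LoopO1

variable {d : ℕ}

/-- Correlations of sums of pairs. -/
lemma Gr.gp_sum_ge {V E ι : Type*} [DecidableEq V] [DecidableEq E] {G : Gr V E} {x : ℝ}
    (hx : 0 ≤ x) (hx1 : x ≤ 1) (D : Finset E) (T : Finset ι) (a c : ι → V) (q : ℝ) (hq : 0 ≤ q)
    (h : ∀ i ∈ T, q ≤ G.tp x D (a i) (c i)) :
    q ^ T.card ≤ G.gp x D (∑ i ∈ T, (dl (a i) + dl (c i))) := by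
  classical
  induction T using Finset.induction_on with
  | empty => simp [Gr.gp_zero hx]
  | insert i T hi ih =>
    rw [Finset.card_insert_of_notMem hi, Finset.sum_insert hi, pow_succ, mul_comm]
    have h1 := ih fun j hj => h j (Finset.mem_insert_of_mem hj)
    have h2 := h i (Finset.mem_insert_self i T)
    calc q * q ^ T.card ≤ G.tp x D (a i) (c i) * G.gp x D (∑ i ∈ T, (dl (a i) + dl (c i))) :=
          mul_le_mul h2 h1 (pow_nonneg hq _) (Gr.tp_nonneg hx _ _ _)
      _ ≤ _ := Gr.gks_g hx hx1 _ _ _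

/-- The source set of a configuration as a finitely supported function. -/
noncomputable def bF (H : Finset (Edg d)) : Vtx d →₀ ZMod 2 :=
  ∑ e ∈ H, (Finsupp.single e.1 1 + Finsupp.single (e.1 + Pi.single e.2 1) 1)

lemma coe_single (v : Vtx d) : ⇑(Finsupp.single v (1 : ZMod 2)) = dl v := by
  unfold dl
  rw [Finsupp.single_eq_pi_single]

lemma coe_bF (H : Finset (Edg d)) : ⇑(bF H) = (lat d).bdS H := by
  unfold bF Gr.bdS Gr.bd
  rw [Finsupp.coe_finsetSum]
  refine Finset.sum_congr rfl fun e _ => ?_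
  rw [Finsupp.coe_add, coe_single, coe_single]
  rfl

lemma finsupp_two (A : Vtx d →₀ ZMod 2) : A + A = 0 := by
  ext v
  rw [Finsupp.add_apply, Finsupp.zero_apply]
  exact CharTwo.add_self_eq_zero (A v)

lemma bF_eq_zero {H : Finset (Edg d)} {p : Vtx d}
    (h : ∀ e ∈ H, p ≠ e.1 ∧ p ≠ e.1 + Pi.single e.2 1) : bF H p = 0 := by
  have : bF H p = (lat d).bdS H p := by rw [coe_bF]
  rw [this]
  apply Gr.bdS_apply_eq_zero
  intro e he hi
  rcases hi with h' | h'
  · exact (h e he).1 h'
  · exact (h e he).2 h'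

/-- **Defects of the shifted configuration.** -/
theorem defect_lower {x : ℝ} (hx : 0 ≤ x) (hx1 : x ≤ 1) {r : ℕ} (hr : 10 ≤ r) {t : Vtx d}
    (ht : nrm t ≤ 1) {D D' : Finset (Edg d)}
    (hD' : ∀ e ∈ ebox d (r + 2), e ∉ (ebox d r).image (sh t) → e ∈ D')
    {B : Vtx d → ZMod 2} (hB : ∀ p ∈ box d r, B p = 0) {H : Finset (Edg d)} (hHD : H ⊆ D)
    (hH : B + (lat d).bdS H = 0) :
    x ^ (22 * (H ∩ (ebox d (r + 2) \ ebox d r)).card) ≤
      (lat d).gp x D' (B + (lat d).bdS (Gr.mv (sh t) (ebox d r) (D \ ebox d (r + 2)) H)) := by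
  set I := ebox d r with hI
  set O := D \ ebox d (r + 2) with hO
  set R := ebox d (r + 2) \ ebox d r with hR
  have hIe : I ⊆ ebox d (r + 2) := ebox_mono (by omega)
  -- decomposition of `H`
  have hHdec : bF H = bF (H ∩ O) + bF (H ∩ R) + bF (H ∩ I) := by
    unfold bF
    have h1 : H = (H ∩ O) ∪ ((H ∩ R) ∪ (H ∩ I)) := by
      ext e
      simp only [hO, hR, mem_union, mem_inter, mem_sdiff]
      constructor
      · intro he
        by_cases h2 : e ∈ ebox d (r + 2)
        · by_cases h3 : e ∈ ebox d r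
          · exact Or.inr (Or.inr ⟨he, h3⟩)
          · exact Or.inr (Or.inl ⟨he, h2, h3⟩)
        · exact Or.inl ⟨he, hHD he, h2⟩
      · rintro (h | h | h) <;> exact h.1
    have h2 : Disjoint (H ∩ R) (H ∩ I) := by
      rw [Finset.disjoint_left]
      intro e he he'
      exact (Finset.mem_sdiff.1 (Finset.mem_inter.1 he).2).2 (Finset.mem_inter.1 he').2
    have h3 : Disjoint (H ∩ O) ((H ∩ R) ∪ (H ∩ I)) := by
      rw [Finset.disjoint_left]
      intro e he he'
      have h4 := (Finset.mem_sdiff.1 (Finset.mem_inter.1 he).2).2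
      rcases Finset.mem_union.1 he' with h5 | h5
      · exact h4 (Finset.mem_sdiff.1 (Finset.mem_inter.1 h5).2).1
      · exact h4 (hIe (Finset.mem_inter.1 h5).2)
    conv_lhs => rw [h1]
    rw [Finset.sum_union h3, Finset.sum_union h2, add_assoc]
  -- the boundary of the moved configuration
  have himg : ∀ e ∈ I, sh t e ∈ ebox d (r + 2) := by
    intro e he
    have hb := mem_ebox.1 he
    have hb1 := mem_box.1 hb.1
    have hb2 := mem_box.1 hb.2
    rw [mem_ebox, mem_box, mem_box]
    constructor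
    · intro i
      have h1 := hb1 i
      have h2 := abs_le_of_nrm ht i
      simp only [sh, Pi.add_apply]
      push_cast
      constructor <;> linarith [h1.1, h1.2, h2.1, h2.2]
    · intro i
      have h1 := hb2 i
      have h2 := abs_le_of_nrm ht i
      simp only [sh, Pi.add_apply] at h1 ⊢
      push_cast
      constructor <;> linarith [h1.1, h1.2, h2.1, h2.2]
  have hmv : (lat d).bdS (Gr.mv (sh t) I O H) = ⇑(bF (H ∩ O)) +
      ⇑(Finsupp.mapDomain (fun p => p + t) (bF (H ∩ I))) := by
    unfold Gr.mv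
    have hdis : Disjoint (H ∩ O) ((H ∩ I).image (sh t)) := by
      rw [Finset.disjoint_left]
      intro e he he'
      obtain ⟨e', he'', rfl⟩ := Finset.mem_image.1 he'
      exact (Finset.mem_sdiff.1 (Finset.mem_inter.1 he).2).2 (himg e' (Finset.mem_inter.1 he'').2)
    have h1 : (lat d).bdS (H ∩ O ∪ (H ∩ I).image (sh t)) =
        (lat d).bdS (H ∩ O) + (lat d).bdS ((H ∩ I).image (sh t)) := by
      unfold Gr.bdS
      rw [Finset.sum_union hdis]
    rw [h1, ← coe_bF (H ∩ O)]
    congr 1
    rw [← coe_bF]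
    congr 1
    unfold bF
    rw [Finset.sum_image (fun a _ b _ h => sh_inj t h), Finsupp.mapDomain_finsetSum]
    refine Finset.sum_congr rfl fun e _ => ?_
    rw [Finsupp.mapDomain_add, Finsupp.mapDomain_single, Finsupp.mapDomain_single]
    simp only [sh]
    congr 2
    abel
  -- `Q = A_R + A_I` vanishes on the box
  have hOtouch : ∀ p ∈ box d r, bF (H ∩ O) p = 0 := by
    intro p hp
    apply bF_eq_zero
    intro e he
    have heO := (Finset.mem_sdiff.1 (Finset.mem_inter.1 he).2).2
    have hp' := mem_box.1 hp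
    constructor
    · intro h
      apply heO
      rw [mem_ebox, mem_box, mem_box]
      constructor
      · intro i; rw [← h]; have := hp' i; push_cast; constructor <;> linarith [this.1, this.2]
      · intro i
        rw [← h, Pi.add_apply, Pi.single_apply]
        have := hp' i
        push_cast
        split_ifs <;> constructor <;> linarith [this.1, this.2]
    · intro h
      apply heO
      have h1 : e.1 = p - Pi.single e.2 1 := by rw [h]; abel
      rw [mem_ebox, mem_box, mem_box]
      constructor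
      · intro i
        rw [h1, Pi.sub_apply, Pi.single_apply]
        have := hp' i
        push_cast
        split_ifs <;> constructor <;> linarith [this.1, this.2]
      · intro i; rw [← h]; have := hp' i; push_cast; constructor <;> linarith [this.1, this.2]
  have hBH : B = ⇑(bF H) := by
    rw [coe_bF]
    have := hH
    calc B = B + ((lat d).bdS H + (lat d).bdS H) := by rw [add_self_fun, add_zero]
      _ = (B + (lat d).bdS H) + (lat d).bdS H := by rw [add_assoc]
      _ = _ := by rw [hH, zero_add]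
  set Q := bF (H ∩ R) + bF (H ∩ I) with hQ
  have hQ0 : ∀ p ∈ box d r, Q p = 0 := by
    intro p hp
    have h1 : bF H p = 0 := by rw [← hB p hp, hBH]
    have h2 : Q p + bF (H ∩ O) p = bF H p := by
      rw [hHdec, hQ]
      simp only [Finsupp.add_apply]
      ring
    rw [h1, hOtouch p hp, add_zero] at h2
    exact h2
  have hmapQ : Finsupp.mapDomain (phi d r t) Q = Q := by
    have h1 : Finsupp.mapDomain (phi d r t) Q = Finsupp.mapDomain id Q := by
      apply Finsupp.mapDomain_congr
      intro p hp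
      have hp' : p ∉ box d r := fun h => (Finsupp.mem_support_iff.1 hp) (hQ0 p h)
      unfold phi
      rw [if_neg hp']
      rfl
    rw [h1, Finsupp.mapDomain_id]
  have hmapI : Finsupp.mapDomain (phi d r t) (bF (H ∩ I))
      = Finsupp.mapDomain (fun p => p + t) (bF (H ∩ I)) := by
    apply Finsupp.mapDomain_congr
    intro p hp
    have hp' : p ∈ box d r := by
      by_contra hcon
      apply Finsupp.mem_support_iff.1 hp
      apply bF_eq_zero
      intro e he
      have hb := mem_ebox.1 (Finset.mem_inter.1 he).2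
      exact ⟨fun h => hcon (h ▸ hb.1), fun h => hcon (h ▸ hb.2)⟩
    unfold phi
    rw [if_pos hp']
  have hmapR : Finsupp.mapDomain (phi d r t) (bF (H ∩ R))
      = Q + Finsupp.mapDomain (fun p => p + t) (bF (H ∩ I)) := by
    have h1 : bF (H ∩ R) = Q + bF (H ∩ I) := by
      rw [hQ, add_assoc, finsupp_two, add_zero]
    conv_lhs => rw [h1]
    rw [Finsupp.mapDomain_add, hmapQ, hmapI]
  have hmapR' : ⇑(Finsupp.mapDomain (phi d r t) (bF (H ∩ R)))
      = ∑ e ∈ H ∩ R, (dl (phi d r t e.1) + dl (phi d r t (e.1 + Pi.single e.2 1))) := by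
    unfold bF
    rw [Finsupp.mapDomain_finsetSum, Finsupp.coe_finsetSum]
    refine Finset.sum_congr rfl fun e _ => ?_
    rw [Finsupp.mapDomain_add, Finsupp.mapDomain_single, Finsupp.mapDomain_single,
      Finsupp.coe_add, coe_single, coe_single]
  have hfinal : B + (lat d).bdS (Gr.mv (sh t) I O H)
      = ∑ e ∈ H ∩ R, (dl (phi d r t e.1) + dl (phi d r t (e.1 + Pi.single e.2 1))) := by
    rw [← hmapR', hmapR, hmv, hBH, hHdec, hQ]
    rw [← Finsupp.coe_add, ← Finsupp.coe_add]
    congr 1
    have h1 := finsupp_two (bF (H ∩ O))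
    calc bF (H ∩ O) + bF (H ∩ R) + bF (H ∩ I)
          + (bF (H ∩ O) + Finsupp.mapDomain (fun p => p + t) (bF (H ∩ I)))
        = (bF (H ∩ O) + bF (H ∩ O)) + (bF (H ∩ R) + bF (H ∩ I)
          + Finsupp.mapDomain (fun p => p + t) (bF (H ∩ I))) := by abel
      _ = _ := by rw [h1, zero_add]
  rw [hfinal, pow_mul]
  apply Gr.gp_sum_ge hx hx1 D' (H ∩ R) (fun e => phi d r t e.1)
    (fun e => phi d r t (e.1 + Pi.single e.2 1)) (x ^ 22) (pow_nonneg hx _)
  intro e he
  have heR := Finset.mem_sdiff.1 (Finset.mem_inter.1 he).2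
  exact tp_phi hx hx1 hr ht hD' heR.1 heR.2

end Pool.Agent.LoopO1
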