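import Mathlib

/-!
# The loop O(1) model and the Ising critical point: definitions

Everything lives on `ℤ^d` with its nearest-neighbour edges.
-/

open Finset MeasureTheory

namespace Pool.Agent.LoopO1

/-- Vertices of `ℤ^d`. -/
abbrev Vtx (d : ℕ) := Fin d → ℤ

/-- Edges of `ℤ^d`: `(v, i)` stands for the edge `{v, v + e_i}`. -/
abbrev Edg (d : ℕ) := Vtx d × Fin d

variable {d : ℕ}

/-- `v` is an endpoint of the edge `e`. -/
def IsEnd (v : Vtx d) (e : Edg d) : Prop := v = e.1 ∨ v = e.1 + Pi.single e.2 1

instance (v : Vtx d) (e : Edg d) : Decidable (IsEnd v e) := by unfold IsEnd; infer_instance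

/-! ### The loop O(1) model -/

/-- The source set `∂η` of the finite edge set `η` in the finite vertex set `W`: the vertices of `W`
incident to an odd number of edges of `η`. -/
def srcs (W : Finset (Vtx d)) (η : Finset (Edg d)) : Finset (Vtx d) :=
  W.filter fun v => Odd (η.filter fun e => IsEnd v e).card

/-- The partition function of the loop O(1) model with sources `B` on the finite graph `(W, D)`. -/
def loopZ (x : ℝ) (W : Finset (Vtx d)) (D : Finset (Edg d)) (B : Finset (Vtx d)) : ℝ :=
  ∑ η ∈ D.powerset.filter fun η => srcs W η = B, x ^ η.card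

/-- The probability `ℓ^B_{G,x}[η]` of the loop O(1) model with sources `B` on the finite graph
`G = (W, D)`. -/
noncomputable def loopP (x : ℝ) (W : Finset (Vtx d)) (D : Finset (Edg d)) (B : Finset (Vtx d))
    (η : Finset (Edg d)) : ℝ :=
  if srcs W η = B then x ^ η.card / loopZ x W D B else 0

/-- Configurations on `ℤ^d`: `ω e = true` means that `e` is open. -/
abbrev Cfg (d : ℕ) := Edg d → Bool

/-- The σ-algebra generated by the edges outside the finite set `D`. -/
@[reducible] def outsideσ (D : Finset (Edg d)) : MeasurableSpace (Cfg d) :=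
  MeasurableSpace.comap (fun (ω : Cfg d) (e : {e : Edg d // e ∉ D}) => ω e) MeasurableSpace.pi

/-- The set of vertices of `W` incident to an odd number of open edges of `ω` outside `D`. -/
noncomputable def bsrc (W : Finset (Vtx d)) (D : Finset (Edg d)) (ω : Cfg d) : Finset (Vtx d) :=
  W.filter fun v => Odd (Set.ncard {e : Edg d | e ∉ D ∧ ω e = true ∧ IsEnd v e})

/-- The event that `ω` restricted to `D` is `η`. -/
def cyl (D η : Finset (Edg d)) : Set (Cfg d) := {ω | ∀ e ∈ D, ω e = true ↔ e ∈ η}

/-- Gibbs measures of the loop O(1) model on `ℤ^d` with parameter `x`: for every finite subgraph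
`G = (W, D)`, almost surely the conditional law of `ω|_D` given `ω` outside `D` is `ℓ^B_{G,x}`, where
`B` is the set of vertices of `G` with an odd number of open edges outside `D`. -/
structure IsGibbs (d : ℕ) (x : ℝ) (μ : Measure (Cfg d)) : Prop where
  prob : IsProbabilityMeasure μ
  dlr : ∀ (W : Finset (Vtx d)) (D : Finset (Edg d)), (∀ e ∈ D, ∀ v, IsEnd v e → v ∈ W) →
    ∀ η ⊆ D, μ[(cyl D η).indicator (fun _ => (1 : ℝ)) | outsideσ D]
      =ᵐ[μ] fun ω => loopP x W D (bsrc W D ω) η

/-! ### The Ising model and its critical inverse temperature -/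

/-- The box `[-n, n]^d`. -/
noncomputable def box (d n : ℕ) : Finset (Vtx d) := Fintype.piFinset fun _ => Finset.Icc (-(n : ℤ)) n

/-- The edges of `ℤ^d` with at least one endpoint in the box `[-n, n]^d`. -/
noncomputable def tbox (d n : ℕ) : Finset (Edg d) :=
  ((box d (n + 1)) ×ˢ (Finset.univ : Finset (Fin d))).filter fun e =>
    e.1 ∈ box d n ∨ e.1 + Pi.single e.2 1 ∈ box d n

/-- The spin at `v` of the configuration whose set of minus spins is `S`. -/
def spin (S : Finset (Vtx d)) (v : Vtx d) : ℝ := if v ∈ S then -1 else 1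

/-- The Boltzmann weight, at inverse temperature `β`, of the configuration in the box `[-n, n]^d` whose
set of minus spins is `S`, with plus spins outside the box. -/
noncomputable def isingW (d n : ℕ) (β : ℝ) (S : Finset (Vtx d)) : ℝ :=
  Real.exp (β * ∑ e ∈ tbox d n, spin S e.1 * spin S (e.1 + Pi.single e.2 1))

/-- The magnetisation `⟨σ_0⟩^+` of the Ising model in the box `[-n, n]^d` with plus boundary
conditions. -/
noncomputable def mPlus (d n : ℕ) (β : ℝ) : ℝ :=
  (∑ S ∈ (box d n).powerset, spin S 0 * isingW d n β S) / ∑ S ∈ (box d n).powerset, isingW d n β S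

/-- The spontaneous magnetisation `m*(β)`, the (decreasing) limit of `⟨σ_0⟩^+` in the box `[-n, n]^d`. -/
noncomputable def mStar (d : ℕ) (β : ℝ) : ℝ := ⨅ n, mPlus d n β

/-- The critical inverse temperature `β_c(d)` of the nearest-neighbour Ising model on `ℤ^d`. -/
noncomputable def betac (d : ℕ) : ℝ := sInf {β : ℝ | 0 ≤ β ∧ 0 < mStar d β}

end Pool.Agent.LoopO1
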