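import Pool.Agent.LoopO1_f0ab88.StageTwo

/-!
# The explored set has density zero: frequencies of local patterns
-/

open Finset

set_option linter.unusedSectionVars false
set_option linter.unusedVariables false

namespace Pool.Agent.LoopO1

variable {d : ℕ}

/-- Limit of the probability that `F` is closed. -/
noncomputable def fI (d : ℕ) (x : ℝ) (F : Finset (Edg d)) : ℝ := ⨅ n, (lat d).f x (ebox d n) F

/-- Limit of the correlation outside `F`. -/
noncomputable def gI (d : ℕ) (x : ℝ) (F ζ : Finset (Edg d)) : ℝ :=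
  ⨆ n, (lat d).gp x (ebox d n \ F) ((lat d).bdS ζ)

/-- The infinite volume pattern probability. -/
noncomputable def pI (d : ℕ) (x : ℝ) (F ζ : Finset (Edg d)) : ℝ := x ^ ζ.card * (fI d x F * gI d x F ζ)

lemma bddBelow_f {x : ℝ} (hx : 0 ≤ x) (F : Finset (Edg d)) :
    BddBelow (Set.range fun n => (lat d).f x (ebox d n) F) :=
  ⟨0, by rintro _ ⟨n, rfl⟩; exact (Gr.f_pos hx _ _).le⟩

lemma bddAbove_gp {x : ℝ} (hx : 0 ≤ x) (hx1 : x ≤ 1) (F ζ : Finset (Edg d)) :
    BddAbove (Set.range fun n => (lat d).gp x (ebox d n \ F) ((lat d).bdS ζ)) :=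
  ⟨1, by rintro _ ⟨n, rfl⟩; exact Gr.gp_le_one hx hx1 _ _⟩

lemma fI_nonneg {x : ℝ} (hx : 0 ≤ x) (F : Finset (Edg d)) : 0 ≤ fI d x F :=
  le_ciInf fun n => (Gr.f_pos hx _ _).le

lemma gI_nonneg {x : ℝ} (hx : 0 ≤ x) (hx1 : x ≤ 1) (F ζ : Finset (Edg d)) : 0 ≤ gI d x F ζ :=
  (Gr.gp_nonneg hx _ _).trans (le_ciSup (bddAbove_gp hx hx1 F ζ) 0)

lemma gI_le_one {x : ℝ} (hx : 0 ≤ x) (hx1 : x ≤ 1) (F ζ : Finset (Edg d)) : gI d x F ζ ≤ 1 :=
  ciSup_le fun n => Gr.gp_le_one hx hx1 _ _

lemma exists_ebox (D : Finset (Edg d)) : ∃ n : ℕ, D ⊆ ebox d n := by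
  classical
  obtain ⟨n, hn⟩ := exists_box ((D.image (fun e : Edg d => (e.1 : Vtx d))) ∪
    (D.image (fun e : Edg d => (e.1 + Pi.single e.2 1 : Vtx d))))
  refine ⟨n, fun e he => mem_ebox.2 ⟨hn ?_, hn ?_⟩⟩
  · exact Finset.mem_union_left _ (Finset.mem_image_of_mem (fun e : Edg d => e.1) he)
  · exact Finset.mem_union_right _
      (Finset.mem_image_of_mem (fun e : Edg d => e.1 + Pi.single e.2 1) he)

lemma gp_le_gI {x : ℝ} (hx : 0 ≤ x) (hx1 : x ≤ 1) (D F ζ : Finset (Edg d)) :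
    (lat d).gp x (D \ F) ((lat d).bdS ζ) ≤ gI d x F ζ := by
  obtain ⟨n, hn⟩ := exists_ebox D
  exact (Gr.gp_mono hx hx1 (Finset.sdiff_subset_sdiff hn le_rfl) _).trans
    (le_ciSup (bddAbove_gp hx hx1 F ζ) n)

lemma cyl_prob {x : ℝ} (hx : 0 ≤ x) (D : Finset (Edg d)) {F ζ : Finset (Edg d)} (hF : F ⊆ D)
    (hζ : ζ ⊆ F) : (lat d).EZ x D 0 (fun η => if η ∩ F = ζ then 1 else 0) =
      x ^ ζ.card * ((lat d).f x D F * (lat d).gp x (D \ F) ((lat d).bdS ζ)) * (lat d).Zp x D 0 := by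
  rw [Gr.EZ_cyl D 0 hF hζ, zero_add, Zp_eq_gp x hx (D \ F)]
  unfold Gr.f
  have h1 := (Z_zero_pos (b := (lat d).bd) hx D).ne'
  have h2 : (lat d).Zp x (D \ F) 0 / (lat d).Zp x D 0 * (lat d).Zp x D 0 = (lat d).Zp x (D \ F) 0 :=
    div_mul_cancel₀ _ h1
  calc x ^ ζ.card * ((lat d).gp x (D \ F) ((lat d).bdS ζ) * (lat d).Zp x (D \ F) 0)
      = x ^ ζ.card * (lat d).gp x (D \ F) ((lat d).bdS ζ) *
        ((lat d).Zp x (D \ F) 0 / (lat d).Zp x D 0 * (lat d).Zp x D 0) := by rw [h2]; ring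
    _ = _ := by ring

lemma sum_cyl {x : ℝ} (hx : 0 ≤ x) (D : Finset (Edg d)) {F : Finset (Edg d)} (hF : F ⊆ D) :
    ∑ ζ ∈ F.powerset, x ^ ζ.card * ((lat d).f x D F * (lat d).gp x (D \ F) ((lat d).bdS ζ)) = 1 := by
  have hZ := Z_zero_pos (b := (lat d).bd) hx D
  have h1 : (∑ ζ ∈ F.powerset, x ^ ζ.card * ((lat d).f x D F *
      (lat d).gp x (D \ F) ((lat d).bdS ζ))) * (lat d).Zp x D 0 = 1 * (lat d).Zp x D 0 := by
    rw [Finset.sum_mul]
    have h2 : ∀ ζ ∈ F.powerset, x ^ ζ.card * ((lat d).f x D F *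
        (lat d).gp x (D \ F) ((lat d).bdS ζ)) * (lat d).Zp x D 0
        = (lat d).EZ x D 0 (fun η => if η ∩ F = ζ then 1 else 0) := fun ζ hζ =>
      (cyl_prob hx D hF (Finset.mem_powerset.1 hζ)).symm
    rw [Finset.sum_congr rfl h2, ← Gr.EZ_sum, one_mul, ← Gr.EZ_one]
    refine Gr.EZ_congr _ _ fun η _ => ?_
    rw [Finset.sum_ite_eq, if_pos (Finset.mem_powerset.2 Finset.inter_subset_right)]
  exact mul_right_cancel₀ hZ.ne' h1

lemma sum_pI {x : ℝ} (hx : 0 ≤ x) (hx1 : x ≤ 1) (F : Finset (Edg d)) :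
    ∑ ζ ∈ F.powerset, pI d x F ζ = 1 := by
  have h1 : Filter.Tendsto (fun n => (lat d).f x (ebox d n) F) Filter.atTop (nhds (fI d x F)) :=
    tendsto_atTop_ciInf (fun m n hmn => Gr.f_anti hx hx1 F (ebox_mono hmn)) (bddBelow_f hx F)
  have h2 : ∀ ζ, Filter.Tendsto (fun n => (lat d).gp x (ebox d n \ F) ((lat d).bdS ζ)) Filter.atTop
      (nhds (gI d x F ζ)) := fun ζ =>
    tendsto_atTop_ciSup (fun m n hmn => Gr.gp_mono hx hx1
      (Finset.sdiff_subset_sdiff (ebox_mono hmn) le_rfl) _) (bddAbove_gp hx hx1 F ζ)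
  have h3 : Filter.Tendsto (fun n => ∑ ζ ∈ F.powerset, x ^ ζ.card * ((lat d).f x (ebox d n) F *
      (lat d).gp x (ebox d n \ F) ((lat d).bdS ζ))) Filter.atTop
      (nhds (∑ ζ ∈ F.powerset, pI d x F ζ)) :=
    tendsto_finsetSum _ fun ζ _ => (h1.mul (h2 ζ)).const_mul _
  obtain ⟨n₀, hn₀⟩ := exists_ebox F
  have h4 : Filter.Tendsto (fun n => ∑ ζ ∈ F.powerset, x ^ ζ.card * ((lat d).f x (ebox d n) F *
      (lat d).gp x (ebox d n \ F) ((lat d).bdS ζ))) Filter.atTop (nhds 1) := by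
    refine tendsto_const_nhds.congr' ?_
    filter_upwards [Filter.eventually_ge_atTop n₀] with n hn
    exact (sum_cyl hx (ebox d n) (hn₀.trans (ebox_mono hn))).symm
  exact tendsto_nhds_unique h3 h4

lemma gp_image {x : ℝ} (t : Vtx d) (D ζ : Finset (Edg d)) :
    (lat d).gp x (D.image (sh t)) ((lat d).bdS (ζ.image (sh t))) = (lat d).gp x D ((lat d).bdS ζ) := by
  unfold Gr.gp g
  have h1 : (fun p => (lat d).bdS (ζ.image (sh t)) (p + t)) = (lat d).bdS ζ := by
    funext p
    rw [bdS_image]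
    simp
  have h2 := Zp_image (x := x) t D ((lat d).bdS (ζ.image (sh t)))
  rw [h1] at h2
  have h3 := Zp_image_zero (x := x) t D
  unfold Gr.Zp at h2 h3
  rw [h2, h3]

/-- The conditional probability of a pattern far away from the explored set. -/
lemma pattern_le {x : ℝ} (hx : 0 ≤ x) (hx1 : x ≤ 1) {R : ℕ} {F ζ : Finset (Edg d)}
    (hF : F ⊆ ebox d R) (hζ : ζ ⊆ F) {D : Finset (Edg d)} {t : Vtx d}
    (hD : (ebox d R).image (sh t) ⊆ D) :
    (lat d).EZ x D 0 (fun η => if η ∩ F.image (sh t) = ζ.image (sh t) then 1 else 0) ≤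
      x ^ ζ.card * ((lat d).f x (ebox d R) F * gI d x F ζ) * (lat d).Zp x D 0 := by
  rw [cyl_prob hx D ((Finset.image_subset_image hF).trans hD) (Finset.image_subset_image hζ)]
  have hcard : (ζ.image (sh t)).card = ζ.card := Finset.card_image_of_injective _ (sh_inj t)
  rw [hcard]
  have h1 : (lat d).f x D (F.image (sh t)) ≤ (lat d).f x (ebox d R) F := by
    refine (Gr.f_anti hx hx1 _ hD).trans_eq ?_
    rw [f_image, image_sh_neg]
  have h2 : (lat d).gp x (D \ F.image (sh t)) ((lat d).bdS (ζ.image (sh t))) ≤ gI d x F ζ := by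
    have h3 : D \ F.image (sh t) = ((D.image (sh (-t))) \ F).image (sh t) := by
      ext e
      rw [Finset.mem_sdiff, mem_image_sh, mem_image_sh, Finset.mem_sdiff, mem_image_sh, neg_neg,
        sh_neg']
    rw [h3, gp_image]
    exact gp_le_gI hx hx1 _ _ _
  refine mul_le_mul_of_nonneg_right ?_ (Z_nonneg hx _ _)
  refine mul_le_mul_of_nonneg_left ?_ (pow_nonneg hx _)
  exact mul_le_mul h1 h2 (Gr.gp_nonneg hx _ _) (Gr.f_pos hx _ _).le

lemma ebox_sh_box {n R : ℕ} {t : Vtx d} (ht : t ∈ box d n) {e : Edg d} (he : e ∈ ebox d R) :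
    sh t e ∈ ebox d (R + n) := by
  have hb := mem_ebox.1 he
  have hb1 := mem_box.1 hb.1
  have hb2 := mem_box.1 hb.2
  have h3 := mem_box.1 ht
  rw [mem_ebox, mem_box, mem_box]
  constructor
  · intro i
    have h1 := hb1 i
    have h2 := h3 i
    simp only [sh, Pi.add_apply]
    push_cast
    constructor <;> linarith [h1.1, h1.2, h2.1, h2.2]
  · intro i
    have h1 := hb2 i
    have h2 := h3 i
    simp only [sh, Pi.add_apply] at h1 ⊢
    push_cast
    constructor <;> linarith [h1.1, h1.2, h2.1, h2.2]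

open Classical in
/-- The number of bad shifts. -/
lemma card_bad (P : Finset (Vtx d)) (R : ℕ) (S : Finset (Edg d)) :
    (P.filter fun t => ¬ Disjoint ((ebox d R).image (sh t)) S).card ≤ S.card * (ebox d R).card := by
  have h1 : (P.filter fun t => ¬ Disjoint ((ebox d R).image (sh t)) S) ⊆
      (S ×ˢ ebox d R).image fun p => p.1.1 - p.2.1 := by
    intro t ht
    rw [Finset.mem_filter, Finset.not_disjoint_iff] at ht
    obtain ⟨-, e, he, heS⟩ := ht
    rw [mem_image_sh] at he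
    refine Finset.mem_image.2 ⟨(e, sh (-t) e), Finset.mem_product.2 ⟨heS, he⟩, ?_⟩
    show e.1 - (e.1 + -t) = t
    abel
  refine (Finset.card_le_card h1).trans (Finset.card_image_le.trans ?_)
  rw [Finset.card_product]

namespace HasDecay

variable {x C ρ : ℝ} (h : HasDecay d x C ρ)

include h

open Classical in
/-- One leaf. -/
lemma leaf_density {R n : ℕ} {F ζ : Finset (Edg d)} (hF : F ⊆ ebox d R) (hζ : ζ ⊆ F)
    (hRn : R ≤ n) {D S H : Finset (Edg d)} (hD : ebox d (8 * n) ⊆ D) (hHS : H ⊆ S)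
    {A : Vtx d → ZMod 2} (hres : A + (lat d).bdS H = 0 ∨ (lat d).Zp x (D \ S) (A + (lat d).bdS H) = 0) :
    ∑ t ∈ box d n, x ^ H.card * (lat d).EZ x (D \ S) (A + (lat d).bdS H)
      (fun η => if (H ∪ η) ∩ F.image (sh t) = ζ.image (sh t) then 1 else 0) ≤
      ((box d n).card * (x ^ ζ.card * ((lat d).f x (ebox d R) F * gI d x F ζ)) +
        (min (S.card * (ebox d R).card) (box d n).card : ℕ)) * lw x D A S H := by
  have hx := h.x_pos.le
  have hx1 := h.x_lt.le
  set q := x ^ ζ.card * ((lat d).f x (ebox d R) F * gI d x F ζ) with hq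
  have hq0 : 0 ≤ q := by
    have := gI_nonneg (d := d) hx hx1 F ζ
    have := (Gr.f_pos (G := lat d) hx (ebox d R) F).le
    positivity
  have hle : ∀ t, (lat d).EZ x (D \ S) (A + (lat d).bdS H)
      (fun η => if (H ∪ η) ∩ F.image (sh t) = ζ.image (sh t) then 1 else 0)
      ≤ (lat d).Zp x (D \ S) (A + (lat d).bdS H) := by
    intro t
    rw [← Gr.EZ_one]
    refine Gr.EZ_le hx _ _ fun η _ => ?_
    split_ifs <;> norm_num
  rcases hres with hz | hz
  swap
  · have h1 : ∀ t ∈ box d n, x ^ H.card * (lat d).EZ x (D \ S) (A + (lat d).bdS H)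
      (fun η => if (H ∪ η) ∩ F.image (sh t) = ζ.image (sh t) then 1 else 0) ≤ 0 := by
      intro t _
      have h2 := hle t
      rw [hz] at h2
      exact mul_nonpos_of_nonneg_of_nonpos (pow_nonneg hx _) h2
    refine (Finset.sum_nonpos h1).trans ?_
    have := lw_nonneg hx D A S H
    positivity
  have hlw : lw x D A S H = x ^ H.card * (lat d).Zp x (D \ S) 0 := by unfold lw; rw [hz]
  rw [hz] at hle ⊢
  have hxH : 0 ≤ x ^ H.card := pow_nonneg hx _
  set bad := (box d n).filter fun t => ¬ Disjoint ((ebox d R).image (sh t)) S with hbad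
  have hbadcard : (bad.card : ℝ) ≤ (min (S.card * (ebox d R).card) (box d n).card : ℕ) := by
    have h1 : bad.card ≤ min (S.card * (ebox d R).card) (box d n).card :=
      le_min (card_bad _ _ _) (Finset.card_le_card (Finset.filter_subset _ _))
    exact_mod_cast h1
  have hterm : ∀ t ∈ box d n, x ^ H.card * (lat d).EZ x (D \ S) 0
      (fun η => if (H ∪ η) ∩ F.image (sh t) = ζ.image (sh t) then 1 else 0) ≤
      (q + if ¬ Disjoint ((ebox d R).image (sh t)) S then 1 else 0) *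
        (x ^ H.card * (lat d).Zp x (D \ S) 0) := by
    intro t ht
    have hZ : 0 ≤ x ^ H.card * (lat d).Zp x (D \ S) 0 := mul_nonneg hxH (Z_nonneg hx _ _)
    by_cases hdis : Disjoint ((ebox d R).image (sh t)) S
    · rw [if_neg (not_not.2 hdis), add_zero]
      have h1 : (ebox d R).image (sh t) ⊆ D \ S := by
        intro e he
        rw [Finset.mem_sdiff]
        refine ⟨hD ?_, fun h' => (Finset.disjoint_left.1 hdis) he h'⟩
        obtain ⟨e', he', rfl⟩ := Finset.mem_image.1 he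
        exact ebox_mono (by omega) (ebox_sh_box ht he')
      have h2 := pattern_le hx hx1 hF hζ h1
      have h3 : (lat d).EZ x (D \ S) 0
          (fun η => if (H ∪ η) ∩ F.image (sh t) = ζ.image (sh t) then 1 else 0)
          = (lat d).EZ x (D \ S) 0
          (fun η => if η ∩ F.image (sh t) = ζ.image (sh t) then 1 else 0) := by
        refine Gr.EZ_congr _ _ fun η _ => ?_
        have h4 : (H ∪ η) ∩ F.image (sh t) = η ∩ F.image (sh t) := by
          ext e
          simp only [mem_inter, mem_union]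
          constructor
          · rintro ⟨h5 | h5, h6⟩
            · exact absurd (hHS h5) ((Finset.disjoint_left.1 hdis) (Finset.image_subset_image hF h6))
            · exact ⟨h5, h6⟩
          · rintro ⟨h5, h6⟩
            exact ⟨Or.inr h5, h6⟩
        rw [h4]
      rw [h3]
      have h5 := mul_le_mul_of_nonneg_left h2 hxH
      refine h5.trans_eq ?_
      rw [hq]
      ring
    · rw [if_pos hdis]
      have h1 := mul_le_mul_of_nonneg_left (hle t) hxH
      refine h1.trans ?_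
      nlinarith
  refine (Finset.sum_le_sum hterm).trans ?_
  rw [← Finset.sum_mul, Finset.sum_add_distrib, Finset.sum_const, nsmul_eq_mul, hlw]
  refine mul_le_mul_of_nonneg_right ?_ (mul_nonneg hxH (Z_nonneg hx _ _))
  have h6 : ∑ t ∈ box d n, (if ¬ Disjoint ((ebox d R).image (sh t)) S then (1 : ℝ) else 0)
      = bad.card := by
    rw [← Finset.sum_filter, Finset.sum_const, nsmul_eq_mul, mul_one]
  rw [h6]
  linarith

/-- **Frequencies of local patterns.** -/
theorem fvd (hd : 2 ≤ d) : FVD d x := by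
  classical
  have hx := h.x_pos.le
  have hx1 := h.x_lt.le
  refine ⟨pI d x, fun F => (sum_pI hx hx1 F).le, fun F ζ hζ ε hε => ?_⟩
  obtain ⟨k₀, hk₀⟩ := h.stage_one
  obtain ⟨L, hL⟩ := h.explore_tail k₀
  obtain ⟨n₁, hn₁1, hn₁⟩ := hk₀ (ε / 4) (by positivity)
  obtain ⟨n₂, hn₂⟩ := hL 0 (ε / 4) (by positivity)
  -- choice of `R`
  have hflim : Filter.Tendsto (fun n => (lat d).f x (ebox d n) F) Filter.atTop (nhds (fI d x F)) :=
    tendsto_atTop_ciInf (fun m n hmn => Gr.f_anti hx hx1 F (ebox_mono hmn)) (bddBelow_f hx F)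
  obtain ⟨R₀, hR₀⟩ := Filter.eventually_atTop.1 (hflim.eventually
    (gt_mem_nhds (show fI d x F < fI d x F + ε / 4 by linarith)))
  obtain ⟨R₁, hR₁⟩ := exists_ebox F
  set R := max R₀ R₁ with hR
  have hFR : F ⊆ ebox d R := hR₁.trans (ebox_mono (le_max_right _ _))
  have hfR : (lat d).f x (ebox d R) F ≤ fI d x F + ε / 4 := (hR₀ R (le_max_left _ _)).le
  set q := x ^ ζ.card * ((lat d).f x (ebox d R) F * gI d x F ζ) with hq
  have hg0 := gI_nonneg (d := d) hx hx1 F ζ
  have hg1 := gI_le_one (d := d) hx hx1 F ζ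
  have hxζ0 : 0 ≤ x ^ ζ.card := pow_nonneg hx _
  have hxζ1 : x ^ ζ.card ≤ 1 := pow_le_one₀ hx hx1
  have hfR0 := (Gr.f_pos (G := lat d) hx (ebox d R) F).le
  have hq0 : 0 ≤ q := by positivity
  have hqp : q ≤ pI d x F ζ + ε / 4 := by
    have h1 : (lat d).f x (ebox d R) F * gI d x F ζ ≤ fI d x F * gI d x F ζ + ε / 4 := by
      nlinarith
    have h2 := mul_le_mul_of_nonneg_left h1 hxζ0
    have h3 : x ^ ζ.card * (ε / 4) ≤ 1 * (ε / 4) := mul_le_mul_of_nonneg_right hxζ1 (by positivity)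
    unfold pI
    linarith
  obtain ⟨n₃, hn₃⟩ := exists_nat_gt ((L * (ebox d R).card : ℕ) / (ε / 4))
  set n := max (max n₁ n₂) (max (max n₃ R) 1) with hn
  have hn1 : n₁ ≤ n := (le_max_left _ _).trans (le_max_left _ _)
  have hn2 : n₂ ≤ n := (le_max_right _ _).trans (le_max_left _ _)
  have hn3 : n₃ ≤ n := (le_max_left _ _).trans ((le_max_left _ _).trans (le_max_right _ _))
  have hRn : R ≤ n := (le_max_right _ _).trans ((le_max_left _ _).trans (le_max_right _ _))
  have hn4 : 1 ≤ n := (le_max_right _ _).trans (le_max_right _ _)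
  have hcardbox : ((n : ℝ)) * n ≤ (box d n).card := by
    rw [card_box]
    have h1 : n * n ≤ (2 * n + 1) ^ d := by
      calc n * n ≤ (2 * n + 1) ^ 2 := by nlinarith
        _ ≤ (2 * n + 1) ^ d := Nat.pow_le_pow_right (by omega) hd
    exact_mod_cast h1
  have hLn : ((L * n * (ebox d R).card : ℕ) : ℝ) ≤ (box d n).card * (ε / 4) := by
    have h1 : ((L * (ebox d R).card : ℕ) : ℝ) ≤ n * (ε / 4) := by
      rw [div_lt_iff₀ (by positivity)] at hn₃
      have h2 : (n₃ : ℝ) ≤ n := by exact_mod_cast hn3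
      nlinarith
    have hn0 : (0 : ℝ) ≤ n := Nat.cast_nonneg _
    calc ((L * n * (ebox d R).card : ℕ) : ℝ) = n * ((L * (ebox d R).card : ℕ) : ℝ) := by
          push_cast; ring
      _ ≤ n * (n * (ε / 4)) := mul_le_mul_of_nonneg_left h1 hn0
      _ = (n * n) * (ε / 4) := by ring
      _ ≤ _ := mul_le_mul_of_nonneg_right hcardbox (by positivity)
  set N := (box d n).card with hN
  refine ⟨16 * n, box d n, by omega, ?_, ?_, ?_⟩
  · exact ⟨0, mem_box.2 fun i => by simp⟩
  · intro t ht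
    intro e he
    obtain ⟨e', he', rfl⟩ := Finset.mem_image.1 he
    exact ebox_mono (by omega) (ebox_sh_box ht (hFR he'))
  intro B hB
  have hN0 : (0 : ℝ) ≤ N := Nat.cast_nonneg _
  have h1 := hn₁ n hn1 B hB (fun η => ∑ t ∈ box d n,
    if η ∩ F.image (sh t) = ζ.image (sh t) then (1 : ℝ) else 0) N
    (N * (pI d x F ζ + 3 * (ε / 4))) hN0 ?_ ?_ ?_ ?_
  · rw [Gr.EZ_sum] at h1
    refine h1.trans_eq ?_
    ring
  · have : 0 ≤ pI d x F ζ := by
      unfold pI
      have := fI_nonneg (d := d) hx F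
      positivity
    positivity
  · intro η
    have h2 : ∀ t ∈ box d n, (if η ∩ F.image (sh t) = ζ.image (sh t) then (1 : ℝ) else 0) ≤ 1 := by
      intro t _
      split_ifs <;> norm_num
    refine (Finset.sum_le_card_nsmul _ _ _ h2).trans_eq ?_
    rw [nsmul_eq_mul, mul_one]
  · intro η
    refine Finset.sum_congr rfl fun t ht => ?_
    have h3 : F.image (sh t) ⊆ ebox d (8 * n) := by
      intro e he
      obtain ⟨e', he', rfl⟩ := Finset.mem_image.1 he
      exact ebox_mono (by omega) (ebox_sh_box ht (hFR he'))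
    have h2 : (η ∩ ebox d (8 * n)) ∩ F.image (sh t) = η ∩ F.image (sh t) := by
      rw [Finset.inter_assoc, Finset.inter_eq_right.2 h3]
    rw [h2]
  · intro D T hD hT hTk
    by_cases hodd : Odd T.card
    · have hZ0 : (lat d).Zp x D (Gr.ind T) = 0 := Gr.Zp_ind_odd hodd _
      rw [hZ0, mul_zero, Gr.EZ_sum]
      refine Finset.sum_nonpos fun t _ => ?_
      refine le_trans ?_ hZ0.le
      rw [← Gr.EZ_one]
      refine Gr.EZ_le hx _ _ fun η _ => ?_
      split_ifs <;> norm_num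
    have heven : Even T.card := Nat.not_odd_iff_even.1 hodd
    have hTbox : T ⊆ box d (8 * n) := fun u hu => (hT u hu).1
    have hD0 : ebox d 0 ⊆ D := (ebox_mono (by omega)).trans hD
    have htail := hn₂ n hn2 D T hD hTbox hTk heven
    have hval := tree2_valid hD0 (Gr.ind T)
    have hst := DT.Valid.all _ ∅ ∅ hval (Finset.empty_subset _)
    rw [Gr.EZ_sum]
    have h2 : ∀ t ∈ box d n, (lat d).EZ x D (Gr.ind T)
        (fun η => if η ∩ F.image (sh t) = ζ.image (sh t) then (1 : ℝ) else 0) =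
        (tree2 0 D (Gr.ind T)).sum (fun S H => x ^ H.card *
          (lat d).EZ x (D \ S) (Gr.ind T + (lat d).bdS H)
            (fun η => if (H ∪ η) ∩ F.image (sh t) = ζ.image (sh t) then (1 : ℝ) else 0)) ∅ ∅ :=
      fun t _ => (Gr.EZ_tree D (Gr.ind T)
        (fun η => if η ∩ F.image (sh t) = ζ.image (sh t) then (1 : ℝ) else 0) _ hval).symm
    rw [Finset.sum_congr rfl h2, ← DT.sum_finset]
    have h3 : (tree2 0 D (Gr.ind T)).sum (fun S H => ∑ t ∈ box d n, x ^ H.card *
          (lat d).EZ x (D \ S) (Gr.ind T + (lat d).bdS H)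
            (fun η => if (H ∪ η) ∩ F.image (sh t) = ζ.image (sh t) then (1 : ℝ) else 0)) ∅ ∅
        ≤ (tree2 0 D (Gr.ind T)).sum (fun S H => (N * (q + ε / 4)) * lw x D (Gr.ind T) S H +
          N * (if L * n < S.card then lw x D (Gr.ind T) S H else 0)) ∅ ∅ := by
      refine DT.sum_le_sum _ _ _ (DT.All.imp ?_ _ _ _ (DT.All.and _ _ _ hst
        (tree2_resolved (x := x) hD0 (Gr.ind T))))
      rintro S H ⟨⟨-, -, hHS, hSD, -⟩, hres⟩
      have h4 := h.leaf_density hFR hζ hRn hD hHS hres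
      refine h4.trans ?_
      have hl := lw_nonneg hx D (Gr.ind T) S H
      by_cases hc : L * n < S.card
      · rw [if_pos hc]
        have h5 : ((min (S.card * (ebox d R).card) (box d n).card : ℕ) : ℝ) ≤ N := by
          exact_mod_cast min_le_right _ _
        have h6 : (N * q + ((min (S.card * (ebox d R).card) (box d n).card : ℕ) : ℝ)) *
            lw x D (Gr.ind T) S H ≤ (N * q + N) * lw x D (Gr.ind T) S H :=
          mul_le_mul_of_nonneg_right (by linarith) hl
        refine h6.trans ?_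
        have h7 : 0 ≤ (N * (ε / 4)) * lw x D (Gr.ind T) S H := by positivity
        nlinarith
      · rw [if_neg hc, mul_zero, add_zero]
        refine mul_le_mul_of_nonneg_right ?_ hl
        have h5 : ((min (S.card * (ebox d R).card) (box d n).card : ℕ) : ℝ) ≤
            ((L * n * (ebox d R).card : ℕ) : ℝ) := by
          have : min (S.card * (ebox d R).card) (box d n).card ≤ L * n * (ebox d R).card :=
            (min_le_left _ _).trans (Nat.mul_le_mul_right _ (not_lt.1 hc))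
          exact_mod_cast this
        rw [mul_add]
        linarith
    refine h3.trans ?_
    rw [DT.sum_add, DT.sum_mul, DT.sum_mul, tree2_sum_lw hD0]
    have hZ : 0 ≤ (lat d).Zp x D (Gr.ind T) := Z_nonneg hx _ _
    have h8 := mul_le_mul_of_nonneg_left htail hN0
    have h9 : (N * (q + ε / 4)) * (lat d).Zp x D (Gr.ind T) ≤
        (N * (pI d x F ζ + ε / 4 + ε / 4)) * (lat d).Zp x D (Gr.ind T) := by
      refine mul_le_mul_of_nonneg_right (mul_le_mul_of_nonneg_left ?_ hN0) hZ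
      linarith
    calc _ ≤ (N * (pI d x F ζ + ε / 4 + ε / 4)) * (lat d).Zp x D (Gr.ind T) +
          N * (ε / 4 * (lat d).Zp x D (Gr.ind T)) := add_le_add h9 h8
      _ = _ := by ring

end HasDecay

end Pool.Agent.LoopO1
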