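import Mathlib

/-!
# Even subgraph partition functions and Griffiths' inequalities

For a map `b` from edges to an abelian group of exponent two (`b e` is the source set of the edge
`e`), `Z b x D A` is the sum of `x ^ |η|` over all `η ⊆ D` with `∑_{e ∈ η} b e = A`.
-/

open Finset

set_option linter.unusedSectionVars false
set_option linter.unusedVariables false

namespace Pool.Agent.LoopO1

section General

variable {E M : Type*} [DecidableEq E] [AddCommGroup M] (b : E → M) (x : ℝ)

open Classical in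
/-- `Z_D(A) = ∑_{η ⊆ D, ∂η = A} x^{|η|}`. -/
noncomputable def Z (D : Finset E) (A : M) : ℝ :=
  ∑ η ∈ D.powerset, if ∑ e ∈ η, b e = A then x ^ η.card else 0

/-- The ratio `Z_D(A) / Z_D(0)`. -/
noncomputable def g (D : Finset E) (A : M) : ℝ := Z b x D A / Z b x D 0

open Classical in
/-- Pairs of configurations: the auxiliary quantity in the proof of Griffiths' inequality. -/
noncomputable def C2 (D : Finset E) (P Q : M) (L : AddSubgroup M) : ℝ :=
  ∑ η₁ ∈ D.powerset, ∑ η₂ ∈ D.powerset,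
    if (∑ e ∈ η₁, b e) + (∑ e ∈ η₂, b e) = P ∧ (∑ e ∈ η₂, b e) - Q ∈ L
    then x ^ η₁.card * x ^ η₂.card else 0

variable {b x}

open Classical in
lemma Z_empty (A : M) : Z b x ∅ A = if A = 0 then 1 else 0 := by
  unfold Z
  simp [eq_comm]

lemma Z_nonneg (hx : 0 ≤ x) (D : Finset E) (A : M) : 0 ≤ Z b x D A := by
  unfold Z
  refine Finset.sum_nonneg fun η _ => ?_
  split_ifs
  · positivity
  · exact le_rfl

lemma Z_insert {D : Finset E} {e : E} (he : e ∉ D) (A : M) :
    Z b x (insert e D) A = Z b x D A + x * Z b x D (A - b e) := by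
  classical
  unfold Z
  rw [Finset.sum_powerset_insert he, Finset.mul_sum]
  congr 1
  refine Finset.sum_congr rfl fun η hη => ?_
  have he' : e ∉ η := fun h => he (Finset.mem_powerset.1 hη h)
  rw [Finset.sum_insert he', Finset.card_insert_of_notMem he']
  have : (b e + ∑ i ∈ η, b i = A) ↔ (∑ i ∈ η, b i = A - b e) := by
    rw [eq_sub_iff_add_eq, add_comm]
  simp only [this]
  split_ifs
  · ring
  · simp

lemma one_le_Z_zero (hx : 0 ≤ x) (D : Finset E) : 1 ≤ Z b x D 0 := by
  classical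
  unfold Z
  have h : (if ∑ e ∈ (∅ : Finset E), b e = 0 then x ^ (∅ : Finset E).card else 0)
      ≤ ∑ η ∈ D.powerset, if ∑ e ∈ η, b e = 0 then x ^ η.card else 0 := by
    refine Finset.single_le_sum (f := fun η => if ∑ e ∈ η, b e = 0 then x ^ η.card else 0)
      (fun η _ => ?_) (Finset.empty_mem_powerset D)
    split_ifs
    · positivity
    · exact le_rfl
  simpa using h

lemma Z_zero_pos (hx : 0 ≤ x) (D : Finset E) : 0 < Z b x D 0 :=
  lt_of_lt_of_le one_pos (one_le_Z_zero hx D)

lemma C2_nonneg (hx : 0 ≤ x) (D : Finset E) (P Q : M) (L : AddSubgroup M) :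
    0 ≤ C2 b x D P Q L := by
  unfold C2
  refine Finset.sum_nonneg fun η _ => Finset.sum_nonneg fun η' _ => ?_
  split_ifs
  · positivity
  · exact le_rfl

lemma C2_insert (h2 : ∀ a : M, a + a = 0) {D : Finset E} {e : E} (he : e ∉ D) (P Q : M)
    (L : AddSubgroup M) :
    C2 b x (insert e D) P Q L = C2 b x D P Q L + x * C2 b x D (P - b e) (Q - b e) L
      + x * C2 b x D (P - b e) Q L + x ^ 2 * C2 b x D P (Q - b e) L := by
  classical
  unfold C2
  rw [Finset.sum_powerset_insert he]
  have key : ∀ η₁ : Finset E, ∑ η₂ ∈ (insert e D).powerset,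
      (if (∑ e ∈ η₁, b e) + (∑ e ∈ η₂, b e) = P ∧ (∑ e ∈ η₂, b e) - Q ∈ L
        then x ^ η₁.card * x ^ η₂.card else 0)
      = (∑ η₂ ∈ D.powerset, (if (∑ e ∈ η₁, b e) + (∑ e ∈ η₂, b e) = P ∧ (∑ e ∈ η₂, b e) - Q ∈ L
        then x ^ η₁.card * x ^ η₂.card else 0))
      + x * ∑ η₂ ∈ D.powerset, (if (∑ e ∈ η₁, b e) + (∑ e ∈ η₂, b e) = P - b e
        ∧ (∑ e ∈ η₂, b e) - (Q - b e) ∈ L then x ^ η₁.card * x ^ η₂.card else 0) := by
    intro η₁
    rw [Finset.sum_powerset_insert he, Finset.mul_sum]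
    congr 1
    refine Finset.sum_congr rfl fun η hη => ?_
    have he' : e ∉ η := fun h => he (Finset.mem_powerset.1 hη h)
    rw [Finset.sum_insert he', Finset.card_insert_of_notMem he']
    have h1 : ((∑ e ∈ η₁, b e) + (b e + ∑ i ∈ η, b i) = P) ↔
        ((∑ e ∈ η₁, b e) + ∑ i ∈ η, b i = P - b e) := by
      rw [eq_sub_iff_add_eq]
      constructor <;> intro h <;> rw [← h] <;> abel
    have h3 : (b e + ∑ i ∈ η, b i) - Q = (∑ i ∈ η, b i) - (Q - b e) := by abel
    simp only [h1, h3]
    split_ifs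
    · ring
    · simp
  simp only [key]
  rw [Finset.sum_add_distrib, ← Finset.mul_sum, Finset.sum_add_distrib, ← Finset.mul_sum]
  have hA : ∑ η ∈ D.powerset, ∑ η₂ ∈ D.powerset,
      (if (∑ e ∈ insert e η, b e) + (∑ e ∈ η₂, b e) = P ∧ (∑ e ∈ η₂, b e) - Q ∈ L
        then x ^ (insert e η).card * x ^ η₂.card else 0)
      = x * ∑ η ∈ D.powerset, ∑ η₂ ∈ D.powerset,
      (if (∑ e ∈ η, b e) + (∑ e ∈ η₂, b e) = P - b e ∧ (∑ e ∈ η₂, b e) - Q ∈ L
        then x ^ η.card * x ^ η₂.card else 0) := by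
    rw [Finset.mul_sum]
    refine Finset.sum_congr rfl fun η hη => ?_
    rw [Finset.mul_sum]
    refine Finset.sum_congr rfl fun η' hη' => ?_
    have he' : e ∉ η := fun h => he (Finset.mem_powerset.1 hη h)
    rw [Finset.sum_insert he', Finset.card_insert_of_notMem he']
    have h1 : ((b e + ∑ e ∈ η, b e) + (∑ i ∈ η', b i) = P) ↔
        ((∑ e ∈ η, b e) + ∑ i ∈ η', b i = P - b e) := by
      rw [eq_sub_iff_add_eq]
      constructor <;> intro h <;> rw [← h] <;> abel
    simp only [h1]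
    split_ifs
    · ring
    · simp
  have hB : ∑ η ∈ D.powerset, ∑ η₂ ∈ D.powerset,
      (if (∑ e ∈ insert e η, b e) + (∑ e ∈ η₂, b e) = P - b e ∧ (∑ e ∈ η₂, b e) - (Q - b e) ∈ L
        then x ^ (insert e η).card * x ^ η₂.card else 0)
      = x * ∑ η ∈ D.powerset, ∑ η₂ ∈ D.powerset,
      (if (∑ e ∈ η, b e) + (∑ e ∈ η₂, b e) = P ∧ (∑ e ∈ η₂, b e) - (Q - b e) ∈ L
        then x ^ η.card * x ^ η₂.card else 0) := by
    rw [Finset.mul_sum]
    refine Finset.sum_congr rfl fun η hη => ?_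
    rw [Finset.mul_sum]
    refine Finset.sum_congr rfl fun η' hη' => ?_
    have he' : e ∉ η := fun h => he (Finset.mem_powerset.1 hη h)
    rw [Finset.sum_insert he', Finset.card_insert_of_notMem he']
    have h1 : ((b e + ∑ e ∈ η, b e) + (∑ i ∈ η', b i) = P - b e) ↔
        ((∑ e ∈ η, b e) + ∑ i ∈ η', b i = P) := by
      have hbe := h2 (b e)
      constructor
      · intro h
        have : (∑ e ∈ η, b e) + ∑ i ∈ η', b i = P - b e - b e := by
          rw [← h]; abel
        rw [this, sub_sub, hbe, sub_zero]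
      · intro h
        rw [← h, eq_sub_iff_add_eq]
        have : b e + ∑ e ∈ η, b e + ∑ i ∈ η', b i + b e
          = (∑ e ∈ η, b e + ∑ i ∈ η', b i) + (b e + b e) := by abel
        rw [this, hbe, add_zero]
    simp only [h1]
    split_ifs
    · ring
    · simp
  rw [hA, hB]
  ring

/-- Adding an element `c` with `c + c = 0` to a subgroup. -/
def adj (L : AddSubgroup M) (c : M) (hc : c + c = 0) : AddSubgroup M where
  carrier := {a | a ∈ L ∨ a + c ∈ L}
  zero_mem' := Or.inl L.zero_mem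
  add_mem' := by
    rintro a a' (h | h) (h' | h')
    · exact Or.inl (L.add_mem h h')
    · refine Or.inr ?_
      have : a + a' + c = a + (a' + c) := by abel
      rw [this]; exact L.add_mem h h'
    · refine Or.inr ?_
      have : a + a' + c = (a + c) + a' := by abel
      rw [this]; exact L.add_mem h h'
    · refine Or.inl ?_
      have : a + a' = (a + c) + (a' + c) := by
        have : (a + c) + (a' + c) = a + a' + (c + c) := by abel
        rw [this, hc, add_zero]
      rw [this]; exact L.add_mem h h'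
  neg_mem' := by
    rintro a (h | h)
    · exact Or.inl (L.neg_mem h)
    · refine Or.inr ?_
      have h3 : -a + c = -(a + c) := by
        have h4 : c = -c := eq_neg_of_add_eq_zero_left hc
        rw [neg_add, ← h4]
      rw [h3]; exact L.neg_mem h

lemma C2_adj (hx : 0 ≤ x) {c : M} (hc : c + c = 0) {L : AddSubgroup M} (hcL : c ∉ L)
    (D : Finset E) (P Q : M) :
    C2 b x D P Q L + C2 b x D P (Q - c) L = C2 b x D P Q (adj L c hc) := by
  classical
  unfold C2
  rw [← Finset.sum_add_distrib]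
  refine Finset.sum_congr rfl fun η₁ _ => ?_
  rw [← Finset.sum_add_distrib]
  refine Finset.sum_congr rfl fun η₂ _ => ?_
  set s := ∑ e ∈ η₁, b e
  set t := ∑ e ∈ η₂, b e
  have h1 : t - (Q - c) = (t - Q) + c := by abel
  have h2 : (t - Q ∈ adj L c hc) ↔ (t - Q ∈ L ∨ (t - Q) + c ∈ L) := Iff.rfl
  rw [h1]
  simp only [h2]
  by_cases hP : s + t = P
  · by_cases hq : t - Q ∈ L
    · have : (t - Q) + c ∉ L := fun h => hcL (by
        have := L.sub_mem h hq
        simpa using this)
      simp [hP, hq, this]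
    · by_cases hq' : (t - Q) + c ∈ L
      · simp [hP, hq, hq']
      · simp [hP, hq, hq']
  · simp [hP]

lemma C2_mem {c : M} {L : AddSubgroup M} (hcL : c ∈ L) (D : Finset E) (P Q : M) :
    C2 b x D P (Q - c) L = C2 b x D P Q L := by
  classical
  unfold C2
  refine Finset.sum_congr rfl fun η₁ _ => Finset.sum_congr rfl fun η₂ _ => ?_
  have h1 : (∑ e ∈ η₂, b e) - (Q - c) = ((∑ e ∈ η₂, b e) - Q) + c := by abel
  rw [h1, L.add_mem_cancel_right hcL]

lemma C2_le (h2 : ∀ a : M, a + a = 0) (hx : 0 ≤ x) (hx1 : x ≤ 1) (D : Finset E) :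
    ∀ (P Q : M) (L : AddSubgroup M), C2 b x D P Q L ≤ C2 b x D P 0 L := by
  classical
  induction D using Finset.induction_on with
  | empty =>
    intro P Q L
    unfold C2
    simp only [Finset.powerset_empty, Finset.sum_singleton, Finset.sum_empty, Finset.card_empty,
      pow_zero, mul_one]
    split_ifs with h h'
    · exact le_rfl
    · exact absurd ⟨h.1, by simp⟩ h'
    · exact zero_le_one
    · exact le_rfl
  | insert e D he ih =>
    intro P Q L
    rw [C2_insert h2 he, C2_insert h2 he]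
    by_cases hL : b e ∈ L
    · rw [C2_mem hL, C2_mem hL, C2_mem hL, C2_mem hL]
      have h1 := ih P Q L
      have h3 := ih (P - b e) Q L
      nlinarith [mul_le_mul_of_nonneg_left h3 hx, mul_le_mul_of_nonneg_left h1 (sq_nonneg x)]
    · have e1 := C2_adj (b := b) hx (h2 (b e)) hL D P Q
      have e2 := C2_adj (b := b) hx (h2 (b e)) hL D P 0
      have e3 := C2_adj (b := b) hx (h2 (b e)) hL D (P - b e) Q
      have e4 := C2_adj (b := b) hx (h2 (b e)) hL D (P - b e) 0
      have h1 := ih P Q L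
      have h3 := ih P Q (adj L (b e) (h2 _))
      have h4 := ih (P - b e) Q (adj L (b e) (h2 _))
      have hx2 : 0 ≤ 1 - x ^ 2 := by nlinarith
      have i1 := mul_le_mul_of_nonneg_left h1 hx2
      have i2 := mul_le_mul_of_nonneg_left h3 (sq_nonneg x)
      have i3 := mul_le_mul_of_nonneg_left h4 hx
      have a1 : C2 b x D P Q L + x * C2 b x D (P - b e) (Q - b e) L
          + x * C2 b x D (P - b e) Q L + x ^ 2 * C2 b x D P (Q - b e) L
          = (1 - x ^ 2) * C2 b x D P Q L + x ^ 2 * C2 b x D P Q (adj L (b e) (h2 _))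
            + x * C2 b x D (P - b e) Q (adj L (b e) (h2 _)) := by
        rw [← e1, ← e3]; ring
      have a2 : C2 b x D P 0 L + x * C2 b x D (P - b e) (0 - b e) L
          + x * C2 b x D (P - b e) 0 L + x ^ 2 * C2 b x D P (0 - b e) L
          = (1 - x ^ 2) * C2 b x D P 0 L + x ^ 2 * C2 b x D P 0 (adj L (b e) (h2 _))
            + x * C2 b x D (P - b e) 0 (adj L (b e) (h2 _)) := by
        rw [← e2, ← e4]; ring
      rw [a1, a2]
      linarith

lemma Z_mul_Z (h2 : ∀ a : M, a + a = 0) (D : Finset E) (P Q : M) :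
    Z b x D (P - Q) * Z b x D Q = C2 b x D P Q ⊥ := by
  classical
  unfold Z C2
  rw [Finset.sum_mul_sum]
  refine Finset.sum_congr rfl fun η₁ _ => Finset.sum_congr rfl fun η₂ _ => ?_
  simp only [AddSubgroup.mem_bot, sub_eq_zero]
  by_cases h : ∑ e ∈ η₂, b e = Q
  · have : (∑ e ∈ η₁, b e + ∑ e ∈ η₂, b e = P) ↔ (∑ e ∈ η₁, b e = P - Q) := by
      rw [h, eq_sub_iff_add_eq]
    rw [if_pos h]
    by_cases h' : ∑ e ∈ η₁, b e = P - Q
    · rw [if_pos h', if_pos ⟨this.2 h', h⟩]
    · rw [if_neg h', if_neg (fun h'' => h' (this.1 h''.1)), zero_mul]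
  · simp [h]

/-- **Griffiths' second inequality.** -/
theorem gks (h2 : ∀ a : M, a + a = 0) (hx : 0 ≤ x) (hx1 : x ≤ 1) (D : Finset E) (A B : M) :
    Z b x D A * Z b x D B ≤ Z b x D (A + B) * Z b x D 0 := by
  have h := C2_le (b := b) h2 hx hx1 D (A + B) B ⊥
  rw [← Z_mul_Z h2, ← Z_mul_Z h2] at h
  simpa using h

end General

end Pool.Agent.LoopO1
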