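import Pool.Agent.LoopO1_f0ab88.MeasBox

/-!
# Existence of Gibbs measures
-/

open Finset MeasureTheory

set_option linter.unusedSectionVars false
set_option linter.unusedVariables false

namespace Pool.Agent.LoopO1

variable {d : ℕ}

lemma exists_ebox' (D : Finset (Edg d)) : ∃ n : ℕ, D ⊆ ebox d n := by
  classical
  obtain ⟨n, hn⟩ := exists_box ((D.image (fun e : Edg d => (e.1 : Vtx d))) ∪
    (D.image (fun e : Edg d => (e.1 + Pi.single e.2 1 : Vtx d))))
  refine ⟨n, fun e he => mem_ebox.2 ⟨hn ?_, hn ?_⟩⟩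
  · exact Finset.mem_union_left _ (Finset.mem_image_of_mem (fun e : Edg d => e.1) he)
  · exact Finset.mem_union_right _
      (Finset.mem_image_of_mem (fun e : Edg d => e.1 + Pi.single e.2 1) he)

/-- The configuration with set of open edges `η`. -/
def cf (η : Finset (Edg d)) : Cfg d := fun e => decide (e ∈ η)

lemma pat_cf (P η : Finset (Edg d)) : pat P (cf η) = P ∩ η := by
  ext e
  rw [mem_pat, Finset.mem_inter]
  unfold cf
  rw [decide_eq_true_eq]

open Classical in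
/-- The weight of `η` in the finite volume measure without sources. -/
noncomputable def cw (x : ℝ) (D η : Finset (Edg d)) : ℝ :=
  (if (lat d).bdS η = 0 then x ^ η.card else 0) / (lat d).Zp x D 0

lemma cw_nonneg {x : ℝ} (hx : 0 ≤ x) (D η : Finset (Edg d)) : 0 ≤ cw x D η := by
  unfold cw
  refine div_nonneg ?_ (Z_nonneg hx _ _)
  split_ifs
  · exact pow_nonneg hx _
  · exact le_rfl

lemma sum_cw {x : ℝ} (hx : 0 ≤ x) (D : Finset (Edg d)) (F : Finset (Edg d) → ℝ) :
    ∑ η ∈ D.powerset, cw x D η * F η = (lat d).EZ x D 0 F / (lat d).Zp x D 0 := by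
  classical
  unfold Gr.EZ cw
  rw [Finset.sum_div]
  refine Finset.sum_congr rfl fun η _ => ?_
  split_ifs
  · ring
  · rw [zero_div, zero_mul]

/-- The finite volume measure without sources. -/
noncomputable def fv (x : ℝ) (D : Finset (Edg d)) : Measure (Cfg d) :=
  ∑ η ∈ D.powerset, ENNReal.ofReal (cw x D η) • Measure.dirac (cf η)

lemma fv_prob {x : ℝ} (hx : 0 ≤ x) (D : Finset (Edg d)) : IsProbabilityMeasure (fv x D) := by
  refine ⟨?_⟩
  unfold fv
  rw [Measure.finsetSum_apply]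
  simp only [Measure.smul_apply, Measure.dirac_apply_of_mem (Set.mem_univ _), smul_eq_mul, mul_one]
  rw [← ENNReal.ofReal_sum_of_nonneg fun η _ => cw_nonneg hx D η]
  have h1 := sum_cw hx D (fun _ => (1 : ℝ))
  simp only [mul_one] at h1
  rw [h1, Gr.EZ_one, div_self (Z_zero_pos hx D).ne', ENNReal.ofReal_one]

lemma fv_integral {x : ℝ} (hx : 0 ≤ x) (D : Finset (Edg d)) (F : Finset (Edg d) → ℝ) :
    ∫ ω, F (pat D ω) ∂(fv x D) = (lat d).EZ x D 0 F / (lat d).Zp x D 0 := by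
  rw [← sum_cw hx]
  unfold fv
  have hint : ∀ η ∈ D.powerset, Integrable (fun ω : Cfg d => F (pat D ω))
      (ENNReal.ofReal (cw x D η) • Measure.dirac (cf η)) := by
    intro η _
    refine Integrable.smul_measure ?_ ENNReal.ofReal_ne_top
    refine Integrable.of_bound (measurable_comp_pat D F).aestronglyMeasurable
      (∑ ζ ∈ D.powerset, ‖F ζ‖) ?_
    refine Filter.Eventually.of_forall fun ω => ?_
    exact Finset.single_le_sum (f := fun ζ => ‖F ζ‖) (fun ζ _ => norm_nonneg _)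
      (Finset.mem_powerset.2 (pat_subset D ω))
  rw [integral_finsetSum_measure hint]
  refine Finset.sum_congr rfl fun η hη => ?_
  rw [integral_smul_measure, integral_dirac, pat_cf,
    Finset.inter_eq_right.2 (Finset.mem_powerset.1 hη), ENNReal.toReal_ofReal (cw_nonneg hx D η),
    smul_eq_mul]

/-- Splitting the sum over configurations. -/
lemma EZ_split {x : ℝ} (D' D : Finset (Edg d)) (hD : D ⊆ D') (A : Vtx d → ZMod 2)
    (F : Finset (Edg d) → ℝ) :
    (lat d).EZ x D' A F = ∑ ξ ∈ (D' \ D).powerset,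
      x ^ ξ.card * (lat d).EZ x D (A + (lat d).bdS ξ) (fun η => F (ξ ∪ η)) := by
  have hval : (DT.queryAll (D' \ D).toList (fun _ => DT.leaf) ∅).Valid D' ∅ := by
    refine Gr.queryAll_valid D' _ _ ∅ ∅ (Finset.nodup_toList _) ?_ (fun e _ => Finset.notMem_empty e)
      (fun _ => trivial)
    intro e he
    exact (Finset.mem_sdiff.1 (Finset.mem_toList.1 he)).1
  rw [← Gr.EZ_tree D' A F _ hval,
    Gr.queryAll_sum _ _ _ ∅ ∅ (Finset.nodup_toList _) (fun e _ => Finset.notMem_empty e),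
    Finset.toList_toFinset]
  refine Finset.sum_congr rfl fun ξ _ => ?_
  show x ^ (∅ ∪ ξ).card * (lat d).EZ x (D' \ (∅ ∪ D' \ D)) (A + (lat d).bdS (∅ ∪ ξ))
    (fun η => F (∅ ∪ ξ ∪ η)) = _
  rw [Finset.empty_union, Finset.empty_union, Finset.sdiff_sdiff_eq_self hD]

lemma ind_srcs_apply (W : Finset (Vtx d)) (η : Finset (Edg d)) (v : Vtx d) :
    Gr.ind (srcs W η) v = if v ∈ W then (lat d).bdS η v else 0 := by
  rw [Gr.ind_apply, bdS_apply]
  by_cases hv : v ∈ W
  · rw [if_pos hv]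
    by_cases ho : Odd (η.filter fun e => IsEnd v e).card
    · rw [if_pos (show v ∈ srcs W η from Finset.mem_filter.2 ⟨hv, ho⟩)]
      exact ((ZMod.natCast_eq_one_iff_odd).2 ho).symm
    · rw [if_neg (show ¬ v ∈ srcs W η from fun h' => ho (Finset.mem_filter.1 h').2)]
      symm
      rw [ZMod.natCast_eq_zero_iff_even]
      exact Nat.not_odd_iff_even.1 ho
  · rw [if_neg hv, if_neg (show ¬ v ∈ srcs W η from fun h' => hv (Finset.mem_filter.1 h').1)]

/-- The one step DLR identity. -/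
lemma dlr_term {x : ℝ} (hx : 0 < x) {W : Finset (Vtx d)} {D : Finset (Edg d)}
    (hWD : ∀ e ∈ D, ∀ v, IsEnd v e → v ∈ W) {η₀ : Finset (Edg d)} (hη₀ : η₀ ⊆ D)
    (ξ : Finset (Edg d)) :
    (lat d).EZ x D ((lat d).bdS ξ) (fun ζ => if ζ = η₀ then 1 else 0) =
      loopP x W D (srcs W ξ) η₀ * (lat d).Zp x D ((lat d).bdS ξ) := by
  classical
  have h1 : (lat d).EZ x D ((lat d).bdS ξ) (fun ζ => if ζ = η₀ then (1 : ℝ) else 0) =
      if (lat d).bdS η₀ = (lat d).bdS ξ then x ^ η₀.card else 0 := by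
    unfold Gr.EZ
    rw [Finset.sum_eq_single η₀]
    · beta_reduce
      rw [if_pos (rfl : η₀ = η₀), mul_one]
    · intro ζ _ hne
      beta_reduce
      rw [if_neg hne, mul_zero, ite_self]
    · intro h2
      exact absurd (Finset.mem_powerset.2 hη₀) h2
  rw [h1]
  by_cases hex : ∃ ζ ⊆ D, (lat d).bdS ζ = (lat d).bdS ξ
  · obtain ⟨ζ, hζ, hζξ⟩ := hex
    have h2 : Gr.ind (srcs W ξ) = (lat d).bdS ξ := by
      funext v
      rw [ind_srcs_apply]
      split_ifs with hv
      · rfl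
      · rw [← hζξ]
        symm
        apply Gr.bdS_apply_eq_zero
        intro e he hi
        exact hv (hWD e (hζ he) v hi)
    have h3 := srcs_eq_iff (W := W) (η := η₀) (fun e he v hv => hWD e (hη₀ he) v hv) (srcs W ξ)
    rw [h2] at h3
    have hZpos : 0 < (lat d).Zp x D ((lat d).bdS ξ) := by
      rw [← Gr.EZ_one]
      unfold Gr.EZ
      refine Finset.sum_pos' (fun η _ => ?_) ⟨ζ, Finset.mem_powerset.2 hζ, ?_⟩
      · split_ifs
        · exact mul_nonneg (pow_nonneg hx.le _) zero_le_one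
        · exact le_rfl
      · rw [if_pos hζξ, mul_one]
        exact pow_pos hx _
    unfold loopP
    rw [loopZ_eq x hWD, h2]
    by_cases h4 : srcs W η₀ = srcs W ξ
    · rw [if_pos h4, if_pos (h3.1 h4), div_mul_cancel₀ _ hZpos.ne']
    · rw [if_neg h4, if_neg (fun h5 => h4 (h3.2 h5)), zero_mul]
  · push Not at hex
    have hZ : (lat d).Zp x D ((lat d).bdS ξ) = 0 := by
      rw [← Gr.EZ_one]
      unfold Gr.EZ
      refine Finset.sum_eq_zero fun η hη => ?_
      rw [if_neg (hex η (Finset.mem_powerset.1 hη))]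
    rw [hZ, mul_zero, if_neg (hex η₀ hη₀)]

/-- The test functions. -/
noncomputable def tf (x : ℝ) (W : Finset (Vtx d)) (D η₀ : Finset (Edg d)) (Ψ : Finset (Edg d) → ℝ)
    (η : Finset (Edg d)) : ℝ :=
  Ψ (η \ D) * ((if η ∩ D = η₀ then 1 else 0) - loopP x W D (srcs W (η \ D)) η₀)

lemma EZ_tf {x : ℝ} (hx : 0 < x) {W : Finset (Vtx d)} {D D' : Finset (Edg d)} (hD : D ⊆ D')
    (hWD : ∀ e ∈ D, ∀ v, IsEnd v e → v ∈ W) {η₀ : Finset (Edg d)} (hη₀ : η₀ ⊆ D)
    (Ψ : Finset (Edg d) → ℝ) : (lat d).EZ x D' 0 (tf x W D η₀ Ψ) = 0 := by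
  rw [EZ_split D' D hD]
  refine Finset.sum_eq_zero fun ξ hξ => ?_
  have hξD := Finset.mem_powerset.1 hξ
  rw [zero_add]
  have h1 : (lat d).EZ x D ((lat d).bdS ξ) (fun η => tf x W D η₀ Ψ (ξ ∪ η)) =
      (lat d).EZ x D ((lat d).bdS ξ) (fun ζ => Ψ ξ * (if ζ = η₀ then 1 else 0) +
        (-(Ψ ξ * loopP x W D (srcs W ξ) η₀))) := by
    refine Gr.EZ_congr _ _ fun ζ hζ => ?_
    have h2 : (ξ ∪ ζ) \ D = ξ := by
      ext e
      simp only [mem_sdiff, mem_union]
      constructor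
      · rintro ⟨h3 | h3, h4⟩
        · exact h3
        · exact absurd (hζ h3) h4
      · intro h3
        exact ⟨Or.inl h3, (Finset.mem_sdiff.1 (hξD h3)).2⟩
    have h3 : (ξ ∪ ζ) ∩ D = ζ := by
      ext e
      simp only [mem_inter, mem_union]
      constructor
      · rintro ⟨h3 | h3, h4⟩
        · exact absurd h4 (Finset.mem_sdiff.1 (hξD h3)).2
        · exact h3
      · intro h3
        exact ⟨Or.inr h3, hζ h3⟩
    unfold tf
    rw [h2, h3]
    ring
  rw [h1, Gr.EZ_add, Gr.EZ_mul, Gr.EZ_const, dlr_term hx hWD hη₀ ξ]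
  ring

lemma fv_tf {x : ℝ} (hx : 0 < x) {W : Finset (Vtx d)} {D : Finset (Edg d)} {N n : ℕ}
    (hN : D ⊆ ebox d N) (hWN : edg W ⊆ ebox d N) (hn : N ≤ n)
    (hWD : ∀ e ∈ D, ∀ v, IsEnd v e → v ∈ W) {η₀ : Finset (Edg d)} (hη₀ : η₀ ⊆ D)
    (Ψ : Finset (Edg d) → ℝ) :
    ∫ ω, tf x W D η₀ Ψ (pat (ebox d N) ω) ∂(fv x (ebox d n)) = 0 := by
  have hsub : ebox d N ⊆ ebox d n := ebox_mono hn
  have h1 : ∀ ω : Cfg d, tf x W D η₀ Ψ (pat (ebox d N) ω)
      = (fun η => tf x W D η₀ Ψ (η ∩ ebox d N)) (pat (ebox d n) ω) := by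
    intro ω
    beta_reduce
    rw [pat_inter, Finset.inter_eq_right.2 hsub]
  have h2 : (fun η => tf x W D η₀ Ψ (η ∩ ebox d N)) =
      tf x W D η₀ (fun ξ => Ψ (ξ ∩ ebox d N)) := by
    funext η
    unfold tf
    have e1 : (η ∩ ebox d N) \ D = (η \ D) ∩ ebox d N := by
      ext e; simp only [mem_sdiff, mem_inter]; tauto
    have e2 : (η ∩ ebox d N) ∩ D = η ∩ D := by
      rw [Finset.inter_assoc, Finset.inter_eq_right.2 hN]
    have e3 : srcs W ((η ∩ ebox d N) \ D) = srcs W (η \ D) := by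
      unfold srcs
      refine Finset.filter_congr fun v hv => ?_
      have e4 : (((η ∩ ebox d N) \ D).filter fun e => IsEnd v e)
          = ((η \ D).filter fun e => IsEnd v e) := by
        ext e
        simp only [mem_filter, mem_sdiff, mem_inter]
        constructor
        · rintro ⟨⟨⟨h3, h4⟩, h5⟩, h6⟩
          exact ⟨⟨h3, h5⟩, h6⟩
        · rintro ⟨⟨h3, h5⟩, h6⟩
          exact ⟨⟨⟨h3, hWN (mem_edg.2 ⟨v, hv, h6⟩)⟩, h5⟩, h6⟩
      rw [e4]
    rw [e2, e3, e1]
  simp only [h1]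
  rw [fv_integral hx.le (ebox d n) (fun η => tf x W D η₀ Ψ (η ∩ ebox d N)), h2,
    EZ_tf hx (hN.trans hsub) hWD hη₀, zero_div]

lemma continuous_pat (Q : Finset (Edg d)) (F : Finset (Edg d) → ℝ) :
    Continuous fun ω : Cfg d => F (pat Q ω) := by
  have h1 : (fun ω : Cfg d => F (pat Q ω)) = (fun g : Q → Bool =>
      F ((Q.attach.filter fun e => g e = true).image Subtype.val)) ∘ Q.restrict := by
    funext ω
    show F (pat Q ω) = F ((Q.attach.filter fun e => ω e.1 = true).image Subtype.val)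
    congr 1
    ext e
    rw [mem_pat, Finset.mem_image]
    constructor
    · rintro ⟨h1, h2⟩
      exact ⟨⟨e, h1⟩, Finset.mem_filter.2 ⟨Finset.mem_attach _ _, h2⟩, rfl⟩
    · rintro ⟨e', h1, rfl⟩
      exact ⟨e'.2, (Finset.mem_filter.1 h1).2⟩
  rw [h1]
  refine continuous_of_discreteTopology.comp ?_
  exact Finset.continuous_restrict Q

/-- A limit point of the finite volume measures. -/
lemma exists_limit {x : ℝ} (hx : 0 < x) : ∃ μ : Measure (Cfg d), IsProbabilityMeasure μ ∧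
    ∀ (W : Finset (Vtx d)) (D : Finset (Edg d)), (∀ e ∈ D, ∀ v, IsEnd v e → v ∈ W) →
      ∀ η₀ ⊆ D, ∀ (N : ℕ) (Ψ : Finset (Edg d) → ℝ), D ⊆ ebox d N → edg W ⊆ ebox d N →
        ∫ ω, tf x W D η₀ Ψ (pat (ebox d N) ω) ∂μ = 0 := by
  set P : ℕ → ProbabilityMeasure (Cfg d) := fun n => ⟨fv x (ebox d n), fv_prob hx.le _⟩ with hP
  set 𝒰 : Ultrafilter ℕ := Filter.hyperfilter ℕ with h𝒰
  obtain ⟨μ, -, hμ⟩ := isCompact_univ.ultrafilter_le_nhds (𝒰.map P) (by simp)
  have htend : Filter.Tendsto P (𝒰 : Filter ℕ) (nhds μ) := hμ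
  refine ⟨μ, inferInstance, fun W D hWD η₀ hη₀ N Ψ hN hWN => ?_⟩
  have h1 := (ProbabilityMeasure.tendsto_iff_forall_integral_tendsto.1 htend)
    (BoundedContinuousFunction.mkOfCompact ⟨fun ω => tf x W D η₀ Ψ (pat (ebox d N) ω),
      continuous_pat (ebox d N) (tf x W D η₀ Ψ)⟩)
  have h2 : Filter.Tendsto (fun n => ∫ ω, (BoundedContinuousFunction.mkOfCompact
      ⟨fun ω => tf x W D η₀ Ψ (pat (ebox d N) ω), continuous_pat (ebox d N) (tf x W D η₀ Ψ)⟩) ω
        ∂(P n : Measure (Cfg d))) (𝒰 : Filter ℕ) (nhds 0) := by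
    refine tendsto_const_nhds.congr' ?_
    have h3 : ∀ᶠ n in (𝒰 : Filter ℕ), N ≤ n :=
      (Nat.hyperfilter_le_atTop) (Filter.eventually_ge_atTop N)
    filter_upwards [h3] with n hn
    exact (fv_tf hx hN hWN hn hWD hη₀ Ψ).symm
  exact tendsto_nhds_unique h1 h2

/-- Restriction to the outside of `D`. -/
def rst (D : Finset (Edg d)) (ω : Cfg d) : {e : Edg d // e ∉ D} → Bool := fun e => ω e

lemma measurable_rst (D : Finset (Edg d)) : Measurable (rst D) :=
  measurable_pi_lambda _ fun e => measurable_pi_apply _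

lemma srcs_pat_eq {W : Finset (Vtx d)} {D : Finset (Edg d)} {N : ℕ} (hWN : edg W ⊆ ebox d N)
    (ω : Cfg d) : srcs W (pat (ebox d N) ω \ D) = bsrc W D ω := by
  rw [bsrc_eq]
  unfold srcs
  refine Finset.filter_congr fun v hv => ?_
  have e4 : ((pat (ebox d N) ω \ D).filter fun e => IsEnd v e)
      = ((pat (edg W \ D) ω).filter fun e => IsEnd v e) := by
    ext e
    simp only [mem_filter, mem_sdiff, mem_pat]
    constructor
    · rintro ⟨⟨⟨h3, h4⟩, h5⟩, h6⟩
      exact ⟨⟨⟨mem_edg.2 ⟨v, hv, h6⟩, h5⟩, h4⟩, h6⟩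
    · rintro ⟨⟨⟨h3, h5⟩, h4⟩, h6⟩
      exact ⟨⟨⟨hWN h3, h4⟩, h5⟩, h6⟩
  rw [e4]

/-- **Existence.** -/
theorem exists_gibbs {x : ℝ} (hx : 0 < x) : ∃ μ : Measure (Cfg d), IsGibbs d x μ := by
  classical
  obtain ⟨μ, hμp, hμ⟩ := exists_limit (d := d) hx
  refine ⟨μ, isGibbs_of_setDLR hx.le ?_⟩
  intro W D hWD η hη A hA
  obtain ⟨A₀, hA₀, rfl⟩ := hA
  set k : Cfg d → ℝ := fun ω => loopP x W D (bsrc W D ω) η with hk
  have hkm : Measurable k := (measurable_loopP x W D η).mono (outsideσ_le D) le_rfl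
  have hk0 : ∀ ω, 0 ≤ k ω := fun ω => loopP_nonneg hx.le _ _ _ _
  have hki : Integrable k μ := integrable_loopP hx.le W hη μ
  have hcyl := measurableSet_cyl D η
  -- both sides are measures
  set ν₁ : Measure ({e : Edg d // e ∉ D} → Bool) := (μ.restrict (cyl D η)).map (rst D) with hν₁
  set ν₂ : Measure ({e : Edg d // e ∉ D} → Bool) :=
    (μ.withDensity fun ω => ENNReal.ofReal (k ω)).map (rst D) with hν₂
  have hν₁a : ∀ s, MeasurableSet s → ν₁ s = ENNReal.ofReal (μ.real (cyl D η ∩ rst D ⁻¹' s)) := by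
    intro s hs
    rw [hν₁, Measure.map_apply (measurable_rst D) hs, Measure.restrict_apply (measurable_rst D hs),
      Set.inter_comm, ofReal_measureReal]
  have hν₂a : ∀ s, MeasurableSet s → ν₂ s = ENNReal.ofReal (∫ ω in rst D ⁻¹' s, k ω ∂μ) := by
    intro s hs
    rw [hν₂, Measure.map_apply (measurable_rst D) hs, withDensity_apply _ (measurable_rst D hs),
      ofReal_integral_eq_lintegral_ofReal hki.integrableOn (Filter.Eventually.of_forall hk0)]
  have hbasic : ∀ s ∈ measurableCylinders fun _ : {e : Edg d // e ∉ D} => Bool, ν₁ s = ν₂ s := by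
    intro s hs
    have hsm : MeasurableSet s := MeasurableSet.of_mem_measurableCylinders hs
    rw [hν₁a s hsm, hν₂a s hsm]
    congr 1
    obtain ⟨P, S, hS, rfl⟩ := (mem_measurableCylinders _).1 hs
    set P' : Finset (Edg d) := P.map ⟨Subtype.val, Subtype.val_injective⟩ with hP'
    obtain ⟨N, hN⟩ := exists_ebox' (D ∪ edg W ∪ P')
    have hDN : D ⊆ ebox d N :=
      (Finset.subset_union_left.trans Finset.subset_union_left).trans hN
    have hWN : edg W ⊆ ebox d N :=
      (Finset.subset_union_right.trans Finset.subset_union_left).trans hN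
    have hPN : P' ⊆ ebox d N := Finset.subset_union_right.trans hN
    set Φ : Set (Finset (Edg d)) := {ξ | (fun e : P => decide (e.1.1 ∈ ξ)) ∈ S} with hΦ
    have h1 := hμ W D hWD η hη N (Φ.indicator fun _ => (1 : ℝ)) hDN hWN
    set B : Set (Cfg d) := rst D ⁻¹' cylinder P S with hB
    have hBm : MeasurableSet B := measurable_rst D hsm
    have h2 : ∀ ω : Cfg d, tf x W D η (Φ.indicator fun _ => (1 : ℝ)) (pat (ebox d N) ω)
        = B.indicator (fun ω => (cyl D η).indicator (fun _ => (1 : ℝ)) ω - k ω) ω := by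
      intro ω
      unfold tf
      rw [srcs_pat_eq hWN, pat_inter, Finset.inter_eq_right.2 hDN]
      have h3 : pat (ebox d N) ω \ D ∈ Φ ↔ ω ∈ B := by
        have h4 : (fun e : P => decide (e.1.1 ∈ pat (ebox d N) ω \ D)) = P.restrict (rst D ω) := by
          funext e
          have h5 : e.1.1 ∈ ebox d N := hPN (Finset.mem_map.2 ⟨e.1, e.2, rfl⟩)
          show decide (e.1.1 ∈ pat (ebox d N) ω \ D) = ω e.1.1
          by_cases h6 : ω e.1.1 = true
          · rw [h6, decide_eq_true_eq, Finset.mem_sdiff, mem_pat]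
            exact ⟨⟨h5, h6⟩, e.1.2⟩
          · have h7 : ω e.1.1 = false := by simpa using h6
            rw [h7, decide_eq_false_iff_not, Finset.mem_sdiff, mem_pat]
            rintro ⟨⟨-, h8⟩, -⟩
            exact h6 h8
        show (fun e : P => decide (e.1.1 ∈ pat (ebox d N) ω \ D)) ∈ S ↔ P.restrict (rst D ω) ∈ S
        rw [h4]
      have h5 : (if pat D ω = η then (1 : ℝ) else 0) = (cyl D η).indicator (fun _ => (1 : ℝ)) ω := by
        by_cases h6 : pat D ω = η
        · rw [if_pos h6, Set.indicator_of_mem ((mem_cyl_iff hη).2 h6)]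
        · rw [if_neg h6, Set.indicator_of_notMem (fun h7 => h6 ((mem_cyl_iff hη).1 h7))]
      rw [h5]
      by_cases h6 : ω ∈ B
      · rw [Set.indicator_of_mem h6, Set.indicator_of_mem (h3.2 h6), one_mul]
      · rw [Set.indicator_of_notMem h6, Set.indicator_of_notMem (fun h7 => h6 (h3.1 h7)), zero_mul]
    simp only [h2] at h1
    rw [integral_indicator hBm, integral_sub
      ((integrable_const (1 : ℝ)).indicator hcyl).integrableOn hki.integrableOn,
      setIntegral_indicator hcyl, setIntegral_const, smul_eq_mul, mul_one, sub_eq_zero] at h1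
    rw [Set.inter_comm, h1]
  have hfin : IsFiniteMeasure ν₁ := by
    refine ⟨?_⟩
    rw [hν₁a _ MeasurableSet.univ]
    exact ENNReal.ofReal_lt_top
  have heq : ν₁ = ν₂ := ext_of_generate_finite (measurableCylinders _)
    generateFrom_measurableCylinders.symm isPiSystem_measurableCylinders hbasic
    (hbasic _ (univ_mem_measurableCylinders _))
  have h3 : ν₁ A₀ = ν₂ A₀ := by rw [heq]
  rw [hν₁a A₀ hA₀, hν₂a A₀ hA₀] at h3
  have h4 : 0 ≤ ∫ ω in rst D ⁻¹' A₀, k ω ∂μ := integral_nonneg hk0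
  have h5 : 0 ≤ μ.real (cyl D η ∩ rst D ⁻¹' A₀) := measureReal_nonneg
  exact ((ENNReal.ofReal_eq_ofReal_iff h5 h4).1 h3).symm

end Pool.Agent.LoopO1
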