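import Pool.Agent.LoopO1_f0ab88.Tree

/-!
# Exploration of the paths starting at the sources
-/

open Finset

set_option linter.unusedSectionVars false
set_option linter.unusedVariables false

namespace Pool.Agent.LoopO1.Gr

variable {V E : Type*} [DecidableEq V] [DecidableEq E] (G : Gr V E) (x : ℝ)

/-- The sources of a configuration. -/
def bdS (H : Finset E) : V → ZMod 2 := ∑ e ∈ H, G.bd e

/-- Weighted sums over the leaves of a tree. -/
noncomputable def wsum (c : ℝ) (F : Finset E → (V → ZMod 2) → ℝ) :
    DT E → Finset E → (V → ZMod 2) → ℝ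
  | .leaf, D, A => F D A
  | .node e l r, D, A =>
    c * (wsum c F l (D.erase e) A + x * wsum c F r (D.erase e) (A + G.bd e))

open Classical in
/-- The active source. -/
noncomputable def pick (A : V → ZMod 2) (v : V) : V :=
  if A v = 1 then v else if h : ∃ u, A u = 1 then h.choose else v

open Classical in
/-- The exploration tree with fuel `n`: query edges at the active source. -/
noncomputable def explore : ℕ → Finset E → (V → ZMod 2) → V → DT E
  | 0, _, _, _ => .leaf
  | n + 1, D, A, v =>
    if h : ∃ e ∈ D, G.Inc (pick A v) e ∧ A (pick A v) = 1 then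
      .node h.choose (explore n (D.erase h.choose) A (pick A v))
        (explore n (D.erase h.choose) (A + G.bd h.choose) (G.other h.choose (pick A v)))
    else .leaf

variable {G x}

lemma bdS_empty : G.bdS ∅ = 0 := Finset.sum_empty

lemma bdS_insert {H : Finset E} {e : E} (he : e ∉ H) : G.bdS (insert e H) = G.bdS H + G.bd e := by
  unfold bdS
  rw [Finset.sum_insert he, add_comm]

lemma sum_eq_wsum (c : ℝ) (F : Finset E → (V → ZMod 2) → ℝ) (D₀ : Finset E) (B : V → ZMod 2) :
    ∀ (t : DT E) (S H : Finset E), t.Valid D₀ S → H ⊆ S →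
    t.sum (fun S H => c ^ S.card * x ^ H.card * F (D₀ \ S) (B + G.bdS H)) S H
      = c ^ S.card * x ^ H.card * G.wsum x c F t (D₀ \ S) (B + G.bdS H)
  | .leaf, S, H, _, _ => rfl
  | .node e l r, S, H, h, hHS => by
    show l.sum _ _ _ + r.sum _ _ _ = _
    rw [sum_eq_wsum c F D₀ B l _ _ h.2.2.1 (hHS.trans (Finset.subset_insert _ _)),
      sum_eq_wsum c F D₀ B r _ _ h.2.2.2 (Finset.insert_subset_insert _ hHS)]
    have h1 : D₀ \ insert e S = (D₀ \ S).erase e := by
      ext a; simp only [mem_sdiff, mem_insert, mem_erase]; tauto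
    have h2 : e ∉ H := fun h' => h.2.1 (hHS h')
    rw [h1, Finset.card_insert_of_notMem h.2.1, Finset.card_insert_of_notMem h2, bdS_insert h2,
      ← add_assoc]
    show _ = c ^ S.card * x ^ H.card * (c * (_ + x * _))
    ring

lemma wsum_mono (hx : 0 ≤ x) {c : ℝ} (hc : 0 ≤ c) {F F' : Finset E → (V → ZMod 2) → ℝ}
    (h : ∀ D A, F D A ≤ F' D A) : ∀ (t : DT E) (D : Finset E) (A : V → ZMod 2),
    G.wsum x c F t D A ≤ G.wsum x c F' t D A
  | .leaf, D, A => h D A
  | .node e l r, D, A => by
    show c * (_ + x * _) ≤ c * (_ + x * _)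
    have h1 := wsum_mono hx hc h l (D.erase e) A
    have h2 := wsum_mono hx hc h r (D.erase e) (A + G.bd e)
    gcongr

lemma pick_of_one {A : V → ZMod 2} {v : V} (h : A v = 1) : pick A v = v := by
  unfold pick; rw [if_pos h]

lemma pick_spec {A : V → ZMod 2} (v : V) (h : ∃ u, A u = 1) : A (pick A v) = 1 := by
  unfold pick
  by_cases h1 : A v = 1
  · rw [if_pos h1]; exact h1
  · rw [if_neg h1, dif_pos h]; exact h.choose_spec

lemma explore_pick (n : ℕ) (D : Finset E) {A : V → ZMod 2} (v : V) (h : ∃ u, A u = 1) :
    G.explore n D A v = G.explore n D A (pick A v) := by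
  cases n with
  | zero => rfl
  | succ n =>
    have h1 : pick A (pick A v) = pick A v := pick_of_one (pick_spec v h)
    unfold explore
    rw [h1]

lemma explore_valid (D₀ : Finset E) : ∀ (n : ℕ) (D : Finset E) (A : V → ZMod 2) (v : V)
    (S : Finset E), D ⊆ D₀ → Disjoint D S → (G.explore n D A v).Valid D₀ S := by
  intro n
  induction n with
  | zero => intro D A v S _ _; exact trivial
  | succ n ih =>
    intro D A v S hD hS
    unfold explore
    split_ifs with h
    · have he := h.choose_spec
      have h1 : D.erase h.choose ⊆ D₀ := (Finset.erase_subset _ _).trans hD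
      have h2 : Disjoint (D.erase h.choose) (insert h.choose S) := by
        rw [Finset.disjoint_left]
        intro a ha ha'
        rcases Finset.mem_insert.1 ha' with h3 | h3
        · exact (Finset.mem_erase.1 ha).1 h3
        · exact (Finset.disjoint_left.1 hS) (Finset.mem_erase.1 ha).2 h3
      exact ⟨hD he.1, fun h3 => (Finset.disjoint_left.1 hS) he.1 h3, ih _ _ _ _ h1 h2,
        ih _ _ _ _ h1 h2⟩
    · exact trivial

/-- At the leaves either all sources are resolved or the weight vanishes. -/
lemma explore_all (D₀ : Finset E) (B : V → ZMod 2) : ∀ (n : ℕ) (D : Finset E) (A : V → ZMod 2)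
    (v : V) (S H : Finset E), D.card ≤ n → D = D₀ \ S → H ⊆ S → A = B + G.bdS H →
    (G.explore n D A v).All
      (fun S H => B + G.bdS H = 0 ∨ G.Zp x (D₀ \ S) (B + G.bdS H) = 0) S H := by
  intro n
  induction n with
  | zero =>
    intro D A v S H hn hD hHS hA
    have hD0 : D = ∅ := Finset.card_eq_zero.1 (Nat.le_zero.1 hn)
    show B + G.bdS H = 0 ∨ G.Zp x (D₀ \ S) (B + G.bdS H) = 0
    rw [← hD, ← hA, hD0]
    by_cases h : A = 0
    · exact Or.inl h
    · right
      unfold Zp
      rw [Z_empty, if_neg h]
  | succ n ih =>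
    intro D A v S H hn hD hHS hA
    unfold explore
    split_ifs with h
    · have he := h.choose_spec
      set e := h.choose with hedef
      have heS : e ∉ S := by
        have := he.1
        rw [hD] at this
        exact (Finset.mem_sdiff.1 this).2
      have heH : e ∉ H := fun h' => heS (hHS h')
      have hc : (D.erase e).card ≤ n := by
        rw [Finset.card_erase_of_mem he.1]; omega
      have hDe : D.erase e = D₀ \ insert e S := by
        rw [hD]; ext a; simp only [mem_sdiff, mem_insert, mem_erase]; tauto
      refine ⟨?_, ?_⟩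
      · exact ih _ _ _ _ _ hc hDe (hHS.trans (Finset.subset_insert _ _)) hA
      · refine ih _ _ _ _ _ hc hDe (Finset.insert_subset_insert _ hHS) ?_
        rw [bdS_insert heH, hA, add_assoc]
    · show B + G.bdS H = 0 ∨ G.Zp x (D₀ \ S) (B + G.bdS H) = 0
      rw [← hD, ← hA]
      by_cases hex : ∃ u, A u = 1
      · right
        have hp := pick_spec v hex
        apply Zp_eq_zero (v := pick A v)
        · rw [hp]; exact one_ne_zero
        · intro e he hi
          exact h ⟨e, he, hi, hp⟩
      · left
        funext u
        push Not at hex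
        rcases zmod2_cases (A u) with h0 | h0
        · exact h0
        · exact absurd h0 (hex u)

/-! ### The potential -/

variable (G x) in
/-- `B_D(v) = ∑_{e ∈ D} ∑_{u ∈ e} ⟨σ_v σ_u⟩_D`. -/
noncomputable def BB (D : Finset E) (v : V) : ℝ :=
  ∑ e ∈ D, (G.tp x D v (G.src e) + G.tp x D v (G.tgt e))

variable (G x) in
/-- The potential. -/
noncomputable def Th (D : Finset E) (v a : V) : ℝ := G.tp x D v a + G.BB x D v

lemma BB_nonneg (hx : 0 ≤ x) (D : Finset E) (v : V) : 0 ≤ G.BB x D v :=
  Finset.sum_nonneg fun e _ => add_nonneg (tp_nonneg hx _ _ _) (tp_nonneg hx _ _ _)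

lemma Th_nonneg (hx : 0 ≤ x) (D : Finset E) (v a : V) : 0 ≤ G.Th x D v a :=
  add_nonneg (tp_nonneg hx _ _ _) (BB_nonneg hx _ _)

lemma BB_step (hx : 0 ≤ x) {D : Finset E} {e : E} (he : e ∈ D) {v : V} (hv : G.Inc v e) :
    G.fe x D e * (G.BB x (D.erase e) v + x * G.BB x (D.erase e) (G.other e v) + (1 + x))
      ≤ G.BB x D v := by
  set w := G.other e v with hw
  have n := fun a c => tp_nonneg (G := G) (x := x) hx (D.erase e) a c
  have hs : G.BB x D v = G.fe x D e * ((∑ e' ∈ D.erase e,
      (G.tp x (D.erase e) v (G.src e') + G.tp x (D.erase e) v (G.tgt e')))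
      + x * (∑ e' ∈ D.erase e,
      (G.tp x (D.erase e) w (G.src e') + G.tp x (D.erase e) w (G.tgt e')))
      + ((G.tp x (D.erase e) v (G.src e) + G.tp x (D.erase e) v (G.tgt e))
        + x * (G.tp x (D.erase e) w (G.src e) + G.tp x (D.erase e) w (G.tgt e)))) := by
    unfold BB
    rw [← Finset.add_sum_erase D _ he]
    have h1 : ∀ a, G.tp x D v a = G.fe x D e *
      (G.tp x (D.erase e) v a + x * G.tp x (D.erase e) w a) := fun a => tp_step hx he hv a
    simp only [h1]
    have h2 : ∑ e' ∈ D.erase e, (G.fe x D e * (G.tp x (D.erase e) v (G.src e')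
          + x * G.tp x (D.erase e) w (G.src e'))
        + G.fe x D e * (G.tp x (D.erase e) v (G.tgt e') + x * G.tp x (D.erase e) w (G.tgt e')))
      = G.fe x D e * ((∑ e' ∈ D.erase e,
      (G.tp x (D.erase e) v (G.src e') + G.tp x (D.erase e) v (G.tgt e')))
      + x * (∑ e' ∈ D.erase e,
      (G.tp x (D.erase e) w (G.src e') + G.tp x (D.erase e) w (G.tgt e')))) := by
      rw [Finset.mul_sum (D.erase e) _ x, ← Finset.sum_add_distrib, Finset.mul_sum]
      refine Finset.sum_congr rfl fun e' _ => ?_
      ring
    rw [h2]
    ring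
  rw [hs]
  refine mul_le_mul_of_nonneg_left ?_ (fe_pos hx _ _).le
  have h2 : 1 + x ≤ ((G.tp x (D.erase e) v (G.src e) + G.tp x (D.erase e) v (G.tgt e))
        + x * (G.tp x (D.erase e) w (G.src e) + G.tp x (D.erase e) w (G.tgt e))) := by
    rcases hv with h | h
    · have hw' : w = G.tgt e := by rw [hw]; unfold other; rw [if_pos h]
      rw [h, hw']
      have e1 := tp_self (G := G) hx (D.erase e) (G.src e)
      have e2 := tp_self (G := G) hx (D.erase e) (G.tgt e)
      rw [e1, e2]
      have := n (G.src e) (G.tgt e)
      have := mul_nonneg hx (n (G.tgt e) (G.src e))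
      linarith
    · have hne : v ≠ G.src e := fun h' => G.ne e (h'.symm.trans h)
      have hw' : w = G.src e := by rw [hw]; unfold other; rw [if_neg hne]
      rw [h, hw']
      have e1 := tp_self (G := G) hx (D.erase e) (G.src e)
      have e2 := tp_self (G := G) hx (D.erase e) (G.tgt e)
      rw [e1, e2]
      have := n (G.tgt e) (G.src e)
      have := mul_nonneg hx (n (G.src e) (G.tgt e))
      linarith
  unfold BB
  linarith

lemma Th_step (hx : 0 ≤ x) {C : ℝ} (hC : ∀ D v, G.BB x D v + 1 ≤ C) (hx1 : x ≤ 1)
    {D : Finset E} {e : E} (he : e ∈ D) {v : V} (hv : G.Inc v e) (a : V) :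
    (1 + 1 / C) * (G.fe x D e * (G.Th x (D.erase e) v a + x * G.Th x (D.erase e) (G.other e v) a))
      ≤ G.Th x D v a := by
  have h1 := BB_step (G := G) hx he hv
  have h2 := tp_step (G := G) hx he hv a
  have hCp : 0 < C := by
    have := hC ∅ v
    have := BB_nonneg (G := G) hx ∅ v
    linarith
  have hb : ∀ u, G.Th x (D.erase e) u a ≤ C := fun u => by
    unfold Th
    have := hC (D.erase e) u
    have := tp_le_one (G := G) hx hx1 (D.erase e) u a
    linarith
  have h3 : G.Th x (D.erase e) v a + x * G.Th x (D.erase e) (G.other e v) a ≤ C * (1 + x) := by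
    have := mul_le_mul_of_nonneg_left (hb (G.other e v)) hx
    have := hb v
    nlinarith
  have h4 : 1 / C * (G.Th x (D.erase e) v a + x * G.Th x (D.erase e) (G.other e v) a) ≤ 1 + x := by
    rw [one_div, inv_mul_le_iff₀ hCp]
    exact h3
  have hf := (fe_pos (G := G) hx D e).le
  calc (1 + 1 / C) * (G.fe x D e *
        (G.Th x (D.erase e) v a + x * G.Th x (D.erase e) (G.other e v) a))
      = G.fe x D e * ((G.Th x (D.erase e) v a + x * G.Th x (D.erase e) (G.other e v) a)
        + 1 / C * (G.Th x (D.erase e) v a + x * G.Th x (D.erase e) (G.other e v) a)) := by ring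
    _ ≤ G.fe x D e * ((G.Th x (D.erase e) v a + x * G.Th x (D.erase e) (G.other e v) a)
        + (1 + x)) := by gcongr
    _ = G.fe x D e * (G.tp x (D.erase e) v a + x * G.tp x (D.erase e) (G.other e v) a)
        + G.fe x D e * (G.BB x (D.erase e) v + x * G.BB x (D.erase e) (G.other e v)
          + (1 + x)) := by unfold Th; ring
    _ ≤ _ := by
      rw [← h2]
      unfold Th
      linarith

/-- The constants of the exploration bound. -/
noncomputable def cst (C : ℝ) : ℕ → ℝ
  | 0 => 1
  | 1 => 1
  | k + 2 => cst C k * (k + 1) * C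

lemma cst_nonneg {C : ℝ} (hC : 0 ≤ C) : ∀ k, 0 ≤ cst C k
  | 0 => zero_le_one
  | 1 => zero_le_one
  | k + 2 => by
    have := cst_nonneg hC k
    show 0 ≤ cst C k * (k + 1) * C
    positivity

lemma cst_pred {C : ℝ} (hC : 0 ≤ C) (k : ℕ) : cst C (k - 1) * (k * C) ≤ cst C (k + 1) := by
  cases k with
  | zero => simp [cst]
  | succ k =>
    show cst C k * ((k + 1 : ℕ) * C) ≤ cst C k * (k + 1) * C
    push_cast
    exact (by ring : cst C k * ((k + 1) * C) = cst C k * (k + 1) * C).le

/-- **The exploration bound.** The exponential moment of the number of queries of the exploration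
tree is bounded in terms of the number of sources only. -/
theorem explore_moment (hx : 0 ≤ x) (hx1 : x ≤ 1) {C : ℝ} (hC : ∀ D v, G.BB x D v + 1 ≤ C)
    (hC0 : 0 ≤ C) :
    ∀ (n : ℕ),
    (∀ (D : Finset E) (A : V → ZMod 2) (v : V) (S : Finset V), D.card ≤ n → A v = 1 → v ∉ S →
      (∀ u, u ≠ v → (A u = 1 ↔ u ∈ S)) →
      G.wsum x (1 + 1 / C) (G.Zp x) (G.explore n D A v) D A
        ≤ cst C (S.card - 1) * (∑ a ∈ S, G.Th x D v a) * G.Zp x D 0) ∧
    (∀ (D : Finset E) (A : V → ZMod 2) (v : V) (T : Finset V), D.card ≤ n →
      (∀ u, A u = 1 ↔ u ∈ T) →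
      G.wsum x (1 + 1 / C) (G.Zp x) (G.explore n D A v) D A ≤ cst C T.card * G.Zp x D 0) := by
  have hc1 : 0 ≤ 1 + 1 / C := by positivity
  have step : ∀ n : ℕ, (∀ (D : Finset E) (A : V → ZMod 2) (v : V) (S : Finset V), D.card ≤ n →
      A v = 1 → v ∉ S → (∀ u, u ≠ v → (A u = 1 ↔ u ∈ S)) →
      G.wsum x (1 + 1 / C) (G.Zp x) (G.explore n D A v) D A
        ≤ cst C (S.card - 1) * (∑ a ∈ S, G.Th x D v a) * G.Zp x D 0) →
      (∀ (D : Finset E) (A : V → ZMod 2) (v : V) (T : Finset V), D.card ≤ n →
      (∀ u, A u = 1 ↔ u ∈ T) →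
      G.wsum x (1 + 1 / C) (G.Zp x) (G.explore n D A v) D A ≤ cst C T.card * G.Zp x D 0) := by
    intro n hQ D A v T hn hT
    have hZ := (Z_zero_pos (b := G.bd) hx D).le
    by_cases hex : ∃ u, A u = 1
    · rw [explore_pick n D v hex]
      set u := pick A v with hu
      have hAu : A u = 1 := pick_spec v hex
      have huT : u ∈ T := (hT u).1 hAu
      have h1 := hQ D A u (T.erase u) hn hAu (Finset.notMem_erase u T) (fun a ha => by
        rw [hT a, Finset.mem_erase]; exact ⟨fun h => ⟨ha, h⟩, fun h => h.2⟩)
      refine h1.trans ?_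
      refine mul_le_mul_of_nonneg_right ?_ hZ
      have hcard : T.card = (T.erase u).card + 1 := by
        rw [Finset.card_erase_of_mem huT]
        have := Finset.card_pos.2 ⟨u, huT⟩
        omega
      rw [hcard]
      refine le_trans ?_ (cst_pred hC0 (T.erase u).card)
      refine mul_le_mul_of_nonneg_left ?_ (cst_nonneg hC0 _)
      have : ∀ a ∈ T.erase u, G.Th x D u a ≤ C := fun a _ => by
        unfold Th
        have := hC D u
        have := tp_le_one (G := G) hx hx1 D u a
        linarith
      refine (Finset.sum_le_card_nsmul _ _ _ this).trans_eq ?_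
      rw [nsmul_eq_mul]
    · have hA0 : A = 0 := by
        funext a
        push Not at hex
        rcases zmod2_cases (A a) with h0 | h0
        · exact h0
        · exact absurd h0 (hex a)
      have hTe : T = ∅ := by
        rw [Finset.eq_empty_iff_forall_notMem]
        intro a ha
        exact hex ⟨a, (hT a).2 ha⟩
      have hleaf : G.explore n D A v = .leaf := by
        cases n with
        | zero => rfl
        | succ n =>
          unfold explore
          rw [dif_neg]
          rintro ⟨e, _, _, h⟩
          exact hex ⟨_, h⟩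
      rw [hleaf, hTe, hA0]
      show G.Zp x D 0 ≤ 1 * G.Zp x D 0
      rw [one_mul]
  intro n
  induction n with
  | zero =>
    have hQ : ∀ (D : Finset E) (A : V → ZMod 2) (v : V) (S : Finset V), D.card ≤ 0 → A v = 1 →
      v ∉ S → (∀ u, u ≠ v → (A u = 1 ↔ u ∈ S)) →
      G.wsum x (1 + 1 / C) (G.Zp x) (G.explore 0 D A v) D A
        ≤ cst C (S.card - 1) * (∑ a ∈ S, G.Th x D v a) * G.Zp x D 0 := by
      intro D A v S hn hAv hvS hS
      have hD0 : D = ∅ := Finset.card_eq_zero.1 (Nat.le_zero.1 hn)
      show G.Zp x D A ≤ _
      have : G.Zp x D A = 0 := Zp_eq_zero (v := v) (by rw [hAv]; exact one_ne_zero)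
        (by rw [hD0]; simp)
      rw [this]
      exact mul_nonneg (mul_nonneg (cst_nonneg hC0 _)
        (Finset.sum_nonneg fun a _ => Th_nonneg hx _ _ _)) (Z_nonneg hx _ _)
    exact ⟨hQ, step 0 hQ⟩
  | succ n ih =>
    have hQ : ∀ (D : Finset E) (A : V → ZMod 2) (v : V) (S : Finset V), D.card ≤ n + 1 → A v = 1 →
      v ∉ S → (∀ u, u ≠ v → (A u = 1 ↔ u ∈ S)) →
      G.wsum x (1 + 1 / C) (G.Zp x) (G.explore (n + 1) D A v) D A
        ≤ cst C (S.card - 1) * (∑ a ∈ S, G.Th x D v a) * G.Zp x D 0 := by
      intro D A v S hn hAv hvS hS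
      have hp : pick A v = v := pick_of_one hAv
      by_cases h : ∃ e ∈ D, G.Inc (pick A v) e ∧ A (pick A v) = 1
      · have htree : G.explore (n + 1) D A v = .node h.choose
            (G.explore n (D.erase h.choose) A (pick A v))
            (G.explore n (D.erase h.choose) (A + G.bd h.choose)
              (G.other h.choose (pick A v))) := by
          conv_lhs => unfold explore
          rw [dif_pos h]
        rw [htree]
        have he := h.choose_spec
        set e := h.choose with hedef
        rw [hp] at he ⊢
        have hv : G.Inc v e := he.2.1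
        have heD : e ∈ D := he.1
        set w := G.other e v with hw
        have hwv : w ≠ v := G.other_ne hv
        have hc : (D.erase e).card ≤ n := by
          rw [Finset.card_erase_of_mem heD]; omega
        have hZ' := (Z_zero_pos (b := G.bd) hx (D.erase e)).le
        have h1 := ih.1 (D.erase e) A v S hc hAv hvS hS
        have h2 : G.wsum x (1 + 1 / C) (G.Zp x) (G.explore n (D.erase e) (A + G.bd e) w)
            (D.erase e) (A + G.bd e)
            ≤ cst C (S.card - 1) * (∑ a ∈ S, G.Th x (D.erase e) w a) * G.Zp x (D.erase e) 0 := by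
          by_cases hwS : w ∈ S
          · have h3 := ih.2 (D.erase e) (A + G.bd e) w (S.erase w) hc ?_
            · refine h3.trans ?_
              refine mul_le_mul_of_nonneg_right ?_ hZ'
              rw [Finset.card_erase_of_mem hwS]
              have h4 : (1 : ℝ) ≤ ∑ a ∈ S, G.Th x (D.erase e) w a := by
                refine le_trans ?_ (Finset.single_le_sum
                  (f := fun a => G.Th x (D.erase e) w a) (fun a _ => Th_nonneg hx _ _ _) hwS)
                show (1 : ℝ) ≤ G.Th x (D.erase e) w w
                unfold Th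
                rw [tp_self hx]
                have := BB_nonneg (G := G) hx (D.erase e) w
                linarith
              have := cst_nonneg hC0 (S.card - 1)
              nlinarith
            · intro u
              rw [dl_bd hv, Pi.add_apply, Pi.add_apply, Finset.mem_erase]
              by_cases huv : u = v
              · subst huv
                rw [hAv, dl_apply_self, dl_apply_ne hwv.symm]
                constructor
                · intro h; exact absurd h (by decide)
                · intro h; exact absurd h.2 hvS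
              · by_cases huw : u = w
                · rw [← hw, huw, dl_apply_self, dl_apply_ne hwv, (hS w hwv).2 hwS]
                  constructor
                  · intro h; exact absurd h (by decide)
                  · intro h; exact absurd rfl h.1
                · rw [dl_apply_ne huv, ← hw, dl_apply_ne huw, add_zero, add_zero, hS u huv]
                  exact ⟨fun h => ⟨huw, h⟩, fun h => h.2⟩
          · refine ih.1 (D.erase e) (A + G.bd e) w S hc ?_ hwS ?_
            · rw [dl_bd hv, Pi.add_apply, Pi.add_apply, dl_apply_self, dl_apply_ne hwv, add_zero]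
              have : ¬ A w = 1 := fun h => hwS ((hS w hwv).1 h)
              rcases zmod2_cases (A w) with h0 | h0
              · rw [h0, zero_add]
              · exact absurd h0 this
            · intro u hu
              rw [dl_bd hv, Pi.add_apply, Pi.add_apply, ← hw, dl_apply_ne hu, add_zero]
              by_cases huv : u = v
              · subst huv
                rw [hAv, dl_apply_self]
                constructor
                · intro h; exact absurd h (by decide)
                · intro h; exact absurd h hvS
              · rw [dl_apply_ne huv, add_zero]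
                exact hS u huv
        show (1 + 1 / C) * (_ + x * _) ≤ _
        have hk := cst_nonneg hC0 (S.card - 1)
        have hZ := Z_zero_pos (b := G.bd) hx D
        have hfe : G.Zp x (D.erase e) 0 = G.fe x D e * G.Zp x D 0 := by
          unfold fe; field_simp
        calc (1 + 1 / C) * (G.wsum x (1 + 1 / C) (G.Zp x) (G.explore n (D.erase e) A v)
                (D.erase e) A + x * G.wsum x (1 + 1 / C) (G.Zp x)
                  (G.explore n (D.erase e) (A + G.bd e) w) (D.erase e) (A + G.bd e))
            ≤ (1 + 1 / C) * (cst C (S.card - 1) * (∑ a ∈ S, G.Th x (D.erase e) v a)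
                * G.Zp x (D.erase e) 0 + x * (cst C (S.card - 1)
                * (∑ a ∈ S, G.Th x (D.erase e) w a) * G.Zp x (D.erase e) 0)) := by gcongr
          _ = cst C (S.card - 1) * (∑ a ∈ S, (1 + 1 / C) * (G.fe x D e *
                (G.Th x (D.erase e) v a + x * G.Th x (D.erase e) w a))) * G.Zp x D 0 := by
              rw [hfe, ← Finset.mul_sum, ← Finset.mul_sum, Finset.sum_add_distrib,
                ← Finset.mul_sum]
              ring
          _ ≤ _ := by
              have : ∑ a ∈ S, (1 + 1 / C) * (G.fe x D e *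
                (G.Th x (D.erase e) v a + x * G.Th x (D.erase e) w a))
                ≤ ∑ a ∈ S, G.Th x D v a :=
                Finset.sum_le_sum fun a _ => Th_step hx hC hx1 heD hv a
              gcongr
      · have htree : G.explore (n + 1) D A v = .leaf := by
          conv_lhs => unfold explore
          rw [dif_neg h]
        rw [htree]
        show G.Zp x D A ≤ _
        have : G.Zp x D A = 0 := by
          apply Zp_eq_zero (v := v)
          · rw [hAv]; exact one_ne_zero
          · intro e he hi
            exact h ⟨e, he, by rw [hp]; exact hi, by rw [hp]; exact hAv⟩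
        rw [this]
        exact mul_nonneg (mul_nonneg (cst_nonneg hC0 _)
          (Finset.sum_nonneg fun a _ => Th_nonneg hx _ _ _)) (Z_nonneg hx _ _)
    exact ⟨hQ, step (n + 1) hQ⟩

end Pool.Agent.LoopO1.Gr
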