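import Pool.Agent.LoopO1_f0ab88.Even

/-!
# Correlations on graphs: Griffiths, monotonicity, the Gaussian inequality
-/

open Finset

set_option linter.unusedSectionVars false
set_option linter.unusedVariables false

namespace Pool.Agent.LoopO1

/-- A graph given by the endpoints of its edges. -/
structure Gr (V E : Type*) where
  /-- first endpoint -/
  src : E → V
  /-- second endpoint -/
  tgt : E → V
  ne : ∀ e, src e ≠ tgt e

/-- The unit source at `v`. -/
def dl {V : Type*} [DecidableEq V] (v : V) : V → ZMod 2 := Pi.single v 1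

lemma add_self_fun {V : Type*} (a : V → ZMod 2) : a + a = 0 := by
  funext v
  exact CharTwo.add_self_eq_zero (a v)

lemma sub_eq_add_fun {V : Type*} (a c : V → ZMod 2) : a - c = a + c := by
  have h : c = -c := eq_neg_of_add_eq_zero_left (add_self_fun c)
  rw [sub_eq_add_neg, ← h]

namespace Gr

variable {V E : Type*} [DecidableEq V] [DecidableEq E] (G : Gr V E) (x : ℝ)

/-- The sources of an edge. -/
def bd (e : E) : V → ZMod 2 := dl (G.src e) + dl (G.tgt e)

/-- Incidence. -/
def Inc (v : V) (e : E) : Prop := v = G.src e ∨ v = G.tgt e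

instance (v : V) (e : E) : Decidable (G.Inc v e) := by unfold Inc; infer_instance

/-- The other endpoint. -/
def other (e : E) (v : V) : V := if v = G.src e then G.tgt e else G.src e

lemma bd_of_inc {v : V} {e : E} (h : G.Inc v e) : G.bd e = dl v + dl (G.other e v) := by
  unfold bd other
  rcases h with h | h
  · rw [if_pos h, h]
  · have : v ≠ G.src e := fun h' => G.ne e (h'.symm.trans h)
    rw [if_neg this, h, add_comm]

lemma other_ne {v : V} {e : E} (h : G.Inc v e) : G.other e v ≠ v := by
  unfold other
  rcases h with h | h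
  · rw [if_pos h, h]; exact (G.ne e).symm
  · have : v ≠ G.src e := fun h' => G.ne e (h'.symm.trans h)
    rw [if_neg this, h]; exact G.ne e

lemma inc_other {v : V} {e : E} (h : G.Inc v e) : G.Inc (G.other e v) e := by
  unfold other Inc
  rcases h with h | h
  · rw [if_pos h]; right; rfl
  · have : v ≠ G.src e := fun h' => G.ne e (h'.symm.trans h)
    rw [if_neg this]; left; rfl

/-- Partition function with sources. -/
noncomputable abbrev Zp (D : Finset E) (A : V → ZMod 2) : ℝ := Z G.bd x D A

/-- The correlation `⟨σ_A⟩_D`. -/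
noncomputable abbrev gp (D : Finset E) (A : V → ZMod 2) : ℝ := g G.bd x D A

/-- The two point function. -/
noncomputable def tp (D : Finset E) (u v : V) : ℝ := G.gp x D (dl u + dl v)

/-- The ratio of partition functions `Z_{D∖S}/Z_D`. -/
noncomputable def f (D S : Finset E) : ℝ := G.Zp x (D \ S) 0 / G.Zp x D 0

/-- The ratio for one edge. -/
noncomputable def fe (D : Finset E) (e : E) : ℝ := G.Zp x (D.erase e) 0 / G.Zp x D 0

variable {G x}

lemma gp_nonneg (hx : 0 ≤ x) (D : Finset E) (A : V → ZMod 2) : 0 ≤ G.gp x D A :=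
  div_nonneg (Z_nonneg hx _ _) (Z_nonneg hx _ _)

lemma gp_zero (hx : 0 ≤ x) (D : Finset E) : G.gp x D 0 = 1 :=
  div_self (Z_zero_pos hx D).ne'

lemma gks_g (hx : 0 ≤ x) (hx1 : x ≤ 1) (D : Finset E) (A B : V → ZMod 2) :
    G.gp x D A * G.gp x D B ≤ G.gp x D (A + B) := by
  have h := gks (b := G.bd) add_self_fun hx hx1 D A B
  have hz := Z_zero_pos (b := G.bd) hx D
  unfold gp g
  rw [div_mul_div_comm, div_le_div_iff₀ (by positivity) hz]
  nlinarith

lemma gp_le_one (hx : 0 ≤ x) (hx1 : x ≤ 1) (D : Finset E) (A : V → ZMod 2) :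
    G.gp x D A ≤ 1 := by
  have h := gks_g (G := G) hx hx1 D A A
  rw [add_self_fun, gp_zero hx] at h
  have h0 := gp_nonneg (G := G) hx D A
  nlinarith

lemma fe_pos (hx : 0 ≤ x) (D : Finset E) (e : E) : 0 < G.fe x D e :=
  div_pos (Z_zero_pos hx _) (Z_zero_pos hx _)

lemma Zp_erase {D : Finset E} {e : E} (he : e ∈ D) (A : V → ZMod 2) :
    G.Zp x D A = G.Zp x (D.erase e) A + x * G.Zp x (D.erase e) (A + G.bd e) := by
  have h := Z_insert (b := G.bd) (x := x) (Finset.notMem_erase e D) A
  rw [Finset.insert_erase he, sub_eq_add_fun] at h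
  exact h

lemma gp_step (hx : 0 ≤ x) {D : Finset E} {e : E} (he : e ∈ D) (A : V → ZMod 2) :
    G.gp x D A = G.fe x D e *
      (G.gp x (D.erase e) A + x * G.gp x (D.erase e) (A + G.bd e)) := by
  unfold gp g fe Zp
  have h1 := (Z_zero_pos (b := G.bd) hx D).ne'
  have h2 := (Z_zero_pos (b := G.bd) hx (D.erase e)).ne'
  have h3 := Zp_erase (G := G) (x := x) he A
  unfold Zp at h3
  rw [h3]
  field_simp

lemma fe_mul (hx : 0 ≤ x) {D : Finset E} {e : E} (he : e ∈ D) :
    G.fe x D e * (1 + x * G.gp x (D.erase e) (G.bd e)) = 1 := by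
  have h := gp_step (G := G) hx he 0
  rw [gp_zero hx, gp_zero hx, zero_add] at h
  exact h.symm

lemma fe_le_one (hx : 0 ≤ x) {D : Finset E} {e : E} (he : e ∈ D) : G.fe x D e ≤ 1 := by
  have h := fe_mul (G := G) hx he
  have h1 := fe_pos (G := G) hx D e
  have h2 := gp_nonneg (G := G) hx (D.erase e) (G.bd e)
  nlinarith [mul_nonneg hx h2, mul_nonneg h1.le (mul_nonneg hx h2)]

lemma gp_erase_le (hx : 0 ≤ x) (hx1 : x ≤ 1) (D : Finset E) (e : E) (A : V → ZMod 2) :
    G.gp x (D.erase e) A ≤ G.gp x D A := by
  by_cases he : e ∈ D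
  · rw [gp_step hx he]
    have h := gks_g (G := G) hx hx1 (D.erase e) A (G.bd e)
    have h1 := fe_mul (G := G) hx he
    have h2 := fe_pos (G := G) hx D e
    calc G.gp x (D.erase e) A
        = G.fe x D e * (G.gp x (D.erase e) A * (1 + x * G.gp x (D.erase e) (G.bd e))) := by
          rw [mul_left_comm, h1, mul_one]
      _ = G.fe x D e * (G.gp x (D.erase e) A
            + x * (G.gp x (D.erase e) A * G.gp x (D.erase e) (G.bd e))) := by ring
      _ ≤ _ := by gcongr
  · rw [Finset.erase_eq_of_notMem he]

lemma gp_mono (hx : 0 ≤ x) (hx1 : x ≤ 1) {D' D : Finset E} (h : D' ⊆ D) (A : V → ZMod 2) :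
    G.gp x D' A ≤ G.gp x D A := by
  induction D using Finset.strongInduction with
  | H D ih =>
    by_cases hD : D' = D
    · rw [hD]
    · obtain ⟨e, he, he'⟩ := Finset.exists_of_ssubset (Finset.ssubset_iff_subset_ne.2 ⟨h, hD⟩)
      have h1 : D' ⊆ D.erase e := Finset.subset_erase.2 ⟨h, he'⟩
      exact (ih _ (Finset.erase_ssubset he) h1).trans (gp_erase_le hx hx1 D e A)

/-! ### Two point function -/

lemma tp_self (hx : 0 ≤ x) (D : Finset E) (v : V) : G.tp x D v v = 1 := by
  unfold tp
  rw [add_self_fun, gp_zero hx]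

lemma tp_comm (D : Finset E) (u v : V) : G.tp x D u v = G.tp x D v u := by
  unfold tp
  rw [add_comm]

lemma tp_nonneg (hx : 0 ≤ x) (D : Finset E) (u v : V) : 0 ≤ G.tp x D u v := gp_nonneg hx _ _

lemma tp_le_one (hx : 0 ≤ x) (hx1 : x ≤ 1) (D : Finset E) (u v : V) : G.tp x D u v ≤ 1 :=
  gp_le_one hx hx1 _ _

lemma tp_mono (hx : 0 ≤ x) (hx1 : x ≤ 1) {D' D : Finset E} (h : D' ⊆ D) (u v : V) :
    G.tp x D' u v ≤ G.tp x D u v := gp_mono hx hx1 h _

lemma dl_bd {v : V} {e : E} (h : G.Inc v e) (A : V → ZMod 2) :
    A + G.bd e = A + dl v + dl (G.other e v) := by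
  rw [G.bd_of_inc h, add_assoc]

/-- One step of the exploration for the two point function. -/
lemma tp_step (hx : 0 ≤ x) {D : Finset E} {e : E} (he : e ∈ D) {v : V} (hv : G.Inc v e) (a : V) :
    G.tp x D v a = G.fe x D e *
      (G.tp x (D.erase e) v a + x * G.tp x (D.erase e) (G.other e v) a) := by
  unfold tp
  rw [gp_step hx he]
  have : dl v + dl a + G.bd e = dl (G.other e v) + dl a := by
    rw [G.bd_of_inc hv]
    have h := add_self_fun (dl v : V → ZMod 2)
    calc dl v + dl a + (dl v + dl (G.other e v))
        = (dl v + dl v) + (dl (G.other e v) + dl a) := by abel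
      _ = _ := by rw [h, zero_add]
  rw [this]

lemma gp_triangle (hx : 0 ≤ x) (hx1 : x ≤ 1) (D : Finset E) (u v w : V) :
    G.tp x D u v * G.tp x D v w ≤ G.tp x D u w := by
  unfold tp
  refine (gks_g hx hx1 D _ _).trans_eq ?_
  have : dl u + dl v + (dl v + dl w) = dl u + dl w := by
    have h := add_self_fun (dl v : V → ZMod 2)
    calc dl u + dl v + (dl v + dl w) = (dl v + dl v) + (dl u + dl w) := by abel
      _ = _ := by rw [h, zero_add]
  rw [this]

/-- If a source has no edge, the correlation vanishes. -/
lemma Zp_eq_zero {D : Finset E} {A : V → ZMod 2} {v : V} (hA : A v ≠ 0)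
    (hD : ∀ e ∈ D, ¬ G.Inc v e) : G.Zp x D A = 0 := by
  classical
  unfold Zp Z
  refine Finset.sum_eq_zero fun η hη => ?_
  rw [if_neg]
  intro h
  apply hA
  rw [← h, Finset.sum_apply]
  refine Finset.sum_eq_zero fun e he => ?_
  have hi := hD e (Finset.mem_powerset.1 hη he)
  unfold Inc at hi
  push Not at hi
  unfold bd dl
  rw [Pi.add_apply, Pi.single_apply, Pi.single_apply, if_neg hi.1, if_neg hi.2, add_zero]

lemma gp_eq_zero {D : Finset E} {A : V → ZMod 2} {v : V} (hA : A v ≠ 0)
    (hD : ∀ e ∈ D, ¬ G.Inc v e) : G.gp x D A = 0 := by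
  unfold gp g
  have := Zp_eq_zero (G := G) (x := x) hA hD
  unfold Zp at this
  rw [this, zero_div]

lemma tp_edge (hx : 0 ≤ x) (hx1 : x ≤ 1) {D : Finset E} {e : E} (he : e ∈ D) :
    x ≤ G.tp x D (G.src e) (G.tgt e) := by
  have h1 : G.tp x {e} (G.src e) (G.tgt e) ≤ G.tp x D (G.src e) (G.tgt e) :=
    tp_mono hx hx1 (by simpa using he) _ _
  refine le_trans ?_ h1
  have hi : G.Inc (G.src e) e := Or.inl rfl
  have ho : G.other e (G.src e) = G.tgt e := by unfold other; rw [if_pos rfl]
  have h2 := tp_step (G := G) hx (Finset.mem_singleton_self e) hi (G.tgt e)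
  have h3 := fe_mul (G := G) hx (Finset.mem_singleton_self e)
  have he0 : ({e} : Finset E).erase e = ∅ := by simp
  rw [he0] at h2 h3
  have h4 : G.gp x ∅ (G.bd e) = 0 := by
    apply gp_eq_zero (v := G.src e)
    · unfold bd dl
      rw [Pi.add_apply, Pi.single_apply, Pi.single_apply, if_pos rfl, if_neg (G.ne e), add_zero]
      exact one_ne_zero
    · simp
  have h5 : G.tp x ∅ (G.src e) (G.tgt e) = 0 := h4
  rw [ho, tp_self hx, h5] at h2
  rw [h4] at h3
  have h6 : G.fe x {e} e = 1 := by linarith
  rw [h2, h6]
  linarith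

/-! ### The Gaussian inequality -/

lemma dl_apply_self (v : V) : (dl v : V → ZMod 2) v = 1 := by unfold dl; simp

lemma dl_apply_ne {u v : V} (h : u ≠ v) : (dl v : V → ZMod 2) u = 0 := by
  unfold dl; rw [Pi.single_apply, if_neg h]

lemma zmod2_cases (a : ZMod 2) : a = 0 ∨ a = 1 := by
  fin_cases a
  · left; rfl
  · right; rfl

/-- The Gaussian (Newman) inequality. -/
theorem newman (hx : 0 ≤ x) (hx1 : x ≤ 1) (D : Finset E) :
    ∀ (A : V → ZMod 2) (v : V) (S : Finset V), A v = 1 → v ∉ S →
      (∀ u, u ≠ v → (A u = 1 ↔ u ∈ S)) →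
      G.gp x D A ≤ ∑ a ∈ S, G.tp x D v a * G.gp x D (A + dl v + dl a) := by
  induction D using Finset.strongInduction with
  | H D ih =>
    intro A v S hAv hvS hS
    by_cases hD : ∃ e ∈ D, G.Inc v e
    · obtain ⟨e, he, hv⟩ := hD
      set w := G.other e v with hw
      have hwv : w ≠ v := G.other_ne hv
      have key : G.gp x (D.erase e) (A + G.bd e)
          ≤ ∑ a ∈ S, G.tp x (D.erase e) w a * G.gp x (D.erase e) (A + dl v + dl a) := by
        by_cases hwS : w ∈ S
        · have h1 : G.tp x (D.erase e) w w * G.gp x (D.erase e) (A + dl v + dl w)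
              ≤ ∑ a ∈ S, G.tp x (D.erase e) w a * G.gp x (D.erase e) (A + dl v + dl a) :=
            Finset.single_le_sum
              (f := fun a => G.tp x (D.erase e) w a * G.gp x (D.erase e) (A + dl v + dl a))
              (fun a _ => mul_nonneg (tp_nonneg hx _ _ _) (gp_nonneg hx _ _)) hwS
          rw [tp_self hx, one_mul] at h1
          rw [dl_bd hv]
          exact h1
        · have h1 := ih (D.erase e) (Finset.erase_ssubset he) (A + G.bd e) w S ?_ hwS ?_
          · refine h1.trans_eq ?_
            refine Finset.sum_congr rfl fun a _ => ?_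
            congr 2
            rw [dl_bd hv]
            have h := add_self_fun (dl w : V → ZMod 2)
            calc A + dl v + dl w + dl w + dl a = (dl w + dl w) + (A + dl v + dl a) := by abel
              _ = _ := by rw [h, zero_add]
          · rw [dl_bd hv, Pi.add_apply, Pi.add_apply, dl_apply_self, dl_apply_ne hwv, add_zero]
            have : ¬ A w = 1 := fun h => hwS ((hS w hwv).1 h)
            rcases zmod2_cases (A w) with h0 | h0
            · rw [h0, zero_add]
            · exact absurd h0 this
          · intro u hu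
            rw [dl_bd hv, Pi.add_apply, Pi.add_apply, dl_apply_ne hu, add_zero]
            by_cases huv : u = v
            · subst huv
              rw [hAv, dl_apply_self]
              constructor
              · intro h; exact absurd h (by decide)
              · intro h; exact absurd h hvS
            · rw [dl_apply_ne huv, add_zero]
              exact hS u huv
      rw [gp_step hx he]
      have hm := gp_mono (G := G) hx hx1 (Finset.erase_subset e D)
      have hf := (fe_pos (G := G) hx D e).le
      by_cases hD2 : ∃ e' ∈ D.erase e, G.Inc v e'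
      · have h0 := ih (D.erase e) (Finset.erase_ssubset he) A v S hAv hvS hS
        calc G.fe x D e * (G.gp x (D.erase e) A + x * G.gp x (D.erase e) (A + G.bd e))
            ≤ G.fe x D e * (∑ a ∈ S, G.tp x (D.erase e) v a * G.gp x (D.erase e) (A + dl v + dl a)
              + x * ∑ a ∈ S, G.tp x (D.erase e) w a * G.gp x (D.erase e) (A + dl v + dl a)) := by
              gcongr
          _ = ∑ a ∈ S, (G.fe x D e * (G.tp x (D.erase e) v a + x * G.tp x (D.erase e) w a))
                * G.gp x (D.erase e) (A + dl v + dl a) := by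
              rw [Finset.mul_sum, ← Finset.sum_add_distrib, Finset.mul_sum]
              refine Finset.sum_congr rfl fun a _ => ?_
              ring
          _ = ∑ a ∈ S, G.tp x D v a * G.gp x (D.erase e) (A + dl v + dl a) := by
              refine Finset.sum_congr rfl fun a _ => ?_
              rw [← tp_step hx he hv]
          _ ≤ _ := by
              refine Finset.sum_le_sum fun a _ => ?_
              exact mul_le_mul_of_nonneg_left (hm _) (tp_nonneg hx _ _ _)
      · have h0 : G.gp x (D.erase e) A = 0 := by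
          apply gp_eq_zero (v := v)
          · rw [hAv]; exact one_ne_zero
          · intro e' he'
            push Not at hD2
            exact hD2 e' he'
        have h0' : G.gp x (D.erase e) A ≤
            ∑ a ∈ S, G.tp x (D.erase e) v a * G.gp x (D.erase e) (A + dl v + dl a) := by
          rw [h0]
          exact Finset.sum_nonneg fun a _ => mul_nonneg (tp_nonneg hx _ _ _) (gp_nonneg hx _ _)
        calc G.fe x D e * (G.gp x (D.erase e) A + x * G.gp x (D.erase e) (A + G.bd e))
            ≤ G.fe x D e * (∑ a ∈ S, G.tp x (D.erase e) v a * G.gp x (D.erase e) (A + dl v + dl a)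
              + x * ∑ a ∈ S, G.tp x (D.erase e) w a * G.gp x (D.erase e) (A + dl v + dl a)) := by
              gcongr
          _ = ∑ a ∈ S, (G.fe x D e * (G.tp x (D.erase e) v a + x * G.tp x (D.erase e) w a))
                * G.gp x (D.erase e) (A + dl v + dl a) := by
              rw [Finset.mul_sum, ← Finset.sum_add_distrib, Finset.mul_sum]
              refine Finset.sum_congr rfl fun a _ => ?_
              ring
          _ = ∑ a ∈ S, G.tp x D v a * G.gp x (D.erase e) (A + dl v + dl a) := by
              refine Finset.sum_congr rfl fun a _ => ?_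
              rw [← tp_step hx he hv]
          _ ≤ _ := by
              refine Finset.sum_le_sum fun a _ => ?_
              exact mul_le_mul_of_nonneg_left (hm _) (tp_nonneg hx _ _ _)
    · push Not at hD
      rw [gp_eq_zero (v := v) (by rw [hAv]; exact one_ne_zero) hD]
      exact Finset.sum_nonneg fun a _ => mul_nonneg (tp_nonneg hx _ _ _) (gp_nonneg hx _ _)

lemma lebowitz (hx : 0 ≤ x) (hx1 : x ≤ 1) (D : Finset E) (u v y z : V) :
    G.gp x D (dl u + dl v + (dl y + dl z)) ≤
      G.tp x D u v * G.tp x D y z + G.tp x D u y * G.tp x D v z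
        + G.tp x D u z * G.tp x D v y := by
  have n := fun a c => tp_nonneg (G := G) (x := x) hx D a c
  have s2 : ∀ a : V, (dl a + dl a : V → ZMod 2) = 0 := fun a => add_self_fun _
  by_cases huv : u = v
  · subst huv
    rw [s2, zero_add, tp_self hx, one_mul]
    have : G.gp x D (dl y + dl z) = G.tp x D y z := rfl
    rw [this]
    nlinarith [mul_nonneg (n u y) (n u z), mul_nonneg (n u z) (n u y)]
  by_cases huy : u = y
  · subst huy
    have h : dl u + dl v + (dl u + dl z) = dl v + dl z := by
      calc dl u + dl v + (dl u + dl z) = (dl u + dl u) + (dl v + dl z) := by abel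
        _ = _ := by rw [s2, zero_add]
    have : G.gp x D (dl v + dl z) = G.tp x D v z := rfl
    rw [h, this, tp_self hx, one_mul]
    nlinarith [mul_nonneg (n u v) (n u z), mul_nonneg (n u z) (n v u)]
  by_cases huz : u = z
  · subst huz
    have h : dl u + dl v + (dl y + dl u) = dl v + dl y := by
      calc dl u + dl v + (dl y + dl u) = (dl u + dl u) + (dl v + dl y) := by abel
        _ = _ := by rw [s2, zero_add]
    have : G.gp x D (dl v + dl y) = G.tp x D v y := rfl
    rw [h, this, tp_self hx, one_mul]
    nlinarith [mul_nonneg (n u v) (n y u), mul_nonneg (n u y) (n v u)]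
  by_cases hvy : v = y
  · subst hvy
    have h : dl u + dl v + (dl v + dl z) = dl u + dl z := by
      calc dl u + dl v + (dl v + dl z) = (dl v + dl v) + (dl u + dl z) := by abel
        _ = _ := by rw [s2, zero_add]
    have : G.gp x D (dl u + dl z) = G.tp x D u z := rfl
    rw [h, this, tp_self hx, mul_one]
    nlinarith [mul_nonneg (n u v) (n v z), mul_nonneg (n u v) (n v z)]
  by_cases hvz : v = z
  · subst hvz
    have h : dl u + dl v + (dl y + dl v) = dl u + dl y := by
      calc dl u + dl v + (dl y + dl v) = (dl v + dl v) + (dl u + dl y) := by abel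
        _ = _ := by rw [s2, zero_add]
    have : G.gp x D (dl u + dl y) = G.tp x D u y := rfl
    rw [h, this, tp_self hx, mul_one]
    nlinarith [mul_nonneg (n u v) (n y v), mul_nonneg (n u v) (n v y)]
  by_cases hyz : y = z
  · subst hyz
    have : G.gp x D (dl u + dl v) = G.tp x D u v := rfl
    rw [s2, add_zero, this, tp_self hx, mul_one]
    nlinarith [mul_nonneg (n u y) (n v y)]
  -- all distinct
  have h := newman (G := G) hx hx1 D (dl u + dl v + (dl y + dl z)) u {v, y, z} ?_ ?_ ?_
  · refine h.trans_eq ?_
    have hv : v ∉ ({y, z} : Finset V) := by simp [hvy, hvz]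
    have hy : y ∉ ({z} : Finset V) := by simp [hyz]
    rw [Finset.sum_insert hv, Finset.sum_insert hy, Finset.sum_singleton]
    have e1 : dl u + dl v + (dl y + dl z) + dl u + dl v = dl y + dl z := by
      calc dl u + dl v + (dl y + dl z) + dl u + dl v
          = (dl u + dl u) + (dl v + dl v) + (dl y + dl z) := by abel
        _ = _ := by rw [s2, s2, zero_add, zero_add]
    have e2 : dl u + dl v + (dl y + dl z) + dl u + dl y = dl v + dl z := by
      calc dl u + dl v + (dl y + dl z) + dl u + dl y
          = (dl u + dl u) + (dl y + dl y) + (dl v + dl z) := by abel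
        _ = _ := by rw [s2, s2, zero_add, zero_add]
    have e3 : dl u + dl v + (dl y + dl z) + dl u + dl z = dl v + dl y := by
      calc dl u + dl v + (dl y + dl z) + dl u + dl z
          = (dl u + dl u) + (dl z + dl z) + (dl v + dl y) := by abel
        _ = _ := by rw [s2, s2, zero_add, zero_add]
    rw [e1, e2, e3]
    unfold tp
    ring
  · rw [Pi.add_apply, Pi.add_apply, Pi.add_apply, dl_apply_self, dl_apply_ne huv, dl_apply_ne huy,
      dl_apply_ne huz]
    rfl
  · simp [huv, huy, huz]
  · intro a ha
    rw [Pi.add_apply, Pi.add_apply, Pi.add_apply, dl_apply_ne ha, zero_add]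
    by_cases h1 : a = v
    · subst h1
      rw [dl_apply_self, dl_apply_ne hvy, dl_apply_ne hvz]
      simp
    · by_cases h2 : a = y
      · subst h2
        rw [dl_apply_self, dl_apply_ne hyz, dl_apply_ne h1]
        simp
      · by_cases h3 : a = z
        · subst h3
          rw [dl_apply_self, dl_apply_ne h2, dl_apply_ne h1]
          simp
        · rw [dl_apply_ne h1, dl_apply_ne h2, dl_apply_ne h3]
          simp [h1, h2, h3]

/-- The effect of one edge on the two point function. -/
lemma tp_diff (hx : 0 ≤ x) (hx1 : x ≤ 1) (D : Finset E) (e : E) (u v : V) :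
    G.tp x D u v - G.tp x (D.erase e) u v ≤
      x * (G.tp x D u (G.src e) * G.tp x D v (G.tgt e)
        + G.tp x D u (G.tgt e) * G.tp x D v (G.src e)) := by
  have n := fun a c => tp_nonneg (G := G) (x := x) hx D a c
  by_cases he : e ∈ D
  · have h1 := fe_mul (G := G) hx he
    have h2 := fe_pos (G := G) hx D e
    have h3 := fe_le_one (G := G) hx he
    have h4 := lebowitz (G := G) hx hx1 (D.erase e) u v (G.src e) (G.tgt e)
    have h5 : G.tp x D u v = G.fe x D e * (G.tp x (D.erase e) u v
        + x * G.gp x (D.erase e) (dl u + dl v + G.bd e)) := by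
      unfold tp
      exact gp_step hx he _
    have m := fun a c => tp_mono (G := G) (x := x) hx hx1 (Finset.erase_subset e D) a c
    have n' := fun a c => tp_nonneg (G := G) (x := x) hx (D.erase e) a c
    have h6 : G.tp x D u v - G.tp x (D.erase e) u v
        = G.fe x D e * x * (G.gp x (D.erase e) (dl u + dl v + G.bd e)
            - G.tp x (D.erase e) u v * G.gp x (D.erase e) (G.bd e)) := by
      rw [h5]
      have : G.tp x (D.erase e) u v = G.tp x (D.erase e) u v *
          (G.fe x D e * (1 + x * G.gp x (D.erase e) (G.bd e))) := by rw [h1, mul_one]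
      linear_combination (-1) * this
    rw [h6]
    have h7 : G.gp x (D.erase e) (dl u + dl v + G.bd e)
            - G.tp x (D.erase e) u v * G.gp x (D.erase e) (G.bd e)
        ≤ G.tp x D u (G.src e) * G.tp x D v (G.tgt e)
        + G.tp x D u (G.tgt e) * G.tp x D v (G.src e) := by
      have h8 : G.gp x (D.erase e) (G.bd e) = G.tp x (D.erase e) (G.src e) (G.tgt e) := rfl
      rw [h8]
      have h9 : G.gp x (D.erase e) (dl u + dl v + G.bd e) =
        G.gp x (D.erase e) (dl u + dl v + (dl (G.src e) + dl (G.tgt e))) := rfl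
      rw [h9]
      have i1 := mul_le_mul (m u (G.src e)) (m v (G.tgt e)) (n' _ _) (n _ _)
      have i2 := mul_le_mul (m u (G.tgt e)) (m v (G.src e)) (n' _ _) (n _ _)
      linarith
    have h10 : 0 ≤ G.tp x D u (G.src e) * G.tp x D v (G.tgt e)
        + G.tp x D u (G.tgt e) * G.tp x D v (G.src e) :=
      add_nonneg (mul_nonneg (n _ _) (n _ _)) (mul_nonneg (n _ _) (n _ _))
    calc _ ≤ G.fe x D e * x * (G.tp x D u (G.src e) * G.tp x D v (G.tgt e)
        + G.tp x D u (G.tgt e) * G.tp x D v (G.src e)) :=
          mul_le_mul_of_nonneg_left h7 (mul_nonneg h2.le hx)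
      _ ≤ 1 * x * (G.tp x D u (G.src e) * G.tp x D v (G.tgt e)
        + G.tp x D u (G.tgt e) * G.tp x D v (G.src e)) := by gcongr
      _ = _ := by ring
  · rw [Finset.erase_eq_of_notMem he, sub_self]
    exact mul_nonneg hx (add_nonneg (mul_nonneg (n _ _) (n _ _)) (mul_nonneg (n _ _) (n _ _)))

end Gr

end Pool.Agent.LoopO1
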