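import Pool.Agent.LoopO1_f0ab88.Translate

/-!
# Interface between the finite volume estimates and the measure theoretic part
-/

open Finset MeasureTheory

set_option linter.unusedSectionVars false
set_option linter.unusedVariables false

namespace Pool.Agent.LoopO1

/-- Sources on the inner boundary of the box `[-N, N]^d`. -/
def BdSrc (d N : ℕ) (B : Vtx d → ZMod 2) : Prop := ∀ v, B v ≠ 0 → v ∈ box d N ∧ v ∉ box d (N - 1)

/-- Finite volume quasi-invariance under unit shifts. -/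
def FVQ (d : ℕ) (x : ℝ) : Prop :=
  ∀ δ : ℝ, 0 < δ → ∃ C : ℝ, ∀ m : ℕ, ∃ N : ℕ, m + 1 ≤ N ∧
    ∀ B : Vtx d → ZMod 2, BdSrc d N B → ∀ (Φ : Set (Finset (Edg d))) (t : Vtx d), nrm t ≤ 1 →
      (lat d).EZ x (ebox d N) B (fun η => Φ.indicator (fun _ => (1 : ℝ)) (η ∩ ebox d m)) ≤
        C * (lat d).EZ x (ebox d N) B
            (fun η => Φ.indicator (fun _ => (1 : ℝ)) (η.image (sh (-t)) ∩ ebox d m)) +
          δ * (lat d).Zp x (ebox d N) B

/-- Finite volume: on average over many shifts the local patterns have the right frequency. -/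
def FVD (d : ℕ) (x : ℝ) : Prop :=
  ∃ p : Finset (Edg d) → Finset (Edg d) → ℝ, (∀ F, ∑ ζ ∈ F.powerset, p F ζ ≤ 1) ∧
    ∀ (F ζ : Finset (Edg d)), ζ ⊆ F → ∀ ε : ℝ, 0 < ε → ∃ (N : ℕ) (T : Finset (Vtx d)),
      0 < N ∧ T.Nonempty ∧ (∀ t ∈ T, F.image (sh t) ⊆ ebox d N) ∧
      ∀ B : Vtx d → ZMod 2, BdSrc d N B →
        ∑ t ∈ T, (lat d).EZ x (ebox d N) B
            (fun η => if η ∩ F.image (sh t) = ζ.image (sh t) then (1 : ℝ) else 0) ≤
          T.card * (p F ζ + ε) * (lat d).Zp x (ebox d N) B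

end Pool.Agent.LoopO1
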