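import Pool.Agent.LoopO1_f0ab88.ShiftAbs
import Pool.Agent.LoopO1_f0ab88.Defs

/-!
# The hypercubic lattice
-/

open Finset

set_option linter.unusedSectionVars false
set_option linter.unusedVariables false

namespace Pool.Agent.LoopO1

/-- The hypercubic lattice. -/
def lat (d : ℕ) : Gr (Vtx d) (Edg d) where
  src e := e.1
  tgt e := e.1 + Pi.single e.2 1
  ne e := fun h => by
    have := congrFun h e.2
    simp at this

variable {d : ℕ}

@[simp] lemma lat_src (e : Edg d) : (lat d).src e = e.1 := rfl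

@[simp] lemma lat_tgt (e : Edg d) : (lat d).tgt e = e.1 + Pi.single e.2 1 := rfl

lemma mem_box {n : ℕ} {v : Vtx d} : v ∈ box d n ↔ ∀ i, -(n : ℤ) ≤ v i ∧ v i ≤ n := by
  unfold box
  simp only [Fintype.mem_piFinset, Finset.mem_Icc]

/-- The edges of the box. -/
noncomputable def ebox (d n : ℕ) : Finset (Edg d) :=
  ((box d n) ×ˢ (Finset.univ : Finset (Fin d))).filter fun e => e.1 + Pi.single e.2 1 ∈ box d n

lemma mem_ebox {n : ℕ} {e : Edg d} :
    e ∈ ebox d n ↔ e.1 ∈ box d n ∧ e.1 + Pi.single e.2 1 ∈ box d n := by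
  unfold ebox
  simp

lemma box_mono {m n : ℕ} (h : m ≤ n) : box d m ⊆ box d n := by
  intro v hv
  rw [mem_box] at hv ⊢
  intro i
  have := hv i
  have h' : (m : ℤ) ≤ n := by exact_mod_cast h
  constructor <;> linarith [this.1, this.2]

lemma ebox_mono {m n : ℕ} (h : m ≤ n) : ebox d m ⊆ ebox d n := by
  intro e he
  rw [mem_ebox] at he ⊢
  exact ⟨box_mono h he.1, box_mono h he.2⟩

/-- The `ℓ¹` norm. -/
def nrm (v : Vtx d) : ℕ := ∑ i, (v i).natAbs

lemma nrm_zero : nrm (0 : Vtx d) = 0 := by simp [nrm]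

lemma nrm_neg (v : Vtx d) : nrm (-v) = nrm v := by simp [nrm]

lemma nrm_sub_comm (u v : Vtx d) : nrm (u - v) = nrm (v - u) := by
  rw [← nrm_neg, neg_sub]

lemma nrm_add_le (u v : Vtx d) : nrm (u + v) ≤ nrm u + nrm v := by
  unfold nrm
  rw [← Finset.sum_add_distrib]
  exact Finset.sum_le_sum fun i _ => Int.natAbs_add_le _ _

lemma nrm_sub_le (u v w : Vtx d) : nrm (u - w) ≤ nrm (u - v) + nrm (v - w) := by
  have : u - w = (u - v) + (v - w) := by abel
  rw [this]; exact nrm_add_le _ _

lemma natAbs_le_nrm (v : Vtx d) (i : Fin d) : (v i).natAbs ≤ nrm v := by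
  unfold nrm
  exact Finset.single_le_sum (f := fun i => (v i).natAbs) (fun _ _ => Nat.zero_le _)
    (Finset.mem_univ i)

lemma nrm_single (i : Fin d) (k : ℤ) : nrm (Pi.single i k : Vtx d) = k.natAbs := by
  unfold nrm
  rw [Finset.sum_eq_single i]
  · simp
  · intro j _ hj; simp [Pi.single_apply, hj]
  · intro h; exact absurd (Finset.mem_univ i) h

lemma nrm_sub_update (p : Vtx d) (j : Fin d) (k : ℤ) :
    nrm (p - Function.update p j k) = (p j - k).natAbs := by
  have : p - Function.update p j k = Pi.single j (p j - k) := by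
    funext i
    by_cases h : i = j
    · subst h; simp
    · simp [Function.update_of_ne h, Pi.single_apply, h]
  rw [this, nrm_single]

lemma nrm_eq_zero {v : Vtx d} (h : nrm v = 0) : v = 0 := by
  funext i
  have := natAbs_le_nrm v i
  rw [h] at this
  exact Int.natAbs_eq_zero.1 (Nat.le_zero.1 this)

/-- Translation of edges. -/
def sh (t : Vtx d) (e : Edg d) : Edg d := (e.1 + t, e.2)

lemma sh_inj (t : Vtx d) : Function.Injective (sh t) := by
  rintro ⟨a, i⟩ ⟨c, j⟩ h
  simp only [sh, Prod.mk.injEq, add_left_inj] at h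
  exact Prod.ext h.1 h.2

/-- **Lower bound along paths in a rectangle.** -/
lemma tp_rect {x : ℝ} (hx : 0 ≤ x) (hx1 : x ≤ 1) (lo hi : Vtx d) (D : Finset (Edg d))
    (hD : ∀ e : Edg d, (∀ i, lo i ≤ e.1 i ∧ e.1 i ≤ hi i) →
      (∀ i, lo i ≤ (e.1 + Pi.single e.2 1 : Vtx d) i ∧ (e.1 + Pi.single e.2 1 : Vtx d) i ≤ hi i) →
      e ∈ D) :
    ∀ (n : ℕ) (a c : Vtx d), nrm (a - c) = n → (∀ i, lo i ≤ a i ∧ a i ≤ hi i) →
      (∀ i, lo i ≤ c i ∧ c i ≤ hi i) → x ^ n ≤ (lat d).tp x D a c := by
  intro n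
  induction n with
  | zero =>
    intro a c hn _ _
    have : a = c := sub_eq_zero.1 (nrm_eq_zero hn)
    rw [this, Gr.tp_self hx, pow_zero]
  | succ n ih =>
    intro a c hn ha hc
    have hne : a ≠ c := by
      intro h; rw [h, sub_self, nrm_zero] at hn; omega
    obtain ⟨i, hi'⟩ := Function.ne_iff.1 hne
    rcases lt_or_gt_of_ne hi' with hlt | hgt
    · -- step up
      set a' : Vtx d := a + Pi.single i 1 with ha'
      have h1 : ∀ k, lo k ≤ a' k ∧ a' k ≤ hi k := by
        intro k
        by_cases hk : k = i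
        · subst hk
          rw [ha', Pi.add_apply, Pi.single_eq_same]
          constructor <;> linarith [(ha k).1, (hc k).2]
        · rw [ha', Pi.add_apply, Pi.single_eq_of_ne hk, add_zero]
          exact ha k
      have h2 : nrm (a' - c) = n := by
        have e1 : a' - c = (a - c) + Pi.single i 1 := by rw [ha']; abel
        have e2 : nrm (a - c) = ∑ k ∈ Finset.univ.erase i, ((a - c) k).natAbs
            + ((a - c) i).natAbs := by
          unfold nrm; rw [Finset.sum_erase_add _ _ (Finset.mem_univ i)]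
        have e3 : nrm (a' - c) = ∑ k ∈ Finset.univ.erase i, ((a' - c) k).natAbs
            + ((a' - c) i).natAbs := by
          unfold nrm; rw [Finset.sum_erase_add _ _ (Finset.mem_univ i)]
        have e4 : ∑ k ∈ Finset.univ.erase i, ((a' - c) k).natAbs
            = ∑ k ∈ Finset.univ.erase i, ((a - c) k).natAbs := by
          refine Finset.sum_congr rfl fun k hk => ?_
          rw [e1, Pi.add_apply, Pi.single_eq_of_ne (Finset.ne_of_mem_erase hk), add_zero]
        have e5 : (a' - c) i = (a - c) i + 1 := by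
          rw [e1, Pi.add_apply, Pi.single_eq_same]
        have e6 : (a - c) i < 0 := by rw [Pi.sub_apply]; linarith
        omega
      have h3 : (a, i) ∈ D := hD (a, i) ha h1
      have h4 := Gr.tp_edge (G := lat d) hx hx1 h3
      have h5 := ih a' c h2 h1 hc
      have h6 := Gr.gp_triangle (G := lat d) hx hx1 D a a' c
      calc x ^ (n + 1) = x * x ^ n := by rw [pow_succ]; ring
        _ ≤ (lat d).tp x D a a' * (lat d).tp x D a' c :=
          mul_le_mul h4 h5 (pow_nonneg hx _) (Gr.tp_nonneg hx _ _ _)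
        _ ≤ _ := h6
    · -- step down
      set a' : Vtx d := a - Pi.single i 1 with ha'
      have h1 : ∀ k, lo k ≤ a' k ∧ a' k ≤ hi k := by
        intro k
        by_cases hk : k = i
        · subst hk
          rw [ha', Pi.sub_apply, Pi.single_eq_same]
          constructor <;> linarith [(ha k).2, (hc k).1]
        · rw [ha', Pi.sub_apply, Pi.single_eq_of_ne hk, sub_zero]
          exact ha k
      have h2 : nrm (a' - c) = n := by
        have e1 : a' - c = (a - c) - Pi.single i 1 := by rw [ha']; abel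
        have e2 : nrm (a - c) = ∑ k ∈ Finset.univ.erase i, ((a - c) k).natAbs
            + ((a - c) i).natAbs := by
          unfold nrm; rw [Finset.sum_erase_add _ _ (Finset.mem_univ i)]
        have e3 : nrm (a' - c) = ∑ k ∈ Finset.univ.erase i, ((a' - c) k).natAbs
            + ((a' - c) i).natAbs := by
          unfold nrm; rw [Finset.sum_erase_add _ _ (Finset.mem_univ i)]
        have e4 : ∑ k ∈ Finset.univ.erase i, ((a' - c) k).natAbs
            = ∑ k ∈ Finset.univ.erase i, ((a - c) k).natAbs := by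
          refine Finset.sum_congr rfl fun k hk => ?_
          rw [e1, Pi.sub_apply, Pi.single_eq_of_ne (Finset.ne_of_mem_erase hk), sub_zero]
        have e5 : (a' - c) i = (a - c) i - 1 := by
          rw [e1, Pi.sub_apply, Pi.single_eq_same]
        have e6 : 0 < (a - c) i := by rw [Pi.sub_apply]; linarith
        omega
      have haa : a' + Pi.single i 1 = a := by rw [ha']; abel
      have h3 : (a', i) ∈ D := hD (a', i) h1 (by rw [haa]; exact ha)
      have h4 := Gr.tp_edge (G := lat d) hx hx1 h3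
      simp only [lat_src, lat_tgt] at h4
      rw [haa, Gr.tp_comm] at h4
      have h5 := ih a' c h2 h1 hc
      have h6 := Gr.gp_triangle (G := lat d) hx hx1 D a a' c
      calc x ^ (n + 1) = x * x ^ n := by rw [pow_succ]; ring
        _ ≤ (lat d).tp x D a a' * (lat d).tp x D a' c :=
          mul_le_mul h4 h5 (pow_nonneg hx _) (Gr.tp_nonneg hx _ _ _)
        _ ≤ _ := h6

lemma tp_rect' {x : ℝ} (hx : 0 ≤ x) (hx1 : x ≤ 1) (lo hi : Vtx d) (D : Finset (Edg d))
    (hD : ∀ e : Edg d, (∀ i, lo i ≤ e.1 i ∧ e.1 i ≤ hi i) →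
      (∀ i, lo i ≤ (e.1 + Pi.single e.2 1 : Vtx d) i ∧ (e.1 + Pi.single e.2 1 : Vtx d) i ≤ hi i) →
      e ∈ D) {n : ℕ} {a c : Vtx d} (hn : nrm (a - c) ≤ n) (ha : ∀ i, lo i ≤ a i ∧ a i ≤ hi i)
    (hc : ∀ i, lo i ≤ c i ∧ c i ≤ hi i) : x ^ n ≤ (lat d).tp x D a c :=
  (pow_le_pow_of_le_one hx hx1 hn).trans (tp_rect hx hx1 lo hi D hD _ a c rfl ha hc)

/-- Points of a box are connected inside the box. -/
lemma tp_box {x : ℝ} (hx : 0 ≤ x) (hx1 : x ≤ 1) {n : ℕ} {D : Finset (Edg d)} (hD : ebox d n ⊆ D)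
    {a c : Vtx d} (ha : a ∈ box d n) (hc : c ∈ box d n) :
    x ^ (2 * d * n) ≤ (lat d).tp x D a c := by
  rw [mem_box] at ha hc
  refine tp_rect' hx hx1 (fun _ => -(n : ℤ)) (fun _ => n) D ?_ ?_ ha hc
  · intro e he he'
    exact hD (mem_ebox.2 ⟨mem_box.2 he, mem_box.2 he'⟩)
  · unfold nrm
    have : ∀ i ∈ (Finset.univ : Finset (Fin d)), ((a - c) i).natAbs ≤ 2 * n := by
      intro i _
      have h1 := ha i
      have h2 := hc i
      rw [Pi.sub_apply]
      omega
    refine (Finset.sum_le_card_nsmul _ _ _ this).trans_eq ?_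
    rw [Finset.card_univ, Fintype.card_fin, smul_eq_mul]
    ring

end Pool.Agent.LoopO1
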