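import Pool.Agent.LoopO1_f0ab88.MeasUniq
import Pool.Agent.LoopO1_f0ab88.Exist

/-!
# Existence and uniqueness from exponential decay
-/

open MeasureTheory

namespace Pool.Agent.LoopO1

theorem existsUnique_of_decay {d : ℕ} (hd : 2 ≤ d) {x C ρ : ℝ} (h : HasDecay d x C ρ) :
    ∃! μ : Measure (Cfg d), IsGibbs d x μ := by
  obtain ⟨μ, hμ⟩ := exists_gibbs (d := d) h.x_pos
  exact ⟨μ, hμ, fun ν hν => gibbs_unique_of_decay hd h hν hμ⟩

lemma tanh_mono {a b : ℝ} (h : a ≤ b) : Real.tanh a ≤ Real.tanh b := by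
  rw [Real.tanh_eq_sinh_div_cosh, Real.tanh_eq_sinh_div_cosh,
    div_le_div_iff₀ (Real.cosh_pos _) (Real.cosh_pos _)]
  have h1 : 0 ≤ Real.sinh (b - a) := Real.sinh_nonneg_iff.2 (sub_nonneg.2 h)
  rw [Real.sinh_sub] at h1
  linarith

/-- The main theorem, given sharpness. -/
theorem existsUnique_of_sharp {d : ℕ} (hd : 2 ≤ d)
    (hsharp : ∀ β₁ β₂ : ℝ, 0 < β₁ → β₁ < β₂ → mStar d β₂ ≤ 0 →
      ∃ C ρ, HasDecay d (Real.tanh β₁) C ρ) {x : ℝ} (hx : 0 < x) (hxc : x < Real.tanh (betac d)) :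
    ∃! μ : Measure (Cfg d), IsGibbs d x μ := by
  have hx1 : x < 1 := hxc.trans (Real.tanh_lt_one _)
  set β₁ := Real.artanh x with hβ₁
  have ht : Real.tanh β₁ = x := Real.tanh_artanh ⟨by linarith, hx1⟩
  have hβ1c : β₁ < betac d := by
    by_contra h
    push Not at h
    have := tanh_mono h
    rw [ht] at this
    exact absurd this (not_le.2 hxc)
  have hβ10 : 0 < β₁ := by
    by_contra h
    push Not at h
    have := tanh_mono h
    rw [ht, Real.tanh_zero] at this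
    exact absurd this (not_le.2 hx)
  obtain ⟨β₂, h12, h2c⟩ := exists_between hβ1c
  have hm : mStar d β₂ ≤ 0 := by
    by_contra h
    push Not at h
    have h1 : betac d ≤ β₂ := csInf_le ⟨0, fun β hβ => hβ.1⟩ ⟨(hβ10.trans h12).le, h⟩
    exact absurd h1 (not_le.2 h2c)
  obtain ⟨C, ρ, hdec⟩ := hsharp β₁ β₂ hβ10 h12 hm
  rw [ht] at hdec
  exact existsUnique_of_decay hd hdec

end Pool.Agent.LoopO1
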