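import Pool.Agent.LoopO1_f0ab88.Iface

/-!
# Gibbs measures: measurability and the integrated form of the DLR equations
-/

open Finset MeasureTheory

set_option linter.unusedSectionVars false
set_option linter.unusedVariables false

namespace Pool.Agent.LoopO1

variable {d : ℕ}

/-- The open edges in `P`. -/
def pat (P : Finset (Edg d)) (ω : Cfg d) : Finset (Edg d) := P.filter fun e => ω e = true

lemma mem_pat {P : Finset (Edg d)} {ω : Cfg d} {e : Edg d} : e ∈ pat P ω ↔ e ∈ P ∧ ω e = true := by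
  unfold pat; simp

lemma pat_subset (P : Finset (Edg d)) (ω : Cfg d) : pat P ω ⊆ P := Finset.filter_subset _ _

lemma pat_inter (P Q : Finset (Edg d)) (ω : Cfg d) : pat P ω ∩ Q = pat (P ∩ Q) ω := by
  ext e; simp only [mem_inter, mem_pat]; tauto

lemma mem_cyl_iff {D η : Finset (Edg d)} (hη : η ⊆ D) {ω : Cfg d} :
    ω ∈ cyl D η ↔ pat D ω = η := by
  constructor
  · intro h
    ext e
    rw [mem_pat]
    constructor
    · rintro ⟨h1, h2⟩; exact (h e h1).1 h2
    · intro h1; exact ⟨hη h1, (h e (hη h1)).2 h1⟩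
  · intro h e he
    rw [← h, mem_pat]
    exact ⟨fun h' => ⟨he, h'⟩, fun h' => h'.2⟩

lemma cyl_eq {D η : Finset (Edg d)} (hη : η ⊆ D) : cyl D η = {ω | pat D ω = η} :=
  Set.ext fun ω => mem_cyl_iff hη

lemma outsideσ_le (D : Finset (Edg d)) : outsideσ D ≤ MeasurableSpace.pi :=
  Measurable.comap_le (measurable_pi_lambda _ fun e => measurable_pi_apply _)

lemma measurableSet_coord {D : Finset (Edg d)} {e : Edg d} (he : e ∉ D) (b : Bool) :
    MeasurableSet[outsideσ D] {ω : Cfg d | ω e = b} := by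
  have h1 : Measurable (fun f : {e : Edg d // e ∉ D} → Bool => f ⟨e, he⟩) := measurable_pi_apply _
  exact ⟨{f | f ⟨e, he⟩ = b}, h1 (MeasurableSet.singleton b), rfl⟩

lemma measurableSet_patset {D P : Finset (Edg d)} (h : ∀ e ∈ P, e ∉ D)
    (Φ : Set (Finset (Edg d))) : MeasurableSet[outsideσ D] {ω : Cfg d | pat P ω ∈ Φ} := by
  classical
  have h1 : {ω : Cfg d | pat P ω ∈ Φ} = ⋃ η ∈ P.powerset.filter (fun η => η ∈ Φ),
      ⋂ e ∈ P, {ω : Cfg d | ω e = decide (e ∈ η)} := by
    ext ω
    simp only [Set.mem_ofPred_eq, Set.mem_iUnion, Set.mem_iInter, Finset.mem_filter,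
      Finset.mem_powerset, exists_prop]
    constructor
    · intro hω
      refine ⟨pat P ω, ⟨pat_subset P ω, hω⟩, fun e he => ?_⟩
      by_cases h2 : ω e = true
      · rw [h2]; symm; rw [decide_eq_true_eq]; exact mem_pat.2 ⟨he, h2⟩
      · have h3 : ω e = false := by simpa using h2
        rw [h3]; symm; rw [decide_eq_false_iff_not]
        intro h4; exact h2 (mem_pat.1 h4).2
    · rintro ⟨η, ⟨h2, h3⟩, h4⟩
      have h5 : pat P ω = η := by
        ext e
        rw [mem_pat]
        constructor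
        · rintro ⟨h6, h7⟩
          rw [h4 e h6, decide_eq_true_eq] at h7
          exact h7
        · intro h6
          refine ⟨h2 h6, ?_⟩
          rw [h4 e (h2 h6), decide_eq_true_eq]
          exact h6
      rw [h5]; exact h3
  rw [h1]
  refine Finset.measurableSet_biUnion _ fun η _ => Finset.measurableSet_biInter _ fun e he => ?_
  exact measurableSet_coord (h e he) _

lemma measurable_pat {D P : Finset (Edg d)} (h : ∀ e ∈ P, e ∉ D) :
    @Measurable (Cfg d) (Finset (Edg d)) (outsideσ D) ⊤ (pat P) :=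
  fun s _ => measurableSet_patset h s

lemma measurable_pat' (P : Finset (Edg d)) :
    @Measurable (Cfg d) (Finset (Edg d)) MeasurableSpace.pi ⊤ (pat P) :=
  (measurable_pat (D := ∅) (P := P) fun e _ => Finset.notMem_empty e).mono (outsideσ_le ∅) le_rfl

lemma measurable_comp_pat (P : Finset (Edg d)) (f : Finset (Edg d) → ℝ) :
    Measurable fun ω : Cfg d => f (pat P ω) :=
  (@measurable_from_top _ _ _ f).comp (measurable_pat' P)

lemma measurableSet_cyl (D η : Finset (Edg d)) : MeasurableSet (cyl D η) := by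
  have h1 : cyl D η = {ω | pat D ω ∈ {ζ | ζ = D ∩ η}} := by
    ext ω
    simp only [Set.mem_ofPred_eq]
    constructor
    · intro h
      ext e
      rw [mem_pat, Finset.mem_inter]
      exact and_congr_right fun he => h e he
    · intro h e he
      have : e ∈ pat D ω ↔ e ∈ D ∩ η := by rw [h]
      rw [mem_pat, Finset.mem_inter] at this
      exact ⟨fun h' => (this.1 ⟨he, h'⟩).2, fun h' => (this.2 ⟨he, h'⟩).2⟩
  rw [h1]
  exact outsideσ_le ∅ _ (measurableSet_patset (fun e _ => Finset.notMem_empty e) _)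

/-- The edges with an endpoint in `W`. -/
def edg (W : Finset (Vtx d)) : Finset (Edg d) :=
  (W ×ˢ (Finset.univ : Finset (Fin d))) ∪
    (W ×ˢ (Finset.univ : Finset (Fin d))).image fun p => (p.1 - Pi.single p.2 1, p.2)

lemma mem_edg {W : Finset (Vtx d)} {e : Edg d} : e ∈ edg W ↔ ∃ v ∈ W, IsEnd v e := by
  unfold edg IsEnd
  rw [Finset.mem_union, Finset.mem_product, Finset.mem_image]
  constructor
  · rintro (h | ⟨p, hp, rfl⟩)
    · exact ⟨e.1, h.1, Or.inl rfl⟩
    · exact ⟨p.1, (Finset.mem_product.1 hp).1, Or.inr (by simp)⟩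
  · rintro ⟨v, hv, rfl | rfl⟩
    · exact Or.inl ⟨hv, Finset.mem_univ _⟩
    · right
      refine ⟨(e.1 + Pi.single e.2 1, e.2), Finset.mem_product.2 ⟨hv, Finset.mem_univ _⟩, ?_⟩
      exact Prod.ext (by simp) rfl

lemma bsrc_eq (W : Finset (Vtx d)) (D : Finset (Edg d)) (ω : Cfg d) :
    bsrc W D ω = srcs W (pat (edg W \ D) ω) := by
  unfold bsrc srcs
  refine Finset.filter_congr fun v hv => ?_
  have h1 : {e : Edg d | e ∉ D ∧ ω e = true ∧ IsEnd v e}
      = ((pat (edg W \ D) ω).filter fun e => IsEnd v e : Finset (Edg d)) := by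
    ext e
    simp only [Set.mem_ofPred_eq, Finset.coe_filter, mem_pat, Finset.mem_sdiff]
    constructor
    · rintro ⟨h1, h2, h3⟩
      exact ⟨⟨⟨mem_edg.2 ⟨v, hv, h3⟩, h1⟩, h2⟩, h3⟩
    · rintro ⟨⟨⟨h1, h2⟩, h3⟩, h4⟩
      exact ⟨h2, h3, h4⟩
  rw [h1, Set.ncard_coe_finset]

lemma measurable_loopP (x : ℝ) (W : Finset (Vtx d)) (D η : Finset (Edg d)) :
    Measurable[outsideσ D] fun ω : Cfg d => loopP x W D (bsrc W D ω) η := by
  have h1 : (fun ω : Cfg d => loopP x W D (bsrc W D ω) η)
      = (fun ζ => loopP x W D (srcs W ζ) η) ∘ pat (edg W \ D) := by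
    funext ω
    simp only [Function.comp, bsrc_eq]
  rw [h1]
  exact (@measurable_from_top _ _ _ _).comp
    (measurable_pat fun e he => (Finset.mem_sdiff.1 he).2)

lemma loopP_nonneg {x : ℝ} (hx : 0 ≤ x) (W : Finset (Vtx d)) (D : Finset (Edg d))
    (B : Finset (Vtx d)) (η : Finset (Edg d)) : 0 ≤ loopP x W D B η := by
  unfold loopP
  split_ifs
  · refine div_nonneg (pow_nonneg hx _) (Finset.sum_nonneg fun η _ => pow_nonneg hx _)
  · exact le_rfl

lemma loopP_le_one {x : ℝ} (hx : 0 ≤ x) (W : Finset (Vtx d)) {D : Finset (Edg d)}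
    (B : Finset (Vtx d)) {η : Finset (Edg d)} (hη : η ⊆ D) : loopP x W D B η ≤ 1 := by
  unfold loopP
  split_ifs with h
  · refine div_le_one_of_le₀ ?_ (Finset.sum_nonneg fun η _ => pow_nonneg hx _)
    unfold loopZ
    exact Finset.single_le_sum (f := fun η : Finset (Edg d) => x ^ η.card)
      (fun η _ => pow_nonneg hx _) (Finset.mem_filter.2 ⟨Finset.mem_powerset.2 hη, h⟩)
  · exact zero_le_one

lemma integrable_loopP {x : ℝ} (hx : 0 ≤ x) (W : Finset (Vtx d)) {D η : Finset (Edg d)}
    (hη : η ⊆ D) (μ : Measure (Cfg d)) [IsFiniteMeasure μ] :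
    Integrable (fun ω : Cfg d => loopP x W D (bsrc W D ω) η) μ := by
  refine Integrable.of_bound
    (((measurable_loopP x W D η).mono (outsideσ_le D) le_rfl).aestronglyMeasurable) 1 ?_
  refine Filter.Eventually.of_forall fun ω => ?_
  rw [Real.norm_of_nonneg (loopP_nonneg hx _ _ _ _)]
  exact loopP_le_one hx _ _ hη

/-- The DLR equations integrated over the events outside. -/
def SetDLR (d : ℕ) (x : ℝ) (μ : Measure (Cfg d)) : Prop :=
  ∀ (W : Finset (Vtx d)) (D : Finset (Edg d)), (∀ e ∈ D, ∀ v, IsEnd v e → v ∈ W) →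
    ∀ η ⊆ D, ∀ A : Set (Cfg d), MeasurableSet[outsideσ D] A →
      ∫ ω in A, loopP x W D (bsrc W D ω) η ∂μ = μ.real (cyl D η ∩ A)

lemma IsGibbs.setDLR {x : ℝ} {μ : Measure (Cfg d)} (h : IsGibbs d x μ) : SetDLR d x μ := by
  intro W D hWD η hη A hA
  have := h.prob
  have h1 := h.dlr W D hWD η hη
  have hcyl := measurableSet_cyl D η
  have hint : Integrable ((cyl D η).indicator (fun _ => (1 : ℝ))) μ :=
    (integrable_const (1 : ℝ)).indicator hcyl
  have h2 := setIntegral_condExp (μ := μ) (outsideσ_le D) hint hA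
  rw [setIntegral_indicator hcyl, setIntegral_const, smul_eq_mul, mul_one] at h2
  rw [Set.inter_comm, ← h2]
  exact setIntegral_congr_ae (outsideσ_le D _ hA) (h1.mono fun ω hω _ => hω.symm)

lemma isGibbs_of_setDLR {x : ℝ} (hx : 0 ≤ x) {μ : Measure (Cfg d)} [hp : IsProbabilityMeasure μ]
    (h : SetDLR d x μ) : IsGibbs d x μ := by
  refine ⟨hp, fun W D hWD η hη => ?_⟩
  have hcyl := measurableSet_cyl D η
  have hint : Integrable ((cyl D η).indicator (fun _ => (1 : ℝ))) μ :=
    (integrable_const (1 : ℝ)).indicator hcyl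
  symm
  refine ae_eq_condExp_of_forall_setIntegral_eq (outsideσ_le D) hint
    (fun s _ _ => (integrable_loopP hx W hη μ).integrableOn) ?_
    (measurable_loopP x W D η).aestronglyMeasurable
  intro s hs _
  rw [h W D hWD η hη s hs, setIntegral_indicator hcyl, setIntegral_const, smul_eq_mul, mul_one,
    Set.inter_comm]

lemma outsideσ_anti {D D' : Finset (Edg d)} (h : D ⊆ D') : outsideσ D' ≤ outsideσ D := by
  have h1 : (fun (ω : Cfg d) (e : {e : Edg d // e ∉ D'}) => ω e)
      = (fun (f : {e : Edg d // e ∉ D} → Bool) (e : {e : Edg d // e ∉ D'}) =>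
          f ⟨e.1, fun h' => e.2 (h h')⟩) ∘ (fun (ω : Cfg d) (e : {e : Edg d // e ∉ D}) => ω e) := rfl
  unfold outsideσ
  rw [h1, ← MeasurableSpace.comap_comp]
  exact MeasurableSpace.comap_mono
    (Measurable.comap_le (measurable_pi_lambda _ fun e => measurable_pi_apply _))

/-- Tail events. -/
def IsTail (T : Set (Cfg d)) : Prop := ∀ D : Finset (Edg d), MeasurableSet[outsideσ D] T

lemma SetDLR.restrict {x : ℝ} {μ : Measure (Cfg d)} [IsFiniteMeasure μ] (h : SetDLR d x μ)
    {T : Set (Cfg d)} (hT : IsTail T) : SetDLR d x (μ.restrict T) := by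
  intro W D hWD η hη A hA
  have hA' : MeasurableSet A := outsideσ_le D _ hA
  rw [Measure.restrict_restrict hA', h W D hWD η hη _ (hA.inter (hT D)),
    measureReal_restrict_apply ((measurableSet_cyl D η).inter hA'), Set.inter_assoc]

lemma SetDLR.add {x : ℝ} (hx : 0 ≤ x) {μ ν : Measure (Cfg d)} [IsFiniteMeasure μ]
    [IsFiniteMeasure ν] (h : SetDLR d x μ) (h' : SetDLR d x ν) : SetDLR d x (μ + ν) := by
  intro W D hWD η hη A hA
  rw [Measure.restrict_add, integral_add_measure (integrable_loopP hx W hη _)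
    (integrable_loopP hx W hη _), h W D hWD η hη A hA, h' W D hWD η hη A hA,
    measureReal_add_apply]

lemma SetDLR.smul {x : ℝ} {μ : Measure (Cfg d)} (h : SetDLR d x μ) (c : ENNReal) :
    SetDLR d x (c • μ) := by
  intro W D hWD η hη A hA
  rw [Measure.restrict_smul, integral_smul_measure, h W D hWD η hη A hA,
    measureReal_ennreal_smul_apply, smul_eq_mul]

end Pool.Agent.LoopO1
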