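import Pool.Agent.LoopO1_f0ab88.MeasShift

/-!
# Gibbs measures: expectations of functions of the configuration in a box
-/

open Finset MeasureTheory

set_option linter.unusedSectionVars false
set_option linter.unusedVariables false

namespace Pool.Agent.LoopO1

variable {d : ℕ}

lemma bdS_apply (η : Finset (Edg d)) (v : Vtx d) :
    (lat d).bdS η v = ((η.filter fun e => IsEnd v e).card : ZMod 2) := by
  unfold Gr.bdS
  rw [Finset.sum_apply, Finset.card_filter, Nat.cast_sum]
  refine Finset.sum_congr rfl fun e _ => ?_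
  unfold Gr.bd dl
  rw [Pi.add_apply, Pi.single_apply, Pi.single_apply]
  have hne := (lat d).ne e
  by_cases h1 : v = (lat d).src e
  · have h2 : ¬ v = (lat d).tgt e := fun h2 => hne (h1.symm.trans h2)
    rw [if_pos h1, if_neg h2, if_pos (show IsEnd v e from Or.inl h1)]
    simp
  · rw [if_neg h1]
    by_cases h2 : v = (lat d).tgt e
    · rw [if_pos h2, if_pos (show IsEnd v e from Or.inr h2)]
      simp
    · rw [if_neg h2, if_neg (show ¬ IsEnd v e from fun h => h.elim h1 h2)]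
      simp

lemma ind_srcs {W : Finset (Vtx d)} {η : Finset (Edg d)} (h : ∀ e ∈ η, ∀ v, IsEnd v e → v ∈ W) :
    Gr.ind (srcs W η) = (lat d).bdS η := by
  funext v
  rw [Gr.ind_apply, bdS_apply]
  by_cases hv : v ∈ W
  · by_cases ho : Odd (η.filter fun e => IsEnd v e).card
    · rw [if_pos (show v ∈ srcs W η from Finset.mem_filter.2 ⟨hv, ho⟩)]
      exact ((ZMod.natCast_eq_one_iff_odd).2 ho).symm
    · rw [if_neg (show ¬ v ∈ srcs W η from fun h' => ho (Finset.mem_filter.1 h').2)]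
      symm
      rw [ZMod.natCast_eq_zero_iff_even]
      exact Nat.not_odd_iff_even.1 ho
  · rw [if_neg (show ¬ v ∈ srcs W η from fun h' => hv (Finset.mem_filter.1 h').1)]
    have : (η.filter fun e => IsEnd v e) = ∅ := by
      rw [Finset.filter_eq_empty_iff]
      intro e he hi
      exact hv (h e he v hi)
    rw [this]
    simp

lemma ind_injective {V : Type*} [DecidableEq V] {A B : Finset V} (h : Gr.ind A = Gr.ind B) :
    A = B := by
  ext v
  have h1 := congrFun h v
  rw [Gr.ind_apply, Gr.ind_apply] at h1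
  by_cases hA : v ∈ A
  · by_cases hB : v ∈ B
    · exact ⟨fun _ => hB, fun _ => hA⟩
    · rw [if_pos hA, if_neg hB] at h1
      exact absurd h1 one_ne_zero
  · by_cases hB : v ∈ B
    · rw [if_neg hA, if_pos hB] at h1
      exact absurd h1.symm one_ne_zero
    · exact ⟨fun h' => absurd h' hA, fun h' => absurd h' hB⟩

lemma srcs_eq_iff {W : Finset (Vtx d)} {η : Finset (Edg d)} (h : ∀ e ∈ η, ∀ v, IsEnd v e → v ∈ W)
    (B : Finset (Vtx d)) : srcs W η = B ↔ (lat d).bdS η = Gr.ind B := by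
  rw [← ind_srcs h]
  exact ⟨fun h' => by rw [h'], fun h' => ind_injective h'⟩

lemma loopZ_eq (x : ℝ) {W : Finset (Vtx d)} {D : Finset (Edg d)}
    (h : ∀ e ∈ D, ∀ v, IsEnd v e → v ∈ W) (B : Finset (Vtx d)) :
    loopZ x W D B = (lat d).Zp x D (Gr.ind B) := by
  unfold loopZ
  rw [← Gr.EZ_one]
  unfold Gr.EZ
  rw [Finset.sum_filter]
  refine Finset.sum_congr rfl fun η hη => ?_
  have h1 := srcs_eq_iff (W := W) (η := η)
    (fun e he v hv => h e (Finset.mem_powerset.1 hη he) v hv) B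
  by_cases h2 : srcs W η = B
  · rw [if_pos h2, if_pos (h1.1 h2), mul_one]
  · rw [if_neg h2, if_neg (fun h3 => h2 (h1.2 h3))]

lemma loopP_sum (x : ℝ) {W : Finset (Vtx d)} {D : Finset (Edg d)}
    (h : ∀ e ∈ D, ∀ v, IsEnd v e → v ∈ W) (B : Finset (Vtx d)) (F : Finset (Edg d) → ℝ) :
    ∑ η ∈ D.powerset, F η * loopP x W D B η =
      (lat d).EZ x D (Gr.ind B) F / (lat d).Zp x D (Gr.ind B) := by
  unfold Gr.EZ
  rw [Finset.sum_div]
  refine Finset.sum_congr rfl fun η hη => ?_
  have h1 := srcs_eq_iff (W := W) (η := η)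
    (fun e he v hv => h e (Finset.mem_powerset.1 hη he) v hv) B
  unfold loopP
  rw [loopZ_eq x h B]
  by_cases h2 : srcs W η = B
  · rw [if_pos h2, if_pos (h1.1 h2)]
    ring
  · rw [if_neg h2, if_neg (fun h3 => h2 (h1.2 h3)), mul_zero, zero_div]

lemma ebox_ends {N : ℕ} : ∀ e ∈ ebox d N, ∀ v, IsEnd v e → v ∈ box d N := by
  intro e he v hv
  rcases hv with h | h
  · rw [h]; exact (mem_ebox.1 he).1
  · rw [h]; exact (mem_ebox.1 he).2

lemma mem_ebox_of_isEnd {N : ℕ} {v : Vtx d} {e : Edg d} (hv : v ∈ box d N) (h : IsEnd v e) :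
    e ∈ ebox d (N + 1) := by
  have hb := mem_box.1 hv
  rcases h with h | h
  · rw [mem_ebox, ← h]
    refine ⟨box_mono (Nat.le_succ N) hv, mem_box.2 fun i => ?_⟩
    have h1 := hb i
    rw [Pi.add_apply, Pi.single_apply]
    push_cast
    split_ifs <;> constructor <;> linarith [h1.1, h1.2]
  · rw [mem_ebox, ← h]
    refine ⟨mem_box.2 fun i => ?_, box_mono (Nat.le_succ N) hv⟩
    have h1 := hb i
    have h2 := congrFun h i
    rw [Pi.add_apply, Pi.single_apply] at h2
    push_cast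
    split_ifs at h2 <;> constructor <;> linarith [h1.1, h1.2]

lemma bdSrc_bsrc {N : ℕ} (hN : 1 ≤ N) (ω : Cfg d) :
    BdSrc d N (Gr.ind (bsrc (box d N) (ebox d N) ω)) := by
  intro v hv
  rw [Gr.ind_apply] at hv
  have h1 : v ∈ bsrc (box d N) (ebox d N) ω := by
    by_contra h
    rw [if_neg h] at hv
    exact hv rfl
  rw [bsrc_eq] at h1
  have h2 := Finset.mem_filter.1 h1
  refine ⟨h2.1, fun h3 => ?_⟩
  have h4 : ((pat (edg (box d N) \ ebox d N) ω).filter fun e => IsEnd v e) = ∅ := by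
    rw [Finset.filter_eq_empty_iff]
    intro e he hi
    have h5 := mem_ebox_of_isEnd h3 hi
    have h6 : N - 1 + 1 = N := by omega
    rw [h6] at h5
    exact (Finset.mem_sdiff.1 (mem_pat.1 he).1).2 h5
  rw [h4, Finset.card_empty] at h2
  exact absurd h2.2 (by decide)

/-- Expectations of functions of the configuration in a finite set. -/
lemma SetDLR.integral_pat {x : ℝ} (hx : 0 ≤ x) {μ : Measure (Cfg d)} [IsFiniteMeasure μ]
    (h : SetDLR d x μ) {W : Finset (Vtx d)} {D : Finset (Edg d)}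
    (hWD : ∀ e ∈ D, ∀ v, IsEnd v e → v ∈ W) (F : Finset (Edg d) → ℝ) :
    ∫ ω, F (pat D ω) ∂μ = ∫ ω, (lat d).EZ x D (Gr.ind (bsrc W D ω)) F /
      (lat d).Zp x D (Gr.ind (bsrc W D ω)) ∂μ := by
  have h1 : ∀ ω : Cfg d, F (pat D ω) = ∑ η ∈ D.powerset, F η * (cyl D η).indicator (fun _ => (1 : ℝ)) ω := by
    intro ω
    rw [Finset.sum_eq_single (pat D ω)]
    · rw [Set.indicator_of_mem ((mem_cyl_iff (pat_subset D ω)).2 rfl), mul_one]
    · intro η hη hne
      rw [Set.indicator_of_notMem, mul_zero]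
      intro h2
      exact hne ((mem_cyl_iff (Finset.mem_powerset.1 hη)).1 h2).symm
    · intro h2
      exact absurd (Finset.mem_powerset.2 (pat_subset D ω)) h2
  have h2 : ∀ ω : Cfg d, (lat d).EZ x D (Gr.ind (bsrc W D ω)) F /
      (lat d).Zp x D (Gr.ind (bsrc W D ω)) = ∑ η ∈ D.powerset, F η * loopP x W D (bsrc W D ω) η :=
    fun ω => (loopP_sum x hWD _ F).symm
  simp only [h1, h2]
  rw [integral_finsetSum _ fun η _ =>
    ((integrable_const (1 : ℝ)).indicator (measurableSet_cyl D η)).const_mul _,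
    integral_finsetSum _ fun η hη =>
      (integrable_loopP hx W (Finset.mem_powerset.1 hη) μ).const_mul _]
  refine Finset.sum_congr rfl fun η hη => ?_
  rw [integral_const_mul, integral_const_mul]
  congr 1
  have h3 := h W D hWD η (Finset.mem_powerset.1 hη) Set.univ MeasurableSet.univ
  rw [Measure.restrict_univ, Set.inter_univ] at h3
  rw [h3, integral_indicator_const _ (measurableSet_cyl D η), smul_eq_mul, mul_one]

lemma measurable_bsrc_comp (W : Finset (Vtx d)) (D : Finset (Edg d)) (f : Finset (Vtx d) → ℝ) :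
    Measurable fun ω : Cfg d => f (bsrc W D ω) := by
  have h1 : (fun ω : Cfg d => f (bsrc W D ω)) = fun ω => (fun ζ => f (srcs W ζ)) (pat (edg W \ D) ω) := by
    funext ω
    rw [bsrc_eq]
  rw [h1]
  exact measurable_comp_pat (edg W \ D) (fun ζ => f (srcs W ζ))

/-- Finite volume bounds pass to Gibbs measures. -/
lemma SetDLR.integral_le {x : ℝ} (hx : 0 ≤ x) {μ : Measure (Cfg d)} [IsProbabilityMeasure μ]
    (h : SetDLR d x μ) {N : ℕ} (hN : 1 ≤ N) {F : Finset (Edg d) → ℝ} {δ : ℝ} (hδ : 0 ≤ δ)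
    (hF : ∀ B, BdSrc d N B → (lat d).EZ x (ebox d N) B F ≤ δ * (lat d).Zp x (ebox d N) B) :
    ∫ ω, F (pat (ebox d N) ω) ∂μ ≤ δ := by
  rw [h.integral_pat hx ebox_ends F]
  have h1 : ∀ ω : Cfg d, (lat d).EZ x (ebox d N) (Gr.ind (bsrc (box d N) (ebox d N) ω)) F /
      (lat d).Zp x (ebox d N) (Gr.ind (bsrc (box d N) (ebox d N) ω)) ≤ δ := by
    intro ω
    have h2 := hF _ (bdSrc_bsrc hN ω)
    have h3 : 0 ≤ (lat d).Zp x (ebox d N) (Gr.ind (bsrc (box d N) (ebox d N) ω)) := Z_nonneg hx _ _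
    exact div_le_of_le_mul₀ h3 hδ h2
  have h2 : ∫ ω, (lat d).EZ x (ebox d N) (Gr.ind (bsrc (box d N) (ebox d N) ω)) F /
      (lat d).Zp x (ebox d N) (Gr.ind (bsrc (box d N) (ebox d N) ω)) ∂μ ≤ ∫ _ω : Cfg d, δ ∂μ := by
    by_cases hi : Integrable (fun ω => (lat d).EZ x (ebox d N)
      (Gr.ind (bsrc (box d N) (ebox d N) ω)) F /
      (lat d).Zp x (ebox d N) (Gr.ind (bsrc (box d N) (ebox d N) ω))) μ
    · exact integral_mono hi (integrable_const δ) h1
    · rw [integral_undef hi]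
      exact integral_nonneg fun _ => hδ
  rw [integral_const, probReal_univ, one_smul] at h2
  exact h2

end Pool.Agent.LoopO1
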