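import Pool.Agent.LoopO1_f0ab88.Defs

/-!
# A cylinder criterion for Gibbs measures of the loop O(1) model
-/

open Finset MeasureTheory
open scoped ENNReal

namespace Pool.Agent.LoopO1

variable {d : ℕ}

/-- a finite set of edges containing all the edges at vertices of `W` -/
noncomputable def starE (W : Finset (Vtx d)) : Finset (Edg d) :=
  W.biUnion fun v => Finset.univ.biUnion fun i => {(v, i), (v - Pi.single i 1, i)}

lemma mem_starE {W : Finset (Vtx d)} {v : Vtx d} (hv : v ∈ W) {e : Edg d} (h : IsEnd v e) :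
    e ∈ starE W := by
  unfold starE
  simp only [Finset.mem_biUnion, Finset.mem_univ, true_and]
  refine ⟨v, hv, e.2, ?_⟩
  rw [Finset.mem_insert, Finset.mem_singleton]
  rcases h with h | h
  · left
    rw [h]
  · right
    rw [h, add_sub_cancel_right]

lemma mem_cyl {D η : Finset (Edg d)} {ω : Cfg d} :
    ω ∈ cyl D η ↔ ∀ e ∈ D, ω e = true ↔ e ∈ η := Iff.rfl

/-- the sources on `W` created by the edges outside `D` are determined by a large cylinder -/
lemma bsrc_eq {W : Finset (Vtx d)} {D I ζ : Finset (Edg d)} (hID : Disjoint I D)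
    (hI : starE W ⊆ D ∪ I) (hζ : ζ ⊆ I) {ω : Cfg d} (hω : ω ∈ cyl I ζ) :
    bsrc W D ω = srcs W ζ := by
  unfold bsrc srcs
  refine Finset.filter_congr fun v hv => ?_
  have h : {e : Edg d | e ∉ D ∧ ω e = true ∧ IsEnd v e} =
      ((ζ.filter fun e => IsEnd v e : Finset (Edg d)) : Set (Edg d)) := by
    ext e
    simp only [Set.mem_ofPred_eq, Finset.coe_filter]
    constructor
    · rintro ⟨h1, h2, h3⟩
      have h4 : e ∈ I := (Finset.mem_union.1 (hI (mem_starE hv h3))).resolve_left h1
      exact ⟨(hω e h4).1 h2, h3⟩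
    · rintro ⟨h1, h2⟩
      exact ⟨Finset.disjoint_left.1 hID (hζ h1), (hω e (hζ h1)).2 h1, h2⟩
  rw [h, Set.ncard_coe_finset]

lemma measurableSet_cyl (D η : Finset (Edg d)) : MeasurableSet (cyl D η) := by
  have h : cyl D η = ⋂ e ∈ D, {ω : Cfg d | ω e = true ↔ e ∈ η} := by
    ext ω
    simp [cyl]
  rw [h]
  refine Finset.measurableSet_biInter D fun e _ => ?_
  have h2 : {ω : Cfg d | ω e = true ↔ e ∈ η} = (fun ω : Cfg d => ω e) ⁻¹' {b | b = true ↔ e ∈ η} :=
    rfl
  rw [h2]
  exact measurable_pi_apply e (MeasurableSet.of_discrete)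

lemma measurable_outside {D : Finset (Edg d)} {e : Edg d} (he : e ∉ D) :
    Measurable[outsideσ D] fun ω : Cfg d => ω e := by
  have h : Measurable[outsideσ D] (fun (ω : Cfg d) (e : {e : Edg d // e ∉ D}) => ω e) :=
    comap_measurable _
  exact (measurable_pi_apply (⟨e, he⟩ : {e : Edg d // e ∉ D})).comp h

lemma measurableSet_cyl_outside {D I ζ : Finset (Edg d)} (hID : Disjoint I D) :
    MeasurableSet[outsideσ D] (cyl I ζ) := by
  have h : cyl I ζ = ⋂ e ∈ I, {ω : Cfg d | ω e = true ↔ e ∈ ζ} := by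
    ext ω
    simp [cyl]
  rw [h]
  refine @Finset.measurableSet_biInter (Cfg d) _ (outsideσ D) _ I fun e he => ?_
  have h2 : {ω : Cfg d | ω e = true ↔ e ∈ ζ} = (fun ω : Cfg d => ω e) ⁻¹' {b | b = true ↔ e ∈ ζ} :=
    rfl
  rw [h2]
  exact measurable_outside (Finset.disjoint_left.1 hID he) (MeasurableSet.of_discrete)

lemma outsideσ_le (D : Finset (Edg d)) : outsideσ D ≤ MeasurableSpace.pi := by
  unfold outsideσ
  rw [← measurable_iff_comap_le]
  exact measurable_pi_lambda _ fun e => measurable_pi_apply _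

/-- every configuration is in exactly one cylinder over `I` -/
lemma iUnion_cyl (I : Finset (Edg d)) : ⋃ ζ ∈ I.powerset, cyl I ζ = (Set.univ : Set (Cfg d)) := by
  ext ω
  simp only [Set.mem_iUnion, Set.mem_univ, iff_true, Finset.mem_powerset, exists_prop]
  refine ⟨I.filter fun e => ω e = true, Finset.filter_subset _ _, fun e he => ?_⟩
  simp [he]

lemma cyl_disjoint {I ζ ζ' : Finset (Edg d)} (hζ : ζ ⊆ I) (hζ' : ζ' ⊆ I) (h : ζ ≠ ζ') :
    Disjoint (cyl I ζ) (cyl I ζ') := by
  rw [Set.disjoint_left]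
  intro ω h1 h2
  apply h
  ext e
  constructor
  · intro he
    exact (h2 e (hζ he)).1 ((h1 e (hζ he)).2 he)
  · intro he
    exact (h1 e (hζ' he)).1 ((h2 e (hζ' he)).2 he)

/-- the cylinders over finite sets disjoint from `D` containing `I₀` -/
def cylClass (D I₀ : Finset (Edg d)) : Set (Set (Cfg d)) :=
  {s | ∃ I ζ : Finset (Edg d), Disjoint I D ∧ I₀ ⊆ I ∧ ζ ⊆ I ∧ s = cyl I ζ}

lemma isPiSystem_cylClass (D I₀ : Finset (Edg d)) : IsPiSystem (cylClass D I₀) := by
  rintro _ ⟨I, ζ, h1, h2, h3, rfl⟩ _ ⟨I', ζ', h1', h2', h3', rfl⟩ ⟨ω, hω, hω'⟩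
  refine ⟨I ∪ I', ζ ∪ ζ', Finset.disjoint_union_left.2 ⟨h1, h1'⟩,
    h2.trans Finset.subset_union_left, Finset.union_subset_union h3 h3', ?_⟩
  ext σ
  constructor
  · rintro ⟨h, h'⟩ e he
    rw [Finset.mem_union]
    rcases Finset.mem_union.1 he with he | he
    · rw [h e he]
      exact ⟨Or.inl, fun h4 => h4.elim id fun h5 => (hω e he).1 ((hω' e (h3' h5)).2 h5)⟩
    · rw [h' e he]
      exact ⟨Or.inr, fun h4 => h4.elim (fun h5 => (hω' e he).1 ((hω e (h3 h5)).2 h5)) id⟩
  · intro h
    refine ⟨fun e he => ?_, fun e he => ?_⟩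
    · rw [h e (Finset.mem_union_left _ he), Finset.mem_union]
      exact ⟨fun h4 => h4.elim id fun h5 => (hω e he).1 ((hω' e (h3' h5)).2 h5), Or.inl⟩
    · rw [h e (Finset.mem_union_right _ he), Finset.mem_union]
      exact ⟨fun h4 => h4.elim (fun h5 => (hω' e he).1 ((hω e (h3 h5)).2 h5)) id, Or.inr⟩

lemma generateFrom_cylClass {D I₀ : Finset (Edg d)} (h₀ : Disjoint I₀ D) :
    outsideσ D = MeasurableSpace.generateFrom (cylClass D I₀) := by
  apply le_antisymm
  · unfold outsideσ
    rw [← measurable_iff_comap_le]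
    refine @measurable_pi_lambda _ _ _ (MeasurableSpace.generateFrom (cylClass D I₀)) _ _ ?_
    rintro ⟨e, he⟩
    refine @measurable_to_bool _ (MeasurableSpace.generateFrom (cylClass D I₀)) _ ?_
    have h : (fun ω : Cfg d => ω e) ⁻¹' {true} =
        ⋃ ζ ∈ (insert e I₀).powerset.filter (fun ζ => e ∈ ζ), cyl (insert e I₀) ζ := by
      ext ω
      simp only [Set.mem_preimage, Set.mem_singleton_iff, Set.mem_iUnion, Finset.mem_filter,
        Finset.mem_powerset, exists_prop]
      constructor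
      · intro h
        refine ⟨(insert e I₀).filter fun e => ω e = true, ⟨Finset.filter_subset _ _, ?_⟩, ?_⟩
        · simp [h]
        · intro f hf
          simp only [Finset.mem_filter]
          exact ⟨fun h1 => ⟨hf, h1⟩, fun h1 => h1.2⟩
      · rintro ⟨ζ, ⟨h1, h2⟩, h3⟩
        exact (h3 e (Finset.mem_insert_self _ _)).2 h2
    rw [h]
    refine @Finset.measurableSet_biUnion (Cfg d) _ (MeasurableSpace.generateFrom (cylClass D I₀))
      _ _ fun ζ hζ => ?_
    apply MeasurableSpace.measurableSet_generateFrom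
    refine ⟨insert e I₀, ζ, ?_, Finset.subset_insert _ _,
      Finset.mem_powerset.1 (Finset.mem_filter.1 hζ).1, rfl⟩
    rw [Finset.disjoint_insert_left]
    exact ⟨he, h₀⟩
  · apply MeasurableSpace.generateFrom_le
    rintro _ ⟨I, ζ, h1, h2, h3, rfl⟩
    exact measurableSet_cyl_outside h1

lemma loopZ_nonneg {x : ℝ} (hx : 0 ≤ x) (W : Finset (Vtx d)) (D : Finset (Edg d))
    (B : Finset (Vtx d)) : 0 ≤ loopZ x W D B :=
  Finset.sum_nonneg fun _ _ => by positivity

lemma loopP_nonneg {x : ℝ} (hx : 0 ≤ x) (W : Finset (Vtx d)) (D : Finset (Edg d))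
    (B : Finset (Vtx d)) (η : Finset (Edg d)) : 0 ≤ loopP x W D B η := by
  unfold loopP
  split_ifs
  · exact div_nonneg (by positivity) (loopZ_nonneg hx _ _ _)
  · exact le_rfl

/-- the conditional probability kernel is measurable with respect to the outside -/
lemma measurable_loopP {x : ℝ} (W : Finset (Vtx d)) (D η : Finset (Edg d)) :
    Measurable[outsideσ D] fun ω : Cfg d => loopP x W D (bsrc W D ω) η := by
  set I := starE W \ D with hI
  have hID : Disjoint I D := Finset.sdiff_disjoint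
  have hsub : starE W ⊆ D ∪ I := by
    intro e he
    by_cases h : e ∈ D
    · exact Finset.mem_union_left _ h
    · exact Finset.mem_union_right _ (Finset.mem_sdiff.2 ⟨he, h⟩)
  -- restriction of the configuration to `I`
  have h1 : @Measurable _ _ (outsideσ D) ⊤ fun ω : Cfg d => I.filter fun e => ω e = true := by
    refine @measurable_to_countable' _ _ ⊤ _ (outsideσ D) _ fun ζ => ?_
    by_cases hζ : ζ ⊆ I
    · have h2 : (fun ω : Cfg d => I.filter fun e => ω e = true) ⁻¹' {ζ} = cyl I ζ := by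
        ext ω
        simp only [Set.mem_preimage, Set.mem_singleton_iff]
        constructor
        · rintro rfl e he
          simp [he]
        · intro h
          ext e
          simp only [Finset.mem_filter]
          exact ⟨fun h3 => (h e h3.1).1 h3.2, fun h3 => ⟨hζ h3, (h e (hζ h3)).2 h3⟩⟩
      rw [h2]
      exact measurableSet_cyl_outside hID
    · have h2 : (fun ω : Cfg d => I.filter fun e => ω e = true) ⁻¹' {ζ} = ∅ := by
        ext ω
        simp only [Set.mem_preimage, Set.mem_singleton_iff, Set.mem_empty_iff_false, iff_false]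
        rintro rfl
        exact hζ (Finset.filter_subset _ _)
      rw [h2]
      exact @MeasurableSet.empty _ (outsideσ D)
  have h3 : (fun ω : Cfg d => loopP x W D (bsrc W D ω) η) =
      (fun ζ : Finset (Edg d) => loopP x W D (srcs W ζ) η) ∘
        fun ω : Cfg d => I.filter fun e => ω e = true := by
    funext ω
    simp only [Function.comp]
    rw [bsrc_eq hID hsub (Finset.filter_subset _ _) (ω := ω) (ζ := I.filter fun e => ω e = true)]
    intro e he
    simp [he]
  rw [h3]
  exact (@measurable_from_top _ _ _ _).comp h1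

/-- **Criterion**: it suffices to check the DLR equations on cylinder events. -/
theorem isGibbs_of_cyl {x : ℝ} (hx : 0 ≤ x) {μ : Measure (Cfg d)} [IsProbabilityMeasure μ]
    (h : ∀ (W : Finset (Vtx d)) (D : Finset (Edg d)), (∀ e ∈ D, ∀ v, IsEnd v e → v ∈ W) →
      ∀ η ⊆ D, ∀ I : Finset (Edg d), Disjoint I D → starE W ⊆ D ∪ I → ∀ ζ ⊆ I,
        (μ (cyl D η ∩ cyl I ζ)).toReal = loopP x W D (srcs W ζ) η * (μ (cyl I ζ)).toReal) :
    IsGibbs d x μ := by
  refine ⟨inferInstance, fun W D hWD η hη => ?_⟩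
  set g : Cfg d → ℝ := fun ω => loopP x W D (bsrc W D ω) η with hg
  have hg0 : ∀ ω, 0 ≤ g ω := fun ω => loopP_nonneg hx _ _ _ _
  have hgm' : Measurable[outsideσ D] g := measurable_loopP W D η
  have hgm : Measurable g := hgm'.mono (outsideσ_le D) le_rfl
  -- `g` is bounded
  have hgb : ∃ C : ℝ, ∀ ω, g ω ≤ C := by
    refine ⟨∑ B ∈ W.powerset, loopP x W D B η, fun ω => ?_⟩
    exact Finset.single_le_sum (f := fun B => loopP x W D B η)
      (fun B _ => loopP_nonneg hx _ _ _ _)
      (Finset.mem_powerset.2 (Finset.filter_subset _ _ : bsrc W D ω ⊆ W))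
  obtain ⟨C, hC⟩ := hgb
  have hgi : Integrable g μ := by
    refine Integrable.of_bound hgm.aestronglyMeasurable C (Filter.Eventually.of_forall fun ω => ?_)
    rw [Real.norm_of_nonneg (hg0 ω)]
    exact hC ω
  set I₀ := starE W \ D with hI₀
  have hI₀D : Disjoint I₀ D := Finset.sdiff_disjoint
  have hsub : ∀ I, I₀ ⊆ I → starE W ⊆ D ∪ I := by
    intro I hI e he
    by_cases h : e ∈ D
    · exact Finset.mem_union_left _ h
    · exact Finset.mem_union_right _ (hI (Finset.mem_sdiff.2 ⟨he, h⟩))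
  -- the two measures
  set ν₁ : Measure (Cfg d) := μ.restrict (cyl D η) with hν₁
  set ν₂ : Measure (Cfg d) := μ.withDensity fun ω => ENNReal.ofReal (g ω) with hν₂
  have hbase : ∀ I ζ : Finset (Edg d), Disjoint I D → I₀ ⊆ I → ζ ⊆ I →
      ν₁ (cyl I ζ) = ν₂ (cyl I ζ) := by
    intro I ζ h1 h2 h3
    have h4 := h W D hWD η hη I h1 (hsub I h2) ζ h3
    rw [hν₁, Measure.restrict_apply (measurableSet_cyl I ζ), hν₂,
      withDensity_apply _ (measurableSet_cyl I ζ), Set.inter_comm]
    have h5 : ∫⁻ ω in cyl I ζ, ENNReal.ofReal (g ω) ∂μ =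
        ∫⁻ ω in cyl I ζ, ENNReal.ofReal (loopP x W D (srcs W ζ) η) ∂μ := by
      refine setLIntegral_congr_fun (measurableSet_cyl I ζ) fun ω hω => ?_
      simp only [hg]
      rw [bsrc_eq h1 (hsub I h2) h3 hω]
    rw [h5, setLIntegral_const, ← ENNReal.ofReal_toReal (measure_ne_top μ (cyl D η ∩ cyl I ζ)), h4,
      ENNReal.ofReal_mul (loopP_nonneg hx _ _ _ _), ENNReal.ofReal_toReal (measure_ne_top μ _)]
  have huniv : ν₁ Set.univ = ν₂ Set.univ := by
    rw [← iUnion_cyl I₀]
    have hd : Set.PairwiseDisjoint (↑I₀.powerset : Set (Finset (Edg d))) (cyl I₀) := by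
      intro ζ hζ ζ' hζ' hne
      exact cyl_disjoint (Finset.mem_powerset.1 hζ) (Finset.mem_powerset.1 hζ') hne
    rw [measure_biUnion_finset hd fun ζ _ => measurableSet_cyl _ _,
      measure_biUnion_finset hd fun ζ _ => measurableSet_cyl _ _]
    exact Finset.sum_congr rfl fun ζ hζ =>
      hbase I₀ ζ hI₀D subset_rfl (Finset.mem_powerset.1 hζ)
  have hall : ∀ s, MeasurableSet[outsideσ D] s → ν₁ s = ν₂ s := by
    intro s hs
    refine ext_on_measurableSpace_of_generate_finite MeasurableSpace.pi (cylClass D I₀) ?_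
      (outsideσ_le D) (generateFrom_cylClass hI₀D) (isPiSystem_cylClass D I₀) huniv hs
    rintro _ ⟨I, ζ, h1, h2, h3, rfl⟩
    exact hbase I ζ h1 h2 h3
  symm
  refine ae_eq_condExp_of_forall_setIntegral_eq (outsideσ_le D)
    ((integrable_const (1 : ℝ)).indicator (measurableSet_cyl D η))
    (fun s _ _ => hgi.integrableOn) ?_ ?_
  · intro s hs _
    have hs' := outsideσ_le D s hs
    rw [integral_indicator (measurableSet_cyl D η), Measure.restrict_restrict (measurableSet_cyl D η)]
    rw [integral_eq_lintegral_of_nonneg_ae (Filter.Eventually.of_forall hg0)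
      hgm.aestronglyMeasurable]
    have h1 := hall s hs
    rw [hν₁, Measure.restrict_apply hs', hν₂, withDensity_apply _ hs', Set.inter_comm] at h1
    rw [← h1]
    simp [Measure.real]
  · exact hgm'.stronglyMeasurable.aestronglyMeasurable

end Pool.Agent.LoopO1
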