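import Pool.Agent.LoopO1_f0ab88.MeasMain

/-!
# Existence of Gibbs measures, and uniqueness from the finite volume estimates
-/

open Finset MeasureTheory Filter Topology
open scoped ENNReal BoundedContinuousFunction

namespace Pool.Agent.LoopO1

variable {d : ℕ}

/-! ### Finite volume measures -/

/-- The configuration whose open edges are those of `ζ`. -/
def cfg (ζ : Finset (Edg d)) : Cfg d := fun e => decide (e ∈ ζ)

/-- The real-valued kernel. -/
noncomputable def kerR (x : ℝ) (W : Finset (Vtx d)) (D : Finset (Edg d)) (A : Set (Cfg d))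
    (ω : Cfg d) : ℝ :=
  ∑ η ∈ D.powerset, loopP x W D (bsrc W D ω) η * A.indicator (fun _ => (1 : ℝ)) (repl D η ω)

lemma kerR_nonneg {x : ℝ} (hx : 0 ≤ x) (W : Finset (Vtx d)) (D : Finset (Edg d))
    (A : Set (Cfg d)) (ω : Cfg d) : 0 ≤ kerR x W D A ω :=
  Finset.sum_nonneg fun _ _ => mul_nonneg (loopP_nonneg hx _ _ _ _)
    (Set.indicator_nonneg (fun _ _ => zero_le_one) _)

lemma kerM_eq_ofReal {x : ℝ} (hx : 0 ≤ x) (W : Finset (Vtx d)) (D : Finset (Edg d))
    {A : Set (Cfg d)} (hA : MeasurableSet A) (ω : Cfg d) :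
    kerM x W D ω A = ENNReal.ofReal (kerR x W D A ω) := by
  rw [kerM_apply x W D ω hA, kerR, ENNReal.ofReal_sum_of_nonneg fun _ _ =>
    mul_nonneg (loopP_nonneg hx _ _ _ _) (Set.indicator_nonneg (fun _ _ => zero_le_one) _)]
  refine Finset.sum_congr rfl fun η _ => ?_
  rw [ENNReal.ofReal_mul (loopP_nonneg hx _ _ _ _)]
  congr 1
  by_cases h : repl D η ω ∈ A
  · rw [Set.indicator_of_mem h, Set.indicator_of_mem h]; simp
  · rw [Set.indicator_of_notMem h, Set.indicator_of_notMem h]; simp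

lemma sum_powerset_split {β : Type*} [AddCommMonoid β] {D D' : Finset (Edg d)} (h : D ⊆ D')
    (f : Finset (Edg d) → β) :
    ∑ ζ ∈ D'.powerset, f ζ = ∑ ξ ∈ (D' \ D).powerset, ∑ η ∈ D.powerset, f (ξ ∪ η) := by
  rw [← Finset.sum_product']
  refine Finset.sum_nbij' (fun ζ => (ζ \ D, ζ ∩ D)) (fun p => p.1 ∪ p.2) ?_ ?_ ?_ ?_ ?_
  · intro ζ hζ
    rw [Finset.mem_powerset] at hζ
    rw [Finset.mem_product, Finset.mem_powerset, Finset.mem_powerset]
    exact ⟨Finset.sdiff_subset_sdiff hζ le_rfl, Finset.inter_subset_right⟩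
  · rintro ⟨ξ, η⟩ hp
    rw [Finset.mem_product, Finset.mem_powerset, Finset.mem_powerset] at hp
    rw [Finset.mem_powerset]
    exact Finset.union_subset (hp.1.trans Finset.sdiff_subset) (hp.2.trans h)
  · intro ζ _
    exact Finset.sdiff_union_inter ζ D
  · rintro ⟨ξ, η⟩ hp
    rw [Finset.mem_product, Finset.mem_powerset, Finset.mem_powerset] at hp
    have h1 : ∀ e ∈ ξ, e ∉ D := fun e he => (Finset.mem_sdiff.1 (hp.1 he)).2
    ext e
    · simp only [Finset.mem_sdiff, Finset.mem_union]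
      constructor
      · rintro ⟨h2 | h2, h3⟩
        · exact h2
        · exact absurd (hp.2 h2) h3
      · intro h2; exact ⟨Or.inl h2, h1 e h2⟩
    · simp only [Finset.mem_inter, Finset.mem_union]
      constructor
      · rintro ⟨h2 | h2, h3⟩
        · exact absurd h3 (h1 e h2)
        · exact h2
      · intro h2; exact ⟨Or.inr h2, hp.2 h2⟩
  · intro ζ _
    rw [Finset.sdiff_union_inter ζ D]

/-- The weight of `ζ` in the empty-source measure on the box. -/
noncomputable def fw (x : ℝ) (n : ℕ) (ζ : Finset (Edg d)) : ℝ := loopP x (box d n) (ebox d n) ∅ ζ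

lemma odd_card_union {ξ η : Finset (Edg d)} (h : Disjoint ξ η) (v : Vtx d) :
    ((ξ ∪ η).filter fun e => IsEnd v e).card =
      (ξ.filter fun e => IsEnd v e).card + (η.filter fun e => IsEnd v e).card := by
  rw [Finset.filter_union, Finset.card_union_of_disjoint]
  exact Finset.disjoint_filter_filter h

lemma bsrc_cfg (W : Finset (Vtx d)) {D ξ : Finset (Edg d)} (h : Disjoint ξ D) :
    bsrc W D (cfg ξ) = srcs W ξ := by
  rw [bsrc_eq]
  unfold srcs
  refine Finset.filter_congr fun v _ => ?_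
  have : (incE v).filter (fun e => e ∉ D ∧ cfg ξ e = true) = ξ.filter fun e => IsEnd v e := by
    ext e
    simp only [Finset.mem_filter, mem_incE, cfg, decide_eq_true_eq]
    constructor
    · rintro ⟨h1, _, h3⟩; exact ⟨h3, h1⟩
    · rintro ⟨h1, h2⟩; exact ⟨h2, Finset.disjoint_left.1 h h1, h1⟩
  rw [this]

lemma fw_union {x : ℝ} (hx : 0 < x) {n : ℕ} {W : Finset (Vtx d)} {D : Finset (Edg d)}
    (hWD : Adm W D) (hD : D ⊆ ebox d n) {ξ : Finset (Edg d)} (hξ : ξ ⊆ ebox d n \ D)
    {η : Finset (Edg d)} (hη : η ⊆ D) :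
    fw x n (ξ ∪ η) = (∑ η' ∈ D.powerset, fw x n (ξ ∪ η')) * loopP x W D (srcs W ξ) η := by
  classical
  have hdis : ∀ η' ⊆ D, Disjoint ξ η' := fun η' hη' => by
    rw [Finset.disjoint_left]
    intro e he he'
    exact (Finset.mem_sdiff.1 (hξ he)).2 (hη' he')
  -- the condition
  have hcond : ∀ η' ⊆ D, (srcs (box d n) (ξ ∪ η') = ∅ ↔
      ((∀ v, v ∉ W → ¬ Odd (ξ.filter fun e => IsEnd v e).card) ∧ srcs W η' = srcs W ξ)) := by
    intro η' hη'
    have hsub : ξ ∪ η' ⊆ ebox d n :=
      Finset.union_subset (hξ.trans Finset.sdiff_subset) (hη'.trans hD)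
    have hout : ∀ v, v ∉ W → (η'.filter fun e => IsEnd v e).card = 0 := by
      intro v hv
      rw [Finset.card_eq_zero, Finset.filter_eq_empty_iff]
      intro e he hve
      exact hv (hWD e (hη' he) v hve)
    have hall : srcs (box d n) (ξ ∪ η') = ∅ ↔ ∀ v, ¬ Odd ((ξ ∪ η').filter fun e => IsEnd v e).card := by
      unfold srcs
      rw [Finset.filter_eq_empty_iff]
      constructor
      · intro h v ho
        obtain ⟨e, he⟩ := Finset.card_pos.1 ho.pos
        rw [Finset.mem_filter] at he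
        exact h (adm_box n e (hsub he.1) v he.2) ho
      · intro h v _; exact h v
    rw [hall]
    constructor
    · intro h
      refine ⟨fun v hv => ?_, ?_⟩
      · have := h v
        rwa [odd_card_union (hdis η' hη'), hout v hv, add_zero] at this
      · unfold srcs
        refine Finset.filter_congr fun v _ => ?_
        have := h v
        rw [odd_card_union (hdis η' hη'), Nat.odd_add, ← Nat.not_odd_iff_even] at this
        tauto
    · rintro ⟨h1, h2⟩ v
      rw [odd_card_union (hdis η' hη')]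
      by_cases hv : v ∈ W
      · have h3 : v ∈ srcs W η' ↔ v ∈ srcs W ξ := by rw [h2]
        unfold srcs at h3
        rw [Finset.mem_filter, Finset.mem_filter] at h3
        rw [Nat.odd_add, ← Nat.not_odd_iff_even]
        tauto
      · rw [hout v hv, add_zero]; exact h1 v hv
  have hval : ∀ η' ⊆ D, fw x n (ξ ∪ η') =
      if ((∀ v, v ∉ W → ¬ Odd (ξ.filter fun e => IsEnd v e).card) ∧ srcs W η' = srcs W ξ) then
        x ^ ξ.card * x ^ η'.card / loopZ x (box d n) (ebox d n) ∅ else 0 := by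
    intro η' hη'
    unfold fw loopP
    simp only [hcond η' hη']
    rw [Finset.card_union_of_disjoint (hdis η' hη'), pow_add]
  rw [hval η hη, Finset.sum_congr rfl fun η' hη' => hval η' (Finset.mem_powerset.1 hη')]
  by_cases hS : ∀ v, v ∉ W → ¬ Odd (ξ.filter fun e => IsEnd v e).card
  · have h1 : ∑ η' ∈ D.powerset, (if srcs W η' = srcs W ξ then
        x ^ ξ.card * x ^ η'.card / loopZ x (box d n) (ebox d n) ∅ else 0) =
        x ^ ξ.card * loopZ x W D (srcs W ξ) / loopZ x (box d n) (ebox d n) ∅ := by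
      rw [← Finset.sum_filter, ← Finset.sum_div, ← Finset.mul_sum]
      rfl
    have h3 : (∑ η' ∈ D.powerset, if ((∀ v, v ∉ W → ¬ Odd (ξ.filter fun e => IsEnd v e).card) ∧
        srcs W η' = srcs W ξ) then
        x ^ ξ.card * x ^ η'.card / loopZ x (box d n) (ebox d n) ∅ else 0) =
        x ^ ξ.card * loopZ x W D (srcs W ξ) / loopZ x (box d n) (ebox d n) ∅ := by
      rw [← h1]; refine Finset.sum_congr rfl fun η' _ => ?_
      have : ((∀ v, v ∉ W → ¬ Odd (ξ.filter fun e => IsEnd v e).card) ∧ srcs W η' = srcs W ξ) ↔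
        srcs W η' = srcs W ξ := ⟨fun h => h.2, fun h => ⟨hS, h⟩⟩
      simp only [this]
    rw [h3]
    unfold loopP
    by_cases hη2 : srcs W η = srcs W ξ
    · have hZ : 0 < loopZ x W D (srcs W ξ) := by
        unfold loopZ
        refine lt_of_lt_of_le (pow_pos hx η.card) ?_
        exact Finset.single_le_sum (f := fun η : Finset (Edg d) => x ^ η.card)
          (fun _ _ => pow_nonneg hx.le _) (Finset.mem_filter.2 ⟨Finset.mem_powerset.2 hη, hη2⟩)
      rw [if_pos ⟨hS, hη2⟩, if_pos hη2]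
      field_simp
    · rw [if_neg (fun h => hη2 h.2), if_neg hη2, mul_zero]
  · have h1 : ∀ η' : Finset (Edg d), ¬ ((∀ v, v ∉ W → ¬ Odd (ξ.filter fun e => IsEnd v e).card) ∧
        srcs W η' = srcs W ξ) := fun η' h => hS h.1
    simp only [h1, if_false, Finset.sum_const_zero, zero_mul]

/-- The empty-source measure on the box, extended by closed edges. -/
noncomputable def fvM (x : ℝ) (d n : ℕ) : Measure (Cfg d) :=
  ∑ ζ ∈ (ebox d n).powerset, ENNReal.ofReal (fw x n ζ) • Measure.dirac (cfg ζ)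

lemma fw_nonneg {x : ℝ} (hx : 0 < x) (n : ℕ) (ζ : Finset (Edg d)) : 0 ≤ fw x n ζ :=
  loopP_nonneg hx.le _ _ _ _

lemma sum_fw {x : ℝ} (hx : 0 < x) (n : ℕ) : ∑ ζ ∈ (ebox d n).powerset, fw x n ζ = 1 := by
  unfold fw loopP
  rw [← Finset.sum_filter, ← Finset.sum_div]
  refine div_self (ne_of_gt ?_)
  refine lt_of_lt_of_le one_pos ?_
  have h := Finset.single_le_sum (f := fun η : Finset (Edg d) => x ^ η.card)
    (s := (ebox d n).powerset.filter fun η => srcs (box d n) η = ∅)
    (fun _ _ => pow_nonneg hx.le _) (a := ∅) (by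
      rw [Finset.mem_filter]
      refine ⟨Finset.empty_mem_powerset _, ?_⟩
      unfold srcs
      simp)
  simpa using h

instance fvM_fin (x : ℝ) (n : ℕ) : IsFiniteMeasure (fvM x d n) := by
  constructor
  unfold fvM
  rw [Measure.finsetSum_apply]
  refine ENNReal.sum_lt_top.2 fun ζ _ => ?_
  rw [Measure.smul_apply, smul_eq_mul, measure_univ, mul_one]
  exact ENNReal.ofReal_lt_top

lemma fvM_prob {x : ℝ} (hx : 0 < x) (n : ℕ) : IsProbabilityMeasure (fvM x d n) := by
  constructor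
  unfold fvM
  rw [Measure.finsetSum_apply]
  simp only [Measure.smul_apply, smul_eq_mul, measure_univ, mul_one]
  rw [← ENNReal.ofReal_sum_of_nonneg fun ζ _ => fw_nonneg hx n ζ, sum_fw hx]
  simp

lemma integral_fvM {x : ℝ} (hx : 0 < x) (n : ℕ) (f : Cfg d → ℝ) :
    ∫ ω, f ω ∂(fvM x d n) = ∑ ζ ∈ (ebox d n).powerset, fw x n ζ * f (cfg ζ) := by
  unfold fvM
  rw [integral_finsetSum_measure]
  · refine Finset.sum_congr rfl fun ζ _ => ?_
    rw [integral_smul_measure, integral_dirac, ENNReal.toReal_ofReal (fw_nonneg hx n ζ),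
      smul_eq_mul]
  · intro ζ _
    refine Integrable.smul_measure ?_ ENNReal.ofReal_ne_top
    exact integrable_dirac (by simp)

/-- The DLR equations for the finite volume measures. -/
lemma fvM_dlr {x : ℝ} (hx : 0 < x) {n : ℕ} {W : Finset (Vtx d)} {D : Finset (Edg d)}
    (hWD : Adm W D) (hD : D ⊆ ebox d n) (A : Set (Cfg d)) :
    ∫ ω, A.indicator (fun _ => (1 : ℝ)) ω ∂(fvM x d n) = ∫ ω, kerR x W D A ω ∂(fvM x d n) := by
  rw [integral_fvM hx, integral_fvM hx, sum_powerset_split hD, sum_powerset_split hD]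
  refine Finset.sum_congr rfl fun ξ hξ => ?_
  rw [Finset.mem_powerset] at hξ
  have hdisD : Disjoint ξ D := by
    rw [Finset.disjoint_left]
    intro e he he'
    exact (Finset.mem_sdiff.1 (hξ he)).2 he'
  have h1 : ∀ η ∈ D.powerset, kerR x W D A (cfg (ξ ∪ η)) = ∑ η' ∈ D.powerset,
      loopP x W D (srcs W ξ) η' * A.indicator (fun _ => (1 : ℝ)) (cfg (ξ ∪ η')) := by
    intro η hη
    rw [Finset.mem_powerset] at hη
    unfold kerR
    have hb : bsrc W D (cfg (ξ ∪ η)) = srcs W ξ := by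
      rw [← bsrc_cfg W hdisD]
      refine bsrc_congr fun v _ e _ he => ?_
      have : e ∉ η := fun h => he (hη h)
      simp [cfg, this]
    rw [hb]
    refine Finset.sum_congr rfl fun η' hη' => ?_
    rw [Finset.mem_powerset] at hη'
    have hr : repl D η' (cfg (ξ ∪ η)) = cfg (ξ ∪ η') := by
      funext e
      by_cases he : e ∈ D
      · have : e ∉ ξ := fun h => Finset.disjoint_left.1 hdisD h he
        rw [repl_in he]; simp [cfg, this]
      · have h2 : e ∉ η := fun h => he (hη h)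
        have h3 : e ∉ η' := fun h => he (hη' h)
        rw [repl_out he]; simp [cfg, h2, h3]
    rw [hr]
  have h2 : ∑ η ∈ D.powerset, fw x n (ξ ∪ η) * kerR x W D A (cfg (ξ ∪ η)) =
      ∑ η ∈ D.powerset, fw x n (ξ ∪ η) * ∑ η' ∈ D.powerset,
        loopP x W D (srcs W ξ) η' * A.indicator (fun _ => (1 : ℝ)) (cfg (ξ ∪ η')) :=
    Finset.sum_congr rfl fun η hη => by rw [h1 η hη]
  rw [h2, ← Finset.sum_mul, Finset.mul_sum]
  refine Finset.sum_congr rfl fun η hη => ?_
  rw [fw_union hx hWD hD hξ (Finset.mem_powerset.1 hη)]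
  ring

/-! ### Local functions are continuous -/

lemma continuous_of_finite (I : Finset (Edg d)) (F : Cfg d → ℝ)
    (hF : ∀ ω ω' : Cfg d, (∀ e ∈ I, ω e = ω' e) → F ω = F ω') : Continuous F := by
  classical
  have hr : Continuous (fun (ω : Cfg d) (e : I) => ω e) :=
    continuous_pi fun e => continuous_apply e.1
  have h2 : F = (fun c : I → Bool => F fun e => if h : e ∈ I then c ⟨e, h⟩ else false) ∘
      (fun (ω : Cfg d) (e : I) => ω e) := by
    funext ω
    apply hF
    intro e he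
    simp [he]
  rw [h2]
  exact continuous_of_discreteTopology.comp hr

lemma continuous_ind_loc (m : ℕ) (Φ : Set (Finset (Edg d))) :
    Continuous ((loc m Φ).indicator fun _ => (1 : ℝ)) := by
  refine continuous_of_finite (ebox d m) _ fun ω ω' h => ?_
  refine ind_congr ?_
  have : opn (ebox d m) ω = opn (ebox d m) ω' :=
    Finset.filter_congr fun e he => by rw [h e he]
  simp only [loc, Set.mem_ofPred_eq, this]

lemma continuous_kerR (x : ℝ) (W : Finset (Vtx d)) (D : Finset (Edg d)) (m : ℕ)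
    (Φ : Set (Finset (Edg d))) : Continuous (kerR x W D (loc m Φ)) := by
  classical
  refine continuous_of_finite (ebox d m ∪ W.biUnion incE) _ fun ω ω' h => ?_
  unfold kerR
  have hb : bsrc W D ω = bsrc W D ω' := bsrc_congr fun v hv e he _ =>
    h e (Finset.mem_union_right _ (Finset.mem_biUnion.2 ⟨v, hv, mem_incE.2 he⟩))
  rw [hb]
  refine Finset.sum_congr rfl fun η _ => ?_
  congr 1
  refine ind_congr ?_
  have : opn (ebox d m) (repl D η ω) = opn (ebox d m) (repl D η ω') := by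
    refine Finset.filter_congr fun e he => ?_
    by_cases heD : e ∈ D
    · rw [repl_in heD, repl_in heD]
    · rw [repl_out heD, repl_out heD, h e (Finset.mem_union_left _ he)]
  simp only [loc, Set.mem_ofPred_eq, this]

lemma exists_ebox_subset (D : Finset (Edg d)) : ∃ n₀, ∀ n ≥ n₀, D ⊆ ebox d n := by
  classical
  choose f hf using fun e : Edg d => exists_ebox e
  refine ⟨D.sup f, fun n hn e he => ?_⟩
  exact ebox_mono ((Finset.le_sup (f := f) he).trans hn) (hf e)

/-- Existence of Gibbs measures. -/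
lemma exists_gibbs {x : ℝ} (hx : 0 < x) : ∃ μ : Measure (Cfg d), IsGibbs d x μ := by
  classical
  set P : ℕ → ProbabilityMeasure (Cfg d) := fun n => ⟨fvM x d n, fvM_prob hx n⟩ with hP
  obtain ⟨μ, -, hμ⟩ := (isCompact_univ (X := ProbabilityMeasure (Cfg d))).ultrafilter_le_nhds
    ((hyperfilter ℕ).map P) (by simp)
  have htend : Tendsto P (hyperfilter ℕ : Filter ℕ) (𝓝 μ) := hμ
  rw [ProbabilityMeasure.tendsto_iff_forall_integral_tendsto] at htend
  refine ⟨(μ : Measure (Cfg d)), ?_⟩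
  refine Inv.isGibbs hx.le ?_
  intro W D hWD
  -- local events
  have hloc : ∀ (m : ℕ) (Φ : Set (Finset (Edg d))), (μ : Measure (Cfg d)) (loc m Φ) =
      ∫⁻ ω, kerM x W D ω (loc m Φ) ∂(μ : Measure (Cfg d)) := by
    intro m Φ
    have hA := measurableSet_loc (d := d) m Φ
    have hc1 := continuous_ind_loc (d := d) m Φ
    have hc2 := continuous_kerR x W D m Φ
    have hb1 : ∀ ω ω' : Cfg d, dist ((loc m Φ).indicator (fun _ => (1 : ℝ)) ω)
        ((loc m Φ).indicator (fun _ => (1 : ℝ)) ω') ≤ 1 := by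
      intro ω ω'
      by_cases h1 : ω ∈ loc m Φ <;> by_cases h2 : ω' ∈ loc m Φ <;> simp [h1, h2, Real.dist_eq]
    have hle1 : ∀ ω, kerR x W D (loc m Φ) ω ≤ 1 := by
      intro ω
      refine le_trans (Finset.sum_le_sum fun η _ => ?_) (sum_loopP_le hx.le W D (bsrc W D ω))
      refine mul_le_of_le_one_right (loopP_nonneg hx.le _ _ _ _) ?_
      exact Set.indicator_le_self' (fun _ _ => zero_le_one) _
    have hb2 : ∀ ω ω' : Cfg d, dist (kerR x W D (loc m Φ) ω) (kerR x W D (loc m Φ) ω') ≤ 1 := by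
      intro ω ω'
      rw [Real.dist_eq, abs_le]
      have h1 := kerR_nonneg hx.le W D (loc m Φ) ω
      have h2 := kerR_nonneg hx.le W D (loc m Φ) ω'
      have h3 := hle1 ω
      have h4 := hle1 ω'
      constructor <;> linarith
    set f1 : Cfg d →ᵇ ℝ := BoundedContinuousFunction.mkOfBound ⟨_, hc1⟩ 1 hb1 with hf1
    set f2 : Cfg d →ᵇ ℝ := BoundedContinuousFunction.mkOfBound ⟨_, hc2⟩ 1 hb2 with hf2
    have t1 := htend f1
    have t2 := htend f2
    obtain ⟨n₀, hn₀⟩ := exists_ebox_subset D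
    have hev : ∀ᶠ n in (hyperfilter ℕ : Filter ℕ), ∫ ω, f1 ω ∂(P n : Measure (Cfg d)) =
        ∫ ω, f2 ω ∂(P n : Measure (Cfg d)) := by
      have h1 : ∀ᶠ n in (atTop : Filter ℕ), ∫ ω, f1 ω ∂(P n : Measure (Cfg d)) =
          ∫ ω, f2 ω ∂(P n : Measure (Cfg d)) := by
        filter_upwards [eventually_ge_atTop n₀] with n hn
        exact fvM_dlr hx hWD (hn₀ n hn) (loc m Φ)
      have h2 : (hyperfilter ℕ : Filter ℕ) ≤ atTop := by
        rw [← Nat.cofinite_eq_atTop]; exact hyperfilter_le_cofinite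
      exact h2 h1
    have heq := tendsto_nhds_unique_of_eventuallyEq t1 t2 hev
    have e1 : ∫ ω, f1 ω ∂(μ : Measure (Cfg d)) = (μ : Measure (Cfg d)).real (loc m Φ) := by
      change ∫ ω, (loc m Φ).indicator (fun _ => (1 : ℝ)) ω ∂(μ : Measure (Cfg d)) = _
      rw [integral_indicator hA]; simp
    have e2 : ENNReal.ofReal (∫ ω, f2 ω ∂(μ : Measure (Cfg d))) =
        ∫⁻ ω, kerM x W D ω (loc m Φ) ∂(μ : Measure (Cfg d)) := by
      change ENNReal.ofReal (∫ ω, kerR x W D (loc m Φ) ω ∂(μ : Measure (Cfg d))) = _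
      rw [ofReal_integral_eq_lintegral_ofReal
        (show Integrable (kerR x W D (loc m Φ)) (μ : Measure (Cfg d)) from f2.integrable _)
        (Eventually.of_forall fun ω => kerR_nonneg hx.le W D _ ω)]
      refine lintegral_congr fun ω => ?_
      rw [kerM_eq_ofReal hx.le W D hA ω]
    rw [← e2, ← heq, e1, Measure.real, ENNReal.ofReal_toReal (measure_ne_top _ _)]
  -- all events
  set γ := (μ : Measure (Cfg d)).bind (kerM x W D) with hγ
  have hγa : ∀ A, MeasurableSet A → γ A = ∫⁻ ω, kerM x W D ω A ∂(μ : Measure (Cfg d)) :=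
    fun A hA => Measure.bind_apply hA (measurable_kerM x W D).aemeasurable
  have hgen : (μ : Measure (Cfg d)) = γ := by
    have huniv : loc 0 Set.univ = (Set.univ : Set (Cfg d)) := by ext ω; simp [loc]
    refine ext_of_generate_finite (locs d) generateFrom_locs ?_ ?_ ?_
    · rintro _ ⟨m, Φ, rfl⟩ _ ⟨n, Ψ, rfl⟩ _
      refine ⟨max m n, {η | η ∩ ebox d m ∈ Φ} ∩ {η | η ∩ ebox d n ∈ Ψ}, ?_⟩
      rw [loc_mono (le_max_left m n), loc_mono (le_max_right m n)]
      rfl
    · rintro _ ⟨m, Φ, rfl⟩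
      rw [hγa _ (measurableSet_loc m Φ), hloc]
    · rw [hγa _ MeasurableSet.univ, ← huniv, hloc]
  intro A hA
  rw [← hγa A hA, ← hgen]

/-! ### Uniqueness -/

/-- **Existence and uniqueness of the Gibbs measure from the finite volume estimates.** -/
theorem existsUnique_gibbs (_hd : 1 ≤ d) {x : ℝ} (hx : 0 < x) (_hx1 : x < 1) (hQ : FVQ d x)
    (hD : FVD d x) : ∃! μ : Measure (Cfg d), IsGibbs d x μ := by
  classical
  obtain ⟨μ, hμ⟩ := exists_gibbs (d := d) hx
  obtain ⟨p, hp1, hp2⟩ := hD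
  have hle : ∀ ν : Measure (Cfg d), IsGibbs d x ν → ∀ F ζ : Finset (Edg d), ζ ⊆ F →
      ν.real (cyl F ζ) = p F ζ := by
    intro ν hν F ζ hζ
    have hprob := hν.prob
    have h1 : ∀ ζ' ∈ F.powerset, ν.real (cyl F ζ') ≤ p F ζ' := fun ζ' hζ' =>
      cyl_le hx hQ (Finset.mem_powerset.1 hζ') (hp2 F ζ' (Finset.mem_powerset.1 hζ')) hν
    have h2 : ∑ ζ' ∈ F.powerset, ν.real (cyl F ζ') = 1 := by
      have h3 := measure_eq_sum_cyl ν F MeasurableSet.univ
      simp only [Set.inter_univ] at h3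
      rw [measure_univ] at h3
      have h4 : (∑ ζ' ∈ F.powerset, ν (cyl F ζ')).toReal = 1 := by rw [← h3]; simp
      rw [ENNReal.toReal_sum fun _ _ => measure_ne_top _ _] at h4
      exact h4
    have h3 : ∑ ζ' ∈ F.powerset, ν.real (cyl F ζ') = ∑ ζ' ∈ F.powerset, p F ζ' :=
      le_antisymm (Finset.sum_le_sum h1) (by rw [h2]; exact hp1 F)
    exact (Finset.sum_eq_sum_iff_of_le h1).1 h3 ζ (Finset.mem_powerset.2 hζ)
  refine ⟨μ, hμ, fun ν hν => ?_⟩
  have hprob := hν.prob
  have hprob' := hμ.prob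
  have hcyl : ∀ F ζ : Finset (Edg d), ζ ⊆ F → ν (cyl F ζ) = μ (cyl F ζ) := by
    intro F ζ hζ
    have h1 := hle ν hν F ζ hζ
    have h2 := hle μ hμ F ζ hζ
    rw [← h2] at h1
    exact (measureReal_eq_measureReal_iff (measure_ne_top _ _) (measure_ne_top _ _)).1 h1
  have hloc : ∀ (m : ℕ) (Φ : Set (Finset (Edg d))), ν (loc m Φ) = μ (loc m Φ) := by
    intro m Φ
    rw [measure_eq_sum_cyl ν (ebox d m) (measurableSet_loc m Φ),
      measure_eq_sum_cyl μ (ebox d m) (measurableSet_loc m Φ)]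
    refine Finset.sum_congr rfl fun η hη => ?_
    rw [Finset.mem_powerset] at hη
    have hop : ∀ ω ∈ cyl (ebox d m) η, opn (ebox d m) ω = η := by
      intro ω hω
      ext e
      simp only [opn, Finset.mem_filter]
      constructor
      · rintro ⟨h1, h2⟩; exact (hω e h1).1 h2
      · intro h1; exact ⟨hη h1, (hω e (hη h1)).2 h1⟩
    by_cases h : η ∈ Φ
    · have : cyl (ebox d m) η ∩ loc m Φ = cyl (ebox d m) η := by
        refine Set.inter_eq_left.2 fun ω hω => ?_
        change opn (ebox d m) ω ∈ Φ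
        rw [hop ω hω]; exact h
      rw [this]; exact hcyl _ _ hη
    · have : cyl (ebox d m) η ∩ loc m Φ = ∅ := by
        refine Set.eq_empty_of_forall_notMem fun ω hω => h ?_
        have h1 : opn (ebox d m) ω ∈ Φ := hω.2
        rwa [hop ω hω.1] at h1
      rw [this]; simp
  refine ext_of_generate_finite (locs d) generateFrom_locs ?_ ?_ ?_
  · rintro _ ⟨m, Φ, rfl⟩ _ ⟨n, Ψ, rfl⟩ _
    refine ⟨max m n, {η | η ∩ ebox d m ∈ Φ} ∩ {η | η ∩ ebox d n ∈ Ψ}, ?_⟩
    rw [loc_mono (le_max_left m n), loc_mono (le_max_right m n)]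
    rfl
  · rintro _ ⟨m, Φ, rfl⟩
    exact hloc m Φ
  · simp

end Pool.Agent.LoopO1
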