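import Pool.Agent.LoopO1_f0ab88.Iface

/-!
# The DLR kernels and invariant measures
-/

open Finset MeasureTheory
open scoped ENNReal

namespace Pool.Agent.LoopO1

variable {d : ℕ}

/-- The edges incident to a vertex. -/
def incE (v : Vtx d) : Finset (Edg d) :=
  Finset.univ.biUnion fun i => {(v, i), (v - Pi.single i 1, i)}

lemma mem_incE {v : Vtx d} {e : Edg d} : e ∈ incE v ↔ IsEnd v e := by
  unfold incE IsEnd
  simp only [Finset.mem_biUnion, Finset.mem_univ, true_and, Finset.mem_insert,
    Finset.mem_singleton]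
  constructor
  · rintro ⟨i, h | h⟩
    · left; rw [h]
    · right; rw [h]; simp
  · rintro (h | h)
    · exact ⟨e.2, Or.inl (by rw [h])⟩
    · refine ⟨e.2, Or.inr ?_⟩
      rw [h]; ext1 <;> simp

lemma bsrc_eq (W : Finset (Vtx d)) (D : Finset (Edg d)) (ω : Cfg d) :
    bsrc W D ω = W.filter fun v => Odd ((incE v).filter fun e => e ∉ D ∧ ω e = true).card := by
  unfold bsrc
  refine Finset.filter_congr fun v _ => ?_
  have h : {e : Edg d | e ∉ D ∧ ω e = true ∧ IsEnd v e} =
      (((incE v).filter fun e => e ∉ D ∧ ω e = true : Finset (Edg d)) : Set (Edg d)) := by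
    ext e
    rw [Finset.mem_coe, Finset.mem_filter, mem_incE]
    exact ⟨fun h => ⟨h.2.2, h.1, h.2.1⟩, fun h => ⟨h.2.1, h.2.2, h.1⟩⟩
  rw [h, Set.ncard_coe_finset]

lemma bsrc_congr {W : Finset (Vtx d)} {D : Finset (Edg d)} {ω ω' : Cfg d}
    (h : ∀ v ∈ W, ∀ e, IsEnd v e → e ∉ D → ω e = ω' e) : bsrc W D ω = bsrc W D ω' := by
  rw [bsrc_eq, bsrc_eq]
  refine Finset.filter_congr fun v hv => ?_
  have : (incE v).filter (fun e => e ∉ D ∧ ω e = true) =
      (incE v).filter (fun e => e ∉ D ∧ ω' e = true) := by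
    refine Finset.filter_congr fun e he => ?_
    rw [mem_incE] at he
    constructor
    · rintro ⟨h1, h2⟩; exact ⟨h1, by rw [← h v hv e he h1]; exact h2⟩
    · rintro ⟨h1, h2⟩; exact ⟨h1, by rw [h v hv e he h1]; exact h2⟩
  rw [this]

/-- Replace the configuration inside `D` by `η`. -/
def repl (D η : Finset (Edg d)) (ω : Cfg d) : Cfg d :=
  fun e => if e ∈ D then decide (e ∈ η) else ω e

lemma repl_in {D η : Finset (Edg d)} {e : Edg d} (h : e ∈ D) (ω : Cfg d) :
    repl D η ω e = decide (e ∈ η) := by simp [repl, h]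

lemma repl_out {D η : Finset (Edg d)} {e : Edg d} (h : e ∉ D) (ω : Cfg d) :
    repl D η ω e = ω e := by simp [repl, h]

lemma bsrc_repl (W : Finset (Vtx d)) (D η : Finset (Edg d)) (ω : Cfg d) :
    bsrc W D (repl D η ω) = bsrc W D ω :=
  bsrc_congr fun _ _ _ _ he => repl_out he ω

lemma repl_of_cyl {D η : Finset (Edg d)} {ω : Cfg d} (h : ω ∈ cyl D η) : repl D η ω = ω := by
  funext e
  by_cases he : e ∈ D
  · rw [repl_in he]
    have := h e he
    by_cases h1 : e ∈ η
    · simp [h1, this.2 h1]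
    · have h2 : ω e ≠ true := fun h3 => h1 (this.1 h3)
      simp [h1, Bool.eq_false_of_not_eq_true h2]
  · exact repl_out he ω

lemma repl_mem_cyl {D η : Finset (Edg d)} (ω : Cfg d) : repl D η ω ∈ cyl D η := by
  intro e he
  rw [repl_in he]; simp

lemma repl_mem_cyl_iff {D η η' : Finset (Edg d)} (hη : η ⊆ D) (hη' : η' ⊆ D) (ω : Cfg d) :
    repl D η' ω ∈ cyl D η ↔ η' = η := by
  constructor
  · intro h
    ext e
    by_cases he : e ∈ D
    · have := h e he
      rw [repl_in he] at this
      simpa using this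
    · exact ⟨fun h1 => absurd (hη' h1) he, fun h1 => absurd (hη h1) he⟩
  · rintro rfl; exact repl_mem_cyl ω

/-- The restriction to the edges outside `D`. -/
def outR (D : Finset (Edg d)) (ω : Cfg d) : {e : Edg d // e ∉ D} → Bool := fun e => ω e

lemma measurable_outR (D : Finset (Edg d)) : Measurable[outsideσ D] (outR D) :=
  comap_measurable _

lemma outsideσ_le (D : Finset (Edg d)) : outsideσ D ≤ (MeasurableSpace.pi : MeasurableSpace (Cfg d)) := by
  unfold outsideσ
  rw [MeasurableSpace.comap_le_iff_le_map]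
  intro s hs
  have : Measurable (outR D) := measurable_pi_lambda _ fun e => measurable_pi_apply _
  exact this hs

lemma measurable_out_of_finite {β : Type*} [MeasurableSpace β] (D I : Finset (Edg d))
    (hI : Disjoint I D) (F : Cfg d → β) (hF : ∀ ω ω' : Cfg d, (∀ e ∈ I, ω e = ω' e) → F ω = F ω') :
    Measurable[outsideσ D] F := by
  classical
  have hr : Measurable[outsideσ D] (fun (ω : Cfg d) (e : I) => ω e) := by
    have h1 : (fun (ω : Cfg d) (e : I) => ω e) =
        (fun (f : {e : Edg d // e ∉ D} → Bool) (e : I) =>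
          f ⟨e.1, fun h => Finset.disjoint_left.1 hI e.2 h⟩) ∘ outR D := rfl
    rw [h1]
    refine Measurable.comp ?_ (measurable_outR D)
    exact measurable_pi_lambda _ fun e => measurable_pi_apply _
  have h2 : F = (fun c : I → Bool => F fun e => if h : e ∈ I then c ⟨e, h⟩ else false) ∘
      (fun (ω : Cfg d) (e : I) => ω e) := by
    funext ω
    apply hF
    intro e he
    simp [he]
  rw [h2]
  exact (measurable_of_finite _).comp hr

lemma meas_bsrc {β : Type*} [MeasurableSpace β] (W : Finset (Vtx d)) (D : Finset (Edg d))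
    (F : Finset (Vtx d) → β) : Measurable[outsideσ D] fun ω => F (bsrc W D ω) := by
  classical
  refine measurable_out_of_finite D ((W.biUnion incE) \ D) Finset.sdiff_disjoint _ ?_
  intro ω ω' h
  rw [bsrc_congr (ω := ω) (ω' := ω')]
  intro v hv e he heD
  exact h e (Finset.mem_sdiff.2 ⟨Finset.mem_biUnion.2 ⟨v, hv, mem_incE.2 he⟩, heD⟩)

lemma meas_repl_out (D η : Finset (Edg d)) : Measurable[outsideσ D, MeasurableSpace.pi]
    (repl D η : Cfg d → Cfg d) := by
  classical
  have h : (repl D η : Cfg d → Cfg d) =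
      (fun (f : {e : Edg d // e ∉ D} → Bool) (e : Edg d) =>
        if h : e ∈ D then decide (e ∈ η) else f ⟨e, h⟩) ∘ outR D := by
    funext ω e
    by_cases he : e ∈ D
    · simp [repl, he]
    · simp [repl, he, outR]
  rw [h]
  refine Measurable.comp ?_ (measurable_outR D)
  refine measurable_pi_lambda _ fun e => ?_
  by_cases he : e ∈ D
  · simp only [he, dif_pos]; exact measurable_const
  · simp only [he, dif_neg, not_false_eq_true]; exact measurable_pi_apply _

lemma meas_repl (D η : Finset (Edg d)) : Measurable (repl D η : Cfg d → Cfg d) :=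
  (meas_repl_out D η).mono (outsideσ_le D) le_rfl

lemma measurableSet_cyl (D η : Finset (Edg d)) : MeasurableSet (cyl D η) := by
  have : cyl D η = ⋂ e ∈ D, {ω : Cfg d | ω e = true ↔ e ∈ η} := by
    ext ω; simp [cyl]
  rw [this]
  refine Finset.measurableSet_biInter _ fun e _ => ?_
  have h2 : {ω : Cfg d | ω e = true ↔ e ∈ η} = (fun ω : Cfg d => ω e) ⁻¹' {b | b = true ↔ e ∈ η} := rfl
  rw [h2]
  exact (measurable_pi_apply e) (MeasurableSet.of_discrete)

/-- The DLR kernel. -/
noncomputable def kerM (x : ℝ) (W : Finset (Vtx d)) (D : Finset (Edg d)) (ω : Cfg d) :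
    Measure (Cfg d) :=
  ∑ η ∈ D.powerset, ENNReal.ofReal (loopP x W D (bsrc W D ω) η) • Measure.dirac (repl D η ω)

lemma kerM_apply (x : ℝ) (W : Finset (Vtx d)) (D : Finset (Edg d)) (ω : Cfg d) {A : Set (Cfg d)}
    (hA : MeasurableSet A) : kerM x W D ω A =
      ∑ η ∈ D.powerset, ENNReal.ofReal (loopP x W D (bsrc W D ω) η) *
        A.indicator 1 (repl D η ω) := by
  unfold kerM
  rw [Measure.finsetSum_apply]
  refine Finset.sum_congr rfl fun η _ => ?_
  rw [Measure.smul_apply, Measure.dirac_apply' _ hA, smul_eq_mul]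

lemma meas_weight (x : ℝ) (W : Finset (Vtx d)) (D η : Finset (Edg d)) :
    Measurable[outsideσ D] fun ω => ENNReal.ofReal (loopP x W D (bsrc W D ω) η) :=
  meas_bsrc W D fun B => ENNReal.ofReal (loopP x W D B η)

lemma meas_weight' (x : ℝ) (W : Finset (Vtx d)) (D η : Finset (Edg d)) :
    Measurable fun ω : Cfg d => ENNReal.ofReal (loopP x W D (bsrc W D ω) η) :=
  (meas_weight x W D η).mono (outsideσ_le D) le_rfl

lemma measurable_kerM (x : ℝ) (W : Finset (Vtx d)) (D : Finset (Edg d)) :
    Measurable (kerM x W D) := by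
  refine Measure.measurable_of_measurable_coe _ fun A hA => ?_
  simp only [kerM_apply x W D _ hA]
  refine Finset.measurable_sum _ fun η _ => ?_
  refine (meas_weight' x W D η).mul ?_
  exact (measurable_one.indicator hA).comp (meas_repl D η)

/-- The set `W` contains the endpoints of `D`. -/
def Adm (W : Finset (Vtx d)) (D : Finset (Edg d)) : Prop := ∀ e ∈ D, ∀ v, IsEnd v e → v ∈ W

/-- Measures invariant under all DLR kernels. -/
def Inv (x : ℝ) (μ : Measure (Cfg d)) : Prop :=
  ∀ (W : Finset (Vtx d)) (D : Finset (Edg d)), Adm W D → ∀ A : Set (Cfg d), MeasurableSet A →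
    μ A = ∫⁻ ω, kerM x W D ω A ∂μ

lemma lintegral_kerM (x : ℝ) (W : Finset (Vtx d)) (D : Finset (Edg d)) (μ : Measure (Cfg d))
    {A : Set (Cfg d)} (hA : MeasurableSet A) : ∫⁻ ω, kerM x W D ω A ∂μ =
      ∑ η ∈ D.powerset, ∫⁻ ω in repl D η ⁻¹' A,
        ENNReal.ofReal (loopP x W D (bsrc W D ω) η) ∂μ := by
  simp only [kerM_apply x W D _ hA]
  have hm : ∀ η ∈ D.powerset, Measurable fun ω : Cfg d =>
      ENNReal.ofReal (loopP x W D (bsrc W D ω) η) * A.indicator 1 (repl D η ω) := fun η _ =>
    (meas_weight' x W D η).mul ((measurable_one.indicator hA).comp (meas_repl D η))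
  rw [lintegral_finsetSum _ hm]
  refine Finset.sum_congr rfl fun η _ => ?_
  rw [← lintegral_indicator (meas_repl D η hA)]
  refine lintegral_congr fun ω => ?_
  by_cases h : repl D η ω ∈ A
  · rw [Set.indicator_of_mem h, Set.indicator_of_mem (show ω ∈ repl D η ⁻¹' A from h)]
    simp
  · rw [Set.indicator_of_notMem h, Set.indicator_of_notMem (show ω ∉ repl D η ⁻¹' A from h)]
    simp

lemma loopZ_nonneg {x : ℝ} (hx : 0 ≤ x) (W : Finset (Vtx d)) (D : Finset (Edg d))
    (B : Finset (Vtx d)) : 0 ≤ loopZ x W D B :=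
  Finset.sum_nonneg fun _ _ => pow_nonneg hx _

lemma loopP_nonneg {x : ℝ} (hx : 0 ≤ x) (W : Finset (Vtx d)) (D : Finset (Edg d))
    (B : Finset (Vtx d)) (η : Finset (Edg d)) : 0 ≤ loopP x W D B η := by
  unfold loopP
  split_ifs
  · exact div_nonneg (pow_nonneg hx _) (loopZ_nonneg hx _ _ _)
  · exact le_rfl

lemma loopP_le_one {x : ℝ} (hx : 0 ≤ x) (W : Finset (Vtx d)) (D : Finset (Edg d))
    (B : Finset (Vtx d)) {η : Finset (Edg d)} (hη : η ⊆ D) : loopP x W D B η ≤ 1 := by
  unfold loopP
  split_ifs with h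
  · refine div_le_one_of_le₀ ?_ (loopZ_nonneg hx _ _ _)
    unfold loopZ
    exact Finset.single_le_sum (f := fun η : Finset (Edg d) => x ^ η.card)
      (fun _ _ => pow_nonneg hx _) (Finset.mem_filter.2 ⟨Finset.mem_powerset.2 hη, h⟩)
  · exact zero_le_one

lemma iUnion_cyl (D : Finset (Edg d)) (ω : Cfg d) : ∃ η ∈ D.powerset, ω ∈ cyl D η := by
  refine ⟨D.filter fun e => ω e = true, Finset.mem_powerset.2 (Finset.filter_subset _ _), ?_⟩
  intro e he
  simp [he]

lemma cyl_disjoint {D η η' : Finset (Edg d)} (hη : η ∈ D.powerset) (hη' : η' ∈ D.powerset)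
    (h : η ≠ η') : Disjoint (cyl D η) (cyl D η') := by
  rw [Set.disjoint_left]
  intro ω h1 h2
  apply h
  have e1 := repl_of_cyl h1
  rw [← e1] at h2
  exact (repl_mem_cyl_iff (Finset.mem_powerset.1 hη') (Finset.mem_powerset.1 hη) ω).1 h2

lemma measure_eq_sum_cyl (μ : Measure (Cfg d)) (D : Finset (Edg d)) {A : Set (Cfg d)}
    (hA : MeasurableSet A) : μ A = ∑ η ∈ D.powerset, μ (cyl D η ∩ A) := by
  have h : A = ⋃ η ∈ D.powerset, (cyl D η ∩ A) := by
    ext ω
    simp only [Set.mem_iUnion, Set.mem_inter_iff, exists_prop]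
    constructor
    · intro h
      obtain ⟨η, h1, h2⟩ := iUnion_cyl D ω
      exact ⟨η, h1, h2, h⟩
    · rintro ⟨_, _, _, h⟩; exact h
  conv_lhs => rw [h]
  rw [measure_biUnion_finset]
  · intro η hη η' hη' hne
    exact (cyl_disjoint hη hη' hne).mono Set.inter_subset_left Set.inter_subset_left
  · intro η _
    exact (measurableSet_cyl D η).inter hA

/-- Gibbs measures are invariant under the DLR kernels. -/
lemma IsGibbs.inv {x : ℝ} (hx : 0 ≤ x) {μ : Measure (Cfg d)} (h : IsGibbs d x μ) : Inv x μ := by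
  intro W D hWD A hA
  have := h.prob
  rw [lintegral_kerM x W D μ hA, measure_eq_sum_cyl μ D hA]
  refine Finset.sum_congr rfl fun η hη => ?_
  rw [Finset.mem_powerset] at hη
  have hA' : MeasurableSet[outsideσ D] (repl D η ⁻¹' A) := meas_repl_out D η hA
  have h1 : cyl D η ∩ A = cyl D η ∩ repl D η ⁻¹' A := by
    ext ω
    simp only [Set.mem_inter_iff, Set.mem_preimage]
    constructor
    · rintro ⟨a, b⟩; exact ⟨a, by rw [repl_of_cyl a]; exact b⟩
    · rintro ⟨a, b⟩; exact ⟨a, by rw [repl_of_cyl a] at b; exact b⟩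
  rw [h1]
  have hint : Integrable ((cyl D η).indicator (fun _ => (1 : ℝ))) μ :=
    (integrable_const 1).indicator (measurableSet_cyl D η)
  have h2 := setIntegral_condExp (outsideσ_le D) hint hA'
  have h3 : ∫ ω in repl D η ⁻¹' A, (cyl D η).indicator (fun _ => (1 : ℝ)) ω ∂μ =
      μ.real (cyl D η ∩ repl D η ⁻¹' A) := by
    rw [integral_indicator (measurableSet_cyl D η), Measure.restrict_restrict
      (measurableSet_cyl D η)]
    simp
  have h4 : ∫ ω in repl D η ⁻¹' A, (μ[(cyl D η).indicator (fun _ => (1 : ℝ)) | outsideσ D]) ω ∂μ =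
      ∫ ω in repl D η ⁻¹' A, loopP x W D (bsrc W D ω) η ∂μ :=
    integral_congr_ae (ae_restrict_of_ae (h.dlr W D hWD η hη))
  have h5 : μ.real (cyl D η ∩ repl D η ⁻¹' A) =
      ∫ ω in repl D η ⁻¹' A, loopP x W D (bsrc W D ω) η ∂μ := by
    rw [← h3, ← h2, h4]
  rw [← ENNReal.ofReal_toReal (measure_ne_top μ (cyl D η ∩ repl D η ⁻¹' A))]
  change ENNReal.ofReal (μ.real _) = _
  rw [h5]
  have hm : Measurable fun ω : Cfg d => loopP x W D (bsrc W D ω) η :=
    (meas_bsrc W D fun B => loopP x W D B η).mono (outsideσ_le D) le_rfl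
  refine ofReal_integral_eq_lintegral_ofReal ?_ ?_
  · refine Integrable.restrict ?_
    refine Integrable.mono' (integrable_const (1 : ℝ)) hm.aestronglyMeasurable ?_
    refine Filter.Eventually.of_forall fun ω => ?_
    rw [Real.norm_of_nonneg (loopP_nonneg hx _ _ _ _)]
    exact loopP_le_one hx W D _ hη
  · exact Filter.Eventually.of_forall fun ω => loopP_nonneg hx _ _ _ _

/-- Invariant probability measures are Gibbs measures. -/
lemma Inv.isGibbs {x : ℝ} (hx : 0 ≤ x) {μ : Measure (Cfg d)} [IsProbabilityMeasure μ]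
    (h : Inv x μ) : IsGibbs d x μ := by
  refine ⟨inferInstance, fun W D hWD η hη => ?_⟩
  have hm : Measurable[outsideσ D] fun ω : Cfg d => loopP x W D (bsrc W D ω) η :=
    meas_bsrc W D fun B => loopP x W D B η
  have hm' := hm.mono (outsideσ_le D) le_rfl
  have hint : Integrable (fun ω : Cfg d => loopP x W D (bsrc W D ω) η) μ := by
    refine Integrable.mono' (integrable_const (1 : ℝ)) hm'.aestronglyMeasurable ?_
    refine Filter.Eventually.of_forall fun ω => ?_
    rw [Real.norm_of_nonneg (loopP_nonneg hx _ _ _ _)]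
    exact loopP_le_one hx W D _ hη
  symm
  refine ae_eq_condExp_of_forall_setIntegral_eq (outsideσ_le D)
    ((integrable_const 1).indicator (measurableSet_cyl D η)) (fun s _ _ => hint.integrableOn) ?_
    hm.aestronglyMeasurable
  intro s hs _
  have hs' : MeasurableSet s := outsideσ_le D s hs
  have h3 : ∫ ω in s, (cyl D η).indicator (fun _ => (1 : ℝ)) ω ∂μ = μ.real (cyl D η ∩ s) := by
    rw [integral_indicator (measurableSet_cyl D η), Measure.restrict_restrict
      (measurableSet_cyl D η)]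
    simp
  rw [h3]
  have h4 := h W D hWD (cyl D η ∩ s) ((measurableSet_cyl D η).inter hs')
  rw [lintegral_kerM x W D μ ((measurableSet_cyl D η).inter hs')] at h4
  -- `repl` does not change outside events
  have hout : ∀ (η' : Finset (Edg d)) (ω : Cfg d), repl D η' ω ∈ s ↔ ω ∈ s := by
    intro η' ω
    obtain ⟨t, ht, rfl⟩ := hs
    simp only [Set.mem_preimage]
    have : (fun e : {e : Edg d // e ∉ D} => repl D η' ω e) = fun e : {e : Edg d // e ∉ D} => ω e := by
      funext e
      exact repl_out e.2 ω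
    rw [this]
  have h5 : ∑ η' ∈ D.powerset, ∫⁻ ω in repl D η' ⁻¹' (cyl D η ∩ s),
      ENNReal.ofReal (loopP x W D (bsrc W D ω) η') ∂μ =
      ∫⁻ ω in s, ENNReal.ofReal (loopP x W D (bsrc W D ω) η) ∂μ := by
    rw [Finset.sum_eq_single η]
    · congr 2
      ext ω
      simp only [Set.mem_preimage, Set.mem_inter_iff, repl_mem_cyl, true_and, hout]
    · intro η' hη' hne
      have : repl D η' ⁻¹' (cyl D η ∩ s) = ∅ := by
        ext ω
        simp only [Set.mem_preimage, Set.mem_inter_iff,
          repl_mem_cyl_iff hη (Finset.mem_powerset.1 hη'), hne, false_and, Set.mem_empty_iff_false]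
      rw [this]; simp
    · intro hn
      exact absurd (Finset.mem_powerset.2 hη) hn
  rw [h5] at h4
  rw [Measure.real, h4, ← ofReal_integral_eq_lintegral_ofReal hint.restrict
    (Filter.Eventually.of_forall fun ω => loopP_nonneg hx _ _ _ _), ENNReal.toReal_ofReal]
  exact integral_nonneg fun ω => loopP_nonneg hx _ _ _ _

end Pool.Agent.LoopO1
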