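import Pool.Agent.LoopO1_f0ab88.MeasQI

/-!
# Quasi-invariance, near-maximisers and frequencies for Gibbs measures
-/

open Finset MeasureTheory
open scoped ENNReal symmDiff

namespace Pool.Agent.LoopO1

variable {d : ℕ}

lemma ind_congr {α β : Type*} {s : Set α} {t : Set β} {a : α} {b : β} (h : a ∈ s ↔ b ∈ t) :
    s.indicator (fun _ => (1 : ℝ)) a = t.indicator (fun _ => (1 : ℝ)) b := by
  by_cases hs : a ∈ s
  · rw [Set.indicator_of_mem hs, Set.indicator_of_mem (h.1 hs)]
  · rw [Set.indicator_of_notMem hs, Set.indicator_of_notMem (fun hb => hs (h.2 hb))]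

lemma opn_repl {D D' η : Finset (Edg d)} (h : D' ⊆ D) (ω : Cfg d) :
    opn D' (repl D η ω) = η ∩ D' := by
  ext e
  simp only [opn, Finset.mem_filter, Finset.mem_inter]
  constructor
  · rintro ⟨h1, h2⟩
    rw [repl_in (h h1)] at h2
    exact ⟨by simpa using h2, h1⟩
  · rintro ⟨h1, h2⟩
    refine ⟨h2, ?_⟩
    rw [repl_in (h h2)]
    simpa using h1

lemma opn_th_repl {D η : Finset (Edg d)} {m : ℕ} {t : Vtx d} (h : ∀ e ∈ ebox d m, sh t e ∈ D)
    (ω : Cfg d) : opn (ebox d m) (th t (repl D η ω)) = η.image (sh (-t)) ∩ ebox d m := by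
  ext e
  rw [Finset.mem_inter, mem_image_sh, neg_neg]
  unfold opn
  rw [Finset.mem_filter]
  constructor
  · rintro ⟨h1, h2⟩
    have h3 : repl D η ω (sh t e) = true := h2
    rw [repl_in (h e h1)] at h3
    exact ⟨by simpa using h3, h1⟩
  · rintro ⟨h1, h2⟩
    refine ⟨h2, ?_⟩
    change repl D η ω (sh t e) = true
    rw [repl_in (h e h2)]
    simpa using h1

lemma qi_local {x : ℝ} (hx : 0 < x) (hQ : FVQ d x) {δ : ℝ} (hδ : 0 < δ) :
    ∃ C : ℝ, 0 ≤ C ∧ ∀ μ : Measure (Cfg d), IsGibbs d x μ → ∀ t : Vtx d, nrm t ≤ 1 →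
      ∀ (m : ℕ) (Φ : Set (Finset (Edg d))),
        μ (loc m Φ) ≤ ENNReal.ofReal C * μ (th t ⁻¹' loc m Φ) + ENNReal.ofReal δ := by
  obtain ⟨C₀, hC₀⟩ := hQ δ hδ
  refine ⟨max C₀ 0, le_max_right _ _, fun μ hμ t ht m Φ => ?_⟩
  have := hμ.prob
  obtain ⟨N, hN, hN2⟩ := hC₀ m
  have hinv := hμ.inv hx.le
  have hA := measurableSet_loc (d := d) m Φ
  have hA' := measurable_th t hA
  rw [hinv _ _ (adm_box N) _ hA, hinv _ _ (adm_box N) _ hA']
  have hpt : ∀ ω : Cfg d, kerM x (box d N) (ebox d N) ω (loc m Φ) ≤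
      ENNReal.ofReal (max C₀ 0) * kerM x (box d N) (ebox d N) ω (th t ⁻¹' loc m Φ) +
        ENNReal.ofReal δ := by
    intro ω
    rw [kerM_event hx.le (adm_box N) ω hA (fun η => Φ.indicator (fun _ => (1 : ℝ)) (η ∩ ebox d m)),
      kerM_event hx.le (adm_box N) ω hA'
        (fun η => Φ.indicator (fun _ => (1 : ℝ)) (η.image (sh (-t)) ∩ ebox d m))]
    · set B := Gr.ind (bsrc (box d N) (ebox d N) ω) with hB
      have h1 := hN2 B (bdSrc_bsrc (by omega) ω) Φ t ht
      rw [← ENNReal.ofReal_mul (le_max_right _ _), ← ENNReal.ofReal_add]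
      · apply ENNReal.ofReal_le_ofReal
        have hZ := Z_nonneg (b := (lat d).bd) hx.le (ebox d N) B
        have h2 : 0 ≤ (lat d).EZ x (ebox d N) B
            (fun η => Φ.indicator (fun _ => (1 : ℝ)) (η.image (sh (-t)) ∩ ebox d m)) :=
          Gr.EZ_nonneg hx.le _ _ fun η _ => Set.indicator_nonneg (fun _ _ => zero_le_one) _
        rcases hZ.eq_or_lt with h0 | h0
        · have h0' : (lat d).Zp x (ebox d N) B = 0 := h0.symm
          rw [h0', div_zero, div_zero, mul_zero, zero_add]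
          exact hδ.le
        · have h0' : 0 < (lat d).Zp x (ebox d N) B := h0
          rw [← mul_div_assoc, div_le_iff₀ h0', add_mul, div_mul_cancel₀ _ h0'.ne']
          refine h1.trans ?_
          gcongr
          exact le_max_left _ _
      · refine mul_nonneg (le_max_right _ _) (div_nonneg ?_ (Z_nonneg hx.le _ _))
        exact Gr.EZ_nonneg hx.le _ _ fun η _ => Set.indicator_nonneg (fun _ _ => zero_le_one) _
      · exact hδ.le
    · intro η _
      have h2 : opn (ebox d m) (th t (repl (ebox d N) η ω)) = η.image (sh (-t)) ∩ ebox d m := by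
        refine opn_th_repl (fun e he => ?_) ω
        exact ebox_mono hN (ebox_sh ht he)
      refine ind_congr ?_
      change _ ↔ opn (ebox d m) (th t (repl (ebox d N) η ω)) ∈ Φ
      rw [h2]
    · intro η _
      have h2 : opn (ebox d m) (repl (ebox d N) η ω) = η ∩ ebox d m :=
        opn_repl (ebox_mono (by omega)) ω
      refine ind_congr ?_
      change _ ↔ opn (ebox d m) (repl (ebox d N) η ω) ∈ Φ
      rw [h2]
  calc ∫⁻ ω, kerM x (box d N) (ebox d N) ω (loc m Φ) ∂μ
      ≤ ∫⁻ ω, (ENNReal.ofReal (max C₀ 0) * kerM x (box d N) (ebox d N) ω (th t ⁻¹' loc m Φ) +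
        ENNReal.ofReal δ) ∂μ := lintegral_mono hpt
    _ = _ := by
        rw [lintegral_add_right _ measurable_const,
          lintegral_const_mul _ (measurable_ker_apply x _ _ hA'), lintegral_const, measure_univ,
          mul_one]

/-- Quasi-invariance for all measurable events. -/
lemma qi_all {x : ℝ} (hx : 0 < x) (hQ : FVQ d x) {δ : ℝ} (hδ : 0 < δ) :
    ∃ C : ℝ, 0 ≤ C ∧ ∀ μ : Measure (Cfg d), IsGibbs d x μ → ∀ t : Vtx d, nrm t ≤ 1 →
      ∀ A : Set (Cfg d), MeasurableSet A →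
        μ A ≤ ENNReal.ofReal C * μ (th t ⁻¹' A) + ENNReal.ofReal δ := by
  obtain ⟨C, hC0, hC⟩ := qi_local hx hQ hδ
  refine ⟨C, hC0, fun μ hμ t ht A hA => ?_⟩
  have := hμ.prob
  have hpm : IsProbabilityMeasure (μ.map (th t)) :=
    Measure.isProbabilityMeasure_map (measurable_th t).aemeasurable
  refine ENNReal.le_of_forall_pos_le_add fun ε hε _ => ?_
  set ε' : ℝ≥0∞ := ε / (ENNReal.ofReal C + 1) with hε'
  have hden : ENNReal.ofReal C + 1 ≠ ∞ := by simp
  have hden0 : ENNReal.ofReal C + 1 ≠ 0 := by simp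
  have hε'0 : 0 < ε' := ENNReal.div_pos (by exact_mod_cast hε.ne') hden
  obtain ⟨L, ⟨m, Φ, rfl⟩, hL⟩ := exists_measure_symmDiff_lt_of_generateFrom_isSetRing
    (μ := μ + μ.map (th t)) (isSetRing_locs (d := d))
    ⟨{Set.univ}, Set.countable_singleton _, by
      rintro _ rfl; exact ⟨0, Set.univ, by ext ω; simp [loc]⟩, by simp⟩
    generateFrom_locs hA hε'0
  have h1 : μ ((loc m Φ) ∆ A) ≤ ε' := (le_add_of_nonneg_right zero_le).trans hL.le
  have h2 : μ.map (th t) ((loc m Φ) ∆ A) ≤ ε' := (le_add_of_nonneg_left zero_le).trans hL.le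
  have h3 : μ A ≤ μ (loc m Φ) + ε' := by
    refine (measure_mono (t := loc m Φ ∪ (loc m Φ) ∆ A) ?_).trans
      ((measure_union_le _ _).trans (by gcongr))
    intro ω hω
    by_cases h : ω ∈ loc m Φ
    · exact Or.inl h
    · exact Or.inr (Or.inr ⟨hω, h⟩)
  have h4 : μ (th t ⁻¹' loc m Φ) ≤ μ (th t ⁻¹' A) + ε' := by
    rw [← Measure.map_apply (measurable_th t) (measurableSet_loc m Φ),
      ← Measure.map_apply (measurable_th t) hA]
    refine (measure_mono (t := A ∪ (loc m Φ) ∆ A) ?_).trans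
      ((measure_union_le _ _).trans (by gcongr))
    intro ω hω
    by_cases h : ω ∈ A
    · exact Or.inl h
    · exact Or.inr (Or.inl ⟨hω, h⟩)
  calc μ A ≤ μ (loc m Φ) + ε' := h3
    _ ≤ (ENNReal.ofReal C * μ (th t ⁻¹' loc m Φ) + ENNReal.ofReal δ) + ε' := by
        gcongr; exact hC μ hμ t ht m Φ
    _ ≤ (ENNReal.ofReal C * (μ (th t ⁻¹' A) + ε') + ENNReal.ofReal δ) + ε' := by gcongr
    _ = (ENNReal.ofReal C * μ (th t ⁻¹' A) + ENNReal.ofReal δ) + (ENNReal.ofReal C + 1) * ε' := by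
        ring
    _ = _ := by
        rw [hε', ENNReal.mul_div_cancel hden0 hden]

/-- Shifts of Gibbs measures are Gibbs measures. -/
lemma IsGibbs.map_th {x : ℝ} (hx : 0 ≤ x) {μ : Measure (Cfg d)} (h : IsGibbs d x μ) (t : Vtx d) :
    IsGibbs d x (μ.map (th t)) := by
  have := h.prob
  have hpm : IsProbabilityMeasure (μ.map (th t)) :=
    Measure.isProbabilityMeasure_map (measurable_th t).aemeasurable
  exact ((h.inv hx).map_th t).isGibbs hx

/-- One step of the near-maximiser argument. -/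
lemma near_max_step {x : ℝ} (hx : 0 < x) (hQ : FVQ d x) {E : Set (Cfg d)} (hE : MeasurableSet E)
    {s : ℝ} (hs : ∀ μ, IsGibbs d x μ → μ.real E ≤ s) (hs0 : 0 ≤ s) (hs1 : s ≤ 1) {ε : ℝ}
    (hε : 0 < ε) :
    ∃ κ : ℝ, 0 < κ ∧ ∀ μ, IsGibbs d x μ → s - κ ≤ μ.real E → ∀ t : Vtx d, nrm t ≤ 1 →
      s - ε ≤ (μ.map (th t)).real E := by
  obtain ⟨C, hC0, hC⟩ := qi_all hx hQ (half_pos hε)
  refine ⟨ε / (2 * (C + 1)), by positivity, fun μ hμ hμE t ht => ?_⟩
  have hprob := hμ.prob
  have hμt := hμ.map_th hx.le t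
  have hprob' := hμt.prob
  set μt := μ.map (th t) with hμtdef
  -- `μt ≤ C μ + ε / 2`
  have hdom : ∀ A, MeasurableSet A → μt A ≤ ENNReal.ofReal C * μ A + ENNReal.ofReal (ε / 2) := by
    intro A hA
    have h1 := hC μt hμt (-t) (nrm_neg_le ht) A hA
    have h2 : μt (th (-t) ⁻¹' A) = μ A := by
      rw [hμtdef, Measure.map_apply (measurable_th t) (measurable_th (-t) hA)]
      congr 1
      ext ω
      simp only [Set.mem_preimage, th_add, neg_add_cancel, th_zero]
    rwa [h2] at h1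
  set ν : Measure (Cfg d) := ENNReal.ofReal C • μ with hν
  have hνfin : IsFiniteMeasure ν := Measure.smul_finite μ ENNReal.ofReal_ne_top
  have hνinv : Inv x ν := (hμ.inv hx.le).smul _
  set lam := μt ⊓ ν with hlam
  have hlfin : IsFiniteMeasure lam := isFiniteMeasure_of_le μt inf_le_left
  have hlinv : Inv x lam := (hμt.inv hx.le).inf hx.le hνinv
  -- mass of `lam`
  have hmass : 1 - ENNReal.ofReal (ε / 2) ≤ lam Set.univ := by
    rw [hlam, Measure.inf_apply MeasurableSet.univ]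
    refine le_sInf ?_
    rintro _ ⟨T, rfl⟩
    rw [Set.inter_univ, Set.inter_univ]
    set A := toMeasurable ν Tᶜ with hA
    have hAm : MeasurableSet A := measurableSet_toMeasurable _ _
    have h1 : ν Tᶜ = ν A := (measure_toMeasurable _).symm
    have h2 : Aᶜ ⊆ T := by
      rw [Set.compl_subset_comm]; exact subset_toMeasurable _ _
    have h3 : μt Aᶜ ≤ μt T := measure_mono h2
    have h4 : μt A + μt Aᶜ = 1 := by rw [measure_add_measure_compl hAm, measure_univ]
    have h5 := hdom A hAm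
    rw [h1]
    rw [tsub_le_iff_right, ← h4]
    have h6 : ν A = ENNReal.ofReal C * μ A := by rw [hν]; rfl
    rw [h6]
    calc μt A + μt Aᶜ ≤ (ENNReal.ofReal C * μ A + ENNReal.ofReal (ε / 2)) + μt T := by gcongr
      _ = _ := by ring
  have hle : lam ≤ ν := inf_le_right
  have hsub : Inv x (ν - lam) := hνinv.sub hlinv hle
  have hsubfin : IsFiniteMeasure (ν - lam) := isFiniteMeasure_of_le ν Measure.sub_le
  have hsum : ν = (ν - lam) + lam := (Measure.sub_add_cancel_of_le hle).symm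
  have hbound : (ν - lam).real E ≤ s * (ν - lam).real Set.univ := by
    by_cases h0 : (ν - lam) Set.univ = 0
    · have : (ν - lam) E = 0 := le_antisymm ((measure_mono (Set.subset_univ E)).trans h0.le)
        zero_le
      simp only [Measure.real, this, h0]
      simp
    · have h1 := hs _ (hsub.isGibbs_smul hx.le h0)
      have h2 : (((ν - lam) Set.univ)⁻¹ • (ν - lam)).real E =
          ((ν - lam).real Set.univ)⁻¹ * (ν - lam).real E := by
        simp only [Measure.real, Measure.smul_apply, smul_eq_mul, ENNReal.toReal_mul,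
          ENNReal.toReal_inv]
      rw [h2] at h1
      have h3 : 0 < (ν - lam).real Set.univ := by
        rw [Measure.real, ENNReal.toReal_pos_iff]
        exact ⟨pos_iff_ne_zero.2 h0, measure_lt_top _ _⟩
      rw [inv_mul_le_iff₀ h3] at h1
      linarith
  have e1 : ν.real E = (ν - lam).real E + lam.real E := by
    have : ν E = (ν - lam) E + lam E := by
      conv_lhs => rw [hsum]
      rfl
    rw [Measure.real, this, ENNReal.toReal_add (measure_ne_top _ _) (measure_ne_top _ _)]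
    rfl
  have e2 : ν.real Set.univ = (ν - lam).real Set.univ + lam.real Set.univ := by
    have : ν Set.univ = (ν - lam) Set.univ + lam Set.univ := by
      conv_lhs => rw [hsum]
      rfl
    rw [Measure.real, this, ENNReal.toReal_add (measure_ne_top _ _) (measure_ne_top _ _)]
    rfl
  have e3 : ν.real E = C * μ.real E := by
    rw [hν]
    simp only [Measure.real, Measure.smul_apply, smul_eq_mul, ENNReal.toReal_mul,
      ENNReal.toReal_ofReal hC0]
  have e4 : ν.real Set.univ = C := by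
    rw [hν]
    simp only [Measure.real, Measure.smul_apply, smul_eq_mul, ENNReal.toReal_mul,
      ENNReal.toReal_ofReal hC0, measure_univ, ENNReal.toReal_one, mul_one]
  have e5 : 1 - ε / 2 ≤ lam.real Set.univ := by
    have h1 := (ENNReal.toReal_le_toReal (ne_top_of_le_ne_top ENNReal.one_ne_top tsub_le_self)
      (measure_ne_top lam Set.univ)).2 hmass
    refine le_trans ?_ h1
    have h2 := ENNReal.le_toReal_sub (a := 1) (b := ENNReal.ofReal (ε / 2)) ENNReal.ofReal_ne_top
    rw [ENNReal.toReal_ofReal (by positivity), ENNReal.toReal_one] at h2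
    exact h2
  have e6 : lam.real E ≤ μt.real E :=
    ENNReal.toReal_mono (measure_ne_top _ _) (inf_le_left (a := μt) (b := ν) E)
  have e7 : C * (ε / (2 * (C + 1))) ≤ ε / 2 := by
    rw [← mul_div_assoc, div_le_div_iff₀ (by positivity) (by positivity)]
    nlinarith
  have e8 : C * (s - ε / (2 * (C + 1))) ≤ C * μ.real E := by gcongr
  have e9 : s * (1 - ε / 2) ≤ s * lam.real Set.univ := by gcongr
  nlinarith

lemma exists_unit_step {t : Vtx d} {n : ℕ} (h : nrm t = n + 1) :
    ∃ u t' : Vtx d, nrm u ≤ 1 ∧ nrm t' = n ∧ t = u + t' := by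
  classical
  have hne : t ≠ 0 := by
    rintro rfl; rw [nrm_zero] at h; omega
  obtain ⟨i, hi⟩ := Function.ne_iff.1 hne
  have hsplit : ∀ w : Vtx d, nrm w = ∑ k ∈ Finset.univ.erase i, (w k).natAbs + (w i).natAbs := by
    intro w; unfold nrm; rw [Finset.sum_erase_add _ _ (Finset.mem_univ i)]
  rcases lt_or_gt_of_ne hi with hlt | hgt
  · refine ⟨Pi.single i (-1), t - Pi.single i (-1), ?_, ?_, by abel⟩
    · rw [nrm_single]; simp
    · rw [hsplit] at h ⊢
      have e1 : ∑ k ∈ Finset.univ.erase i, ((t - Pi.single i (-1) : Vtx d) k).natAbs =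
          ∑ k ∈ Finset.univ.erase i, (t k).natAbs := by
        refine Finset.sum_congr rfl fun k hk => ?_
        rw [Pi.sub_apply, Pi.single_eq_of_ne (Finset.ne_of_mem_erase hk), sub_zero]
      have e2 : (t - Pi.single i (-1) : Vtx d) i = t i + 1 := by
        rw [Pi.sub_apply, Pi.single_eq_same]; ring
      rw [e1, e2]
      have : t i < 0 := hlt
      omega
  · refine ⟨Pi.single i 1, t - Pi.single i 1, ?_, ?_, by abel⟩
    · rw [nrm_single]; simp
    · rw [hsplit] at h ⊢
      have e1 : ∑ k ∈ Finset.univ.erase i, ((t - Pi.single i 1 : Vtx d) k).natAbs =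
          ∑ k ∈ Finset.univ.erase i, (t k).natAbs := by
        refine Finset.sum_congr rfl fun k hk => ?_
        rw [Pi.sub_apply, Pi.single_eq_of_ne (Finset.ne_of_mem_erase hk), sub_zero]
      have e2 : (t - Pi.single i 1 : Vtx d) i = t i - 1 := by
        rw [Pi.sub_apply, Pi.single_eq_same]
      rw [e1, e2]
      have : 0 < t i := hgt
      omega

/-- Near-maximisers stay near-maximisers under bounded shifts. -/
lemma near_max {x : ℝ} (hx : 0 < x) (hQ : FVQ d x) {E : Set (Cfg d)} (hE : MeasurableSet E)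
    {s : ℝ} (hs : ∀ μ, IsGibbs d x μ → μ.real E ≤ s) (hs0 : 0 ≤ s) (hs1 : s ≤ 1) (n : ℕ) :
    ∀ ε : ℝ, 0 < ε → ∃ κ : ℝ, 0 < κ ∧ ∀ μ, IsGibbs d x μ → s - κ ≤ μ.real E → ∀ t : Vtx d,
      nrm t ≤ n → s - ε ≤ (μ.map (th t)).real E := by
  induction n with
  | zero =>
    intro ε hε
    refine ⟨ε, hε, fun μ _ hμE t ht => ?_⟩
    have : t = 0 := nrm_eq_zero (Nat.le_zero.1 ht)
    have h2 : (th (0 : Vtx d) : Cfg d → Cfg d) = id := by
      funext ω; exact th_zero ω
    rw [this, h2, Measure.map_id]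
    exact hμE
  | succ n ih =>
    intro ε hε
    obtain ⟨κ₁, hκ₁, h1⟩ := near_max_step hx hQ hE hs hs0 hs1 hε
    obtain ⟨κ, hκ, h2⟩ := ih (min κ₁ ε) (lt_min hκ₁ hε)
    refine ⟨κ, hκ, fun μ hμ hμE t ht => ?_⟩
    rcases Nat.lt_or_ge (nrm t) (n + 1) with h | h
    · have := h2 μ hμ hμE t (by omega)
      have h3 := min_le_right κ₁ ε
      linarith
    · obtain ⟨u, t', hu, ht', rfl⟩ := exists_unit_step (le_antisymm ht h)
      have h3 := h2 μ hμ hμE t' ht'.le
      have h4 := h1 (μ.map (th t')) (hμ.map_th hx.le t') (by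
        have := min_le_left κ₁ ε
        linarith) u hu
      rw [Measure.map_map (measurable_th u) (measurable_th t')] at h4
      have h5 : (th u ∘ th t' : Cfg d → Cfg d) = th (u + t') := by
        funext ω; exact th_add u t' ω
      rwa [h5] at h4

/-- Frequencies. -/
lemma freq_le {x : ℝ} (hx : 0 < x) {F ζ : Finset (Edg d)} (hζ : ζ ⊆ F) {q : ℝ} {N : ℕ}
    {T : Finset (Vtx d)} (hN : 0 < N) (hT : ∀ t ∈ T, F.image (sh t) ⊆ ebox d N)
    (h : ∀ B : Vtx d → ZMod 2, BdSrc d N B →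
        ∑ t ∈ T, (lat d).EZ x (ebox d N) B
            (fun η => if η ∩ F.image (sh t) = ζ.image (sh t) then (1 : ℝ) else 0) ≤
          q * (lat d).Zp x (ebox d N) B) {μ : Measure (Cfg d)} (hμ : IsGibbs d x μ)
    (hq : 0 ≤ q) :
    ∑ t ∈ T, (μ.map (th t)).real (cyl F ζ) ≤ q := by
  have hprob := hμ.prob
  have hinv := hμ.inv hx.le
  have hE := measurableSet_cyl (d := d) F ζ
  have hEt : ∀ t : Vtx d, MeasurableSet (th t ⁻¹' cyl F ζ) := fun t => measurable_th t hE
  have hone : ∑ t ∈ T, μ (th t ⁻¹' cyl F ζ) ≤ ENNReal.ofReal q := by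
    have h1 : ∀ t ∈ T, μ (th t ⁻¹' cyl F ζ) =
        ∫⁻ ω, kerM x (box d N) (ebox d N) ω (th t ⁻¹' cyl F ζ) ∂μ := fun t _ =>
      hinv _ _ (adm_box N) _ (hEt t)
    rw [Finset.sum_congr rfl h1, ← lintegral_finsetSum _ fun t _ => measurable_ker_apply x _ _ (hEt t)]
    have h2 : ∀ ω : Cfg d, ∑ t ∈ T, kerM x (box d N) (ebox d N) ω (th t ⁻¹' cyl F ζ) ≤
        ENNReal.ofReal q := by
      intro ω
      set B := Gr.ind (bsrc (box d N) (ebox d N) ω) with hB
      have h3 : ∀ t ∈ T, kerM x (box d N) (ebox d N) ω (th t ⁻¹' cyl F ζ) =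
          ENNReal.ofReal ((lat d).EZ x (ebox d N) B
            (fun η => if η ∩ F.image (sh t) = ζ.image (sh t) then (1 : ℝ) else 0) /
            (lat d).Zp x (ebox d N) B) := by
        intro t ht
        refine kerM_event hx.le (adm_box N) ω (hEt t) _ fun η _ => ?_
        have h4 : repl (ebox d N) η ω ∈ th t ⁻¹' cyl F ζ ↔
            η ∩ F.image (sh t) = ζ.image (sh t) := by
          simp only [Set.mem_preimage, cyl, Set.mem_ofPred_eq, th]
          constructor
          · intro h5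
            ext e
            rw [Finset.mem_inter, mem_image_sh, mem_image_sh]
            constructor
            · rintro ⟨h6, h7⟩
              refine (h5 _ h7).1 ?_
              rw [sh_neg', repl_in (hT t ht (mem_image_sh.2 h7))]
              simpa using h6
            · intro h6
              have h7 := (h5 _ (hζ h6)).2 h6
              rw [sh_neg', repl_in (hT t ht (mem_image_sh.2 (hζ h6)))] at h7
              exact ⟨by simpa using h7, hζ h6⟩
          · intro h5 e he
            rw [repl_in (hT t ht (Finset.mem_image_of_mem _ he))]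
            have h6 : sh t e ∈ η ∩ F.image (sh t) ↔ sh t e ∈ ζ.image (sh t) := by rw [h5]
            rw [Finset.mem_inter, (sh_inj t).mem_finset_image, (sh_inj t).mem_finset_image] at h6
            simp only [decide_eq_true_eq]
            constructor
            · intro h7; exact h6.1 ⟨h7, he⟩
            · intro h7; exact (h6.2 h7).1
        by_cases h5 : η ∩ F.image (sh t) = ζ.image (sh t)
        · rw [if_pos h5, Set.indicator_of_mem (h4.2 h5)]
        · rw [if_neg h5, Set.indicator_of_notMem (fun h6 => h5 (h4.1 h6))]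
      rw [Finset.sum_congr rfl h3, ← ENNReal.ofReal_sum_of_nonneg]
      · apply ENNReal.ofReal_le_ofReal
        rw [← Finset.sum_div]
        have hZ := Z_nonneg (b := (lat d).bd) hx.le (ebox d N) B
        exact div_le_of_le_mul₀ hZ hq (h B (bdSrc_bsrc hN ω))
      · intro t _
        refine div_nonneg ?_ (Z_nonneg hx.le _ _)
        refine Gr.EZ_nonneg hx.le _ _ fun η _ => ?_
        split_ifs <;> norm_num
    calc _ ≤ ∫⁻ _, ENNReal.ofReal q ∂μ := lintegral_mono h2
      _ = _ := by rw [lintegral_const, measure_univ, mul_one]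
  have h5 : ∑ t ∈ T, (μ.map (th t)).real (cyl F ζ) = (∑ t ∈ T, μ (th t ⁻¹' cyl F ζ)).toReal := by
    rw [ENNReal.toReal_sum fun t _ => measure_ne_top _ _]
    refine Finset.sum_congr rfl fun t _ => ?_
    rw [Measure.real, Measure.map_apply (measurable_th t) hE]
  rw [h5]
  exact ENNReal.toReal_le_of_le_ofReal hq hone

/-- Probabilities of local patterns under Gibbs measures are at most `p`. -/
lemma cyl_le {x : ℝ} (hx : 0 < x) (hQ : FVQ d x) {F ζ : Finset (Edg d)} (hζ : ζ ⊆ F) {p : ℝ}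
    (hp : ∀ ε : ℝ, 0 < ε → ∃ (N : ℕ) (T : Finset (Vtx d)),
      0 < N ∧ T.Nonempty ∧ (∀ t ∈ T, F.image (sh t) ⊆ ebox d N) ∧
      ∀ B : Vtx d → ZMod 2, BdSrc d N B →
        ∑ t ∈ T, (lat d).EZ x (ebox d N) B
            (fun η => if η ∩ F.image (sh t) = ζ.image (sh t) then (1 : ℝ) else 0) ≤
          T.card * (p + ε) * (lat d).Zp x (ebox d N) B)
    {μ : Measure (Cfg d)} (hμ : IsGibbs d x μ) : μ.real (cyl F ζ) ≤ p := by
  classical
  have hE := measurableSet_cyl (d := d) F ζ
  set s := sSup {r : ℝ | ∃ μ : Measure (Cfg d), IsGibbs d x μ ∧ r = μ.real (cyl F ζ)} with hs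
  have hbdd : BddAbove {r : ℝ | ∃ μ : Measure (Cfg d), IsGibbs d x μ ∧ r = μ.real (cyl F ζ)} := by
    refine ⟨1, ?_⟩
    rintro _ ⟨μ, hμ, rfl⟩
    have := hμ.prob
    exact measureReal_le_one
  have hsup : ∀ μ : Measure (Cfg d), IsGibbs d x μ → μ.real (cyl F ζ) ≤ s := fun μ hμ =>
    le_csSup hbdd ⟨μ, hμ, rfl⟩
  have hs0 : 0 ≤ s := measureReal_nonneg.trans (hsup μ hμ)
  have hs1 : s ≤ 1 := by
    refine csSup_le ⟨_, μ, hμ, rfl⟩ ?_
    rintro _ ⟨μ, hμ, rfl⟩
    have := hμ.prob
    exact measureReal_le_one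
  refine (hsup μ hμ).trans ?_
  refine le_of_forall_pos_le_add fun ε hε => ?_
  obtain ⟨N, T, hN, hTne, hT, hfv⟩ := hp (ε / 2) (half_pos hε)
  obtain ⟨κ, hκ, hnear⟩ := near_max hx hQ hE hsup hs0 hs1 (T.sup nrm) (ε / 2) (half_pos hε)
  obtain ⟨_, ⟨ν, hν, rfl⟩, hνE⟩ := exists_lt_of_lt_csSup (⟨_, μ, hμ, rfl⟩ :
    {r : ℝ | ∃ μ : Measure (Cfg d), IsGibbs d x μ ∧ r = μ.real (cyl F ζ)}.Nonempty)
    (show s - κ < s by linarith)
  have h1 : ∀ t ∈ T, s - ε / 2 ≤ (ν.map (th t)).real (cyl F ζ) := fun t ht =>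
    hnear ν hν hνE.le t (Finset.le_sup (f := nrm) ht)
  have h2 : T.card * (s - ε / 2) ≤ ∑ t ∈ T, (ν.map (th t)).real (cyl F ζ) := by
    have := Finset.card_nsmul_le_sum T _ _ h1
    rwa [nsmul_eq_mul] at this
  have hcard : (0 : ℝ) < T.card := by exact_mod_cast hTne.card_pos
  by_cases hq : 0 ≤ T.card * (p + ε / 2)
  · have h3 := freq_le hx hζ hN hT hfv hν hq
    have h4 : T.card * (s - ε / 2) ≤ T.card * (p + ε / 2) := h2.trans h3
    have := le_of_mul_le_mul_left h4 hcard
    linarith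
  · -- impossible since the sum is nonnegative: use `q = 0`
    exfalso
    push Not at hq
    have hfv' : ∀ B : Vtx d → ZMod 2, BdSrc d N B →
        ∑ t ∈ T, (lat d).EZ x (ebox d N) B
            (fun η => if η ∩ F.image (sh t) = ζ.image (sh t) then (1 : ℝ) else 0) ≤
          T.card * (p + ε / 2) * (lat d).Zp x (ebox d N) B := hfv
    have h0 := hfv' 0 (fun v hv => absurd rfl hv)
    have h1 : 0 < (lat d).Zp x (ebox d N) 0 := Z_zero_pos hx.le _
    have h2 : 0 ≤ ∑ t ∈ T, (lat d).EZ x (ebox d N) 0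
            (fun η => if η ∩ F.image (sh t) = ζ.image (sh t) then (1 : ℝ) else 0) := by
      refine Finset.sum_nonneg fun t _ => Gr.EZ_nonneg hx.le _ _ fun η _ => ?_
      split_ifs <;> norm_num
    nlinarith [mul_neg_of_neg_of_pos hq h1]

end Pool.Agent.LoopO1
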