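import Pool.Agent.LoopO1_f0ab88.MeasKernel

/-!
# Operations on invariant measures: shifts, multiples, differences, infima
-/

open Finset MeasureTheory
open scoped ENNReal

namespace Pool.Agent.LoopO1

variable {d : ℕ}

/-! ### Shifts -/

/-- The shifted configuration. -/
def th (t : Vtx d) (ω : Cfg d) : Cfg d := fun e => ω (sh t e)

lemma measurable_th (t : Vtx d) : Measurable (th t : Cfg d → Cfg d) :=
  measurable_pi_lambda _ fun e => measurable_pi_apply (sh t e)

lemma th_add (s t : Vtx d) (ω : Cfg d) : th s (th t ω) = th (s + t) ω := by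
  funext e
  simp only [th, sh]
  rw [add_assoc]

lemma th_zero (ω : Cfg d) : th 0 ω = ω := by
  funext e
  simp [th, sh]

lemma th_repl (t : Vtx d) (D η : Finset (Edg d)) (ω : Cfg d) :
    repl D η (th t ω) = th t (repl (D.image (sh t)) (η.image (sh t)) ω) := by
  funext e
  simp only [repl, th, (sh_inj t).mem_finset_image]

lemma isEnd_sh (t v : Vtx d) (e : Edg d) : IsEnd (v + t) (sh t e) ↔ IsEnd v e := by
  unfold IsEnd sh
  simp only [add_left_inj]
  have : v + t = e.1 + t + Pi.single e.2 1 ↔ v = e.1 + Pi.single e.2 1 := by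
    constructor
    · intro h
      have h2 : v + t = (e.1 + Pi.single e.2 1) + t := by rw [h]; abel
      exact add_right_cancel h2
    · intro h; rw [h]; abel
  rw [this]

lemma incE_add (t v : Vtx d) : incE (v + t) = (incE v).image (sh t) := by
  ext e
  rw [mem_incE, mem_image_sh, mem_incE]
  have := isEnd_sh t v (sh (-t) e)
  rw [sh_neg'] at this
  exact this

lemma add_inj' (t : Vtx d) : Function.Injective (fun v : Vtx d => v + t) := add_left_injective t

lemma bsrc_th (t : Vtx d) (W : Finset (Vtx d)) (D : Finset (Edg d)) (ω : Cfg d) :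
    bsrc (W.image (· + t)) (D.image (sh t)) ω = (bsrc W D (th t ω)).image (· + t) := by
  rw [bsrc_eq, bsrc_eq, Finset.filter_image]
  congr 1
  refine Finset.filter_congr fun v _ => ?_
  have : (incE (v + t)).filter (fun e => e ∉ D.image (sh t) ∧ ω e = true) =
      ((incE v).filter fun e => e ∉ D ∧ th t ω e = true).image (sh t) := by
    rw [incE_add, Finset.filter_image]
    congr 1
    refine Finset.filter_congr fun e _ => ?_
    rw [(sh_inj t).mem_finset_image]
    rfl
  rw [this, Finset.card_image_of_injective _ (sh_inj t)]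

lemma srcs_image (t : Vtx d) (W : Finset (Vtx d)) (η : Finset (Edg d)) :
    srcs (W.image (· + t)) (η.image (sh t)) = (srcs W η).image (· + t) := by
  unfold srcs
  rw [Finset.filter_image]
  congr 1
  refine Finset.filter_congr fun v _ => ?_
  have : (η.image (sh t)).filter (fun e => IsEnd (v + t) e) =
      (η.filter fun e => IsEnd v e).image (sh t) := by
    rw [Finset.filter_image]
    congr 1
    refine Finset.filter_congr fun e _ => ?_
    exact isEnd_sh t v e
  rw [this, Finset.card_image_of_injective _ (sh_inj t)]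

lemma srcs_image_eq (t : Vtx d) (W B : Finset (Vtx d)) (η : Finset (Edg d)) :
    srcs (W.image (· + t)) (η.image (sh t)) = B.image (· + t) ↔ srcs W η = B := by
  rw [srcs_image]
  exact Finset.image_injective (add_inj' t) |>.eq_iff

lemma powerset_image (t : Vtx d) (D : Finset (Edg d)) :
    (D.image (sh t)).powerset = D.powerset.image (fun η => η.image (sh t)) := by
  ext η
  simp only [Finset.mem_powerset, Finset.mem_image]
  constructor
  · intro h
    refine ⟨η.image (sh (-t)), ?_, image_sh_neg' t η⟩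
    have := Finset.image_subset_image (f := sh (-t)) h
    rwa [image_sh_neg] at this
  · rintro ⟨η', h, rfl⟩
    exact Finset.image_subset_image h

lemma image_sh_injective (t : Vtx d) :
    Function.Injective (fun η : Finset (Edg d) => η.image (sh t)) := by
  intro a b h
  have : (a.image (sh t)).image (sh (-t)) = (b.image (sh t)).image (sh (-t)) := by
    simp only at h; rw [h]
  rwa [image_sh_neg, image_sh_neg] at this

lemma loopZ_image (x : ℝ) (t : Vtx d) (W : Finset (Vtx d)) (D : Finset (Edg d))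
    (B : Finset (Vtx d)) :
    loopZ x (W.image (· + t)) (D.image (sh t)) (B.image (· + t)) = loopZ x W D B := by
  unfold loopZ
  rw [powerset_image, Finset.filter_image, Finset.sum_image (fun a _ b _ h => image_sh_injective t h)]
  refine Finset.sum_congr ?_ fun η _ => ?_
  · refine Finset.filter_congr fun η _ => ?_
    exact srcs_image_eq t W B η
  · rw [Finset.card_image_of_injective _ (sh_inj t)]

lemma loopP_image (x : ℝ) (t : Vtx d) (W : Finset (Vtx d)) (D : Finset (Edg d))
    (B : Finset (Vtx d)) (η : Finset (Edg d)) :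
    loopP x (W.image (· + t)) (D.image (sh t)) (B.image (· + t)) (η.image (sh t)) =
      loopP x W D B η := by
  unfold loopP
  rw [loopZ_image, Finset.card_image_of_injective _ (sh_inj t)]
  simp only [srcs_image_eq]

lemma kerM_th (x : ℝ) (t : Vtx d) (W : Finset (Vtx d)) (D : Finset (Edg d)) (ω : Cfg d)
    {A : Set (Cfg d)} (hA : MeasurableSet A) :
    kerM x W D (th t ω) A = kerM x (W.image (· + t)) (D.image (sh t)) ω (th t ⁻¹' A) := by
  rw [kerM_apply x W D _ hA, kerM_apply x _ _ _ (measurable_th t hA), powerset_image,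
    Finset.sum_image (fun a _ b _ h => image_sh_injective t h)]
  refine Finset.sum_congr rfl fun η _ => ?_
  rw [bsrc_th, loopP_image, th_repl]
  rfl

lemma Adm.image {W : Finset (Vtx d)} {D : Finset (Edg d)} (h : Adm W D) (t : Vtx d) :
    Adm (W.image (· + t)) (D.image (sh t)) := by
  intro e he v hv
  obtain ⟨e', he', rfl⟩ := Finset.mem_image.1 he
  have h1 : IsEnd ((v - t) + t) (sh t e') := by rwa [sub_add_cancel]
  rw [isEnd_sh] at h1
  exact Finset.mem_image.2 ⟨v - t, h e' he' _ h1, sub_add_cancel v t⟩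

/-- Shifts of invariant measures are invariant. -/
lemma Inv.map_th {x : ℝ} {μ : Measure (Cfg d)} (h : Inv x μ) (t : Vtx d) :
    Inv x (μ.map (th t)) := by
  intro W D hWD A hA
  rw [Measure.map_apply (measurable_th t) hA, h _ _ (hWD.image t) _ (measurable_th t hA),
    lintegral_map _ (measurable_th t)]
  · exact lintegral_congr fun ω => (kerM_th x t W D ω hA).symm
  · exact (Measure.measurable_coe hA).comp (measurable_kerM x W D)

/-! ### Linear operations -/

lemma Inv.smul {x : ℝ} {μ : Measure (Cfg d)} (h : Inv x μ) (c : ℝ≥0∞) : Inv x (c • μ) := by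
  intro W D hWD A hA
  rw [lintegral_smul_measure, Measure.smul_apply, h W D hWD A hA]

lemma measurable_ker_apply (x : ℝ) (W : Finset (Vtx d)) (D : Finset (Edg d)) {A : Set (Cfg d)}
    (hA : MeasurableSet A) : Measurable fun ω => kerM x W D ω A :=
  (Measure.measurable_coe hA).comp (measurable_kerM x W D)

lemma Inv.sub {x : ℝ} {μ ν : Measure (Cfg d)} [IsFiniteMeasure μ] [IsFiniteMeasure ν]
    (hμ : Inv x μ) (hν : Inv x ν) (hle : ν ≤ μ) : Inv x (μ - ν) := by
  intro W D hWD A hA
  have e := Measure.sub_add_cancel_of_le hle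
  have h1 : μ A = (μ - ν) A + ν A := by
    conv_lhs => rw [← e]
    rfl
  have h2 : ∫⁻ ω, kerM x W D ω A ∂μ =
      ∫⁻ ω, kerM x W D ω A ∂(μ - ν) + ∫⁻ ω, kerM x W D ω A ∂ν := by
    conv_lhs => rw [← e]
    rw [lintegral_add_measure]
  rw [← hμ W D hWD A hA, ← hν W D hWD A hA, h1] at h2
  exact (ENNReal.add_left_inj (measure_ne_top ν A)).1 h2

/-- Normalised invariant measures are Gibbs measures. -/
lemma Inv.isGibbs_smul {x : ℝ} (hx : 0 ≤ x) {μ : Measure (Cfg d)} [IsFiniteMeasure μ]
    (h : Inv x μ) (h0 : μ Set.univ ≠ 0) : IsGibbs d x ((μ Set.univ)⁻¹ • μ) := by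
  have : IsProbabilityMeasure ((μ Set.univ)⁻¹ • μ) := by
    constructor
    rw [Measure.smul_apply, smul_eq_mul]
    exact ENNReal.inv_mul_cancel h0 (measure_ne_top _ _)
  exact (h.smul _).isGibbs hx

/-! ### Infima -/

lemma sum_loopP_le {x : ℝ} (hx : 0 ≤ x) (W : Finset (Vtx d)) (D : Finset (Edg d))
    (B : Finset (Vtx d)) : ∑ η ∈ D.powerset, loopP x W D B η ≤ 1 := by
  unfold loopP
  rw [← Finset.sum_filter, ← Finset.sum_div]
  exact div_le_one_of_le₀ le_rfl (loopZ_nonneg hx W D B)

lemma kerM_univ_le {x : ℝ} (hx : 0 ≤ x) (W : Finset (Vtx d)) (D : Finset (Edg d)) (ω : Cfg d) :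
    kerM x W D ω Set.univ ≤ 1 := by
  rw [kerM_apply x W D ω MeasurableSet.univ]
  simp only [Set.indicator_univ, Pi.one_apply, mul_one]
  rw [← ENNReal.ofReal_sum_of_nonneg fun η _ => loopP_nonneg hx W D _ η]
  exact ENNReal.ofReal_le_one.2 (sum_loopP_le hx W D _)

lemma Inv.kerM_univ_ae {x : ℝ} (hx : 0 ≤ x) {μ : Measure (Cfg d)} [IsFiniteMeasure μ]
    (h : Inv x μ) {W : Finset (Vtx d)} {D : Finset (Edg d)} (hWD : Adm W D) :
    ∀ᵐ ω ∂μ, kerM x W D ω Set.univ = 1 := by
  have h1 := h W D hWD Set.univ MeasurableSet.univ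
  have h2 : ∫⁻ ω, kerM x W D ω Set.univ ∂μ = ∫⁻ _, 1 ∂μ := by
    rw [← h1]; simp
  have h3 := ae_eq_of_ae_le_of_lintegral_le (μ := μ) (f := fun ω => kerM x W D ω Set.univ)
    (g := fun _ => 1) (Filter.Eventually.of_forall fun ω => kerM_univ_le hx W D ω) ?_
    aemeasurable_const (by rw [h2])
  · exact h3
  · rw [← h1]; exact measure_ne_top _ _

lemma Inv.inf {x : ℝ} (hx : 0 ≤ x) {μ ν : Measure (Cfg d)} [IsFiniteMeasure μ]
    [IsFiniteMeasure ν] (hμ : Inv x μ) (hν : Inv x ν) : Inv x (μ ⊓ ν) := by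
  intro W D hWD A hA
  set κ := μ ⊓ ν with hκ
  have hfin : IsFiniteMeasure κ := isFiniteMeasure_of_le μ inf_le_left
  set γ := κ.bind (kerM x W D) with hγ
  have hγa : ∀ A, MeasurableSet A → γ A = ∫⁻ ω, kerM x W D ω A ∂κ := fun A hA =>
    Measure.bind_apply hA (measurable_kerM x W D).aemeasurable
  have h1 : γ ≤ μ := by
    refine Measure.le_iff.2 fun A hA => ?_
    rw [hγa A hA, hμ W D hWD A hA]
    exact lintegral_mono' inf_le_left le_rfl
  have h2 : γ ≤ ν := by
    refine Measure.le_iff.2 fun A hA => ?_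
    rw [hγa A hA, hν W D hWD A hA]
    exact lintegral_mono' inf_le_right le_rfl
  have h3 : γ ≤ κ := le_inf h1 h2
  have h4 : γ Set.univ = κ Set.univ := by
    rw [hγa _ MeasurableSet.univ]
    have : ∀ᵐ ω ∂κ, kerM x W D ω Set.univ = 1 :=
      (Measure.absolutelyContinuous_of_le inf_le_left).ae_le (hμ.kerM_univ_ae hx hWD)
    rw [lintegral_congr_ae this]; simp
  rw [← hγa A hA]
  have hfinγ : IsFiniteMeasure γ := isFiniteMeasure_of_le κ h3
  have h5 : κ A + κ Aᶜ = γ A + γ Aᶜ := by
    rw [measure_add_measure_compl hA, measure_add_measure_compl hA, h4]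
  refine le_antisymm ?_ (h3 A)
  have h6 : γ Aᶜ ≤ κ Aᶜ := h3 _
  have h7 : κ A + γ Aᶜ ≤ γ A + γ Aᶜ := by
    rw [← h5]; gcongr
  exact (ENNReal.add_le_add_iff_right (measure_ne_top γ _)).1 h7

end Pool.Agent.LoopO1
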