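import Pool.Agent.LoopO1_f0ab88.MeasOps

/-!
# From finite volume to Gibbs measures: quasi-invariance and frequencies
-/

open Finset MeasureTheory
open scoped ENNReal symmDiff

namespace Pool.Agent.LoopO1

variable {d : ℕ}

/-! ### Relation between the kernels and the finite sums -/

lemma bd_apply (e : Edg d) (v : Vtx d) :
    (lat d).bd e v = if IsEnd v e then 1 else 0 := by
  unfold Gr.bd dl
  simp only [lat_src, lat_tgt, Pi.add_apply, Pi.single_apply]
  have hne : e.1 ≠ e.1 + Pi.single e.2 1 := (lat d).ne e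
  by_cases h1 : v = e.1
  · have h2 : v ≠ e.1 + Pi.single e.2 1 := by rw [h1]; exact hne
    rw [if_pos h1, if_neg h2, if_pos (show IsEnd v e from Or.inl h1), add_zero]
  · by_cases h2 : v = e.1 + Pi.single e.2 1
    · rw [if_neg h1, if_pos h2, if_pos (show IsEnd v e from Or.inr h2), zero_add]
    · rw [if_neg h1, if_neg h2, if_neg (show ¬ IsEnd v e from fun h => h.elim h1 h2), add_zero]

lemma bdS_apply (η : Finset (Edg d)) (v : Vtx d) :
    (lat d).bdS η v = ((η.filter fun e => IsEnd v e).card : ZMod 2) := by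
  unfold Gr.bdS
  rw [Finset.sum_apply]
  simp only [bd_apply]
  rw [Finset.sum_ite, Finset.sum_const_zero, add_zero, Finset.sum_const, nsmul_eq_mul, mul_one]

lemma srcs_eq_iff {W : Finset (Vtx d)} {D : Finset (Edg d)} (hWD : Adm W D) {B : Finset (Vtx d)}
    (hB : B ⊆ W) {η : Finset (Edg d)} (hη : η ⊆ D) :
    srcs W η = B ↔ (lat d).bdS η = Gr.ind B := by
  have hodd : ∀ n : ℕ, ((n : ZMod 2) = 1) ↔ Odd n := fun n => by
    rw [ZMod.natCast_eq_one_iff_odd]
  have heven : ∀ n : ℕ, ((n : ZMod 2) = 0) ↔ ¬ Odd n := fun n => by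
    rw [ZMod.natCast_eq_zero_iff_even, Nat.not_odd_iff_even]
  constructor
  · intro h
    funext v
    rw [bdS_apply, Gr.ind_apply]
    by_cases hv : v ∈ B
    · rw [if_pos hv, hodd]
      rw [← h] at hv
      exact (Finset.mem_filter.1 hv).2
    · rw [if_neg hv, heven]
      intro ho
      apply hv
      rw [← h]
      refine Finset.mem_filter.2 ⟨?_, ho⟩
      have hpos : 0 < (η.filter fun e => IsEnd v e).card := ho.pos
      obtain ⟨e, he⟩ := Finset.card_pos.1 hpos
      exact hWD e (hη (Finset.mem_filter.1 he).1) v (Finset.mem_filter.1 he).2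
  · intro h
    ext v
    unfold srcs
    rw [Finset.mem_filter]
    have hv := congrFun h v
    rw [bdS_apply, Gr.ind_apply] at hv
    constructor
    · rintro ⟨_, ho⟩
      by_contra hvB
      rw [if_neg hvB, heven] at hv
      exact hv ho
    · intro hvB
      rw [if_pos hvB, hodd] at hv
      exact ⟨hB hvB, hv⟩

lemma sum_loopP_mul {x : ℝ} {W : Finset (Vtx d)} {D : Finset (Edg d)} (hWD : Adm W D)
    {B : Finset (Vtx d)} (hB : B ⊆ W) (F : Finset (Edg d) → ℝ) :
    ∑ η ∈ D.powerset, loopP x W D B η * F η =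
      (lat d).EZ x D (Gr.ind B) F / (lat d).Zp x D (Gr.ind B) := by
  classical
  have hZ : loopZ x W D B = (lat d).Zp x D (Gr.ind B) := by
    rw [← Gr.EZ_one]
    unfold loopZ Gr.EZ
    rw [Finset.sum_filter]
    refine Finset.sum_congr rfl fun η hη => ?_
    rw [Finset.mem_powerset] at hη
    simp only [srcs_eq_iff hWD hB hη, mul_one]
  unfold Gr.EZ
  rw [Finset.sum_div]
  refine Finset.sum_congr rfl fun η hη => ?_
  rw [Finset.mem_powerset] at hη
  unfold loopP
  simp only [srcs_eq_iff hWD hB hη, hZ]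
  split_ifs
  · ring
  · simp

lemma bsrc_subset (W : Finset (Vtx d)) (D : Finset (Edg d)) (ω : Cfg d) : bsrc W D ω ⊆ W :=
  Finset.filter_subset _ _

/-- The DLR kernel evaluated on an event which is a function of the edges in `D`. -/
lemma kerM_event {x : ℝ} (hx : 0 ≤ x) {W : Finset (Vtx d)} {D : Finset (Edg d)} (hWD : Adm W D)
    (ω : Cfg d) {A : Set (Cfg d)} (hA : MeasurableSet A) (F : Finset (Edg d) → ℝ)
    (hF : ∀ η ⊆ D, F η = A.indicator (fun _ => (1 : ℝ)) (repl D η ω)) :
    kerM x W D ω A = ENNReal.ofReal ((lat d).EZ x D (Gr.ind (bsrc W D ω)) F /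
      (lat d).Zp x D (Gr.ind (bsrc W D ω))) := by
  classical
  rw [kerM_apply x W D ω hA, ← sum_loopP_mul hWD (bsrc_subset W D ω),
    ENNReal.ofReal_sum_of_nonneg]
  · refine Finset.sum_congr rfl fun η hη => ?_
    rw [ENNReal.ofReal_mul (loopP_nonneg hx _ _ _ _), hF η (Finset.mem_powerset.1 hη)]
    congr 1
    by_cases h : repl D η ω ∈ A
    · rw [Set.indicator_of_mem h, Set.indicator_of_mem h]; simp
    · rw [Set.indicator_of_notMem h, Set.indicator_of_notMem h]; simp
  · intro η hη
    refine mul_nonneg (loopP_nonneg hx _ _ _ _) ?_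
    rw [hF η (Finset.mem_powerset.1 hη)]
    exact Set.indicator_nonneg (fun _ _ => zero_le_one) _

lemma adm_box (N : ℕ) : Adm (box d N) (ebox d N) := by
  intro e he v hv
  have := mem_ebox.1 he
  rcases hv with h | h
  · rw [h]; exact this.1
  · rw [h]; exact this.2

lemma bdSrc_bsrc {N : ℕ} (hN : 1 ≤ N) (ω : Cfg d) :
    BdSrc d N (Gr.ind (bsrc (box d N) (ebox d N) ω)) := by
  intro v hv
  rw [Gr.ind_apply] at hv
  have hv' : v ∈ bsrc (box d N) (ebox d N) ω := by
    by_contra h; rw [if_neg h] at hv; exact hv rfl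
  rw [bsrc_eq, Finset.mem_filter] at hv'
  refine ⟨hv'.1, fun hin => ?_⟩
  obtain ⟨e, he⟩ := Finset.card_pos.1 hv'.2.pos
  rw [Finset.mem_filter, mem_incE] at he
  apply he.2.1
  rw [mem_box] at hin
  rw [mem_ebox, mem_box, mem_box]
  have hc : ((N - 1 : ℕ) : ℤ) = (N : ℤ) - 1 := by push_cast [hN]; ring
  rcases he.1 with h | h
  · rw [h] at hin
    refine ⟨fun i => ?_, fun i => ?_⟩
    · have := hin i; rw [hc] at this; constructor <;> linarith [this.1, this.2]
    · have := hin i
      rw [hc] at this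
      by_cases hi : i = e.2
      · subst hi; rw [Pi.add_apply, Pi.single_eq_same]; constructor <;> linarith [this.1, this.2]
      · rw [Pi.add_apply, Pi.single_eq_of_ne hi]; constructor <;> linarith [this.1, this.2]
  · refine ⟨fun i => ?_, fun i => ?_⟩
    · have := hin i
      rw [hc, h] at this
      by_cases hi : i = e.2
      · subst hi; rw [Pi.add_apply, Pi.single_eq_same] at this
        constructor <;> linarith [this.1, this.2]
      · rw [Pi.add_apply, Pi.single_eq_of_ne hi] at this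
        constructor <;> linarith [this.1, this.2]
    · have := hin i
      rw [hc, h] at this
      constructor <;> linarith [this.1, this.2]

/-! ### Local events -/

/-- The open edges inside `D`. -/
def opn (D : Finset (Edg d)) (ω : Cfg d) : Finset (Edg d) := D.filter fun e => ω e = true

/-- Local events. -/
def loc (m : ℕ) (Φ : Set (Finset (Edg d))) : Set (Cfg d) := {ω | opn (ebox d m) ω ∈ Φ}

lemma opn_inter {D D' : Finset (Edg d)} (h : D' ⊆ D) (ω : Cfg d) : opn D ω ∩ D' = opn D' ω := by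
  ext e
  simp only [opn, Finset.mem_inter, Finset.mem_filter]
  constructor
  · rintro ⟨⟨_, h1⟩, h2⟩; exact ⟨h2, h1⟩
  · rintro ⟨h1, h2⟩; exact ⟨⟨h h1, h2⟩, h1⟩

lemma loc_mono {m n : ℕ} (h : m ≤ n) (Φ : Set (Finset (Edg d))) :
    loc m Φ = loc n {η | η ∩ ebox d m ∈ Φ} := by
  ext ω
  simp only [loc, Set.mem_ofPred_eq, opn_inter (ebox_mono h)]

lemma measurable_opn (D : Finset (Edg d)) : @Measurable (Cfg d) (Finset (Edg d)) _ ⊤ (opn D) := by
  classical
  have hr : Measurable (fun (ω : Cfg d) (e : D) => ω e) :=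
    measurable_pi_lambda _ fun e => measurable_pi_apply _
  have h2 : opn D = (fun c : D → Bool => opn D fun e => if h : e ∈ D then c ⟨e, h⟩ else false) ∘
      (fun (ω : Cfg d) (e : D) => ω e) := by
    funext ω
    simp only [opn, Function.comp]
    refine Finset.filter_congr fun e he => ?_
    simp [he]
  rw [h2]
  refine Measurable.comp ?_ hr
  intro s _
  exact MeasurableSet.of_discrete

lemma measurableSet_loc (m : ℕ) (Φ : Set (Finset (Edg d))) : MeasurableSet (loc m Φ) :=
  measurable_opn (ebox d m) (MeasurableSpace.measurableSet_top (s := Φ))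

/-- The ring of local events. -/
def locs (d : ℕ) : Set (Set (Cfg d)) := {A | ∃ m Φ, A = loc m Φ}

lemma isSetRing_locs : IsSetRing (locs d) where
  empty_mem := ⟨0, ∅, by ext ω; simp [loc]⟩
  union_mem := by
    rintro _ _ ⟨m, Φ, rfl⟩ ⟨n, Ψ, rfl⟩
    refine ⟨max m n, {η | η ∩ ebox d m ∈ Φ} ∪ {η | η ∩ ebox d n ∈ Ψ}, ?_⟩
    rw [loc_mono (le_max_left m n), loc_mono (le_max_right m n)]
    rfl
  sdiff_mem := by
    rintro _ _ ⟨m, Φ, rfl⟩ ⟨n, Ψ, rfl⟩
    refine ⟨max m n, {η | η ∩ ebox d m ∈ Φ} \ {η | η ∩ ebox d n ∈ Ψ}, ?_⟩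
    rw [loc_mono (le_max_left m n), loc_mono (le_max_right m n)]
    rfl

lemma exists_ebox (e : Edg d) : ∃ m, e ∈ ebox d m := by
  refine ⟨nrm e.1 + 1, ?_⟩
  rw [mem_ebox, mem_box, mem_box]
  have h : ∀ i, -(nrm e.1 : ℤ) ≤ e.1 i ∧ e.1 i ≤ nrm e.1 := by
    intro i
    have := natAbs_le_nrm e.1 i
    omega
  constructor
  · intro i; have := h i; push_cast; constructor <;> linarith [this.1, this.2]
  · intro i
    have := h i
    by_cases hi : i = e.2
    · subst hi; rw [Pi.add_apply, Pi.single_eq_same]; push_cast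
      constructor <;> linarith [this.1, this.2]
    · rw [Pi.add_apply, Pi.single_eq_of_ne hi]; push_cast
      constructor <;> linarith [this.1, this.2]

lemma generateFrom_locs : (MeasurableSpace.pi : MeasurableSpace (Cfg d)) =
    MeasurableSpace.generateFrom (locs d) := by
  apply le_antisymm
  · rw [MeasurableSpace.pi, iSup_le_iff]
    intro e
    rw [MeasurableSpace.comap_le_iff_le_map]
    intro s _
    -- every set of booleans
    obtain ⟨m, hm⟩ := exists_ebox e
    have : (fun ω : Cfg d => ω e) ⁻¹' s = loc m {η | decide (e ∈ η) ∈ s} := by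
      ext ω
      simp only [Set.mem_preimage, loc, Set.mem_ofPred_eq]
      have h2 : decide (e ∈ opn (ebox d m) ω) = ω e := by
        simp [opn, hm]
      rw [h2]
    change MeasurableSet[MeasurableSpace.generateFrom (locs d)] ((fun ω : Cfg d => ω e) ⁻¹' s)
    rw [this]
    exact MeasurableSpace.measurableSet_generateFrom ⟨m, _, rfl⟩
  · refine MeasurableSpace.generateFrom_le ?_
    rintro _ ⟨m, Φ, rfl⟩
    exact measurableSet_loc m Φ

end Pool.Agent.LoopO1
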