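import Pool.Agent.LoopO1_f0ab88.MeasBox
import Pool.Agent.LoopO1_f0ab88.Density

/-!
# Gibbs measures: quasi-invariance and invariance under shifts
-/

open Finset MeasureTheory

set_option linter.unusedSectionVars false
set_option linter.unusedVariables false

namespace Pool.Agent.LoopO1

variable {d : ℕ}

/-- Quasi-invariance for all measurable events. -/
def QI (d : ℕ) (x : ℝ) : Prop :=
  ∀ δ : ℝ, 0 < δ → ∃ C : ℝ, 0 ≤ C ∧ ∀ μ : Measure (Cfg d), IsProbabilityMeasure μ → SetDLR d x μ →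
    ∀ t : Vtx d, nrm t ≤ 1 → ∀ E : Set (Cfg d), MeasurableSet E →
      μ.real E ≤ C * μ.real (th t ⁻¹' E) + δ

lemma image_pat_inter {N m : ℕ} (hm : m + 1 ≤ N) {t : Vtx d} (ht : nrm t ≤ 1) (ω : Cfg d) :
    (pat (ebox d N) ω).image (sh (-t)) ∩ ebox d m = pat (ebox d m) (th t ω) := by
  ext e
  rw [Finset.mem_inter, mem_image_sh, neg_neg, mem_pat, mem_pat]
  show _ ↔ e ∈ ebox d m ∧ ω (sh t e) = true
  constructor
  · rintro ⟨⟨-, h1⟩, h2⟩
    exact ⟨h2, h1⟩
  · rintro ⟨h1, h2⟩
    exact ⟨⟨ebox_mono hm (ebox_sh ht h1), h2⟩, h1⟩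

lemma qi_local {x : ℝ} (hx : 0 ≤ x) {δ C : ℝ} (hδ : 0 < δ)
    (hC : ∀ m : ℕ, ∃ N : ℕ, m + 1 ≤ N ∧
    ∀ B : Vtx d → ZMod 2, BdSrc d N B → ∀ (Φ : Set (Finset (Edg d))) (t : Vtx d), nrm t ≤ 1 →
      (lat d).EZ x (ebox d N) B (fun η => Φ.indicator (fun _ => (1 : ℝ)) (η ∩ ebox d m)) ≤
        C * (lat d).EZ x (ebox d N) B
            (fun η => Φ.indicator (fun _ => (1 : ℝ)) (η.image (sh (-t)) ∩ ebox d m)) +
          δ * (lat d).Zp x (ebox d N) B)
    {μ : Measure (Cfg d)} [IsProbabilityMeasure μ] (h : SetDLR d x μ) {t : Vtx d} (ht : nrm t ≤ 1)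
    {E : Set (Cfg d)} (hE : E ∈ measurableCylinders fun _ : Edg d => Bool) :
    μ.real E ≤ max C 0 * μ.real (th t ⁻¹' E) + δ := by
  classical
  have hEm : MeasurableSet E := MeasurableSet.of_mem_measurableCylinders hE
  obtain ⟨s, S, hS, rfl⟩ := (mem_measurableCylinders _).1 hE
  obtain ⟨m, hm⟩ := exists_ebox s
  obtain ⟨N, hN, hmain⟩ := hC m
  set Φ : Set (Finset (Edg d)) := {η | (fun e : s => decide (e.1 ∈ η)) ∈ S} with hΦ
  have hiff : ∀ ω : Cfg d, pat (ebox d m) ω ∈ Φ ↔ ω ∈ cylinder s S := by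
    intro ω
    rw [mem_cylinder]
    have h1 : (fun e : s => decide (e.1 ∈ pat (ebox d m) ω)) = s.restrict ω := by
      funext e
      have h2 : e.1 ∈ ebox d m := hm e.2
      show decide (e.1 ∈ pat (ebox d m) ω) = ω e.1
      by_cases h3 : ω e.1 = true
      · rw [h3, decide_eq_true_eq]; exact mem_pat.2 ⟨h2, h3⟩
      · have h4 : ω e.1 = false := by simpa using h3
        rw [h4, decide_eq_false_iff_not]
        intro h5; exact h3 (mem_pat.1 h5).2
    show (fun e : s => decide (e.1 ∈ pat (ebox d m) ω)) ∈ S ↔ _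
    rw [h1]
  have hind : ∀ ω : Cfg d, Φ.indicator (fun _ => (1 : ℝ)) (pat (ebox d m) ω)
      = (cylinder s S).indicator (fun _ => (1 : ℝ)) ω := by
    intro ω
    by_cases h1 : ω ∈ cylinder s S
    · rw [Set.indicator_of_mem h1, Set.indicator_of_mem ((hiff ω).2 h1)]
    · rw [Set.indicator_of_notMem h1, Set.indicator_of_notMem (fun h2 => h1 ((hiff ω).1 h2))]
  have h1 := h.integral_le hx (N := N) (by omega) (F := fun η =>
    Φ.indicator (fun _ => (1 : ℝ)) (η ∩ ebox d m) +
      (-C) * Φ.indicator (fun _ => (1 : ℝ)) (η.image (sh (-t)) ∩ ebox d m)) hδ.le (by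
      intro B hB
      rw [Gr.EZ_add, Gr.EZ_mul]
      have := hmain B hB Φ t ht
      linarith)
  have h2 : ∀ ω : Cfg d, Φ.indicator (fun _ => (1 : ℝ)) (pat (ebox d N) ω ∩ ebox d m) +
      (-C) * Φ.indicator (fun _ => (1 : ℝ)) ((pat (ebox d N) ω).image (sh (-t)) ∩ ebox d m)
      = (cylinder s S).indicator (fun _ => (1 : ℝ)) ω +
        (-C) * (th t ⁻¹' cylinder s S).indicator (fun _ => (1 : ℝ)) ω := by
    intro ω
    rw [pat_inter, Finset.inter_eq_right.2 (ebox_mono (by omega)), image_pat_inter hN ht, hind, hind]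
    rfl
  simp only [h2] at h1
  have hEm' := measurable_th t hEm
  rw [integral_add ((integrable_const (1 : ℝ)).indicator hEm)
    (((integrable_const (1 : ℝ)).indicator hEm').const_mul _), integral_const_mul,
    integral_indicator_const _ hEm, integral_indicator_const _ hEm', smul_eq_mul, mul_one,
    smul_eq_mul, mul_one] at h1
  have h3 : C * μ.real (th t ⁻¹' cylinder s S) ≤ max C 0 * μ.real (th t ⁻¹' cylinder s S) :=
    mul_le_mul_of_nonneg_right (le_max_left _ _) measureReal_nonneg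
  linarith

theorem qi_of_fvq {x : ℝ} (hx : 0 ≤ x) (hQ : FVQ d x) : QI d x := by
  intro δ hδ
  obtain ⟨C, hC⟩ := hQ δ hδ
  refine ⟨max C 0, le_max_right _ _, fun μ hμ h t ht E hE => ?_⟩
  set C' := max C 0 with hC'
  have hC'0 : 0 ≤ C' := le_max_right _ _
  refine le_of_forall_pos_le_add fun ε hε => ?_
  set ε' := ε / (C' + 1) with hε'
  have hε'0 : 0 < ε' := by positivity
  obtain ⟨E', hE', hlt⟩ := exists_measure_symmDiff_lt_of_generateFrom_isSetRing
    (μ := μ + μ.map (th t)) (isSetRing_measurableCylinders (α := fun _ : Edg d => Bool))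
    ⟨{Set.univ}, Set.countable_singleton _,
      Set.singleton_subset_iff.2 (univ_mem_measurableCylinders _), by simp⟩
    generateFrom_measurableCylinders.symm hE (ε := ENNReal.ofReal ε') (ENNReal.ofReal_pos.2 hε'0)
  have hE'm : MeasurableSet E' := MeasurableSet.of_mem_measurableCylinders hE'
  have hsd : MeasurableSet (symmDiff E' E) := hE'm.symmDiff hE
  have h1 : μ.real (symmDiff E' E) + μ.real (th t ⁻¹' symmDiff E' E) < ε' := by
    have h2 : (μ + μ.map (th t)).real (symmDiff E' E) < ε' := by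
      rw [Measure.real]
      exact ENNReal.toReal_lt_of_lt_ofReal hlt
    rwa [measureReal_add_apply, map_measureReal_apply (measurable_th t) hsd] at h2
  have h2 := qi_local hx hδ hC h ht hE'
  have h3 : μ.real E ≤ μ.real E' + μ.real (symmDiff E' E) := by
    refine (measureReal_mono ?_).trans (measureReal_union_le _ _)
    intro ω hω
    by_cases h4 : ω ∈ E'
    · exact Or.inl h4
    · exact Or.inr (Or.inr ⟨hω, h4⟩)
  have h4 : μ.real (th t ⁻¹' E') ≤ μ.real (th t ⁻¹' E) + μ.real (th t ⁻¹' symmDiff E' E) := by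
    refine (measureReal_mono ?_).trans (measureReal_union_le _ _)
    intro ω hω
    by_cases h5 : ω ∈ th t ⁻¹' E
    · exact Or.inl h5
    · exact Or.inr (Or.inl ⟨hω, h5⟩)
  have h5 : 0 ≤ μ.real (symmDiff E' E) := measureReal_nonneg
  have h6 : 0 ≤ μ.real (th t ⁻¹' symmDiff E' E) := measureReal_nonneg
  have h7 : C' * μ.real (th t ⁻¹' E') ≤ C' * (μ.real (th t ⁻¹' E) + ε') :=
    mul_le_mul_of_nonneg_left (by linarith) hC'0
  have h8 : C' * ε' + ε' = ε := by
    rw [hε']; field_simp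
  linarith

/-- Tail events are invariant under unit shifts. -/
lemma tail_invariant {x : ℝ} (hQ : QI d x) {μ : Measure (Cfg d)} [IsProbabilityMeasure μ]
    (h : SetDLR d x μ) {t : Vtx d} (ht : nrm t ≤ 1) {T : Set (Cfg d)} (hT : IsTail T) :
    μ (T \ th t ⁻¹' T) = 0 := by
  by_contra hne
  set N := T \ th t ⁻¹' T with hN
  have hNt : IsTail N := hT.diff (hT.th t)
  have hNm := hNt.measurableSet
  obtain ⟨C, hC0, hC⟩ := hQ (1 / 2) (by norm_num)
  have hfin : μ N ≠ ⊤ := measure_ne_top μ N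
  set ν : Measure (Cfg d) := (μ N)⁻¹ • μ.restrict N with hν
  have hνp : IsProbabilityMeasure ν := ⟨by
    rw [hν, Measure.smul_apply, Measure.restrict_apply MeasurableSet.univ, Set.univ_inter,
      smul_eq_mul, ENNReal.inv_mul_cancel hne hfin]⟩
  have hνd : SetDLR d x ν := (h.restrict hNt).smul _
  have h1 := hC ν hνp hνd t ht N hNm
  have h2 : ν N = 1 := by
    rw [hν, Measure.smul_apply, Measure.restrict_apply hNm, Set.inter_self, smul_eq_mul,
      ENNReal.inv_mul_cancel hne hfin]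
  have h3 : ν (th t ⁻¹' N) = 0 := by
    rw [hν, Measure.smul_apply, Measure.restrict_apply (measurable_th t hNm)]
    have h4 : th t ⁻¹' N ∩ N = ∅ := by
      ext ω
      constructor
      · rintro ⟨h5, h6⟩
        exact absurd h5.1 h6.2
      · intro h5
        exact absurd h5 (Set.notMem_empty ω)
    rw [h4, measure_empty, smul_zero]
  rw [Measure.real, Measure.real, h2, h3] at h1
  norm_num at h1

/-- Tail events have the same probability for a Gibbs measure and for its shifts. -/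
lemma tail_measure_eq {x : ℝ} (hQ : QI d x) {μ : Measure (Cfg d)} [IsProbabilityMeasure μ]
    (h : SetDLR d x μ) {t : Vtx d} (ht : nrm t ≤ 1) {T : Set (Cfg d)} (hT : IsTail T) :
    μ (th t ⁻¹' T) = μ T := by
  have h1 := tail_invariant hQ h ht hT
  have ht' : nrm (-t) ≤ 1 := nrm_neg_le ht
  have h2 := tail_invariant hQ h ht' (hT.th t)
  have h3 : th (-t) ⁻¹' (th t ⁻¹' T) = T := by
    ext ω
    show th t (th (-t) ω) ∈ T ↔ _
    rw [th_th, neg_add_cancel, th_zero]
  rw [h3] at h2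
  refine le_antisymm ?_ ?_
  · rw [← add_zero (μ T), ← h2]
    refine (measure_mono ?_).trans (measure_union_le _ _)
    intro ω hω
    by_cases h4 : ω ∈ T
    · exact Or.inl h4
    · exact Or.inr ⟨hω, h4⟩
  · rw [← add_zero (μ (th t ⁻¹' T)), ← h1]
    refine (measure_mono ?_).trans (measure_union_le _ _)
    intro ω hω
    by_cases h4 : ω ∈ th t ⁻¹' T
    · exact Or.inl h4
    · exact Or.inr ⟨hω, h4⟩

end Pool.Agent.LoopO1
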