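import Pool.Agent.LoopO1_f0ab88.MeasBase

/-!
# Gibbs measures: shifts
-/

open Finset MeasureTheory

set_option linter.unusedSectionVars false
set_option linter.unusedVariables false

namespace Pool.Agent.LoopO1

variable {d : ℕ}

/-- The shift of configurations. -/
def th (t : Vtx d) (ω : Cfg d) : Cfg d := fun e => ω (sh t e)

lemma measurable_th (t : Vtx d) : Measurable (th t) :=
  measurable_pi_lambda _ fun e => measurable_pi_apply _

lemma th_th (s t : Vtx d) (ω : Cfg d) : th s (th t ω) = th (t + s) ω := by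
  funext e
  show ω (sh t (sh s e)) = ω (sh (t + s) e)
  congr 1
  show (e.1 + s + t, e.2) = (e.1 + (t + s), e.2)
  rw [add_assoc, add_comm s t]

lemma th_zero (ω : Cfg d) : th 0 ω = ω := by
  funext e
  show ω (sh 0 e) = ω e
  congr 1
  show (e.1 + 0, e.2) = e
  rw [add_zero]

lemma isEnd_sh {t v : Vtx d} {e : Edg d} : IsEnd (v + t) (sh t e) ↔ IsEnd v e := by
  unfold IsEnd sh
  have h1 : (e.1 + t, e.2).1 + (Pi.single (e.1 + t, e.2).2 1 : Vtx d) = (e.1 + Pi.single e.2 1) + t := by
    show e.1 + t + Pi.single e.2 1 = _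
    abel
  rw [h1]
  show v + t = e.1 + t ∨ v + t = (e.1 + Pi.single e.2 1) + t ↔ _
  rw [add_left_inj, add_left_inj]

lemma pat_image (t : Vtx d) (P : Finset (Edg d)) (ω : Cfg d) :
    pat (P.image (sh t)) ω = (pat P (th t ω)).image (sh t) := by
  ext e
  rw [mem_pat, mem_image_sh, mem_image_sh, mem_pat]
  show _ ↔ _ ∧ ω (sh t (sh (-t) e)) = true
  rw [sh_neg']

lemma edg_image (t : Vtx d) (W : Finset (Vtx d)) (D : Finset (Edg d)) :
    edg (W.image (· + t)) \ D.image (sh t) = (edg W \ D).image (sh t) := by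
  ext e
  rw [Finset.mem_sdiff, mem_image_sh, mem_image_sh, Finset.mem_sdiff, mem_edg, mem_edg]
  refine and_congr_left fun _ => ?_
  constructor
  · rintro ⟨v, hv, hi⟩
    obtain ⟨w, hw, rfl⟩ := Finset.mem_image.1 hv
    refine ⟨w, hw, ?_⟩
    rw [← isEnd_sh (t := t), sh_neg']
    exact hi
  · rintro ⟨v, hv, hi⟩
    refine ⟨v + t, Finset.mem_image_of_mem _ hv, ?_⟩
    rw [← isEnd_sh (t := t), sh_neg'] at hi
    exact hi

lemma srcs_image (t : Vtx d) (W : Finset (Vtx d)) (η : Finset (Edg d)) :
    srcs (W.image (· + t)) (η.image (sh t)) = (srcs W η).image (· + t) := by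
  have key : ∀ v : Vtx d, ((η.image (sh t)).filter fun e => IsEnd (v + t) e).card
      = (η.filter fun e => IsEnd v e).card := by
    intro v
    have h1 : (η.image (sh t)).filter (fun e => IsEnd (v + t) e)
        = (η.filter fun e => IsEnd v e).image (sh t) := by
      ext e
      rw [Finset.mem_filter, mem_image_sh, mem_image_sh, Finset.mem_filter]
      rw [← isEnd_sh (t := t) (v := v) (e := sh (-t) e), sh_neg']
    rw [h1, Finset.card_image_of_injective _ (sh_inj t)]
  ext u
  unfold srcs
  rw [Finset.mem_filter, Finset.mem_image, Finset.mem_image]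
  constructor
  · rintro ⟨⟨v, hv, rfl⟩, ho⟩
    refine ⟨v, Finset.mem_filter.2 ⟨hv, ?_⟩, rfl⟩
    rw [← key]; exact ho
  · rintro ⟨v, hv, rfl⟩
    rw [Finset.mem_filter] at hv
    refine ⟨⟨v, hv.1, rfl⟩, ?_⟩
    show Odd ((η.image (sh t)).filter fun e => IsEnd (v + t) e).card
    rw [key]; exact hv.2

lemma bsrc_image (t : Vtx d) (W : Finset (Vtx d)) (D : Finset (Edg d)) (ω : Cfg d) :
    bsrc (W.image (· + t)) (D.image (sh t)) ω = (bsrc W D (th t ω)).image (· + t) := by
  rw [bsrc_eq, bsrc_eq, edg_image, pat_image, srcs_image]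

lemma add_right_image_inj (t : Vtx d) {A B : Finset (Vtx d)} :
    A.image (· + t) = B.image (· + t) ↔ A = B :=
  (Finset.image_injective (add_left_injective t)).eq_iff

lemma loopZ_image (x : ℝ) (t : Vtx d) (W : Finset (Vtx d)) (D : Finset (Edg d))
    (B : Finset (Vtx d)) :
    loopZ x (W.image (· + t)) (D.image (sh t)) (B.image (· + t)) = loopZ x W D B := by
  unfold loopZ
  symm
  refine Finset.sum_nbij' (fun η => η.image (sh t)) (fun η => η.image (sh (-t))) ?_ ?_ ?_ ?_ ?_
  · intro η hη
    rw [Finset.mem_filter, Finset.mem_powerset] at hη ⊢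
    refine ⟨Finset.image_subset_image hη.1, ?_⟩
    rw [srcs_image, add_right_image_inj]
    exact hη.2
  · intro η hη
    rw [Finset.mem_filter, Finset.mem_powerset] at hη ⊢
    have h1 := Finset.image_subset_image (f := sh (-t)) hη.1
    rw [image_sh_neg] at h1
    refine ⟨h1, ?_⟩
    rw [← add_right_image_inj t, ← srcs_image, image_sh_neg']
    exact hη.2
  · intro η _; exact image_sh_neg t η
  · intro η _; exact image_sh_neg' t η
  · intro η _
    rw [Finset.card_image_of_injective _ (sh_inj t)]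

lemma loopP_image (x : ℝ) (t : Vtx d) (W : Finset (Vtx d)) (D : Finset (Edg d))
    (B : Finset (Vtx d)) (η : Finset (Edg d)) :
    loopP x (W.image (· + t)) (D.image (sh t)) (B.image (· + t)) (η.image (sh t))
      = loopP x W D B η := by
  unfold loopP
  rw [loopZ_image, srcs_image, Finset.card_image_of_injective _ (sh_inj t)]
  simp only [add_right_image_inj]

lemma cyl_image (t : Vtx d) (D η : Finset (Edg d)) :
    th t ⁻¹' cyl D η = cyl (D.image (sh t)) (η.image (sh t)) := by
  ext ω
  show (∀ e ∈ D, ω (sh t e) = true ↔ e ∈ η) ↔ ∀ e ∈ D.image (sh t), ω e = true ↔ e ∈ η.image (sh t)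
  constructor
  · intro h e he
    obtain ⟨e', he', rfl⟩ := Finset.mem_image.1 he
    rw [h e' he', mem_image_sh, sh_neg]
  · intro h e he
    rw [h _ (Finset.mem_image_of_mem _ he), mem_image_sh, sh_neg]

lemma measurableSet_th {t : Vtx d} {D : Finset (Edg d)} {A : Set (Cfg d)}
    (hA : MeasurableSet[outsideσ D] A) :
    MeasurableSet[outsideσ (D.image (sh t))] (th t ⁻¹' A) := by
  obtain ⟨A₀, hA₀, rfl⟩ := hA
  have hg : Measurable (fun (f : {e : Edg d // e ∉ D.image (sh t)} → Bool)
      (e : {e : Edg d // e ∉ D}) => f ⟨sh t e.1, fun h' => e.2 (by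
        rw [mem_image_sh, sh_neg] at h'; exact h')⟩) :=
    measurable_pi_lambda _ fun e => measurable_pi_apply _
  exact ⟨_, hg hA₀, rfl⟩

/-- Shifts of Gibbs measures. -/
lemma SetDLR.map {x : ℝ} {μ : Measure (Cfg d)} (h : SetDLR d x μ) (t : Vtx d) :
    SetDLR d x (μ.map (th t)) := by
  intro W D hWD η hη A hA
  have hA' : MeasurableSet A := outsideσ_le D _ hA
  have hWD' : ∀ e ∈ D.image (sh t), ∀ v, IsEnd v e → v ∈ W.image (· + t) := by
    intro e he v hv
    rw [mem_image_sh] at he
    have h1 : IsEnd (v - t) (sh (-t) e) := by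
      rw [← isEnd_sh (t := t), sub_add_cancel, sh_neg']
      exact hv
    exact Finset.mem_image.2 ⟨v - t, hWD _ he _ h1, sub_add_cancel _ _⟩
  have h1 := h (W.image (· + t)) (D.image (sh t)) hWD' (η.image (sh t))
    (Finset.image_subset_image hη) (th t ⁻¹' A) (measurableSet_th hA)
  rw [setIntegral_map hA' ((measurable_loopP x W D η).mono (outsideσ_le D) le_rfl).aestronglyMeasurable
    (measurable_th t).aemeasurable,
    map_measureReal_apply (measurable_th t) ((measurableSet_cyl D η).inter hA')]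
  rw [Set.preimage_inter, cyl_image, ← h1]
  refine integral_congr_ae (Filter.Eventually.of_forall fun ω => ?_)
  beta_reduce
  rw [bsrc_image, loopP_image]

lemma IsTail.th {T : Set (Cfg d)} (hT : IsTail T) (t : Vtx d) : IsTail (th t ⁻¹' T) := by
  intro D
  have h1 := measurableSet_th (t := t) (hT (D.image (sh (-t))))
  rwa [image_sh_neg'] at h1

lemma IsTail.measurableSet {T : Set (Cfg d)} (hT : IsTail T) : MeasurableSet T :=
  outsideσ_le ∅ _ (hT ∅)

lemma IsTail.diff {T T' : Set (Cfg d)} (hT : IsTail T) (hT' : IsTail T') : IsTail (T \ T') :=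
  fun D => (hT D).diff (hT' D)

end Pool.Agent.LoopO1
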