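import Pool.Agent.LoopO1_f0ab88.MeasQuasi

/-!
# Gibbs measures are determined by their values on the tail
-/

open Finset MeasureTheory

set_option linter.unusedSectionVars false
set_option linter.unusedVariables false

namespace Pool.Agent.LoopO1

variable {d : ℕ}

lemma SetDLR.condExp_cyl {x : ℝ} (hx : 0 ≤ x) {μ : Measure (Cfg d)} [IsFiniteMeasure μ]
    (h : SetDLR d x μ) {W : Finset (Vtx d)} {D : Finset (Edg d)}
    (hWD : ∀ e ∈ D, ∀ v, IsEnd v e → v ∈ W) {η : Finset (Edg d)} (hη : η ⊆ D) :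
    μ[(cyl D η).indicator (fun _ => (1 : ℝ)) | outsideσ D]
      =ᵐ[μ] fun ω => loopP x W D (bsrc W D ω) η := by
  have hcyl := measurableSet_cyl D η
  have hint : Integrable ((cyl D η).indicator (fun _ => (1 : ℝ))) μ :=
    (integrable_const (1 : ℝ)).indicator hcyl
  symm
  refine ae_eq_condExp_of_forall_setIntegral_eq (outsideσ_le D) hint
    (fun s _ _ => (integrable_loopP hx W hη μ).integrableOn) ?_
    (measurable_loopP x W D η).aestronglyMeasurable
  intro s hs _
  rw [h W D hWD η hη s hs, setIntegral_indicator hcyl, setIntegral_const, smul_eq_mul, mul_one,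
    Set.inter_comm]

lemma SetDLR.setIntegral_condExp' {x : ℝ} (hx : 0 ≤ x) {μ : Measure (Cfg d)} [IsFiniteMeasure μ]
    (h : SetDLR d x μ) {W : Finset (Vtx d)} {D : Finset (Edg d)}
    (hWD : ∀ e ∈ D, ∀ v, IsEnd v e → v ∈ W) {η : Finset (Edg d)} (hη : η ⊆ D)
    {f : Cfg d → ℝ} (hf : Integrable f μ) {A : Set (Cfg d)} (hA : MeasurableSet[outsideσ D] A) :
    ∫ ω in A ∩ cyl D η, (μ[f | outsideσ D]) ω ∂μ =
      ∫ ω in A, loopP x W D (bsrc W D ω) η * f ω ∂μ := by
  have hm := outsideσ_le (d := d) D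
  have hcyl := measurableSet_cyl D η
  set k : Cfg d → ℝ := fun ω => loopP x W D (bsrc W D ω) η with hk
  set G : Cfg d → ℝ := μ[f | outsideσ D] with hG
  have hGm : StronglyMeasurable[outsideσ D] G := stronglyMeasurable_condExp
  have hGi : Integrable G μ := integrable_condExp
  have hkm : StronglyMeasurable[outsideσ D] k := (measurable_loopP x W D η).stronglyMeasurable
  have hkb : ∀ ω, ‖k ω‖ ≤ 1 := fun ω => by
    rw [Real.norm_of_nonneg (loopP_nonneg hx _ _ _ _)]
    exact loopP_le_one hx _ _ hη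
  set c : Cfg d → ℝ := (cyl D η).indicator (fun _ => (1 : ℝ)) with hc
  have hci : Integrable c μ := (integrable_const (1 : ℝ)).indicator hcyl
  have hcG : c * G = (cyl D η).indicator G := by
    funext ω
    rw [Pi.mul_apply, hc]
    by_cases hω : ω ∈ cyl D η
    · rw [Set.indicator_of_mem hω, Set.indicator_of_mem hω, one_mul]
    · rw [Set.indicator_of_notMem hω, Set.indicator_of_notMem hω, zero_mul]
  have hcGi : Integrable (c * G) μ := by rw [hcG]; exact hGi.indicator hcyl
  have hkf : Integrable (k * f) μ :=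
    hf.bdd_mul (hkm.mono hm).aestronglyMeasurable (Filter.Eventually.of_forall hkb)
  have e1 : ∫ ω in A ∩ cyl D η, G ω ∂μ = ∫ ω in A, (c * G) ω ∂μ := by
    rw [hcG, setIntegral_indicator hcyl]
  have e2 : μ[c * G | outsideσ D] =ᵐ[μ] k * G := by
    refine (condExp_mul_of_stronglyMeasurable_right hGm hcGi hci).trans ?_
    filter_upwards [h.condExp_cyl hx hWD hη] with ω hω
    rw [Pi.mul_apply, Pi.mul_apply, hω]
  have e3 : μ[k * f | outsideσ D] =ᵐ[μ] k * G :=
    condExp_mul_of_stronglyMeasurable_left hkm hkf hf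
  rw [e1, ← setIntegral_condExp hm hcGi hA, show (∫ ω in A, loopP x W D (bsrc W D ω) η * f ω ∂μ)
    = ∫ ω in A, (k * f) ω ∂μ from rfl, ← setIntegral_condExp hm hkf hA]
  exact setIntegral_congr_ae (hm _ hA) ((e2.trans e3.symm).mono fun ω hω _ => hω)

/-- Put `η` on `D`. -/
def ov (D η : Finset (Edg d)) (ω : Cfg d) : Cfg d := fun e => if e ∈ D then decide (e ∈ η) else ω e

lemma ov_eq {D η : Finset (Edg d)} {ω : Cfg d} (h : ω ∈ cyl D η) : ov D η ω = ω := by
  funext e
  unfold ov
  split_ifs with he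
  · have h1 := h e he
    by_cases h2 : e ∈ η
    · rw [h1.2 h2, decide_eq_true_eq]; exact h2
    · have h3 : ω e = false := by
        by_contra h4
        exact h2 (h1.1 (by simpa using h4))
      rw [h3, decide_eq_false_iff_not]; exact h2
  · rfl

lemma measurableSet_ov {D : Finset (Edg d)} (η : Finset (Edg d)) {s : Set (Cfg d)}
    (hs : MeasurableSet s) : MeasurableSet[outsideσ D] (ov D η ⁻¹' s) := by
  have hg : Measurable (fun (f : {e : Edg d // e ∉ D} → Bool) (e : Edg d) =>
      if h : e ∈ D then decide (e ∈ η) else f ⟨e, h⟩) := by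
    refine measurable_pi_lambda _ fun e => ?_
    by_cases h : e ∈ D
    · simp only [dif_pos h]; exact measurable_const
    · simp only [dif_neg h]; exact measurable_pi_apply _
  refine ⟨_, hg hs, ?_⟩
  ext ω
  show (fun e : Edg d => if h : e ∈ D then decide (e ∈ η) else ω e) ∈ s ↔ ov D η ω ∈ s
  have : (fun e : Edg d => if h : e ∈ D then decide (e ∈ η) else ω e) = ov D η ω := by
    funext e
    unfold ov
    split_ifs <;> rfl
  rw [this]

lemma inter_cyl_eq (D η : Finset (Edg d)) (s : Set (Cfg d)) :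
    s ∩ cyl D η = (ov D η ⁻¹' s) ∩ cyl D η := by
  ext ω
  constructor
  · rintro ⟨h1, h2⟩
    refine ⟨?_, h2⟩
    show ov D η ω ∈ s
    rw [ov_eq h2]; exact h1
  · rintro ⟨h1, h2⟩
    refine ⟨?_, h2⟩
    have h3 : ov D η ω ∈ s := h1
    rwa [ov_eq h2] at h3

lemma setIntegral_split {μ : Measure (Cfg d)} [IsFiniteMeasure μ] (D : Finset (Edg d))
    {s : Set (Cfg d)} (hs : MeasurableSet s) {g : Cfg d → ℝ} (hg : Integrable g μ) :
    ∫ ω in s, g ω ∂μ = ∑ η ∈ D.powerset, ∫ ω in s ∩ cyl D η, g ω ∂μ := by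
  rw [← integral_biUnion_finset D.powerset (fun η _ => hs.inter (measurableSet_cyl D η)) ?_
    (fun η _ => hg.integrableOn)]
  · congr 2
    ext ω
    simp only [Set.mem_iUnion, Set.mem_inter_iff, exists_prop, Finset.mem_powerset]
    constructor
    · intro h
      exact ⟨pat D ω, pat_subset D ω, h, (mem_cyl_iff (pat_subset D ω)).2 rfl⟩
    · rintro ⟨η, -, h, -⟩
      exact h
  · intro η hη ζ hζ hne
    rw [Function.onFun, Set.disjoint_left]
    rintro ω ⟨-, h1⟩ ⟨-, h2⟩
    rw [mem_cyl_iff (Finset.mem_powerset.1 (Finset.mem_coe.1 hη))] at h1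
    rw [mem_cyl_iff (Finset.mem_powerset.1 (Finset.mem_coe.1 hζ))] at h2
    exact hne (h1.symm.trans h2)

/-- The density of a Gibbs measure with respect to another one is measurable outside each finite
set. -/
lemma density_outside {x : ℝ} (hx : 0 ≤ x) {μ ν : Measure (Cfg d)} [IsFiniteMeasure μ]
    [IsFiniteMeasure ν] (hμ : SetDLR d x μ) (hν : SetDLR d x ν) (hac : μ ≪ ν)
    {W : Finset (Vtx d)} {D : Finset (Edg d)} (hWD : ∀ e ∈ D, ∀ v, IsEnd v e → v ∈ W) :
    ν[fun ω => (μ.rnDeriv ν ω).toReal | outsideσ D] =ᵐ[ν] fun ω => (μ.rnDeriv ν ω).toReal := by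
  have hm := outsideσ_le (d := d) D
  have hfi : Integrable (fun ω => (μ.rnDeriv ν ω).toReal) ν := Measure.integrable_toReal_rnDeriv
  have hleb : μ.HaveLebesgueDecomposition ν := Measure.haveLebesgueDecomposition_of_sigmaFinite μ ν
  refine Integrable.ae_eq_of_forall_setIntegral_eq _ _ integrable_condExp hfi ?_
  intro s hs _
  rw [setIntegral_split D hs integrable_condExp, setIntegral_split D hs hfi]
  refine Finset.sum_congr rfl fun η hη => ?_
  have hηD := Finset.mem_powerset.1 hη
  have hA := measurableSet_ov (D := D) η hs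
  rw [inter_cyl_eq, hν.setIntegral_condExp' hx hWD hηD hfi hA,
    Measure.setIntegral_toReal_rnDeriv hac]
  have h1 : ∫ ω in ov D η ⁻¹' s, loopP x W D (bsrc W D ω) η * (μ.rnDeriv ν ω).toReal ∂ν
      = ∫ ω in ov D η ⁻¹' s, loopP x W D (bsrc W D ω) η ∂μ := by
    rw [← setIntegral_toReal_rnDeriv_mul hac (hm _ hA)]
    refine integral_congr_ae (Filter.Eventually.of_forall fun ω => ?_)
    exact mul_comm _ _
  rw [h1, hμ W D hWD η hηD _ hA, Set.inter_comm]

/-- **Gibbs measures that agree on the tail are equal.** -/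
theorem eq_of_tail {x : ℝ} (hx : 0 ≤ x) {μ ν : Measure (Cfg d)} [IsProbabilityMeasure μ]
    [IsProbabilityMeasure ν] (hμ : SetDLR d x μ) (hν : SetDLR d x ν)
    (hT : ∀ T, IsTail T → μ T = ν T) : μ = ν := by
  set lam : Measure (Cfg d) := μ + ν with hlam
  have hlamD : SetDLR d x lam := hμ.add hx hν
  have hac : μ ≪ lam := Measure.absolutelyContinuous_of_le (Measure.le_add_right le_rfl)
  set f : Cfg d → ℝ := fun ω => (μ.rnDeriv lam ω).toReal with hf
  have hfi : Integrable f lam := Measure.integrable_toReal_rnDeriv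
  set F : ℕ → Cfg d → ℝ := fun n => lam[f | outsideσ (ebox d n)] with hF
  have hFf : ∀ n, F n =ᵐ[lam] f := fun n =>
    density_outside hx hμ hlamD hac (W := box d n) (D := ebox d n) ebox_ends
  set T : Set (Cfg d) := ⋃ k : ℕ, ⋂ n : ℕ, {ω | 1 / 2 < F (n + k) ω} with hTdef
  have hFm : ∀ n, StronglyMeasurable[outsideσ (ebox d n)] (F n) := fun n =>
    stronglyMeasurable_condExp
  have hset : ∀ n, MeasurableSet[outsideσ (ebox d n)] {ω | 1 / 2 < F n ω} := fun n =>
    (hFm n).measurable measurableSet_Ioi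
  have hTtail : IsTail T := by
    intro D
    obtain ⟨N, hN⟩ := exists_ebox D
    have h1 : T = ⋃ k : ℕ, ⋂ n : ℕ, {ω | 1 / 2 < F (n + (k + N)) ω} := by
      ext ω
      simp only [hTdef, Set.mem_iUnion, Set.mem_iInter]
      constructor
      · rintro ⟨k, hk⟩
        refine ⟨k, fun n => ?_⟩
        have := hk (n + N)
        have e : n + N + k = n + (k + N) := by ring
        rwa [e] at this
      · rintro ⟨k, hk⟩
        exact ⟨k + N, hk⟩
    rw [h1]
    refine MeasurableSet.iUnion fun k => MeasurableSet.iInter fun n => ?_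
    exact outsideσ_anti (hN.trans (ebox_mono (by omega))) _ (hset (n + (k + N)))
  have hTm := hTtail.measurableSet
  -- `T` is `{f > 1/2}` up to a null set
  have hTae : ∀ᵐ ω ∂lam, ω ∈ T ↔ 1 / 2 < f ω := by
    have h1 : ∀ᵐ ω ∂lam, ∀ n, F n ω = f ω := ae_all_iff.2 hFf
    filter_upwards [h1] with ω hω
    simp only [hTdef, Set.mem_iUnion, Set.mem_iInter]
    constructor
    · rintro ⟨k, hk⟩
      have h2 : 1 / 2 < F (0 + k) ω := hk 0
      rwa [hω] at h2
    · intro h2
      refine ⟨0, fun n => ?_⟩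
      show 1 / 2 < F (n + 0) ω
      rw [hω]; exact h2
  have hμf : ∀ s, μ.real s = ∫ ω in s, f ω ∂lam := fun s =>
    (Measure.setIntegral_toReal_rnDeriv hac s).symm
  have hlamreal : ∀ s, lam.real s = μ.real s + ν.real s := fun s => by
    rw [hlam, measureReal_add_apply]
  -- the integral of `2 f - 1`
  have hint : ∀ s, MeasurableSet s → ∫ ω in s, (2 * f ω - 1) ∂lam = μ.real s - ν.real s := by
    intro s hs
    rw [integral_sub (hfi.const_mul 2).integrableOn (integrable_const (1 : ℝ)).integrableOn,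
      integral_const_mul, ← hμf s, setIntegral_const, smul_eq_mul, mul_one, hlamreal]
    ring
  have hgi : Integrable (fun ω => 2 * f ω - 1) lam := (hfi.const_mul 2).sub (integrable_const 1)
  have hTzero : ∫ ω in T, (2 * f ω - 1) ∂lam = 0 := by
    rw [hint T hTm]
    have := hT T hTtail
    rw [Measure.real, Measure.real, this, sub_self]
  have hTnull : ∀ᵐ ω ∂lam, ¬ (1 / 2 < f ω) := by
    have h1 : 0 ≤ᵐ[lam.restrict T] fun ω => 2 * f ω - 1 := by
      rw [Filter.EventuallyLE, ae_restrict_iff' hTm]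
      filter_upwards [hTae] with ω hω hωT
      have := hω.1 hωT
      show (0 : ℝ) ≤ 2 * f ω - 1
      linarith
    have h2 := (integral_eq_zero_iff_of_nonneg_ae h1 hgi.integrableOn).1 hTzero
    rw [Filter.EventuallyEq, ae_restrict_iff' hTm] at h2
    filter_upwards [hTae, h2] with ω hω h3 h4
    have h5 := h3 (hω.2 h4)
    have h6 : 2 * f ω - 1 = 0 := h5
    linarith
  have hhalf : ∀ᵐ ω ∂lam, f ω = 1 / 2 := by
    have h1 : 0 ≤ᵐ[lam] fun ω => -(2 * f ω - 1) := by
      filter_upwards [hTnull] with ω hω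
      show (0 : ℝ) ≤ -(2 * f ω - 1)
      linarith [not_lt.1 hω]
    have h2 : ∫ ω, -(2 * f ω - 1) ∂lam = 0 := by
      rw [integral_neg]
      have h3 := hint Set.univ MeasurableSet.univ
      rw [Measure.restrict_univ] at h3
      rw [h3, probReal_univ, probReal_univ]
      ring
    have h4 := (integral_eq_zero_iff_of_nonneg_ae h1 hgi.neg).1 h2
    filter_upwards [h4] with ω hω
    have h5 : -(2 * f ω - 1) = 0 := hω
    linarith
  refine Measure.ext fun s hs => ?_
  have h1 : μ.real s = (1 / 2) * lam.real s := by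
    rw [hμf s, setIntegral_congr_ae (g := fun _ => (1 / 2 : ℝ)) hs (hhalf.mono fun ω hω _ => hω),
      setIntegral_const, smul_eq_mul, mul_comm]
  rw [hlamreal] at h1
  have h2 : μ.real s = ν.real s := by linarith
  exact (measureReal_eq_measureReal_iff).1 h2

end Pool.Agent.LoopO1
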