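import Pool.Agent.LoopO1_f0ab88.MeasTail

/-!
# Uniqueness of the Gibbs measure
-/

open Finset MeasureTheory

set_option linter.unusedSectionVars false
set_option linter.unusedVariables false

namespace Pool.Agent.LoopO1

variable {d : ℕ}

lemma invariant_unit {x : ℝ} (hx : 0 ≤ x) (hQ : QI d x) {μ : Measure (Cfg d)}
    [IsProbabilityMeasure μ] (h : SetDLR d x μ) {t : Vtx d} (ht : nrm t ≤ 1) :
    μ.map (th t) = μ := by
  have hp : IsProbabilityMeasure (μ.map (th t)) :=
    Measure.isProbabilityMeasure_map (measurable_th t).aemeasurable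
  refine eq_of_tail hx (h.map t) h fun T hT => ?_
  rw [Measure.map_apply (measurable_th t) hT.measurableSet]
  exact tail_measure_eq hQ h ht hT

lemma map_th_add (μ : Measure (Cfg d)) (a b : Vtx d) :
    μ.map (th (a + b)) = (μ.map (th a)).map (th b) := by
  rw [Measure.map_map (measurable_th b) (measurable_th a)]
  congr 1
  funext ω
  exact (th_th b a ω).symm

lemma map_th_zero (μ : Measure (Cfg d)) : μ.map (th 0) = μ := by
  have : (th (0 : Vtx d)) = id := by funext ω; exact th_zero ω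
  rw [this, Measure.map_id]

/-- The shifts leaving `μ` invariant. -/
def invGrp (μ : Measure (Cfg d)) : AddSubgroup (Vtx d) where
  carrier := {t | μ.map (th t) = μ}
  zero_mem' := map_th_zero μ
  add_mem' := by
    intro a b ha hb
    show μ.map (th (a + b)) = μ
    rw [map_th_add]
    have ha' : μ.map (th a) = μ := ha
    have hb' : μ.map (th b) = μ := hb
    rw [ha', hb']
  neg_mem' := by
    intro a ha
    show μ.map (th (-a)) = μ
    have ha' : μ.map (th a) = μ := ha
    conv_lhs => rw [← ha']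
    rw [← map_th_add, add_neg_cancel, map_th_zero]

lemma invariant_all {x : ℝ} (hx : 0 ≤ x) (hQ : QI d x) {μ : Measure (Cfg d)}
    [IsProbabilityMeasure μ] (h : SetDLR d x μ) (t : Vtx d) : μ.map (th t) = μ := by
  have h1 : t ∈ invGrp μ := by
    have h2 : t = ∑ i, t i • (Pi.single i (1 : ℤ) : Vtx d) := by
      funext j
      rw [Finset.sum_apply]
      simp [Pi.single_apply]
    rw [h2]
    refine AddSubgroup.sum_mem _ fun i _ => AddSubgroup.zsmul_mem _ ?_ _
    show μ.map (th (Pi.single i (1 : ℤ) : Vtx d)) = μ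
    exact invariant_unit hx hQ h (by rw [nrm_single]; decide)
  exact h1

lemma real_cyl_shift {μ : Measure (Cfg d)} (t : Vtx d) (hinv : μ.map (th t) = μ)
    (F ζ : Finset (Edg d)) :
    μ.real (cyl (F.image (sh t)) (ζ.image (sh t))) = μ.real (cyl F ζ) := by
  rw [← cyl_image, ← map_measureReal_apply (measurable_th t) (measurableSet_cyl F ζ), hinv]

lemma sum_real_cyl {μ : Measure (Cfg d)} [IsProbabilityMeasure μ] (F : Finset (Edg d))
    (P : Finset (Finset (Edg d))) (hP : P ⊆ F.powerset) :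
    μ.real {ω | pat F ω ∈ P} = ∑ ζ ∈ P, μ.real (cyl F ζ) := by
  have h1 : {ω : Cfg d | pat F ω ∈ P} = ⋃ ζ ∈ P, cyl F ζ := by
    ext ω
    simp only [Set.mem_ofPred_eq, Set.mem_iUnion, exists_prop]
    constructor
    · intro h
      exact ⟨pat F ω, h, (mem_cyl_iff (pat_subset F ω)).2 rfl⟩
    · rintro ⟨ζ, hζ, h⟩
      rw [mem_cyl_iff (Finset.mem_powerset.1 (hP hζ))] at h
      rw [h]; exact hζ
  rw [h1, measureReal_biUnion_finset ?_ fun ζ _ => measurableSet_cyl F ζ]
  intro η hη ζ hζ hne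
  rw [Function.onFun, Set.disjoint_left]
  intro ω h1 h2
  rw [mem_cyl_iff (Finset.mem_powerset.1 (hP (Finset.mem_coe.1 hη)))] at h1
  rw [mem_cyl_iff (Finset.mem_powerset.1 (hP (Finset.mem_coe.1 hζ)))] at h2
  exact hne (h1.symm.trans h2)

lemma real_cyl_le {x : ℝ} (hx : 0 ≤ x) {p : Finset (Edg d) → Finset (Edg d) → ℝ}
    (hp : ∀ (F ζ : Finset (Edg d)), ζ ⊆ F → ∀ ε : ℝ, 0 < ε → ∃ (N : ℕ) (T : Finset (Vtx d)),
      0 < N ∧ T.Nonempty ∧ (∀ t ∈ T, F.image (sh t) ⊆ ebox d N) ∧
      ∀ B : Vtx d → ZMod 2, BdSrc d N B →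
        ∑ t ∈ T, (lat d).EZ x (ebox d N) B
            (fun η => if η ∩ F.image (sh t) = ζ.image (sh t) then (1 : ℝ) else 0) ≤
          T.card * (p F ζ + ε) * (lat d).Zp x (ebox d N) B)
    {μ : Measure (Cfg d)} [IsProbabilityMeasure μ] (h : SetDLR d x μ)
    (hinv : ∀ t, μ.map (th t) = μ) {F ζ : Finset (Edg d)} (hζ : ζ ⊆ F) :
    μ.real (cyl F ζ) ≤ p F ζ := by
  refine le_of_forall_pos_le_add fun ε hε => ?_
  obtain ⟨N, T, hN, hT, hTF, hmain⟩ := hp F ζ hζ ε hε
  have hTc : (0 : ℝ) < T.card := by exact_mod_cast Finset.card_pos.2 hT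
  have hδ : 0 ≤ T.card * (p F ζ + ε) := by
    have h1 := hmain 0 (fun v hv => absurd rfl hv)
    have h2 : 0 ≤ ∑ t ∈ T, (lat d).EZ x (ebox d N) 0
        (fun η => if η ∩ F.image (sh t) = ζ.image (sh t) then (1 : ℝ) else 0) := by
      refine Finset.sum_nonneg fun t _ => Gr.EZ_nonneg hx _ _ fun η _ => ?_
      split_ifs <;> norm_num
    have h3 := Z_zero_pos (b := (lat d).bd) hx (ebox d N)
    exact nonneg_of_mul_nonneg_left (h2.trans h1) h3
  have h1 := h.integral_le hx hN (F := fun η => ∑ t ∈ T,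
    if η ∩ F.image (sh t) = ζ.image (sh t) then (1 : ℝ) else 0) hδ (by
      intro B hB
      rw [Gr.EZ_sum]
      exact hmain B hB)
  have h2 : ∀ t ∈ T, ∀ ω : Cfg d, (if pat (ebox d N) ω ∩ F.image (sh t) = ζ.image (sh t)
      then (1 : ℝ) else 0) = (cyl (F.image (sh t)) (ζ.image (sh t))).indicator (fun _ => (1 : ℝ)) ω := by
    intro t ht ω
    rw [pat_inter, Finset.inter_eq_right.2 (hTF t ht)]
    have h3 := mem_cyl_iff (D := F.image (sh t)) (Finset.image_subset_image (f := sh t) hζ) (ω := ω)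
    by_cases h4 : pat (F.image (sh t)) ω = ζ.image (sh t)
    · rw [if_pos h4, Set.indicator_of_mem (h3.2 h4)]
    · rw [if_neg h4, Set.indicator_of_notMem (fun h5 => h4 (h3.1 h5))]
  have h3 : ∫ ω, ∑ t ∈ T, (if pat (ebox d N) ω ∩ F.image (sh t) = ζ.image (sh t)
      then (1 : ℝ) else 0) ∂μ = T.card * μ.real (cyl F ζ) := by
    have h4 : ∀ ω : Cfg d, ∑ t ∈ T, (if pat (ebox d N) ω ∩ F.image (sh t) = ζ.image (sh t)
      then (1 : ℝ) else 0) = ∑ t ∈ T,
        (cyl (F.image (sh t)) (ζ.image (sh t))).indicator (fun _ => (1 : ℝ)) ω :=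
      fun ω => Finset.sum_congr rfl fun t ht => h2 t ht ω
    simp only [h4]
    rw [integral_finsetSum _ fun t _ => (integrable_const (1 : ℝ)).indicator (measurableSet_cyl _ _)]
    have h5 : ∀ t ∈ T, ∫ ω, (cyl (F.image (sh t)) (ζ.image (sh t))).indicator
        (fun _ => (1 : ℝ)) ω ∂μ = μ.real (cyl F ζ) := by
      intro t _
      rw [integral_indicator_const _ (measurableSet_cyl _ _), smul_eq_mul, mul_one,
        real_cyl_shift t (hinv t)]
    rw [Finset.sum_congr rfl h5, Finset.sum_const, nsmul_eq_mul]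
  rw [h3] at h1
  exact le_of_mul_le_mul_left h1 hTc

/-- **Uniqueness.** -/
theorem gibbs_unique {x : ℝ} (hx : 0 ≤ x) (hQ : FVQ d x) (hD : FVD d x) {μ ν : Measure (Cfg d)}
    (hμ : IsGibbs d x μ) (hν : IsGibbs d x ν) : μ = ν := by
  classical
  have hQI := qi_of_fvq hx hQ
  obtain ⟨p, hp1, hp⟩ := hD
  have key : ∀ μ : Measure (Cfg d), IsGibbs d x μ → ∀ F ζ : Finset (Edg d), ζ ⊆ F →
      μ.real (cyl F ζ) = p F ζ := by
    intro μ hμ F
    have hprob := hμ.prob
    have hs := hμ.setDLR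
    have hinv := fun t => invariant_all hx hQI hs t
    have h1 : ∀ ζ ∈ F.powerset, μ.real (cyl F ζ) ≤ p F ζ := fun ζ hζ =>
      real_cyl_le hx hp hs hinv (Finset.mem_powerset.1 hζ)
    have h2 : ∑ ζ ∈ F.powerset, μ.real (cyl F ζ) = 1 := by
      rw [← sum_real_cyl F F.powerset le_rfl]
      have : {ω : Cfg d | pat F ω ∈ F.powerset} = Set.univ := by
        ext ω
        simp only [Set.mem_ofPred_eq, Set.mem_univ, iff_true]
        exact Finset.mem_powerset.2 (pat_subset F ω)
      rw [this, probReal_univ]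
    have h3 : ∑ ζ ∈ F.powerset, μ.real (cyl F ζ) = ∑ ζ ∈ F.powerset, p F ζ :=
      le_antisymm (Finset.sum_le_sum h1) (by rw [h2]; exact hp1 F)
    intro ζ hζ
    exact (Finset.sum_eq_sum_iff_of_le h1).1 h3 ζ (Finset.mem_powerset.2 hζ)
  have hμp := hμ.prob
  have hνp := hν.prob
  refine ext_of_generate_finite (measurableCylinders fun _ : Edg d => Bool)
    generateFrom_measurableCylinders.symm isPiSystem_measurableCylinders ?_ (by simp)
  intro s hs
  obtain ⟨F, S, hS, rfl⟩ := (mem_measurableCylinders _).1 hs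
  have h1 : cylinder F S = {ω : Cfg d | pat F ω ∈ F.powerset.filter fun η =>
      (fun e : F => decide (e.1 ∈ η)) ∈ S} := by
    ext ω
    rw [mem_cylinder]
    simp only [Set.mem_ofPred_eq, Finset.mem_filter]
    have h2 : (fun e : F => decide (e.1 ∈ pat F ω)) = F.restrict ω := by
      funext e
      show decide (e.1 ∈ pat F ω) = ω e.1
      by_cases h3 : ω e.1 = true
      · rw [h3, decide_eq_true_eq]; exact mem_pat.2 ⟨e.2, h3⟩
      · have h4 : ω e.1 = false := by simpa using h3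
        rw [h4, decide_eq_false_iff_not]
        intro h5; exact h3 (mem_pat.1 h5).2
    rw [h2]
    exact ⟨fun h => ⟨Finset.mem_powerset.2 (pat_subset F ω), h⟩, fun h => h.2⟩
  have h2 : μ.real (cylinder F S) = ν.real (cylinder F S) := by
    rw [h1, sum_real_cyl F _ (Finset.filter_subset _ _), sum_real_cyl F _ (Finset.filter_subset _ _)]
    refine Finset.sum_congr rfl fun ζ hζ => ?_
    have hζF := Finset.mem_powerset.1 (Finset.mem_filter.1 hζ).1
    rw [key μ hμ F ζ hζF, key ν hν F ζ hζF]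
  exact (measureReal_eq_measureReal_iff).1 h2

/-- Uniqueness from exponential decay. -/
theorem gibbs_unique_of_decay {x C ρ : ℝ} (hd : 2 ≤ d) (h : HasDecay d x C ρ)
    {μ ν : Measure (Cfg d)} (hμ : IsGibbs d x μ) (hν : IsGibbs d x ν) : μ = ν :=
  gibbs_unique h.x_pos.le (h.fvq (by omega)) (h.fvd hd) hμ hν

end Pool.Agent.LoopO1
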