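import Pool.Agent.LoopO1_f0ab88.Iface

/-!
# Lower bounds for correlations by pairing the sources
-/

open Finset

set_option linter.unusedSectionVars false
set_option linter.unusedVariables false

namespace Pool.Agent.LoopO1.Gr

variable {V E : Type*} [DecidableEq V] [DecidableEq E] {G : Gr V E} {x : ℝ}

lemma sum_bdS (H : Finset E) (W : Finset V) (hW : ∀ e ∈ H, G.src e ∈ W ∧ G.tgt e ∈ W) :
    ∑ v ∈ W, G.bdS H v = 0 := by
  unfold bdS
  simp only [Finset.sum_apply]
  rw [Finset.sum_comm]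
  refine Finset.sum_eq_zero fun e he => ?_
  unfold bd dl
  simp only [Pi.add_apply, Pi.single_apply, Finset.sum_add_distrib]
  rw [Finset.sum_ite_eq', Finset.sum_ite_eq', if_pos (hW e he).1, if_pos (hW e he).2]
  decide

lemma Zp_ind_odd {T : Finset V} (hT : Odd T.card) (D : Finset E) : G.Zp x D (ind T) = 0 := by
  classical
  unfold Zp Z
  refine Finset.sum_eq_zero fun H hH => ?_
  rw [if_neg]
  intro h
  have hHD := Finset.mem_powerset.1 hH
  set W := T ∪ (D.image G.src ∪ D.image G.tgt) with hW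
  have h1 : ∑ v ∈ W, G.bdS H v = 0 := by
    refine sum_bdS H W fun e he => ⟨?_, ?_⟩
    · exact Finset.mem_union_right _ (Finset.mem_union_left _ (Finset.mem_image_of_mem _ (hHD he)))
    · exact Finset.mem_union_right _ (Finset.mem_union_right _ (Finset.mem_image_of_mem _ (hHD he)))
  have h2 : G.bdS H = ind T := h
  rw [h2] at h1
  simp only [ind_apply] at h1
  rw [Finset.sum_ite_mem, Finset.inter_eq_right.2 (Finset.subset_union_left), Finset.sum_const,
    nsmul_eq_mul, mul_one] at h1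
  have h3 : ((T.card : ℕ) : ZMod 2) ≠ 0 := by
    rw [Ne, ZMod.natCast_eq_zero_iff_even]
    exact Nat.not_even_iff_odd.2 hT
  exact h3 h1

lemma gp_ind_odd {T : Finset V} (hT : Odd T.card) (D : Finset E) : G.gp x D (ind T) = 0 := by
  show G.Zp x D (ind T) / G.Zp x D 0 = 0
  rw [Zp_ind_odd hT, zero_div]

lemma gp_remove_pair (hx : 0 ≤ x) (hx1 : x ≤ 1) (D : Finset E) {J : Finset V} {u v : V} (hu : u ∈ J)
    (hv : v ∈ J) (huv : u ≠ v) :
    G.tp x D u v * G.gp x D (ind ((J.erase u).erase v)) ≤ G.gp x D (ind J) := by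
  have hv' : v ∈ J.erase u := Finset.mem_erase.2 ⟨huv.symm, hv⟩
  have h1 : ind J = (dl u + dl v) + ind ((J.erase u).erase v) := by
    conv_lhs => rw [← Finset.insert_erase hu, ind_insert (Finset.notMem_erase u J),
      ← Finset.insert_erase hv', ind_insert (Finset.notMem_erase v _)]
    rw [add_assoc]
  rw [h1]
  exact gks_g hx hx1 D _ _

lemma gp_pair_ge (hx : 0 ≤ x) (hx1 : x ≤ 1) (D : Finset E) {c : ℝ} (hc0 : 0 ≤ c) :
    ∀ (k : ℕ) (J : Finset V), J.card = 2 * k → (∀ u ∈ J, ∀ v ∈ J, c ≤ G.tp x D u v) →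
    c ^ k ≤ G.gp x D (ind J)
  | 0, J, hJ, _ => by
    have : J = ∅ := Finset.card_eq_zero.1 (by omega)
    rw [this, ind_empty, gp_zero hx, pow_zero]
  | k + 1, J, hJ, h => by
    obtain ⟨u, hu, v, hv, huv⟩ := Finset.one_lt_card.1 (by omega : 1 < J.card)
    have hv' : v ∈ J.erase u := Finset.mem_erase.2 ⟨huv.symm, hv⟩
    have h1 := gp_remove_pair (G := G) hx hx1 D hu hv huv
    have hcard : ((J.erase u).erase v).card = 2 * k := by
      rw [Finset.card_erase_of_mem hv', Finset.card_erase_of_mem hu]; omega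
    have h2 := gp_pair_ge hx hx1 D hc0 k ((J.erase u).erase v) hcard (fun a ha b hb =>
      h a (Finset.mem_of_mem_erase (Finset.mem_of_mem_erase ha)) b
        (Finset.mem_of_mem_erase (Finset.mem_of_mem_erase hb)))
    refine le_trans ?_ h1
    rw [pow_succ, mul_comm]
    exact mul_le_mul (h u hu v hv) h2 (pow_nonneg hc0 _) (tp_nonneg hx _ _ _)

/-- Pigeonhole lower bound. -/
lemma gp_cell_ge (hx : 0 ≤ x) (hx1 : x ≤ 1) (D : Finset E) {a c : ℝ} (ha0 : 0 ≤ a) (ha1 : a ≤ 1)
    (hc0 : 0 ≤ c) (hc1 : c ≤ 1) {ι : Type*} [DecidableEq ι] (cell : V → ι) (cells : Finset ι)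
    (P : Finset V) (hcell : ∀ u ∈ P, cell u ∈ cells)
    (hpair : ∀ u ∈ P, ∀ v ∈ P, cell u = cell v → a ^ 2 ≤ G.tp x D u v)
    (hall : ∀ u ∈ P, ∀ v ∈ P, c ≤ G.tp x D u v) :
    ∀ (m : ℕ) (J : Finset V), J.card ≤ m → J ⊆ P → Even J.card →
      a ^ J.card * c ^ cells.card ≤ G.gp x D (ind J) := by
  intro m
  induction m using Nat.strong_induction_on with
  | _ m ih =>
    intro J hJm hJP hJ
    by_cases hle : J.card ≤ cells.card
    · obtain ⟨k, hk⟩ := hJ
      have h1 := gp_pair_ge (G := G) hx hx1 D hc0 k J (by omega)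
        (fun u hu v hv => hall u (hJP hu) v (hJP hv))
      refine le_trans ?_ h1
      have h2 : c ^ cells.card ≤ c ^ k := pow_le_pow_of_le_one hc0 hc1 (by omega)
      have h3 : a ^ J.card ≤ 1 := pow_le_one₀ ha0
        ha1
      calc a ^ J.card * c ^ cells.card ≤ 1 * c ^ k :=
            mul_le_mul h3 h2 (pow_nonneg hc0 _) zero_le_one
        _ = c ^ k := one_mul _
    · push Not at hle
      obtain ⟨u, hu, v, hv, huv, hc⟩ :=
        Finset.exists_ne_map_eq_of_card_lt_of_maps_to hle (f := cell)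
          (fun u hu => hcell u (hJP hu))
      have hv' : v ∈ J.erase u := Finset.mem_erase.2 ⟨huv.symm, hv⟩
      have h1 := gp_remove_pair (G := G) hx hx1 D hu hv huv
      have hpos : 1 < J.card := Finset.one_lt_card.2 ⟨u, hu, v, hv, huv⟩
      have hcard : ((J.erase u).erase v).card + 2 = J.card := by
        rw [Finset.card_erase_of_mem hv', Finset.card_erase_of_mem hu]; omega
      have h2 := ih ((J.erase u).erase v).card (by omega) ((J.erase u).erase v) le_rfl
        ((Finset.erase_subset _ _).trans ((Finset.erase_subset _ _).trans hJP)) (by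
          rw [← hcard] at hJ
          rw [Nat.even_add] at hJ
          exact hJ.2 (by decide))
      refine le_trans ?_ h1
      rw [← hcard, pow_add]
      calc a ^ ((J.erase u).erase v).card * a ^ 2 * c ^ cells.card
          = a ^ 2 * (a ^ ((J.erase u).erase v).card * c ^ cells.card) := by ring
        _ ≤ _ := mul_le_mul (hpair u (hJP hu) v (hJP hv) hc) h2 (by positivity)
            (tp_nonneg hx _ _ _)

/-- The potential compared with the correlation itself. -/
lemma Pot_le' (hx : 0 ≤ x) (hx1 : x ≤ 1) (Lam : Finset V) {t a κ ε : ℝ} (ht : 0 ≤ t) (ha : 0 < a)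
    (hκ : 0 < κ) (hε0 : 0 ≤ ε) (D : Finset E) (S : Finset V) (hS : Even S.card)
    (hJ : ∀ J ⊆ S, Even J.card → a ^ J.card * κ ≤ G.gp x D (ind J))
    (hγ : ∀ b ∈ S, t * G.gam x Lam D b ≤ ε * a) :
    G.Pot x Lam t D S ≤ κ⁻¹ * (1 + ε) ^ S.card * G.gp x D (ind S) := by
  have hgS := gp_nonneg (G := G) hx D (ind S)
  have hterm : ∀ J ∈ S.powerset, (∏ b ∈ J, t * G.gam x Lam D b) * G.gp x D (ind (S \ J))
      ≤ (∏ b ∈ J, ε) * (κ⁻¹ * G.gp x D (ind S)) := by
    intro J hJm
    have hJS := Finset.mem_powerset.1 hJm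
    have hprod0 : 0 ≤ ∏ b ∈ J, t * G.gam x Lam D b :=
      Finset.prod_nonneg fun b _ => mul_nonneg ht (gam_nonneg hx _ _ _)
    have hε : 0 ≤ ∏ b ∈ J, ε := Finset.prod_nonneg fun b hb => hε0
    have hκi : 0 ≤ κ⁻¹ := (inv_pos.2 hκ).le
    by_cases hSJ : Odd (S \ J).card
    · rw [gp_ind_odd hSJ, mul_zero]
      exact mul_nonneg hε (mul_nonneg hκi hgS)
    have hJe : Even J.card := by
      have h1 : (S \ J).card + J.card = S.card := Finset.card_sdiff_add_card_eq_card hJS
      rw [← h1, Nat.even_add] at hS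
      exact hS.1 (Nat.not_odd_iff_even.1 hSJ)
    have h1 : ∏ b ∈ J, t * G.gam x Lam D b ≤ ∏ b ∈ J, ε * a :=
      Finset.prod_le_prod (fun b _ => mul_nonneg ht (gam_nonneg hx _ _ _))
        fun b hb => hγ b (hJS hb)
    have h2 : ind J + ind (S \ J) = ind S := by
      unfold ind
      rw [add_comm, Finset.sum_sdiff hJS]
    have h3 := gks_g (G := G) hx hx1 D (ind J) (ind (S \ J))
    rw [h2] at h3
    have h4 := hJ J hJS hJe
    have h5 := gp_nonneg (G := G) hx D (ind (S \ J))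
    have h6 : a ^ J.card * κ * G.gp x D (ind (S \ J)) ≤ G.gp x D (ind S) :=
      (mul_le_mul_of_nonneg_right h4 h5).trans h3
    calc (∏ b ∈ J, t * G.gam x Lam D b) * G.gp x D (ind (S \ J))
        ≤ (∏ b ∈ J, ε * a) * G.gp x D (ind (S \ J)) := mul_le_mul_of_nonneg_right h1 h5
      _ = (∏ b ∈ J, ε) * (κ⁻¹ * (a ^ J.card * κ * G.gp x D (ind (S \ J)))) := by
          rw [Finset.prod_mul_distrib, Finset.prod_const a]
          generalize ∏ b ∈ J, ε = p
          field_simp
      _ ≤ _ := mul_le_mul_of_nonneg_left (mul_le_mul_of_nonneg_left h6 hκi) hε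
  unfold Pot
  refine (Finset.sum_le_sum hterm).trans_eq ?_
  rw [← Finset.sum_mul]
  have : ∑ J ∈ S.powerset, ∏ _b ∈ J, ε = (1 + ε) ^ S.card := by
    rw [← Finset.prod_const, Finset.prod_one_add]
  rw [this]
  ring

end Pool.Agent.LoopO1.Gr
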