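import Pool.Agent.LoopO1_f0ab88.MeasBase

/-!
# The Simon-Lieb quantity `φ_x(W)`
-/

open Finset

set_option linter.unusedSectionVars false
set_option linter.unusedVariables false

namespace Pool.Agent.LoopO1

variable {d : ℕ}

/-- The edges with both endpoints in `W`. -/
def iE (W : Finset (Vtx d)) : Finset (Edg d) :=
  (W ×ˢ (Finset.univ : Finset (Fin d))).filter fun e => e.1 + Pi.single e.2 1 ∈ W

lemma mem_iE {W : Finset (Vtx d)} {e : Edg d} : e ∈ iE W ↔ ∀ v, IsEnd v e → v ∈ W := by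
  unfold iE IsEnd
  rw [Finset.mem_filter, Finset.mem_product]
  constructor
  · rintro ⟨⟨h1, -⟩, h2⟩ v (rfl | rfl)
    · exact h1
    · exact h2
  · intro h
    exact ⟨⟨h _ (Or.inl rfl), Finset.mem_univ _⟩, h _ (Or.inr rfl)⟩

/-- `φ_x(W) = ∑_{y ∈ W, e = {y, z}, z ∉ W} x ⟨σ_0 σ_y⟩_W`. -/
noncomputable def phiS (d : ℕ) (x : ℝ) (W : Finset (Vtx d)) : ℝ :=
  ∑ y ∈ W, ∑ e ∈ (edg W \ iE W).filter (fun e => IsEnd y e), x * (lat d).tp x (iE W) 0 y

end Pool.Agent.LoopO1
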