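import Pool.Agent.LoopO1_f0ab88.Cyl

/-!
# The Simon-Lieb inequality
-/

open Finset

set_option linter.unusedSectionVars false
set_option linter.unusedVariables false

namespace Pool.Agent.LoopO1.Gr

variable {V E : Type*} [DecidableEq V] [DecidableEq E] {G : Gr V E} {x : ℝ}

lemma Zp_split (D' D : Finset E) (hD : D ⊆ D') (A : V → ZMod 2) :
    G.Zp x D' A = ∑ ξ ∈ (D' \ D).powerset, x ^ ξ.card * G.Zp x D (A + G.bdS ξ) := by
  have hval : (DT.queryAll (D' \ D).toList (fun _ => DT.leaf) ∅).Valid D' ∅ := by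
    refine Gr.queryAll_valid D' _ _ ∅ ∅ (Finset.nodup_toList _) ?_ (fun e _ => Finset.notMem_empty e)
      (fun _ => trivial)
    intro e he
    exact (Finset.mem_sdiff.1 (Finset.mem_toList.1 he)).1
  rw [← EZ_one, ← Gr.EZ_tree D' A (fun _ => 1) _ hval,
    Gr.queryAll_sum _ _ _ ∅ ∅ (Finset.nodup_toList _) (fun e _ => Finset.notMem_empty e),
    Finset.toList_toFinset]
  refine Finset.sum_congr rfl fun ξ _ => ?_
  show x ^ (∅ ∪ ξ).card * G.EZ x (D' \ (∅ ∪ D' \ D)) (A + G.bdS (∅ ∪ ξ)) (fun _ => 1) = _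
  rw [Finset.empty_union, Finset.empty_union, Finset.sdiff_sdiff_eq_self hD, EZ_one]

/-- The part of the sources in `W`. -/
def cut (W : Finset V) (A : V → ZMod 2) : V → ZMod 2 := fun v => if v ∈ W then A v else 0

/-- The part of the sources outside `W`. -/
def cutc (W : Finset V) (A : V → ZMod 2) : V → ZMod 2 := fun v => if v ∈ W then 0 else A v

lemma cut_add (W : Finset V) (A B : V → ZMod 2) : cut W (A + B) = cut W A + cut W B := by
  funext v
  simp only [cut, Pi.add_apply]
  split_ifs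
  · rfl
  · exact (add_zero (0 : ZMod 2)).symm

lemma cutc_add (W : Finset V) (A B : V → ZMod 2) : cutc W (A + B) = cutc W A + cutc W B := by
  funext v
  simp only [cutc, Pi.add_apply]
  split_ifs
  · exact (add_zero (0 : ZMod 2)).symm
  · rfl

lemma cut_add_cutc (W : Finset V) (A : V → ZMod 2) : cut W A + cutc W A = A := by
  funext v
  simp only [cut, cutc, Pi.add_apply]
  split_ifs
  · exact add_zero _
  · exact zero_add _

lemma cut_dl_mem {W : Finset V} {v : V} (h : v ∈ W) : cut W (dl v) = dl v := by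
  funext u; unfold cut; split_ifs with hu
  · rfl
  · exact (dl_apply_ne (fun h' : u = v => hu (by rw [h']; exact h))).symm

lemma cut_dl_notMem {W : Finset V} {v : V} (h : v ∉ W) : cut W (dl v) = 0 := by
  funext u; unfold cut; split_ifs with hu
  · exact dl_apply_ne (fun h' : u = v => h (by rw [← h']; exact hu))
  · rfl

lemma cutc_dl_mem {W : Finset V} {v : V} (h : v ∈ W) : cutc W (dl v) = 0 := by
  funext u; unfold cutc; split_ifs with hu
  · rfl
  · exact dl_apply_ne (fun h' : u = v => hu (by rw [h']; exact h))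

lemma cutc_dl_notMem {W : Finset V} {v : V} (h : v ∉ W) : cutc W (dl v) = dl v := by
  funext u; unfold cutc; split_ifs with hu
  · exact (dl_apply_ne (fun h' : u = v => h (by rw [← h']; exact hu))).symm
  · rfl

lemma cut_zero (W : Finset V) : cut W (0 : V → ZMod 2) = 0 := by
  funext v; unfold cut; split_ifs <;> rfl

lemma cutc_zero (W : Finset V) : cutc W (0 : V → ZMod 2) = 0 := by
  funext v; unfold cutc; split_ifs <;> rfl

/-- Factorisation over disconnected parts. -/
lemma Zp_factor {W : Finset V} {D1 D2 : Finset E} (hD1 : ∀ e ∈ D1, ∀ v, G.Inc v e → v ∈ W)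
    (hD2 : ∀ e ∈ D2, ∀ v, G.Inc v e → v ∉ W) (A : V → ZMod 2) :
    G.Zp x (D1 ∪ D2) A = G.Zp x D1 (cut W A) * G.Zp x D2 (cutc W A) := by
  classical
  have hdis : (D1 ∪ D2) \ D2 = D1 := by
    ext e
    simp only [mem_sdiff, mem_union]
    constructor
    · rintro ⟨h1 | h1, h2⟩
      · exact h1
      · exact absurd h1 h2
    · intro h1
      exact ⟨Or.inl h1, fun h2 => hD2 e h2 _ (Or.inl rfl) (hD1 e h1 _ (Or.inl rfl))⟩
  rw [Zp_split (D1 ∪ D2) D2 Finset.subset_union_right, hdis]
  have h1 : G.Zp x D1 (cut W A) = ∑ ξ ∈ D1.powerset,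
      if G.bdS ξ = cut W A then x ^ ξ.card * 1 else 0 := by
    rw [← EZ_one]; rfl
  rw [h1, Finset.sum_mul]
  refine Finset.sum_congr rfl fun ξ hξ => ?_
  have hξ' := Finset.mem_powerset.1 hξ
  by_cases h2 : G.bdS ξ = cut W A
  · rw [if_pos h2, h2, mul_one]
    congr 2
    have h3 := cut_add_cutc W A
    calc A + cut W A = (cut W A + cutc W A) + cut W A := by rw [h3]
      _ = (cut W A + cut W A) + cutc W A := by abel
      _ = cutc W A := by rw [add_self_fun, zero_add]
  · rw [if_neg h2, zero_mul]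
    have h3 : ∃ v, G.bdS ξ v ≠ cut W A v := by
      by_contra h4
      push Not at h4
      exact h2 (funext h4)
    obtain ⟨v, hv⟩ := h3
    have hvW : v ∈ W := by
      by_contra h4
      apply hv
      unfold cut
      rw [if_neg h4]
      exact bdS_apply_eq_zero fun e he hi => h4 (hD1 e (hξ' he) v hi)
    have h5 : (A + G.bdS ξ) v ≠ 0 := by
      rw [Pi.add_apply]
      unfold cut at hv
      rw [if_pos hvW] at hv
      intro h6
      apply hv
      rcases zmod2_cases (A v) with h7 | h7 <;> rcases zmod2_cases (G.bdS ξ v) with h8 | h8 <;>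
        rw [h7, h8] at h6 ⊢ <;> revert h6 <;> decide
    rw [Zp_eq_zero h5 fun e he hi => hD2 e he v hi hvW, mul_zero]

/-- The endpoint inside. -/
def yi (G : Gr V E) (W : Finset V) (e : E) : V := if G.src e ∈ W then G.src e else G.tgt e

/-- The endpoint outside. -/
def yo (G : Gr V E) (W : Finset V) (e : E) : V := if G.src e ∈ W then G.tgt e else G.src e

/-- The edges of `D` inside `W`. -/
def inn (G : Gr V E) (W : Finset V) (D : Finset E) : Finset E :=
  D.filter fun e => G.src e ∈ W ∧ G.tgt e ∈ W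

/-- The edges of `D` outside `W`. -/
def out (G : Gr V E) (W : Finset V) (D : Finset E) : Finset E :=
  D.filter fun e => G.src e ∉ W ∧ G.tgt e ∉ W

/-- The boundary edges of `W` in `D`. -/
def bdy (G : Gr V E) (W : Finset V) (D : Finset E) : Finset E :=
  D.filter fun e => (G.src e ∈ W ∧ G.tgt e ∉ W) ∨ (G.src e ∉ W ∧ G.tgt e ∈ W)

lemma bdy_spec {W : Finset V} {D : Finset E} {e : E} (he : e ∈ G.bdy W D) :
    G.yi W e ∈ W ∧ G.yo W e ∉ W ∧ G.bd e = dl (G.yi W e) + dl (G.yo W e) := by
  unfold bdy at he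
  unfold yi yo bd
  rcases (Finset.mem_filter.1 he).2 with ⟨h1, h2⟩ | ⟨h1, h2⟩
  · rw [if_pos h1, if_pos h1]; exact ⟨h1, h2, rfl⟩
  · rw [if_neg h1, if_neg h1]; exact ⟨h2, h1, add_comm _ _⟩

lemma cut_bd {W : Finset V} {D : Finset E} {e : E} (he : e ∈ G.bdy W D) :
    cut W (G.bd e) = dl (G.yi W e) := by
  obtain ⟨h1, h2, h3⟩ := bdy_spec he
  rw [h3, cut_add, cut_dl_mem h1, cut_dl_notMem h2, add_zero]

lemma cutc_bd {W : Finset V} {D : Finset E} {e : E} (he : e ∈ G.bdy W D) :
    cutc W (G.bd e) = dl (G.yo W e) := by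
  obtain ⟨h1, h2, h3⟩ := bdy_spec he
  rw [h3, cutc_add, cutc_dl_mem h1, cutc_dl_notMem h2, zero_add]

/-- Decomposition with respect to the boundary edges. -/
lemma Zp_bdy (W : Finset V) (D : Finset E) (A : V → ZMod 2) :
    G.Zp x D A = ∑ H ∈ (G.bdy W D).powerset, x ^ H.card *
      (G.Zp x (G.inn W D) (cut W A + cut W (G.bdS H)) *
        G.Zp x (G.out W D) (cutc W A + cutc W (G.bdS H))) := by
  have hsub : G.inn W D ∪ G.out W D ⊆ D :=
    Finset.union_subset (Finset.filter_subset _ _) (Finset.filter_subset _ _)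
  have hd : D \ (G.inn W D ∪ G.out W D) = G.bdy W D := by
    ext e
    unfold inn out bdy
    simp only [mem_sdiff, mem_union, mem_filter]
    tauto
  rw [Zp_split D (G.inn W D ∪ G.out W D) hsub, hd]
  refine Finset.sum_congr rfl fun H _ => ?_
  rw [Zp_factor (W := W) ?_ ?_ (A + G.bdS H), cut_add, cutc_add]
  · intro e he v hv
    have h1 := (Finset.mem_filter.1 he).2
    rcases hv with rfl | rfl
    · exact h1.1
    · exact h1.2
  · intro e he v hv
    have h1 := (Finset.mem_filter.1 he).2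
    rcases hv with rfl | rfl
    · exact h1.1
    · exact h1.2

lemma sum_image_le' {ι κ : Type*} [DecidableEq κ] [DecidableEq ι] (y : ι → κ) (t : κ → ℝ)
    (ht : ∀ k, 0 ≤ t k) (s : Finset ι) : ∀ (S : Finset κ), (∀ k ∈ S, ∃ i ∈ s, y i = k) →
    ∑ k ∈ S, t k ≤ ∑ i ∈ s, t (y i) := by
  induction s using Finset.induction_on with
  | empty =>
    intro S hS
    have : S = ∅ := by
      rw [Finset.eq_empty_iff_forall_notMem]
      intro k hk
      obtain ⟨i, hi, -⟩ := hS k hk
      exact Finset.notMem_empty i hi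
    rw [this, Finset.sum_empty, Finset.sum_empty]
  | insert i s hi ih =>
    intro S hS
    rw [Finset.sum_insert hi]
    have h1 := ih (S.erase (y i)) (fun k hk => by
      obtain ⟨j, hj, hjk⟩ := hS k (Finset.mem_of_mem_erase hk)
      rcases Finset.mem_insert.1 hj with rfl | hj
      · exact absurd hjk.symm (Finset.ne_of_mem_erase hk)
      · exact ⟨j, hj, hjk⟩)
    have h2 : ∑ k ∈ S, t k ≤ t (y i) + ∑ k ∈ S.erase (y i), t k := by
      by_cases h3 : y i ∈ S
      · rw [Finset.add_sum_erase _ _ h3]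
      · rw [Finset.erase_eq_of_notMem h3]
        have := ht (y i)
        linarith
    linarith

/-- The key bound inside `W`. -/
lemma inner_bound (hx : 0 ≤ x) (hx1 : x ≤ 1) (W : Finset V) (D₁ D : Finset E) {u : V}
    (hu : u ∈ W) {H : Finset E} (hH : H ⊆ G.bdy W D) :
    G.Zp x D₁ (dl u + cut W (G.bdS H)) ≤
      ∑ e ∈ H, G.tp x D₁ u (G.yi W e) * G.Zp x D₁ (cut W (G.bdS H) + dl (G.yi W e)) := by
  classical
  set A := cut W (G.bdS H) with hA
  have hZ : ∀ B : V → ZMod 2, G.Zp x D₁ B = G.gp x D₁ B * G.Zp x D₁ 0 := fun B => by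
    unfold gp g
    rw [div_mul_cancel₀ _ (Z_zero_pos hx D₁).ne']
  have hZ0 : 0 ≤ G.Zp x D₁ 0 := Z_nonneg hx _ _
  have hAsum : A = ∑ e ∈ H, dl (G.yi W e) := by
    rw [hA]
    unfold bdS
    have h1 : ∀ H' ⊆ H, cut W (∑ e ∈ H', G.bd e) = ∑ e ∈ H', dl (G.yi W e) := by
      intro H'
      induction H' using Finset.induction_on with
      | empty => intro _; rw [Finset.sum_empty, Finset.sum_empty, cut_zero]
      | insert e s he ih =>
        intro hs
        rw [Finset.sum_insert he, Finset.sum_insert he, cut_add,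
          cut_bd (hH (hs (Finset.mem_insert_self e s))),
          ih ((Finset.subset_insert e s).trans hs)]
    exact h1 H le_rfl
  have hmemA : ∀ a, A a = 1 → ∃ e ∈ H, G.yi W e = a := by
    intro a ha
    by_contra hcon
    push Not at hcon
    have : A a = 0 := by
      rw [hAsum, Finset.sum_apply]
      exact Finset.sum_eq_zero fun e he => dl_apply_ne (hcon e he).symm
    rw [this] at ha
    exact zero_ne_one ha
  suffices hgp : G.gp x D₁ (dl u + A) ≤
      ∑ e ∈ H, G.tp x D₁ u (G.yi W e) * G.gp x D₁ (A + dl (G.yi W e)) by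
    rw [hZ]
    have h1 := mul_le_mul_of_nonneg_right hgp hZ0
    refine h1.trans_eq ?_
    rw [Finset.sum_mul]
    refine Finset.sum_congr rfl fun e _ => ?_
    rw [hZ (A + dl (G.yi W e))]
    ring
  by_cases hAu : A u = 1
  · obtain ⟨e, he, heu⟩ := hmemA u hAu
    have h1 : G.tp x D₁ u (G.yi W e) * G.gp x D₁ (A + dl (G.yi W e)) ≤
        ∑ e ∈ H, G.tp x D₁ u (G.yi W e) * G.gp x D₁ (A + dl (G.yi W e)) :=
      Finset.single_le_sum (f := fun e => G.tp x D₁ u (G.yi W e) * G.gp x D₁ (A + dl (G.yi W e)))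
        (fun e _ => mul_nonneg (tp_nonneg hx _ _ _) (gp_nonneg hx _ _)) he
    rw [heu, tp_self hx, one_mul, add_comm A] at h1
    exact h1
  · have hAu0 : A u = 0 := (zmod2_cases (A u)).resolve_right hAu
    set S : Finset V := W.filter fun a => A a = 1 with hS
    have huS : u ∉ S := fun h => hAu (Finset.mem_filter.1 h).2
    have hAW : ∀ a, A a = 1 → a ∈ W := by
      intro a ha
      by_contra h
      rw [hA] at ha
      unfold cut at ha
      rw [if_neg h] at ha
      exact zero_ne_one ha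
    have h1 := newman (G := G) hx hx1 D₁ (dl u + A) u S
      (by rw [Pi.add_apply, dl_apply_self, hAu0, add_zero]) huS (by
        intro a hau
        rw [Pi.add_apply, dl_apply_ne hau, zero_add, hS, Finset.mem_filter]
        exact ⟨fun h => ⟨hAW a h, h⟩, fun h => h.2⟩)
    have h2 : ∀ a ∈ S, G.tp x D₁ u a * G.gp x D₁ (dl u + A + dl u + dl a) =
        G.tp x D₁ u a * G.gp x D₁ (A + dl a) := by
      intro a _
      congr 2
      calc dl u + A + dl u + dl a = (dl u + dl u) + (A + dl a) := by abel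
        _ = A + dl a := by rw [add_self_fun, zero_add]
    rw [Finset.sum_congr rfl h2] at h1
    refine h1.trans ?_
    exact sum_image_le' (G.yi W) (fun a => G.tp x D₁ u a * G.gp x D₁ (A + dl a))
      (fun a => mul_nonneg (tp_nonneg hx _ _ _) (gp_nonneg hx _ _)) H S
      (fun a ha => hmemA a (Finset.mem_filter.1 ha).2)

/-- **The Simon-Lieb inequality.** -/
theorem simon_lieb (hx : 0 ≤ x) (hx1 : x ≤ 1) (W : Finset V) (D : Finset E) {u z : V}
    (hu : u ∈ W) (hz : z ∉ W) :
    G.tp x D u z ≤ ∑ e ∈ G.bdy W D,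
      x * G.tp x (G.inn W D) u (G.yi W e) * G.tp x D (G.yo W e) z := by
  classical
  have hZ0 : 0 < G.Zp x D 0 := Z_zero_pos hx D
  set Bd := G.bdy W D with hBd
  set D₁ := G.inn W D with hD₁
  set D₂ := G.out W D with hD₂
  -- weights of the outer part
  set w : Finset E → ℝ := fun H => x ^ H.card * G.Zp x D₂ (dl z + cutc W (G.bdS H)) with hw
  have hw0 : ∀ H, 0 ≤ w H := fun H => mul_nonneg (pow_nonneg hx _) (Z_nonneg hx _ _)
  have hL : G.Zp x D (dl u + dl z) = ∑ H ∈ Bd.powerset, w H * G.Zp x D₁ (dl u + cut W (G.bdS H)) := by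
    rw [Zp_bdy W D]
    refine Finset.sum_congr rfl fun H _ => ?_
    rw [cut_add, cutc_add, cut_dl_mem hu, cut_dl_notMem hz, cutc_dl_mem hu, cutc_dl_notMem hz,
      add_zero, zero_add]
    show x ^ H.card * (_ * _) = x ^ H.card * _ * _
    ring
  have hR : ∀ e ∈ Bd, ∑ H ∈ Bd.powerset, (if e ∈ H then w H *
      G.Zp x D₁ (cut W (G.bdS H) + dl (G.yi W e)) else 0) ≤ x * G.Zp x D (dl (G.yo W e) + dl z) := by
    intro e he
    obtain ⟨hi, ho, hbe⟩ := bdy_spec he
    rw [Zp_bdy W D (dl (G.yo W e) + dl z), cut_add, cutc_add, cut_dl_notMem ho, cut_dl_notMem hz,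
      cutc_dl_notMem ho, cutc_dl_notMem hz, add_zero, Finset.mul_sum]
    -- keep only the `H` not containing `e`
    have h1 : ∑ H ∈ (Bd.erase e).powerset, x * (x ^ H.card * (G.Zp x D₁ (0 + cut W (G.bdS H)) *
        G.Zp x D₂ (dl (G.yo W e) + dl z + cutc W (G.bdS H)))) ≤
        ∑ H ∈ Bd.powerset, x * (x ^ H.card * (G.Zp x D₁ (0 + cut W (G.bdS H)) *
        G.Zp x D₂ (dl (G.yo W e) + dl z + cutc W (G.bdS H)))) := by
      refine Finset.sum_le_sum_of_subset_of_nonneg
        (Finset.powerset_mono.2 (Finset.erase_subset _ _)) fun H _ _ => ?_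
      exact mul_nonneg hx (mul_nonneg (pow_nonneg hx _) (mul_nonneg (Z_nonneg hx _ _)
        (Z_nonneg hx _ _)))
    refine le_trans (le_of_eq ?_) h1
    have h2 : Bd = insert e (Bd.erase e) := (Finset.insert_erase he).symm
    conv_lhs => rw [h2]
    rw [Finset.sum_powerset_insert (Finset.notMem_erase e Bd)]
    have h3 : ∑ H ∈ (Bd.erase e).powerset, (if e ∈ H then w H *
        G.Zp x D₁ (cut W (G.bdS H) + dl (G.yi W e)) else 0) = 0 := by
      refine Finset.sum_eq_zero fun H hH => ?_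
      rw [if_neg]
      intro h4
      exact Finset.notMem_erase e Bd (Finset.mem_powerset.1 hH h4)
    rw [h3, zero_add]
    refine Finset.sum_congr rfl fun H hH => ?_
    have heH : e ∉ H := fun h4 => Finset.notMem_erase e Bd (Finset.mem_powerset.1 hH h4)
    rw [if_pos (Finset.mem_insert_self e H), hw]
    beta_reduce
    rw [Finset.card_insert_of_notMem heH, bdS_insert heH, cut_add, cutc_add, cut_bd he, cutc_bd he,
      zero_add]
    have e1 : cut W (G.bdS H) + dl (G.yi W e) + dl (G.yi W e) = cut W (G.bdS H) := by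
      rw [add_assoc, add_self_fun, add_zero]
    have e2 : dl z + (cutc W (G.bdS H) + dl (G.yo W e)) =
        dl (G.yo W e) + dl z + cutc W (G.bdS H) := by abel
    rw [e1, e2, pow_succ]
    ring
  have hmain : G.Zp x D (dl u + dl z) ≤ ∑ e ∈ Bd, G.tp x D₁ u (G.yi W e) *
      (x * G.Zp x D (dl (G.yo W e) + dl z)) := by
    calc G.Zp x D (dl u + dl z)
        = ∑ H ∈ Bd.powerset, w H * G.Zp x D₁ (dl u + cut W (G.bdS H)) := hL
      _ ≤ ∑ H ∈ Bd.powerset, w H * ∑ e ∈ H, G.tp x D₁ u (G.yi W e) *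
            G.Zp x D₁ (cut W (G.bdS H) + dl (G.yi W e)) :=
          Finset.sum_le_sum fun H hH => mul_le_mul_of_nonneg_left
            (inner_bound hx hx1 W D₁ D hu (Finset.mem_powerset.1 hH)) (hw0 H)
      _ = ∑ H ∈ Bd.powerset, ∑ e ∈ Bd, G.tp x D₁ u (G.yi W e) * (if e ∈ H then w H *
            G.Zp x D₁ (cut W (G.bdS H) + dl (G.yi W e)) else 0) := by
          refine Finset.sum_congr rfl fun H hH => ?_
          have hHB := Finset.mem_powerset.1 hH
          rw [Finset.mul_sum]
          have h4 : ∑ e ∈ Bd, G.tp x D₁ u (G.yi W e) * (if e ∈ H then w H *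
            G.Zp x D₁ (cut W (G.bdS H) + dl (G.yi W e)) else 0) = ∑ e ∈ H,
              G.tp x D₁ u (G.yi W e) * (if e ∈ H then w H *
            G.Zp x D₁ (cut W (G.bdS H) + dl (G.yi W e)) else 0) := by
            symm
            refine Finset.sum_subset hHB fun e _ heH => ?_
            rw [if_neg heH, mul_zero]
          rw [h4]
          refine Finset.sum_congr rfl fun e he => ?_
          rw [if_pos he]
          ring
      _ = ∑ e ∈ Bd, G.tp x D₁ u (G.yi W e) * ∑ H ∈ Bd.powerset, (if e ∈ H then w H *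
            G.Zp x D₁ (cut W (G.bdS H) + dl (G.yi W e)) else 0) := by
          rw [Finset.sum_comm]
          refine Finset.sum_congr rfl fun e _ => ?_
          rw [Finset.mul_sum]
      _ ≤ _ := Finset.sum_le_sum fun e he => mul_le_mul_of_nonneg_left (hR e he)
          (tp_nonneg hx _ _ _)
  unfold tp at hmain ⊢
  have h5 : G.gp x D (dl u + dl z) = G.Zp x D (dl u + dl z) / G.Zp x D 0 := rfl
  rw [h5, div_le_iff₀ hZ0, Finset.sum_mul]
  refine hmain.trans_eq ?_
  refine Finset.sum_congr rfl fun e _ => ?_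
  have h6 : G.Zp x D (dl (G.yo W e) + dl z) = G.gp x D (dl (G.yo W e) + dl z) * G.Zp x D 0 := by
    unfold gp g
    rw [div_mul_cancel₀ _ hZ0.ne']
  rw [h6]
  ring

end Pool.Agent.LoopO1.Gr
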