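import Pool.Agent.LoopO1_f0ab88.Phi
import Pool.Agent.LoopO1_f0ab88.SimonLieb

/-!
# From `φ_x(W) < 1` to exponential decay
-/

open Finset

set_option linter.unusedSectionVars false
set_option linter.unusedVariables false

namespace Pool.Agent.LoopO1

variable {d : ℕ}

lemma tp_image {x : ℝ} (t : Vtx d) (D : Finset (Edg d)) (a c : Vtx d) :
    (lat d).tp x (D.image (sh t)) (a + t) (c + t) = (lat d).tp x D a c := by
  have h1 : (fun p => (dl (a + t) + dl (c + t) : Vtx d → ZMod 2) (p + t)) = dl a + dl c := by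
    funext p
    rw [Pi.add_apply, Pi.add_apply, dl_add, dl_add, add_sub_cancel_right]
  have h2 := Zp_image (x := x) t D (dl (a + t) + dl (c + t))
  rw [h1] at h2
  have h3 := Zp_image_zero (x := x) t D
  unfold Gr.Zp at h2 h3
  unfold Gr.tp Gr.gp g
  rw [h2, h3]

lemma isEnd_iff {v : Vtx d} {e : Edg d} : IsEnd v e ↔ (lat d).Inc v e := Iff.rfl

lemma mem_image_add {W : Finset (Vtx d)} {u v : Vtx d} : v ∈ W.image (· + u) ↔ v - u ∈ W := by
  rw [Finset.mem_image]
  constructor
  · rintro ⟨w, hw, rfl⟩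
    rw [add_sub_cancel_right]; exact hw
  · intro h
    exact ⟨v - u, h, sub_add_cancel _ _⟩

lemma src_sh (u : Vtx d) (e : Edg d) : (lat d).src (sh u e) = (lat d).src e + u := rfl

lemma tgt_sh (u : Vtx d) (e : Edg d) : (lat d).tgt (sh u e) = (lat d).tgt e + u := by
  show e.1 + u + Pi.single e.2 1 = e.1 + Pi.single e.2 1 + u
  abel

lemma yi_sh (W : Finset (Vtx d)) (u : Vtx d) (e : Edg d) :
    (lat d).yi (W.image (· + u)) (sh u e) = (lat d).yi W e + u := by
  have h1 : (lat d).src (sh u e) ∈ W.image (· + u) ↔ (lat d).src e ∈ W := by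
    rw [src_sh, mem_image_add, add_sub_cancel_right]
  unfold Gr.yi
  by_cases h : (lat d).src e ∈ W
  · rw [if_pos h, if_pos (h1.2 h), src_sh]
  · rw [if_neg h, if_neg (fun h2 => h (h1.1 h2)), tgt_sh]

lemma yo_sh (W : Finset (Vtx d)) (u : Vtx d) (e : Edg d) :
    (lat d).yo (W.image (· + u)) (sh u e) = (lat d).yo W e + u := by
  have h1 : (lat d).src (sh u e) ∈ W.image (· + u) ↔ (lat d).src e ∈ W := by
    rw [src_sh, mem_image_add, add_sub_cancel_right]
  unfold Gr.yo
  by_cases h : (lat d).src e ∈ W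
  · rw [if_pos h, if_pos (h1.2 h), tgt_sh]
  · rw [if_neg h, if_neg (fun h2 => h (h1.1 h2)), src_sh]

lemma bdy_sub (W : Finset (Vtx d)) (u : Vtx d) (D : Finset (Edg d)) :
    (lat d).bdy (W.image (· + u)) D ⊆ (edg W \ iE W).image (sh u) := by
  intro e he
  rw [mem_image_sh, Finset.mem_sdiff, mem_edg, mem_iE]
  obtain ⟨h1, h2, h3⟩ := Gr.bdy_spec he
  have he' : e = sh u (sh (-u) e) := (sh_neg' u e).symm
  rw [he', yi_sh, mem_image_add, add_sub_cancel_right] at h1
  rw [he', yo_sh, mem_image_add, add_sub_cancel_right] at h2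
  constructor
  · refine ⟨_, h1, ?_⟩
    unfold Gr.yi
    split_ifs
    · exact Or.inl rfl
    · exact Or.inr rfl
  · intro h4
    apply h2
    apply h4
    unfold Gr.yo
    split_ifs
    · exact Or.inr rfl
    · exact Or.inl rfl

lemma inn_sub (W : Finset (Vtx d)) (u : Vtx d) (D : Finset (Edg d)) :
    (lat d).inn (W.image (· + u)) D ⊆ (iE W).image (sh u) := by
  intro e he
  rw [mem_image_sh, mem_iE]
  have h1 := (Finset.mem_filter.1 he).2
  have he' : e = sh u (sh (-u) e) := (sh_neg' u e).symm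
  rw [he', src_sh, tgt_sh, mem_image_add, mem_image_add, add_sub_cancel_right,
    add_sub_cancel_right] at h1
  rintro v (rfl | rfl)
  · exact h1.1
  · exact h1.2

lemma sum_yi_le {x : ℝ} (hx : 0 ≤ x) (W : Finset (Vtx d)) :
    ∑ e ∈ edg W \ iE W, x * (lat d).tp x (iE W) 0 ((lat d).yi W e) ≤ phiS d x W := by
  have h1 : phiS d x W = ∑ e ∈ edg W \ iE W, ∑ y ∈ W,
      if IsEnd y e then x * (lat d).tp x (iE W) 0 y else 0 := by
    unfold phiS
    rw [Finset.sum_comm]
    refine Finset.sum_congr rfl fun y _ => ?_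
    rw [Finset.sum_filter]
  rw [h1]
  refine Finset.sum_le_sum fun e he => ?_
  have h2 := Finset.mem_sdiff.1 he
  have h0 : ∀ y, 0 ≤ x * (lat d).tp x (iE W) 0 y := fun y => mul_nonneg hx (Gr.tp_nonneg hx _ _ _)
  have hyi : (lat d).yi W e ∈ W := by
    obtain ⟨v, hv, hi⟩ := mem_edg.1 h2.1
    unfold Gr.yi
    split_ifs with h3
    · exact h3
    · rcases hi with h4 | h4
      · exact absurd (show (lat d).src e ∈ W by rw [lat_src, ← h4]; exact hv) h3
      · rw [lat_tgt, ← h4]; exact hv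
  have hend : IsEnd ((lat d).yi W e) e := by
    unfold Gr.yi
    split_ifs
    · exact Or.inl rfl
    · exact Or.inr rfl
  have h3 := Finset.single_le_sum (f := fun y => if IsEnd y e then
    x * (lat d).tp x (iE W) 0 y else 0) (s := W) (fun y _ => by
      split_ifs
      · exact h0 y
      · exact le_rfl) hyi
  rw [if_pos hend] at h3
  exact h3

/-- One step of the iteration. -/
lemma phi_step {x : ℝ} (hx : 0 ≤ x) (hx1 : x ≤ 1) {W : Finset (Vtx d)} (h0 : (0 : Vtx d) ∈ W)
    (D : Finset (Edg d)) (u z : Vtx d) (hz : z - u ∉ W) {M : ℝ} (hM0 : 0 ≤ M)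
    (hM : ∀ e ∈ edg W \ iE W, (lat d).tp x D ((lat d).yo W e + u) z ≤ M) :
    (lat d).tp x D u z ≤ phiS d x W * M := by
  set Wu := W.image (· + u) with hWu
  have hu : u ∈ Wu := mem_image_add.2 (by rw [sub_self]; exact h0)
  have hz' : z ∉ Wu := fun h => hz (mem_image_add.1 h)
  refine (Gr.simon_lieb (G := lat d) hx hx1 Wu D hu hz').trans ?_
  have h1 : ∀ e, 0 ≤ x * (lat d).tp x ((iE W).image (sh u)) u ((lat d).yi Wu e) := fun e =>
    mul_nonneg hx (Gr.tp_nonneg hx _ _ _)
  have h2 : ∑ e ∈ (lat d).bdy Wu D, x * (lat d).tp x ((lat d).inn Wu D) u ((lat d).yi Wu e) *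
      (lat d).tp x D ((lat d).yo Wu e) z ≤ ∑ e ∈ (edg W \ iE W).image (sh u),
        x * (lat d).tp x ((iE W).image (sh u)) u ((lat d).yi Wu e) * M := by
    refine (Finset.sum_le_sum fun e he => ?_).trans
      (Finset.sum_le_sum_of_subset_of_nonneg (bdy_sub W u D) fun e _ _ => mul_nonneg (h1 e) hM0)
    refine mul_le_mul ?_ ?_ (Gr.tp_nonneg hx _ _ _) (h1 e)
    · exact mul_le_mul_of_nonneg_left (Gr.tp_mono hx hx1 (inn_sub W u D) _ _) hx
    · have h3 := bdy_sub W u D he
      obtain ⟨e', he', rfl⟩ := Finset.mem_image.1 h3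
      rw [hWu, yo_sh]
      exact hM e' he'
  refine h2.trans ?_
  rw [Finset.sum_image (fun a _ b _ h => sh_inj u h)]
  have h3 : ∀ e ∈ edg W \ iE W, x * (lat d).tp x ((iE W).image (sh u)) u
      ((lat d).yi Wu (sh u e)) * M = x * (lat d).tp x (iE W) 0 ((lat d).yi W e) * M := by
    intro e _
    rw [hWu, yi_sh]
    have h4 := tp_image (x := x) u (iE W) 0 ((lat d).yi W e)
    rw [zero_add] at h4
    rw [h4]
  rw [Finset.sum_congr rfl h3, ← Finset.sum_mul]
  exact mul_le_mul_of_nonneg_right (sum_yi_le hx W) hM0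

/-- **Exponential decay.** -/
theorem hasDecay_of_phi {x : ℝ} (hx : 0 < x) (hx1 : x < 1) {W : Finset (Vtx d)}
    (h0 : (0 : Vtx d) ∈ W) (hphi : phiS d x W < 1) : ∃ C ρ, HasDecay d x C ρ := by
  set L : ℕ := ∑ e ∈ edg W \ iE W, nrm ((lat d).yo W e) + ∑ w ∈ W, nrm w with hL
  have hLe : ∀ e ∈ edg W \ iE W, nrm ((lat d).yo W e) ≤ L := fun e he =>
    (Finset.single_le_sum (f := fun e => nrm ((lat d).yo W e)) (fun e _ => Nat.zero_le _) he).trans
      (Nat.le_add_right _ _)
  have hLw : ∀ w ∈ W, nrm w ≤ L := fun w hw =>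
    (Finset.single_le_sum (f := fun w : Vtx d => nrm w) (fun e _ => Nat.zero_le _) hw).trans
      (Nat.le_add_left _ _)
  set q : ℝ := max (phiS d x W) (1 / 2) with hq
  have hq1 : q < 1 := max_lt hphi (by norm_num)
  have hq0 : 0 < q := lt_max_of_lt_right (by norm_num)
  have hiter : ∀ (D : Finset (Edg d)) (z : Vtx d) (k : ℕ) (u : Vtx d),
      k * (L + 1) ≤ nrm (u - z) → (lat d).tp x D u z ≤ q ^ k := by
    intro D z k
    induction k with
    | zero => intro u _; rw [pow_zero]; exact Gr.tp_le_one hx.le hx1.le _ _ _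
    | succ k ih =>
      intro u hu
      have h1 : L + 1 ≤ (k + 1) * (L + 1) := Nat.le_mul_of_pos_left _ (Nat.succ_pos k)
      have hz : z - u ∉ W := by
        intro h2
        have h3 := hLw _ h2
        rw [nrm_sub_comm] at h3
        omega
      have h4 := phi_step hx.le hx1.le h0 D u z hz (M := q ^ k) (pow_nonneg hq0.le _) (by
        intro e he
        refine ih _ ?_
        have h5 := nrm_sub_le u ((lat d).yo W e + u) z
        have h6 : nrm (u - ((lat d).yo W e + u)) = nrm ((lat d).yo W e) := by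
          rw [← nrm_neg ((lat d).yo W e)]
          congr 1
          abel
        rw [h6] at h5
        have h7 := hLe e he
        have h8 : (k + 1) * (L + 1) = k * (L + 1) + (L + 1) := by ring
        omega)
      refine h4.trans ?_
      rw [pow_succ, mul_comm]
      exact mul_le_mul_of_nonneg_left (le_max_left _ _) (pow_nonneg hq0.le _)
  -- choice of the constants
  set r : ℝ := 1 - (1 - q) / (L + 1) with hr
  have hL1 : (0 : ℝ) < L + 1 := by positivity
  have hdiv : (1 - q) / (L + 1) ≤ 1 - q := by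
    rw [div_le_iff₀ hL1]
    have : (0 : ℝ) ≤ L := Nat.cast_nonneg _
    nlinarith
  have hdiv0 : 0 < (1 - q) / (L + 1) := div_pos (by linarith) hL1
  have hr0 : 0 < r := by linarith
  have hr1 : r < 1 := by linarith
  have hrq : q ≤ r ^ (L + 1) := by
    have h1 := one_add_mul_le_pow (a := -((1 - q) / (L + 1))) (by linarith) (L + 1)
    have h2 : 1 + ((L + 1 : ℕ) : ℝ) * -((1 - q) / (L + 1)) = q := by
      push_cast
      field_simp
      ring
    rw [h2] at h1
    have h3 : 1 + -((1 - q) / (L + 1)) = r := by rw [hr]; ring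
    rwa [h3] at h1
  refine ⟨(r ^ L)⁻¹, r, hx, hx1, (one_le_inv₀ (pow_pos hr0 _)).2 (pow_le_one₀ hr0.le hr1.le), hr0,
    hr1, fun D u z => ?_⟩
  set n := nrm (u - z) with hn
  have h1 := hiter D z (n / (L + 1)) u (Nat.div_mul_le_self _ _)
  refine h1.trans ?_
  have h2 : q ^ (n / (L + 1)) ≤ r ^ ((L + 1) * (n / (L + 1))) := by
    rw [pow_mul]
    exact pow_le_pow_left₀ hq0.le hrq _
  refine h2.trans ?_
  rw [le_inv_mul_iff₀ (pow_pos hr0 _), ← pow_add]
  refine pow_le_pow_of_le_one hr0.le hr1.le ?_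
  have h3 := Nat.div_add_mod n (L + 1)
  have h4 : n % (L + 1) < L + 1 := Nat.mod_lt n (Nat.succ_pos L)
  omega

end Pool.Agent.LoopO1
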