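import Pool.Agent.LoopO1_f0ab88.Graph

/-!
# Ratios of partition functions
-/

open Finset

set_option linter.unusedSectionVars false
set_option linter.unusedVariables false

namespace Pool.Agent.LoopO1.Gr

variable {V E : Type*} [DecidableEq V] [DecidableEq E] {G : Gr V E} {x : ℝ}

lemma f_pos (hx : 0 ≤ x) (D S : Finset E) : 0 < G.f x D S :=
  div_pos (Z_zero_pos hx _) (Z_zero_pos hx _)

lemma f_empty (hx : 0 ≤ x) (D : Finset E) : G.f x D ∅ = 1 := by
  unfold f Zp
  rw [Finset.sdiff_empty]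
  exact div_self (Z_zero_pos hx D).ne'

lemma f_union (hx : 0 ≤ x) (D S T : Finset E) : G.f x D (S ∪ T) = G.f x D S * G.f x (D \ S) T := by
  unfold f Zp
  have h1 := (Z_zero_pos (b := G.bd) hx D).ne'
  have h2 := (Z_zero_pos (b := G.bd) hx (D \ S)).ne'
  rw [Finset.sdiff_sdiff_left']
  have : D \ S ∩ (D \ T) = D \ (S ∪ T) := by
    ext e; simp only [mem_inter, mem_sdiff, mem_union]; tauto
  rw [this]
  field_simp

lemma f_singleton (D : Finset E) (e : E) : G.f x D {e} = G.fe x D e := by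
  unfold f fe
  rw [Finset.sdiff_singleton_eq_erase]

lemma f_insert (hx : 0 ≤ x) (D S : Finset E) (e : E) :
    G.f x D (insert e S) = G.f x D S * G.fe x (D \ S) e := by
  rw [← f_singleton, ← f_union hx, Finset.union_comm, Finset.insert_eq]

lemma fe_of_notMem (hx : 0 ≤ x) {D : Finset E} {e : E} (he : e ∉ D) : G.fe x D e = 1 := by
  unfold fe Zp
  rw [Finset.erase_eq_of_notMem he]
  exact div_self (Z_zero_pos hx D).ne'

lemma fe_le_one' (hx : 0 ≤ x) (D : Finset E) (e : E) : G.fe x D e ≤ 1 := by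
  by_cases he : e ∈ D
  · exact fe_le_one hx he
  · exact (fe_of_notMem hx he).le

lemma fe_anti (hx : 0 ≤ x) (hx1 : x ≤ 1) {D' D : Finset E} (h : D' ⊆ D) (e : E) :
    G.fe x D e ≤ G.fe x D' e := by
  by_cases he' : e ∈ D'
  · have he : e ∈ D := h he'
    have h1 := fe_mul (G := G) hx he
    have h2 := fe_mul (G := G) hx he'
    have h3 : G.gp x (D'.erase e) (G.bd e) ≤ G.gp x (D.erase e) (G.bd e) :=
      gp_mono hx hx1 (Finset.erase_subset_erase e h) _
    have h4 := gp_nonneg (G := G) hx (D'.erase e) (G.bd e)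
    have h5 : 0 < 1 + x * G.gp x (D'.erase e) (G.bd e) := by positivity
    have h6 := fe_pos (G := G) hx D e
    have h7 : G.fe x D e * (1 + x * G.gp x (D'.erase e) (G.bd e))
        ≤ G.fe x D' e * (1 + x * G.gp x (D'.erase e) (G.bd e)) := by
      rw [h2]
      calc G.fe x D e * (1 + x * G.gp x (D'.erase e) (G.bd e))
          ≤ G.fe x D e * (1 + x * G.gp x (D.erase e) (G.bd e)) := by gcongr
        _ = 1 := h1
    exact le_of_mul_le_mul_right h7 h5
  · rw [fe_of_notMem hx he']; exact fe_le_one' hx D e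

lemma f_anti (hx : 0 ≤ x) (hx1 : x ≤ 1) (S : Finset E) : ∀ {D' D : Finset E}, D' ⊆ D →
    G.f x D S ≤ G.f x D' S := by
  induction S using Finset.induction_on with
  | empty => intro D' D h; rw [f_empty hx, f_empty hx]
  | insert e S he ih =>
    intro D' D h
    rw [f_insert hx, f_insert hx]
    have h1 := ih h
    have h2 : G.fe x (D \ S) e ≤ G.fe x (D' \ S) e :=
      fe_anti hx hx1 (Finset.sdiff_subset_sdiff h le_rfl) e
    exact mul_le_mul h1 h2 (fe_pos hx _ _).le (f_pos hx _ _).le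

lemma f_le_one (hx : 0 ≤ x) (D S : Finset E) : G.f x D S ≤ 1 := by
  induction S using Finset.induction_on with
  | empty => rw [f_empty hx]
  | insert e S he ih =>
    rw [f_insert hx]
    exact mul_le_one₀ ih (fe_pos hx _ _).le (fe_le_one' hx _ _)

lemma f_subset_le (hx : 0 ≤ x) (D : Finset E) {S T : Finset E} (h : S ⊆ T) :
    G.f x D T ≤ G.f x D S := by
  have : T = S ∪ T := (Finset.union_eq_right.2 h).symm
  rw [this, f_union hx]
  exact mul_le_of_le_one_right (f_pos hx _ _).le (f_le_one hx _ _)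

/-- Avoiding events are positively correlated. -/
lemma f_union_ge (hx : 0 ≤ x) (hx1 : x ≤ 1) (D S T : Finset E) :
    G.f x D S * G.f x D T ≤ G.f x D (S ∪ T) := by
  rw [f_union hx]
  exact mul_le_mul_of_nonneg_left (f_anti hx hx1 T Finset.sdiff_subset) (f_pos hx _ _).le

variable (G x) in
/-- A kernel dominating the truncated four point functions. -/
def IsKernel (K : E → E → ℝ) : Prop := ∀ (D : Finset E) (e e' : E),
  x * (G.tp x D (G.src e) (G.src e') * G.tp x D (G.tgt e) (G.tgt e')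
    + G.tp x D (G.src e) (G.tgt e') * G.tp x D (G.tgt e) (G.src e')) ≤ K e e'

lemma IsKernel.nonneg (hx : 0 ≤ x) {K : E → E → ℝ} (hK : IsKernel G x K) (e e' : E) :
    0 ≤ K e e' := by
  refine le_trans ?_ (hK ∅ e e')
  have n := fun a c => tp_nonneg (G := G) (x := x) hx ∅ a c
  exact mul_nonneg hx (add_nonneg (mul_nonneg (n _ _) (n _ _)) (mul_nonneg (n _ _) (n _ _)))

lemma tp_sdiff (hx : 0 ≤ x) (hx1 : x ≤ 1) {K : E → E → ℝ} (hK : IsKernel G x K) (D S : Finset E)
    (e : E) :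
    G.tp x D (G.src e) (G.tgt e) - G.tp x (D \ S) (G.src e) (G.tgt e) ≤ ∑ e' ∈ S, K e e' := by
  induction S using Finset.induction_on with
  | empty => simp
  | insert e' S he ih =>
    rw [Finset.sum_insert he]
    have h1 := tp_diff (G := G) hx hx1 (D \ S) e' (G.src e) (G.tgt e)
    have h2 := hK (D \ S) e e'
    have h3 : D \ insert e' S = (D \ S).erase e' := by
      ext a; simp only [mem_sdiff, mem_insert, mem_erase]; tauto
    rw [h3]
    linarith

lemma fe_sdiff_le (hx : 0 ≤ x) (hx1 : x ≤ 1) {K : E → E → ℝ} (hK : IsKernel G x K)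
    (D S : Finset E) {e : E} (he : e ∉ S) :
    G.fe x (D \ S) e ≤ G.fe x D e * Real.exp (∑ e' ∈ S, K e e') := by
  have hκ : 0 ≤ ∑ e' ∈ S, K e e' := Finset.sum_nonneg fun e' _ => hK.nonneg hx e e'
  by_cases heD : e ∈ D
  · have heS : e ∈ D \ S := Finset.mem_sdiff.2 ⟨heD, he⟩
    have h1 := fe_mul (G := G) hx heD
    have h2 := fe_mul (G := G) hx heS
    have h3 := tp_sdiff (G := G) hx hx1 hK (D.erase e) S e
    have h4 : D.erase e \ S = (D \ S).erase e := by
      ext a; simp only [mem_sdiff, mem_erase]; tauto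
    rw [h4] at h3
    have h5 : G.gp x (D.erase e) (G.bd e) = G.tp x (D.erase e) (G.src e) (G.tgt e) := rfl
    have h6 : G.gp x ((D \ S).erase e) (G.bd e)
      = G.tp x ((D \ S).erase e) (G.src e) (G.tgt e) := rfl
    rw [h5] at h1
    rw [h6] at h2
    set a := G.tp x (D.erase e) (G.src e) (G.tgt e)
    set a' := G.tp x ((D \ S).erase e) (G.src e) (G.tgt e)
    set κ := ∑ e' ∈ S, K e e'
    have ha' : 0 ≤ a' := tp_nonneg hx _ _ _
    have hp := fe_pos (G := G) hx D e
    have hp' := fe_pos (G := G) hx (D \ S) e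
    have h7 : 1 + x * a ≤ (1 + x * a') * (1 + κ) := by
      have : x * a ≤ x * (a' + κ) := mul_le_mul_of_nonneg_left (by linarith) hx
      nlinarith [mul_nonneg (mul_nonneg hx ha') hκ, mul_nonneg (sub_nonneg.2 hx1) hκ]
    have h8 : 1 + κ ≤ Real.exp κ := by linarith [Real.add_one_le_exp κ]
    calc G.fe x (D \ S) e = G.fe x (D \ S) e * (G.fe x D e * (1 + x * a)) := by rw [h1, mul_one]
      _ ≤ G.fe x (D \ S) e * (G.fe x D e * ((1 + x * a') * (1 + κ))) := by gcongr
      _ = (G.fe x (D \ S) e * (1 + x * a')) * G.fe x D e * (1 + κ) := by ring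
      _ = G.fe x D e * (1 + κ) := by rw [h2, one_mul]
      _ ≤ _ := by gcongr
  · rw [fe_of_notMem hx heD, fe_of_notMem hx (fun h => heD (Finset.mem_sdiff.1 h).1), one_mul]
    exact Real.one_le_exp hκ

lemma f_sdiff_le (hx : 0 ≤ x) (hx1 : x ≤ 1) {K : E → E → ℝ} (hK : IsKernel G x K)
    (D S₂ : Finset E) (S₁ : Finset E) (hd : Disjoint S₁ S₂) :
    G.f x (D \ S₂) S₁ ≤ G.f x D S₁ * Real.exp (∑ e ∈ S₁, ∑ e' ∈ S₂, K e e') := by
  induction S₁ using Finset.induction_on with
  | empty => rw [f_empty hx, f_empty hx]; simp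
  | insert e S he ih =>
    rw [Finset.disjoint_insert_left] at hd
    rw [f_insert hx, f_insert hx, Finset.sum_insert he, Real.exp_add]
    have h1 := ih hd.2
    have h2 := fe_sdiff_le (G := G) hx hx1 hK (D \ S) S₂ hd.1
    have h3 : (D \ S₂) \ S = (D \ S) \ S₂ := by
      ext a; simp only [mem_sdiff]; tauto
    rw [h3]
    calc _ ≤ (G.f x D S * Real.exp (∑ e ∈ S, ∑ e' ∈ S₂, K e e'))
          * (G.fe x (D \ S) e * Real.exp (∑ e' ∈ S₂, K e e')) :=
          mul_le_mul h1 h2 (fe_pos hx _ _).le (mul_nonneg (f_pos hx _ _).le (Real.exp_pos _).le)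
      _ = _ := by ring

/-- Approximate factorisation. -/
lemma f_union_le (hx : 0 ≤ x) (hx1 : x ≤ 1) {K : E → E → ℝ} (hK : IsKernel G x K)
    (D S₁ S₂ : Finset E) (hd : Disjoint S₁ S₂) :
    G.f x D (S₁ ∪ S₂) ≤ G.f x D S₁ * G.f x D S₂ *
      Real.exp (∑ e ∈ S₁, ∑ e' ∈ S₂, K e e') := by
  rw [Finset.union_comm, f_union hx]
  have h := f_sdiff_le (G := G) hx hx1 hK D S₂ S₁ hd
  calc _ ≤ G.f x D S₂ * (G.f x D S₁ * Real.exp (∑ e ∈ S₁, ∑ e' ∈ S₂, K e e')) :=
        mul_le_mul_of_nonneg_left h (f_pos hx _ _).le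
    _ = _ := by ring

/-- Comparison of two domains both containing `D₀`. -/
lemma f_domain_le (hx : 0 ≤ x) (hx1 : x ≤ 1) {K : E → E → ℝ} (hK : IsKernel G x K)
    {D₀ D₁ D₂ S : Finset E} (h₁ : D₀ ⊆ D₁) (h₂ : D₀ ⊆ D₂) (hS : S ⊆ D₀) :
    G.f x D₁ S ≤ G.f x D₂ S * Real.exp (∑ e ∈ S, ∑ e' ∈ D₂ \ D₀, K e e') := by
  have hd : Disjoint S (D₂ \ D₀) := by
    rw [Finset.disjoint_left]
    intro e he he'
    exact (Finset.mem_sdiff.1 he').2 (hS he)
  have h := f_sdiff_le (G := G) hx hx1 hK D₂ (D₂ \ D₀) S hd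
  rw [Finset.sdiff_sdiff_eq_self h₂] at h
  exact (f_anti hx hx1 S h₁).trans h

end Pool.Agent.LoopO1.Gr
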