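import Pool.Agent.LoopO1_f0ab88.Even

/-!
# The random cluster representation of the even subgraph partition functions
-/

open Finset

set_option linter.unusedSectionVars false
set_option linter.unusedVariables false

namespace Pool.Agent.LoopO1

section FK

variable {E M : Type*} [DecidableEq E] [AddCommGroup M] (b : E → M)

/-- `A` is the source set of some subset of `ω`. -/
def FK (ω : Finset E) (A : M) : Prop := ∃ η ⊆ ω, ∑ e ∈ η, b e = A

open Classical in
/-- The number of subsets of `ω` with source set `A`. -/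
noncomputable def NK (ω : Finset E) (A : M) : ℕ := (ω.powerset.filter fun η => ∑ e ∈ η, b e = A).card

variable {b}

lemma sum_symmDiff (h2 : ∀ a : M, a + a = 0) (s t : Finset E) :
    ∑ e ∈ symmDiff s t, b e = ∑ e ∈ s, b e + ∑ e ∈ t, b e := by
  have h1 : ∑ e ∈ s, b e = ∑ e ∈ s \ t, b e + ∑ e ∈ s ∩ t, b e := by
    rw [← Finset.sum_sdiff (Finset.inter_subset_left : s ∩ t ⊆ s), Finset.sdiff_inter_self_left]
  have h3 : ∑ e ∈ t, b e = ∑ e ∈ t \ s, b e + ∑ e ∈ s ∩ t, b e := by
    rw [← Finset.sum_sdiff (Finset.inter_subset_right : s ∩ t ⊆ t), Finset.sdiff_inter_self_right]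
  rw [symmDiff_def, Finset.sup_eq_union, Finset.sum_union (disjoint_sdiff_sdiff), h1, h3]
  have h4 := h2 (∑ e ∈ s ∩ t, b e)
  calc ∑ e ∈ s \ t, b e + ∑ e ∈ t \ s, b e
      = ∑ e ∈ s \ t, b e + ∑ e ∈ t \ s, b e + (∑ e ∈ s ∩ t, b e + ∑ e ∈ s ∩ t, b e) := by
        rw [h4, add_zero]
    _ = _ := by abel

lemma symmDiff_subset {s t u : Finset E} (hs : s ⊆ u) (ht : t ⊆ u) : symmDiff s t ⊆ u := by
  intro e he
  rw [Finset.mem_symmDiff] at he
  rcases he with h | h
  · exact hs h.1
  · exact ht h.1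

lemma FK_zero (ω : Finset E) : FK b ω 0 := ⟨∅, Finset.empty_subset _, by simp⟩

lemma FK_add (h2 : ∀ a : M, a + a = 0) {ω : Finset E} {A B : M} (hA : FK b ω A) (hB : FK b ω B) :
    FK b ω (A + B) := by
  obtain ⟨η, hη, rfl⟩ := hA
  obtain ⟨η', hη', rfl⟩ := hB
  exact ⟨symmDiff η η', symmDiff_subset hη hη', sum_symmDiff h2 _ _⟩

lemma FK_mono {ω ω' : Finset E} (h : ω ⊆ ω') {A : M} (hA : FK b ω A) : FK b ω' A := by
  obtain ⟨η, hη, hA⟩ := hA
  exact ⟨η, hη.trans h, hA⟩

lemma FK_edge {ω : Finset E} {e : E} (he : e ∈ ω) : FK b ω (b e) :=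
  ⟨{e}, by simpa using he, by simp⟩

open Classical in
lemma NK_eq (h2 : ∀ a : M, a + a = 0) (ω : Finset E) (A : M) :
    NK b ω A = if FK b ω A then NK b ω 0 else 0 := by
  split_ifs with h
  · obtain ⟨η₀, hη₀, hA⟩ := h
    unfold NK
    refine Finset.card_bij' (fun η _ => symmDiff η η₀) (fun η _ => symmDiff η η₀) ?_ ?_ ?_ ?_
    · intro η hη
      rw [Finset.mem_filter, Finset.mem_powerset] at hη ⊢
      refine ⟨symmDiff_subset hη.1 hη₀, ?_⟩
      rw [sum_symmDiff h2, hη.2, hA, h2]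
    · intro η hη
      rw [Finset.mem_filter, Finset.mem_powerset] at hη ⊢
      refine ⟨symmDiff_subset hη.1 hη₀, ?_⟩
      rw [sum_symmDiff h2, hη.2, hA, zero_add]
    · intro η _
      simp
    · intro η _
      simp
  · unfold NK
    rw [Finset.card_eq_zero, Finset.filter_eq_empty_iff]
    intro η hη hA
    exact h ⟨η, Finset.mem_powerset.1 hη, hA⟩

lemma NK_zero_pos (ω : Finset E) : 0 < NK b ω 0 := by
  classical
  unfold NK
  rw [Finset.card_pos]
  exact ⟨∅, by simp⟩

open Classical in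
lemma NK_mul_le (h2 : ∀ a : M, a + a = 0) (ω ω' : Finset E) :
    NK b ω 0 * NK b ω' 0 ≤ NK b (ω ∩ ω') 0 * NK b (ω ∪ ω') 0 := by
  set A := ω.powerset.filter fun η => ∑ e ∈ η, b e = 0 with hA
  set B := ω'.powerset.filter fun η => ∑ e ∈ η, b e = 0 with hB
  have h1 : NK b ω 0 * NK b ω' 0 = (A ×ˢ B).card := by
    rw [Finset.card_product]; rfl
  rw [h1]
  have h3 : (A ×ˢ B).card ≤ NK b (ω ∩ ω') 0 *
      ((A ×ˢ B).image fun p => symmDiff p.1 p.2).card := by
    apply Finset.card_le_mul_card_image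
    intro ζ hζ
    obtain ⟨⟨p, q⟩, hpq, hζ'⟩ := Finset.mem_image.1 hζ
    rw [Finset.mem_product] at hpq
    simp only at hζ' hpq
    have hp := hpq.1
    have hq := hpq.2
    rw [hA, Finset.mem_filter, Finset.mem_powerset] at hp
    rw [hB, Finset.mem_filter, Finset.mem_powerset] at hq
    unfold NK
    refine Finset.card_le_card_of_injOn (fun r => symmDiff r.1 p) ?_ ?_
    · rintro ⟨p', q'⟩ hr
      simp only [Finset.coe_filter, Set.mem_ofPred_eq, Finset.mem_product] at hr
      obtain ⟨⟨hp', hq'⟩, hr⟩ := hr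
      rw [hA, Finset.mem_filter, Finset.mem_powerset] at hp'
      rw [hB, Finset.mem_filter, Finset.mem_powerset] at hq'
      simp only [Finset.coe_filter, Set.mem_ofPred_eq, Finset.mem_powerset]
      constructor
      · apply Finset.subset_inter
        · exact symmDiff_subset hp'.1 hp.1
        · have : symmDiff p' p = symmDiff q' q := by
            have h4 : symmDiff p' q' = symmDiff p q := by rw [hr, hζ']
            calc symmDiff p' p = symmDiff (symmDiff (symmDiff p' q') q') p := by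
                  rw [symmDiff_assoc p' q' q', symmDiff_self, symmDiff_bot]
              _ = symmDiff (symmDiff (symmDiff p q) q') p := by rw [h4]
              _ = symmDiff (symmDiff (symmDiff p q) p) q' := by
                  rw [symmDiff_assoc (symmDiff p q), symmDiff_comm q' p, ← symmDiff_assoc]
              _ = symmDiff q q' := by
                  rw [symmDiff_comm p q, symmDiff_assoc q p p, symmDiff_self, symmDiff_bot]
              _ = _ := symmDiff_comm _ _
          rw [this]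
          exact symmDiff_subset hq'.1 hq.1
      · rw [sum_symmDiff h2, hp'.2, hp.2, add_zero]
    · rintro ⟨p', q'⟩ hr ⟨p'', q''⟩ hr' h
      simp only [Finset.coe_filter, Set.mem_ofPred_eq, Finset.mem_product] at hr hr'
      simp only at h
      have e1 : p' = p'' := symmDiff_left_injective p h
      subst e1
      have e2 : symmDiff p' q' = symmDiff p' q'' := by rw [hr.2, hr'.2]
      have e3 : q' = q'' := symmDiff_right_injective p' e2
      rw [e3]
  refine h3.trans (Nat.mul_le_mul_left _ ?_)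
  unfold NK
  apply Finset.card_le_card
  intro ζ hζ
  obtain ⟨⟨p, q⟩, hpq, rfl⟩ := Finset.mem_image.1 hζ
  rw [Finset.mem_product] at hpq
  have hp := hpq.1
  have hq := hpq.2
  rw [hA, Finset.mem_filter, Finset.mem_powerset] at hp
  rw [hB, Finset.mem_filter, Finset.mem_powerset] at hq
  rw [Finset.mem_filter, Finset.mem_powerset]
  refine ⟨symmDiff_subset (hp.1.trans Finset.subset_union_left)
    (hq.1.trans Finset.subset_union_right), ?_⟩
  rw [sum_symmDiff h2, hp.2, hq.2, add_zero]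

/-- The Bernoulli weight. -/
noncomputable def wB (x : ℝ) (D ω : Finset E) : ℝ := x ^ ω.card * (1 - x) ^ (D \ ω).card

lemma wB_nonneg {x : ℝ} (hx : 0 ≤ x) (hx1 : x ≤ 1) (D ω : Finset E) : 0 ≤ wB x D ω :=
  mul_nonneg (pow_nonneg hx _) (pow_nonneg (sub_nonneg.2 hx1) _)

/-- Summing the Bernoulli weight above a fixed set. -/
lemma sum_wB_ge (x : ℝ) {D η : Finset E} (hη : η ⊆ D) :
    ∑ ω ∈ D.powerset, (if η ⊆ ω then wB x D ω else 0) = x ^ η.card := by
  rw [← Finset.sum_filter]
  have h1 : ∑ ω ∈ D.powerset.filter (fun ω => η ⊆ ω), wB x D ω =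
      ∑ ζ ∈ (D \ η).powerset, x ^ η.card * (x ^ ζ.card * (1 - x) ^ ((D \ η).card - ζ.card)) := by
    refine Finset.sum_nbij' (fun ω => ω \ η) (fun ζ => ζ ∪ η) ?_ ?_ ?_ ?_ ?_
    · intro ω hω
      rw [Finset.mem_filter, Finset.mem_powerset] at hω
      rw [Finset.mem_powerset]
      exact Finset.sdiff_subset_sdiff hω.1 (Finset.Subset.refl _)
    · intro ζ hζ
      rw [Finset.mem_powerset] at hζ
      rw [Finset.mem_filter, Finset.mem_powerset]
      exact ⟨Finset.union_subset (hζ.trans Finset.sdiff_subset) hη, Finset.subset_union_right⟩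
    · intro ω hω
      rw [Finset.mem_filter] at hω
      exact Finset.sdiff_union_of_subset hω.2
    · intro ζ hζ
      rw [Finset.mem_powerset] at hζ
      rw [Finset.union_sdiff_right]
      exact Finset.sdiff_eq_self_of_disjoint
        (Finset.disjoint_of_subset_left hζ Finset.sdiff_disjoint)
    · intro ω hω
      rw [Finset.mem_filter, Finset.mem_powerset] at hω
      have e1 : ω.card = η.card + (ω \ η).card := by
        rw [Finset.card_sdiff_of_subset hω.2]
        have := Finset.card_le_card hω.2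
        omega
      have e2 : (D \ ω).card = (D \ η).card - (ω \ η).card := by
        rw [Finset.card_sdiff_of_subset hω.2, Finset.card_sdiff_of_subset hω.1,
          Finset.card_sdiff_of_subset hη]
        have := Finset.card_le_card hω.2
        have := Finset.card_le_card hω.1
        omega
      unfold wB
      rw [e1, e2, pow_add]
      ring
  rw [h1, ← Finset.mul_sum]
  have h2 := Finset.sum_pow_mul_eq_add_pow x (1 - x) (D \ η)
  rw [h2]
  simp

/-- The random cluster representation. -/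
lemma Z_eq_FK (x : ℝ) (D : Finset E) (A : M) :
    Z b x D A = ∑ ω ∈ D.powerset, wB x D ω * NK b ω A := by
  classical
  have h1 : ∀ ω ∈ D.powerset, wB x D ω * (NK b ω A : ℝ) =
      ∑ η ∈ D.powerset, if ∑ e ∈ η, b e = A then (if η ⊆ ω then wB x D ω else 0) else 0 := by
    intro ω hω
    rw [Finset.mem_powerset] at hω
    unfold NK
    rw [Finset.card_eq_sum_ones, Nat.cast_sum, Finset.mul_sum, Finset.sum_filter]
    rw [← Finset.sum_subset (Finset.powerset_mono.2 hω)]
    · refine Finset.sum_congr rfl fun η hη => ?_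
      rw [if_pos (Finset.mem_powerset.1 hη)]
      simp
    · intro η _ hη
      rw [Finset.mem_powerset] at hη
      rw [if_neg hη]
      simp
  rw [Finset.sum_congr rfl h1, Finset.sum_comm]
  unfold Z
  refine Finset.sum_congr rfl fun η hη => ?_
  split_ifs with h
  · exact (sum_wB_ge x (Finset.mem_powerset.1 hη)).symm
  · simp

/-- The random cluster weight. -/
noncomputable def wF (b : E → M) (x : ℝ) (D ω : Finset E) : ℝ := wB x D ω * NK b ω 0

lemma wF_nonneg {x : ℝ} (hx : 0 ≤ x) (hx1 : x ≤ 1) (D ω : Finset E) : 0 ≤ wF b x D ω :=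
  mul_nonneg (wB_nonneg hx hx1 D ω) (Nat.cast_nonneg _)

open Classical in
lemma Z_eq_wF (h2 : ∀ a : M, a + a = 0) (x : ℝ) (D : Finset E) (A : M) :
    Z b x D A = ∑ ω ∈ D.powerset, if FK b ω A then wF b x D ω else 0 := by
  rw [Z_eq_FK]
  refine Finset.sum_congr rfl fun ω _ => ?_
  rw [NK_eq h2]
  split_ifs
  · rfl
  · simp

lemma Z_zero_eq_wF (x : ℝ) (D : Finset E) :
    Z b x D 0 = ∑ ω ∈ D.powerset, wF b x D ω := Z_eq_FK x D 0

lemma wB_mul {x : ℝ} {D s t : Finset E} (hs : s ⊆ D) (ht : t ⊆ D) :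
    wB x D s * wB x D t = wB x D (s ∩ t) * wB x D (s ∪ t) := by
  unfold wB
  have e1 : s.card + t.card = (s ∩ t).card + (s ∪ t).card := by
    rw [add_comm (s ∩ t).card, Finset.card_union_add_card_inter]
  have e2 : (D \ s).card + (D \ t).card = (D \ (s ∩ t)).card + (D \ (s ∪ t)).card := by
    rw [Finset.card_sdiff_of_subset hs, Finset.card_sdiff_of_subset ht,
      Finset.card_sdiff_of_subset (Finset.inter_subset_left.trans hs),
      Finset.card_sdiff_of_subset (Finset.union_subset hs ht)]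
    have h1 := Finset.card_le_card hs
    have h2 := Finset.card_le_card ht
    have h3 := Finset.card_le_card (Finset.union_subset hs ht)
    have h4 := Finset.card_le_card (Finset.inter_subset_left.trans hs : s ∩ t ⊆ D)
    omega
  calc x ^ s.card * (1 - x) ^ (D \ s).card * (x ^ t.card * (1 - x) ^ (D \ t).card)
      = x ^ (s.card + t.card) * (1 - x) ^ ((D \ s).card + (D \ t).card) := by
        rw [pow_add, pow_add]; ring
    _ = _ := by rw [e1, e2, pow_add, pow_add]; ring

lemma wF_lattice (h2 : ∀ a : M, a + a = 0) {x : ℝ} (hx : 0 ≤ x) (hx1 : x ≤ 1) {D s t : Finset E}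
    (hs : s ⊆ D) (ht : t ⊆ D) :
    wF b x D s * wF b x D t ≤ wF b x D (s ∩ t) * wF b x D (s ∪ t) := by
  unfold wF
  have h := NK_mul_le (b := b) h2 s t
  have h' : (NK b s 0 : ℝ) * NK b t 0 ≤ NK b (s ∩ t) 0 * NK b (s ∪ t) 0 := by exact_mod_cast h
  calc wB x D s * (NK b s 0 : ℝ) * (wB x D t * NK b t 0)
      = (wB x D s * wB x D t) * ((NK b s 0 : ℝ) * NK b t 0) := by ring
    _ = (wB x D (s ∩ t) * wB x D (s ∪ t)) * ((NK b s 0 : ℝ) * NK b t 0) := by rw [wB_mul hs ht]
    _ ≤ (wB x D (s ∩ t) * wB x D (s ∪ t)) * ((NK b (s ∩ t) 0 : ℝ) * NK b (s ∪ t) 0) :=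
        mul_le_mul_of_nonneg_left h' (mul_nonneg (wB_nonneg hx hx1 _ _) (wB_nonneg hx hx1 _ _))
    _ = _ := by ring

/-- The FKG inequality. -/
theorem fkg_wF (h2 : ∀ a : M, a + a = 0) {x : ℝ} (hx : 0 ≤ x) (hx1 : x ≤ 1) (D : Finset E)
    (f g : Finset E → ℝ) (hf0 : ∀ s, 0 ≤ f s) (hg0 : ∀ s, 0 ≤ g s)
    (hf : ∀ s t, s ⊆ t → t ⊆ D → f s ≤ f t) (hg : ∀ s t, s ⊆ t → t ⊆ D → g s ≤ g t) :
    (∑ ω ∈ D.powerset, wF b x D ω * f ω) * ∑ ω ∈ D.powerset, wF b x D ω * g ω ≤
      (∑ ω ∈ D.powerset, wF b x D ω) * ∑ ω ∈ D.powerset, wF b x D ω * (f ω * g ω) := by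
  have h := Finset.four_functions_theorem (f₁ := fun ω => wF b x D ω * f ω)
    (f₂ := fun ω => wF b x D ω * g ω) (f₃ := fun ω => wF b x D ω)
    (f₄ := fun ω => wF b x D ω * (f ω * g ω)) D
    (fun ω => mul_nonneg (wF_nonneg hx hx1 _ _) (hf0 _))
    (fun ω => mul_nonneg (wF_nonneg hx hx1 _ _) (hg0 _))
    (fun ω => wF_nonneg hx hx1 _ _)
    (fun ω => mul_nonneg (wF_nonneg hx hx1 _ _) (mul_nonneg (hf0 _) (hg0 _))) ?_
    (Finset.Subset.refl D.powerset) (Finset.Subset.refl D.powerset)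
  · rwa [Finset.powerset_infs_powerset_self, Finset.powerset_sups_powerset_self] at h
  · intro s hs t ht
    have h1 := wF_lattice (b := b) h2 hx hx1 hs ht
    have h3 : f s ≤ f (s ∪ t) := hf _ _ Finset.subset_union_left (Finset.union_subset hs ht)
    have h4 : g t ≤ g (s ∪ t) := hg _ _ Finset.subset_union_right (Finset.union_subset hs ht)
    calc wF b x D s * f s * (wF b x D t * g t)
        = (wF b x D s * wF b x D t) * (f s * g t) := by ring
      _ ≤ (wF b x D (s ∩ t) * wF b x D (s ∪ t)) * (f (s ∪ t) * g (s ∪ t)) := by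
          apply mul_le_mul h1 (mul_le_mul h3 h4 (hg0 _) (hf0 _)) (mul_nonneg (hf0 _) (hg0 _))
          exact mul_nonneg (wF_nonneg hx hx1 _ _) (wF_nonneg hx hx1 _ _)
      _ = _ := by ring

open Classical in
/-- Monotonicity in the parameter `x`. -/
theorem g_mono_x (h2 : ∀ a : M, a + a = 0) {x y : ℝ} (hx : 0 < x) (hxy : x ≤ y) (hy1 : y < 1)
    (D : Finset E) (A : M) : g b x D A ≤ g b y D A := by
  have hx1 : x < 1 := lt_of_le_of_lt hxy hy1
  have hy : 0 < y := lt_of_lt_of_le hx hxy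
  set r : ℝ := y * (1 - x) / (x * (1 - y)) with hr
  have h1x : 0 < 1 - x := sub_pos.2 hx1
  have h1y : 0 < 1 - y := sub_pos.2 hy1
  have hr1 : 1 ≤ r := by
    rw [hr, le_div_iff₀ (mul_pos hx h1y)]
    nlinarith
  set κ : ℝ := ((1 - y) / (1 - x)) ^ D.card with hκ
  have hκ0 : 0 < κ := pow_pos (div_pos h1y h1x) _
  have hw : ∀ ω ∈ D.powerset, wF b y D ω = κ * (wF b x D ω * r ^ ω.card) := by
    intro ω hω
    rw [Finset.mem_powerset] at hω
    unfold wF wB
    have e1 : D.card = (D \ ω).card + ω.card := (Finset.card_sdiff_add_card_eq_card hω).symm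
    rw [hκ, hr, e1, pow_add, div_pow, div_pow, div_pow, mul_pow, mul_pow]
    have h3 := pow_pos h1x (D \ ω).card
    have h4 := pow_pos h1x ω.card
    have h5 := pow_pos h1y ω.card
    have h6 := pow_pos hx ω.card
    field_simp
  have hfkg := fkg_wF (b := b) h2 hx.le hx1.le D (fun ω => if FK b ω A then 1 else 0)
    (fun ω => r ^ ω.card) (fun s => by split_ifs <;> norm_num) (fun s => by positivity)
    (fun s t hst _ => by
      by_cases h : FK b s A
      · rw [if_pos h, if_pos (FK_mono hst h)]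
      · rw [if_neg h]; split_ifs <;> norm_num)
    (fun s t hst _ => pow_le_pow_right₀ hr1 (Finset.card_le_card hst))
  have e1 : ∑ ω ∈ D.powerset, wF b x D ω * (if FK b ω A then (1 : ℝ) else 0) = Z b x D A := by
    rw [Z_eq_wF h2]
    refine Finset.sum_congr rfl fun ω _ => ?_
    split_ifs <;> simp
  have e2 : ∑ ω ∈ D.powerset, wF b x D ω = Z b x D 0 := (Z_zero_eq_wF x D).symm
  have e3 : Z b y D 0 = κ * ∑ ω ∈ D.powerset, wF b x D ω * r ^ ω.card := by
    rw [Z_zero_eq_wF, Finset.mul_sum]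
    exact Finset.sum_congr rfl hw
  have e4 : Z b y D A = κ * ∑ ω ∈ D.powerset, wF b x D ω *
      ((if FK b ω A then (1 : ℝ) else 0) * r ^ ω.card) := by
    rw [Z_eq_wF h2, Finset.mul_sum]
    refine Finset.sum_congr rfl fun ω hω => ?_
    rw [hw ω hω]
    split_ifs <;> simp
  rw [e1, e2] at hfkg
  have hzx := Z_zero_pos (b := b) hx.le D
  have hzy := Z_zero_pos (b := b) hy.le D
  unfold g
  rw [div_le_div_iff₀ hzx hzy, e3, e4]
  calc Z b x D A * (κ * ∑ ω ∈ D.powerset, wF b x D ω * r ^ ω.card)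
      = κ * (Z b x D A * ∑ ω ∈ D.powerset, wF b x D ω * r ^ ω.card) := by ring
    _ ≤ κ * (Z b x D 0 * ∑ ω ∈ D.powerset, wF b x D ω *
      ((if FK b ω A then (1 : ℝ) else 0) * r ^ ω.card)) :=
        mul_le_mul_of_nonneg_left hfkg hκ0.le
    _ = _ := by ring

end FK

end Pool.Agent.LoopO1
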