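import Pool.Agent.LoopO1_f0ab88.Sharp1
import Pool.Agent.LoopO1_f0ab88.Graph

/-!
# Pairs of configurations and the Simon-Lieb inequality
-/

open Finset

set_option linter.unusedSectionVars false
set_option linter.unusedVariables false

namespace Pool.Agent.LoopO1

section DC

variable {E M : Type*} [DecidableEq E] [AddCommGroup M] {b : E → M}

/-- The weight of a pair `(η, ω)`. -/
noncomputable def wD (x : ℝ) (H η ω : Finset E) : ℝ :=
  x ^ η.card * ((x ^ 2) ^ (η ∩ H).card)⁻¹ * wB (x ^ 2) H ω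

lemma wD_nonneg {x : ℝ} (hx : 0 ≤ x) (hx1 : x ≤ 1) (H η ω : Finset E) : 0 ≤ wD x H η ω := by
  unfold wD
  have h1 : x ^ 2 ≤ 1 := pow_le_one₀ hx hx1
  exact mul_nonneg (mul_nonneg (pow_nonneg hx _) (inv_nonneg.2 (by positivity)))
    (wB_nonneg (by positivity) h1 _ _)

lemma sum_wD {x : ℝ} (hx : 0 < x) {H η₁ η : Finset E} (h₁ : η₁ ⊆ H) :
    ∑ ω ∈ H.powerset, (if η ∩ H ⊆ ω ∧ η₁ ⊆ ω then wD x H η ω else 0) =
      x ^ η₁.card * x ^ (symmDiff η₁ η).card := by
  have e1 : ∀ ω ∈ H.powerset, (if η ∩ H ⊆ ω ∧ η₁ ⊆ ω then wD x H η ω else 0) =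
      x ^ η.card * ((x ^ 2) ^ (η ∩ H).card)⁻¹ *
        (if η₁ ∪ (η ∩ H) ⊆ ω then wB (x ^ 2) H ω else 0) := by
    intro ω _
    have : (η ∩ H ⊆ ω ∧ η₁ ⊆ ω) ↔ η₁ ∪ (η ∩ H) ⊆ ω := by
      rw [Finset.union_subset_iff, and_comm]
    simp only [this]
    split_ifs
    · rfl
    · simp
  rw [Finset.sum_congr rfl e1, ← Finset.mul_sum,
    sum_wB_ge _ (Finset.union_subset h₁ Finset.inter_subset_right)]
  have e2 : (η₁ ∪ (η ∩ H)).card = (η ∩ H).card + (η₁ \ η).card := by
    have : η₁ ∪ (η ∩ H) = (η ∩ H) ∪ (η₁ \ η) := by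
      ext e
      simp only [Finset.mem_union, Finset.mem_inter, Finset.mem_sdiff]
      constructor
      · rintro (h | h)
        · by_cases he : e ∈ η
          · exact Or.inl ⟨he, h₁ h⟩
          · exact Or.inr ⟨h, he⟩
        · exact Or.inl h
      · rintro (h | h)
        · exact Or.inr h
        · exact Or.inl h.1
    rw [this, Finset.card_union_of_disjoint]
    rw [Finset.disjoint_left]
    intro e he he'
    rw [Finset.mem_inter] at he
    rw [Finset.mem_sdiff] at he'
    exact he'.2 he.1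
  have e3 : η₁.card + (symmDiff η₁ η).card = η.card + 2 * (η₁ \ η).card := by
    rw [symmDiff_def, Finset.sup_eq_union, Finset.card_union_of_disjoint disjoint_sdiff_sdiff]
    have h4 := Finset.card_inter_add_card_sdiff η₁ η
    have h5 := Finset.card_inter_add_card_sdiff η η₁
    rw [Finset.inter_comm] at h5
    omega
  rw [← pow_add, e3, e2, pow_add (x ^ 2), pow_add, pow_mul]
  have : (x ^ 2) ^ (η ∩ H).card ≠ 0 := pow_ne_zero _ (pow_ne_zero _ hx.ne')
  field_simp

open Classical in
/-- The double configuration identity. -/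
theorem double_sum (h2 : ∀ a : M, a + a = 0) {x : ℝ} (hx : 0 < x) {H D : Finset E} (hHD : H ⊆ D)
    (A B : M) (Ψ : Finset E → ℝ) :
    ∑ η₁ ∈ H.powerset, ∑ η₂ ∈ D.powerset,
      (if ∑ e ∈ η₁, b e = A ∧ ∑ e ∈ η₂, b e = B then
        x ^ η₁.card * x ^ η₂.card * Ψ (symmDiff η₁ η₂) else 0) =
    ∑ η ∈ D.powerset, (if ∑ e ∈ η, b e = A + B then
      Ψ η * ∑ ω ∈ H.powerset, (if η ∩ H ⊆ ω then wD x H η ω * NK b ω A else 0) else 0) := by
  have step1 : ∀ η₁ ∈ H.powerset, ∑ η₂ ∈ D.powerset,
      (if ∑ e ∈ η₁, b e = A ∧ ∑ e ∈ η₂, b e = B then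
        x ^ η₁.card * x ^ η₂.card * Ψ (symmDiff η₁ η₂) else 0) =
      ∑ η ∈ D.powerset, (if ∑ e ∈ η₁, b e = A ∧ ∑ e ∈ η, b e = A + B then
        x ^ η₁.card * x ^ (symmDiff η₁ η).card * Ψ η else 0) := by
    intro η₁ h₁
    rw [Finset.mem_powerset] at h₁
    refine Finset.sum_nbij' (fun η => symmDiff η₁ η) (fun η => symmDiff η₁ η) ?_ ?_ ?_ ?_ ?_
    · intro η hη
      rw [Finset.mem_powerset] at hη ⊢
      exact symmDiff_subset (h₁.trans hHD) hη
    · intro η hη
      rw [Finset.mem_powerset] at hη ⊢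
      exact symmDiff_subset (h₁.trans hHD) hη
    · intro η _; simp
    · intro η _; simp
    · intro η hη
      have e1 : symmDiff η₁ (symmDiff η₁ η) = η := by simp
      rw [e1, sum_symmDiff h2]
      by_cases hA : ∑ e ∈ η₁, b e = A
      · rw [hA]
        have : (∑ e ∈ η, b e = B) ↔ (A + ∑ e ∈ η, b e = A + B) := by
          rw [add_right_inj]
        simp only [this]
      · simp [hA]
  rw [Finset.sum_congr rfl step1, Finset.sum_comm]
  refine Finset.sum_congr rfl fun η hη => ?_
  by_cases hAB : ∑ e ∈ η, b e = A + B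
  · simp only [hAB, and_true, if_true]
    have step2 : ∀ ω ∈ H.powerset, (if η ∩ H ⊆ ω then wD x H η ω * (NK b ω A : ℝ) else 0) =
        ∑ η₁ ∈ H.powerset, (if ∑ e ∈ η₁, b e = A then
          (if η ∩ H ⊆ ω ∧ η₁ ⊆ ω then wD x H η ω else 0) else 0) := by
      intro ω hω
      rw [Finset.mem_powerset] at hω
      by_cases hs : η ∩ H ⊆ ω
      · rw [if_pos hs]
        unfold NK
        rw [Finset.card_eq_sum_ones, Nat.cast_sum, Finset.mul_sum, Finset.sum_filter]
        rw [← Finset.sum_subset (Finset.powerset_mono.2 hω)]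
        · refine Finset.sum_congr rfl fun ζ hζ => ?_
          have hζ' := Finset.mem_powerset.1 hζ
          simp only [hs, hζ', and_self, if_true, Nat.cast_one, mul_one]
        · intro ζ _ hζ
          rw [Finset.mem_powerset] at hζ
          simp only [hζ, and_false, if_false, ite_self]
      · rw [if_neg hs]
        symm
        apply Finset.sum_eq_zero
        intro ζ _
        simp only [hs, false_and, if_false, ite_self]
    rw [Finset.sum_congr rfl step2, Finset.sum_comm, Finset.mul_sum]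
    refine Finset.sum_congr rfl fun η₁ h₁ => ?_
    rw [Finset.mem_powerset] at h₁
    split_ifs with hA
    · rw [sum_wD hx h₁]; ring
    · simp
  · rw [if_neg hAB]
    apply Finset.sum_eq_zero
    intro η₁ _
    rw [if_neg (fun h => hAB h.2)]

end DC

namespace Gr

variable {V E : Type*} [DecidableEq V] [DecidableEq E] {G : Gr V E} {x : ℝ}

lemma FK_outside {S : Finset V} {ω : Finset E} (hω : ∀ e ∈ ω, G.src e ∈ S ∧ G.tgt e ∈ S)
    {A : V → ZMod 2} (h : FK G.bd ω A) {c : V} (hc : c ∉ S) : A c = 0 := by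
  obtain ⟨η, hη, rfl⟩ := h
  rw [Finset.sum_apply]
  apply Finset.sum_eq_zero
  intro e he
  obtain ⟨h1, h2⟩ := hω e (hη he)
  have hc1 : c ≠ G.src e := fun h => hc (by rw [h]; exact h1)
  have hc2 : c ≠ G.tgt e := fun h => hc (by rw [h]; exact h2)
  unfold bd
  rw [Pi.add_apply, dl_apply_ne hc1, dl_apply_ne hc2, add_zero]

open Classical in
/-- The parity argument. -/
lemma exists_exit {S : Finset V} {D ω η : Finset E} {u v : V} (hu : u ∈ S) (hv : v ∉ S)
    (hη : η ⊆ D) (hω : ∀ e ∈ ω, G.src e ∈ S ∧ G.tgt e ∈ S)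
    (hsub : η ∩ D.filter (fun e => G.src e ∈ S ∧ G.tgt e ∈ S) ⊆ ω)
    (hbd : ∑ e ∈ η, G.bd e = dl u + dl v) :
    ∃ e ∈ η, (G.src e ∈ S ∧ G.tgt e ∉ S ∧ FK G.bd ω (dl u + dl (G.src e))) ∨
      (G.tgt e ∈ S ∧ G.src e ∉ S ∧ FK G.bd ω (dl u + dl (G.tgt e))) := by
  have h2 : ∀ a : V → ZMod 2, a + a = 0 := add_self_fun
  set f : V → ZMod 2 := fun c => if FK G.bd ω (dl u + dl c) then 1 else 0 with hf
  have hfS : ∀ c, f c = 1 → c ∈ S := by
    intro c hc
    by_contra hcS
    have h1 : FK G.bd ω (dl u + dl c) := by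
      by_contra h; simp [hf, h] at hc
    have h3 := FK_outside hω h1 hcS
    have hcu : c ≠ u := fun h => hcS (h ▸ hu)
    rw [Pi.add_apply, dl_apply_ne hcu, dl_apply_self, zero_add] at h3
    exact one_ne_zero h3
  have hf0 : ∀ c, c ∉ S → f c = 0 := by
    intro c hc
    rcases zmod2_cases (f c) with h | h
    · exact h
    · exact absurd (hfS c h) hc
  set φ : (V → ZMod 2) → ZMod 2 := fun A => ∑ c ∈ S, f c * A c with hφ
  have hφadd : ∀ A B, φ (A + B) = φ A + φ B := by
    intro A B
    simp only [hφ, Pi.add_apply, mul_add, Finset.sum_add_distrib]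
  have hφdl : ∀ c, φ (dl c) = f c := by
    intro c
    simp only [hφ]
    by_cases hc : c ∈ S
    · rw [Finset.sum_eq_single c]
      · rw [dl_apply_self, mul_one]
      · intro a _ ha
        rw [dl_apply_ne ha, mul_zero]
      · intro h; exact absurd hc h
    · rw [hf0 c hc]
      apply Finset.sum_eq_zero
      intro a ha
      have hac : a ≠ c := fun h => hc (by rw [← h]; exact ha)
      rw [dl_apply_ne hac, mul_zero]
  have hφsum : ∀ η : Finset E, φ (∑ e ∈ η, G.bd e) = ∑ e ∈ η, (f (G.src e) + f (G.tgt e)) := by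
    intro η
    induction η using Finset.induction_on with
    | empty => simp [hφ]
    | insert e η he ih =>
      rw [Finset.sum_insert he, Finset.sum_insert he, hφadd, ih]
      unfold bd
      rw [hφadd, hφdl, hφdl]
  have hfu : f u = 1 := by
    simp only [hf]
    rw [add_self_fun, if_pos (FK_zero ω)]
  have htot : ∑ e ∈ η, (f (G.src e) + f (G.tgt e)) = 1 := by
    rw [← hφsum, hbd, hφadd, hφdl, hφdl, hfu, hf0 v hv, add_zero]
  have hex : ∃ e ∈ η, f (G.src e) + f (G.tgt e) ≠ 0 := by
    by_contra hcon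
    push Not at hcon
    rw [Finset.sum_eq_zero hcon] at htot
    exact zero_ne_one htot
  obtain ⟨e, he, hne⟩ := hex
  have heω : e ∉ ω := by
    intro heω
    apply hne
    have : f (G.src e) = f (G.tgt e) := by
      have key : FK G.bd ω (dl u + dl (G.src e)) ↔ FK G.bd ω (dl u + dl (G.tgt e)) := by
        have hb := FK_edge (b := G.bd) heω
        constructor
        · intro h
          have := FK_add h2 h hb
          convert this using 1
          unfold bd
          calc dl u + dl (G.tgt e) = dl u + (dl (G.src e) + dl (G.src e)) + dl (G.tgt e) := by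
                rw [h2, add_zero]
            _ = _ := by abel
        · intro h
          have := FK_add h2 h hb
          convert this using 1
          unfold bd
          calc dl u + dl (G.src e) = dl u + (dl (G.tgt e) + dl (G.tgt e)) + dl (G.src e) := by
                rw [h2, add_zero]
            _ = _ := by abel
      simp only [hf, key]
    rw [this]
    exact CharTwo.add_self_eq_zero _
  have hnot : ¬ (G.src e ∈ S ∧ G.tgt e ∈ S) := by
    intro h
    apply heω
    apply hsub
    rw [Finset.mem_inter, Finset.mem_filter]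
    exact ⟨he, hη he, h⟩
  refine ⟨e, he, ?_⟩
  rcases zmod2_cases (f (G.src e)) with h1 | h1
  · rcases zmod2_cases (f (G.tgt e)) with h3 | h3
    · exfalso; apply hne; rw [h1, h3, add_zero]
    · right
      have h4 := hfS _ h3
      refine ⟨h4, fun h5 => hnot ⟨h5, h4⟩, ?_⟩
      by_contra h; simp [hf, h] at h3
  · left
    have h4 := hfS _ h1
    refine ⟨h4, fun h5 => hnot ⟨h4, h5⟩, ?_⟩
    by_contra h; simp [hf, h] at h1

lemma Zp_erase_le (hx : 0 ≤ x) (D : Finset E) (e : E) (A : V → ZMod 2) :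
    G.Zp x (D.erase e) A ≤ G.Zp x D A := by
  by_cases he : e ∈ D
  · rw [Zp_erase he A]
    have := Z_nonneg (b := G.bd) hx (D.erase e) (A + G.bd e)
    have := mul_nonneg hx this
    unfold Zp
    linarith
  · rw [Finset.erase_eq_of_notMem he]

open Classical in
lemma sum_mem_le (hx : 0 ≤ x) {D : Finset E} {e : E} (he : e ∈ D) (B : V → ZMod 2) :
    ∑ η ∈ D.powerset, (if ∑ e ∈ η, G.bd e = B then x ^ η.card * (if e ∈ η then 1 else 0) else 0) ≤
      x * G.Zp x D (B + G.bd e) := by
  have h1 : ∑ η ∈ D.powerset,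
      (if ∑ e ∈ η, G.bd e = B then x ^ η.card * (if e ∈ η then 1 else 0) else 0) =
      x * G.Zp x (D.erase e) (B + G.bd e) := by
    conv_lhs => rw [← Finset.insert_erase he]
    rw [Finset.sum_powerset_insert (Finset.notMem_erase e D)]
    have e1 : ∑ η ∈ (D.erase e).powerset,
        (if ∑ e ∈ η, G.bd e = B then x ^ η.card * (if e ∈ η then (1 : ℝ) else 0) else 0) = 0 := by
      apply Finset.sum_eq_zero
      intro η hη
      have : e ∉ η := fun h => Finset.notMem_erase e D (Finset.mem_powerset.1 hη h)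
      simp [this]
    rw [e1, zero_add]
    unfold Zp Z
    rw [Finset.mul_sum]
    refine Finset.sum_congr rfl fun η hη => ?_
    have he' : e ∉ η := fun h => Finset.notMem_erase e D (Finset.mem_powerset.1 hη h)
    rw [Finset.sum_insert he', Finset.card_insert_of_notMem he',
      if_pos (Finset.mem_insert_self e η)]
    have : (G.bd e + ∑ i ∈ η, G.bd i = B) ↔ (∑ i ∈ η, G.bd i = B + G.bd e) := by
      constructor
      · intro h
        rw [← h]
        calc ∑ i ∈ η, G.bd i = (G.bd e + G.bd e) + ∑ i ∈ η, G.bd i := by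
              rw [add_self_fun, zero_add]
          _ = _ := by abel
      · intro h
        rw [h]
        calc G.bd e + (B + G.bd e) = (G.bd e + G.bd e) + B := by abel
          _ = _ := by rw [add_self_fun, zero_add]
    simp only [this]
    split_ifs
    · ring
    · simp
  rw [h1]
  exact mul_le_mul_of_nonneg_left (Zp_erase_le hx D e _) hx

/-- The edges of `D` inside `S`. -/
def inn (G : Gr V E) (D : Finset E) (S : Finset V) : Finset E :=
  D.filter fun e => G.src e ∈ S ∧ G.tgt e ∈ S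

open Classical in
/-- One term of the Simon-Lieb inequality. -/
lemma exit_term (hx : 0 < x) {D : Finset E} {S : Finset V} {u v a c : V} {e : E} (he : e ∈ D)
    (heS : e ∉ G.inn D S) (hac : G.bd e = dl a + dl c) :
    ∑ η ∈ D.powerset, (if ∑ e ∈ η, G.bd e = dl u + dl v then
      (if e ∈ η then 1 else 0) * ∑ ω ∈ (G.inn D S).powerset,
        (if η ∩ G.inn D S ⊆ ω then wD x (G.inn D S) η ω * NK G.bd ω (dl u + dl a) else 0) else 0) ≤
      G.Zp x (G.inn D S) (dl u + dl a) * (x * G.Zp x D (dl c + dl v)) := by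
  have hAB : dl u + dl v = (dl u + dl a : V → ZMod 2) + (dl a + dl v) := by
    calc dl u + dl v = dl u + (dl a + dl a) + dl v := by rw [add_self_fun, add_zero]
      _ = _ := by abel
  rw [hAB]
  have h := double_sum (b := G.bd) add_self_fun hx (H := G.inn D S) (D := D)
    (Finset.filter_subset _ _) (dl u + dl a) (dl a + dl v) (fun η => if e ∈ η then 1 else 0)
  rw [← h]
  have h1 : ∀ η₁ ∈ (G.inn D S).powerset, ∑ η₂ ∈ D.powerset,
      (if ∑ e ∈ η₁, G.bd e = dl u + dl a ∧ ∑ e ∈ η₂, G.bd e = dl a + dl v then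
        x ^ η₁.card * x ^ η₂.card * (if e ∈ symmDiff η₁ η₂ then 1 else 0) else 0) ≤
      (if ∑ e ∈ η₁, G.bd e = dl u + dl a then x ^ η₁.card else 0) *
        (x * G.Zp x D (dl c + dl v)) := by
    intro η₁ hη₁
    have he1 : e ∉ η₁ := fun h => heS (Finset.mem_powerset.1 hη₁ h)
    by_cases hA : ∑ e ∈ η₁, G.bd e = dl u + dl a
    · simp only [hA, true_and, if_true]
      have h2 := sum_mem_le (G := G) hx.le he (dl a + dl v)
      have h3 : dl a + dl v + G.bd e = dl c + dl v := by
        rw [hac]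
        calc dl a + dl v + (dl a + dl c) = (dl a + dl a) + (dl c + dl v) := by abel
          _ = _ := by rw [add_self_fun, zero_add]
      rw [h3] at h2
      refine le_trans (le_of_eq ?_) (mul_le_mul_of_nonneg_left h2 (pow_nonneg hx.le η₁.card))
      rw [Finset.mul_sum]
      refine Finset.sum_congr rfl fun η₂ _ => ?_
      have : e ∈ symmDiff η₁ η₂ ↔ e ∈ η₂ := by
        rw [Finset.mem_symmDiff]
        simp [he1]
      simp only [this]
      split_ifs <;> ring
    · simp [hA]
  refine (Finset.sum_le_sum h1).trans (le_of_eq ?_)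
  rw [← Finset.sum_mul]
  rfl

open Classical in
/-- **The Simon-Lieb inequality** (unnormalised). -/
theorem simon_lieb_Z (hx : 0 < x) (hx1 : x ≤ 1) (D : Finset E) {S : Finset V} {u v : V}
    (hu : u ∈ S) (hv : v ∉ S) :
    G.Zp x (G.inn D S) 0 * G.Zp x D (dl u + dl v) ≤
      ∑ e ∈ D, ((if G.src e ∈ S ∧ G.tgt e ∉ S then
        G.Zp x (G.inn D S) (dl u + dl (G.src e)) * (x * G.Zp x D (dl (G.tgt e) + dl v)) else 0) +
      (if G.tgt e ∈ S ∧ G.src e ∉ S then
        G.Zp x (G.inn D S) (dl u + dl (G.tgt e)) * (x * G.Zp x D (dl (G.src e) + dl v)) else 0)) := by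
  have h2 : ∀ a : V → ZMod 2, a + a = 0 := add_self_fun
  set H := G.inn D S with hH
  have hHD : H ⊆ D := Finset.filter_subset _ _
  have h0 := double_sum (b := G.bd) h2 hx hHD 0 (dl u + dl v) (fun _ => 1)
  have hL : G.Zp x H 0 * G.Zp x D (dl u + dl v) =
      ∑ η₁ ∈ H.powerset, ∑ η₂ ∈ D.powerset,
      (if ∑ e ∈ η₁, G.bd e = 0 ∧ ∑ e ∈ η₂, G.bd e = dl u + dl v then
        x ^ η₁.card * x ^ η₂.card * (1 : ℝ) else 0) := by
    unfold Zp Z
    rw [Finset.sum_mul_sum]
    refine Finset.sum_congr rfl fun η₁ _ => Finset.sum_congr rfl fun η₂ _ => ?_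
    by_cases h : ∑ e ∈ η₁, G.bd e = 0
    · by_cases h' : ∑ e ∈ η₂, G.bd e = dl u + dl v
      · simp [h, h']
      · simp [h']
    · simp [h]
  rw [hL, h0, zero_add]
  -- pointwise bound
  have hpt : ∀ η ∈ D.powerset, (if ∑ e ∈ η, G.bd e = dl u + dl v then
      (1 : ℝ) * ∑ ω ∈ H.powerset, (if η ∩ H ⊆ ω then wD x H η ω * NK G.bd ω 0 else 0) else 0) ≤
      ∑ e ∈ D, ((if G.src e ∈ S ∧ G.tgt e ∉ S then
        (if ∑ e ∈ η, G.bd e = dl u + dl v then (if e ∈ η then 1 else 0) *
          ∑ ω ∈ H.powerset, (if η ∩ H ⊆ ω then wD x H η ω * NK G.bd ω (dl u + dl (G.src e))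
            else 0) else 0) else 0) +
      (if G.tgt e ∈ S ∧ G.src e ∉ S then
        (if ∑ e ∈ η, G.bd e = dl u + dl v then (if e ∈ η then 1 else 0) *
          ∑ ω ∈ H.powerset, (if η ∩ H ⊆ ω then wD x H η ω * NK G.bd ω (dl u + dl (G.tgt e))
            else 0) else 0) else 0)) := by
    intro η hη
    rw [Finset.mem_powerset] at hη
    by_cases hbd : ∑ e ∈ η, G.bd e = dl u + dl v
    · simp only [hbd, if_true, one_mul]
      -- exchange sums
      have hω : ∀ ω ∈ H.powerset, (if η ∩ H ⊆ ω then wD x H η ω * (NK G.bd ω 0 : ℝ) else 0) ≤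
          ∑ e ∈ D, ((if G.src e ∈ S ∧ G.tgt e ∉ S then (if e ∈ η then 1 else 0) *
            (if η ∩ H ⊆ ω then wD x H η ω * (NK G.bd ω (dl u + dl (G.src e)) : ℝ) else 0) else 0) +
          (if G.tgt e ∈ S ∧ G.src e ∉ S then (if e ∈ η then 1 else 0) *
            (if η ∩ H ⊆ ω then wD x H η ω * (NK G.bd ω (dl u + dl (G.tgt e)) : ℝ) else 0)
              else 0)) := by
        intro ω hω
        rw [Finset.mem_powerset] at hω
        have hnn : ∀ e ∈ D, 0 ≤ ((if G.src e ∈ S ∧ G.tgt e ∉ S then (if e ∈ η then 1 else 0) *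
            (if η ∩ H ⊆ ω then wD x H η ω * (NK G.bd ω (dl u + dl (G.src e)) : ℝ) else 0) else 0) +
          (if G.tgt e ∈ S ∧ G.src e ∉ S then (if e ∈ η then 1 else 0) *
            (if η ∩ H ⊆ ω then wD x H η ω * (NK G.bd ω (dl u + dl (G.tgt e)) : ℝ) else 0)
              else 0)) := by
          intro e _
          have hw := wD_nonneg hx.le hx1 H η ω
          have hw1 := mul_nonneg hw (Nat.cast_nonneg (α := ℝ) (NK G.bd ω (dl u + dl (G.src e))))
          have hw2 := mul_nonneg hw (Nat.cast_nonneg (α := ℝ) (NK G.bd ω (dl u + dl (G.tgt e))))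
          apply add_nonneg
          · split_ifs <;> simp <;> assumption
          · split_ifs <;> simp <;> assumption
        by_cases hs : η ∩ H ⊆ ω
        · obtain ⟨e, he, hcase⟩ := exists_exit (G := G) hu hv hη (ω := ω)
            (fun e he => (Finset.mem_filter.1 (hω he)).2) hs hbd
          refine le_trans ?_ (Finset.single_le_sum hnn (hη he))
          rw [if_pos hs]
          rcases hcase with ⟨hs1, hs2, hFK⟩ | ⟨hs1, hs2, hFK⟩
          · have hn : NK G.bd ω (dl u + dl (G.src e)) = NK G.bd ω 0 := by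
              rw [NK_eq h2, if_pos hFK]
            have : ¬ (G.tgt e ∈ S ∧ G.src e ∉ S) := fun h => hs2 h.1
            rw [if_pos ⟨hs1, hs2⟩, if_neg this, if_pos he, if_pos hs, hn]
            simp
          · have hn : NK G.bd ω (dl u + dl (G.tgt e)) = NK G.bd ω 0 := by
              rw [NK_eq h2, if_pos hFK]
            have : ¬ (G.src e ∈ S ∧ G.tgt e ∉ S) := fun h => hs2 h.1
            rw [if_neg this, if_pos (⟨hs1, hs2⟩ : G.tgt e ∈ S ∧ G.src e ∉ S), if_pos he,
              if_pos hs, hn]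
            simp
        · rw [if_neg hs]
          exact Finset.sum_nonneg hnn
      refine (Finset.sum_le_sum hω).trans (le_of_eq ?_)
      rw [Finset.sum_comm]
      refine Finset.sum_congr rfl fun e _ => ?_
      rw [Finset.sum_add_distrib]
      congr 1
      · split_ifs with h1 h3
        · rw [Finset.mul_sum]
        · simp
        · simp
      · split_ifs with h1 h3
        · rw [Finset.mul_sum]
        · simp
        · simp
    · simp [hbd]
  refine (Finset.sum_le_sum hpt).trans ?_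
  rw [Finset.sum_comm]
  refine Finset.sum_le_sum fun e he => ?_
  rw [Finset.sum_add_distrib]
  apply add_le_add
  · by_cases h : G.src e ∈ S ∧ G.tgt e ∉ S
    · simp only [h, not_false_eq_true, and_self, if_true]
      apply exit_term hx he _ rfl
      intro h'
      exact h.2 (Finset.mem_filter.1 h').2.2
    · simp [h]
  · by_cases h : G.tgt e ∈ S ∧ G.src e ∉ S
    · simp only [h, not_false_eq_true, and_self, if_true]
      apply exit_term hx he _ (by unfold bd; rw [add_comm])
      intro h'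
      exact h.2 (Finset.mem_filter.1 h').2.1
    · simp [h]

/-- **The Simon-Lieb inequality.** -/
theorem simon_lieb (hx : 0 < x) (hx1 : x ≤ 1) (D : Finset E) {S : Finset V} {u v : V}
    (hu : u ∈ S) (hv : v ∉ S) :
    G.tp x D u v ≤
      ∑ e ∈ D, ((if G.src e ∈ S ∧ G.tgt e ∉ S then
        x * G.tp x (G.inn D S) u (G.src e) * G.tp x D (G.tgt e) v else 0) +
      (if G.tgt e ∈ S ∧ G.src e ∉ S then
        x * G.tp x (G.inn D S) u (G.tgt e) * G.tp x D (G.src e) v else 0)) := by
  have h := simon_lieb_Z (G := G) hx hx1 D hu hv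
  have z1 := Z_zero_pos (b := G.bd) hx.le (G.inn D S)
  have z2 := Z_zero_pos (b := G.bd) hx.le D
  unfold tp gp g
  rw [div_le_iff₀ z2, Finset.sum_mul]
  rw [← mul_le_mul_iff_right₀ z1]
  refine h.trans (le_of_eq ?_)
  rw [Finset.mul_sum]
  refine Finset.sum_congr rfl fun e _ => ?_
  rw [add_mul, mul_add]
  congr 1
  · split_ifs
    · unfold Zp; field_simp
    · simp
  · split_ifs
    · unfold Zp; field_simp
    · simp

end Gr

end Pool.Agent.LoopO1
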