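import Pool.Agent.LoopO1_f0ab88.Decay

/-!
# Translations and the cost of a shift
-/

open Finset

set_option linter.unusedSectionVars false
set_option linter.unusedVariables false

namespace Pool.Agent.LoopO1

variable {d : ℕ}

lemma sh_neg (t : Vtx d) (e : Edg d) : sh (-t) (sh t e) = e := by
  unfold sh
  simp

lemma sh_neg' (t : Vtx d) (e : Edg d) : sh t (sh (-t) e) = e := by
  unfold sh
  simp

lemma image_sh_neg (t : Vtx d) (S : Finset (Edg d)) : (S.image (sh t)).image (sh (-t)) = S := by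
  rw [Finset.image_image]
  have : sh (-t) ∘ sh t = id := by
    funext e; exact sh_neg t e
  rw [this, Finset.image_id]

lemma image_sh_neg' (t : Vtx d) (S : Finset (Edg d)) : (S.image (sh (-t))).image (sh t) = S := by
  have := image_sh_neg (-t) S
  rwa [neg_neg] at this

lemma mem_image_sh {t : Vtx d} {S : Finset (Edg d)} {e : Edg d} :
    e ∈ S.image (sh t) ↔ sh (-t) e ∈ S := by
  constructor
  · intro h
    obtain ⟨e', he', rfl⟩ := Finset.mem_image.1 h
    rw [sh_neg]; exact he'
  · intro h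
    exact Finset.mem_image.2 ⟨_, h, sh_neg' t e⟩

lemma dl_add (v t p : Vtx d) : (dl (v + t) : Vtx d → ZMod 2) p = dl v (p - t) := by
  unfold dl
  rw [Pi.single_apply, Pi.single_apply]
  congr 1
  rw [sub_eq_iff_eq_add]

lemma bdS_image (t : Vtx d) (η : Finset (Edg d)) (p : Vtx d) :
    (lat d).bdS (η.image (sh t)) p = (lat d).bdS η (p - t) := by
  unfold Gr.bdS Gr.bd
  rw [Finset.sum_image (fun a _ b _ h => sh_inj t h), Finset.sum_apply, Finset.sum_apply]
  refine Finset.sum_congr rfl fun e _ => ?_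
  simp only [lat_src, lat_tgt, Pi.add_apply]
  have h1 : (sh t e).1 = e.1 + t := rfl
  have h2 : (sh t e).1 + Pi.single (sh t e).2 1 = (e.1 + Pi.single e.2 1) + t := by
    show e.1 + t + Pi.single e.2 1 = _
    abel
  rw [h2, h1, dl_add, dl_add]

lemma EZ_image {x : ℝ} (t : Vtx d) (D : Finset (Edg d)) (A : Vtx d → ZMod 2)
    (F : Finset (Edg d) → ℝ) :
    (lat d).EZ x (D.image (sh t)) A F
      = (lat d).EZ x D (fun p => A (p + t)) (fun η => F (η.image (sh t))) := by
  classical
  unfold Gr.EZ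
  symm
  refine Finset.sum_nbij' (fun η => η.image (sh t)) (fun η => η.image (sh (-t))) ?_ ?_ ?_ ?_ ?_
  · intro η hη
    rw [Finset.mem_powerset] at hη ⊢
    exact Finset.image_subset_image hη
  · intro η hη
    rw [Finset.mem_powerset] at hη ⊢
    have := Finset.image_subset_image (f := sh (-t)) hη
    rwa [image_sh_neg] at this
  · intro η _; exact image_sh_neg t η
  · intro η _; exact image_sh_neg' t η
  · intro η _
    have h1 : ((lat d).bdS η = fun p => A (p + t)) ↔ (lat d).bdS (η.image (sh t)) = A := by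
      constructor
      · intro h
        funext p
        rw [bdS_image, h]
        simp
      · intro h
        funext p
        rw [← h, bdS_image]
        simp
    have h2 : (η.image (sh t)).card = η.card := Finset.card_image_of_injective _ (sh_inj t)
    simp only [h1, h2]

lemma Zp_image {x : ℝ} (t : Vtx d) (D : Finset (Edg d)) (A : Vtx d → ZMod 2) :
    (lat d).Zp x (D.image (sh t)) A = (lat d).Zp x D (fun p => A (p + t)) := by
  rw [← Gr.EZ_one, ← Gr.EZ_one, EZ_image]

lemma Zp_image_zero {x : ℝ} (t : Vtx d) (D : Finset (Edg d)) :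
    (lat d).Zp x (D.image (sh t)) 0 = (lat d).Zp x D 0 := Zp_image t D 0

lemma f_image {x : ℝ} (t : Vtx d) (D S : Finset (Edg d)) :
    (lat d).f x D (S.image (sh t)) = (lat d).f x (D.image (sh (-t))) S := by
  unfold Gr.f
  rw [Zp_image_zero]
  congr 1
  have : D \ S.image (sh t) = ((D.image (sh (-t))) \ S).image (sh t) := by
    ext e
    rw [Finset.mem_sdiff, mem_image_sh, mem_image_sh, Finset.mem_sdiff, mem_image_sh, neg_neg,
      sh_neg']
  rw [this, Zp_image_zero]

lemma ebox_sh {n : ℕ} {t : Vtx d} (ht : nrm t ≤ 1) {e : Edg d} (he : e ∈ ebox d n) :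
    sh t e ∈ ebox d (n + 1) := by
  have hb := mem_ebox.1 he
  have hb1 := mem_box.1 hb.1
  have hb2 := mem_box.1 hb.2
  rw [mem_ebox, mem_box, mem_box]
  constructor
  · intro i
    have h1 := hb1 i
    have h2 := abs_le_of_nrm ht i
    simp only [sh, Pi.add_apply]
    push_cast
    constructor <;> linarith [h1.1, h1.2, h2.1, h2.2]
  · intro i
    have h1 := hb2 i
    have h2 := abs_le_of_nrm ht i
    simp only [sh, Pi.add_apply] at h1 ⊢
    push_cast
    constructor <;> linarith [h1.1, h1.2, h2.1, h2.2]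

lemma nrm_neg_le {t : Vtx d} (ht : nrm t ≤ 1) : nrm (-t) ≤ 1 := by rw [nrm_neg]; exact ht

namespace HasDecay

variable {x C ρ : ℝ} (h : HasDecay d x C ρ)

include h

/-- Translating the inner part costs little. -/
lemma f_translate {t : Vtx d} (ht : nrm t ≤ 1) {n a : ℕ} (han : a ≤ n) {D S : Finset (Edg d)}
    (hD : ebox d (n + 1) ⊆ D) (hS : S ⊆ ebox d a) :
    (lat d).f x D S ≤ (lat d).f x D (S.image (sh t)) *
      Real.exp (S.card * (h.Cc * h.sg ^ (n - a))) := by
  rw [f_image]
  have h1 : ebox d n ⊆ D := (ebox_mono (Nat.le_succ n)).trans hD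
  have h2 : ebox d n ⊆ D.image (sh (-t)) := by
    intro e he
    rw [mem_image_sh, neg_neg]
    exact hD (ebox_sh ht he)
  have h3 := Gr.f_domain_le (G := lat d) h.x_pos.le h.x_lt.le h.isKernel h1 h2
    (hS.trans (ebox_mono han))
  refine h3.trans ?_
  refine mul_le_mul_of_nonneg_left ?_ (Gr.f_pos h.x_pos.le _ _).le
  apply Real.exp_le_exp.2
  exact h.sum_far_le han S _ hS fun e he => (Finset.mem_sdiff.1 he).2

/-- **Cost of the shift at one leaf.** -/
theorem leaf_ratio {t : Vtx d} (ht : nrm t ≤ 1) {n r : ℕ} (hr : 10 ≤ r) (hrn : r ≤ n)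
    {D : Finset (Edg d)} (hD : ebox d (n + 1) ⊆ D) (hrn' : r + 2 ≤ n)
    {B : Vtx d → ZMod 2} (hB : ∀ p ∈ box d r, B p = 0) {S H : Finset (Edg d)} (hHS : H ⊆ S)
    (hSD : S ⊆ D) (hcase : B + (lat d).bdS H = 0 ∨ (lat d).Zp x (D \ S) (B + (lat d).bdS H) = 0)
    {K : ℕ} (hcost : h.cost r S ≤ K) (hsmall : S.card * (h.Cc * h.sg ^ (n - r)) ≤ 1) :
    x ^ H.card * (lat d).Zp x (D \ S) (B + (lat d).bdS H) ≤
      (Real.exp 1 * Real.exp K * (x⁻¹) ^ (22 * K)) *
      (x ^ (Gr.mv (sh t) (ebox d r) (D \ ebox d (r + 2)) H).card *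
        (lat d).Zp x (D \ Gr.mv (sh t) (ebox d r) (D \ ebox d (r + 2)) S)
          (B + (lat d).bdS (Gr.mv (sh t) (ebox d r) (D \ ebox d (r + 2)) H))) := by
  have hx := h.x_pos.le
  have hx1 := h.x_lt.le
  set I := ebox d r with hI
  set O := D \ ebox d (r + 2) with hO
  set S' := Gr.mv (sh t) I O S with hS'
  set H' := Gr.mv (sh t) I O H with hH'
  have hRHS0 : 0 ≤ (Real.exp 1 * Real.exp K * (x⁻¹) ^ (22 * K)) *
      (x ^ H'.card * (lat d).Zp x (D \ S') (B + (lat d).bdS H')) := by
    have := Z_nonneg (b := (lat d).bd) hx (D \ S') (B + (lat d).bdS H')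
    have hxp := h.x_pos
    positivity
  rcases hcase with hz | hz
  swap
  · rw [hz, mul_zero]; exact hRHS0
  -- cards
  have hIO : Disjoint (S ∩ I) (S ∩ O) := by
    rw [Finset.disjoint_left]
    intro e he he'
    exact (Finset.mem_sdiff.1 (Finset.mem_inter.1 he').2).2
      (ebox_mono (Nat.le_add_right r 2) (Finset.mem_inter.1 he).2)
  have hIOH : Disjoint (H ∩ I) (H ∩ O) :=
    Finset.disjoint_of_subset_left (Finset.inter_subset_inter hHS le_rfl)
      (Finset.disjoint_of_subset_right (Finset.inter_subset_inter hHS le_rfl) hIO)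
  have hcard : H'.card ≤ H.card := by
    rw [hH']
    unfold Gr.mv
    refine (Finset.card_union_le _ _).trans ?_
    refine (Nat.add_le_add_left Finset.card_image_le _).trans ?_
    rw [add_comm, ← Finset.card_union_of_disjoint hIOH]
    exact Finset.card_le_card (Finset.union_subset Finset.inter_subset_left
      Finset.inter_subset_left)
  have hxpow : x ^ H.card ≤ x ^ H'.card := pow_le_pow_of_le_one hx hx1 hcard
  -- the number of buffer edges
  have hRK : (H ∩ (ebox d (r + 2) \ ebox d r)).card ≤ K := by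
    have h1 : ((S ∩ (ebox d (r + 2) \ ebox d r)).card : ℝ) ≤ K := by
      refine le_trans ?_ hcost
      unfold cost
      have := Finset.sum_nonneg (s := S ∩ ebox d r) (f := fun e =>
        ∑ e' ∈ S \ ebox d (r + 2), h.Kr e e') fun e _ =>
          Finset.sum_nonneg fun e' _ => h.Kr_nonneg e e'
      linarith
    have h2 : (S ∩ (ebox d (r + 2) \ ebox d r)).card ≤ K := by exact_mod_cast h1
    exact (Finset.card_le_card (Finset.inter_subset_inter hHS le_rfl)).trans h2
  -- defects
  have hdef := defect_lower (d := d) hx hx1 hr ht (D := D) (D' := D \ S') (B := B) (H := H) ?_ hB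
    (hHS.trans hSD) hz
  swap
  · intro e he he'
    rw [Finset.mem_sdiff]
    refine ⟨hD (ebox_mono (by omega) he), ?_⟩
    intro hmem
    rcases Finset.mem_union.1 hmem with h1 | h1
    · exact (Finset.mem_sdiff.1 (Finset.mem_inter.1 h1).2).2 he
    · exact he' (Finset.image_subset_image Finset.inter_subset_right h1)
  have hdef' : (x ^ (22 * K)) ≤ (lat d).gp x (D \ S') (B + (lat d).bdS H') := by
    refine le_trans ?_ hdef
    exact pow_le_pow_of_le_one hx hx1 (Nat.mul_le_mul_left _ hRK)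
  -- ratios of partition functions
  have hZD := Z_zero_pos (b := (lat d).bd) hx D
  have hf1 : (lat d).Zp x (D \ S) 0 = (lat d).f x D S * (lat d).Zp x D 0 := by
    unfold Gr.f; rw [div_mul_cancel₀ _ hZD.ne']
  have hZS' := Z_zero_pos (b := (lat d).bd) hx (D \ S')
  have hf2 : (lat d).Zp x (D \ S') (B + (lat d).bdS H')
      = (lat d).gp x (D \ S') (B + (lat d).bdS H') * ((lat d).f x D S' * (lat d).Zp x D 0) := by
    have e1 : (lat d).f x D S' * (lat d).Zp x D 0 = (lat d).Zp x (D \ S') 0 := by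
      unfold Gr.f; rw [div_mul_cancel₀ _ hZD.ne']
    rw [e1]
    unfold Gr.gp g
    rw [div_mul_cancel₀ _ hZS'.ne']
  have hfS : (lat d).f x D S ≤ Real.exp 1 * Real.exp K * (lat d).f x D S' := by
    have a1 : (lat d).f x D S ≤ (lat d).f x D ((S ∩ I) ∪ (S ∩ O)) :=
      Gr.f_subset_le hx D (Finset.union_subset Finset.inter_subset_left Finset.inter_subset_left)
    have a2 := Gr.f_union_le (G := lat d) hx hx1 h.isKernel D (S ∩ I) (S ∩ O) hIO
    have a3 : ∑ e ∈ S ∩ I, ∑ e' ∈ S ∩ O, h.Kr e e' ≤ K := by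
      refine le_trans ?_ hcost
      unfold cost
      have e1 : S ∩ O ⊆ S \ ebox d (r + 2) := by
        intro e he
        rw [Finset.mem_sdiff]
        exact ⟨(Finset.mem_inter.1 he).1, (Finset.mem_sdiff.1 (Finset.mem_inter.1 he).2).2⟩
      have e2 : ∑ e ∈ S ∩ I, ∑ e' ∈ S ∩ O, h.Kr e e'
          ≤ ∑ e ∈ S ∩ ebox d r, ∑ e' ∈ S \ ebox d (r + 2), h.Kr e e' :=
        Finset.sum_le_sum fun e _ =>
          Finset.sum_le_sum_of_subset_of_nonneg e1 fun e' _ _ => h.Kr_nonneg e e'
      have e3 : (0 : ℝ) ≤ ((S ∩ (ebox d (r + 2) \ ebox d r)).card : ℝ) := Nat.cast_nonneg _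
      linarith
    have a4 := h.f_translate ht hrn hD (S := S ∩ I) Finset.inter_subset_right
    have a5 : (((S ∩ I).card : ℕ) : ℝ) * (h.Cc * h.sg ^ (n - r)) ≤ 1 := by
      refine le_trans ?_ hsmall
      refine mul_le_mul_of_nonneg_right ?_ (mul_nonneg h.Cc_nonneg (pow_nonneg h.sg_pos.le _))
      exact_mod_cast Finset.card_le_card Finset.inter_subset_left
    have a6 : (lat d).f x D (S ∩ I) ≤ (lat d).f x D ((S ∩ I).image (sh t)) * Real.exp 1 :=
      a4.trans (mul_le_mul_of_nonneg_left (Real.exp_le_exp.2 a5) (Gr.f_pos hx _ _).le)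
    have a7 := Gr.f_union_ge (G := lat d) hx hx1 D (S ∩ O) ((S ∩ I).image (sh t))
    have p1 := (Gr.f_pos (G := lat d) hx D (S ∩ I)).le
    have p2 := (Gr.f_pos (G := lat d) hx D (S ∩ O)).le
    have p3 := (Gr.f_pos (G := lat d) hx D ((S ∩ I).image (sh t))).le
    calc (lat d).f x D S ≤ (lat d).f x D (S ∩ I) * (lat d).f x D (S ∩ O) *
          Real.exp (∑ e ∈ S ∩ I, ∑ e' ∈ S ∩ O, h.Kr e e') := a1.trans a2
      _ ≤ ((lat d).f x D ((S ∩ I).image (sh t)) * Real.exp 1) * (lat d).f x D (S ∩ O) *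
          Real.exp K := by
          refine mul_le_mul (mul_le_mul_of_nonneg_right a6 p2) (Real.exp_le_exp.2 a3)
            (Real.exp_pos _).le (by positivity)
      _ = Real.exp 1 * Real.exp K *
          ((lat d).f x D (S ∩ O) * (lat d).f x D ((S ∩ I).image (sh t))) := by ring
      _ ≤ _ := mul_le_mul_of_nonneg_left a7 (by positivity)
  have hxK : (x⁻¹) ^ (22 * K) * x ^ (22 * K) = 1 := by
    rw [← mul_pow, inv_mul_cancel₀ h.x_pos.ne', one_pow]
  have p4 := (Gr.f_pos (G := lat d) hx D S').le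
  have p5 : 0 ≤ x ^ H'.card := pow_nonneg hx _
  have p6 : 0 ≤ x⁻¹ := inv_nonneg.2 hx
  rw [hz, hf1, hf2]
  calc x ^ H.card * ((lat d).f x D S * (lat d).Zp x D 0)
      ≤ x ^ H'.card * ((Real.exp 1 * Real.exp K * (lat d).f x D S') * (lat d).Zp x D 0) := by
        refine mul_le_mul hxpow (mul_le_mul_of_nonneg_right hfS hZD.le)
          (mul_nonneg (Gr.f_pos hx _ _).le hZD.le) p5
    _ = (Real.exp 1 * Real.exp K) * ((x⁻¹) ^ (22 * K) * x ^ (22 * K)) *
          (x ^ H'.card * ((lat d).f x D S' * (lat d).Zp x D 0)) := by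
        rw [hxK]; ring
    _ ≤ (Real.exp 1 * Real.exp K) * ((x⁻¹) ^ (22 * K) *
          (lat d).gp x (D \ S') (B + (lat d).bdS H')) *
          (x ^ H'.card * ((lat d).f x D S' * (lat d).Zp x D 0)) := by
        gcongr
    _ = _ := by ring

end HasDecay

end Pool.Agent.LoopO1
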