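import Pool.Agent.LoopO1_f0ab88.Sharp2
import Pool.Agent.LoopO1_f0ab88.Translate

/-!
# From `φ_x(S) < 1` to exponential decay
-/

open Finset

set_option linter.unusedSectionVars false
set_option linter.unusedVariables false

namespace Pool.Agent.LoopO1

variable {d : ℕ}

/-- The edges touching `S`. -/
noncomputable def tch (S : Finset (Vtx d)) : Finset (Edg d) :=
  (S ×ˢ (Finset.univ : Finset (Fin d))) ∪
    (S ×ˢ (Finset.univ : Finset (Fin d))).image fun p => (p.1 - Pi.single p.2 1, p.2)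

lemma mem_tch {S : Finset (Vtx d)} {e : Edg d} :
    e ∈ tch S ↔ e.1 ∈ S ∨ e.1 + Pi.single e.2 1 ∈ S := by
  unfold tch
  rw [Finset.mem_union, Finset.mem_product, Finset.mem_image]
  constructor
  · rintro (h | ⟨p, hp, rfl⟩)
    · exact Or.inl h.1
    · right
      rw [Finset.mem_product] at hp
      simpa using hp.1
  · rintro (h | h)
    · exact Or.inl ⟨h, Finset.mem_univ _⟩
    · right
      refine ⟨(e.1 + Pi.single e.2 1, e.2), ?_, ?_⟩
      · rw [Finset.mem_product]; exact ⟨h, Finset.mem_univ _⟩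
      · simp

/-- The term of the edge `e` in `φ`. -/
noncomputable def phiT (x : ℝ) (D : Finset (Edg d)) (S : Finset (Vtx d)) (u : Vtx d)
    (e : Edg d) : ℝ :=
  (if e.1 ∈ S ∧ e.1 + Pi.single e.2 1 ∉ S then
    x * (lat d).tp x ((lat d).inn D S) u e.1 else 0) +
  (if e.1 + Pi.single e.2 1 ∈ S ∧ e.1 ∉ S then
    x * (lat d).tp x ((lat d).inn D S) u (e.1 + Pi.single e.2 1) else 0)

/-- `φ_x(S)`. -/
noncomputable def phiS (x : ℝ) (S : Finset (Vtx d)) : ℝ := ∑ e ∈ tch S, phiT x (tch S) S 0 e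

lemma phiT_nonneg {x : ℝ} (hx : 0 ≤ x) (D : Finset (Edg d)) (S : Finset (Vtx d)) (u : Vtx d)
    (e : Edg d) : 0 ≤ phiT x D S u e := by
  unfold phiT
  have h1 := mul_nonneg hx (Gr.tp_nonneg (G := lat d) hx ((lat d).inn D S) u e.1)
  have h2 := mul_nonneg hx (Gr.tp_nonneg (G := lat d) hx ((lat d).inn D S) u
    (e.1 + Pi.single e.2 1))
  apply add_nonneg <;> split_ifs <;> first | exact h1 | exact h2 | exact le_rfl

lemma phiS_nonneg {x : ℝ} (hx : 0 ≤ x) (S : Finset (Vtx d)) : 0 ≤ phiS x S :=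
  Finset.sum_nonneg fun e _ => phiT_nonneg hx _ _ _ _

lemma inn_mono {D D' : Finset (Edg d)} (h : D ⊆ D') (S : Finset (Vtx d)) :
    (lat d).inn D S ⊆ (lat d).inn D' S := Finset.filter_subset_filter _ h

lemma inn_le_tch (D : Finset (Edg d)) (S : Finset (Vtx d)) :
    (lat d).inn D S ⊆ (lat d).inn (tch S) S := by
  intro e he
  unfold Gr.inn at he ⊢
  rw [Finset.mem_filter] at he ⊢
  exact ⟨mem_tch.2 (Or.inl he.2.1), he.2⟩

lemma phiT_mono {x : ℝ} (hx : 0 ≤ x) (hx1 : x ≤ 1) (D : Finset (Edg d)) (S : Finset (Vtx d))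
    (u : Vtx d) (e : Edg d) : phiT x D S u e ≤ phiT x (tch S) S u e := by
  unfold phiT
  have h1 := Gr.tp_mono (G := lat d) hx hx1 (inn_le_tch D S) u e.1
  have h2 := Gr.tp_mono (G := lat d) hx hx1 (inn_le_tch D S) u (e.1 + Pi.single e.2 1)
  apply add_le_add
  · split_ifs
    · exact mul_le_mul_of_nonneg_left h1 hx
    · exact le_rfl
  · split_ifs
    · exact mul_le_mul_of_nonneg_left h2 hx
    · exact le_rfl

/-- Translation of the two point function. -/
lemma tp_shift {x : ℝ} (t : Vtx d) (D : Finset (Edg d)) (u v : Vtx d) :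
    (lat d).tp x (D.image (sh t)) (u + t) (v + t) = (lat d).tp x D u v := by
  unfold Gr.tp Gr.gp g
  have h1 := Zp_image (x := x) t D (dl (u + t) + dl (v + t))
  have h2 := Zp_image_zero (x := x) t D
  unfold Gr.Zp at h1 h2
  rw [h1, h2]
  congr 2
  funext p
  rw [Pi.add_apply, Pi.add_apply, dl_add, dl_add]
  simp

lemma phiS_shift {x : ℝ} (t : Vtx d) (S : Finset (Vtx d)) :
    ∑ e ∈ tch (S.image (· + t)), phiT x (tch (S.image (· + t))) (S.image (· + t)) t e =
      phiS x S := by
  have hmem : ∀ p : Vtx d, p + t ∈ S.image (· + t) ↔ p ∈ S := by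
    intro p
    rw [Finset.mem_image]
    constructor
    · rintro ⟨q, hq, h⟩
      have : q = p := add_right_cancel h
      rwa [← this]
    · intro h; exact ⟨p, h, rfl⟩
  have htch : tch (S.image (· + t)) = (tch S).image (sh t) := by
    ext e
    rw [mem_image_sh, mem_tch, mem_tch]
    have e1 : e.1 ∈ S.image (· + t) ↔ e.1 - t ∈ S := by
      have := hmem (e.1 - t)
      rwa [sub_add_cancel] at this
    have e2 : e.1 + Pi.single e.2 1 ∈ S.image (· + t) ↔ e.1 - t + Pi.single e.2 1 ∈ S := by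
      have := hmem (e.1 - t + Pi.single e.2 1)
      have h3 : e.1 - t + Pi.single e.2 1 + t = e.1 + Pi.single e.2 1 := by abel
      rwa [h3] at this
    rw [e1, e2]
    simp [sh, sub_eq_add_neg]
  have hinn : (lat d).inn (tch (S.image (· + t))) (S.image (· + t)) =
      ((lat d).inn (tch S) S).image (sh t) := by
    ext e
    rw [mem_image_sh]
    unfold Gr.inn
    rw [Finset.mem_filter, Finset.mem_filter, htch, mem_image_sh]
    have e1 : (lat d).src e ∈ S.image (· + t) ↔ (lat d).src (sh (-t) e) ∈ S := by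
      have := hmem ((lat d).src (sh (-t) e))
      simp only [sh, lat_src] at this ⊢
      rwa [neg_add_cancel_right] at this
    have e2 : (lat d).tgt e ∈ S.image (· + t) ↔ (lat d).tgt (sh (-t) e) ∈ S := by
      have := hmem ((lat d).tgt (sh (-t) e))
      have h3 : (lat d).tgt (sh (-t) e) + t = (lat d).tgt e := by
        simp only [sh, lat_tgt]; abel
      rwa [h3] at this
    rw [e1, e2]
  unfold phiS
  rw [htch, Finset.sum_image (fun a _ b _ h => sh_inj t h)]
  refine Finset.sum_congr rfl fun e _ => ?_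
  unfold phiT
  rw [← htch, hinn]
  have h1 : (sh t e).1 = e.1 + t := rfl
  have h2 : (sh t e).1 + Pi.single (sh t e).2 1 = (e.1 + Pi.single e.2 1) + t := by
    show e.1 + t + Pi.single e.2 1 = _
    abel
  rw [h2, h1]
  simp only [hmem]
  have h3 := tp_shift (x := x) t ((lat d).inn (tch S) S) 0 e.1
  have h4 := tp_shift (x := x) t ((lat d).inn (tch S) S) 0 (e.1 + Pi.single e.2 1)
  rw [zero_add] at h3 h4
  rw [h3, h4]

/-- One step of the iteration. -/
lemma tp_iter {x : ℝ} (hx : 0 < x) (hx1 : x ≤ 1) {S : Finset (Vtx d)} (h0 : (0 : Vtx d) ∈ S)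
    {R : ℕ} (hR : ∀ p ∈ S, nrm p < R) (k : ℕ) :
    ∀ (D : Finset (Edg d)) (u v : Vtx d), k * R ≤ nrm (u - v) →
      (lat d).tp x D u v ≤ phiS x S ^ k := by
  induction k with
  | zero =>
    intro D u v _
    rw [pow_zero]
    exact Gr.tp_le_one hx.le hx1 D u v
  | succ k ih =>
    intro D u v huv
    have hRpos : 0 < R := lt_of_le_of_lt (Nat.zero_le _) (hR 0 h0)
    set S' : Finset (Vtx d) := S.image (· + u) with hS'
    have hmem : ∀ p : Vtx d, p ∈ S' ↔ p - u ∈ S := by
      intro p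
      rw [hS', Finset.mem_image]
      constructor
      · rintro ⟨q, hq, rfl⟩; simpa using hq
      · intro h; exact ⟨p - u, h, by simp⟩
    have hu : u ∈ S' := by rw [hmem, sub_self]; exact h0
    have hv : v ∉ S' := by
      rw [hmem]
      intro h
      have h1 := hR _ h
      rw [nrm_sub_comm] at h1
      have : R ≤ (k + 1) * R := Nat.le_mul_of_pos_left _ (Nat.succ_pos k)
      omega
    have hφ := phiS_nonneg hx.le S
    have hsl := Gr.simon_lieb (G := lat d) hx hx1 D hu hv
    have hb : ∀ p q : Vtx d, p ∈ S' → nrm (p - q) ≤ 1 → k * R ≤ nrm (q - v) := by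
      intro p q hp hpq
      have h1 := hR _ ((hmem p).1 hp)
      have h2 := nrm_sub_le u p v
      have h3 := nrm_sub_le p q v
      rw [nrm_sub_comm u p] at h2
      have h4 : (k + 1) * R = k * R + R := by ring
      omega
    have hsgl : ∀ e : Edg d, nrm (e.1 - (e.1 + Pi.single e.2 1)) ≤ 1 := by
      intro e
      have : e.1 - (e.1 + Pi.single e.2 1) = -Pi.single e.2 1 := by abel
      rw [this, nrm_neg, nrm_single]
      simp
    have hterm : ∀ e ∈ D, ((if (lat d).src e ∈ S' ∧ (lat d).tgt e ∉ S' then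
        x * (lat d).tp x ((lat d).inn D S') u ((lat d).src e) * (lat d).tp x D ((lat d).tgt e) v
          else 0) +
      (if (lat d).tgt e ∈ S' ∧ (lat d).src e ∉ S' then
        x * (lat d).tp x ((lat d).inn D S') u ((lat d).tgt e) * (lat d).tp x D ((lat d).src e) v
          else 0)) ≤ phiT x D S' u e * phiS x S ^ k := by
      intro e _
      unfold phiT
      rw [add_mul]
      apply add_le_add
      · by_cases h : e.1 ∈ S' ∧ e.1 + Pi.single e.2 1 ∉ S'
        · rw [if_pos h]
          have h' : (lat d).src e ∈ S' ∧ (lat d).tgt e ∉ S' := h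
          rw [if_pos h']
          apply mul_le_mul_of_nonneg_left (ih D _ _ (hb _ _ h.1 (hsgl e)))
          exact mul_nonneg hx.le (Gr.tp_nonneg hx.le _ _ _)
        · rw [if_neg h]
          have h' : ¬ ((lat d).src e ∈ S' ∧ (lat d).tgt e ∉ S') := h
          rw [if_neg h', zero_mul]
      · by_cases h : e.1 + Pi.single e.2 1 ∈ S' ∧ e.1 ∉ S'
        · rw [if_pos h]
          have h' : (lat d).tgt e ∈ S' ∧ (lat d).src e ∉ S' := h
          rw [if_pos h']
          apply mul_le_mul_of_nonneg_left (ih D _ _ (hb _ _ h.1 (by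
            rw [nrm_sub_comm]; exact hsgl e)))
          exact mul_nonneg hx.le (Gr.tp_nonneg hx.le _ _ _)
        · rw [if_neg h]
          have h' : ¬ ((lat d).tgt e ∈ S' ∧ (lat d).src e ∉ S') := h
          rw [if_neg h', zero_mul]
    refine hsl.trans ((Finset.sum_le_sum hterm).trans ?_)
    rw [← Finset.sum_mul, pow_succ, mul_comm]
    apply mul_le_mul_of_nonneg_left _ (pow_nonneg hφ k)
    rw [← phiS_shift u S]
    calc ∑ e ∈ D, phiT x D S' u e ≤ ∑ e ∈ D, phiT x (tch S') S' u e :=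
          Finset.sum_le_sum fun e _ => phiT_mono hx.le hx1 D S' u e
      _ = ∑ e ∈ D.filter (fun e => e ∈ tch S'), phiT x (tch S') S' u e := by
          rw [Finset.sum_filter]
          refine Finset.sum_congr rfl fun e _ => ?_
          split_ifs with h
          · rfl
          · unfold phiT
            rw [mem_tch] at h
            push Not at h
            rw [if_neg (fun h' => h.1 h'.1), if_neg (fun h' => h.2 h'.1), add_zero]
      _ ≤ ∑ e ∈ tch S', phiT x (tch S') S' u e :=
          Finset.sum_le_sum_of_subset_of_nonneg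
            (fun e he => (Finset.mem_filter.1 he).2) fun e _ _ => phiT_nonneg hx.le _ _ _ _

/-- Exponential decay from `φ_x(S) < 1`. -/
theorem hasDecay_of_phi {x : ℝ} (hx : 0 < x) (hx1 : x < 1) {S : Finset (Vtx d)}
    (h0 : (0 : Vtx d) ∈ S) (hφ : phiS x S < 1) : ∃ C ρ, HasDecay d x C ρ := by
  classical
  set R : ℕ := ∑ p ∈ S, nrm p + 1 with hR
  have hR1 : ∀ p ∈ S, nrm p < R := by
    intro p hp
    have : nrm p ≤ ∑ p ∈ S, nrm p :=
      Finset.single_le_sum (f := fun p => nrm p) (fun _ _ => Nat.zero_le _) hp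
    omega
  have hRpos : 0 < R := Nat.succ_pos _
  set q : ℝ := max (phiS x S) (1 / 2) with hq
  have hq0 : 0 < q := lt_of_lt_of_le (by norm_num) (le_max_right _ _)
  have hq1 : q < 1 := max_lt hφ (by norm_num)
  set ρ : ℝ := q ^ ((R : ℝ)⁻¹) with hρ
  have hρ0 : 0 < ρ := Real.rpow_pos_of_pos hq0 _
  have hρ1 : ρ < 1 := Real.rpow_lt_one hq0.le hq1 (by positivity)
  have hρR : ρ ^ R = q := by
    rw [hρ, ← Real.rpow_natCast, ← Real.rpow_mul hq0.le, inv_mul_cancel₀ (by positivity),
      Real.rpow_one]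
  refine ⟨q⁻¹, ρ, hx, hx1, (one_le_inv₀ hq0).2 hq1.le, hρ0, hρ1, ?_⟩
  intro D u v
  set n := nrm (u - v) with hn
  have h1 := tp_iter hx hx1.le h0 hR1 (n / R) D u v (Nat.div_mul_le_self n R)
  have h2 : phiS x S ^ (n / R) ≤ q ^ (n / R) :=
    pow_le_pow_left₀ (phiS_nonneg hx.le S) (le_max_left _ _) _
  refine h1.trans (h2.trans ?_)
  have h3 : q ^ (n / R) = q⁻¹ * ρ ^ (R * (n / R + 1)) := by
    rw [pow_mul, hρR, pow_succ]
    field_simp
  rw [h3]
  apply mul_le_mul_of_nonneg_left _ (inv_nonneg.2 hq0.le)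
  apply pow_le_pow_of_le_one hρ0.le hρ1.le
  have := Nat.lt_mul_div_succ n hRpos
  omega

end Pool.Agent.LoopO1
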