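import Pool.Agent.LoopO1_f0ab88.Sharp3

/-!
# The differential inequality: algebraic part
-/

open Finset

set_option linter.unusedSectionVars false
set_option linter.unusedVariables false

namespace Pool.Agent.LoopO1

section Split

variable {E V : Type*} [DecidableEq E] [DecidableEq V] {b : E → V → ZMod 2}

/-- If `D₁` has its sources in `S` and `D₂` outside `S`, the sources of a subset of `D₁ ∪ D₂`
determine those of both parts. -/
lemma sum_split {S : Finset V} {η₁ η₂ : Finset E} (h₁ : ∀ e ∈ η₁, ∀ v, v ∉ S → b e v = 0)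
    (h₂ : ∀ e ∈ η₂, ∀ v, v ∈ S → b e v = 0) (hd : Disjoint η₁ η₂) (v : V) :
    (v ∈ S → (∑ e ∈ η₁ ∪ η₂, b e) v = (∑ e ∈ η₁, b e) v) ∧
      (v ∉ S → (∑ e ∈ η₁ ∪ η₂, b e) v = (∑ e ∈ η₂, b e) v) := by
  rw [Finset.sum_union hd, Pi.add_apply]
  constructor
  · intro hv
    have : (∑ e ∈ η₂, b e) v = 0 := by
      rw [Finset.sum_apply]
      exact Finset.sum_eq_zero fun e he => h₂ e he v hv
    rw [this, add_zero]
  · intro hv
    have : (∑ e ∈ η₁, b e) v = 0 := by
      rw [Finset.sum_apply]
      exact Finset.sum_eq_zero fun e he => h₁ e he v hv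
    rw [this, zero_add]

lemma sum_split_zero {S : Finset V} {η₁ η₂ : Finset E} (h₁ : ∀ e ∈ η₁, ∀ v, v ∉ S → b e v = 0)
    (h₂ : ∀ e ∈ η₂, ∀ v, v ∈ S → b e v = 0) (hd : Disjoint η₁ η₂) :
    (∑ e ∈ η₁ ∪ η₂, b e = 0) ↔ (∑ e ∈ η₁, b e = 0 ∧ ∑ e ∈ η₂, b e = 0) := by
  constructor
  · intro h
    constructor
    · funext v
      by_cases hv : v ∈ S
      · rw [← (sum_split h₁ h₂ hd v).1 hv, h]
      · rw [Finset.sum_apply]
        exact Finset.sum_eq_zero fun e he => h₁ e he v hv
    · funext v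
      by_cases hv : v ∈ S
      · rw [Finset.sum_apply]
        exact Finset.sum_eq_zero fun e he => h₂ e he v hv
      · rw [← (sum_split h₁ h₂ hd v).2 hv, h]
  · rintro ⟨h3, h4⟩
    rw [Finset.sum_union hd, h3, h4, add_zero]

lemma NK_split {S : Finset V} {ω₁ ω₂ : Finset E} (h₁ : ∀ e ∈ ω₁, ∀ v, v ∉ S → b e v = 0)
    (h₂ : ∀ e ∈ ω₂, ∀ v, v ∈ S → b e v = 0) (hd : Disjoint ω₁ ω₂) :
    NK b (ω₁ ∪ ω₂) 0 = NK b ω₁ 0 * NK b ω₂ 0 := by
  classical
  unfold NK
  rw [← Finset.card_product]
  have hid : ∀ η : Finset E, η ⊆ ω₁ ∪ ω₂ → (η ∩ ω₁) ∪ (η ∩ ω₂) = η := by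
    intro η hη
    rw [← Finset.inter_union_distrib_left]
    exact Finset.inter_eq_left.2 hη
  have hdis : ∀ η : Finset E, Disjoint (η ∩ ω₁) (η ∩ ω₂) := fun η =>
    Finset.disjoint_of_subset_left Finset.inter_subset_right
      (Finset.disjoint_of_subset_right Finset.inter_subset_right hd)
  refine Finset.card_bij' (fun η _ => (η ∩ ω₁, η ∩ ω₂)) (fun p _ => p.1 ∪ p.2) ?_ ?_ ?_ ?_
  · intro η hη
    rw [Finset.mem_filter, Finset.mem_powerset] at hη
    rw [Finset.mem_product, Finset.mem_filter, Finset.mem_filter, Finset.mem_powerset,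
      Finset.mem_powerset]
    have h3 := hη.2
    rw [← hid η hη.1, sum_split_zero (fun e he => h₁ e (Finset.inter_subset_right he))
      (fun e he => h₂ e (Finset.inter_subset_right he)) (hdis η)] at h3
    exact ⟨⟨Finset.inter_subset_right, h3.1⟩, Finset.inter_subset_right, h3.2⟩
  · rintro ⟨η₁, η₂⟩ hp
    rw [Finset.mem_product, Finset.mem_filter, Finset.mem_filter, Finset.mem_powerset,
      Finset.mem_powerset] at hp
    obtain ⟨⟨hs1, hz1⟩, hs2, hz2⟩ := hp
    rw [Finset.mem_filter, Finset.mem_powerset]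
    refine ⟨Finset.union_subset_union hs1 hs2, ?_⟩
    rw [sum_split_zero (fun e he => h₁ e (hs1 he)) (fun e he => h₂ e (hs2 he))
      (Finset.disjoint_of_subset_left hs1 (Finset.disjoint_of_subset_right hs2 hd))]
    exact ⟨hz1, hz2⟩
  · intro η hη
    rw [Finset.mem_filter, Finset.mem_powerset] at hη
    exact hid η hη.1
  · rintro ⟨η₁, η₂⟩ hp
    rw [Finset.mem_product, Finset.mem_filter, Finset.mem_filter, Finset.mem_powerset,
      Finset.mem_powerset] at hp
    obtain ⟨⟨hs1, _⟩, hs2, _⟩ := hp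
    simp only at hs1 hs2
    simp only [Prod.mk.injEq]
    constructor
    · rw [Finset.union_inter_distrib_right, Finset.inter_eq_left.2 hs1]
      have : η₂ ∩ ω₁ = ∅ := by
        rw [← Finset.disjoint_iff_inter_eq_empty]
        exact Finset.disjoint_of_subset_left hs2 hd.symm
      rw [this, Finset.union_empty]
    · rw [Finset.union_inter_distrib_right, Finset.inter_eq_left.2 hs2]
      have : η₁ ∩ ω₂ = ∅ := by
        rw [← Finset.disjoint_iff_inter_eq_empty]
        exact Finset.disjoint_of_subset_left hs1 hd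
      rw [this, Finset.empty_union]

lemma wB_split {x : ℝ} {D D₁ ω₁ ω₂ : Finset E} (hD : D₁ ⊆ D) (h₁ : ω₁ ⊆ D₁) (h₂ : ω₂ ⊆ D \ D₁) :
    wB x D (ω₁ ∪ ω₂) = wB x D₁ ω₁ * wB x (D \ D₁) ω₂ := by
  have hd : Disjoint ω₁ ω₂ :=
    Finset.disjoint_of_subset_left h₁ (Finset.disjoint_of_subset_right h₂ Finset.disjoint_sdiff)
  unfold wB
  have e1 : (ω₁ ∪ ω₂).card = ω₁.card + ω₂.card := Finset.card_union_of_disjoint hd
  have hu : ω₁ ∪ ω₂ ⊆ D := Finset.union_subset (h₁.trans hD) (h₂.trans Finset.sdiff_subset)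
  have e2 : (D \ (ω₁ ∪ ω₂)).card = (D₁ \ ω₁).card + ((D \ D₁) \ ω₂).card := by
    rw [Finset.card_sdiff_of_subset hu, Finset.card_sdiff_of_subset h₁,
      Finset.card_sdiff_of_subset h₂, Finset.card_sdiff_of_subset hD, e1]
    have h3 := Finset.card_le_card h₁
    have h4 := Finset.card_le_card h₂
    rw [Finset.card_sdiff_of_subset hD] at h4
    have h5 := Finset.card_le_card hD
    omega
  rw [e1, e2, pow_add, pow_add]
  ring

end Split

namespace Gr

variable {V E : Type*} [DecidableEq V] [DecidableEq E] (G : Gr V E)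

/-- The source at `v` if `v ∈ W`. -/
def dW (W : Finset V) (v : V) : V → ZMod 2 := if v ∈ W then dl v else 0

/-- The sources of an edge inside `W`. -/
def bW (W : Finset V) (e : E) : V → ZMod 2 := dW W (G.src e) + dW W (G.tgt e)

variable {G}

lemma bW_eq_bd {W : Finset V} {e : E} (h1 : G.src e ∈ W) (h2 : G.tgt e ∈ W) :
    G.bW W e = G.bd e := by
  unfold bW bd dW
  rw [if_pos h1, if_pos h2]

lemma dW_apply_ne {W : Finset V} {u v : V} (h : u ≠ v) : dW W v u = 0 := by
  unfold dW
  split_ifs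
  · exact dl_apply_ne h
  · rfl

lemma dW_apply_notMem {W : Finset V} {u v : V} (h : u ∉ W) : dW W v u = 0 := by
  by_cases huv : u = v
  · subst huv
    unfold dW; rw [if_neg h]; rfl
  · exact dW_apply_ne huv

lemma bW_apply_ne {W : Finset V} {e : E} {v : V} (h1 : v ≠ G.src e) (h2 : v ≠ G.tgt e) :
    G.bW W e v = 0 := by
  unfold bW
  rw [Pi.add_apply, dW_apply_ne h1, dW_apply_ne h2, add_zero]

open Classical in
/-- The vertices of `W` which are not joined to the outside. -/
noncomputable def SS (G : Gr V E) (W : Finset V) (ω : Finset E) : Finset V :=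
  W.filter fun v => ¬ FK (G.bW W) ω (dW W v)

lemma mem_SS {W : Finset V} {ω : Finset E} {v : V} :
    v ∈ G.SS W ω ↔ v ∈ W ∧ ¬ FK (G.bW W) ω (dW W v) := by
  classical
  unfold SS
  rw [Finset.mem_filter]

lemma FK_of_notMem_SS {W : Finset V} {ω : Finset E} {v : V} (h : v ∉ G.SS W ω) :
    FK (G.bW W) ω (dW W v) := by
  rw [mem_SS] at h
  by_cases hv : v ∈ W
  · by_contra h'; exact h ⟨hv, h'⟩
  · unfold dW
    rw [if_neg hv]
    exact FK_zero ω

/-- The edges not touching `S`. -/
def offE (G : Gr V E) (H : Finset E) (S : Finset V) : Finset E :=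
  H.filter fun e => G.src e ∉ S ∧ G.tgt e ∉ S

lemma inn_supp {W S : Finset V} (hS : S ⊆ W) {H : Finset E} {e : E} (he : e ∈ G.inn H S) (v : V)
    (hv : v ∉ S) : G.bW W e v = 0 := by
  have h := (Finset.mem_filter.1 he).2
  exact bW_apply_ne (fun h' => hv (by rw [h']; exact h.1)) (fun h' => hv (by rw [h']; exact h.2))

lemma off_supp {W S : Finset V} {H : Finset E} {e : E} (he : e ∈ G.offE H S) (v : V)
    (hv : v ∈ S) : G.bW W e v = 0 := by
  have h := (Finset.mem_filter.1 he).2
  exact bW_apply_ne (fun h' => h.1 (by rw [← h']; exact hv)) (fun h' => h.2 (by rw [← h']; exact hv))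

lemma disj_inn_off (H : Finset E) (S : Finset V) : Disjoint (G.inn H S) (G.offE H S) := by
  rw [Finset.disjoint_left]
  intro e he he'
  exact (Finset.mem_filter.1 he').2.1 (Finset.mem_filter.1 he).2.1

/-- The parity of the sources of inside edges. -/
lemma sum_inn_parity {W S : Finset V} (hS : S ⊆ W) {H η : Finset E} (hη : η ⊆ G.inn H S) :
    ∑ v ∈ S, (∑ e ∈ η, G.bW W e) v = 0 := by
  have h1 : ∀ e ∈ η, ∑ v ∈ S, G.bW W e v = 0 := by
    intro e he
    have h := (Finset.mem_filter.1 (hη he)).2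
    rw [bW_eq_bd (hS h.1) (hS h.2)]
    unfold bd
    simp only [Pi.add_apply, Finset.sum_add_distrib]
    have h2 : ∀ a ∈ S, ∑ v ∈ S, (dl a : V → ZMod 2) v = 1 := by
      intro a ha
      rw [Finset.sum_eq_single a]
      · exact dl_apply_self a
      · intro c _ hc; exact dl_apply_ne hc
      · intro h'; exact absurd ha h'
    rw [h2 _ h.1, h2 _ h.2]
    decide
  simp only [Finset.sum_apply]
  rw [Finset.sum_comm]
  exact Finset.sum_eq_zero h1

/-- Characterisation of the configurations with a given `SS`. -/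
lemma SS_eq_iff {W S : Finset V} (hS : S ⊆ W) {H ω : Finset E} (hω : ω ⊆ H) :
    G.SS W ω = S ↔ ω ⊆ G.inn H S ∪ G.offE H S ∧
      ∀ v ∈ W, v ∉ S → FK (G.bW W) (ω ∩ G.offE H S) (dW W v) := by
  have h2 : ∀ a : V → ZMod 2, a + a = 0 := add_self_fun
  constructor
  · intro h
    have hsub : ω ⊆ G.inn H S ∪ G.offE H S := by
      intro e he
      rw [Finset.mem_union]
      have hb := FK_edge (b := G.bW W) he
      by_cases hs : G.src e ∈ S
      · left
        refine Finset.mem_filter.2 ⟨hω he, hs, ?_⟩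
        by_contra ht
        rw [← h] at ht hs
        have h3 := FK_of_notMem_SS ht
        apply (mem_SS.1 hs).2
        have := FK_add h2 hb h3
        convert this using 1
        unfold bW
        rw [add_assoc, h2, add_zero]
      · right
        refine Finset.mem_filter.2 ⟨hω he, hs, ?_⟩
        intro ht
        rw [← h] at ht hs
        have h3 := FK_of_notMem_SS hs
        apply (mem_SS.1 ht).2
        have := FK_add h2 h3 hb
        convert this using 1
        unfold bW
        rw [← add_assoc, h2, zero_add]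
    refine ⟨hsub, ?_⟩
    intro v hv hvS
    rw [← h] at hvS
    obtain ⟨η, hη, hηv⟩ := FK_of_notMem_SS hvS
    rw [h] at hvS
    refine ⟨η ∩ G.offE H S, Finset.inter_subset_inter hη (Finset.Subset.refl _), ?_⟩
    have hid : (η ∩ G.inn H S) ∪ (η ∩ G.offE H S) = η := by
      rw [← Finset.inter_union_distrib_left]
      exact Finset.inter_eq_left.2 (hη.trans hsub)
    have hdis : Disjoint (η ∩ G.inn H S) (η ∩ G.offE H S) :=
      Finset.disjoint_of_subset_left Finset.inter_subset_right
        (Finset.disjoint_of_subset_right Finset.inter_subset_right (disj_inn_off H S))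
    have hsp := sum_split (b := G.bW W) (S := S) (η₁ := η ∩ G.inn H S) (η₂ := η ∩ G.offE H S)
      (fun e he v hv => inn_supp hS (Finset.inter_subset_right he) v hv)
      (fun e he v hv => off_supp (Finset.inter_subset_right he) v hv) hdis
    rw [hid, hηv] at hsp
    funext w
    by_cases hw : w ∈ S
    · rw [dW_apply_ne (fun h' => hvS (by rw [← h']; exact hw)), Finset.sum_apply]
      exact Finset.sum_eq_zero fun e he => off_supp (Finset.inter_subset_right he) w hw
    · exact ((hsp w).2 hw).symm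
  · rintro ⟨hsub, hQ⟩
    ext v
    rw [mem_SS]
    constructor
    · rintro ⟨hv, hF⟩
      by_contra hvS
      exact hF (FK_mono Finset.inter_subset_left (hQ v hv hvS))
    · intro hvS
      refine ⟨hS hvS, ?_⟩
      rintro ⟨η, hη, hηv⟩
      have hid : (η ∩ G.inn H S) ∪ (η ∩ G.offE H S) = η := by
        rw [← Finset.inter_union_distrib_left]
        exact Finset.inter_eq_left.2 (hη.trans hsub)
      have hdis : Disjoint (η ∩ G.inn H S) (η ∩ G.offE H S) :=
        Finset.disjoint_of_subset_left Finset.inter_subset_right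
          (Finset.disjoint_of_subset_right Finset.inter_subset_right (disj_inn_off H S))
      have hsp := sum_split (b := G.bW W) (S := S) (η₁ := η ∩ G.inn H S) (η₂ := η ∩ G.offE H S)
        (fun e he v hv => inn_supp hS (Finset.inter_subset_right he) v hv)
        (fun e he v hv => off_supp (Finset.inter_subset_right he) v hv) hdis
      rw [hid, hηv] at hsp
      have hpar := sum_inn_parity (G := G) hS (H := H) (η := η ∩ G.inn H S)
        Finset.inter_subset_right
      rw [Finset.sum_congr rfl fun w hw => ((hsp w).1 hw).symm, Finset.sum_eq_single v] at hpar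
      · unfold dW at hpar
        rw [if_pos (hS hvS), dl_apply_self] at hpar
        exact one_ne_zero hpar
      · intro w _ hw; exact dW_apply_ne hw
      · intro h'; exact absurd hvS h'

lemma NK_bW {W S : Finset V} (hS : S ⊆ W) {H ω : Finset E} (hω : ω ⊆ G.inn H S)
    (A : V → ZMod 2) : NK (G.bW W) ω A = NK G.bd ω A := by
  classical
  unfold NK
  congr 1
  apply Finset.filter_congr
  intro η hη
  rw [Finset.mem_powerset] at hη
  have : ∑ e ∈ η, G.bW W e = ∑ e ∈ η, G.bd e := by
    refine Finset.sum_congr rfl fun e he => ?_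
    have h := (Finset.mem_filter.1 (hω (hη he))).2
    exact bW_eq_bd (hS h.1) (hS h.2)
  rw [this]

/-- Conditionally on `SS = S`, the configuration inside `S` is free. -/
lemma resample {x : ℝ} (hx : 0 ≤ x) (hx1 : x ≤ 1) (H : Finset E) {W S : Finset V} (hS : S ⊆ W) :
    ∃ κ : ℝ, 0 ≤ κ ∧ ∀ f : Finset E → ℝ,
      ∑ ω ∈ H.powerset.filter (fun ω => G.SS W ω = S), wF (G.bW W) x H ω * f (ω ∩ G.inn H S) =
        κ * ∑ ω₁ ∈ (G.inn H S).powerset, wF G.bd x (G.inn H S) ω₁ * f ω₁ := by
  classical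
  set H₁ := G.inn H S with hH₁
  set H₂ := G.offE H S with hH₂
  have hH₁H : H₁ ⊆ H := Finset.filter_subset _ _
  have hH₂H : H₂ ⊆ H := Finset.filter_subset _ _
  have hdis : Disjoint H₁ H₂ := disj_inn_off H S
  set Q : Finset E → Prop := fun ω₂ => ∀ v ∈ W, v ∉ S → FK (G.bW W) ω₂ (dW W v) with hQ
  refine ⟨∑ ω₂ ∈ H₂.powerset.filter Q, wB x (H \ H₁) ω₂ * NK (G.bW W) ω₂ 0,
    Finset.sum_nonneg fun ω _ => mul_nonneg (wB_nonneg hx hx1 _ _) (Nat.cast_nonneg _), ?_⟩
  intro f
  rw [Finset.sum_mul_sum, Finset.sum_comm, ← Finset.sum_product']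
  refine Finset.sum_nbij' (fun ω => (ω ∩ H₁, ω ∩ H₂)) (fun p => p.1 ∪ p.2) ?_ ?_ ?_ ?_ ?_
  · intro ω hω
    rw [Finset.mem_filter, Finset.mem_powerset] at hω
    have h := (SS_eq_iff (G := G) hS hω.1).1 hω.2
    rw [Finset.mem_product, Finset.mem_powerset, Finset.mem_filter, Finset.mem_powerset]
    exact ⟨Finset.inter_subset_right, Finset.inter_subset_right, h.2⟩
  · rintro ⟨ω₁, ω₂⟩ hp
    rw [Finset.mem_product, Finset.mem_powerset, Finset.mem_filter, Finset.mem_powerset] at hp
    obtain ⟨h1, h2, h3⟩ := hp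
    simp only at h1 h2 h3
    rw [Finset.mem_filter, Finset.mem_powerset]
    have hsub : ω₁ ∪ ω₂ ⊆ H := Finset.union_subset (h1.trans hH₁H) (h2.trans hH₂H)
    refine ⟨hsub, ?_⟩
    rw [SS_eq_iff (G := G) hS hsub]
    refine ⟨Finset.union_subset_union h1 h2, ?_⟩
    have : (ω₁ ∪ ω₂) ∩ G.offE H S = ω₂ := by
      rw [Finset.union_inter_distrib_right, Finset.inter_eq_left.2 h2]
      have h4 : ω₁ ∩ G.offE H S = ∅ := by
        rw [← Finset.disjoint_iff_inter_eq_empty]
        exact Finset.disjoint_of_subset_left h1 hdis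
      rw [h4, Finset.empty_union]
    rw [this]
    exact h3
  · intro ω hω
    rw [Finset.mem_filter, Finset.mem_powerset] at hω
    have h := (SS_eq_iff (G := G) hS hω.1).1 hω.2
    show (ω ∩ H₁) ∪ (ω ∩ H₂) = ω
    rw [← Finset.inter_union_distrib_left]
    exact Finset.inter_eq_left.2 h.1
  · rintro ⟨ω₁, ω₂⟩ hp
    rw [Finset.mem_product, Finset.mem_powerset, Finset.mem_filter, Finset.mem_powerset] at hp
    obtain ⟨h1, h2, h3⟩ := hp
    simp only at h1 h2
    simp only [Prod.mk.injEq]
    constructor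
    · rw [Finset.union_inter_distrib_right, Finset.inter_eq_left.2 h1]
      have : ω₂ ∩ H₁ = ∅ := by
        rw [← Finset.disjoint_iff_inter_eq_empty]
        exact Finset.disjoint_of_subset_left h2 hdis.symm
      rw [this, Finset.union_empty]
    · rw [Finset.union_inter_distrib_right, Finset.inter_eq_left.2 h2]
      have : ω₁ ∩ H₂ = ∅ := by
        rw [← Finset.disjoint_iff_inter_eq_empty]
        exact Finset.disjoint_of_subset_left h1 hdis
      rw [this, Finset.empty_union]
  · intro ω hω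
    rw [Finset.mem_filter, Finset.mem_powerset] at hω
    have h := (SS_eq_iff (G := G) hS hω.1).1 hω.2
    have hid : (ω ∩ H₁) ∪ (ω ∩ H₂) = ω := by
      rw [← Finset.inter_union_distrib_left]
      exact Finset.inter_eq_left.2 h.1
    have hN : NK (G.bW W) ω 0 = NK G.bd (ω ∩ H₁) 0 * NK (G.bW W) (ω ∩ H₂) 0 := by
      conv_lhs => rw [← hid]
      rw [NK_split (S := S) (fun e he v hv => inn_supp hS (Finset.inter_subset_right he) v hv)
        (fun e he v hv => off_supp (Finset.inter_subset_right he) v hv)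
        (Finset.disjoint_of_subset_left Finset.inter_subset_right
          (Finset.disjoint_of_subset_right Finset.inter_subset_right hdis)),
        NK_bW hS (H := H) Finset.inter_subset_right]
    have hB : wB x H ω = wB x H₁ (ω ∩ H₁) * wB x (H \ H₁) (ω ∩ H₂) := by
      conv_lhs => rw [← hid]
      apply wB_split hH₁H Finset.inter_subset_right
      intro e he
      rw [Finset.mem_sdiff]
      rw [Finset.mem_inter] at he
      exact ⟨hH₂H he.2, fun h' => Finset.disjoint_left.1 hdis h' he.2⟩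
    unfold wF
    rw [hN, hB]
    push_cast
    ring

end Gr

end Pool.Agent.LoopO1
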