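import Pool.Agent.LoopO1_f0ab88.Sharp4

/-!
# The differential inequality: the key estimate
-/

open Finset

set_option linter.unusedSectionVars false
set_option linter.unusedVariables false

namespace Pool.Agent.LoopO1

namespace Gr

variable {V E : Type*} [DecidableEq V] [DecidableEq E] {G : Gr V E}

open Classical in
/-- `o` is joined to `a`, `c` is joined to the outside and `o` is not joined to the outside. -/
noncomputable def Iev (G : Gr V E) (W : Finset V) (o a c : V) (ω : Finset E) : ℝ :=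
  if FK (G.bW W) ω (dW W o + dW W a) ∧ FK (G.bW W) ω (dW W c) ∧ ¬ FK (G.bW W) ω (dW W o)
    then 1 else 0

open Classical in
lemma edge_ineq {x : ℝ} (hx : 0 ≤ x) (hx1 : x ≤ 1) (H : Finset E) (W : Finset V) (o : V) (e : E) :
    Z (G.bW W) x H 0 * ∑ ω ∈ H.powerset, wF (G.bW W) x H ω *
        (G.Iev W o (G.src e) (G.tgt e) ω + G.Iev W o (G.tgt e) (G.src e) ω) ≤
      Z (G.bW W) x H (dW W o + G.bW W e) * Z (G.bW W) x H 0 -
        Z (G.bW W) x H (dW W o) * Z (G.bW W) x H (G.bW W e) := by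
  have h2 : ∀ a : V → ZMod 2, a + a = 0 := add_self_fun
  set b := G.bW W with hb
  have hpos := Z_zero_pos (b := b) hx H
  -- FKG
  have hfkg := fkg_wF (b := b) h2 hx hx1 H (fun ω => if FK b ω (dW W o) then 1 else 0)
    (fun ω => if FK b ω (b e) then 1 else 0) (fun s => by split_ifs <;> norm_num)
    (fun s => by split_ifs <;> norm_num)
    (fun s t hst _ => by
      by_cases h : FK b s (dW W o)
      · rw [if_pos h, if_pos (FK_mono hst h)]
      · rw [if_neg h]; split_ifs <;> norm_num)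
    (fun s t hst _ => by
      by_cases h : FK b s (b e)
      · rw [if_pos h, if_pos (FK_mono hst h)]
      · rw [if_neg h]; split_ifs <;> norm_num)
  have e1 : ∀ A, ∑ ω ∈ H.powerset, wF b x H ω * (if FK b ω A then (1 : ℝ) else 0) = Z b x H A := by
    intro A
    rw [Z_eq_wF h2]
    refine Finset.sum_congr rfl fun ω _ => ?_
    split_ifs <;> simp
  have e2 : ∑ ω ∈ H.powerset, wF b x H ω = Z b x H 0 := (Z_zero_eq_wF x H).symm
  rw [e1, e1, e2] at hfkg
  -- decomposition of the first term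
  have hdec : ∑ ω ∈ H.powerset, wF b x H ω * ((if FK b ω (dW W o) then (1 : ℝ) else 0) *
        (if FK b ω (b e) then (1 : ℝ) else 0)) +
      ∑ ω ∈ H.powerset, wF b x H ω *
        (G.Iev W o (G.src e) (G.tgt e) ω + G.Iev W o (G.tgt e) (G.src e) ω) ≤
      Z b x H (dW W o + b e) := by
    rw [← e1, ← Finset.sum_add_distrib]
    refine Finset.sum_le_sum fun ω _ => ?_
    rw [← mul_add]
    apply mul_le_mul_of_nonneg_left _ (wF_nonneg hx hx1 _ _)
    have hbe : b e = dW W (G.src e) + dW W (G.tgt e) := rfl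
    unfold Iev
    by_cases ho : FK b ω (dW W o)
    · have n1 : ¬ (FK b ω (dW W o + dW W (G.src e)) ∧ FK b ω (dW W (G.tgt e)) ∧
          ¬ FK b ω (dW W o)) := fun h => h.2.2 ho
      have n2 : ¬ (FK b ω (dW W o + dW W (G.tgt e)) ∧ FK b ω (dW W (G.src e)) ∧
          ¬ FK b ω (dW W o)) := fun h => h.2.2 ho
      rw [if_neg n1, if_neg n2, if_pos ho]
      by_cases he : FK b ω (b e)
      · rw [if_pos he, if_pos (FK_add h2 ho he)]
        norm_num
      · rw [if_neg he]
        split_ifs <;> norm_num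
    · rw [if_neg ho, zero_mul, zero_add]
      by_cases h1 : FK b ω (dW W o + dW W (G.src e)) ∧ FK b ω (dW W (G.tgt e)) ∧
          ¬ FK b ω (dW W o)
      · have n2 : ¬ (FK b ω (dW W o + dW W (G.tgt e)) ∧ FK b ω (dW W (G.src e)) ∧
            ¬ FK b ω (dW W o)) := by
          rintro ⟨h3, h4, _⟩
          apply ho
          have := FK_add h2 h1.1 h4
          rwa [add_assoc, h2, add_zero] at this
        rw [if_pos h1, if_neg n2]
        have h5 : FK b ω (dW W o + b e) := by
          have := FK_add h2 h1.1 h1.2.1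
          rwa [add_assoc, ← hbe] at this
        rw [if_pos h5]
        norm_num
      · rw [if_neg h1]
        by_cases h3 : FK b ω (dW W o + dW W (G.tgt e)) ∧ FK b ω (dW W (G.src e)) ∧
          ¬ FK b ω (dW W o)
        · rw [if_pos h3]
          have h5 : FK b ω (dW W o + b e) := by
            have := FK_add h2 h3.1 h3.2.1
            rwa [add_assoc, add_comm (dW W (G.tgt e)), ← hbe] at this
          rw [if_pos h5]
          norm_num
        · rw [if_neg h3]
          split_ifs <;> norm_num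
  nlinarith [mul_le_mul_of_nonneg_left hdec hpos.le]

/-- The sum defining `φ(S) / x`. -/
noncomputable def psi (G : Gr V E) (x : ℝ) (H : Finset E) (S : Finset V) (o : V) : ℝ :=
  ∑ e ∈ H, ((if G.src e ∈ S ∧ G.tgt e ∉ S then G.tp x (G.inn H S) o (G.src e) else 0) +
    (if G.tgt e ∈ S ∧ G.src e ∉ S then G.tp x (G.inn H S) o (G.tgt e) else 0))

open Classical in
lemma class_ineq {x : ℝ} (hx : 0 ≤ x) (hx1 : x ≤ 1) (H : Finset E) {W S : Finset V} (hS : S ⊆ W)
    {o : V} (ho : o ∈ S) :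
    G.psi x H S o * ∑ ω ∈ H.powerset.filter (fun ω => G.SS W ω = S), wF (G.bW W) x H ω ≤
      ∑ ω ∈ H.powerset.filter (fun ω => G.SS W ω = S), wF (G.bW W) x H ω *
        ∑ e ∈ H, (G.Iev W o (G.src e) (G.tgt e) ω + G.Iev W o (G.tgt e) (G.src e) ω) := by
  have h2 : ∀ a : V → ZMod 2, a + a = 0 := add_self_fun
  obtain ⟨κ, hκ, hres⟩ := resample (G := G) hx hx1 H hS
  set H₁ := G.inn H S with hH₁
  have hZ := Z_zero_pos (b := G.bd) hx H₁
  have hsum1 : ∑ ω ∈ H.powerset.filter (fun ω => G.SS W ω = S), wF (G.bW W) x H ω =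
      κ * Z G.bd x H₁ 0 := by
    have := hres (fun _ => 1)
    simp only [mul_one] at this
    rw [this, ← Z_zero_eq_wF]
  have hsumA : ∀ a : V, ∑ ω ∈ H.powerset.filter (fun ω => G.SS W ω = S), wF (G.bW W) x H ω *
      (if FK G.bd (ω ∩ H₁) (dl o + dl a) then (1 : ℝ) else 0) = κ * Z G.bd x H₁ (dl o + dl a) := by
    intro a
    have := hres (fun η => if FK G.bd η (dl o + dl a) then (1 : ℝ) else 0)
    rw [this, Z_eq_wF h2]
    congr 1
    refine Finset.sum_congr rfl fun ω _ => ?_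
    split_ifs <;> simp
  have hoW : o ∈ W := hS ho
  -- pointwise lower bound
  have hpt : ∀ ω ∈ H.powerset.filter (fun ω => G.SS W ω = S), ∀ a c : V, a ∈ S → c ∉ S →
      (if FK G.bd (ω ∩ H₁) (dl o + dl a) then (1 : ℝ) else 0) ≤ G.Iev W o a c ω := by
    intro ω hω a c ha hc
    rw [Finset.mem_filter, Finset.mem_powerset] at hω
    unfold Iev
    by_cases hF : FK G.bd (ω ∩ H₁) (dl o + dl a)
    · have h3 : FK (G.bW W) ω (dW W o + dW W a) := by
        obtain ⟨η, hη, hηA⟩ := hF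
        refine ⟨η, hη.trans Finset.inter_subset_left, ?_⟩
        unfold dW
        rw [if_pos hoW, if_pos (hS ha), ← hηA]
        refine Finset.sum_congr rfl fun e he => ?_
        have h := (Finset.mem_filter.1 (Finset.inter_subset_right (hη he))).2
        exact bW_eq_bd (hS h.1) (hS h.2)
      have h4 : FK (G.bW W) ω (dW W c) := FK_of_notMem_SS (by rw [hω.2]; exact hc)
      have h5 : ¬ FK (G.bW W) ω (dW W o) := (mem_SS.1 (by rw [hω.2]; exact ho)).2
      rw [if_pos hF, if_pos ⟨h3, h4, h5⟩]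
    · rw [if_neg hF]
      split_ifs <;> norm_num
  have hIev : ∀ a c ω, 0 ≤ G.Iev W o a c ω := by
    intro a c ω; unfold Iev; split_ifs <;> norm_num
  rw [hsum1]
  unfold psi
  rw [Finset.sum_mul]
  simp only [Finset.mul_sum]
  rw [Finset.sum_comm]
  refine Finset.sum_le_sum fun e _ => ?_
  simp only [mul_add, Finset.sum_add_distrib]
  rw [add_mul]
  apply add_le_add
  · by_cases h : G.src e ∈ S ∧ G.tgt e ∉ S
    · rw [if_pos h]
      have h6 : G.tp x H₁ o (G.src e) * (κ * Z G.bd x H₁ 0) =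
          κ * Z G.bd x H₁ (dl o + dl (G.src e)) := by
        unfold tp gp g
        field_simp
      rw [h6, ← hsumA]
      exact Finset.sum_le_sum fun ω hω =>
        mul_le_mul_of_nonneg_left (hpt ω hω _ _ h.1 h.2) (wF_nonneg hx hx1 _ _)
    · rw [if_neg h, zero_mul]
      exact Finset.sum_nonneg fun ω _ => mul_nonneg (wF_nonneg hx hx1 _ _) (hIev _ _ _)
  · by_cases h : G.tgt e ∈ S ∧ G.src e ∉ S
    · rw [if_pos h]
      have h6 : G.tp x H₁ o (G.tgt e) * (κ * Z G.bd x H₁ 0) =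
          κ * Z G.bd x H₁ (dl o + dl (G.tgt e)) := by
        unfold tp gp g
        field_simp
      rw [h6, ← hsumA]
      exact Finset.sum_le_sum fun ω hω =>
        mul_le_mul_of_nonneg_left (hpt ω hω _ _ h.1 h.2) (wF_nonneg hx hx1 _ _)
    · rw [if_neg h, zero_mul]
      exact Finset.sum_nonneg fun ω _ => mul_nonneg (wF_nonneg hx hx1 _ _) (hIev _ _ _)

open Classical in
/-- **The key inequality.** -/
theorem key_ineq {x : ℝ} (hx : 0 ≤ x) (hx1 : x ≤ 1) (H : Finset E) {W : Finset V} {o : V}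
    (ho : o ∈ W) {c : ℝ} (hc0 : 0 ≤ c) (hc : ∀ S ⊆ W, o ∈ S → c ≤ G.psi x H S o) :
    c * Z (G.bW W) x H 0 * (Z (G.bW W) x H 0 - Z (G.bW W) x H (dW W o)) ≤
      ∑ e ∈ H, (Z (G.bW W) x H (dW W o + G.bW W e) * Z (G.bW W) x H 0 -
        Z (G.bW W) x H (dW W o) * Z (G.bW W) x H (G.bW W e)) := by
  have h2 : ∀ a : V → ZMod 2, a + a = 0 := add_self_fun
  have hpos := Z_zero_pos (b := G.bW W) hx H
  have h1 := Finset.sum_le_sum fun e (_ : e ∈ H) => edge_ineq (G := G) hx hx1 H W o e
  refine le_trans ?_ h1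
  rw [← Finset.mul_sum, mul_comm c, mul_assoc]
  apply mul_le_mul_of_nonneg_left _ hpos.le
  -- exchange the sums
  have hex : ∑ e ∈ H, ∑ ω ∈ H.powerset, wF (G.bW W) x H ω *
        (G.Iev W o (G.src e) (G.tgt e) ω + G.Iev W o (G.tgt e) (G.src e) ω) =
      ∑ ω ∈ H.powerset, wF (G.bW W) x H ω *
        ∑ e ∈ H, (G.Iev W o (G.src e) (G.tgt e) ω + G.Iev W o (G.tgt e) (G.src e) ω) := by
    rw [Finset.sum_comm]
    refine Finset.sum_congr rfl fun ω _ => ?_
    rw [Finset.mul_sum]
  rw [hex]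
  have hIev : ∀ a c ω, 0 ≤ G.Iev W o a c ω := by
    intro a c ω; unfold Iev; split_ifs <;> norm_num
  -- the left hand side
  have hL : Z (G.bW W) x H 0 - Z (G.bW W) x H (dW W o) =
      ∑ ω ∈ H.powerset, (if o ∈ G.SS W ω then wF (G.bW W) x H ω else 0) := by
    rw [Z_zero_eq_wF, Z_eq_wF h2, ← Finset.sum_sub_distrib]
    refine Finset.sum_congr rfl fun ω _ => ?_
    by_cases h : FK (G.bW W) ω (dW W o)
    · rw [if_pos h, if_neg (fun h' => (mem_SS.1 h').2 h), sub_self]
    · rw [if_neg h, if_pos (mem_SS.2 ⟨ho, h⟩), sub_zero]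
  rw [hL]
  have hfib : ∀ F : Finset E → ℝ, ∑ ω ∈ H.powerset, F ω =
      ∑ S ∈ W.powerset, ∑ ω ∈ H.powerset.filter (fun ω => G.SS W ω = S), F ω := by
    intro F
    rw [Finset.sum_fiberwise_of_maps_to]
    intro ω _
    rw [Finset.mem_powerset]
    intro v hv
    exact (mem_SS.1 hv).1
  rw [hfib, hfib, Finset.mul_sum]
  refine Finset.sum_le_sum fun S hS => ?_
  rw [Finset.mem_powerset] at hS
  by_cases hoS : o ∈ S
  · have e1 : ∑ ω ∈ H.powerset.filter (fun ω => G.SS W ω = S),
        (if o ∈ G.SS W ω then wF (G.bW W) x H ω else 0) =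
        ∑ ω ∈ H.powerset.filter (fun ω => G.SS W ω = S), wF (G.bW W) x H ω := by
      refine Finset.sum_congr rfl fun ω hω => ?_
      rw [(Finset.mem_filter.1 hω).2, if_pos hoS]
    rw [e1]
    refine le_trans ?_ (class_ineq hx hx1 H hS hoS)
    apply mul_le_mul_of_nonneg_right (hc S hS hoS)
    exact Finset.sum_nonneg fun ω _ => wF_nonneg hx hx1 _ _
  · have e1 : ∑ ω ∈ H.powerset.filter (fun ω => G.SS W ω = S),
        (if o ∈ G.SS W ω then wF (G.bW W) x H ω else 0) = 0 := by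
      apply Finset.sum_eq_zero
      intro ω hω
      rw [(Finset.mem_filter.1 hω).2, if_neg hoS]
    rw [e1, mul_zero]
    exact Finset.sum_nonneg fun ω _ => mul_nonneg (wF_nonneg hx hx1 _ _)
      (Finset.sum_nonneg fun e _ => add_nonneg (hIev _ _ _) (hIev _ _ _))

end Gr

end Pool.Agent.LoopO1
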