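import Pool.Agent.LoopO1_f0ab88.Sharp4

/-!
# The high temperature expansion on the spin side
-/

open Finset

set_option linter.unusedSectionVars false
set_option linter.unusedVariables false

namespace Pool.Agent.LoopO1

variable {d : ℕ}

/-- The character attached to a source function. -/
noncomputable def ch (a : Vtx d → ZMod 2) (S : Finset (Vtx d)) : ℝ :=
  ∏ v ∈ S, (if a v = 1 then -1 else 1)

lemma ch_add (a b : Vtx d → ZMod 2) (S : Finset (Vtx d)) : ch (a + b) S = ch a S * ch b S := by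
  unfold ch
  rw [← Finset.prod_mul_distrib]
  refine Finset.prod_congr rfl fun v _ => ?_
  rw [Pi.add_apply]
  have h1 : (1 : ZMod 2) + 1 = 0 := by decide
  rcases Gr.zmod2_cases (a v) with hA | hA <;>
    rcases Gr.zmod2_cases (b v) with hB | hB <;> rw [hA, hB]
  · simp
  · simp
  · simp
  · rw [h1, if_neg zero_ne_one, if_pos rfl]; norm_num

lemma ch_zero (S : Finset (Vtx d)) : ch (0 : Vtx d → ZMod 2) S = 1 := by
  unfold ch
  refine Finset.prod_eq_one fun v _ => ?_
  rw [Pi.zero_apply, if_neg zero_ne_one]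

lemma ch_dW {W S : Finset (Vtx d)} (hS : S ⊆ W) (v : Vtx d) : ch (Gr.dW W v) S = spin S v := by
  unfold ch spin
  by_cases hv : v ∈ S
  · rw [if_pos hv, Finset.prod_eq_single v]
    · unfold Gr.dW
      rw [if_pos (hS hv), Gr.dl_apply_self, if_pos rfl]
    · intro u _ hu
      rw [Gr.dW_apply_ne hu, if_neg zero_ne_one]
    · intro h; exact absurd hv h
  · rw [if_neg hv]
    refine Finset.prod_eq_one fun u hu => ?_
    rw [Gr.dW_apply_ne (fun h => hv (by rw [← h]; exact hu)), if_neg zero_ne_one]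

lemma ch_bW {W S : Finset (Vtx d)} (hS : S ⊆ W) (e : Edg d) :
    ch ((lat d).bW W e) S = spin S e.1 * spin S (e.1 + Pi.single e.2 1) := by
  unfold Gr.bW
  rw [ch_add, ch_dW hS, ch_dW hS]
  rfl

lemma ch_sum_bW {W S : Finset (Vtx d)} (hS : S ⊆ W) (η : Finset (Edg d)) :
    ch (∑ e ∈ η, (lat d).bW W e) S = ∏ e ∈ η, spin S e.1 * spin S (e.1 + Pi.single e.2 1) := by
  induction η using Finset.induction_on with
  | empty => rw [Finset.sum_empty, Finset.prod_empty, ch_zero]
  | insert e η he ih => rw [Finset.sum_insert he, Finset.prod_insert he, ch_add, ih, ch_bW hS]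

lemma sum_ch (W : Finset (Vtx d)) (a : Vtx d → ZMod 2) :
    ∑ S ∈ W.powerset, ch a S = if ∀ v ∈ W, a v = 0 then (2 : ℝ) ^ W.card else 0 := by
  have h1 : ∑ S ∈ W.powerset, ch a S = ∏ v ∈ W, ((if a v = 1 then (-1 : ℝ) else 1) + 1) := by
    rw [Finset.prod_add]
    refine Finset.sum_congr rfl fun S hS => ?_
    rw [Finset.prod_const_one, mul_one]
    rfl
  rw [h1]
  split_ifs with h
  · rw [← Finset.prod_const]
    refine Finset.prod_congr rfl fun v hv => ?_
    rw [h v hv, if_neg zero_ne_one]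
    norm_num
  · push Not at h
    obtain ⟨v, hv, hA⟩ := h
    refine Finset.prod_eq_zero hv ?_
    rw [if_pos ((Gr.zmod2_cases _).resolve_left hA)]
    norm_num

lemma isingW_expand {n : ℕ} (b : ℝ) {S : Finset (Vtx d)} (hS : S ⊆ box d n) :
    isingW d n b S = Real.cosh b ^ (tbox d n).card *
      ∑ η ∈ (tbox d n).powerset, Real.tanh b ^ η.card *
        ch (∑ e ∈ η, (lat d).bW (box d n) e) S := by
  unfold isingW
  rw [Finset.mul_sum, Real.exp_sum]
  have h1 : ∀ e ∈ tbox d n, Real.exp (b * (spin S e.1 * spin S (e.1 + Pi.single e.2 1))) =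
      Real.cosh b * (1 + Real.tanh b * (spin S e.1 * spin S (e.1 + Pi.single e.2 1))) := by
    intro e _
    have hc := (Real.cosh_pos b).ne'
    have hs : spin S e.1 * spin S (e.1 + Pi.single e.2 1) = 1 ∨
        spin S e.1 * spin S (e.1 + Pi.single e.2 1) = -1 := by
      unfold spin
      split_ifs <;> norm_num
    rcases hs with hs | hs <;> rw [hs, Real.tanh_eq_sinh_div_cosh]
    · rw [mul_one, mul_one, mul_add, mul_div_cancel₀ _ hc, mul_one, Real.cosh_add_sinh]
    · rw [mul_neg_one, mul_neg_one, mul_add, mul_neg, mul_div_cancel₀ _ hc, mul_one,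
        ← sub_eq_add_neg, Real.cosh_sub_sinh]
  rw [Finset.prod_congr rfl h1, Finset.prod_mul_distrib, Finset.prod_const, Finset.prod_one_add]
  congr 1
  refine Finset.sum_congr rfl fun η hη => ?_
  rw [Finset.prod_mul_distrib, Finset.prod_const, ch_sum_bW hS]

lemma sum_bW_out {W : Finset (Vtx d)} (η : Finset (Edg d)) {v : Vtx d} (hv : v ∉ W) :
    (∑ e ∈ η, (lat d).bW W e) v = 0 := by
  rw [Finset.sum_apply]
  refine Finset.sum_eq_zero fun e _ => ?_
  unfold Gr.bW
  rw [Pi.add_apply, Gr.dW_apply_notMem hv, Gr.dW_apply_notMem hv, add_zero]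

/-- **High temperature expansion.** -/
theorem spin_expand (d n : ℕ) (b : ℝ) (a : Vtx d → ZMod 2) (ha : ∀ v, v ∉ box d n → a v = 0) :
    ∑ S ∈ (box d n).powerset, ch a S * isingW d n b S =
      2 ^ (box d n).card * Real.cosh b ^ (tbox d n).card *
        Z ((lat d).bW (box d n)) (Real.tanh b) (tbox d n) a := by
  have h1 : ∀ S ∈ (box d n).powerset, ch a S * isingW d n b S =
      ∑ η ∈ (tbox d n).powerset, Real.cosh b ^ (tbox d n).card * (Real.tanh b ^ η.card *
        ch (a + ∑ e ∈ η, (lat d).bW (box d n) e) S) := by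
    intro S hS
    rw [isingW_expand b (Finset.mem_powerset.1 hS), ← mul_assoc, mul_comm (ch a S), mul_assoc,
      Finset.mul_sum, Finset.mul_sum]
    refine Finset.sum_congr rfl fun η _ => ?_
    rw [ch_add]
    ring
  rw [Finset.sum_congr rfl h1, Finset.sum_comm]
  unfold Z
  rw [Finset.mul_sum]
  refine Finset.sum_congr rfl fun η _ => ?_
  rw [← Finset.mul_sum, ← Finset.mul_sum, sum_ch]
  have hiff : (∀ v ∈ box d n, (a + ∑ e ∈ η, (lat d).bW (box d n) e) v = 0) ↔
      ∑ e ∈ η, (lat d).bW (box d n) e = a := by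
    constructor
    · intro h
      funext v
      by_cases hv : v ∈ box d n
      · have h3 := h v hv
        rw [Pi.add_apply] at h3
        rcases Gr.zmod2_cases (a v) with h4 | h4 <;>
          rcases Gr.zmod2_cases ((∑ e ∈ η, (lat d).bW (box d n) e) v) with h5 | h5 <;>
          rw [h4, h5] at h3 ⊢ <;> revert h3 <;> decide
      · rw [sum_bW_out η hv, ha v hv]
    · intro h v _
      rw [h, add_self_fun]
      rfl
  by_cases h3 : ∑ e ∈ η, (lat d).bW (box d n) e = a
  · rw [if_pos (hiff.2 h3), if_pos h3]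
    ring
  · rw [if_neg (fun h4 => h3 (hiff.1 h4)), if_neg h3]
    ring

lemma zero_mem_box' (d n : ℕ) : (0 : Vtx d) ∈ box d n := by
  unfold box
  rw [Fintype.mem_piFinset]
  intro i
  rw [Finset.mem_Icc]
  constructor <;> simp

/-- The magnetisation as a ratio of even subgraph sums. -/
theorem mPlus_bW (d n : ℕ) (b : ℝ) :
    mPlus d n b = Z ((lat d).bW (box d n)) (Real.tanh b) (tbox d n) (Gr.dW (box d n) 0) /
      Z ((lat d).bW (box d n)) (Real.tanh b) (tbox d n) 0 := by
  have hc : (2 : ℝ) ^ (box d n).card * Real.cosh b ^ (tbox d n).card ≠ 0 :=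
    mul_ne_zero (by positivity) (pow_pos (Real.cosh_pos b) _).ne'
  have h1 := spin_expand d n b (Gr.dW (box d n) 0) (fun v hv => Gr.dW_apply_notMem hv)
  have h0 := spin_expand d n b 0 (fun v _ => rfl)
  have e1 : ∑ S ∈ (box d n).powerset, spin S 0 * isingW d n b S =
      ∑ S ∈ (box d n).powerset, ch (Gr.dW (box d n) 0) S * isingW d n b S := by
    refine Finset.sum_congr rfl fun S hS => ?_
    rw [ch_dW (Finset.mem_powerset.1 hS)]
  have e0 : ∑ S ∈ (box d n).powerset, isingW d n b S =
      ∑ S ∈ (box d n).powerset, ch (0 : Vtx d → ZMod 2) S * isingW d n b S := by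
    refine Finset.sum_congr rfl fun S _ => ?_
    rw [ch_zero, one_mul]
  unfold mPlus
  rw [e1, e0, h1, h0, mul_div_mul_left _ _ hc]

end Pool.Agent.LoopO1
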