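import Pool.Agent.LoopO1_f0ab88.Sharp3
import Pool.Agent.LoopO1_f0ab88.Sharp5
import Pool.Agent.LoopO1_f0ab88.SharpSpin

/-!
# Sharpness of the Ising phase transition
-/

open Finset

set_option linter.unusedSectionVars false
set_option linter.unusedVariables false

namespace Pool.Agent.LoopO1

variable {d : ℕ}

/-- The normalising constant. -/
noncomputable def KK (d n : ℕ) (β : ℝ) : ℝ := 2 ^ (box d n).card * Real.cosh β ^ (tbox d n).card

lemma KK_pos (d n : ℕ) (β : ℝ) : 0 < KK d n β := by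
  unfold KK
  have := Real.cosh_pos β
  positivity

/-- The expansion in the box. -/
noncomputable def ZB (d n : ℕ) (β : ℝ) (a : Vtx d → ZMod 2) : ℝ :=
  Z ((lat d).bW (box d n)) (Real.tanh β) (tbox d n) a

lemma bW_supp {n : ℕ} (e : Edg d) (v : Vtx d) (hv : v ∉ box d n) :
    (lat d).bW (box d n) e v = 0 := by
  unfold Gr.bW
  rw [Pi.add_apply, Gr.dW_apply_notMem hv, Gr.dW_apply_notMem hv, add_zero]

lemma sum_spin (d n : ℕ) (β : ℝ) :
    ∑ S ∈ (box d n).powerset, spin S 0 * isingW d n β S = KK d n β * ZB d n β (Gr.dW (box d n) 0) := by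
  have := spin_expand d n β (Gr.dW (box d n) 0) (fun v hv => Gr.dW_apply_notMem hv)
  unfold KK ZB
  rw [← this]
  refine Finset.sum_congr rfl fun S hS => ?_
  rw [ch_dW (Finset.mem_powerset.1 hS)]

lemma sum_one (d n : ℕ) (β : ℝ) :
    ∑ S ∈ (box d n).powerset, isingW d n β S = KK d n β * ZB d n β 0 := by
  have := spin_expand d n β 0 (fun v hv => rfl)
  unfold KK ZB
  rw [← this]
  refine Finset.sum_congr rfl fun S hS => ?_
  rw [ch_zero, one_mul]

lemma sum_edge (d n : ℕ) (β : ℝ) (e : Edg d) :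
    ∑ S ∈ (box d n).powerset, spin S e.1 * spin S (e.1 + Pi.single e.2 1) * isingW d n β S =
      KK d n β * ZB d n β ((lat d).bW (box d n) e) := by
  have := spin_expand d n β ((lat d).bW (box d n) e) (fun v hv => bW_supp e v hv)
  unfold KK ZB
  rw [← this]
  refine Finset.sum_congr rfl fun S hS => ?_
  rw [ch_bW (Finset.mem_powerset.1 hS)]

lemma sum_spin_edge (d n : ℕ) (β : ℝ) (e : Edg d) :
    ∑ S ∈ (box d n).powerset,
      spin S 0 * (spin S e.1 * spin S (e.1 + Pi.single e.2 1)) * isingW d n β S =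
      KK d n β * ZB d n β (Gr.dW (box d n) 0 + (lat d).bW (box d n) e) := by
  have := spin_expand d n β (Gr.dW (box d n) 0 + (lat d).bW (box d n) e) (fun v hv => by
    rw [Pi.add_apply, Gr.dW_apply_notMem hv, bW_supp e v hv, add_zero])
  unfold KK ZB
  rw [← this]
  refine Finset.sum_congr rfl fun S hS => ?_
  rw [ch_add, ch_bW (Finset.mem_powerset.1 hS), ch_dW (Finset.mem_powerset.1 hS)]

lemma tanh_nonneg' {β : ℝ} (h : 0 ≤ β) : 0 ≤ Real.tanh β := by
  rw [Real.tanh_eq_sinh_div_cosh]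
  exact div_nonneg (Real.sinh_nonneg_iff.2 h) (Real.cosh_pos β).le

lemma tanh_pos' {β : ℝ} (h : 0 < β) : 0 < Real.tanh β := by
  rw [Real.tanh_eq_sinh_div_cosh]
  exact div_pos (Real.sinh_pos_iff.2 h) (Real.cosh_pos β)

lemma tanh_lt_one' (β : ℝ) : Real.tanh β < 1 := by
  rw [Real.tanh_eq_sinh_div_cosh, div_lt_one (Real.cosh_pos β)]
  exact Real.sinh_lt_cosh β

lemma tanh_mono' {β γ : ℝ} (h : β ≤ γ) : Real.tanh β ≤ Real.tanh γ := by
  rw [Real.tanh_eq_sinh_div_cosh, Real.tanh_eq_sinh_div_cosh,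
    div_le_div_iff₀ (Real.cosh_pos β) (Real.cosh_pos γ)]
  have h1 := Real.sinh_sub γ β
  have h2 := Real.sinh_nonneg_iff.2 (sub_nonneg.2 h)
  nlinarith

lemma ZB_zero_pos (d n : ℕ) {β : ℝ} (h : 0 ≤ β) : 0 < ZB d n β 0 :=
  Z_zero_pos (b := (lat d).bW (box d n)) (tanh_nonneg' h) _

lemma mPlus_eq_ZB (d n : ℕ) (β : ℝ) :
    mPlus d n β = ZB d n β (Gr.dW (box d n) 0) / ZB d n β 0 := by
  unfold mPlus
  rw [sum_spin, sum_one, mul_div_mul_left _ _ (KK_pos d n β).ne']

lemma hasDerivAt_isingW (d n : ℕ) (β : ℝ) (S : Finset (Vtx d)) :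
    HasDerivAt (fun β => isingW d n β S)
      ((∑ e ∈ tbox d n, spin S e.1 * spin S (e.1 + Pi.single e.2 1)) * isingW d n β S) β := by
  unfold isingW
  have h := ((hasDerivAt_id β).mul_const
    (∑ e ∈ tbox d n, spin S e.1 * spin S (e.1 + Pi.single e.2 1))).exp
  simpa [mul_comm] using h

lemma hasDerivAt_sum_one (d n : ℕ) (β : ℝ) :
    HasDerivAt (fun β => ∑ S ∈ (box d n).powerset, isingW d n β S)
      (KK d n β * ∑ e ∈ tbox d n, ZB d n β ((lat d).bW (box d n) e)) β := by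
  have h := HasDerivAt.fun_sum fun S (_ : S ∈ (box d n).powerset) => hasDerivAt_isingW d n β S
  refine h.congr_deriv ?_
  rw [Finset.mul_sum]
  simp only [← sum_edge, Finset.sum_mul]
  rw [Finset.sum_comm]

lemma hasDerivAt_sum_spin (d n : ℕ) (β : ℝ) :
    HasDerivAt (fun β => ∑ S ∈ (box d n).powerset, spin S 0 * isingW d n β S)
      (KK d n β * ∑ e ∈ tbox d n,
        ZB d n β (Gr.dW (box d n) 0 + (lat d).bW (box d n) e)) β := by
  have h := HasDerivAt.fun_sum fun S (_ : S ∈ (box d n).powerset) =>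
    (hasDerivAt_isingW d n β S).const_mul (spin S 0)
  refine h.congr_deriv ?_
  rw [Finset.mul_sum]
  simp only [← sum_spin_edge, Finset.sum_mul, Finset.mul_sum]
  rw [Finset.sum_comm]
  refine Finset.sum_congr rfl fun e _ => Finset.sum_congr rfl fun S _ => ?_
  ring

lemma hasDerivAt_mPlus (d n : ℕ) {β : ℝ} (h : 0 ≤ β) :
    HasDerivAt (mPlus d n)
      ((∑ e ∈ tbox d n, (ZB d n β (Gr.dW (box d n) 0 + (lat d).bW (box d n) e) * ZB d n β 0 -
        ZB d n β (Gr.dW (box d n) 0) * ZB d n β ((lat d).bW (box d n) e))) /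
        (ZB d n β 0) ^ 2) β := by
  have h1 := hasDerivAt_sum_spin d n β
  have h0 := hasDerivAt_sum_one d n β
  have hne : ∑ S ∈ (box d n).powerset, isingW d n β S ≠ 0 := by
    rw [sum_one]
    exact (mul_pos (KK_pos d n β) (ZB_zero_pos d n h)).ne'
  have h2 := h1.div h0 hne
  have e0 : mPlus d n = fun β => (∑ S ∈ (box d n).powerset, spin S 0 * isingW d n β S) /
      ∑ S ∈ (box d n).powerset, isingW d n β S := rfl
  rw [e0]
  refine h2.congr_deriv ?_
  rw [sum_one, sum_spin, Finset.sum_sub_distrib, ← Finset.sum_mul, ← Finset.mul_sum]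
  have hK := (KK_pos d n β).ne'
  have hZ := (ZB_zero_pos d n h).ne'
  field_simp

lemma mem_tbox {n : ℕ} {e : Edg d} :
    e ∈ tbox d n ↔ e.1 ∈ box d n ∨ e.1 + Pi.single e.2 1 ∈ box d n := by
  unfold tbox
  rw [Finset.mem_filter, Finset.mem_product]
  constructor
  · rintro ⟨_, h⟩; exact h
  · intro h
    refine ⟨⟨?_, Finset.mem_univ _⟩, h⟩
    rcases h with h | h
    · exact box_mono (Nat.le_succ n) h
    · rw [mem_box] at h ⊢
      intro i
      have h1 := h i
      rw [Pi.add_apply] at h1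
      have h2 : (0 : ℤ) ≤ (Pi.single e.2 1 : Vtx d) i ∧ (Pi.single e.2 1 : Vtx d) i ≤ 1 := by
        by_cases hi : i = e.2
        · subst hi; simp
        · rw [Pi.single_eq_of_ne hi]; exact ⟨le_rfl, zero_le_one⟩
      push_cast
      constructor <;> linarith [h1.1, h1.2, h2.1, h2.2]

lemma tch_subset {n : ℕ} {S : Finset (Vtx d)} (hS : S ⊆ box d n) : tch S ⊆ tbox d n := by
  intro e he
  rw [mem_tch] at he
  rw [mem_tbox]
  exact he.imp (fun h => hS h) (fun h => hS h)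

lemma phiS_eq_psi {n : ℕ} (x : ℝ) {S : Finset (Vtx d)} (hS : S ⊆ box d n) :
    phiS x S = x * (lat d).psi x (tbox d n) S 0 := by
  unfold phiS Gr.psi
  have hinn : (lat d).inn (tbox d n) S = (lat d).inn (tch S) S := by
    apply Finset.Subset.antisymm
    · exact inn_le_tch _ _
    · exact inn_mono (tch_subset hS) S
  rw [Finset.mul_sum, hinn]
  have h1 : ∀ e ∈ tbox d n, e ∉ tch S → x * ((if (lat d).src e ∈ S ∧ (lat d).tgt e ∉ S then
      (lat d).tp x ((lat d).inn (tch S) S) 0 ((lat d).src e) else 0) +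
      (if (lat d).tgt e ∈ S ∧ (lat d).src e ∉ S then
        (lat d).tp x ((lat d).inn (tch S) S) 0 ((lat d).tgt e) else 0)) = 0 := by
    intro e _ he
    rw [mem_tch, not_or] at he
    rw [if_neg (fun h => he.1 h.1), if_neg (fun h => he.2 h.1), add_zero, mul_zero]
  rw [← Finset.sum_subset (tch_subset hS) h1]
  refine Finset.sum_congr rfl fun e _ => ?_
  unfold phiT
  rw [lat_src, lat_tgt, mul_add, mul_ite, mul_ite, mul_zero]

lemma phiS_mono_x {x y : ℝ} (hx : 0 < x) (hxy : x ≤ y) (hy1 : y < 1) (S : Finset (Vtx d)) :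
    phiS x S ≤ phiS y S := by
  unfold phiS
  refine Finset.sum_le_sum fun e _ => ?_
  unfold phiT
  have h1 : ∀ v : Vtx d, x * (lat d).tp x ((lat d).inn (tch S) S) 0 v ≤
      y * (lat d).tp y ((lat d).inn (tch S) S) 0 v := by
    intro v
    have h2 : (lat d).tp x ((lat d).inn (tch S) S) 0 v ≤
        (lat d).tp y ((lat d).inn (tch S) S) 0 v :=
      g_mono_x add_self_fun hx hxy hy1 _ _
    exact mul_le_mul hxy h2 (Gr.tp_nonneg (G := lat d) hx.le _ _ _) (hx.le.trans hxy)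
  apply add_le_add
  · split_ifs
    · exact h1 _
    · exact le_rfl
  · split_ifs
    · exact h1 _
    · exact le_rfl

lemma mPlus_le_one (d n : ℕ) (β : ℝ) : mPlus d n β ≤ 1 := by
  unfold mPlus
  have hpos : 0 < ∑ S ∈ (box d n).powerset, isingW d n β S :=
    Finset.sum_pos (fun S _ => Real.exp_pos _) ⟨∅, Finset.empty_mem_powerset _⟩
  rw [div_le_one hpos]
  refine Finset.sum_le_sum fun S _ => ?_
  have h1 : spin S 0 ≤ 1 := by unfold spin; split_ifs <;> norm_num
  have h2 : 0 < isingW d n β S := Real.exp_pos _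
  nlinarith

lemma mPlus_nonneg (d n : ℕ) {β : ℝ} (h : 0 ≤ β) : 0 ≤ mPlus d n β := by
  rw [mPlus_eq_ZB]
  exact div_nonneg (Z_nonneg (b := (lat d).bW (box d n)) (tanh_nonneg' h) _ _)
    (ZB_zero_pos d n h).le

/-- The differential inequality. -/
lemma deriv_mPlus_ge {β₁ β : ℝ} (h0 : 0 < β₁) (h : β₁ ≤ β)
    (hphi : ∀ S : Finset (Vtx d), (0 : Vtx d) ∈ S → 1 ≤ phiS (Real.tanh β₁) S) (n : ℕ) :
    1 - mPlus d n β ≤ deriv (mPlus d n) β := by
  have hβ : 0 < β := lt_of_lt_of_le h0 h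
  rw [(hasDerivAt_mPlus d n hβ.le).deriv]
  have hx := tanh_pos' hβ
  have hx1 := tanh_lt_one' β
  have hZ := ZB_zero_pos d n hβ.le
  have hc : ∀ S ⊆ box d n, (0 : Vtx d) ∈ S →
      (1 : ℝ) ≤ (lat d).psi (Real.tanh β) (tbox d n) S 0 := by
    intro S hS h0S
    have h1 := (hphi S h0S).trans (phiS_mono_x (tanh_pos' h0) (tanh_mono' h) hx1 S)
    rw [phiS_eq_psi _ hS] at h1
    by_contra h2
    push Not at h2
    nlinarith
  have h0box : (0 : Vtx d) ∈ box d n := by
    rw [mem_box]; intro i; simp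
  have key := Gr.key_ineq (G := lat d) hx.le hx1.le (tbox d n) h0box zero_le_one hc
  rw [le_div_iff₀ (pow_pos hZ 2), mPlus_eq_ZB]
  have h3 : (1 - ZB d n β (Gr.dW (box d n) 0) / ZB d n β 0) * ZB d n β 0 ^ 2 =
      1 * ZB d n β 0 * (ZB d n β 0 - ZB d n β (Gr.dW (box d n) 0)) := by
    field_simp
  rw [h3]
  exact key

lemma mPlus_ge {β₁ β₂ : ℝ} (h0 : 0 < β₁) (h12 : β₁ ≤ β₂)
    (hphi : ∀ S : Finset (Vtx d), (0 : Vtx d) ∈ S → 1 ≤ phiS (Real.tanh β₁) S) (n : ℕ) :
    1 - Real.exp (-(β₂ - β₁)) ≤ mPlus d n β₂ := by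
  have hder : ∀ β, 0 < β → HasDerivAt (fun β => (1 - mPlus d n β) * Real.exp β)
      (-(deriv (mPlus d n) β) * Real.exp β + (1 - mPlus d n β) * Real.exp β) β := by
    intro β hβ
    have h1 : HasDerivAt (mPlus d n) (deriv (mPlus d n) β) β :=
      (hasDerivAt_mPlus d n hβ.le).differentiableAt.hasDerivAt
    have h2 := (h1.const_sub 1).mul (Real.hasDerivAt_exp β)
    exact h2
  have hanti : AntitoneOn (fun β => (1 - mPlus d n β) * Real.exp β) (Set.Icc β₁ β₂) := by
    apply antitoneOn_of_deriv_nonpos (convex_Icc _ _)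
    · intro β hβ
      exact (hder β (lt_of_lt_of_le h0 hβ.1)).continuousAt.continuousWithinAt
    · intro β hβ
      rw [interior_Icc] at hβ
      exact (hder β (h0.trans hβ.1)).differentiableAt.differentiableWithinAt
    · intro β hβ
      rw [interior_Icc] at hβ
      rw [(hder β (h0.trans hβ.1)).deriv]
      have h1 := deriv_mPlus_ge h0 hβ.1.le hphi n
      have h2 := Real.exp_pos β
      nlinarith
  have h3 := hanti (Set.left_mem_Icc.2 h12) (Set.right_mem_Icc.2 h12) h12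
  simp only at h3
  have h4 := mPlus_nonneg d n h0.le
  have h5 : (1 - mPlus d n β₂) * Real.exp β₂ ≤ Real.exp β₁ := by
    refine h3.trans ?_
    have := Real.exp_pos β₁
    nlinarith
  have h6 : 1 - mPlus d n β₂ ≤ Real.exp (-(β₂ - β₁)) := by
    rw [show -(β₂ - β₁) = β₁ - β₂ by ring, Real.exp_sub, le_div_iff₀ (Real.exp_pos _)]
    exact h5
  linarith

/-- **Sharpness**: below the critical point there is exponential decay. -/
theorem exists_phiS_lt_one {d : ℕ} {β₁ β₂ : ℝ} (h0 : 0 < β₁) (h12 : β₁ < β₂)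
    (hm : mStar d β₂ ≤ 0) : ∃ S : Finset (Vtx d), (0 : Vtx d) ∈ S ∧ phiS (Real.tanh β₁) S < 1 := by
  by_contra hno
  push Not at hno
  have h1 : 1 - Real.exp (-(β₂ - β₁)) ≤ mStar d β₂ :=
    le_ciInf fun n => mPlus_ge h0 h12.le hno n
  have h2 : Real.exp (-(β₂ - β₁)) < 1 := by
    rw [Real.exp_lt_one_iff]
    linarith
  linarith

/-- **Sharpness**: below the critical point there is exponential decay. -/
theorem hasDecay_of_mStar {d : ℕ} (hd : 1 ≤ d) {β₁ β₂ : ℝ} (h0 : 0 < β₁) (h12 : β₁ < β₂)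
    (hm : mStar d β₂ ≤ 0) : ∃ C ρ, HasDecay d (Real.tanh β₁) C ρ := by
  obtain ⟨S, h0S, hS⟩ := exists_phiS_lt_one h0 h12 hm
  exact hasDecay_of_phi (tanh_pos' h0) (tanh_lt_one' β₁) h0S hS

end Pool.Agent.LoopO1
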