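import Pool.Agent.LoopO1_f0ab88.Graph

/-!
# Derivatives of the correlations in `x`
-/

open Finset

set_option linter.unusedSectionVars false
set_option linter.unusedVariables false

namespace Pool.Agent.LoopO1

variable {E M : Type*} [DecidableEq E] [AddCommGroup M] {b : E → M} {x : ℝ}

lemma Z_insert_add (h2 : ∀ a : M, a + a = 0) (x : ℝ) {D : Finset E} {e : E} (he : e ∉ D) (A : M) :
    Z b x (insert e D) A = Z b x D A + x * Z b x D (A + b e) := by
  rw [Z_insert he, sub_eq_add_neg, neg_eq_of_add_eq_zero_left (h2 (b e))]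

lemma hasDerivAt_Z (h2 : ∀ a : M, a + a = 0) (x : ℝ) (D : Finset E) : ∀ A : M, ∃ z' : ℝ,
    HasDerivAt (fun y => Z b y D A) z' x ∧
      (1 - x ^ 2) * z' = ∑ e ∈ D, Z b x D (A + b e) - x * D.card * Z b x D A := by
  induction D using Finset.induction_on with
  | empty =>
    intro A
    refine ⟨0, ?_, by simp⟩
    have h1 : (fun y : ℝ => Z b y ∅ A) = fun _ => Z b x ∅ A := by
      funext y; rw [Z_empty, Z_empty]
    rw [h1]
    exact hasDerivAt_const _ _
  | insert e D he ih =>
    intro A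
    obtain ⟨u, hu, hu'⟩ := ih A
    obtain ⟨w, hw, hw'⟩ := ih (A + b e)
    refine ⟨u + (1 * Z b x D (A + b e) + x * w), ?_, ?_⟩
    · have h1 : (fun y : ℝ => Z b y (insert e D) A) =
          fun y => Z b y D A + y * Z b y D (A + b e) := by
        funext y; exact Z_insert_add h2 y he A
      rw [h1]
      exact hu.add ((hasDerivAt_id x).mul hw)
    · have h3 : ∑ e' ∈ insert e D, Z b x (insert e D) (A + b e') =
          Z b x (insert e D) (A + b e) + ∑ e' ∈ D, (Z b x D (A + b e') +
            x * Z b x D (A + b e + b e')) := by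
        rw [Finset.sum_insert he]
        congr 1
        refine Finset.sum_congr rfl fun e' _ => ?_
        rw [Z_insert_add h2 x he]
        congr 3
        abel
      rw [h3, Finset.card_insert_of_notMem he, Z_insert_add h2 x he A, Z_insert_add h2 x he (A + b e),
        Finset.sum_add_distrib, ← Finset.mul_sum]
      have h4 : A + b e + b e = A := by rw [add_assoc, h2, add_zero]
      rw [h4]
      push_cast
      linear_combination hu' + x * hw'

lemma hasDerivAt_g (h2 : ∀ a : M, a + a = 0) (hx : 0 ≤ x) (D : Finset E) (A : M) : ∃ g' : ℝ,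
    HasDerivAt (fun y => g b y D A) g' x ∧
      (1 - x ^ 2) * g' = ∑ e ∈ D, (g b x D (A + b e) - g b x D A * g b x D (b e)) := by
  obtain ⟨u, hu, hu'⟩ := hasDerivAt_Z (b := b) h2 x D A
  obtain ⟨w, hw, hw'⟩ := hasDerivAt_Z (b := b) h2 x D 0
  have hZ := Z_zero_pos (b := b) hx D
  refine ⟨_, hu.div hw hZ.ne', ?_⟩
  unfold g
  rw [← mul_div_assoc, div_eq_iff (pow_pos hZ 2).ne', Finset.sum_mul]
  have h1 : ∀ e ∈ D, (Z b x D (A + b e) / Z b x D 0 - Z b x D A / Z b x D 0 *
      (Z b x D (b e) / Z b x D 0)) * Z b x D 0 ^ 2 =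
      Z b x D (A + b e) * Z b x D 0 - Z b x D A * Z b x D (b e) := by
    intro e _
    field_simp
  rw [Finset.sum_congr rfl h1, Finset.sum_sub_distrib, ← Finset.sum_mul, ← Finset.mul_sum]
  have h3 : ∑ e ∈ D, Z b x D (0 + b e) = ∑ e ∈ D, Z b x D (b e) := by
    refine Finset.sum_congr rfl fun e _ => ?_
    rw [zero_add]
  rw [h3] at hw'
  linear_combination Z b x D 0 * hu' - Z b x D A * hw'

namespace Gr

variable {V E : Type*} [DecidableEq V] [DecidableEq E] {G : Gr V E} {x : ℝ}

lemma continuousAt_gp (hx : 0 ≤ x) (D : Finset E) (A : V → ZMod 2) :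
    ContinuousAt (fun y => G.gp y D A) x := by
  obtain ⟨g', hg, -⟩ := hasDerivAt_g (b := G.bd) add_self_fun hx D A
  exact hg.continuousAt

/-- Correlations increase with `x`. -/
lemma gp_mono_x {x y : ℝ} (hx : 0 ≤ x) (hxy : x ≤ y) (hy : y < 1) (D : Finset E)
    (A : V → ZMod 2) : G.gp x D A ≤ G.gp y D A := by
  have hmono : MonotoneOn (fun y => G.gp y D A) (Set.Icc x y) := by
    refine monotoneOn_of_deriv_nonneg (convex_Icc x y)
      (fun z hz => (continuousAt_gp (hx.trans hz.1) D A).continuousWithinAt) ?_ ?_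
    · intro z hz
      rw [interior_Icc] at hz
      obtain ⟨g', hg, -⟩ := hasDerivAt_g (b := G.bd) add_self_fun (hx.trans hz.1.le) D A
      exact hg.differentiableAt.differentiableWithinAt
    · intro z hz
      rw [interior_Icc] at hz
      have hz0 : 0 ≤ z := hx.trans hz.1.le
      have hz1 : z < 1 := hz.2.trans hy
      obtain ⟨g', hg, hg'⟩ := hasDerivAt_g (b := G.bd) add_self_fun hz0 D A
      rw [show deriv (fun y => G.gp y D A) z = g' from hg.deriv]
      have h1 : 0 ≤ (1 - z ^ 2) * g' := by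
        rw [hg']
        refine Finset.sum_nonneg fun e _ => ?_
        have := gks_g (G := G) hz0 hz1.le D A (G.bd e)
        exact sub_nonneg.2 this
      have h2 : 0 < 1 - z ^ 2 := by nlinarith
      exact nonneg_of_mul_nonneg_right h1 h2
  exact hmono (Set.left_mem_Icc.2 hxy) (Set.right_mem_Icc.2 hxy) hxy

/-- The differential inequality integrated. -/
lemma gp_lower {x₁ x₂ : ℝ} (h0 : 0 < x₁) (h12 : x₁ ≤ x₂) (h1 : x₂ < 1) (D : Finset E)
    (A : V → ZMod 2)
    (hineq : ∀ x, x₁ ≤ x → x ≤ x₂ → (1 - G.gp x D A) / x ≤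
      ∑ e ∈ D, (G.gp x D (A + G.bd e) - G.gp x D A * G.gp x D (G.bd e))) :
    1 - Real.exp (-(x₂ - x₁)) ≤ G.gp x₂ D A := by
  have hanti : AntitoneOn (fun y => (1 - G.gp y D A) * Real.exp y) (Set.Icc x₁ x₂) := by
    have hd : ∀ z, x₁ ≤ z → z ≤ x₂ → ∃ h', HasDerivAt (fun y => (1 - G.gp y D A) * Real.exp y) h' z ∧
        h' ≤ 0 := by
      intro z hz1 hz2
      have hz0 : 0 < z := h0.trans_le hz1
      have hzl : z < 1 := hz2.trans_lt h1
      obtain ⟨g', hg, hg'⟩ := hasDerivAt_g (b := G.bd) add_self_fun hz0.le D A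
      refine ⟨_, ((hasDerivAt_const z (1 : ℝ)).sub hg).mul (Real.hasDerivAt_exp z), ?_⟩
      have h2 := hineq z hz1 hz2
      have h3 : (1 - G.gp z D A) / z ≤ (1 - z ^ 2) * g' := h2.trans_eq hg'.symm
      have h4 : 0 ≤ 1 - G.gp z D A := sub_nonneg.2 (gp_le_one hz0.le hzl.le D A)
      have h5 : 0 < 1 - z ^ 2 := by nlinarith
      have h6 : 1 - G.gp z D A ≤ g' := by
        have h7 : 1 - G.gp z D A ≤ (1 - G.gp z D A) / z := by
          rw [le_div_iff₀ hz0]
          nlinarith
        have h8 : 0 ≤ g' := by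
          have : 0 ≤ (1 - z ^ 2) * g' := h4.trans (h7.trans h3)
          exact nonneg_of_mul_nonneg_right this h5
        have h9 : (1 - z ^ 2) * g' ≤ g' := by nlinarith [sq_nonneg z]
        linarith
      have h7 : (fun y => G.gp y D A) z = G.gp z D A := rfl
      have h8 := Real.exp_pos z
      show (0 - g') * Real.exp z + (1 - G.gp z D A) * Real.exp z ≤ 0
      nlinarith
    refine antitoneOn_of_deriv_nonpos (convex_Icc x₁ x₂) ?_ ?_ ?_
    · intro z hz
      obtain ⟨h', hh, -⟩ := hd z hz.1 hz.2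
      exact hh.continuousAt.continuousWithinAt
    · intro z hz
      rw [interior_Icc] at hz
      obtain ⟨h', hh, -⟩ := hd z hz.1.le hz.2.le
      exact hh.differentiableAt.differentiableWithinAt
    · intro z hz
      rw [interior_Icc] at hz
      obtain ⟨h', hh, hh'⟩ := hd z hz.1.le hz.2.le
      rw [hh.deriv]
      exact hh'
  have h2 := hanti (Set.left_mem_Icc.2 h12) (Set.right_mem_Icc.2 h12) h12
  have h3 : (1 - G.gp x₁ D A) * Real.exp x₁ ≤ 1 * Real.exp x₁ := by
    refine mul_le_mul_of_nonneg_right ?_ (Real.exp_pos _).le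
    have := gp_nonneg (G := G) h0.le D A
    linarith
  have h4 : (1 - G.gp x₂ D A) * Real.exp x₂ ≤ Real.exp x₁ := by
    beta_reduce at h2
    linarith
  have h5 : 1 - G.gp x₂ D A ≤ Real.exp (-(x₂ - x₁)) := by
    have h6 : Real.exp (-(x₂ - x₁)) * Real.exp x₂ = Real.exp x₁ := by
      rw [← Real.exp_add]; congr 1; ring
    rw [← h6] at h4
    exact le_of_mul_le_mul_right h4 (Real.exp_pos _)
  linarith

end Gr

end Pool.Agent.LoopO1
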