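import Pool.Agent.LoopO1_f0ab88.Pairing

/-!
# The high temperature expansion of the plus magnetisation
-/

open Finset

set_option linter.unusedSectionVars false
set_option linter.unusedVariables false

namespace Pool.Agent.LoopO1

variable {d : ℕ}

lemma mem_tbox {n : ℕ} {e : Edg d} :
    e ∈ tbox d n ↔ e.1 ∈ box d n ∨ e.1 + Pi.single e.2 1 ∈ box d n := by
  unfold tbox
  rw [Finset.mem_filter, Finset.mem_product]
  constructor
  · rintro ⟨-, h⟩; exact h
  · intro h
    refine ⟨⟨?_, Finset.mem_univ _⟩, h⟩
    rcases h with h | h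
    · exact box_mono (Nat.le_succ n) h
    · rw [mem_box] at h ⊢
      intro i
      have h1 := h i
      rw [Pi.add_apply, Pi.single_apply] at h1
      push_cast
      split_ifs at h1 <;> constructor <;> linarith [h1.1, h1.2]

/-- Vertices outside the box are contracted to the ghost `none`. -/
noncomputable def con (d n : ℕ) (e : Edg d) (v : Vtx d) : Option (Vtx d) :=
  if e ∈ tbox d n ∧ v ∉ box d n then none else some v

/-- The graph with the vertices outside the box contracted to the ghost. -/
noncomputable def Gn (d n : ℕ) : Gr (Option (Vtx d)) (Edg d) where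
  src e := con d n e e.1
  tgt e := con d n e (e.1 + Pi.single e.2 1)
  ne e := by
    have hne : e.1 ≠ e.1 + Pi.single e.2 1 := (lat d).ne e
    unfold con
    by_cases he : e ∈ tbox d n
    · rcases mem_tbox.1 he with h | h
      · rw [if_neg (fun h' => h'.2 h)]
        split_ifs
        · exact Option.some_ne_none _
        · exact fun h' => hne (Option.some_injective _ h')
      · rw [if_neg (c := e ∈ tbox d n ∧ e.1 + Pi.single e.2 1 ∉ box d n) (fun h' => h'.2 h)]
        split_ifs
        · exact (Option.some_ne_none _).symm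
        · exact fun h' => hne (Option.some_injective _ h')
    · rw [if_neg (fun h' => he h'.1), if_neg (fun h' => he h'.1)]
      exact fun h' => hne (Option.some_injective _ h')

/-- The spin at a vertex of the contracted graph. -/
def spO (S : Finset (Vtx d)) : Option (Vtx d) → ℝ
  | none => 1
  | some v => spin S v

lemma spO_con {n : ℕ} {S : Finset (Vtx d)} (hS : S ⊆ box d n) {e : Edg d} (he : e ∈ tbox d n)
    (v : Vtx d) : spO S (con d n e v) = spin S v := by
  unfold con
  split_ifs with h
  · show (1 : ℝ) = spin S v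
    unfold spin
    rw [if_neg (fun h' => h.2 (hS h'))]
  · rfl

/-- The character attached to a source function. -/
noncomputable def chi (n : ℕ) (S : Finset (Vtx d)) (A : Option (Vtx d) → ZMod 2) : ℝ :=
  ∏ v ∈ box d n, if A (some v) = 1 then spin S v else 1

lemma spin_sq (S : Finset (Vtx d)) (v : Vtx d) : spin S v * spin S v = 1 := by
  unfold spin; split_ifs <;> norm_num

lemma chi_add (n : ℕ) (S : Finset (Vtx d)) (A B : Option (Vtx d) → ZMod 2) :
    chi n S (A + B) = chi n S A * chi n S B := by
  unfold chi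
  rw [← Finset.prod_mul_distrib]
  refine Finset.prod_congr rfl fun v _ => ?_
  rw [Pi.add_apply]
  have h1 : (1 : ZMod 2) + 1 = 0 := by decide
  rcases Gr.zmod2_cases (A (some v)) with hA | hA <;>
    rcases Gr.zmod2_cases (B (some v)) with hB | hB <;> rw [hA, hB]
  · simp
  · simp
  · simp
  · rw [h1, if_neg zero_ne_one, if_pos rfl, spin_sq]

lemma chi_zero (n : ℕ) (S : Finset (Vtx d)) : chi n S 0 = 1 := by
  unfold chi
  refine Finset.prod_eq_one fun v _ => ?_
  rw [Pi.zero_apply, if_neg zero_ne_one]

lemma chi_dl {n : ℕ} {S : Finset (Vtx d)} (hS : S ⊆ box d n) (w : Option (Vtx d)) :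
    chi n S (dl w) = spO S w := by
  unfold chi
  cases w with
  | none =>
    show _ = (1 : ℝ)
    refine Finset.prod_eq_one fun v _ => ?_
    rw [Gr.dl_apply_ne (Option.some_ne_none v), if_neg zero_ne_one]
  | some u =>
    show _ = spin S u
    by_cases hu : u ∈ box d n
    · rw [Finset.prod_eq_single u]
      · rw [Gr.dl_apply_self, if_pos rfl]
      · intro v _ hv
        rw [Gr.dl_apply_ne (fun h => hv (Option.some_injective _ h)), if_neg zero_ne_one]
      · intro h; exact absurd hu h
    · have h1 : spin S u = 1 := by unfold spin; rw [if_neg (fun h' => hu (hS h'))]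
      rw [h1]
      refine Finset.prod_eq_one fun v hv => ?_
      rw [Gr.dl_apply_ne (fun h => hu (by rw [← Option.some_injective _ h]; exact hv)),
        if_neg zero_ne_one]

lemma chi_bdS {n : ℕ} {S : Finset (Vtx d)} (hS : S ⊆ box d n) {η : Finset (Edg d)}
    (hη : η ⊆ tbox d n) : chi n S ((Gn d n).bdS η) =
      ∏ e ∈ η, spin S e.1 * spin S (e.1 + Pi.single e.2 1) := by
  induction η using Finset.induction_on with
  | empty => rw [Gr.bdS_empty, chi_zero, Finset.prod_empty]
  | insert e η he ih =>
    rw [Gr.bdS_insert he, chi_add, Finset.prod_insert he,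
      ih ((Finset.subset_insert _ _).trans hη), mul_comm]
    congr 1
    have het : e ∈ tbox d n := hη (Finset.mem_insert_self _ _)
    unfold Gr.bd
    rw [chi_add, chi_dl hS, chi_dl hS]
    show spO S (con d n e e.1) * spO S (con d n e (e.1 + Pi.single e.2 1)) = _
    rw [spO_con hS het, spO_con hS het]

lemma sum_chi (n : ℕ) (A : Option (Vtx d) → ZMod 2) :
    ∑ S ∈ (box d n).powerset, chi n S A =
      if ∀ v ∈ box d n, A (some v) = 0 then (2 : ℝ) ^ (box d n).card else 0 := by
  have h1 : ∑ S ∈ (box d n).powerset, chi n S A =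
      ∏ v ∈ box d n, ((if A (some v) = 1 then (-1 : ℝ) else 1) + 1) := by
    rw [Finset.prod_add]
    refine Finset.sum_congr rfl fun S hS => ?_
    have hSb := Finset.mem_powerset.1 hS
    rw [Finset.prod_const_one, mul_one]
    unfold chi
    rw [← Finset.prod_sdiff hSb]
    have h2 : ∏ v ∈ box d n \ S, (if A (some v) = 1 then spin S v else 1) = 1 := by
      refine Finset.prod_eq_one fun v hv => ?_
      unfold spin
      rw [if_neg (Finset.mem_sdiff.1 hv).2, ite_self]
    rw [h2, one_mul]
    refine Finset.prod_congr rfl fun v hv => ?_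
    unfold spin
    rw [if_pos hv]
  rw [h1]
  split_ifs with h
  · rw [← Finset.prod_const]
    refine Finset.prod_congr rfl fun v hv => ?_
    rw [h v hv, if_neg zero_ne_one]
    norm_num
  · push Not at h
    obtain ⟨v, hv, hA⟩ := h
    refine Finset.prod_eq_zero hv ?_
    rw [if_pos ((Gr.zmod2_cases _).resolve_left hA)]
    norm_num

lemma isingW_eq {n : ℕ} (β : ℝ) {S : Finset (Vtx d)} (hS : S ⊆ box d n) :
    isingW d n β S = Real.cosh β ^ (tbox d n).card *
      ∑ η ∈ (tbox d n).powerset, Real.tanh β ^ η.card * chi n S ((Gn d n).bdS η) := by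
  unfold isingW
  rw [Finset.mul_sum, Real.exp_sum]
  have h1 : ∀ e ∈ tbox d n, Real.exp (β * (spin S e.1 * spin S (e.1 + Pi.single e.2 1))) =
      Real.cosh β * (1 + Real.tanh β * (spin S e.1 * spin S (e.1 + Pi.single e.2 1))) := by
    intro e _
    have hc := (Real.cosh_pos β).ne'
    have hs : spin S e.1 * spin S (e.1 + Pi.single e.2 1) = 1 ∨
        spin S e.1 * spin S (e.1 + Pi.single e.2 1) = -1 := by
      unfold spin
      split_ifs <;> norm_num
    rcases hs with hs | hs <;> rw [hs, Real.tanh_eq_sinh_div_cosh]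
    · rw [mul_one, mul_one, mul_add, mul_div_cancel₀ _ hc, mul_one, Real.cosh_add_sinh]
    · rw [mul_neg_one, mul_neg_one, mul_add, mul_neg, mul_div_cancel₀ _ hc, mul_one,
        ← sub_eq_add_neg, Real.cosh_sub_sinh]
  rw [Finset.prod_congr rfl h1, Finset.prod_mul_distrib, Finset.prod_const, Finset.prod_one_add]
  congr 1
  refine Finset.sum_congr rfl fun η hη => ?_
  rw [Finset.prod_mul_distrib, Finset.prod_const, chi_bdS hS (Finset.mem_powerset.1 hη)]

lemma inc_Gn {n : ℕ} {e : Edg d} (he : e ∈ tbox d n) {w : Option (Vtx d)} (h : (Gn d n).Inc w e) :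
    w ∈ Finset.insertNone (box d n) := by
  have key : ∀ v, con d n e v ∈ Finset.insertNone (box d n) := by
    intro v
    unfold con
    split_ifs with h1
    · exact Finset.none_mem_insertNone
    · rw [Finset.some_mem_insertNone]
      by_contra h2
      exact h1 ⟨he, h2⟩
  rcases h with h | h
  · rw [h]; exact key _
  · rw [h]; exact key _

lemma bdS_Gn_parity {n : ℕ} {η : Finset (Edg d)} (hη : η ⊆ tbox d n) :
    (Gn d n).bdS η none + ∑ v ∈ box d n, (Gn d n).bdS η (some v) = 0 := by
  have h1 := Gr.sum_bdS (G := Gn d n) η (Finset.insertNone (box d n)) fun e he =>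
    ⟨inc_Gn (hη he) (Or.inl rfl), inc_Gn (hη he) (Or.inr rfl)⟩
  rwa [Finset.sum_insertNone] at h1

lemma bdS_Gn_out {n : ℕ} {η : Finset (Edg d)} (hη : η ⊆ tbox d n) {v : Vtx d}
    (hv : v ∉ box d n) : (Gn d n).bdS η (some v) = 0 := by
  apply Gr.bdS_apply_eq_zero
  intro e he hi
  exact hv (Finset.some_mem_insertNone.1 (inc_Gn (hη he) hi))

lemma zero_mem_box (d n : ℕ) : (0 : Vtx d) ∈ box d n := mem_box.2 fun i => by simp

lemma cond_zero {n : ℕ} {η : Finset (Edg d)} (hη : η ⊆ tbox d n) :
    (∀ v ∈ box d n, (Gn d n).bdS η (some v) = 0) ↔ (Gn d n).bdS η = 0 := by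
  constructor
  · intro h
    funext w
    cases w with
    | none =>
      have h1 := bdS_Gn_parity hη
      rw [Finset.sum_eq_zero h, add_zero] at h1
      exact h1
    | some v =>
      by_cases hv : v ∈ box d n
      · exact h v hv
      · exact bdS_Gn_out hη hv
  · intro h v _
    rw [h]; rfl

lemma cond_one {n : ℕ} {η : Finset (Edg d)} (hη : η ⊆ tbox d n) :
    (∀ v ∈ box d n, (dl (some (0 : Vtx d)) + (Gn d n).bdS η) (some v) = 0) ↔
      (Gn d n).bdS η = dl (some 0) + dl none := by
  constructor
  · intro h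
    have h2 : ∀ v ∈ box d n, (Gn d n).bdS η (some v) = (dl (some (0 : Vtx d)) : _ → ZMod 2) (some v) := by
      intro v hv
      have h3 := h v hv
      rw [Pi.add_apply] at h3
      rcases Gr.zmod2_cases ((Gn d n).bdS η (some v)) with h4 | h4 <;>
        rcases Gr.zmod2_cases ((dl (some (0 : Vtx d)) : _ → ZMod 2) (some v)) with h5 | h5 <;>
        rw [h4, h5] at h3 ⊢ <;> revert h3 <;> decide
    funext w
    rw [Pi.add_apply]
    cases w with
    | none =>
      have h1 := bdS_Gn_parity hη
      rw [Finset.sum_congr rfl h2, Finset.sum_eq_single (0 : Vtx d), Gr.dl_apply_self] at h1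
      · rw [Gr.dl_apply_ne (Option.some_ne_none (0 : Vtx d)).symm, Gr.dl_apply_self, zero_add]
        rcases Gr.zmod2_cases ((Gn d n).bdS η none) with h4 | h4
        · rw [h4] at h1; exact absurd h1 (by decide)
        · exact h4
      · intro v _ hv
        exact Gr.dl_apply_ne (fun h => hv (Option.some_injective _ h))
      · intro h3; exact absurd (zero_mem_box d n) h3
    | some v =>
      rw [Gr.dl_apply_ne (u := some v) (v := (none : Option (Vtx d))) (Option.some_ne_none v),
        add_zero]
      by_cases hv : v ∈ box d n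
      · exact h2 v hv
      · rw [bdS_Gn_out hη hv, Gr.dl_apply_ne]
        intro h3
        rw [Option.some_injective _ h3] at hv
        exact hv (zero_mem_box d n)
  · intro h v _
    rw [h, ← add_assoc, add_self_fun, zero_add]
    exact Gr.dl_apply_ne (Option.some_ne_none v)

/-- **High temperature expansion.** -/
theorem mPlus_eq (d n : ℕ) (β : ℝ) :
    mPlus d n β = (Gn d n).gp (Real.tanh β) (tbox d n) (dl (some 0) + dl none) := by
  classical
  set x := Real.tanh β with hx
  have hcosh : Real.cosh β ^ (tbox d n).card ≠ 0 := (pow_pos (Real.cosh_pos β) _).ne'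
  have h2pow : (2 : ℝ) ^ (box d n).card ≠ 0 := by positivity
  have key : ∀ A : Option (Vtx d) → ZMod 2, ∑ S ∈ (box d n).powerset, chi n S A * isingW d n β S =
      Real.cosh β ^ (tbox d n).card * ((2 : ℝ) ^ (box d n).card * ∑ η ∈ (tbox d n).powerset,
        if ∀ v ∈ box d n, (A + (Gn d n).bdS η) (some v) = 0 then x ^ η.card else 0) := by
    intro A
    have h1 : ∀ S ∈ (box d n).powerset, chi n S A * isingW d n β S =
        ∑ η ∈ (tbox d n).powerset, Real.cosh β ^ (tbox d n).card * (x ^ η.card *
          chi n S (A + (Gn d n).bdS η)) := by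
      intro S hS
      rw [isingW_eq β (Finset.mem_powerset.1 hS), ← mul_assoc, mul_comm (chi n S A), mul_assoc,
        Finset.mul_sum, Finset.mul_sum]
      refine Finset.sum_congr rfl fun η _ => ?_
      rw [chi_add]
      ring
    rw [Finset.sum_congr rfl h1, Finset.sum_comm, Finset.mul_sum, Finset.mul_sum]
    refine Finset.sum_congr rfl fun η _ => ?_
    rw [← Finset.mul_sum, ← Finset.mul_sum, sum_chi]
    split_ifs
    · ring
    · ring
  have hnum : ∑ S ∈ (box d n).powerset, spin S 0 * isingW d n β S =
      Real.cosh β ^ (tbox d n).card * ((2 : ℝ) ^ (box d n).card *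
        (Gn d n).Zp x (tbox d n) (dl (some 0) + dl none)) := by
    have h1 : ∀ S ∈ (box d n).powerset, spin S 0 * isingW d n β S =
        chi n S (dl (some 0)) * isingW d n β S := by
      intro S hS
      rw [chi_dl (Finset.mem_powerset.1 hS)]
      rfl
    rw [Finset.sum_congr rfl h1, key]
    congr 2
    unfold Gr.Zp Z
    refine Finset.sum_congr rfl fun η hη => ?_
    have h2 := cond_one (Finset.mem_powerset.1 hη)
    by_cases h3 : ∀ v ∈ box d n, (dl (some (0 : Vtx d)) + (Gn d n).bdS η) (some v) = 0
    · rw [if_pos h3, if_pos (show ∑ e ∈ η, (Gn d n).bd e = _ from h2.1 h3)]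
    · rw [if_neg h3, if_neg (show ¬ ∑ e ∈ η, (Gn d n).bd e = _ from fun h4 => h3 (h2.2 h4))]
  have hden : ∑ S ∈ (box d n).powerset, isingW d n β S =
      Real.cosh β ^ (tbox d n).card * ((2 : ℝ) ^ (box d n).card *
        (Gn d n).Zp x (tbox d n) 0) := by
    have h1 : ∀ S ∈ (box d n).powerset, isingW d n β S = chi n S 0 * isingW d n β S := by
      intro S hS
      rw [chi_zero, one_mul]
    rw [Finset.sum_congr rfl h1, key]
    congr 2
    unfold Gr.Zp Z
    refine Finset.sum_congr rfl fun η hη => ?_
    have h2 := cond_zero (Finset.mem_powerset.1 hη)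
    rw [zero_add]
    by_cases h3 : ∀ v ∈ box d n, (Gn d n).bdS η (some v) = 0
    · rw [if_pos h3, if_pos (show ∑ e ∈ η, (Gn d n).bd e = 0 from h2.1 h3)]
    · rw [if_neg h3, if_neg (show ¬ ∑ e ∈ η, (Gn d n).bd e = 0 from fun h4 => h3 (h2.2 h4))]
  unfold mPlus
  rw [hnum, hden, mul_div_mul_left _ _ hcosh, mul_div_mul_left _ _ h2pow]
  rfl

end Pool.Agent.LoopO1
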