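import Pool.Agent.LoopO1_f0ab88.Cyl

/-!
# The abstract shift inequality
-/

open Finset

set_option linter.unusedSectionVars false
set_option linter.unusedVariables false

namespace Pool.Agent.LoopO1.Gr

variable {V E : Type*} [DecidableEq V] [DecidableEq E] {G : Gr V E} {x : ℝ}

/-- Keep the part in `O`, move the part in `I` by `τ`, forget the rest. -/
def mv (τ : E → E) (I O S : Finset E) : Finset E := (S ∩ O) ∪ (S ∩ I).image τ

open Classical in
/-- **The abstract shift inequality.** -/
theorem shift_abs (hx : 0 ≤ x) (D : Finset E) (B : V → ZMod 2) (T : DT E) (hT : T.Valid D ∅)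
    (R I O : Finset E) (hpart : ∀ e ∈ D, e ∉ R → e ∈ I ∨ e ∈ O) (hIO : Disjoint I O)
    (τ : E → E) (hτ : Function.Injective τ) (hτD : ∀ e ∈ I, τ e ∈ D)
    (hτO : ∀ e ∈ I, τ e ∉ O)
    (K : ℕ) (C₁ : ℝ) (hC₁ : 0 ≤ C₁) (good : Finset E → Prop)
    (hgood : T.All (fun S H => good S → (S ∩ R).card ≤ K →
      x ^ H.card * G.Zp x (D \ S) (B + G.bdS H) ≤
        C₁ * (x ^ (mv τ I O H).card *
          G.Zp x (D \ mv τ I O S) (B + G.bdS (mv τ I O H)))) ∅ ∅)
    (F F' : Finset E → ℝ) (hF : ∀ H, 0 ≤ F H) (hF' : ∀ η, 0 ≤ F' η)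
    (hFF : T.All (fun S H => ∀ η ⊆ D, η ∩ mv τ I O S = mv τ I O H → F H ≤ F' η) ∅ ∅) :
    T.sum (fun S H => if good S ∧ (S ∩ R).card ≤ K then
      x ^ H.card * G.Zp x (D \ S) (B + G.bdS H) * F H else 0) ∅ ∅
      ≤ C₁ * (2 ^ K * G.EZ x D B F') := by
  set σ : E → E := fun e => if e ∈ I then τ e else e with hσ
  have hst := DT.Valid.all T ∅ ∅ hT (Finset.empty_subset _)
  -- Step 1: compare each leaf with the weight of the shifted cylinder
  have h1 : T.sum (fun S H => if good S ∧ (S ∩ R).card ≤ K then
      x ^ H.card * G.Zp x (D \ S) (B + G.bdS H) * F H else 0) ∅ ∅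
      ≤ T.sum (fun S H => C₁ * ∑ η ∈ D.powerset, (if (S ∩ R).card ≤ K ∧
        (∀ e ∈ S, e ∉ R → (e ∈ H ↔ σ e ∈ η)) then (1 : ℝ) else 0) *
          (if G.bdS η = B then x ^ η.card * F' η else 0)) ∅ ∅ := by
    refine DT.sum_le_sum T ∅ ∅ ?_
    refine DT.All.imp ?_ T ∅ ∅ (DT.All.and T ∅ ∅ hst (DT.All.and T ∅ ∅ hgood hFF))
    rintro S H ⟨⟨-, -, hHS, hSD, -⟩, hg, hff⟩
    rw [Finset.empty_union] at hSD
    by_cases h : good S ∧ (S ∩ R).card ≤ K
    · rw [if_pos h]
      have hS'D : mv τ I O S ⊆ D := by
        intro a ha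
        rcases Finset.mem_union.1 ha with h' | h'
        · exact hSD (Finset.mem_inter.1 h').1
        · obtain ⟨b, hb, rfl⟩ := Finset.mem_image.1 h'
          exact hτD b (Finset.mem_inter.1 hb).2
      have hH'S' : mv τ I O H ⊆ mv τ I O S := by
        unfold mv
        exact Finset.union_subset_union (Finset.inter_subset_inter hHS le_rfl)
          (Finset.image_subset_image (Finset.inter_subset_inter hHS le_rfl))
      have hcyl := EZ_cyl (G := G) (x := x) D B hS'D hH'S'
      have h2 := hg h.1 h.2
      rw [← hcyl] at h2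
      refine (mul_le_mul_of_nonneg_right h2 (hF H)).trans ?_
      rw [mul_assoc]
      refine mul_le_mul_of_nonneg_left ?_ hC₁
      unfold EZ
      rw [Finset.sum_mul]
      refine Finset.sum_le_sum fun η hη => ?_
      have hηD := Finset.mem_powerset.1 hη
      by_cases hb : G.bdS η = B
      · rw [if_pos hb, if_pos hb]
        beta_reduce
        by_cases hc : η ∩ mv τ I O S = mv τ I O H
        · rw [if_pos hc]
          have hcons : ∀ e ∈ S, e ∉ R → (e ∈ H ↔ σ e ∈ η) := by
            intro e heS heR
            rcases hpart e (hSD heS) heR with heI | heO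
            · have hσe : σ e = τ e := if_pos heI
              rw [hσe]
              have hmS : τ e ∈ mv τ I O S :=
                Finset.mem_union_right _ (Finset.mem_image_of_mem _ (Finset.mem_inter.2 ⟨heS, heI⟩))
              have e1 : τ e ∈ η ↔ τ e ∈ mv τ I O H := by
                rw [← hc, Finset.mem_inter]
                exact ⟨fun h => ⟨h, hmS⟩, fun h => h.1⟩
              rw [e1]
              unfold mv
              rw [Finset.mem_union, Finset.mem_inter]
              constructor
              · intro heH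
                right
                exact Finset.mem_image_of_mem _ (Finset.mem_inter.2 ⟨heH, heI⟩)
              · rintro (h' | h')
                · exact absurd h'.2 (hτO e heI)
                · obtain ⟨b, hb', hbe⟩ := Finset.mem_image.1 h'
                  rw [hτ hbe] at hb'
                  exact (Finset.mem_inter.1 hb').1
            · have heI : e ∉ I := fun h' => (Finset.disjoint_left.1 hIO) h' heO
              have hσe : σ e = e := if_neg heI
              rw [hσe]
              have hmS : e ∈ mv τ I O S :=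
                Finset.mem_union_left _ (Finset.mem_inter.2 ⟨heS, heO⟩)
              have e1 : e ∈ η ↔ e ∈ mv τ I O H := by
                rw [← hc, Finset.mem_inter]
                exact ⟨fun h => ⟨h, hmS⟩, fun h => h.1⟩
              rw [e1]
              unfold mv
              rw [Finset.mem_union, Finset.mem_inter]
              constructor
              · intro heH
                exact Or.inl ⟨heH, heO⟩
              · rintro (h' | h')
                · exact h'.1
                · obtain ⟨b, hb', hbe⟩ := Finset.mem_image.1 h'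
                  have := hτO b (Finset.mem_inter.1 hb').2
                  rw [hbe] at this
                  exact absurd heO this
          rw [if_pos ⟨h.2, hcons⟩, one_mul, mul_one]
          exact mul_le_mul_of_nonneg_left (hff η hηD hc) (by positivity)
        · rw [if_neg hc, mul_zero, zero_mul]
          refine mul_nonneg ?_ (mul_nonneg (by positivity) (hF' η))
          split_ifs <;> norm_num
      · rw [if_neg hb, if_neg hb, zero_mul, mul_zero]
    · rw [if_neg h]
      refine mul_nonneg hC₁ (Finset.sum_nonneg fun η _ => mul_nonneg ?_ ?_)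
      · split_ifs <;> norm_num
      · split_ifs
        · exact mul_nonneg (by positivity) (hF' η)
        · exact le_rfl
  refine h1.trans ?_
  rw [DT.sum_mul]
  refine mul_le_mul_of_nonneg_left ?_ hC₁
  rw [DT.sum_finset]
  unfold EZ
  rw [Finset.mul_sum]
  refine Finset.sum_le_sum fun η hη => ?_
  have h3 : T.sum (fun S H => (if (S ∩ R).card ≤ K ∧
        (∀ e ∈ S, e ∉ R → (e ∈ H ↔ σ e ∈ η)) then (1 : ℝ) else 0) *
          (if G.bdS η = B then x ^ η.card * F' η else 0)) ∅ ∅
      = (if G.bdS η = B then x ^ η.card * F' η else 0) * T.sum (fun S H => (if (S ∩ R).card ≤ K ∧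
        (∀ e ∈ S, e ∉ R → (e ∈ H ↔ σ e ∈ η)) then (1 : ℝ) else 0)) ∅ ∅ := by
    rw [← DT.sum_mul]
    refine DT.sum_congr T ∅ ∅ (DT.All.of_forall (fun S H => ?_) T ∅ ∅)
    rw [mul_comm]
  rw [h3, mul_comm]
  have h4 := DT.sum_mult R K σ η T ∅ ∅ hT (Finset.empty_subset _)
  rw [Finset.empty_inter, Finset.card_empty, if_pos (Nat.zero_le _), Nat.sub_zero] at h4
  refine mul_le_mul_of_nonneg_right ?_ ?_
  · refine le_of_eq_of_le ?_ h4
    refine DT.sum_congr T ∅ ∅ (DT.All.of_forall (fun S H => ?_) T ∅ ∅)
    congr
  · split_ifs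
    · exact mul_nonneg (by positivity) (hF' η)
    · exact le_rfl

end Pool.Agent.LoopO1.Gr
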