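import Pool.Agent.LoopO1_f0ab88.Explore

/-!
# First stage: few paths reach an inner box
-/

open Finset

set_option linter.unusedSectionVars false
set_option linter.unusedVariables false

namespace Pool.Agent.LoopO1.Gr

variable {V E : Type*} [DecidableEq V] [DecidableEq E] (G : Gr V E) (x : ℝ)

/-- The source set of a finite set of vertices. -/
def ind (S : Finset V) : V → ZMod 2 := ∑ v ∈ S, dl v

lemma ind_apply (S : Finset V) (u : V) : ind S u = if u ∈ S then 1 else 0 := by
  unfold ind dl
  rw [Finset.sum_apply]
  simp only [Pi.single_apply]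
  rw [Finset.sum_ite_eq]

lemma ind_insert {S : Finset V} {v : V} (hv : v ∉ S) : ind (insert v S) = dl v + ind S := by
  unfold ind
  rw [Finset.sum_insert hv]

lemma ind_empty : ind (∅ : Finset V) = 0 := Finset.sum_empty

open Classical in
/-- The exploration tree of the first stage: query edges at sources outside `Λ`. -/
noncomputable def explore1 (Lam : Finset V) : ℕ → Finset E → (V → ZMod 2) → DT E
  | 0, _, _ => .leaf
  | n + 1, D, A =>
    if h : ∃ e ∈ D, ∃ v, v ∉ Lam ∧ A v = 1 ∧ G.Inc v e then
      .node h.choose (explore1 Lam n (D.erase h.choose) A)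
        (explore1 Lam n (D.erase h.choose) (A + G.bd h.choose))
    else .leaf

/-- Total correlation with `Λ`. -/
noncomputable def gam (Lam : Finset V) (D : Finset E) (b : V) : ℝ := ∑ z ∈ Lam, G.tp x D b z

/-- The potential of the first stage. -/
noncomputable def Pot (Lam : Finset V) (t : ℝ) (D : Finset E) (S : Finset V) : ℝ :=
  ∑ J ∈ S.powerset, (∏ b ∈ J, t * G.gam x Lam D b) * G.gp x D (ind (S \ J))

/-- The number of sources in `Λ`. -/
def nin (Lam : Finset V) (A : V → ZMod 2) : ℕ := (Lam.filter fun u => A u = 1).card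

open Classical in
/-- The functional at the leaves. -/
noncomputable def F1 (Lam : Finset V) (t : ℝ) (D : Finset E) (A : V → ZMod 2) : ℝ :=
  if ∀ u, A u = 1 → u ∈ Lam then t ^ nin Lam A * G.Zp x D 0 else 0

variable {G x}

lemma gam_nonneg (hx : 0 ≤ x) (Lam : Finset V) (D : Finset E) (b : V) : 0 ≤ G.gam x Lam D b :=
  Finset.sum_nonneg fun z _ => tp_nonneg hx _ _ _

lemma gam_mono (hx : 0 ≤ x) (hx1 : x ≤ 1) (Lam : Finset V) {D' D : Finset E} (h : D' ⊆ D) (b : V) :
    G.gam x Lam D' b ≤ G.gam x Lam D b :=
  Finset.sum_le_sum fun z _ => tp_mono hx hx1 h _ _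

lemma gam_step (hx : 0 ≤ x) (Lam : Finset V) {D : Finset E} {e : E} (he : e ∈ D) {v : V}
    (hv : G.Inc v e) : G.gam x Lam D v = G.fe x D e *
      (G.gam x Lam (D.erase e) v + x * G.gam x Lam (D.erase e) (G.other e v)) := by
  unfold gam
  rw [Finset.mul_sum Lam _ x, ← Finset.sum_add_distrib, Finset.mul_sum]
  exact Finset.sum_congr rfl fun z _ => tp_step hx he hv z

lemma gp_src_step (hx : 0 ≤ x) {D : Finset E} {e : E} (he : e ∈ D) {v : V} (hv : G.Inc v e)
    (C : V → ZMod 2) : G.gp x D (dl v + C) = G.fe x D e *
      (G.gp x (D.erase e) (dl v + C) + x * G.gp x (D.erase e) (dl (G.other e v) + C)) := by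
  rw [gp_step hx he]
  have : dl v + C + G.bd e = dl (G.other e v) + C := by
    rw [G.bd_of_inc hv]
    have h := add_self_fun (dl v : V → ZMod 2)
    calc dl v + C + (dl v + dl (G.other e v)) = (dl v + dl v) + (dl (G.other e v) + C) := by abel
      _ = _ := by rw [h, zero_add]
  rw [this]

lemma Pot_insert (Lam : Finset V) (t : ℝ) (D : Finset E) {R : Finset V} {v : V} (hv : v ∉ R) :
    G.Pot x Lam t D (insert v R) = ∑ J ∈ R.powerset, (∏ b ∈ J, t * G.gam x Lam D b) *
      (G.gp x D (dl v + ind (R \ J)) + t * G.gam x Lam D v * G.gp x D (ind (R \ J))) := by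
  unfold Pot
  rw [Finset.sum_powerset_insert hv, ← Finset.sum_add_distrib]
  refine Finset.sum_congr rfl fun J hJ => ?_
  have hJR := Finset.mem_powerset.1 hJ
  have hvJ : v ∉ J := fun h => hv (hJR h)
  have h1 : insert v R \ J = insert v (R \ J) := Finset.insert_sdiff_of_notMem R hvJ
  have h2 : insert v R \ insert v J = R \ J := by
    ext a; simp only [mem_sdiff, mem_insert]
    constructor
    · rintro ⟨ha | ha, hb⟩
      · exact absurd (Or.inl ha) hb
      · exact ⟨ha, fun h => hb (Or.inr h)⟩
    · rintro ⟨ha, hb⟩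
      exact ⟨Or.inr ha, fun h => h.elim (fun h' => hv (h' ▸ ha)) hb⟩
  have h3 : v ∉ R \ J := fun h => hv (Finset.mem_sdiff.1 h).1
  rw [h1, h2, ind_insert h3, Finset.prod_insert hvJ]
  ring

lemma Pot_nonneg (hx : 0 ≤ x) (Lam : Finset V) {t : ℝ} (ht : 0 ≤ t) (D : Finset E) (S : Finset V) :
    0 ≤ G.Pot x Lam t D S := by
  unfold Pot
  refine Finset.sum_nonneg fun J _ => mul_nonneg (Finset.prod_nonneg fun b _ => ?_)
    (gp_nonneg hx _ _)
  exact mul_nonneg ht (gam_nonneg hx _ _ _)

/-- The upper bound for the open branch. -/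
noncomputable def Uw (G : Gr V E) (x : ℝ) (Lam : Finset V) (t : ℝ) (D : Finset E) (R : Finset V)
    (w : V) : ℝ :=
  ∑ J ∈ R.powerset, (∏ b ∈ J, t * G.gam x Lam D b) *
      (G.gp x D (dl w + ind (R \ J)) + t * G.gam x Lam D w * G.gp x D (ind (R \ J)))

lemma Pot_step (hx : 0 ≤ x) (hx1 : x ≤ 1) (Lam : Finset V) {t : ℝ} (ht : 0 ≤ t) {D : Finset E}
    {e : E} (he : e ∈ D) {v : V} (hv : G.Inc v e) {R : Finset V} (hvR : v ∉ R) :
    G.fe x D e * (G.Pot x Lam t (D.erase e) (insert v R)
      + x * G.Uw x Lam t (D.erase e) R (G.other e v)) ≤ G.Pot x Lam t D (insert v R) := by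
  rw [Pot_insert Lam t _ hvR, Pot_insert Lam t _ hvR]
  unfold Uw
  rw [Finset.mul_sum _ _ x, ← Finset.sum_add_distrib, Finset.mul_sum]
  refine Finset.sum_le_sum fun J _ => ?_
  set w := G.other e v
  have h1 := gp_src_step (G := G) hx he hv (ind (R \ J))
  have h2 := gam_step (G := G) hx Lam he hv
  have hprod : ∏ b ∈ J, t * G.gam x Lam (D.erase e) b ≤ ∏ b ∈ J, t * G.gam x Lam D b := by
    refine Finset.prod_le_prod (fun b _ => mul_nonneg ht (gam_nonneg hx _ _ _)) fun b _ => ?_
    exact mul_le_mul_of_nonneg_left (gam_mono hx hx1 _ (Finset.erase_subset e D) b) ht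
  have hprod0 : 0 ≤ ∏ b ∈ J, t * G.gam x Lam (D.erase e) b :=
    Finset.prod_nonneg fun b _ => mul_nonneg ht (gam_nonneg hx _ _ _)
  have hg := gp_erase_le (G := G) hx hx1 D e (ind (R \ J))
  have hg0 := gp_nonneg (G := G) hx (D.erase e) (ind (R \ J))
  have hγ := gam_nonneg (G := G) hx Lam D v
  have hprodD : 0 ≤ ∏ b ∈ J, t * G.gam x Lam D b :=
    Finset.prod_nonneg fun b _ => mul_nonneg ht (gam_nonneg hx _ _ _)
  have hgv := gp_nonneg (G := G) hx D (dl v + ind (R \ J))
  calc G.fe x D e * ((∏ b ∈ J, t * G.gam x Lam (D.erase e) b) *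
        (G.gp x (D.erase e) (dl v + ind (R \ J))
          + t * G.gam x Lam (D.erase e) v * G.gp x (D.erase e) (ind (R \ J)))
        + x * ((∏ b ∈ J, t * G.gam x Lam (D.erase e) b) *
        (G.gp x (D.erase e) (dl w + ind (R \ J))
          + t * G.gam x Lam (D.erase e) w * G.gp x (D.erase e) (ind (R \ J)))))
      = (∏ b ∈ J, t * G.gam x Lam (D.erase e) b) *
        (G.fe x D e * (G.gp x (D.erase e) (dl v + ind (R \ J))
          + x * G.gp x (D.erase e) (dl w + ind (R \ J)))
        + t * (G.fe x D e * (G.gam x Lam (D.erase e) v + x * G.gam x Lam (D.erase e) w))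
          * G.gp x (D.erase e) (ind (R \ J))) := by ring
    _ = (∏ b ∈ J, t * G.gam x Lam (D.erase e) b) *
        (G.gp x D (dl v + ind (R \ J)) + t * G.gam x Lam D v
          * G.gp x (D.erase e) (ind (R \ J))) := by rw [← h1, ← h2]
    _ ≤ (∏ b ∈ J, t * G.gam x Lam D b) *
        (G.gp x D (dl v + ind (R \ J)) + t * G.gam x Lam D v * G.gp x D (ind (R \ J))) := by
      refine mul_le_mul hprod ?_ ?_ hprodD
      · exact add_le_add_right (mul_le_mul_of_nonneg_left hg (mul_nonneg ht hγ)) _
      · exact add_nonneg hgv (mul_nonneg (mul_nonneg ht hγ) hg0)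

lemma Uw_ge_in (hx : 0 ≤ x) (Lam : Finset V) {t : ℝ} (ht : 0 ≤ t) (D : Finset E) (R : Finset V)
    {w : V} (hw : w ∈ Lam) : t * G.Pot x Lam t D R ≤ G.Uw x Lam t D R w := by
  unfold Pot Uw
  rw [Finset.mul_sum]
  refine Finset.sum_le_sum fun J _ => ?_
  have hprod0 : 0 ≤ ∏ b ∈ J, t * G.gam x Lam D b :=
    Finset.prod_nonneg fun b _ => mul_nonneg ht (gam_nonneg hx _ _ _)
  have h1 : 1 ≤ G.gam x Lam D w := by
    unfold gam
    have := Finset.single_le_sum (f := fun z => G.tp x D w z)
      (fun z _ => tp_nonneg hx _ _ _) hw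
    simp only [tp_self hx] at this
    exact this
  have h2 := gp_nonneg (G := G) hx D (ind (R \ J))
  have h3 := gp_nonneg (G := G) hx D (dl w + ind (R \ J))
  have h4 : t * G.gp x D (ind (R \ J)) ≤ t * G.gam x Lam D w * G.gp x D (ind (R \ J)) := by
    have : t * 1 ≤ t * G.gam x Lam D w := mul_le_mul_of_nonneg_left h1 ht
    rw [mul_one] at this
    exact mul_le_mul_of_nonneg_right this h2
  calc t * ((∏ b ∈ J, t * G.gam x Lam D b) * G.gp x D (ind (R \ J)))
      = (∏ b ∈ J, t * G.gam x Lam D b) * (t * G.gp x D (ind (R \ J))) := by ring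
    _ ≤ _ := mul_le_mul_of_nonneg_left (by linarith) hprod0

lemma Uw_ge_mem (hx : 0 ≤ x) (Lam : Finset V) {t : ℝ} (ht : 0 ≤ t) (D : Finset E) (R : Finset V)
    {w : V} (hw : w ∈ R) : G.Pot x Lam t D (R.erase w) ≤ G.Uw x Lam t D R w := by
  unfold Pot Uw
  have hsub : (R.erase w).powerset ⊆ R.powerset := Finset.powerset_mono.2 (Finset.erase_subset w R)
  have hnn : ∀ J ∈ R.powerset, 0 ≤ (∏ b ∈ J, t * G.gam x Lam D b) *
      (G.gp x D (dl w + ind (R \ J)) + t * G.gam x Lam D w * G.gp x D (ind (R \ J))) := by
    intro J _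
    refine mul_nonneg (Finset.prod_nonneg fun b _ => mul_nonneg ht (gam_nonneg hx _ _ _)) ?_
    exact add_nonneg (gp_nonneg hx _ _) (mul_nonneg (mul_nonneg ht (gam_nonneg hx _ _ _))
      (gp_nonneg hx _ _))
  refine le_trans ?_ (Finset.sum_le_sum_of_subset_of_nonneg hsub fun J hJ _ => hnn J hJ)
  refine Finset.sum_le_sum fun J hJ => ?_
  have hJ' := Finset.mem_powerset.1 hJ
  have hwJ : w ∉ J := fun h => (Finset.mem_erase.1 (hJ' h)).1 rfl
  refine mul_le_mul_of_nonneg_left ?_
    (Finset.prod_nonneg fun b _ => mul_nonneg ht (gam_nonneg hx _ _ _))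
  have h1 : R \ J = insert w (R.erase w \ J) := by
    ext a; simp only [mem_sdiff, mem_insert, mem_erase]
    by_cases haw : a = w
    · subst haw; simp [hw, hwJ]
    · simp [haw]
  have h2 : w ∉ R.erase w \ J := by simp
  have h3 : dl w + ind (R \ J) = ind (R.erase w \ J) := by
    rw [h1, ind_insert h2, ← add_assoc, add_self_fun, zero_add]
  rw [h3]
  have := mul_nonneg (mul_nonneg ht (gam_nonneg (G := G) hx Lam D w))
      (gp_nonneg (G := G) hx D (ind (R \ J)))
  linarith

/-- The potential bound of the first stage. -/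
theorem explore1_bound (hx : 0 ≤ x) (hx1 : x ≤ 1) (Lam : Finset V) {t : ℝ} (ht : 1 ≤ t) :
    ∀ (n : ℕ) (D : Finset E) (A : V → ZMod 2) (S : Finset V),
      (∀ u, u ∉ Lam → (A u = 1 ↔ u ∈ S)) → (∀ u ∈ S, u ∉ Lam) →
      G.wsum x 1 (G.F1 x Lam t) (G.explore1 Lam n D A) D A
        ≤ t ^ nin Lam A * G.Pot x Lam t D S * G.Zp x D 0 := by
  have ht0 : 0 ≤ t := zero_le_one.trans ht
  have leafcase : ∀ (D : Finset E) (A : V → ZMod 2) (S : Finset V),
      (∀ u, u ∉ Lam → (A u = 1 ↔ u ∈ S)) → (∀ u ∈ S, u ∉ Lam) →
      G.F1 x Lam t D A ≤ t ^ nin Lam A * G.Pot x Lam t D S * G.Zp x D 0 := by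
    intro D A S hA hS
    unfold F1
    split_ifs with h
    · have hSe : S = ∅ := by
        rw [Finset.eq_empty_iff_forall_notMem]
        intro a ha
        exact (hS a ha) (h a ((hA a (hS a ha)).2 ha))
      have : G.Pot x Lam t D S = 1 := by
        unfold Pot
        rw [hSe]
        simp only [Finset.powerset_empty, Finset.sum_singleton, Finset.prod_empty, one_mul,
          Finset.sdiff_empty, ind_empty]
        exact gp_zero hx D
      rw [this, mul_one]
    · exact mul_nonneg (mul_nonneg (by positivity) (Pot_nonneg hx _ ht0 _ _)) (Z_nonneg hx _ _)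
  intro n
  induction n with
  | zero => intro D A S hA hS; exact leafcase D A S hA hS
  | succ n ih =>
    intro D A S hA hS
    by_cases h : ∃ e ∈ D, ∃ v, v ∉ Lam ∧ A v = 1 ∧ G.Inc v e
    · have htree : G.explore1 Lam (n + 1) D A = .node h.choose
          (G.explore1 Lam n (D.erase h.choose) A)
          (G.explore1 Lam n (D.erase h.choose) (A + G.bd h.choose)) := by
        conv_lhs => unfold explore1
        rw [dif_pos h]
      rw [htree]
      obtain ⟨heD, v, hvL, hAv, hv⟩ := h.choose_spec
      set e := h.choose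
      set w := G.other e v with hw
      have hwv : w ≠ v := G.other_ne hv
      have hvS : v ∈ S := (hA v hvL).1 hAv
      set R := S.erase v with hR
      have hvR : v ∉ R := Finset.notMem_erase v S
      have hSR : S = insert v R := (Finset.insert_erase hvS).symm
      have h1 := ih (D.erase e) A S hA hS
      have hAw : ∀ u, (A + G.bd e) u = A u + (if u = v then 1 else 0) + (if u = w then 1 else 0) := by
        intro u
        rw [dl_bd hv, Pi.add_apply, Pi.add_apply]
        congr 1
        · congr 1
          by_cases huv : u = v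
          · rw [if_pos huv, huv, dl_apply_self]
          · rw [if_neg huv, dl_apply_ne huv]
        · rw [← hw]
          by_cases huw : u = w
          · rw [if_pos huw, huw, dl_apply_self]
          · rw [if_neg huw, dl_apply_ne huw]
      have hZ' := (Z_zero_pos (b := G.bd) hx (D.erase e)).le
      have h2 : G.wsum x 1 (G.F1 x Lam t) (G.explore1 Lam n (D.erase e) (A + G.bd e))
          (D.erase e) (A + G.bd e)
          ≤ t ^ nin Lam A * G.Uw x Lam t (D.erase e) R w * G.Zp x (D.erase e) 0 := by
        by_cases hwL : w ∈ Lam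
        · have h3 := ih (D.erase e) (A + G.bd e) R ?_ ?_
          · refine h3.trans ?_
            refine mul_le_mul_of_nonneg_right ?_ hZ'
            have h4 : nin Lam (A + G.bd e) ≤ nin Lam A + 1 := by
              unfold nin
              have hsub : (Lam.filter fun u => (A + G.bd e) u = 1)
                  ⊆ insert w (Lam.filter fun u => A u = 1) := by
                intro u hu
                rw [Finset.mem_filter] at hu
                rw [Finset.mem_insert, Finset.mem_filter]
                by_cases huw : u = w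
                · exact Or.inl huw
                · right
                  refine ⟨hu.1, ?_⟩
                  have h5 := hu.2
                  have huv : u ≠ v := fun h' => hvL (h' ▸ hu.1)
                  rw [hAw, if_neg huv, if_neg huw, add_zero, add_zero] at h5
                  exact h5
              exact (Finset.card_le_card hsub).trans (Finset.card_insert_le _ _)
            have h5 : t ^ nin Lam (A + G.bd e) ≤ t ^ nin Lam A * t := by
              rw [← pow_succ]
              exact pow_le_pow_right₀ ht h4
            calc t ^ nin Lam (A + G.bd e) * G.Pot x Lam t (D.erase e) R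
                ≤ (t ^ nin Lam A * t) * G.Pot x Lam t (D.erase e) R :=
                  mul_le_mul_of_nonneg_right h5 (Pot_nonneg hx _ ht0 _ _)
              _ = t ^ nin Lam A * (t * G.Pot x Lam t (D.erase e) R) := by ring
              _ ≤ _ := mul_le_mul_of_nonneg_left (Uw_ge_in hx _ ht0 _ _ hwL) (by positivity)
          · intro u hu
            have huw : u ≠ w := fun h' => hu (h' ▸ hwL)
            rw [hAw, if_neg huw, add_zero, hR, Finset.mem_erase]
            by_cases huv : u = v
            · rw [if_pos huv, huv, hAv]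
              constructor
              · intro h; exact absurd h (by decide)
              · intro h; exact absurd rfl h.1
            · rw [if_neg huv, add_zero, hA u hu]
              exact ⟨fun h => ⟨huv, h⟩, fun h => h.2⟩
          · intro u hu
            exact hS u (Finset.mem_erase.1 hu).2
        · have hnin : nin Lam (A + G.bd e) = nin Lam A := by
            unfold nin
            congr 1
            apply Finset.filter_congr
            intro u hu
            have huv : u ≠ v := fun h' => hvL (h' ▸ hu)
            have huw : u ≠ w := fun h' => hwL (h' ▸ hu)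
            rw [hAw, if_neg huv, if_neg huw, add_zero, add_zero]
          by_cases hwR : w ∈ R
          · have h3 := ih (D.erase e) (A + G.bd e) (R.erase w) ?_ ?_
            · refine h3.trans ?_
              rw [hnin]
              refine mul_le_mul_of_nonneg_right ?_ hZ'
              exact mul_le_mul_of_nonneg_left (Uw_ge_mem hx _ ht0 _ _ hwR) (by positivity)
            · intro u hu
              rw [hAw, Finset.mem_erase, hR, Finset.mem_erase]
              by_cases huv : u = v
              · rw [if_pos huv, huv, hAv, if_neg hwv.symm]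
                constructor
                · intro h; exact absurd h (by decide)
                · intro h; exact absurd rfl h.2.1
              · rw [if_neg huv, add_zero]
                by_cases huw : u = w
                · rw [if_pos huw, huw, (hA w hwL).2 (Finset.mem_erase.1 hwR).2]
                  constructor
                  · intro h; exact absurd h (by decide)
                  · intro h; exact absurd rfl h.1
                · rw [if_neg huw, add_zero, hA u hu]
                  exact ⟨fun h => ⟨huw, huv, h⟩, fun h => h.2.2⟩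
            · intro u hu
              exact hS u (Finset.mem_erase.1 (Finset.mem_erase.1 hu).2).2
          · have h3 := ih (D.erase e) (A + G.bd e) (insert w R) ?_ ?_
            · refine h3.trans ?_
              rw [hnin, Pot_insert Lam t _ hwR]
              exact le_rfl
            · intro u hu
              rw [hAw, Finset.mem_insert, hR, Finset.mem_erase]
              by_cases huv : u = v
              · rw [if_pos huv, huv, hAv, if_neg hwv.symm]
                constructor
                · intro h; exact absurd h (by decide)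
                · rintro (h | h)
                  · exact absurd h.symm hwv
                  · exact absurd rfl h.1
              · rw [if_neg huv, add_zero]
                by_cases huw : u = w
                · have hAw0 : A w = 0 := by
                    rcases zmod2_cases (A w) with h0 | h0
                    · exact h0
                    · exact absurd (Finset.mem_erase.2 ⟨hwv, (hA w hwL).1 h0⟩) hwR
                  rw [if_pos huw, huw, hAw0, zero_add]
                  exact ⟨fun _ => Or.inl rfl, fun _ => rfl⟩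
                · rw [if_neg huw, add_zero, hA u hu]
                  constructor
                  · intro h; exact Or.inr ⟨huv, h⟩
                  · rintro (h | h)
                    · exact absurd h huw
                    · exact h.2
            · intro u hu
              rcases Finset.mem_insert.1 hu with h' | h'
              · rw [h']; exact hwL
              · exact hS u (Finset.mem_erase.1 h').2
      show 1 * (_ + x * _) ≤ _
      have hstep := Pot_step (G := G) hx hx1 Lam ht0 heD hv hvR
      rw [← hSR] at hstep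
      have hZ := Z_zero_pos (b := G.bd) hx D
      have hfe : G.Zp x (D.erase e) 0 = G.fe x D e * G.Zp x D 0 := by
        unfold fe; field_simp
      have htn : 0 ≤ t ^ nin Lam A := by positivity
      calc 1 * (G.wsum x 1 (G.F1 x Lam t) (G.explore1 Lam n (D.erase e) A) (D.erase e) A
            + x * G.wsum x 1 (G.F1 x Lam t) (G.explore1 Lam n (D.erase e) (A + G.bd e))
              (D.erase e) (A + G.bd e))
          ≤ 1 * (t ^ nin Lam A * G.Pot x Lam t (D.erase e) S * G.Zp x (D.erase e) 0
            + x * (t ^ nin Lam A * G.Uw x Lam t (D.erase e) R w * G.Zp x (D.erase e) 0)) := by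
            gcongr
        _ = t ^ nin Lam A * (G.fe x D e * (G.Pot x Lam t (D.erase e) S
              + x * G.Uw x Lam t (D.erase e) R w)) * G.Zp x D 0 := by
            rw [hfe]; ring
        _ ≤ _ := by gcongr
    · have htree : G.explore1 Lam (n + 1) D A = .leaf := by
        conv_lhs => unfold explore1
        rw [dif_neg h]
      rw [htree]
      exact leafcase D A S hA hS

/-- The potential compared with the correlation itself. -/
lemma Pot_le (hx : 0 ≤ x) (hx1 : x ≤ 1) (Lam : Finset V) {t a κ ε : ℝ} (ht : 0 ≤ t) (ha : 0 < a)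
    (hκ : 0 < κ) (D : Finset E) (S : Finset V)
    (hJ : ∀ J ⊆ S, a ^ J.card * κ ≤ G.gp x D (ind J))
    (hγ : ∀ b ∈ S, t * G.gam x Lam D b ≤ ε * a) :
    G.Pot x Lam t D S ≤ κ⁻¹ * (1 + ε) ^ S.card * G.gp x D (ind S) := by
  have hgS := gp_nonneg (G := G) hx D (ind S)
  have hterm : ∀ J ∈ S.powerset, (∏ b ∈ J, t * G.gam x Lam D b) * G.gp x D (ind (S \ J))
      ≤ (∏ b ∈ J, ε) * (κ⁻¹ * G.gp x D (ind S)) := by
    intro J hJm
    have hJS := Finset.mem_powerset.1 hJm
    have h1 : ∏ b ∈ J, t * G.gam x Lam D b ≤ ∏ b ∈ J, ε * a :=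
      Finset.prod_le_prod (fun b _ => mul_nonneg ht (gam_nonneg hx _ _ _))
        fun b hb => hγ b (hJS hb)
    have h2 : ind J + ind (S \ J) = ind S := by
      unfold ind
      rw [add_comm, Finset.sum_sdiff hJS]
    have h3 := gks_g (G := G) hx hx1 D (ind J) (ind (S \ J))
    rw [h2] at h3
    have h4 := hJ J hJS
    have h5 := gp_nonneg (G := G) hx D (ind (S \ J))
    have h6 : a ^ J.card * κ * G.gp x D (ind (S \ J)) ≤ G.gp x D (ind S) :=
      (mul_le_mul_of_nonneg_right h4 h5).trans h3
    have hprod0 : 0 ≤ ∏ b ∈ J, t * G.gam x Lam D b :=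
      Finset.prod_nonneg fun b _ => mul_nonneg ht (gam_nonneg hx _ _ _)
    have hε : 0 ≤ ∏ b ∈ J, ε := by
      refine Finset.prod_nonneg fun b hb => ?_
      have := (mul_nonneg ht (gam_nonneg (G := G) hx Lam D b)).trans (hγ b (hJS hb))
      by_contra hneg
      push Not at hneg
      nlinarith
    calc (∏ b ∈ J, t * G.gam x Lam D b) * G.gp x D (ind (S \ J))
        ≤ (∏ b ∈ J, ε * a) * G.gp x D (ind (S \ J)) := mul_le_mul_of_nonneg_right h1 h5
      _ = (∏ b ∈ J, ε) * (κ⁻¹ * (a ^ J.card * κ * G.gp x D (ind (S \ J)))) := by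
          rw [Finset.prod_mul_distrib, Finset.prod_const a]
          generalize ∏ b ∈ J, ε = p
          field_simp
      _ ≤ _ := mul_le_mul_of_nonneg_left (mul_le_mul_of_nonneg_left h6 (inv_pos.2 hκ).le) hε
  unfold Pot
  refine (Finset.sum_le_sum hterm).trans_eq ?_
  rw [← Finset.sum_mul]
  have : ∑ J ∈ S.powerset, ∏ _b ∈ J, ε = (1 + ε) ^ S.card := by
    rw [← Finset.prod_const, Finset.prod_one_add]
  rw [this]
  ring

end Pool.Agent.LoopO1.Gr
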