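import Pool.Agent.LoopO1_f0ab88.Pairing

/-!
# The first stage: few sources reach the inner box
-/

open Finset

set_option linter.unusedSectionVars false
set_option linter.unusedVariables false

namespace Pool.Agent.LoopO1

variable {d : ℕ}

lemma mem_ebox_of_ends {n : ℕ} {e : Edg d} (h : ∀ v, (lat d).Inc v e → v ∈ box d n) :
    e ∈ ebox d n := mem_ebox.2 ⟨h _ (Or.inl rfl), h _ (Or.inr rfl)⟩

lemma ends_of_mem_ebox {n : ℕ} {e : Edg d} (h : e ∈ ebox d n) {v : Vtx d} (hv : (lat d).Inc v e) :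
    v ∈ box d n := by
  rcases hv with h' | h'
  · rw [h']; exact (mem_ebox.1 h).1
  · rw [h']; exact (mem_ebox.1 h).2

/-- A neighbour of a point of the box `n - 1` is in the box `n`. -/
lemma box_succ_of_inc {n : ℕ} {e : Edg d} {u v : Vtx d} (hu : (lat d).Inc u e)
    (hv : (lat d).Inc v e) (h : u ∈ box d n) : v ∈ box d (n + 1) := by
  rw [mem_box] at h ⊢
  have hsrc : ∀ w, (lat d).Inc w e → ∀ i, w i = e.1 i ∨ w i = e.1 i + 1 := by
    intro w hw i
    rcases hw with h' | h'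
    · left; rw [h']; rfl
    · rw [h', lat_tgt, Pi.add_apply, Pi.single_apply]
      split_ifs
      · right; rfl
      · left; rw [add_zero]
  intro i
  have h1 := hsrc u hu i
  have h2 := hsrc v hv i
  have h3 := h i
  push_cast
  omega

open Classical in
/-- The set of sources in a finite set. -/
noncomputable def supp (W : Finset (Vtx d)) (A : Vtx d → ZMod 2) : Finset (Vtx d) :=
  W.filter fun u => A u = 1

lemma mem_supp {W : Finset (Vtx d)} {A : Vtx d → ZMod 2} {u : Vtx d} :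
    u ∈ supp W A ↔ u ∈ W ∧ A u = 1 := by
  classical
  unfold supp
  simp

lemma ind_supp {W : Finset (Vtx d)} {A : Vtx d → ZMod 2} (h : ∀ u, A u = 1 → u ∈ W) :
    Gr.ind (supp W A) = A := by
  funext u
  rw [Gr.ind_apply]
  split_ifs with hu
  · exact (mem_supp.1 hu).2.symm
  · rcases Gr.zmod2_cases (A u) with h0 | h0
    · exact h0.symm
    · exact absurd (mem_supp.2 ⟨h u h0, h0⟩) hu

lemma nin_eq (W : Finset (Vtx d)) (A : Vtx d → ZMod 2) : Gr.nin W A = (supp W A).card := by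
  unfold Gr.nin supp
  congr 1

lemma Zp_eq_gp (x : ℝ) (hx : 0 ≤ x) (D : Finset (Edg d)) (A : Vtx d → ZMod 2) :
    (lat d).Zp x D A = (lat d).gp x D A * (lat d).Zp x D 0 := by
  unfold Gr.gp g
  rw [div_mul_cancel₀ _ (Z_zero_pos hx D).ne']

lemma Zp_le_zero {x : ℝ} (hx : 0 ≤ x) (hx1 : x ≤ 1) (D : Finset (Edg d)) (A : Vtx d → ZMod 2) :
    (lat d).Zp x D A ≤ (lat d).Zp x D 0 := by
  rw [Zp_eq_gp x hx]
  exact mul_le_of_le_one_left (Z_zero_pos hx D).le (Gr.gp_le_one hx hx1 _ _)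

/-- The first stage, for a given parameter `t`. -/
lemma stage_one_core {x : ℝ} (hx : 0 ≤ x) (hx1 : x ≤ 1) {n : ℕ} (hn : 1 ≤ n)
    {B : Vtx d → ZMod 2} (hB : BdSrc d (16 * n) B) {G : Finset (Edg d) → ℝ} {M δ₁ : ℝ}
    (hM : 0 ≤ M) (hδ₁ : 0 ≤ δ₁) (hGM : ∀ η, G η ≤ M) (hG : ∀ η, G η = G (η ∩ ebox d (8 * n)))
    {k₀ : ℕ}
    (hmain : ∀ (D : Finset (Edg d)) (T : Finset (Vtx d)), ebox d (8 * n) ⊆ D →
      (∀ u ∈ T, u ∈ box d (8 * n) ∧ u ∉ box d (8 * n - 1)) → T.card < k₀ →
      (lat d).EZ x D (Gr.ind T) G ≤ δ₁ * (lat d).Zp x D (Gr.ind T))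
    {t : ℝ} (ht : 1 ≤ t) :
    (lat d).EZ x (ebox d (16 * n)) B G ≤ δ₁ * (lat d).Zp x (ebox d (16 * n)) B +
      M * (t⁻¹) ^ k₀ * ((lat d).Pot x (box d (8 * n)) t (ebox d (16 * n))
        (supp (box d (16 * n)) B) * (lat d).Zp x (ebox d (16 * n)) 0) := by
  classical
  set D₀ := ebox d (16 * n) with hD₀
  set Lam := box d (8 * n) with hLam
  have ht0 : 0 < t := zero_lt_one.trans_le ht
  set Tr := (lat d).explore1 Lam D₀.card D₀ B with hTr
  have hval : Tr.Valid D₀ ∅ := Gr.explore1_valid Lam D₀ _ D₀ B ∅ le_rfl (Finset.disjoint_empty_right _)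
  have hst := DT.Valid.all Tr ∅ ∅ hval (Finset.empty_subset _)
  have hout := Gr.explore1_outer (G := lat d) Lam D₀.card D₀ B ∅ ∅
  have hall := Gr.explore1_all (G := lat d) (x := x) Lam D₀ B D₀.card D₀ B ∅ ∅ le_rfl
    (Finset.sdiff_empty).symm le_rfl (by rw [Gr.bdS_empty, add_zero])
  -- the leaf bound
  have hleaf : Tr.All (fun S H => x ^ H.card * (lat d).EZ x (D₀ \ S) (B + (lat d).bdS H)
      (fun η => G (H ∪ η)) ≤
      δ₁ * (x ^ H.card * (lat d).EZ x (D₀ \ S) (B + (lat d).bdS H) (fun η => (fun _ => (1 : ℝ)) (H ∪ η)))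
        + (M * (t⁻¹) ^ k₀) * (1 ^ S.card * x ^ H.card * (lat d).F1 x Lam t (D₀ \ S) (B + (lat d).bdS H)))
        ∅ ∅ := by
    refine DT.All.imp ?_ Tr ∅ ∅ (DT.All.and Tr ∅ ∅ hst (DT.All.and Tr ∅ ∅ hout hall))
    rintro S H ⟨⟨-, -, hHS, hSD, -⟩, ho, ha⟩
    rw [Finset.empty_union] at hSD
    set A := B + (lat d).bdS H with hA
    have hSout : ∀ e ∈ S, e ∉ ebox d (8 * n) := by
      intro e he he'
      rcases ho e he with h1 | ⟨v, hv, hi⟩
      · exact absurd h1 (Finset.notMem_empty _)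
      · exact hv (ends_of_mem_ebox he' hi)
    have hsub : ebox d (8 * n) ⊆ D₀ \ S := by
      intro e he
      rw [Finset.mem_sdiff]
      exact ⟨ebox_mono (by omega) he, fun h' => hSout e h' he⟩
    have hGH : ∀ η, G (H ∪ η) = G η := by
      intro η
      rw [hG (H ∪ η), hG η]
      congr 1
      ext e
      simp only [mem_inter, mem_union]
      constructor
      · rintro ⟨h1 | h1, h2⟩
        · exact absurd h2 (hSout e (hHS h1))
        · exact ⟨h1, h2⟩
      · rintro ⟨h1, h2⟩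
        exact ⟨Or.inr h1, h2⟩
    have hE1 : (lat d).EZ x (D₀ \ S) A (fun η => G (H ∪ η)) = (lat d).EZ x (D₀ \ S) A G :=
      Gr.EZ_congr _ _ fun η _ => hGH η
    have hE2 : (lat d).EZ x (D₀ \ S) A (fun η => (fun _ => (1 : ℝ)) (H ∪ η))
        = (lat d).Zp x (D₀ \ S) A := Gr.EZ_one _ _
    have hEM : (lat d).EZ x (D₀ \ S) A G ≤ M * (lat d).Zp x (D₀ \ S) A := by
      rw [← Gr.EZ_const]
      exact Gr.EZ_le hx _ _ fun η _ => hGM η
    rw [hE1, hE2, one_pow, one_mul]
    have hZ0 : 0 ≤ (lat d).Zp x (D₀ \ S) A := Z_nonneg hx _ _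
    have hF0 : 0 ≤ (lat d).F1 x Lam t (D₀ \ S) A := by
      unfold Gr.F1
      split_ifs
      · exact mul_nonneg (by positivity) (Z_nonneg hx _ _)
      · exact le_rfl
    have hkey : (lat d).EZ x (D₀ \ S) A G ≤ δ₁ * (lat d).Zp x (D₀ \ S) A +
        (M * (t⁻¹) ^ k₀) * (lat d).F1 x Lam t (D₀ \ S) A := by
      rcases ha with ha | ha
      · -- supported in `Lam`
        have hAT : Gr.ind (supp Lam A) = A := ind_supp ha
        have hTb : ∀ u ∈ supp Lam A, u ∈ box d (8 * n) ∧ u ∉ box d (8 * n - 1) := by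
          intro u hu
          refine ⟨(mem_supp.1 hu).1, fun hu' => ?_⟩
          have h1 := (mem_supp.1 hu).2
          have hBu : B u = 0 := by
            by_contra hne
            have := (hB u hne).2
            exact this (box_mono (by omega) hu')
          have hHu : (lat d).bdS H u = 0 := by
            apply Gr.bdS_apply_eq_zero
            intro e he hi
            refine hSout e (hHS he) (mem_ebox_of_ends fun v hv => ?_)
            have := box_succ_of_inc hi hv hu'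
            have h8 : 8 * n - 1 + 1 = 8 * n := by omega
            rw [h8] at this
            exact this
          rw [hA, Pi.add_apply, hBu, hHu, add_zero] at h1
          exact absurd h1 (by decide)
        by_cases hk : (supp Lam A).card < k₀
        · have h1 := hmain (D₀ \ S) (supp Lam A) hsub hTb hk
          rw [hAT] at h1
          have : 0 ≤ (M * (t⁻¹) ^ k₀) * (lat d).F1 x Lam t (D₀ \ S) A := by positivity
          linarith
        · push Not at hk
          have h2 : M * (lat d).Zp x (D₀ \ S) A ≤ (M * (t⁻¹) ^ k₀) *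
              (lat d).F1 x Lam t (D₀ \ S) A := by
            unfold Gr.F1
            rw [if_pos ha, nin_eq]
            have h3 : (1 : ℝ) ≤ (t⁻¹) ^ k₀ * t ^ (supp Lam A).card := by
              have h4 : t ^ k₀ ≤ t ^ (supp Lam A).card := pow_le_pow_right₀ ht hk
              calc (1 : ℝ) = (t⁻¹) ^ k₀ * t ^ k₀ := by
                    rw [← mul_pow, inv_mul_cancel₀ ht0.ne', one_pow]
                _ ≤ _ := mul_le_mul_of_nonneg_left h4 (by positivity)
            have h5 := Zp_le_zero hx hx1 (D₀ \ S) A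
            have h6 : 0 ≤ (lat d).Zp x (D₀ \ S) 0 := Z_nonneg hx _ _
            calc M * (lat d).Zp x (D₀ \ S) A ≤ M * (1 * (lat d).Zp x (D₀ \ S) 0) := by
                  rw [one_mul]; exact mul_le_mul_of_nonneg_left h5 hM
              _ ≤ M * (((t⁻¹) ^ k₀ * t ^ (supp Lam A).card) * (lat d).Zp x (D₀ \ S) 0) :=
                  mul_le_mul_of_nonneg_left (mul_le_mul_of_nonneg_right h3 h6) hM
              _ = _ := by ring
          have : 0 ≤ δ₁ * (lat d).Zp x (D₀ \ S) A := mul_nonneg hδ₁ hZ0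
          linarith
      · rw [ha, mul_zero] at hEM
        rw [ha, mul_zero, zero_add]
        have : 0 ≤ (M * (t⁻¹) ^ k₀) * (lat d).F1 x Lam t (D₀ \ S) A := by positivity
        linarith
    have hxp : 0 ≤ x ^ H.card := pow_nonneg hx _
    calc x ^ H.card * (lat d).EZ x (D₀ \ S) A G ≤ x ^ H.card * (δ₁ * (lat d).Zp x (D₀ \ S) A +
        (M * (t⁻¹) ^ k₀) * (lat d).F1 x Lam t (D₀ \ S) A) := mul_le_mul_of_nonneg_left hkey hxp
      _ = _ := by ring
  have h1 := DT.sum_le_sum Tr ∅ ∅ hleaf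
  rw [Gr.EZ_tree D₀ B G Tr hval, DT.sum_add, DT.sum_mul, DT.sum_mul,
    Gr.EZ_tree D₀ B (fun _ => (1 : ℝ)) Tr hval, Gr.EZ_one,
    Gr.sum_eq_wsum 1 ((lat d).F1 x Lam t) D₀ B Tr ∅ ∅ hval le_rfl] at h1
  rw [Finset.card_empty, Finset.sdiff_empty, Gr.bdS_empty, add_zero, pow_zero, pow_zero, one_mul,
    one_mul] at h1
  have hBout : ∀ u, B u = 1 → u ∉ Lam := by
    intro u hu hu'
    have := (hB u (by rw [hu]; decide)).2
    exact this (box_mono (by omega) hu')
  have h2 := Gr.explore1_bound (G := lat d) hx hx1 Lam ht D₀.card D₀ B (supp (box d (16 * n)) B) (by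
      intro u _
      rw [mem_supp]
      exact ⟨fun hu => ⟨(hB u (by rw [hu]; decide)).1, hu⟩, fun hu => hu.2⟩) (by
      intro u hu
      exact hBout u (mem_supp.1 hu).2)
  have hnin : Gr.nin Lam B = 0 := by
    rw [nin_eq, Finset.card_eq_zero, Finset.eq_empty_iff_forall_notMem]
    intro u hu
    exact hBout u (mem_supp.1 hu).2 (mem_supp.1 hu).1
  rw [hnin, pow_zero, one_mul] at h2
  have hc : 0 ≤ M * (t⁻¹) ^ k₀ := by positivity
  have h3 := mul_le_mul_of_nonneg_left h2 hc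
  linarith

end Pool.Agent.LoopO1
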