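import Pool.Agent.LoopO1_f0ab88.StageOneApp

/-!
# The first stage: choice of the constants
-/

open Finset

set_option linter.unusedSectionVars false
set_option linter.unusedVariables false

namespace Pool.Agent.LoopO1

variable {d : ℕ}

lemma card_box (n : ℕ) : (box d n).card = (2 * n + 1) ^ d := by
  unfold box
  rw [Fintype.card_piFinset]
  simp only [Int.card_Icc, Finset.prod_const, Finset.card_univ, Fintype.card_fin]
  congr 1
  omega

namespace HasDecay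

variable {x C ρ : ℝ} (h : HasDecay d x C ρ)

include h

lemma cell_lower {q n : ℕ} (hq1 : 1 ≤ q) (hq : ρ ^ (4 * q) ≤ x ^ d) {J : Finset (Vtx d)}
    (hJ : J ⊆ box d (16 * n)) (hJe : Even J.card) :
    (ρ ^ (2 * n)) ^ J.card * (x ^ (2 * d * (16 * n))) ^ ((32 * q + 1) ^ d) ≤
      (lat d).gp x (ebox d (16 * n)) (Gr.ind J) := by
  have hx := h.x_pos.le
  have hx1 := h.x_lt.le
  have hρ := h.ρ_pos.le
  have hρ1 := h.ρ_lt.le
  set s : ℤ := (n / q : ℕ) + 1 with hs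
  have hs0 : 0 < s := by positivity
  have hns : (n : ℤ) ≤ q * s := by
    have h1 : n < q * (n / q + 1) := Nat.lt_mul_div_succ n hq1
    have h2 : ((n : ℕ) : ℤ) < ((q * (n / q + 1) : ℕ) : ℤ) := by exact_mod_cast h1
    rw [hs]
    push_cast at h2 ⊢
    linarith
  set cell : Vtx d → Vtx d := fun u i => (u i + 16 * n) / s with hcell
  set cells : Finset (Vtx d) := Fintype.piFinset fun _ => Finset.Icc (0 : ℤ) (32 * q) with hcells
  have hcard : cells.card = (32 * q + 1) ^ d := by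
    rw [hcells, Fintype.card_piFinset]
    simp only [Int.card_Icc, Finset.prod_const, Finset.card_univ, Fintype.card_fin]
    congr 1
  rw [← hcard]
  refine Gr.gp_cell_ge (G := lat d) hx hx1 (ebox d (16 * n)) (pow_nonneg hρ _)
    (pow_le_one₀ hρ hρ1) (pow_nonneg hx _) (pow_le_one₀ hx hx1) cell cells (box d (16 * n)) ?_ ?_ ?_
    J.card J le_rfl hJ hJe
  · intro u hu
    rw [hcells, Fintype.mem_piFinset]
    intro i
    have h1 := mem_box.1 hu i
    push_cast at h1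
    rw [Finset.mem_Icc]
    constructor
    · exact Int.ediv_nonneg (by linarith) hs0.le
    · have h2 : u i + 16 * n ≤ 32 * q * s := by nlinarith
      calc (u i + 16 * n) / s ≤ (32 * q * s) / s := Int.ediv_le_ediv hs0 h2
        _ = 32 * q := Int.mul_ediv_cancel _ hs0.ne'
  · intro u hu v hv huv
    have h1 : nrm (u - v) ≤ d * (n / q) := by
      unfold nrm
      have : ∀ i ∈ (Finset.univ : Finset (Fin d)), ((u - v) i).natAbs ≤ n / q := by
        intro i _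
        have h2 : (u i + 16 * n) / s = (v i + 16 * n) / s := congrFun huv i
        have h3 := Int.emod_add_mul_ediv (u i + 16 * n) s
        have h4 := Int.emod_add_mul_ediv (v i + 16 * n) s
        have h5 := Int.emod_nonneg (u i + 16 * n) hs0.ne'
        have h6 := Int.emod_lt_of_pos (u i + 16 * n) hs0
        have h7 := Int.emod_nonneg (v i + 16 * n) hs0.ne'
        have h8 := Int.emod_lt_of_pos (v i + 16 * n) hs0
        rw [h2] at h3
        rw [Pi.sub_apply]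
        have h9 : u i - v i = (u i + 16 * n) % s - (v i + 16 * n) % s := by linarith
        rw [h9]
        omega
      refine (Finset.sum_le_card_nsmul _ _ _ this).trans_eq ?_
      rw [Finset.card_univ, Fintype.card_fin, smul_eq_mul]
    have h2 : x ^ (d * (n / q)) ≤ (lat d).tp x (ebox d (16 * n)) u v := by
      refine tp_rect' hx hx1 (fun _ => -((16 * n : ℕ) : ℤ)) (fun _ => ((16 * n : ℕ) : ℤ)) _ ?_ h1
        (mem_box.1 hu) (mem_box.1 hv)
      intro e he he'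
      exact mem_ebox.2 ⟨mem_box.2 he, mem_box.2 he'⟩
    refine le_trans ?_ h2
    rw [← pow_mul, pow_mul x]
    have h3 : 4 * q * (n / q) ≤ 2 * n * 2 := by
      have := Nat.mul_div_le n q
      nlinarith
    calc ρ ^ (2 * n * 2) ≤ ρ ^ (4 * q * (n / q)) := pow_le_pow_of_le_one hρ hρ1 h3
      _ = (ρ ^ (4 * q)) ^ (n / q) := by rw [pow_mul]
      _ ≤ _ := pow_le_pow_left₀ (pow_nonneg hρ _) hq _
  · intro u hu v hv
    exact tp_box hx hx1 le_rfl hu hv

lemma gam_le {n : ℕ} (hn : 1 ≤ n) (D : Finset (Edg d)) {b : Vtx d} (hb : b ∉ box d (16 * n - 1)) :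
    (lat d).gam x (box d (8 * n)) D b ≤ (2 * (8 * n) + 1 : ℕ) ^ d * (C * ρ ^ (8 * n)) := by
  unfold Gr.gam
  have h1 : ∀ z ∈ box d (8 * n), (lat d).tp x D b z ≤ C * ρ ^ (8 * n) := by
    intro z hz
    refine (h.bound D b z).trans ?_
    refine mul_le_mul_of_nonneg_left ?_ (zero_le_one.trans h.C_pos)
    refine pow_le_pow_of_le_one h.ρ_pos.le h.ρ_lt.le ?_
    obtain ⟨i, s, hs, hi⟩ := notMem_box hb
    have h2 := mem_box.1 hz i
    have h3 := natAbs_le_nrm (b - z) i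
    rw [Pi.sub_apply] at h3
    rcases hs with rfl | rfl <;> omega
  refine (Finset.sum_le_card_nsmul _ _ _ h1).trans_eq ?_
  rw [card_box, nsmul_eq_mul]
  push_cast
  ring

/-- **The first stage.** -/
theorem stage_one : ∃ k₀ : ℕ, ∀ δ : ℝ, 0 < δ → ∃ n₀ : ℕ, 1 ≤ n₀ ∧ ∀ n, n₀ ≤ n →
    ∀ B : Vtx d → ZMod 2, BdSrc d (16 * n) B → ∀ (G : Finset (Edg d) → ℝ) (M δ₁ : ℝ), 0 ≤ M →
      0 ≤ δ₁ → (∀ η, G η ≤ M) → (∀ η, G η = G (η ∩ ebox d (8 * n))) →
      (∀ (D : Finset (Edg d)) (T : Finset (Vtx d)), ebox d (8 * n) ⊆ D →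
        (∀ u ∈ T, u ∈ box d (8 * n) ∧ u ∉ box d (8 * n - 1)) → T.card < k₀ →
        (lat d).EZ x D (Gr.ind T) G ≤ δ₁ * (lat d).Zp x D (Gr.ind T)) →
      (lat d).EZ x (ebox d (16 * n)) B G ≤ (δ₁ + M * δ) * (lat d).Zp x (ebox d (16 * n)) B := by
  have hx := h.x_pos.le
  have hx1 := h.x_lt.le
  have hρ := h.ρ_pos.le
  have hρ0 := h.ρ_pos
  have hρ1 := h.ρ_lt.le
  -- choice of `q`
  obtain ⟨q', hq'⟩ := exists_pow_lt_of_lt_one (pow_pos h.x_pos d) h.ρ_lt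
  set q := q' + 1 with hq
  have hqx : ρ ^ (4 * q) ≤ x ^ d :=
    (pow_le_pow_of_le_one hρ hρ1 (by omega)).trans hq'.le
  set Mc := (32 * q + 1) ^ d with hMc
  obtain ⟨k₀, hk₀⟩ := exists_pow_lt_of_lt_one
    (show (0 : ℝ) < x ^ (2 * d * 16 * Mc) / 2 from div_pos (pow_pos h.x_pos _) two_pos) h.ρ_lt
  refine ⟨k₀, fun δ hδ => ?_⟩
  -- choice of `n₀`
  have e1 : ∀ᶠ n : ℕ in Filter.atTop, Real.exp 1 * (1 / 2 : ℝ) ^ n < δ := by
    have : Filter.Tendsto (fun n : ℕ => Real.exp 1 * (1 / 2 : ℝ) ^ n) Filter.atTop (nhds 0) := by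
      have := (tendsto_pow_atTop_nhds_zero_of_lt_one (r := (1 / 2 : ℝ)) (by norm_num)
        (by norm_num)).const_mul (Real.exp 1)
      rwa [mul_zero] at this
    exact this.eventually (gt_mem_nhds hδ)
  have e2 : ∀ᶠ n : ℕ in Filter.atTop, (33 : ℝ) ^ (2 * d) * C * ((n : ℝ) ^ (2 * d) * (ρ ^ 4) ^ n) < 1 := by
    have h1 : |ρ ^ 4| < 1 := by
      rw [abs_of_nonneg (pow_nonneg hρ _)]
      exact pow_lt_one₀ hρ h.ρ_lt (by norm_num)
    have := (tendsto_pow_const_mul_const_pow_of_abs_lt_one (2 * d) h1).const_mul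
      ((33 : ℝ) ^ (2 * d) * C)
    rw [mul_zero] at this
    exact this.eventually (gt_mem_nhds one_pos)
  obtain ⟨n₀, hn₀⟩ := Filter.eventually_atTop.1 (e1.and e2)
  refine ⟨n₀ + 1, by omega, fun n hn B hB G M δ₁ hM hδ₁ hGM hG hmain => ?_⟩
  obtain ⟨hn1, hn2⟩ := hn₀ n (by omega)
  have hn0 : 1 ≤ n := by omega
  set D₀ := ebox d (16 * n) with hD₀
  set SB := supp (box d (16 * n)) B with hSB
  have hBS : Gr.ind SB = B := ind_supp fun u hu => (hB u (by rw [hu]; decide)).1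
  have hSBbox : SB ⊆ box d (16 * n) := fun u hu => (mem_supp.1 hu).1
  by_cases hodd : Odd SB.card
  · have hZ0 : (lat d).Zp x D₀ B = 0 := by rw [← hBS]; exact Gr.Zp_ind_odd hodd _
    rw [hZ0, mul_zero]
    have := Gr.EZ_le (G := lat d) hx D₀ B (F := G) (F' := fun _ => M) fun η _ => hGM η
    rw [Gr.EZ_const, hZ0, mul_zero] at this
    exact this
  have heven : Even SB.card := Nat.not_odd_iff_even.1 hodd
  set t : ℝ := (ρ ^ (2 * n))⁻¹ with ht
  have ht1 : 1 ≤ t := (one_le_inv₀ (pow_pos hρ0 _)).2 (pow_le_one₀ hρ hρ1)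
  have ht0 : 0 < t := zero_lt_one.trans_le ht1
  have hcore := stage_one_core hx hx1 hn0 hB hM hδ₁ hGM hG hmain ht1
  set ε : ℝ := (2 * (8 * n) + 1 : ℕ) ^ d * C * ρ ^ (4 * n) with hε
  have hC0 : 0 < C := zero_lt_one.trans_le h.C_pos
  have hε0 : 0 ≤ ε := by positivity
  set κ : ℝ := (x ^ (2 * d * (16 * n))) ^ Mc with hκ
  have hκ0 : 0 < κ := pow_pos (pow_pos h.x_pos _) _
  have hpot := Gr.Pot_le' (G := lat d) hx hx1 (box d (8 * n)) (t := t) (a := ρ ^ (2 * n)) (κ := κ)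
    (ε := ε) ht0.le (pow_pos hρ0 _) hκ0 hε0 D₀ SB heven
    (fun J hJ hJe => h.cell_lower (by omega) hqx (hJ.trans hSBbox) hJe) (by
      intro b hb
      have hb' : b ∉ box d (16 * n - 1) := (hB b (by rw [(mem_supp.1 hb).2]; decide)).2
      have h1 := mul_le_mul_of_nonneg_left (h.gam_le hn0 D₀ hb') ht0.le
      refine h1.trans_eq ?_
      rw [ht, hε]
      have h2 : ρ ^ (8 * n) = ρ ^ (2 * n) * (ρ ^ (4 * n) * ρ ^ (2 * n)) := by
        rw [← pow_add, ← pow_add]; congr 1; ring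
      rw [h2]
      have h3 : ρ ^ (2 * n) ≠ 0 := (pow_pos hρ0 _).ne'
      field_simp)
  have hεS : (1 + ε) ^ SB.card ≤ Real.exp 1 := by
    have h1 : (1 + ε) ^ SB.card ≤ Real.exp (ε * SB.card) := by
      have h2 : 1 + ε ≤ Real.exp ε := by rw [add_comm]; exact Real.add_one_le_exp ε
      calc (1 + ε) ^ SB.card ≤ (Real.exp ε) ^ SB.card := pow_le_pow_left₀ (by positivity) h2 _
        _ = Real.exp (ε * SB.card) := by rw [← Real.exp_nat_mul]; ring_nf
    refine h1.trans (Real.exp_le_exp.2 ?_)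
    have h3 : (SB.card : ℝ) ≤ (33 * n : ℝ) ^ d := by
      have h4 : SB.card ≤ (2 * (16 * n) + 1) ^ d := by
        rw [← card_box]; exact Finset.card_le_card hSBbox
      have h5 : (SB.card : ℝ) ≤ ((2 * (16 * n) + 1 : ℕ) : ℝ) ^ d := by exact_mod_cast h4
      refine h5.trans (pow_le_pow_left₀ (by positivity) ?_ _)
      push_cast
      have : (1 : ℝ) ≤ n := by exact_mod_cast hn0
      linarith
    have h6 : ε ≤ (33 * n : ℝ) ^ d * C * ρ ^ (4 * n) := by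
      rw [hε]
      refine mul_le_mul_of_nonneg_right (mul_le_mul_of_nonneg_right ?_ hC0.le) (pow_nonneg hρ _)
      refine pow_le_pow_left₀ (by positivity) ?_ _
      push_cast
      have : (1 : ℝ) ≤ n := by exact_mod_cast hn0
      linarith
    calc ε * SB.card ≤ ((33 * n : ℝ) ^ d * C * ρ ^ (4 * n)) * (33 * n : ℝ) ^ d :=
          mul_le_mul h6 h3 (Nat.cast_nonneg _) (by positivity)
      _ = (33 : ℝ) ^ (2 * d) * C * ((n : ℝ) ^ (2 * d) * (ρ ^ 4) ^ n) := by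
          rw [← pow_mul ρ 4 n, two_mul d, pow_add, pow_add, mul_pow]
          ring
      _ ≤ 1 := hn2.le
  have hZ : (lat d).Zp x D₀ B = (lat d).gp x D₀ (Gr.ind SB) * (lat d).Zp x D₀ 0 := by
    rw [hBS]; exact Zp_eq_gp x hx D₀ B
  have hZ0 : 0 ≤ (lat d).Zp x D₀ 0 := Z_nonneg hx _ _
  have hZB : 0 ≤ (lat d).Zp x D₀ B := Z_nonneg hx _ _
  have hfin : (t⁻¹) ^ k₀ * ((lat d).Pot x (box d (8 * n)) t D₀ SB * (lat d).Zp x D₀ 0)
      ≤ δ * (lat d).Zp x D₀ B := by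
    have h1 : (lat d).Pot x (box d (8 * n)) t D₀ SB * (lat d).Zp x D₀ 0
        ≤ κ⁻¹ * Real.exp 1 * (lat d).Zp x D₀ B := by
      calc (lat d).Pot x (box d (8 * n)) t D₀ SB * (lat d).Zp x D₀ 0
          ≤ (κ⁻¹ * (1 + ε) ^ SB.card * (lat d).gp x D₀ (Gr.ind SB)) * (lat d).Zp x D₀ 0 :=
            mul_le_mul_of_nonneg_right hpot hZ0
        _ = κ⁻¹ * (1 + ε) ^ SB.card * (lat d).Zp x D₀ B := by rw [hZ]; ring
        _ ≤ κ⁻¹ * Real.exp 1 * (lat d).Zp x D₀ B :=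
            mul_le_mul_of_nonneg_right (mul_le_mul_of_nonneg_left hεS (inv_pos.2 hκ0).le) hZB
    have h2 : (t⁻¹) ^ k₀ * κ⁻¹ ≤ (1 / 2 : ℝ) ^ n := by
      rw [ht, inv_inv, ← pow_mul, mul_inv_le_iff₀ hκ0, hκ]
      have h3 : ρ ^ (2 * n * k₀) ≤ (x ^ (2 * d * 16 * Mc) / 2) ^ n := by
        calc ρ ^ (2 * n * k₀) ≤ ρ ^ (k₀ * n) :=
              pow_le_pow_of_le_one hρ hρ1 (by nlinarith)
          _ = (ρ ^ k₀) ^ n := by rw [pow_mul]
          _ ≤ _ := pow_le_pow_left₀ (pow_nonneg hρ _) hk₀.le _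
      refine h3.trans_eq ?_
      rw [div_eq_mul_inv, mul_pow, ← pow_mul, ← pow_mul, one_div, mul_comm]
      congr 2
      ring
    have h4 : 0 ≤ (t⁻¹) ^ k₀ := by positivity
    calc (t⁻¹) ^ k₀ * ((lat d).Pot x (box d (8 * n)) t D₀ SB * (lat d).Zp x D₀ 0)
        ≤ (t⁻¹) ^ k₀ * (κ⁻¹ * Real.exp 1 * (lat d).Zp x D₀ B) := mul_le_mul_of_nonneg_left h1 h4
      _ = ((t⁻¹) ^ k₀ * κ⁻¹) * (Real.exp 1 * (lat d).Zp x D₀ B) := by ring
      _ ≤ (1 / 2 : ℝ) ^ n * (Real.exp 1 * (lat d).Zp x D₀ B) :=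
          mul_le_mul_of_nonneg_right h2 (by positivity)
      _ = (Real.exp 1 * (1 / 2 : ℝ) ^ n) * (lat d).Zp x D₀ B := by ring
      _ ≤ δ * (lat d).Zp x D₀ B := mul_le_mul_of_nonneg_right hn1.le hZB
  have h5 := mul_le_mul_of_nonneg_left hfin hM
  calc (lat d).EZ x D₀ B G ≤ δ₁ * (lat d).Zp x D₀ B + M * (t⁻¹) ^ k₀ *
        ((lat d).Pot x (box d (8 * n)) t D₀ SB * (lat d).Zp x D₀ 0) := hcore
    _ = δ₁ * (lat d).Zp x D₀ B + M * ((t⁻¹) ^ k₀ *
        ((lat d).Pot x (box d (8 * n)) t D₀ SB * (lat d).Zp x D₀ 0)) := by ring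
    _ ≤ δ₁ * (lat d).Zp x D₀ B + M * (δ * (lat d).Zp x D₀ B) := by linarith
    _ = _ := by ring

end HasDecay

end Pool.Agent.LoopO1
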