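import Pool.Agent.LoopO1_f0ab88.TreeTwo

/-!
# The second stage: quasi-invariance under unit shifts
-/

open Finset

set_option linter.unusedSectionVars false
set_option linter.unusedVariables false

namespace Pool.Agent.LoopO1

variable {d : ℕ}

namespace HasDecay

variable {x C ρ : ℝ} (h : HasDecay d x C ρ)

include h

/-- Choice of the radius of the cut. -/
lemma exists_radius {n L : ℕ} (hn : 1 ≤ n) (D : Finset (Edg d)) (A : Vtx d → ZMod 2) (m : ℕ)
    (hD : ebox d m ⊆ D) :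
    ∃ r, 2 * n ≤ r ∧ r < 4 * n ∧
      (tree2 m D A).sum (fun S H => if S.card ≤ L * n then h.cost r S * lw x D A S H else 0) ∅ ∅
        ≤ (2 + h.Cc) * L / 2 * (lat d).Zp x D A := by
  classical
  have hx := h.x_pos.le
  have hCc := h.Cc_nonneg
  have hn0 : (0 : ℝ) < n := by exact_mod_cast hn
  by_contra hcon
  push Not at hcon
  have h1 : ∑ r ∈ Finset.range (4 * n), (tree2 m D A).sum
      (fun S H => if S.card ≤ L * n then h.cost r S * lw x D A S H else 0) ∅ ∅
      ≤ (2 + h.Cc) * (L * n) * (lat d).Zp x D A := by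
    rw [← DT.sum_finset, ← tree2_sum_lw hD A, ← DT.sum_mul]
    refine DT.sum_le_sum _ _ _ (DT.All.of_forall (fun S H => ?_) _ _ _)
    have hl := lw_nonneg hx D A S H
    by_cases hc : S.card ≤ L * n
    · simp only [if_pos hc]
      rw [← Finset.sum_mul]
      refine mul_le_mul_of_nonneg_right ?_ hl
      refine (h.sum_cost_le (4 * n) S).trans ?_
      refine mul_le_mul_of_nonneg_left ?_ (by linarith)
      exact_mod_cast hc
    · simp only [if_neg hc]
      rw [Finset.sum_const_zero]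
      positivity
  have h2 : ∀ r, 0 ≤ (tree2 m D A).sum
      (fun S H => if S.card ≤ L * n then h.cost r S * lw x D A S H else 0) ∅ ∅ := by
    intro r
    refine DT.sum_nonneg _ _ _ (DT.All.of_forall (fun S H => ?_) _ _ _)
    have hl := lw_nonneg hx D A S H
    have hc := h.cost_nonneg r S
    split_ifs
    · positivity
    · exact le_rfl
  have h3 : ∑ r ∈ Finset.Ico (2 * n) (4 * n), (tree2 m D A).sum
      (fun S H => if S.card ≤ L * n then h.cost r S * lw x D A S H else 0) ∅ ∅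
      ≤ ∑ r ∈ Finset.range (4 * n), (tree2 m D A).sum
      (fun S H => if S.card ≤ L * n then h.cost r S * lw x D A S H else 0) ∅ ∅ := by
    refine Finset.sum_le_sum_of_subset_of_nonneg ?_ fun r _ _ => h2 r
    intro r hr
    rw [Finset.mem_Ico] at hr
    exact Finset.mem_range.2 hr.2
  have h4 : ∑ r ∈ Finset.Ico (2 * n) (4 * n), ((2 + h.Cc) * L / 2 * (lat d).Zp x D A)
      < ∑ r ∈ Finset.Ico (2 * n) (4 * n), (tree2 m D A).sum
      (fun S H => if S.card ≤ L * n then h.cost r S * lw x D A S H else 0) ∅ ∅ := by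
    refine Finset.sum_lt_sum_of_nonempty ?_ fun r hr => ?_
    · rw [Finset.nonempty_Ico]; omega
    · rw [Finset.mem_Ico] at hr
      exact hcon r hr.1 hr.2
  rw [Finset.sum_const, Nat.card_Ico, nsmul_eq_mul] at h4
  have h5 : ((4 * n - 2 * n : ℕ) : ℝ) = 2 * n := by
    have : 4 * n - 2 * n = 2 * n := by omega
    rw [this]; push_cast; ring
  rw [h5] at h4
  have h6 := h4.trans_le (h3.trans h1)
  have h7 : 2 * (n : ℝ) * ((2 + h.Cc) * L / 2 * (lat d).Zp x D A)
      = (2 + h.Cc) * (L * n) * (lat d).Zp x D A := by ring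
  rw [h7] at h6
  exact lt_irrefl _ h6

/-- Geometric smallness. -/
lemma small_eventually (L : ℕ) : ∃ n₀ : ℕ, ∀ n, n₀ ≤ n →
    ((L * n : ℕ) : ℝ) * (h.Cc * h.sg ^ (4 * n)) ≤ 1 := by
  have h1 : |h.sg ^ 4| < 1 := by
    rw [abs_of_nonneg (pow_nonneg h.sg_pos.le _)]
    exact pow_lt_one₀ h.sg_pos.le h.sg_lt (by norm_num)
  have h2 := (tendsto_pow_const_mul_const_pow_of_abs_lt_one 1 h1).const_mul ((L : ℝ) * h.Cc)
  rw [mul_zero] at h2
  obtain ⟨n₀, hn₀⟩ := Filter.eventually_atTop.1 (h2.eventually (gt_mem_nhds one_pos))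
  refine ⟨n₀, fun n hn => ?_⟩
  have h3 := (hn₀ n hn).le
  rw [pow_one, ← pow_mul] at h3
  push_cast
  calc (L : ℝ) * n * (h.Cc * h.sg ^ (4 * n)) = L * h.Cc * (n * h.sg ^ (4 * n)) := by ring
    _ ≤ 1 := h3

/-- The constant of the quasi-invariance. -/
noncomputable def Cq (_ : HasDecay d x C ρ) (K : ℕ) : ℝ :=
  (Real.exp 1 * Real.exp K * (x⁻¹) ^ (22 * K)) * 2 ^ K

lemma Cq_nonneg (K : ℕ) : 0 ≤ h.Cq K := by
  unfold Cq
  have := h.x_pos
  positivity

/-- **The shift at a good radius.** -/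
theorem shift_main {n m L K r : ℕ} {δ : ℝ} (hn : 5 ≤ n) (hm : m ≤ 2 * n) (hr1 : 2 * n ≤ r)
    (hr2 : r < 4 * n) (hsmall : ((L * n : ℕ) : ℝ) * (h.Cc * h.sg ^ (4 * n)) ≤ 1)
    {D : Finset (Edg d)} {A : Vtx d → ZMod 2} (hD : ebox d (8 * n) ⊆ D)
    (hA : ∀ p ∈ box d (8 * n - 1), A p = 0) (Φ : Set (Finset (Edg d))) {t : Vtx d}
    (ht : nrm t ≤ 1) :
    (lat d).EZ x D A (fun η => Φ.indicator (fun _ => (1 : ℝ)) (η ∩ ebox d m)) ≤
      h.Cq K * (lat d).EZ x D A
        (fun η => Φ.indicator (fun _ => (1 : ℝ)) (η.image (sh (-t)) ∩ ebox d m)) +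
      (tree2 m D A).sum (fun S H => if L * n < S.card then lw x D A S H else 0) ∅ ∅ +
      (tree2 m D A).sum (fun S H => if S.card ≤ L * n ∧ (K : ℝ) < h.cost r S then
        lw x D A S H else 0) ∅ ∅ := by
  classical
  have hx := h.x_pos.le
  have hx1 := h.x_lt.le
  have hDm : ebox d m ⊆ D := (ebox_mono (by omega)).trans hD
  have hmr : ebox d m ⊆ ebox d r := ebox_mono (by omega)
  rw [tree2_sum_local hDm A (fun η => Φ.indicator (fun _ => (1 : ℝ)) η)]
  set Tr := tree2 m D A with hTr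
  have hval : Tr.Valid D ∅ := tree2_valid hDm A
  set I := ebox d r with hI
  set O := D \ ebox d (r + 2) with hO
  set R := ebox d (r + 2) \ ebox d r with hR
  set good : Finset (Edg d) → Prop := fun S => S.card ≤ L * n ∧ h.cost r S ≤ K with hgoodd
  have hst := DT.Valid.all Tr ∅ ∅ hval (Finset.empty_subset _)
  have hshI : ∀ e ∈ I, sh t e ∈ ebox d (r + 1) := fun e he => ebox_sh ht he
  have hF1 : ∀ H, 0 ≤ Φ.indicator (fun _ => (1 : ℝ)) H := fun H =>
    Set.indicator_nonneg (fun _ _ => zero_le_one) _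
  have hF2 : ∀ H, Φ.indicator (fun _ => (1 : ℝ)) H ≤ 1 := fun H =>
    Set.indicator_le_self' (fun _ _ => zero_le_one) _
  -- number of buffer edges at a good leaf
  have hRcard : ∀ S, h.cost r S ≤ K → (S ∩ R).card ≤ K := by
    intro S hS
    have h1 : ((S ∩ R).card : ℝ) ≤ K := by
      refine le_trans ?_ hS
      unfold cost
      have := Finset.sum_nonneg (s := S ∩ ebox d r) (f := fun e =>
        ∑ e' ∈ S \ ebox d (r + 2), h.Kr e e') fun e _ =>
          Finset.sum_nonneg fun e' _ => h.Kr_nonneg e e'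
      linarith
    exact_mod_cast h1
  have habs := Gr.shift_abs (G := lat d) (x := x) hx D A Tr hval R I O
    (by
      intro e he heR
      by_cases h1 : e ∈ ebox d (r + 2)
      · left
        by_contra h2
        exact heR (Finset.mem_sdiff.2 ⟨h1, h2⟩)
      · exact Or.inr (Finset.mem_sdiff.2 ⟨he, h1⟩))
    (by
      rw [Finset.disjoint_left]
      intro e he he'
      exact (Finset.mem_sdiff.1 he').2 (ebox_mono (by omega) he))
    (sh t) (sh_inj t)
    (fun e he => hD (ebox_mono (by omega) (hshI e he)))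
    (fun e he he' => (Finset.mem_sdiff.1 he').2 (ebox_mono (by omega) (hshI e he)))
    K (Real.exp 1 * Real.exp K * (x⁻¹) ^ (22 * K)) (by have := h.x_pos; positivity) good
    (by
      refine DT.All.imp ?_ Tr ∅ ∅ (DT.All.and Tr ∅ ∅ hst (tree2_resolved (x := x) hDm A))
      rintro S H ⟨⟨-, -, hHS, hSD, -⟩, hres⟩ hg hSR
      rw [Finset.empty_union] at hSD
      refine h.leaf_ratio ht (n := 8 * n - 1) (r := r) (by omega) (by omega)
        ((ebox_mono (by omega)).trans hD) (by omega)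
        (fun p hp => hA p (box_mono (by omega) hp)) hHS hSD hres hg.2 ?_
      refine le_trans ?_ hsmall
      refine mul_le_mul ?_ ?_ (mul_nonneg h.Cc_nonneg (pow_nonneg h.sg_pos.le _))
        (Nat.cast_nonneg _)
      · exact_mod_cast hg.1
      · refine mul_le_mul_of_nonneg_left ?_ h.Cc_nonneg
        exact pow_le_pow_of_le_one h.sg_pos.le h.sg_lt.le (by omega))
    (fun H => Φ.indicator (fun _ => (1 : ℝ)) (H ∩ ebox d m))
    (fun η => Φ.indicator (fun _ => (1 : ℝ)) (η.image (sh (-t)) ∩ ebox d m))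
    (fun H => hF1 _) (fun η => hF1 _)
    (by
      refine DT.All.imp ?_ Tr ∅ ∅ (DT.All.and Tr ∅ ∅ hst (tree2_contains hDm A))
      rintro S H ⟨⟨-, -, hHS, hSD, -⟩, hS⟩ η hη hc
      refine le_of_eq ?_
      congr 1
      ext e
      rw [Finset.mem_inter, Finset.mem_inter, mem_image_sh, neg_neg]
      refine and_congr_left fun hem => ?_
      have heI : e ∈ I := hmr hem
      have hmS : sh t e ∈ Gr.mv (sh t) I O S :=
        Finset.mem_union_right _ (Finset.mem_image_of_mem _ (Finset.mem_inter.2 ⟨hS hem, heI⟩))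
      have e1 : sh t e ∈ η ↔ sh t e ∈ Gr.mv (sh t) I O H := by
        rw [← hc, Finset.mem_inter]
        exact ⟨fun h => ⟨h, hmS⟩, fun h => h.1⟩
      rw [e1]
      unfold Gr.mv
      rw [Finset.mem_union, Finset.mem_inter]
      constructor
      · intro heH
        right
        exact Finset.mem_image_of_mem _ (Finset.mem_inter.2 ⟨heH, heI⟩)
      · rintro (h' | h')
        · exact absurd (ebox_mono (by omega) (hshI e heI)) (Finset.mem_sdiff.1 h'.2).2
        · obtain ⟨b, hb', hbe⟩ := Finset.mem_image.1 h'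
          rw [sh_inj t hbe] at hb'
          exact (Finset.mem_inter.1 hb').1)
  have hsplit : Tr.sum (fun S H => lw x D A S H *
      (fun η => Φ.indicator (fun _ => (1 : ℝ)) η) (H ∩ ebox d m)) ∅ ∅ ≤
      Tr.sum (fun S H => ((if good S ∧ (S ∩ R).card ≤ K then
        x ^ H.card * (lat d).Zp x (D \ S) (A + (lat d).bdS H) *
          (fun H => Φ.indicator (fun _ => (1 : ℝ)) (H ∩ ebox d m)) H else 0) +
        (if L * n < S.card then lw x D A S H else 0)) +
        (if S.card ≤ L * n ∧ (K : ℝ) < h.cost r S then lw x D A S H else 0)) ∅ ∅ := by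
    refine DT.sum_le_sum _ _ _ (DT.All.of_forall (fun S H => ?_) _ _ _)
    have hl := lw_nonneg hx D A S H
    have hf1 := hF1 (H ∩ ebox d m)
    have hf2 := hF2 (H ∩ ebox d m)
    have hle : lw x D A S H * Φ.indicator (fun _ => (1 : ℝ)) (H ∩ ebox d m) ≤ lw x D A S H :=
      mul_le_of_le_one_right hl hf2
    by_cases hc1 : S.card ≤ L * n
    · by_cases hc2 : h.cost r S ≤ K
      · rw [if_pos ⟨⟨hc1, hc2⟩, hRcard S hc2⟩, if_neg (not_lt.2 hc1),
          if_neg (fun h' => absurd h'.2 (not_lt.2 hc2)), add_zero, add_zero]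
        exact le_rfl
      · rw [if_neg (fun h' => hc2 h'.1.2), if_neg (not_lt.2 hc1),
          if_pos ⟨hc1, not_le.1 hc2⟩, zero_add, zero_add]
        exact hle
    · rw [if_neg (fun h' => hc1 h'.1.1), if_pos (not_le.1 hc1),
          if_neg (fun h' => hc1 h'.1), zero_add, add_zero]
      exact hle
  rw [DT.sum_add, DT.sum_add] at hsplit
  refine hsplit.trans ?_
  have hfin : Tr.sum (fun S H => (if good S ∧ (S ∩ R).card ≤ K then
        x ^ H.card * (lat d).Zp x (D \ S) (A + (lat d).bdS H) *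
          (fun H => Φ.indicator (fun _ => (1 : ℝ)) (H ∩ ebox d m)) H else 0)) ∅ ∅
      ≤ h.Cq K * (lat d).EZ x D A
        (fun η => Φ.indicator (fun _ => (1 : ℝ)) (η.image (sh (-t)) ∩ ebox d m)) := by
    refine le_trans (le_of_eq ?_) (habs.trans_eq ?_)
    · refine DT.sum_congr _ _ _ (DT.All.of_forall (fun S H => ?_) _ _ _)
      congr
    · unfold Cq
      ring
  linarith

/-- **Second stage.** -/
theorem stage_two (k₀ : ℕ) : ∀ δ : ℝ, 0 < δ → ∃ K : ℕ, ∀ m : ℕ, ∃ n₀ : ℕ, ∀ n, n₀ ≤ n →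
    ∀ (D : Finset (Edg d)) (T : Finset (Vtx d)), ebox d (8 * n) ⊆ D →
      (∀ u ∈ T, u ∈ box d (8 * n) ∧ u ∉ box d (8 * n - 1)) → T.card < k₀ →
      ∀ (Φ : Set (Finset (Edg d))) (t : Vtx d), nrm t ≤ 1 →
      (lat d).EZ x D (Gr.ind T) (fun η => Φ.indicator (fun _ => (1 : ℝ)) (η ∩ ebox d m)) ≤
      h.Cq K * (lat d).EZ x D (Gr.ind T)
        (fun η => Φ.indicator (fun _ => (1 : ℝ)) (η.image (sh (-t)) ∩ ebox d m)) +
        δ * (lat d).Zp x D (Gr.ind T) := by
  classical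
  have hx := h.x_pos.le
  intro δ hδ
  obtain ⟨L, hL⟩ := h.explore_tail k₀
  obtain ⟨K, hK⟩ := exists_nat_gt ((2 + h.Cc) * L / δ)
  refine ⟨K, fun m => ?_⟩
  obtain ⟨n₁, hn₁⟩ := hL m (δ / 2) (by positivity)
  obtain ⟨n₂, hn₂⟩ := h.small_eventually L
  refine ⟨max (max n₁ n₂) (max 5 m), fun n hn D T hD hT hTk Φ t ht => ?_⟩
  have hn1 : n₁ ≤ n := (le_max_left _ _).trans ((le_max_left _ _).trans hn)
  have hn2 : n₂ ≤ n := (le_max_right _ _).trans ((le_max_left _ _).trans hn)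
  have hn3 : 5 ≤ n := (le_max_left _ _).trans ((le_max_right _ _).trans hn)
  have hn4 : m ≤ n := (le_max_right _ _).trans ((le_max_right _ _).trans hn)
  have hCc := h.Cc_nonneg
  have hF1 : ∀ H, 0 ≤ Φ.indicator (fun _ => (1 : ℝ)) H := fun H =>
    Set.indicator_nonneg (fun _ _ => zero_le_one) _
  have hF2 : ∀ H, Φ.indicator (fun _ => (1 : ℝ)) H ≤ 1 := fun H =>
    Set.indicator_le_self' (fun _ _ => zero_le_one) _
  by_cases hodd : Odd T.card
  · have hZ0 : (lat d).Zp x D (Gr.ind T) = 0 := Gr.Zp_ind_odd hodd _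
    have h1 := Gr.EZ_le (G := lat d) hx D (Gr.ind T)
      (F := fun η => Φ.indicator (fun _ => (1 : ℝ)) (η ∩ ebox d m)) (F' := fun _ => 1)
      fun η _ => hF2 _
    rw [Gr.EZ_one, hZ0] at h1
    have h2 := Gr.EZ_nonneg (G := lat d) hx D (Gr.ind T)
      (F := fun η => Φ.indicator (fun _ => (1 : ℝ)) (η.image (sh (-t)) ∩ ebox d m))
      fun η _ => hF1 _
    have h3 := mul_nonneg (h.Cq_nonneg K) h2
    rw [hZ0, mul_zero]
    linarith
  have heven : Even T.card := Nat.not_odd_iff_even.1 hodd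
  have hTbox : T ⊆ box d (8 * n) := fun u hu => (hT u hu).1
  have hDm : ebox d m ⊆ D := (ebox_mono (by omega)).trans hD
  obtain ⟨r, hr1, hr2, hr⟩ := h.exists_radius (n := n) (L := L) (by omega) D (Gr.ind T) m hDm
  have hmain := h.shift_main (n := n) (m := m) (L := L) (K := K) (r := r) (δ := δ) hn3 (by omega)
    hr1 hr2 (hn₂ n hn2) (D := D) (A := Gr.ind T) hD (by
      intro p hp
      rw [Gr.ind_apply, if_neg]
      intro hpT
      exact (hT p hpT).2 hp) Φ ht
  have htail := hn₁ n hn1 D T hD hTbox hTk heven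
  have hZ0 : 0 ≤ (lat d).Zp x D (Gr.ind T) := Z_nonneg hx _ _
  have hKpos : (0 : ℝ) < K := lt_of_le_of_lt (by positivity) hK
  have hmarkov : (tree2 m D (Gr.ind T)).sum (fun S H => if S.card ≤ L * n ∧ (K : ℝ) < h.cost r S then
        lw x D (Gr.ind T) S H else 0) ∅ ∅ ≤ δ / 2 * (lat d).Zp x D (Gr.ind T) := by
    have h1 : (tree2 m D (Gr.ind T)).sum (fun S H =>
        if S.card ≤ L * n ∧ (K : ℝ) < h.cost r S then lw x D (Gr.ind T) S H else 0) ∅ ∅
        ≤ (tree2 m D (Gr.ind T)).sum (fun S H => (K : ℝ)⁻¹ *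
          (if S.card ≤ L * n then h.cost r S * lw x D (Gr.ind T) S H else 0)) ∅ ∅ := by
      refine DT.sum_le_sum _ _ _ (DT.All.of_forall (fun S H => ?_) _ _ _)
      have hl := lw_nonneg hx D (Gr.ind T) S H
      have hc0 := h.cost_nonneg r S
      by_cases hc1 : S.card ≤ L * n
      · by_cases hc2 : (K : ℝ) < h.cost r S
        · rw [if_pos ⟨hc1, hc2⟩, if_pos hc1]
          have : (1 : ℝ) ≤ (K : ℝ)⁻¹ * h.cost r S := by
            rw [inv_mul_eq_div, le_div_iff₀ hKpos, one_mul]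
            exact hc2.le
          calc lw x D (Gr.ind T) S H = 1 * lw x D (Gr.ind T) S H := (one_mul _).symm
            _ ≤ ((K : ℝ)⁻¹ * h.cost r S) * lw x D (Gr.ind T) S H :=
                mul_le_mul_of_nonneg_right this hl
            _ = _ := by ring
        · rw [if_neg (fun h' => hc2 h'.2), if_pos hc1]
          positivity
      · rw [if_neg (fun h' => hc1 h'.1), if_neg hc1, mul_zero]
    rw [DT.sum_mul] at h1
    refine h1.trans ?_
    have h2 := mul_le_mul_of_nonneg_left hr (inv_nonneg.2 hKpos.le)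
    refine h2.trans ?_
    have h3 : (K : ℝ)⁻¹ * ((2 + h.Cc) * L / 2) ≤ δ / 2 := by
      rw [inv_mul_le_iff₀ hKpos]
      rw [div_lt_iff₀ hδ] at hK
      linarith
    calc (K : ℝ)⁻¹ * ((2 + h.Cc) * L / 2 * (lat d).Zp x D (Gr.ind T))
        = ((K : ℝ)⁻¹ * ((2 + h.Cc) * L / 2)) * (lat d).Zp x D (Gr.ind T) := by ring
      _ ≤ _ := mul_le_mul_of_nonneg_right h3 hZ0
  have hsum : (lat d).EZ x D (Gr.ind T) (fun η => Φ.indicator (fun _ => (1 : ℝ)) (η ∩ ebox d m)) ≤
      h.Cq K * (lat d).EZ x D (Gr.ind T)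
        (fun η => Φ.indicator (fun _ => (1 : ℝ)) (η.image (sh (-t)) ∩ ebox d m)) +
        (δ / 2 * (lat d).Zp x D (Gr.ind T) + δ / 2 * (lat d).Zp x D (Gr.ind T)) := by
    linarith
  refine hsum.trans_eq ?_
  ring

/-- **Quasi-invariance.** -/
theorem fvq (hd : 1 ≤ d) : FVQ d x := by
  have hx := h.x_pos.le
  intro δ hδ
  obtain ⟨k₀, hk₀⟩ := h.stage_one
  obtain ⟨K, hK⟩ := h.stage_two k₀ (δ / 2) (by positivity)
  obtain ⟨n₁, hn₁1, hn₁⟩ := hk₀ (δ / 2) (by positivity)
  refine ⟨h.Cq K, fun m => ?_⟩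
  obtain ⟨n₂, hn₂⟩ := hK m
  set n := max (max n₁ n₂) (m + 1) with hn
  have hn1 : n₁ ≤ n := (le_max_left _ _).trans (le_max_left _ _)
  have hn2 : n₂ ≤ n := (le_max_right _ _).trans (le_max_left _ _)
  have hn3 : m + 1 ≤ n := le_max_right _ _
  refine ⟨16 * n, by omega, fun B hB Φ t ht => ?_⟩
  have hF1 : ∀ H, 0 ≤ Φ.indicator (fun _ => (1 : ℝ)) H := fun H =>
    Set.indicator_nonneg (fun _ _ => zero_le_one) _
  have hF2 : ∀ H, Φ.indicator (fun _ => (1 : ℝ)) H ≤ 1 := fun H =>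
    Set.indicator_le_self' (fun _ _ => zero_le_one) _
  have h1 := hn₁ n hn1 B hB (fun η => Φ.indicator (fun _ => (1 : ℝ)) (η ∩ ebox d m) +
      (-h.Cq K) * Φ.indicator (fun _ => (1 : ℝ)) (η.image (sh (-t)) ∩ ebox d m)) 1 (δ / 2)
    zero_le_one (by positivity) ?_ ?_ ?_
  · rw [Gr.EZ_add, Gr.EZ_mul] at h1
    have h2 : δ / 2 + 1 * (δ / 2) = δ := by ring
    rw [h2] at h1
    linarith
  · intro η
    have h3 := mul_nonneg (h.Cq_nonneg K) (hF1 (η.image (sh (-t)) ∩ ebox d m))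
    have h4 := hF2 (η ∩ ebox d m)
    linarith
  · intro η
    have h5 : η ∩ ebox d m = (η ∩ ebox d (8 * n)) ∩ ebox d m := by
      rw [Finset.inter_assoc, Finset.inter_eq_right.2 (ebox_mono (by omega))]
    have h6 : η.image (sh (-t)) ∩ ebox d m = (η ∩ ebox d (8 * n)).image (sh (-t)) ∩ ebox d m := by
      ext e
      rw [Finset.mem_inter, Finset.mem_inter, mem_image_sh, mem_image_sh, neg_neg, Finset.mem_inter]
      refine and_congr_left fun hem => ?_
      exact ⟨fun h' => ⟨h', ebox_mono (by omega) (ebox_sh ht hem)⟩, fun h' => h'.1⟩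
    rw [← h5, ← h6]
  · intro D T hD hT hTk
    rw [Gr.EZ_add, Gr.EZ_mul]
    have h7 := hn₂ n hn2 D T hD hT hTk Φ t ht
    linarith

end HasDecay

end Pool.Agent.LoopO1
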