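import Pool.Agent.LoopO1_f0ab88.Ratio

/-!
# Decision trees
-/

open Finset

set_option linter.unusedSectionVars false
set_option linter.unusedVariables false

namespace Pool.Agent.LoopO1

/-- A decision tree querying edges: `node e l r` queries `e` and continues with `l` if `e` is closed
and with `r` if `e` is open. -/
inductive DT (E : Type*)
  | leaf : DT E
  | node : E → DT E → DT E → DT E

namespace DT

variable {E : Type*} [DecidableEq E]

/-- The sum of `F S H` over the leaves, `S` being the set of queried edges and `H` the set of open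
ones. -/
noncomputable def sum (F : Finset E → Finset E → ℝ) : DT E → Finset E → Finset E → ℝ
  | leaf, S, H => F S H
  | node e l r, S, H => l.sum F (insert e S) H + r.sum F (insert e S) (insert e H)

/-- All queries are in `D` and none is repeated (`S` is the set of earlier queries). -/
def Valid (D : Finset E) : DT E → Finset E → Prop
  | leaf, _ => True
  | node e l r, S => e ∈ D ∧ e ∉ S ∧ l.Valid D (insert e S) ∧ r.Valid D (insert e S)

/-- `P` holds at all leaves. -/
def All (P : Finset E → Finset E → Prop) : DT E → Finset E → Finset E → Prop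
  | leaf, S, H => P S H
  | node e l r, S, H => l.All P (insert e S) H ∧ r.All P (insert e S) (insert e H)

lemma All.imp {P Q : Finset E → Finset E → Prop} (h : ∀ S H, P S H → Q S H) :
    ∀ (t : DT E) (S H : Finset E), t.All P S H → t.All Q S H
  | leaf, S, H, ht => h S H ht
  | node e l r, S, H, ht => ⟨All.imp h l _ _ ht.1, All.imp h r _ _ ht.2⟩

lemma All.and {P Q : Finset E → Finset E → Prop} :
    ∀ (t : DT E) (S H : Finset E), t.All P S H → t.All Q S H →
      t.All (fun S H => P S H ∧ Q S H) S H
  | leaf, S, H, h1, h2 => ⟨h1, h2⟩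
  | node e l r, S, H, h1, h2 => ⟨All.and l _ _ h1.1 h2.1, All.and r _ _ h1.2 h2.2⟩

lemma sum_le_sum {F F' : Finset E → Finset E → ℝ} : ∀ (t : DT E) (S H : Finset E),
    t.All (fun S H => F S H ≤ F' S H) S H → t.sum F S H ≤ t.sum F' S H
  | leaf, S, H, h => h
  | node e l r, S, H, h => add_le_add (sum_le_sum l _ _ h.1) (sum_le_sum r _ _ h.2)

lemma sum_congr {F F' : Finset E → Finset E → ℝ} : ∀ (t : DT E) (S H : Finset E),
    t.All (fun S H => F S H = F' S H) S H → t.sum F S H = t.sum F' S H
  | leaf, S, H, h => h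
  | node e l r, S, H, h => by
    show l.sum F _ _ + r.sum F _ _ = l.sum F' _ _ + r.sum F' _ _
    rw [sum_congr l _ _ h.1, sum_congr r _ _ h.2]

lemma All.of_forall {P : Finset E → Finset E → Prop} (h : ∀ S H, P S H) :
    ∀ (t : DT E) (S H : Finset E), t.All P S H
  | leaf, S, H => h S H
  | node e l r, S, H => ⟨All.of_forall h l _ _, All.of_forall h r _ _⟩

lemma sum_add (F F' : Finset E → Finset E → ℝ) : ∀ (t : DT E) (S H : Finset E),
    t.sum (fun S H => F S H + F' S H) S H = t.sum F S H + t.sum F' S H
  | leaf, S, H => rfl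
  | node e l r, S, H => by
    show l.sum _ _ _ + r.sum _ _ _ = (l.sum F _ _ + r.sum F _ _) + (l.sum F' _ _ + r.sum F' _ _)
    rw [sum_add F F' l, sum_add F F' r]; ring

lemma sum_mul (c : ℝ) (F : Finset E → Finset E → ℝ) : ∀ (t : DT E) (S H : Finset E),
    t.sum (fun S H => c * F S H) S H = c * t.sum F S H
  | leaf, S, H => rfl
  | node e l r, S, H => by
    show l.sum _ _ _ + r.sum _ _ _ = c * (l.sum F _ _ + r.sum F _ _)
    rw [sum_mul c F l, sum_mul c F r]; ring

lemma sum_finset {ι : Type*} (s : Finset ι) (F : ι → Finset E → Finset E → ℝ) :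
    ∀ (t : DT E) (S H : Finset E),
    t.sum (fun S H => ∑ i ∈ s, F i S H) S H = ∑ i ∈ s, t.sum (F i) S H
  | leaf, S, H => rfl
  | node e l r, S, H => by
    show l.sum _ _ _ + r.sum _ _ _ = ∑ i ∈ s, (l.sum (F i) _ _ + r.sum (F i) _ _)
    rw [sum_finset s F l, sum_finset s F r, Finset.sum_add_distrib]

lemma sum_nonneg {F : Finset E → Finset E → ℝ} : ∀ (t : DT E) (S H : Finset E),
    t.All (fun S H => 0 ≤ F S H) S H → 0 ≤ t.sum F S H
  | leaf, S, H, h => h
  | node e l r, S, H, h => add_nonneg (sum_nonneg l _ _ h.1) (sum_nonneg r _ _ h.2)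

/-- Structure of the leaves: earlier answers are kept. -/
lemma Valid.all {D : Finset E} : ∀ (t : DT E) (S H : Finset E), t.Valid D S → H ⊆ S →
    t.All (fun S' H' => S ⊆ S' ∧ H ⊆ H' ∧ H' ⊆ S' ∧ S' ⊆ S ∪ D ∧ ∀ e ∈ S, e ∈ H' → e ∈ H) S H
  | leaf, S, H, _, hHS =>
    ⟨le_rfl, le_rfl, hHS, Finset.subset_union_left, fun e _ he => he⟩
  | node e l r, S, H, h, hHS => by
    have heD : e ∈ D := h.1
    refine ⟨?_, ?_⟩
    · refine All.imp ?_ l _ _ (Valid.all l (insert e S) H h.2.2.1
        (hHS.trans (Finset.subset_insert _ _)))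
      rintro S' H' ⟨h1, h2, h3, h4, h5⟩
      refine ⟨(Finset.subset_insert _ _).trans h1, h2, h3, ?_,
        fun a ha ha' => h5 a (Finset.mem_insert_of_mem ha) ha'⟩
      refine h4.trans ?_
      intro a ha
      rcases Finset.mem_union.1 ha with h | h'
      · rcases Finset.mem_insert.1 h with rfl | h''
        · exact Finset.mem_union_right _ heD
        · exact Finset.mem_union_left _ h''
      · exact Finset.mem_union_right _ h'
    · refine All.imp ?_ r _ _ (Valid.all r (insert e S) (insert e H) h.2.2.2
        (Finset.insert_subset_insert _ hHS))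
      rintro S' H' ⟨h1, h2, h3, h4, h5⟩
      refine ⟨(Finset.subset_insert _ _).trans h1, (Finset.subset_insert _ _).trans h2, h3, ?_,
        fun a ha ha' => ?_⟩
      · refine h4.trans ?_
        intro a ha
        rcases Finset.mem_union.1 ha with h | h'
        · rcases Finset.mem_insert.1 h with rfl | h''
          · exact Finset.mem_union_right _ heD
          · exact Finset.mem_union_left _ h''
        · exact Finset.mem_union_right _ h'
      · rcases Finset.mem_insert.1 (h5 a (Finset.mem_insert_of_mem ha) ha') with rfl | h''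
        · exact absurd ha h.2.1
        · exact h''

/-- The answer to the first query is seen at all leaves. -/
lemma Valid.all_closed {D : Finset E} (t : DT E) (S H : Finset E) (h : t.Valid D S) (hHS : H ⊆ S)
    {e : E} (he : e ∈ S) (heH : e ∉ H) : t.All (fun S' H' => e ∈ S' ∧ e ∉ H') S H := by
  refine All.imp ?_ t S H (Valid.all t S H h hHS)
  rintro S' H' ⟨h1, h2, h3, h4, h5⟩
  exact ⟨h1 he, fun h' => heH (h5 e he h')⟩

lemma Valid.all_open {D : Finset E} (t : DT E) (S H : Finset E) (h : t.Valid D S) (hHS : H ⊆ S)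
    {e : E} (heH : e ∈ H) : t.All (fun S' H' => e ∈ S' ∧ e ∈ H') S H := by
  refine All.imp ?_ t S H (Valid.all t S H h hHS)
  rintro S' H' ⟨h1, h2, h3, h4, h5⟩
  exact ⟨h1 (hHS heH), h2 heH⟩

/-- The partition identity. -/
lemma sum_partition {D : Finset E} (φ : Finset E → ℝ) : ∀ (t : DT E) (S H : Finset E),
    t.Valid D S →
    t.sum (fun S' H' => ∑ η ∈ (D \ S').powerset, φ (H' ∪ η)) S H
      = ∑ η ∈ (D \ S).powerset, φ (H ∪ η)
  | leaf, S, H, _ => rfl
  | node e l r, S, H, h => by
    show l.sum _ _ _ + r.sum _ _ _ = _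
    rw [sum_partition φ l _ _ h.2.2.1, sum_partition φ r _ _ h.2.2.2]
    have h1 : D \ S = insert e (D \ insert e S) := by
      ext a
      simp only [mem_sdiff, mem_insert]
      constructor
      · intro ha
        by_cases hae : a = e
        · exact Or.inl hae
        · exact Or.inr ⟨ha.1, fun h' => h'.elim hae ha.2⟩
      · rintro (rfl | ha)
        · exact ⟨h.1, h.2.1⟩
        · exact ⟨ha.1, fun h' => ha.2 (Or.inr h')⟩
    have h2 : e ∉ D \ insert e S := by simp
    rw [h1, Finset.sum_powerset_insert h2]
    congr 1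
    refine Finset.sum_congr rfl fun η _ => ?_
    congr 1
    ext a
    simp only [mem_union, mem_insert]
    tauto

/-- Multiplicity bound: with at most `K` queries in `R`, at most `2 ^ K` leaves are compatible with a
given configuration `η` read through `σ`. -/
lemma sum_mult {D : Finset E} (R : Finset E) (K : ℕ) (σ : E → E) (η : Finset E) :
    ∀ (t : DT E) (S H : Finset E), t.Valid D S → H ⊆ S →
    t.sum (fun S' H' => if (S' ∩ R).card ≤ K ∧ (∀ e ∈ S', e ∉ R → (e ∈ H' ↔ σ e ∈ η))
      then (1 : ℝ) else 0) S H
      ≤ if (S ∩ R).card ≤ K then (2 : ℝ) ^ (K - (S ∩ R).card) else 0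
  | leaf, S, H, _, _ => by
    show (if _ then (1 : ℝ) else 0) ≤ _
    by_cases h : (S ∩ R).card ≤ K
    · rw [if_pos h]
      split_ifs
      · exact one_le_pow₀ one_le_two
      · positivity
    · rw [if_neg h, if_neg (fun h' => h h'.1)]
  | node e l r, S, H, h, hHS => by
    show l.sum _ _ _ + r.sum _ _ _ ≤ _
    have hl := sum_mult R K σ η l (insert e S) H h.2.2.1 (hHS.trans (Finset.subset_insert _ _))
    have hr := sum_mult R K σ η r (insert e S) (insert e H) h.2.2.2
      (Finset.insert_subset_insert _ hHS)
    by_cases heR : e ∈ R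
    · have h1 : (insert e S) ∩ R = insert e (S ∩ R) := Finset.insert_inter_of_mem heR
      have h2 : (insert e (S ∩ R)).card = (S ∩ R).card + 1 :=
        Finset.card_insert_of_notMem (fun h' => h.2.1 (Finset.mem_inter.1 h').1)
      rw [h1, h2] at hl hr
      by_cases hK : (S ∩ R).card + 1 ≤ K
      · rw [if_pos hK] at hl hr
        rw [if_pos (by omega)]
        have h3 : K - (S ∩ R).card = (K - ((S ∩ R).card + 1)) + 1 := by omega
        rw [h3, pow_succ]
        linarith
      · rw [if_neg hK] at hl hr
        have h4 : (0 : ℝ) ≤ if (S ∩ R).card ≤ K then (2 : ℝ) ^ (K - (S ∩ R).card) else 0 := by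
          split_ifs <;> positivity
        linarith
    · have h1 : (insert e S) ∩ R = S ∩ R := Finset.insert_inter_of_notMem heR
      rw [h1] at hl hr
      by_cases hσ : σ e ∈ η
      · have hz : l.sum (fun S' H' => if (S' ∩ R).card ≤ K ∧
            (∀ e ∈ S', e ∉ R → (e ∈ H' ↔ σ e ∈ η)) then (1 : ℝ) else 0) (insert e S) H = 0 := by
          have := sum_congr (F := fun S' H' => if (S' ∩ R).card ≤ K ∧
            (∀ e ∈ S', e ∉ R → (e ∈ H' ↔ σ e ∈ η)) then (1 : ℝ) else 0)
            (F' := fun _ _ => (0 : ℝ) * 0) l (insert e S) H ?_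
          · rw [this, sum_mul, zero_mul]
          · refine All.imp ?_ l _ _ (Valid.all_closed l (insert e S) H h.2.2.1
              (hHS.trans (Finset.subset_insert _ _)) (Finset.mem_insert_self e S)
              (fun h' => h.2.1 (hHS h')))
            rintro S' H' ⟨h1, h2⟩
            rw [if_neg, mul_zero]
            rintro ⟨_, h4⟩
            exact h2 ((h4 e h1 heR).2 hσ)
        rw [hz, zero_add]
        exact hr
      · have hz : r.sum (fun S' H' => if (S' ∩ R).card ≤ K ∧
            (∀ e ∈ S', e ∉ R → (e ∈ H' ↔ σ e ∈ η)) then (1 : ℝ) else 0) (insert e S)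
              (insert e H) = 0 := by
          have := sum_congr (F := fun S' H' => if (S' ∩ R).card ≤ K ∧
            (∀ e ∈ S', e ∉ R → (e ∈ H' ↔ σ e ∈ η)) then (1 : ℝ) else 0)
            (F' := fun _ _ => (0 : ℝ) * 0) r (insert e S) (insert e H) ?_
          · rw [this, sum_mul, zero_mul]
          · refine All.imp ?_ r _ _ (Valid.all_open r (insert e S) (insert e H) h.2.2.2
              (Finset.insert_subset_insert _ hHS) (Finset.mem_insert_self e H))
            rintro S' H' ⟨h1, h2⟩
            rw [if_neg, mul_zero]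
            rintro ⟨_, h4⟩
            exact hσ ((h4 e h1 heR).1 h2)
        rw [hz, add_zero]
        exact hl

/-- Query all the edges of a list, then continue with the tree `t` (depending on the set of open
edges). -/
noncomputable def queryAll : List E → (Finset E → DT E) → Finset E → DT E
  | [], t, H => t H
  | e :: L, t, H => node e (queryAll L t H) (queryAll L t (insert e H))

end DT

end Pool.Agent.LoopO1
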