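import Pool.Agent.LoopO1_f0ab88.StageOneNum

/-!
# The second stage: the exploration tree and the tail of the number of queries
-/

open Finset

set_option linter.unusedSectionVars false
set_option linter.unusedVariables false

namespace Pool.Agent.LoopO1

variable {d : ℕ}

/-- Query all the edges of the box `m`, then explore from the sources. -/
noncomputable def tree2 (m : ℕ) (D : Finset (Edg d)) (A : Vtx d → ZMod 2) : DT (Edg d) :=
  DT.queryAll (ebox d m).toList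
    (fun ζ => (lat d).explore D.card (D \ ebox d m) (A + (lat d).bdS ζ) 0) ∅

/-- The weight of a leaf. -/
noncomputable def lw (x : ℝ) (D : Finset (Edg d)) (A : Vtx d → ZMod 2) (S H : Finset (Edg d)) : ℝ :=
  x ^ H.card * (lat d).Zp x (D \ S) (A + (lat d).bdS H)

lemma lw_nonneg {x : ℝ} (hx : 0 ≤ x) (D : Finset (Edg d)) (A : Vtx d → ZMod 2)
    (S H : Finset (Edg d)) : 0 ≤ lw x D A S H :=
  mul_nonneg (pow_nonneg hx _) (Z_nonneg hx _ _)

lemma toFinset_ebox (m : ℕ) : (ebox d m).toList.toFinset = ebox d m := Finset.toList_toFinset _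

lemma tree2_valid {m : ℕ} {D : Finset (Edg d)} (hD : ebox d m ⊆ D) (A : Vtx d → ZMod 2) :
    (tree2 m D A).Valid D ∅ := by
  unfold tree2
  refine Gr.queryAll_valid D _ _ ∅ ∅ (Finset.nodup_toList _) ?_ ?_ ?_
  · intro e he
    exact hD (Finset.mem_toList.1 he)
  · intro e _
    exact Finset.notMem_empty e
  · intro H'
    rw [toFinset_ebox, Finset.empty_union]
    refine Gr.explore_valid D _ _ _ _ _ Finset.sdiff_subset Finset.sdiff_disjoint

lemma tree2_resolved {x : ℝ} {m : ℕ} {D : Finset (Edg d)} (hD : ebox d m ⊆ D)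
    (A : Vtx d → ZMod 2) :
    (tree2 m D A).All (fun S H => A + (lat d).bdS H = 0 ∨
      (lat d).Zp x (D \ S) (A + (lat d).bdS H) = 0) ∅ ∅ := by
  unfold tree2
  refine Gr.queryAll_all _ _ _ ∅ ∅ (Finset.nodup_toList _) (fun e _ => Finset.notMem_empty e) ?_
  intro ζ hζ
  rw [toFinset_ebox] at hζ ⊢
  rw [Finset.empty_union, Finset.empty_union]
  exact Gr.explore_all D A _ _ _ _ _ _ (Finset.card_le_card Finset.sdiff_subset) rfl hζ rfl

lemma tree2_contains {m : ℕ} {D : Finset (Edg d)} (hD : ebox d m ⊆ D) (A : Vtx d → ZMod 2) :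
    (tree2 m D A).All (fun S H => ebox d m ⊆ S) ∅ ∅ := by
  unfold tree2
  refine Gr.queryAll_all _ _ _ ∅ ∅ (Finset.nodup_toList _) (fun e _ => Finset.notMem_empty e) ?_
  intro ζ hζ
  rw [toFinset_ebox] at hζ ⊢
  rw [Finset.empty_union, Finset.empty_union]
  refine DT.All.imp ?_ _ _ _ (DT.Valid.all _ _ _ (Gr.explore_valid D _ _ _ _ _ Finset.sdiff_subset
    Finset.sdiff_disjoint) hζ)
  rintro S H ⟨h1, -⟩
  exact h1

lemma tree2_sum_lw {x : ℝ} {m : ℕ} {D : Finset (Edg d)} (hD : ebox d m ⊆ D)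
    (A : Vtx d → ZMod 2) : (tree2 m D A).sum (lw x D A) ∅ ∅ = (lat d).Zp x D A := by
  have h := Gr.EZ_tree (G := lat d) (x := x) D A (fun _ => (1 : ℝ)) (tree2 m D A) (tree2_valid hD A)
  rw [Gr.EZ_one] at h
  rw [← h]
  refine DT.sum_congr _ _ _ (DT.All.of_forall (fun S H => ?_) _ _ _)
  unfold lw
  rw [Gr.EZ_one]

/-- Functions of the configuration in the box `m` are read off at the leaves. -/
lemma tree2_sum_local {x : ℝ} {m : ℕ} {D : Finset (Edg d)} (hD : ebox d m ⊆ D)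
    (A : Vtx d → ZMod 2) (F : Finset (Edg d) → ℝ) :
    (lat d).EZ x D A (fun η => F (η ∩ ebox d m)) =
      (tree2 m D A).sum (fun S H => lw x D A S H * F (H ∩ ebox d m)) ∅ ∅ := by
  rw [← Gr.EZ_tree D A (fun η => F (η ∩ ebox d m)) (tree2 m D A) (tree2_valid hD A)]
  refine DT.sum_congr _ _ _ (DT.All.imp ?_ _ _ _ (tree2_contains hD A))
  intro S H hS
  have h1 : (lat d).EZ x (D \ S) (A + (lat d).bdS H) (fun η => F ((H ∪ η) ∩ ebox d m))
      = (lat d).EZ x (D \ S) (A + (lat d).bdS H) (fun _ => F (H ∩ ebox d m)) := by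
    refine Gr.EZ_congr _ _ fun η hη => ?_
    congr 1
    ext e
    simp only [mem_inter, mem_union]
    constructor
    · rintro ⟨h1 | h1, h2⟩
      · exact ⟨h1, h2⟩
      · exact absurd (hS h2) (Finset.mem_sdiff.1 (hη h1)).2
    · rintro ⟨h1, h2⟩
      exact ⟨Or.inl h1, h2⟩
  rw [h1, Gr.EZ_const]
  unfold lw
  ring

lemma Zp_anti {x : ℝ} (hx : 0 ≤ x) {D' D : Finset (Edg d)} (h : D' ⊆ D) :
    (lat d).Zp x D' 0 ≤ (lat d).Zp x D 0 := by
  classical
  unfold Gr.Zp Z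
  refine Finset.sum_le_sum_of_subset_of_nonneg (Finset.powerset_mono.2 h) fun η _ _ => ?_
  split_ifs
  · exact pow_nonneg hx _
  · exact le_rfl

namespace HasDecay

variable {x C ρ : ℝ} (h : HasDecay d x C ρ)

include h

/-- The base of the exponential moment. -/
noncomputable def cc (_ : HasDecay d x C ρ) : ℝ := 1 + 1 / (‹HasDecay d x C ρ›).CB

lemma cc_gt : 1 < h.cc := by
  unfold cc
  have := h.CB_pos
  have : 0 < 1 / h.CB := by positivity
  linarith

/-- The exponential moment of the number of queries. -/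
lemma moment (m k₀ : ℕ) : ∃ M₀ : ℝ, 0 ≤ M₀ ∧ ∀ (D : Finset (Edg d)) (T : Finset (Vtx d)),
    ebox d m ⊆ D → T.card ≤ k₀ →
    (tree2 m D (Gr.ind T)).sum (fun S H => h.cc ^ S.card * lw x D (Gr.ind T) S H) ∅ ∅
      ≤ M₀ * (lat d).Zp x D 0 := by
  classical
  have hx := h.x_pos.le
  have hx1 := h.x_lt.le
  have hCB := h.CB_pos
  have hcc := h.cc_gt
  set cm : ℝ := ∑ k ∈ Finset.range (k₀ + (box d m).card + 1), Gr.cst h.CB k with hcm
  have hcm0 : 0 ≤ cm := Finset.sum_nonneg fun k _ => Gr.cst_nonneg hCB.le k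
  refine ⟨(ebox d m).powerset.card * (h.cc ^ (ebox d m).card * cm), by positivity,
    fun D T hD hT => ?_⟩
  unfold tree2
  rw [Gr.queryAll_sum _ _ _ ∅ ∅ (Finset.nodup_toList _) (fun e _ => Finset.notMem_empty e),
    toFinset_ebox, mul_assoc, ← nsmul_eq_mul]
  refine Finset.sum_le_card_nsmul _ _ _ fun ζ hζ => ?_
  have hζm := Finset.mem_powerset.1 hζ
  rw [Finset.empty_union, Finset.empty_union]
  set A := Gr.ind T + (lat d).bdS ζ with hA
  set tr := (lat d).explore D.card (D \ ebox d m) A 0 with htr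
  have hval : tr.Valid D (ebox d m) :=
    Gr.explore_valid D _ _ _ _ _ Finset.sdiff_subset Finset.sdiff_disjoint
  have h1 := Gr.sum_eq_wsum (G := lat d) (x := x) h.cc ((lat d).Zp x) D (Gr.ind T) tr (ebox d m) ζ
    hval hζm
  have h2 : tr.sum (fun S H => h.cc ^ S.card * lw x D (Gr.ind T) S H) (ebox d m) ζ
      = tr.sum (fun S H => h.cc ^ S.card * x ^ H.card *
          (lat d).Zp x (D \ S) (Gr.ind T + (lat d).bdS H)) (ebox d m) ζ := by
    refine DT.sum_congr _ _ _ (DT.All.of_forall (fun S H => ?_) _ _ _)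
    unfold lw
    ring
  rw [h2, h1]
  -- the exploration bound
  set W := T ∪ box d m with hW
  have hAW : ∀ u, A u = 1 → u ∈ W := by
    intro u hu
    by_contra hne
    rw [hW, Finset.mem_union, not_or] at hne
    have h3 : Gr.ind T u = 0 := by rw [Gr.ind_apply, if_neg hne.1]
    have h4 : (lat d).bdS ζ u = 0 := by
      apply Gr.bdS_apply_eq_zero
      intro e he hi
      exact hne.2 (ends_of_mem_ebox (hζm he) hi)
    rw [hA, Pi.add_apply, h3, h4, add_zero] at hu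
    exact absurd hu (by decide)
  have h3 := (Gr.explore_moment (G := lat d) hx hx1 h.BB_le hCB.le D.card).2 (D \ ebox d m) A 0
    (supp W A) (Finset.card_le_card Finset.sdiff_subset)
    (fun u => ⟨fun hu => mem_supp.2 ⟨hAW u hu, hu⟩, fun hu => (mem_supp.1 hu).2⟩)
  have h4 : (supp W A).card ≤ k₀ + (box d m).card := by
    refine (Finset.card_le_card (fun u hu => (mem_supp.1 hu).1)).trans ?_
    exact (Finset.card_union_le _ _).trans (by omega)
  have h5 : Gr.cst h.CB (supp W A).card ≤ cm := by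
    rw [hcm]
    exact Finset.single_le_sum (f := fun k => Gr.cst h.CB k)
      (fun k _ => Gr.cst_nonneg hCB.le k) (Finset.mem_range.2 (by omega))
  have h6 : (lat d).Zp x (D \ ebox d m) 0 ≤ (lat d).Zp x D 0 := Zp_anti hx Finset.sdiff_subset
  have h7 : 0 ≤ (lat d).Zp x (D \ ebox d m) 0 := Z_nonneg hx _ _
  have h8 : (lat d).wsum x h.cc ((lat d).Zp x) tr (D \ ebox d m) A ≤ cm * (lat d).Zp x D 0 :=
    h3.trans (mul_le_mul h5 h6 h7 hcm0)
  have h9 : 0 ≤ cm * (lat d).Zp x D 0 := mul_nonneg hcm0 (Z_nonneg hx _ _)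
  have h10 : h.cc ^ (ebox d m).card * x ^ ζ.card ≤ h.cc ^ (ebox d m).card * 1 :=
    mul_le_mul_of_nonneg_left (pow_le_one₀ hx hx1) (by positivity)
  calc h.cc ^ (ebox d m).card * x ^ ζ.card * (lat d).wsum x h.cc ((lat d).Zp x) tr (D \ ebox d m) A
      ≤ h.cc ^ (ebox d m).card * x ^ ζ.card * (cm * (lat d).Zp x D 0) :=
        mul_le_mul_of_nonneg_left h8 (by positivity)
    _ ≤ h.cc ^ (ebox d m).card * 1 * (cm * (lat d).Zp x D 0) := mul_le_mul_of_nonneg_right h10 h9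
    _ = _ := by ring

/-- The tail of the number of queries. -/
theorem explore_tail (k₀ : ℕ) : ∃ K₁ : ℕ, ∀ (m : ℕ) (δ : ℝ), 0 < δ → ∃ n₀ : ℕ, ∀ n, n₀ ≤ n →
    ∀ (D : Finset (Edg d)) (T : Finset (Vtx d)), ebox d (8 * n) ⊆ D → T ⊆ box d (8 * n) →
      T.card < k₀ → Even T.card →
      (tree2 m D (Gr.ind T)).sum
        (fun S H => if K₁ * n < S.card then lw x D (Gr.ind T) S H else 0) ∅ ∅
      ≤ δ * (lat d).Zp x D (Gr.ind T) := by
  classical
  have hx := h.x_pos.le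
  have hx1 := h.x_lt.le
  have hcc := h.cc_gt
  have hcc0 : 0 < h.cc := by linarith
  have hci : h.cc⁻¹ < 1 := inv_lt_one_of_one_lt₀ hcc
  obtain ⟨K₁, hK₁⟩ := exists_pow_lt_of_lt_one
    (show (0 : ℝ) < x ^ (2 * d * 8 * k₀) / 2 from div_pos (pow_pos h.x_pos _) two_pos) hci
  refine ⟨K₁, fun m δ hδ => ?_⟩
  obtain ⟨M₀, hM₀, hM⟩ := h.moment m k₀
  have e1 : ∀ᶠ n : ℕ in Filter.atTop, M₀ * (1 / 2 : ℝ) ^ n < δ := by
    have : Filter.Tendsto (fun n : ℕ => M₀ * (1 / 2 : ℝ) ^ n) Filter.atTop (nhds 0) := by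
      have := (tendsto_pow_atTop_nhds_zero_of_lt_one (r := (1 / 2 : ℝ)) (by norm_num)
        (by norm_num)).const_mul M₀
      rwa [mul_zero] at this
    exact this.eventually (gt_mem_nhds hδ)
  obtain ⟨n₀, hn₀⟩ := Filter.eventually_atTop.1 e1
  refine ⟨max n₀ m, fun n hn D T hD hT hTk hTe => ?_⟩
  have hn1 := hn₀ n ((le_max_left _ _).trans hn)
  have hmn : m ≤ n := (le_max_right _ _).trans hn
  have hDm : ebox d m ⊆ D := (ebox_mono (by omega)).trans hD
  have h1 := hM D T hDm hTk.le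
  -- pointwise comparison
  have h2 : (tree2 m D (Gr.ind T)).sum
      (fun S H => if K₁ * n < S.card then lw x D (Gr.ind T) S H else 0) ∅ ∅
      ≤ (tree2 m D (Gr.ind T)).sum
        (fun S H => (h.cc⁻¹) ^ (K₁ * n) * (h.cc ^ S.card * lw x D (Gr.ind T) S H)) ∅ ∅ := by
    refine DT.sum_le_sum _ _ _ (DT.All.of_forall (fun S H => ?_) _ _ _)
    have hl := lw_nonneg hx D (Gr.ind T) S H
    split_ifs with hc
    · have h3 : (1 : ℝ) ≤ (h.cc⁻¹) ^ (K₁ * n) * h.cc ^ S.card := by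
        have h4 : h.cc ^ (K₁ * n) ≤ h.cc ^ S.card := pow_le_pow_right₀ hcc.le hc.le
        calc (1 : ℝ) = (h.cc⁻¹) ^ (K₁ * n) * h.cc ^ (K₁ * n) := by
              rw [← mul_pow, inv_mul_cancel₀ hcc0.ne', one_pow]
          _ ≤ _ := mul_le_mul_of_nonneg_left h4 (by positivity)
      nlinarith
    · positivity
  rw [DT.sum_mul] at h2
  have h3 : (h.cc⁻¹) ^ (K₁ * n) ≤ (1 / 2 : ℝ) ^ n * (x ^ (2 * d * (8 * n))) ^ k₀ := by
    calc (h.cc⁻¹) ^ (K₁ * n) = ((h.cc⁻¹) ^ K₁) ^ n := by rw [pow_mul]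
      _ ≤ (x ^ (2 * d * 8 * k₀) / 2) ^ n := pow_le_pow_left₀ (by positivity) hK₁.le _
      _ = _ := by
          rw [div_eq_mul_inv, mul_pow, ← pow_mul, ← pow_mul, one_div, mul_comm]
          congr 2
          ring
  have h4 : (x ^ (2 * d * (8 * n))) ^ k₀ * (lat d).Zp x D 0 ≤ (lat d).Zp x D (Gr.ind T) := by
    obtain ⟨k, hk⟩ := hTe
    have h5 := Gr.gp_pair_ge (G := lat d) hx hx1 D (c := x ^ (2 * d * (8 * n))) (pow_nonneg hx _)
      k T (by omega) (fun u hu v hv => tp_box hx hx1 hD (hT hu) (hT hv))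
    have h6 : (x ^ (2 * d * (8 * n))) ^ k₀ ≤ (x ^ (2 * d * (8 * n))) ^ k :=
      pow_le_pow_of_le_one (pow_nonneg hx _) (pow_le_one₀ hx hx1) (by omega)
    rw [Zp_eq_gp x hx D (Gr.ind T)]
    exact mul_le_mul_of_nonneg_right (h6.trans h5) (Z_nonneg hx _ _)
  have hZ0 : 0 ≤ (lat d).Zp x D 0 := Z_nonneg hx _ _
  have hZT : 0 ≤ (lat d).Zp x D (Gr.ind T) := Z_nonneg hx _ _
  refine h2.trans ?_
  calc (h.cc⁻¹) ^ (K₁ * n) * (tree2 m D (Gr.ind T)).sum
        (fun S H => h.cc ^ S.card * lw x D (Gr.ind T) S H) ∅ ∅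
      ≤ (h.cc⁻¹) ^ (K₁ * n) * (M₀ * (lat d).Zp x D 0) :=
        mul_le_mul_of_nonneg_left h1 (by positivity)
    _ ≤ ((1 / 2 : ℝ) ^ n * (x ^ (2 * d * (8 * n))) ^ k₀) * (M₀ * (lat d).Zp x D 0) :=
        mul_le_mul_of_nonneg_right h3 (by positivity)
    _ = (M₀ * (1 / 2 : ℝ) ^ n) * ((x ^ (2 * d * (8 * n))) ^ k₀ * (lat d).Zp x D 0) := by ring
    _ ≤ (M₀ * (1 / 2 : ℝ) ^ n) * (lat d).Zp x D (Gr.ind T) :=
        mul_le_mul_of_nonneg_left h4 (by positivity)
    _ ≤ δ * (lat d).Zp x D (Gr.ind T) := mul_le_mul_of_nonneg_right hn1.le hZT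

end HasDecay

end Pool.Agent.LoopO1
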